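import Pool.Agent.Q4.StA

/-!
# Q4, module ALBE: isotropic Albert forms

Statement: `St_ALBE` in `Pool/Agent/Q4/StA.lean`. It is enough to find pure quaternions `x`, `y` with
`x² = y² = e ≠ 0` (an isotropic ternary form is universal); then the two algebras are isomorphic to
`ℍ[K,e,b']` and `ℍ[K,e,d']`, and `ℍ[K,e,b'] ⊗ ℍ[K,e,d']` is isomorphic to `M_2(ℍ[K,e,b'd'])` by
`i ⊗ 1 ↦ i`, `j ⊗ 1 ↦ !![0, j; d'⁻¹ j, 0]`, `1 ⊗ i ↦ !![i, 0; 0, -i]`, `1 ⊗ j ↦ !![0, d'; 1, 0]`.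
-/

set_option autoImplicit false

namespace Pool.Agent.Q4

open Quaternion TensorProduct Function

section

variable {K : Type} [Field K]

/-- homomorphisms from quaternion algebras -/
private theorem ALBE_hom {Λ : Type} [Ring Λ] [Algebra K Λ] (e f : K) (x z : Λ)
    (hx : x * x = algebraMap K Λ e) (hz : z * z = algebraMap K Λ f) (hzx : z * x = -(x * z)) :
    ∃ φ : ℍ[K,e,f] →ₐ[K] Λ, ∀ q : ℍ[K,e,f], φ q =
      algebraMap K Λ q.re + q.imI • x + q.imJ • z + q.imK • (x * z) := by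
  let B : QuaternionAlgebra.Basis Λ e 0 f :=
    { i := x
      j := z
      k := x * z
      i_mul_i := by rw [zero_smul, add_zero, hx, Algebra.algebraMap_eq_smul_one]
      j_mul_j := by rw [hz, Algebra.algebraMap_eq_smul_one]
      i_mul_j := rfl
      j_mul_i := by rw [zero_smul, zero_sub, hzx] }
  exact ⟨B.liftHom, fun q => rfl⟩

/-- homomorphisms from a quaternion algebra to a nontrivial algebra are injective -/
private theorem ALBE_inj {Λ : Type} [Ring Λ] [Algebra K Λ] [Nontrivial Λ] (a b : K)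
    (h2 : (2 : K) ≠ 0) (ha : a ≠ 0) (hb : b ≠ 0) (f : ℍ[K,a,b] →ₐ[K] Λ) : Injective f := by
  have h4 : (4 : K) ≠ 0 := by
    have : (4 : K) = 2 * 2 := by norm_num
    rw [this]
    exact mul_ne_zero h2 h2
  have hre : ∀ w : ℍ[K,a,b], f w = 0 → w.re = 0 := by
    intro w hw
    have h1 : algebraMap K ℍ[K,a,b] (4 * a * b * w.re) =
        algebraMap K ℍ[K,a,b] b * (algebraMap K ℍ[K,a,b] a * w +
          (⟨0, 1, 0, 0⟩ : ℍ[K,a,b]) * (w * (⟨0, 1, 0, 0⟩ : ℍ[K,a,b]))) +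
        (⟨0, 0, 1, 0⟩ : ℍ[K,a,b]) * ((algebraMap K ℍ[K,a,b] a * w +
          (⟨0, 1, 0, 0⟩ : ℍ[K,a,b]) * (w * (⟨0, 1, 0, 0⟩ : ℍ[K,a,b]))) *
            (⟨0, 0, 1, 0⟩ : ℍ[K,a,b])) := by
      rw [QuaternionAlgebra.algebraMap_eq, QuaternionAlgebra.algebraMap_eq,
        QuaternionAlgebra.algebraMap_eq]
      ext <;> simp
      ring
    have h3 : f (algebraMap K ℍ[K,a,b] (4 * a * b * w.re)) = 0 := by
      rw [h1]
      simp only [map_add, map_mul, hw, mul_zero, zero_mul, add_zero]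
    rw [AlgHom.commutes] at h3
    have h5 : 4 * a * b * w.re = 0 := by
      by_contra hne
      have h6 := (algebraMap K Λ).injective (a₁ := 4 * a * b * w.re) (a₂ := 0)
        (by rw [h3, map_zero])
      exact hne h6
    rcases mul_eq_zero.1 h5 with h | h
    · exact absurd h (mul_ne_zero (mul_ne_zero h4 ha) hb)
    · exact h
  rw [injective_iff_map_eq_zero]
  intro z hz
  have e0 := hre z hz
  have e1 := hre ((⟨0, 1, 0, 0⟩ : ℍ[K,a,b]) * z) (by rw [map_mul, hz, mul_zero])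
  have e2 := hre ((⟨0, 0, 1, 0⟩ : ℍ[K,a,b]) * z) (by rw [map_mul, hz, mul_zero])
  have e3 := hre ((⟨0, 0, 0, 1⟩ : ℍ[K,a,b]) * z) (by rw [map_mul, hz, mul_zero])
  have f1 : ((⟨0, 1, 0, 0⟩ : ℍ[K,a,b]) * z).re = a * z.imI := by simp
  have f2 : ((⟨0, 0, 1, 0⟩ : ℍ[K,a,b]) * z).re = b * z.imJ := by simp
  have f3 : ((⟨0, 0, 0, 1⟩ : ℍ[K,a,b]) * z).re = -(a * b) * z.imK := by simp
  rw [f1] at e1
  rw [f2] at e2
  rw [f3] at e3
  ext
  · exact e0
  · exact (mul_eq_zero.1 e1).resolve_left ha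
  · exact (mul_eq_zero.1 e2).resolve_left hb
  · exact (mul_eq_zero.1 e3).resolve_left (neg_ne_zero.2 (mul_ne_zero ha hb))

/-- a quaternion algebra with a pure element of square `e ≠ 0` -/
private theorem ALBE_one (h2 : (2 : K) ≠ 0) {a b e : K} (ha : a ≠ 0) (hb : b ≠ 0) (he : e ≠ 0)
    (x1 x2 x3 : K) (hx : a * x1 ^ 2 + b * x2 ^ 2 - a * b * x3 ^ 2 = e) :
    ∃ b' : K, b' ≠ 0 ∧ Nonempty (ℍ[K,a,b] ≃ₐ[K] ℍ[K,e,b']) := by
  obtain ⟨z1, z2, z3, hz0, hxz⟩ : ∃ z1 z2 z3 : K, a * z1 ^ 2 + b * z2 ^ 2 - a * b * z3 ^ 2 ≠ 0 ∧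
      a * (x1 * z1) + b * (x2 * z2) - a * b * (x3 * z3) = 0 := by
    by_cases h1 : b * x2 ^ 2 + a * x1 ^ 2 = 0
    · by_cases h3 : b * x3 ^ 2 - x1 ^ 2 = 0
      · refine ⟨0, a * x3, x2, ?_, by ring⟩
        intro h4
        have h5 : a * x3 ^ 2 - x2 ^ 2 = 0 := by
          have h6 : a * b * (a * x3 ^ 2 - x2 ^ 2) = 0 := by linear_combination h4
          exact (mul_eq_zero.1 h6).resolve_left (mul_ne_zero ha hb)
        have h6 : 2 * (a * b * x3 ^ 2) = 0 := by linear_combination h1 + b * h5 + a * h3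
        have h7 : x3 = 0 := by
          have h8 := (mul_eq_zero.1 h6).resolve_left h2
          exact pow_eq_zero_iff (two_ne_zero) |>.1
            ((mul_eq_zero.1 h8).resolve_left (mul_ne_zero ha hb))
        apply he
        rw [← hx, h7]
        linear_combination h1
      · refine ⟨b * x3, 0, x1, ?_, by ring⟩
        intro h4
        have h6 : a * b * (b * x3 ^ 2 - x1 ^ 2) = 0 := by linear_combination h4
        exact h3 ((mul_eq_zero.1 h6).resolve_left (mul_ne_zero ha hb))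
    · refine ⟨b * x2, -(a * x1), 0, ?_, by ring⟩
      intro h4
      have h6 : a * b * (b * x2 ^ 2 + a * x1 ^ 2) = 0 := by linear_combination h4
      exact h1 ((mul_eq_zero.1 h6).resolve_left (mul_ne_zero ha hb))
  obtain ⟨b', hb'⟩ : ∃ b' : K, b' = a * z1 ^ 2 + b * z2 ^ 2 - a * b * z3 ^ 2 := ⟨_, rfl⟩
  rw [← hb'] at hz0
  refine ⟨b', hz0, ?_⟩
  obtain ⟨φ, -⟩ := ALBE_hom (Λ := ℍ[K,a,b]) e b' ⟨0, x1, x2, x3⟩ ⟨0, z1, z2, z3⟩
    (by
      rw [QuaternionAlgebra.algebraMap_eq]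
      ext <;> simp <;> first | ring1 | linear_combination hx)
    (by
      rw [QuaternionAlgebra.algebraMap_eq]
      ext <;> simp <;> first | ring1 | linear_combination -hb')
    (by
      ext <;> simp <;> first | ring1 | linear_combination 2 * hxz)
  have hinj : Injective φ := ALBE_inj e b' h2 he hz0 φ
  have hfin : Module.finrank K ℍ[K,e,b'] = Module.finrank K ℍ[K,a,b] := by
    rw [QuaternionAlgebra.finrank_eq_four, QuaternionAlgebra.finrank_eq_four]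
  have hsurj : Surjective φ :=
    (LinearMap.injective_iff_surjective_of_finrank_eq_finrank hfin
      (f := φ.toLinearMap)).1 hinj
  exact ⟨(AlgEquiv.ofBijective φ ⟨hinj, hsurj⟩).symm⟩

/-- an isotropic ternary form is universal -/
private theorem ALBE_univ (h2 : (2 : K) ≠ 0) {a b : K} (ha : a ≠ 0) (hb : b ≠ 0)
    (x1 x2 x3 : K) (hx : a * x1 ^ 2 + b * x2 ^ 2 - a * b * x3 ^ 2 = 0)
    (h0 : x1 ≠ 0 ∨ x2 ≠ 0 ∨ x3 ≠ 0) (t : K) :
    ∃ z1 z2 z3 : K, a * z1 ^ 2 + b * z2 ^ 2 - a * b * z3 ^ 2 = t := by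
  rcases h0 with h | h | h
  · obtain ⟨s, hs⟩ : ∃ s : K, s * (2 * a * x1) = t - a :=
      ⟨(t - a) / (2 * a * x1), div_mul_cancel₀ _ (mul_ne_zero (mul_ne_zero h2 ha) h)⟩
    exact ⟨s * x1 + 1, s * x2, s * x3, by linear_combination hs + s ^ 2 * hx⟩
  · obtain ⟨s, hs⟩ : ∃ s : K, s * (2 * b * x2) = t - b :=
      ⟨(t - b) / (2 * b * x2), div_mul_cancel₀ _ (mul_ne_zero (mul_ne_zero h2 hb) h)⟩
    exact ⟨s * x1, s * x2 + 1, s * x3, by linear_combination hs + s ^ 2 * hx⟩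
  · obtain ⟨s, hs⟩ : ∃ s : K, s * (-(2 * (a * b) * x3)) = t + a * b :=
      ⟨(t + a * b) / (-(2 * (a * b) * x3)), div_mul_cancel₀ _
        (neg_ne_zero.2 (mul_ne_zero (mul_ne_zero h2 (mul_ne_zero ha hb)) h))⟩
    exact ⟨s * x1, s * x2, s * x3 + 1, by linear_combination hs + s ^ 2 * hx⟩

/-- elements commuting with the generators -/
private theorem ALBE_comm {Λ : Type} [Ring Λ] [Algebra K Λ] {e f : K} {x z t : Λ}
    {φ : ℍ[K,e,f] →ₐ[K] Λ} (hφ : ∀ q : ℍ[K,e,f], φ q =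
      algebraMap K Λ q.re + q.imI • x + q.imJ • z + q.imK • (x * z))
    (hx : Commute x t) (hz : Commute z t) (q : ℍ[K,e,f]) : Commute (φ q) t := by
  rw [hφ]
  have h0 : Commute (algebraMap K Λ q.re) t := Algebra.commutes q.re t
  exact ((h0.add_left (hx.smul_left _)).add_left (hz.smul_left _)).add_left
    ((hx.mul_left hz).smul_left _)

/-- the matrix algebra -/
private theorem ALBE_two (h2 : (2 : K) ≠ 0) {e b' d' : K} (he : e ≠ 0) (hd : d' ≠ 0) :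
    Nonempty (ℍ[K,e,b'] ⊗[K] ℍ[K,e,d'] ≃ₐ[K]
      Matrix (Fin 2) (Fin 2) ℍ[K,e,b' * d']) := by
  obtain ⟨i, hi⟩ : ∃ i : ℍ[K,e,b' * d'], i = ⟨0, 1, 0, 0⟩ := ⟨_, rfl⟩
  obtain ⟨j, hj⟩ : ∃ j : ℍ[K,e,b' * d'], j = ⟨0, 0, 1, 0⟩ := ⟨_, rfl⟩
  have hii : i * i = algebraMap K _ e := by
    rw [hi, QuaternionAlgebra.algebraMap_eq]
    ext <;> simp
  have hjj : j * j = algebraMap K _ (b' * d') := by
    rw [hj, QuaternionAlgebra.algebraMap_eq]
    ext <;> simp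
  have hji : j * i = -(i * j) := by
    rw [hi, hj]
    ext <;> simp
  have hq : ∀ q : ℍ[K,e,b' * d'], q = algebraMap K _ q.re + q.imI • i + q.imJ • j +
      q.imK • (i * j) := by
    intro q
    rw [hi, hj, QuaternionAlgebra.algebraMap_eq]
    ext <;> simp
  have hscal : ∀ r : K, algebraMap K (Matrix (Fin 2) (Fin 2) ℍ[K,e,b' * d']) r =
      !![algebraMap K _ r, 0; 0, algebraMap K _ r] := by
    intro r
    refine Matrix.ext fun s t => ?_
    rw [Matrix.algebraMap_matrix_apply]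
    fin_cases s <;> fin_cases t <;> rfl
  obtain ⟨A1, hA1⟩ : ∃ A1 : Matrix (Fin 2) (Fin 2) ℍ[K,e,b' * d'], A1 = !![i, 0; 0, i] :=
    ⟨_, rfl⟩
  obtain ⟨B1, hB1⟩ : ∃ B1 : Matrix (Fin 2) (Fin 2) ℍ[K,e,b' * d'],
      B1 = !![0, j; d'⁻¹ • j, 0] := ⟨_, rfl⟩
  obtain ⟨A2, hA2⟩ : ∃ A2 : Matrix (Fin 2) (Fin 2) ℍ[K,e,b' * d'], A2 = !![i, 0; 0, -i] :=
    ⟨_, rfl⟩
  obtain ⟨D, hD⟩ : ∃ D : ℍ[K,e,b' * d'], D = algebraMap K _ d' := ⟨_, rfl⟩
  obtain ⟨B2, hB2⟩ : ∃ B2 : Matrix (Fin 2) (Fin 2) ℍ[K,e,b' * d'],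
      B2 = !![0, D; 1, 0] := ⟨_, rfl⟩
  have hd1 : ∀ q : ℍ[K,e,b' * d'], q * D = d' • q := fun q => by
    rw [hD, ← Algebra.commutes, ← Algebra.smul_def]
  have hd2 : ∀ q : ℍ[K,e,b' * d'], D * q = d' • q := fun q => by
    rw [hD, ← Algebra.smul_def]
  have hd3 : d'⁻¹ • D = 1 := by
    rw [hD, Algebra.smul_def, ← map_mul, inv_mul_cancel₀ hd, map_one]
  obtain ⟨φ1, hφ1⟩ := ALBE_hom e b' A1 B1
    (by rw [hA1, Matrix.mul_fin_two, hscal]; simp [hii])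
    (by
      rw [hB1, Matrix.mul_fin_two, hscal]
      have h1 : d'⁻¹ • (j * j) = algebraMap K ℍ[K,e,b' * d'] b' := by
        rw [hjj, Algebra.smul_def, ← map_mul]
        congr 1
        field_simp
      simp [h1])
    (by
      rw [hA1, hB1, Matrix.mul_fin_two, Matrix.mul_fin_two]
      simp [hji])
  obtain ⟨φ2, hφ2⟩ := ALBE_hom e d' A2 B2
    (by rw [hA2, Matrix.mul_fin_two, hscal]; simp [hii])
    (by rw [hB2, Matrix.mul_fin_two, hscal, ← hD]; simp)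
    (by
      rw [hA2, hB2, Matrix.mul_fin_two, Matrix.mul_fin_two]
      simp [hd1, hd2])
  have c1 : Commute A1 A2 := by
    show A1 * A2 = A2 * A1
    rw [hA1, hA2, Matrix.mul_fin_two, Matrix.mul_fin_two]
    simp
  have c2 : Commute A1 B2 := by
    show A1 * B2 = B2 * A1
    rw [hA1, hB2, Matrix.mul_fin_two, Matrix.mul_fin_two]
    simp [hd1, hd2]
  have c3 : Commute B1 A2 := by
    show B1 * A2 = A2 * B1
    rw [hB1, hA2, Matrix.mul_fin_two, Matrix.mul_fin_two]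
    simp [hji]
  have c4 : Commute B1 B2 := by
    show B1 * B2 = B2 * B1
    rw [hB1, hB2, Matrix.mul_fin_two, Matrix.mul_fin_two]
    simp [hd1, hd2, smul_smul, hd]
  have hcomm : ∀ x y, Commute (φ1 x) (φ2 y) := fun x y =>
    ALBE_comm hφ1 (ALBE_comm hφ2 c1.symm c2.symm y).symm (ALBE_comm hφ2 c3.symm c4.symm y).symm x
  let Φ : ℍ[K,e,b'] ⊗[K] ℍ[K,e,d'] →ₐ[K] Matrix (Fin 2) (Fin 2) ℍ[K,e,b' * d'] :=
    Algebra.TensorProduct.lift φ1 φ2 hcomm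
  have hΦ : ∀ x y, Φ (x ⊗ₜ y) = φ1 x * φ2 y := fun x y =>
    Algebra.TensorProduct.lift_tmul _ _ _ x y
  obtain ⟨S, hS⟩ : ∃ S : Subalgebra K (Matrix (Fin 2) (Fin 2) ℍ[K,e,b' * d']),
      S = Φ.range := ⟨_, rfl⟩
  have m1 : ∀ x, φ1 x ∈ S := fun x => by
    rw [hS]
    exact ⟨x ⊗ₜ 1, by
      show Φ (x ⊗ₜ 1) = φ1 x
      rw [hΦ, map_one, mul_one]⟩
  have m2 : ∀ y, φ2 y ∈ S := fun y => by
    rw [hS]
    exact ⟨1 ⊗ₜ y, by
      show Φ (1 ⊗ₜ y) = φ2 y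
      rw [hΦ, map_one, one_mul]⟩
  have sA1 : A1 ∈ S := by
    have h := m1 ⟨0, 1, 0, 0⟩
    rw [hφ1] at h
    simpa using h
  have sB1 : B1 ∈ S := by
    have h := m1 ⟨0, 0, 1, 0⟩
    rw [hφ1] at h
    simpa using h
  have sA2 : A2 ∈ S := by
    have h := m2 ⟨0, 1, 0, 0⟩
    rw [hφ2] at h
    simpa using h
  have sB2 : B2 ∈ S := by
    have h := m2 ⟨0, 0, 1, 0⟩
    rw [hφ2] at h
    simpa using h
  -- matrix units
  have s11 : (!![1, 0; 0, 0] : Matrix (Fin 2) (Fin 2) ℍ[K,e,b' * d']) ∈ S := by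
    obtain ⟨r, hr⟩ : ∃ r : K, r * e + r * e = 1 :=
      ⟨(2 * e)⁻¹, by rw [← mul_two, mul_assoc, mul_comm e, inv_mul_cancel₀ (mul_ne_zero h2 he)]⟩
    have h1 : (!![1, 0; 0, 0] : Matrix (Fin 2) (Fin 2) ℍ[K,e,b' * d']) =
        r • (algebraMap K _ e + A1 * A2) := by
      rw [hA1, hA2, Matrix.mul_fin_two, hscal, ← hii]
      have h3 : r • (i * i) + r • (i * i) = 1 := by
        rw [hii, Algebra.smul_def, ← map_mul, ← map_add, hr, map_one]
      simp [h3]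
    rw [h1]
    exact S.smul_mem (S.add_mem (S.algebraMap_mem _) (S.mul_mem sA1 sA2)) _
  have s22 : (!![0, 0; 0, 1] : Matrix (Fin 2) (Fin 2) ℍ[K,e,b' * d']) ∈ S := by
    have h1 : (!![0, 0; 0, 1] : Matrix (Fin 2) (Fin 2) ℍ[K,e,b' * d']) =
        1 - !![1, 0; 0, 0] := by
      rw [Matrix.one_fin_two]
      simp
    rw [h1]
    exact S.sub_mem S.one_mem s11
  have s12 : (!![0, 1; 0, 0] : Matrix (Fin 2) (Fin 2) ℍ[K,e,b' * d']) ∈ S := by
    have h1 : (!![0, 1; 0, 0] : Matrix (Fin 2) (Fin 2) ℍ[K,e,b' * d']) =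
        d'⁻¹ • (!![1, 0; 0, 0] * B2) := by
      rw [hB2, Matrix.mul_fin_two]
      simp [hd3]
    rw [h1]
    exact S.smul_mem (S.mul_mem s11 sB2) _
  have s21 : (!![0, 0; 1, 0] : Matrix (Fin 2) (Fin 2) ℍ[K,e,b' * d']) ∈ S := by
    have h1 : (!![0, 0; 1, 0] : Matrix (Fin 2) (Fin 2) ℍ[K,e,b' * d']) =
        !![0, 0; 0, 1] * B2 := by
      rw [hB2, Matrix.mul_fin_two]
      simp
    rw [h1]
    exact S.mul_mem s22 sB2
  -- scalar matrices
  have sj : (!![j, 0; 0, j] : Matrix (Fin 2) (Fin 2) ℍ[K,e,b' * d']) ∈ S := by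
    have h1 : (!![j, 0; 0, j] : Matrix (Fin 2) (Fin 2) ℍ[K,e,b' * d']) = B1 * B2 := by
      rw [hB1, hB2, Matrix.mul_fin_two]
      simp [hd1, smul_smul, hd]
    rw [h1]
    exact S.mul_mem sB1 sB2
  have sq : ∀ q : ℍ[K,e,b' * d'], (!![q, 0; 0, q] : Matrix (Fin 2) (Fin 2) ℍ[K,e,b' * d']) ∈ S := by
    intro q
    have h1 : (!![q, 0; 0, q] : Matrix (Fin 2) (Fin 2) ℍ[K,e,b' * d']) =
        algebraMap K _ q.re + q.imI • A1 + q.imJ • !![j, 0; 0, j] +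
          q.imK • (A1 * !![j, 0; 0, j]) := by
      rw [hA1, Matrix.mul_fin_two, hscal]
      conv_lhs => rw [hq q]
      simp
    rw [h1]
    exact S.add_mem (S.add_mem (S.add_mem (S.algebraMap_mem _) (S.smul_mem sA1 _))
      (S.smul_mem sj _)) (S.smul_mem (S.mul_mem sA1 sj) _)
  have hsurj : Surjective Φ := by
    intro M
    have h1 : M = !![M 0 0, 0; 0, M 0 0] * !![1, 0; 0, 0] + !![M 0 1, 0; 0, M 0 1] * !![0, 1; 0, 0] +
        !![M 1 0, 0; 0, M 1 0] * !![0, 0; 1, 0] + !![M 1 1, 0; 0, M 1 1] * !![0, 0; 0, 1] := by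
      rw [Matrix.mul_fin_two, Matrix.mul_fin_two, Matrix.mul_fin_two, Matrix.mul_fin_two]
      refine Matrix.ext fun s t => ?_
      fin_cases s <;> fin_cases t <;> simp
    have h3 : M ∈ S := by
      rw [h1]
      exact S.add_mem (S.add_mem (S.add_mem (S.mul_mem (sq _) s11) (S.mul_mem (sq _) s12))
        (S.mul_mem (sq _) s21)) (S.mul_mem (sq _) s22)
    rw [hS] at h3
    exact h3
  have hfin : Module.finrank K (ℍ[K,e,b'] ⊗[K] ℍ[K,e,d']) =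
      Module.finrank K (Matrix (Fin 2) (Fin 2) ℍ[K,e,b' * d']) := by
    rw [Module.finrank_tensorProduct, Module.finrank_matrix, QuaternionAlgebra.finrank_eq_four,
      QuaternionAlgebra.finrank_eq_four, QuaternionAlgebra.finrank_eq_four, Fintype.card_fin]
  have hinj : Injective Φ :=
    (LinearMap.injective_iff_surjective_of_finrank_eq_finrank hfin
      (f := Φ.toLinearMap)).2 hsurj
  exact ⟨AlgEquiv.ofBijective Φ ⟨hinj, hsurj⟩⟩

end

theorem thm_ALBE : St_ALBE := by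
  intro K _ a b c d h2 ha hb hc hd hA
  -- pure elements with the same nonzero square
  obtain ⟨e, x1, x2, x3, y1, y2, y3, he, hx, hy⟩ : ∃ e x1 x2 x3 y1 y2 y3 : K, e ≠ 0 ∧
      a * x1 ^ 2 + b * x2 ^ 2 - a * b * x3 ^ 2 = e ∧
      c * y1 ^ 2 + d * y2 ^ 2 - c * d * y3 ^ 2 = e := by
    unfold Anis at hA
    push Not at hA
    obtain ⟨v, hv, hv0⟩ := hA
    have h1 : (a * v 0 ^ 2 + b * v 1 ^ 2 - a * b * v 2 ^ 2) =
        (c * v 3 ^ 2 + d * v 4 ^ 2 - c * d * v 5 ^ 2) := by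
      unfold alb albC at hv
      rw [Fin.sum_univ_six] at hv
      simp at hv
      linear_combination hv
    by_cases h3 : a * v 0 ^ 2 + b * v 1 ^ 2 - a * b * v 2 ^ 2 = 0
    · by_cases h4 : v 0 ≠ 0 ∨ v 1 ≠ 0 ∨ v 2 ≠ 0
      · obtain ⟨z1, z2, z3, hz⟩ := ALBE_univ h2 ha hb _ _ _ h3 h4 c
        exact ⟨c, z1, z2, z3, 1, 0, 0, hc, hz, by ring⟩
      · push Not at h4
        have h5 : v 3 ≠ 0 ∨ v 4 ≠ 0 ∨ v 5 ≠ 0 := by
          by_contra h6
          push Not at h6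
          apply hv0
          funext i
          fin_cases i
          · exact h4.1
          · exact h4.2.1
          · exact h4.2.2
          · exact h6.1
          · exact h6.2.1
          · exact h6.2.2
        rw [h3] at h1
        obtain ⟨z1, z2, z3, hz⟩ := ALBE_univ h2 hc hd _ _ _ h1.symm h5 a
        exact ⟨a, 1, 0, 0, z1, z2, z3, ha, by ring, hz⟩
    · exact ⟨_, v 0, v 1, v 2, v 3, v 4, v 5, h3, rfl, h1.symm⟩
  obtain ⟨b', hb', ⟨E1⟩⟩ := ALBE_one h2 ha hb he x1 x2 x3 hx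
  obtain ⟨d', hd', ⟨E2⟩⟩ := ALBE_one h2 hc hd he y1 y2 y3 hy
  obtain ⟨E3⟩ := ALBE_two (b' := b') h2 he hd'
  exact ⟨e, b' * d', he, mul_ne_zero hb' hd', ⟨(Algebra.TensorProduct.congr E1 E2).trans E3⟩⟩

end Pool.Agent.Q4
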