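import Pool.Agent.Q4.StA

/-!
# Q4, module AV: averaging for anticommuting elements of a division algebra

Statement and proof: see `St_AV` in `Pool/Agent/Q4/StA.lean`.
-/

set_option autoImplicit false

namespace Pool.Agent.Q4

open Function

private theorem AV_step {K D : Type} [Field K] [Ring D] [Algebra K D] [NoZeroDivisors D]
    (q : Fin 4 → K) (u u' : Fin 4 → D) (hq : ∀ i, q i ≠ 0)
    (hu : ∀ i, u i * u i = algebraMap K D (q i))
    (hu' : ∀ i, u' i * u' i = algebraMap K D (q i)) (ha : ∀ i j, i ≠ j → u i * u j = -(u j * u i))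
    (ha' : ∀ i j, i ≠ j → u' i * u' j = -(u' j * u' i)) (S : Set (Fin 4)) (k : Fin 4) (hk : k ∉ S)
    (z : D) (hz : z ≠ 0) (hzS : ∀ i ∈ S, u i * z = z * u i) (hzk : u k * z = -(z * u k))
    (y : D) (hy : y ≠ 0) (hyS : ∀ i ∈ S, u' i * y = y * u i) :
    ∃ y' : D, y' ≠ 0 ∧ ∀ i ∈ insert k S, u' i * y' = y' * u i := by
  set c : D := algebraMap K D (q k) with hc
  have hcc : ∀ x : D, c * x = x * c := fun x => Algebra.commutes (q k) x
  by_cases hA : u' k * y * u k + c * y = 0
  · have h1 : u' k * y * c = -(y * u k) * c := by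
      have h2 : (u' k * y * u k + c * y) * u k = 0 := by rw [hA, zero_mul]
      rw [add_mul, mul_assoc (u' k * y) (u k) (u k), hu k, ← hc, mul_assoc c y (u k), hcc] at h2
      rw [neg_mul]
      exact eq_neg_of_add_eq_zero_left h2
    have hc0 : algebraMap K D (q k) * algebraMap K D ((q k)⁻¹) = 1 := by
      rw [← map_mul, mul_inv_cancel₀ (hq k), map_one]
    have h3 : u' k * y = -(y * u k) := by
      have h4 := congrArg (fun x => x * algebraMap K D ((q k)⁻¹)) h1
      simp only [mul_assoc, hc, hc0, mul_one] at h4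
      exact h4
    refine ⟨y * z, mul_ne_zero hy hz, ?_⟩
    intro i hi
    rcases hi with rfl | hi
    · rw [← mul_assoc, h3, neg_mul, mul_assoc, hzk, mul_neg, neg_neg, mul_assoc]
    · rw [← mul_assoc, hyS i hi, mul_assoc, hzS i hi, mul_assoc]
  · refine ⟨_, hA, ?_⟩
    intro i hi
    rcases hi with rfl | hi
    · have e1 : u' i * (u' i * y * u i + c * y) = c * (y * u i) + c * (u' i * y) := by
        rw [mul_add, ← mul_assoc, ← mul_assoc, hu' i, ← hc, mul_assoc, ← mul_assoc (u' i) c y,
          ← hcc, mul_assoc c (u' i) y]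
      have e2 : (u' i * y * u i + c * y) * u i = c * (y * u i) + c * (u' i * y) := by
        rw [add_mul, mul_assoc (u' i * y) (u i) (u i), hu i, ← hc, ← hcc, mul_assoc c y, add_comm]
      rw [e1, e2]
    · have hik : i ≠ k := by
        rintro rfl
        exact hk hi
      have e1 : u' i * (u' k * y * u k) = u' k * y * u k * u i := by
        calc u' i * (u' k * y * u k) = u' i * u' k * y * u k := by simp only [mul_assoc]
          _ = -(u' k * u' i) * y * u k := by rw [ha' i k hik]
          _ = -(u' k * (u' i * y) * u k) := by simp only [mul_assoc, neg_mul]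
          _ = -(u' k * y * (u i * u k)) := by rw [hyS i hi]; simp only [mul_assoc]
          _ = u' k * y * u k * u i := by
            rw [ha i k hik]; simp only [mul_assoc, mul_neg, neg_neg]
      rw [mul_add, add_mul, e1, ← mul_assoc (u' i) c y, ← hcc, mul_assoc c (u' i) y, hyS i hi,
        mul_assoc c y (u i)]

theorem thm_AV : St_AV := by
  intro K D _ _ _ _ _ q u u' hq hu hu' ha ha'
  have hne : ∀ i, u i ≠ 0 := by
    intro i h0
    have h1 := hu i
    rw [h0, mul_zero] at h1
    exact hq i ((map_eq_zero (algebraMap K D)).1 h1.symm)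
  have st := AV_step q u u' hq hu hu' ha ha'
  obtain ⟨y0, hy0, h0⟩ := st ∅ 0 (Set.notMem_empty _) (u 1) (hne 1) (fun i hi => hi.elim)
    (ha 0 1 (by decide)) 1 one_ne_zero (fun i hi => hi.elim)
  have h01 := ha 0 1 (by decide)
  have h02 := ha 0 2 (by decide)
  have h03 := ha 0 3 (by decide)
  have h12 := ha 1 2 (by decide)
  have h13 := ha 1 3 (by decide)
  have h23 := ha 2 3 (by decide)
  have h10 := ha 1 0 (by decide)
  have h20 := ha 2 0 (by decide)
  have h30 := ha 3 0 (by decide)
  have h21 := ha 2 1 (by decide)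
  have h31 := ha 3 1 (by decide)
  have h32 := ha 3 2 (by decide)
  obtain ⟨y1, hy1, h1⟩ := st (insert 0 ∅) 1 (by simp) (u 1 * u 2) (mul_ne_zero (hne 1) (hne 2))
    (by
      rintro i (rfl | hi)
      · rw [← mul_assoc, h01, neg_mul, mul_assoc, h02, mul_neg, neg_neg, mul_assoc]
      · exact hi.elim)
    (by rw [mul_assoc (u 1) (u 2) (u 1), h21, mul_neg, neg_neg]) y0 hy0 h0
  obtain ⟨y2, hy2, h2⟩ := st (insert 1 (insert 0 ∅)) 2 (by simp) (u 2 * u 3)
    (mul_ne_zero (hne 2) (hne 3))
    (by
      rintro i (rfl | rfl | hi)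
      · rw [← mul_assoc, h12, neg_mul, mul_assoc, h13, mul_neg, neg_neg, mul_assoc]
      · rw [← mul_assoc, h02, neg_mul, mul_assoc, h03, mul_neg, neg_neg, mul_assoc]
      · exact hi.elim)
    (by rw [mul_assoc (u 2) (u 3) (u 2), h32, mul_neg, neg_neg]) y1 hy1 h1
  obtain ⟨y3, hy3, h3⟩ := st (insert 2 (insert 1 (insert 0 ∅))) 3 (by simp) (u 0 * u 1 * u 2)
    (mul_ne_zero (mul_ne_zero (hne 0) (hne 1)) (hne 2))
    (by
      rintro i (rfl | rfl | rfl | hi)
      · calc u 2 * (u 0 * u 1 * u 2) = u 2 * u 0 * (u 1 * u 2) := by simp only [mul_assoc]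
          _ = -(u 0 * (u 2 * u 1) * u 2) := by rw [h20]; simp only [mul_assoc, neg_mul]
          _ = u 0 * u 1 * u 2 * u 2 := by
            rw [h21]; simp only [mul_assoc, neg_mul, mul_neg, neg_neg]
      · calc u 1 * (u 0 * u 1 * u 2) = u 1 * u 0 * (u 1 * u 2) := by simp only [mul_assoc]
          _ = -(u 0 * (u 1 * (u 1 * u 2))) := by rw [h10]; simp only [mul_assoc, neg_mul]
          _ = u 0 * u 1 * u 2 * u 1 := by
            rw [mul_assoc (u 0 * u 1) (u 2) (u 1), h21]
            simp only [mul_assoc, mul_neg]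
      · calc u 0 * (u 0 * u 1 * u 2) = u 0 * (u 0 * u 1) * u 2 := by simp only [mul_assoc]
          _ = -(u 0 * u 1 * (u 0 * u 2)) := by
            conv_lhs => rw [h01]
            simp only [mul_assoc, neg_mul, mul_neg]
          _ = u 0 * u 1 * u 2 * u 0 := by
            conv_lhs => rw [h02]
            simp only [mul_assoc, mul_neg, neg_neg]
      · exact hi.elim)
    (by
      calc u 3 * (u 0 * u 1 * u 2) = u 3 * u 0 * (u 1 * u 2) := by simp only [mul_assoc]
        _ = -(u 0 * (u 3 * u 1) * u 2) := by rw [h30]; simp only [mul_assoc, neg_mul]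
        _ = u 0 * u 1 * (u 3 * u 2) := by
          rw [h31]; simp only [mul_assoc, neg_mul, mul_neg, neg_neg]
        _ = -(u 0 * u 1 * u 2 * u 3) := by
          rw [h32]; simp only [mul_assoc, mul_neg]) y2 hy2 h2
  refine ⟨y3, hy3, fun i => h3 i ?_⟩
  fin_cases i <;> simp

end Pool.Agent.Q4
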