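import Pool.Agent.Q4.StD

/-! Q4, module BCQ (helper12): base change and scaling of quaternion and biquaternion algebras. -/

set_option autoImplicit false

namespace Pool.Agent.Q4

open Quaternion TensorProduct Function

section

variable {A B : Type} [CommRing A] [CommRing B] [Algebra A B] (a b c d : A)

/-- the coordinatewise map -/
noncomputable def BCQ_m : ℍ[A,a,b] →ₐ[A] ℍ[B,algebraMap A B a,algebraMap A B b] where
  toFun x := ⟨algebraMap A B x.re, algebraMap A B x.imI, algebraMap A B x.imJ,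
    algebraMap A B x.imK⟩
  map_one' := by ext <;> simp
  map_zero' := by ext <;> simp
  map_mul' x y := by ext <;> simp
  map_add' x y := by ext <;> simp
  commutes' x := by
    ext <;> simp [Algebra.algebraMap_eq_smul_one]

variable (B)

/-- the base change homomorphism -/
noncomputable def BCQ_f : B ⊗[A] ℍ[A,a,b] →ₐ[B] ℍ[B,algebraMap A B a,algebraMap A B b] :=
  Algebra.TensorProduct.lift (Algebra.ofId B _) (BCQ_m (B := B) a b)
    (fun x _ => Algebra.commutes x _)

theorem BCQ_f_tmul (r : B) (x : ℍ[A,a,b]) :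
    BCQ_f B a b (r ⊗ₜ x) = ⟨r * algebraMap A B x.re, r * algebraMap A B x.imI,
      r * algebraMap A B x.imJ, r * algebraMap A B x.imK⟩ := by
  have h1 : BCQ_f B a b (r ⊗ₜ x) = algebraMap B _ r * BCQ_m (B := B) a b x :=
    Algebra.TensorProduct.lift_tmul _ _ _ _ _
  rw [h1, ← Algebra.smul_def]
  rfl

/-- the inverse map -/
noncomputable def BCQ_g (q : ℍ[B,algebraMap A B a,algebraMap A B b]) : B ⊗[A] ℍ[A,a,b] :=
  q.re ⊗ₜ ⟨1, 0, 0, 0⟩ + q.imI ⊗ₜ ⟨0, 1, 0, 0⟩ + q.imJ ⊗ₜ ⟨0, 0, 1, 0⟩ + q.imK ⊗ₜ ⟨0, 0, 0, 1⟩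

theorem BCQ_g_add (x y : ℍ[B,algebraMap A B a,algebraMap A B b]) :
    BCQ_g B a b (x + y) = BCQ_g B a b x + BCQ_g B a b y := by
  unfold BCQ_g
  rw [QuaternionAlgebra.re_add, QuaternionAlgebra.imI_add, QuaternionAlgebra.imJ_add,
    QuaternionAlgebra.imK_add, TensorProduct.add_tmul, TensorProduct.add_tmul,
    TensorProduct.add_tmul, TensorProduct.add_tmul]
  abel

theorem BCQ_bij : Bijective (BCQ_f B a b) := by
  constructor
  · have h : LeftInverse (BCQ_g B a b) (BCQ_f B a b) := by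
      intro z
      induction z using TensorProduct.induction_on with
      | zero =>
        rw [map_zero]
        unfold BCQ_g
        simp
      | add x y hx hy => rw [map_add, BCQ_g_add, hx, hy]
      | tmul r x =>
        rw [BCQ_f_tmul]
        unfold BCQ_g
        dsimp only
        have hs : ∀ (s : A) (y : ℍ[A,a,b]), (r * algebraMap A B s) ⊗ₜ[A] y = r ⊗ₜ[A] (s • y) := by
          intro s y
          rw [mul_comm, ← Algebra.smul_def, TensorProduct.smul_tmul]
        rw [hs, hs, hs, hs, ← TensorProduct.tmul_add, ← TensorProduct.tmul_add,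
          ← TensorProduct.tmul_add]
        congr 1
        ext <;> simp
    exact h.injective
  · intro q
    refine ⟨BCQ_g B a b q, ?_⟩
    unfold BCQ_g
    rw [map_add, map_add, map_add, BCQ_f_tmul, BCQ_f_tmul, BCQ_f_tmul, BCQ_f_tmul]
    ext <;> simp

/-- base change of a quaternion algebra -/
noncomputable def BCQ_e : B ⊗[A] ℍ[A,a,b] ≃ₐ[B] ℍ[B,algebraMap A B a,algebraMap A B b] :=
  AlgEquiv.ofBijective (BCQ_f B a b) (BCQ_bij B a b)

/-- the homomorphism on the tensor product over `A` -/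
noncomputable def BCQ_m2 : BQ A a b c d →ₐ[A]
    BQ B (algebraMap A B a) (algebraMap A B b) (algebraMap A B c) (algebraMap A B d) :=
  Algebra.TensorProduct.lift
    (((Algebra.TensorProduct.includeLeft : ℍ[B,algebraMap A B a,algebraMap A B b] →ₐ[B]
      BQ B (algebraMap A B a) (algebraMap A B b) (algebraMap A B c) (algebraMap A B d)).restrictScalars
        A).comp (BCQ_m (B := B) a b))
    (((Algebra.TensorProduct.includeRight : ℍ[B,algebraMap A B c,algebraMap A B d] →ₐ[B]
      BQ B (algebraMap A B a) (algebraMap A B b) (algebraMap A B c) (algebraMap A B d)).restrictScalars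
        A).comp (BCQ_m (B := B) c d))
    (fun x y => by
      show (BCQ_m (B := B) a b x ⊗ₜ[B] 1) * (1 ⊗ₜ[B] BCQ_m (B := B) c d y) =
        (1 ⊗ₜ[B] BCQ_m (B := B) c d y) * (BCQ_m (B := B) a b x ⊗ₜ[B] 1)
      rw [Algebra.TensorProduct.tmul_mul_tmul, Algebra.TensorProduct.tmul_mul_tmul, one_mul,
        mul_one, one_mul, mul_one])

theorem BCQ_m2_tmul (x : ℍ[A,a,b]) (y : ℍ[A,c,d]) :
    BCQ_m2 B a b c d (x ⊗ₜ y) = BCQ_m (B := B) a b x ⊗ₜ[B] BCQ_m (B := B) c d y := by
  have h1 : BCQ_m2 B a b c d (x ⊗ₜ y) =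
      (BCQ_m (B := B) a b x ⊗ₜ[B] 1) * (1 ⊗ₜ[B] BCQ_m (B := B) c d y) :=
    Algebra.TensorProduct.lift_tmul _ _ _ _ _
  rw [h1, Algebra.TensorProduct.tmul_mul_tmul, one_mul, mul_one]

/-- the base change homomorphism -/
noncomputable def BCQ_f2 : B ⊗[A] BQ A a b c d →ₐ[B]
    BQ B (algebraMap A B a) (algebraMap A B b) (algebraMap A B c) (algebraMap A B d) :=
  Algebra.TensorProduct.lift (Algebra.ofId B _) (BCQ_m2 B a b c d)
    (fun x _ => Algebra.commutes x _)

/-- the linear equivalence -/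
noncomputable def BCQ_l : B ⊗[A] BQ A a b c d ≃ₗ[B]
    BQ B (algebraMap A B a) (algebraMap A B b) (algebraMap A B c) (algebraMap A B d) :=
  (AlgebraTensorModule.distribBaseChange A B ℍ[A,a,b] ℍ[A,c,d]).trans
    (TensorProduct.congr (BCQ_e B a b).toLinearEquiv (BCQ_e B c d).toLinearEquiv)

theorem BCQ_e_one (x : ℍ[A,a,b]) : BCQ_e B a b (1 ⊗ₜ x) = BCQ_m (B := B) a b x := by
  show BCQ_f B a b (1 ⊗ₜ x) = _
  have h1 : BCQ_f B a b (1 ⊗ₜ x) = algebraMap B _ 1 * BCQ_m (B := B) a b x :=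
    Algebra.TensorProduct.lift_tmul _ _ _ _ _
  rw [h1, map_one, one_mul]

theorem BCQ_e_tmul (r : B) (x : ℍ[A,a,b]) :
    BCQ_e B a b (r ⊗ₜ x) = r • BCQ_m (B := B) a b x := by
  show BCQ_f B a b (r ⊗ₜ x) = _
  have h1 : BCQ_f B a b (r ⊗ₜ x) = algebraMap B _ r * BCQ_m (B := B) a b x :=
    Algebra.TensorProduct.lift_tmul _ _ _ _ _
  rw [h1, Algebra.smul_def]

theorem BCQ_f2_eq (z : B ⊗[A] BQ A a b c d) : BCQ_f2 B a b c d z = BCQ_l B a b c d z := by
  induction z using TensorProduct.induction_on with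
  | zero => rw [map_zero, map_zero]
  | add x y hx hy => rw [map_add, map_add, hx, hy]
  | tmul r w =>
    induction w using TensorProduct.induction_on with
    | zero => rw [TensorProduct.tmul_zero, map_zero, map_zero]
    | add x y hx hy => rw [TensorProduct.tmul_add, map_add, map_add, hx, hy]
    | tmul x y =>
      have h1 : BCQ_f2 B a b c d (r ⊗ₜ (x ⊗ₜ y)) = algebraMap B _ r * BCQ_m2 B a b c d (x ⊗ₜ y) :=
        Algebra.TensorProduct.lift_tmul _ _ _ _ _
      rw [h1, BCQ_m2_tmul, ← Algebra.smul_def]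
      unfold BCQ_l
      rw [LinearEquiv.trans_apply, AlgebraTensorModule.distribBaseChange_tmul,
        TensorProduct.congr_tmul]
      show _ = BCQ_e B a b (r ⊗ₜ x) ⊗ₜ[B] BCQ_e B c d (1 ⊗ₜ y)
      rw [BCQ_e_tmul, BCQ_e_one, TensorProduct.smul_tmul']

theorem BCQ_bij2 : Bijective (BCQ_f2 B a b c d) := by
  have h : ⇑(BCQ_f2 B a b c d) = ⇑(BCQ_l B a b c d) := funext (BCQ_f2_eq B a b c d)
  rw [h]
  exact (BCQ_l B a b c d).bijective

end

/-- scaling by squares -/
theorem BCQ_sc {B : Type} [CommRing B] (a b u v : B) (hu : IsUnit u) (hv : IsUnit v) :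
    Nonempty (ℍ[B,u ^ 2 * a,v ^ 2 * b] ≃ₐ[B] ℍ[B,a,b]) := by
  obtain ⟨u', hu'⟩ := hu.exists_right_inv
  obtain ⟨v', hv'⟩ := hv.exists_right_inv
  exact ⟨
    { toFun := fun x => ⟨x.re, u * x.imI, v * x.imJ, u * v * x.imK⟩
      invFun := fun x => ⟨x.re, u' * x.imI, v' * x.imJ, u' * v' * x.imK⟩
      left_inv := fun x => by
        ext
        · rfl
        · show u' * (u * x.imI) = x.imI
          linear_combination x.imI * hu'
        · show v' * (v * x.imJ) = x.imJ
          linear_combination x.imJ * hv'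
        · show u' * v' * (u * v * x.imK) = x.imK
          linear_combination (x.imK * v * v') * hu' + x.imK * hv'
      right_inv := fun x => by
        ext
        · rfl
        · show u * (u' * x.imI) = x.imI
          linear_combination x.imI * hu'
        · show v * (v' * x.imJ) = x.imJ
          linear_combination x.imJ * hv'
        · show u * v * (u' * v' * x.imK) = x.imK
          linear_combination (x.imK * v * v') * hu' + x.imK * hv'
      map_mul' := fun x y => by
        ext <;> simp <;> ring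
      map_add' := fun x y => by ext <;> simp [mul_add]
      commutes' := fun x => by ext <;> simp [Algebra.algebraMap_eq_smul_one] }⟩

theorem thm_BCQ : St_BCQ := by
  refine ⟨fun A B _ _ _ a b => ⟨BCQ_e B a b⟩, fun A B _ _ _ a b c d =>
    ⟨AlgEquiv.ofBijective (BCQ_f2 B a b c d) (BCQ_bij2 B a b c d)⟩,
    fun B _ a b u v hu hv => BCQ_sc a b u v hu hv, fun B _ a b c d u v w x hu hv hw hx => ?_⟩
  obtain ⟨e1⟩ := BCQ_sc a b u v hu hv
  obtain ⟨e2⟩ := BCQ_sc c d w x hw hx
  exact ⟨Algebra.TensorProduct.congr e1 e2⟩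

end Pool.Agent.Q4
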