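import Pool.Agent.Q4.StD
import Pool.Agent.QCB.QI

/-!
# Q4, module GE0: orders from finite free algebras
-/

set_option autoImplicit false
set_option linter.unusedSectionVars false

namespace Pool.Agent.Q4

open Quaternion TensorProduct Function Pool.Agent.TQF Pool.Agent.QCB

section GE0aux

variable {A K : Type} [CommRing A] [IsDomain A] [Field K] [Algebra A K] [IsFractionRing A K]
  {Λ₀ : Type} [Ring Λ₀] [Algebra A Λ₀] {E : Type} [Ring E] [Algebra A E] [Algebra K E]
  [IsScalarTower A K E]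

/-- `x ↦ e (1 ⊗ x)` -/
private noncomputable def GE0_h (e : K ⊗[A] Λ₀ ≃ₐ[K] E) : Λ₀ →ₐ[A] E :=
  (e.restrictScalars A : K ⊗[A] Λ₀ →ₐ[A] E).comp Algebra.TensorProduct.includeRight

private theorem GE0_h_apply (e : K ⊗[A] Λ₀ ≃ₐ[K] E) (x : Λ₀) : GE0_h e x = e (1 ⊗ₜ x) := rfl

/-- denominators -/
private theorem GE0_den {B : Type} [CommRing B] [Algebra A B] (S : Submonoid A)
    [IsLocalization S B] (y : B ⊗[A] Λ₀) : ∃ (b : S) (z : Λ₀), (b : A) • y = 1 ⊗ₜ z := by
  induction y using TensorProduct.induction_on with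
  | zero => exact ⟨1, 0, by rw [smul_zero, TensorProduct.tmul_zero]⟩
  | tmul r x =>
    obtain ⟨⟨a, b⟩, hab⟩ := IsLocalization.surj S r
    refine ⟨b, a • x, ?_⟩
    have h1 : (b : A) • r = a • (1 : B) := by
      rw [Algebra.smul_def, mul_comm, ← Algebra.algebraMap_eq_smul_one]
      exact hab
    rw [TensorProduct.smul_tmul', h1, TensorProduct.smul_tmul]
  | add x y hx hy =>
    obtain ⟨b, z, hz⟩ := hx
    obtain ⟨c, w, hw⟩ := hy
    refine ⟨b * c, (c : A) • z + (b : A) • w, ?_⟩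
    rw [TensorProduct.tmul_add, ← TensorProduct.smul_tmul, ← TensorProduct.smul_tmul,
      ← TensorProduct.smul_tmul', ← TensorProduct.smul_tmul', ← hz, ← hw, smul_add,
      Submonoid.coe_mul, smul_smul, smul_smul, mul_comm (b : A) (c : A)]

private theorem GE0_loc [Module.Flat A Λ₀] (e : K ⊗[A] Λ₀ ≃ₐ[K] E) (s : A) (hs : s ≠ 0) :
    Nonempty (Localization.Away s ⊗[A] Λ₀ ≃+* locA (GE0_h e).range s) := by
  have hu : ∀ y : Submonoid.powers s, IsUnit (algebraMap A K y) := by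
    rintro ⟨_, n, rfl⟩
    refine IsUnit.mk0 _ ?_
    rw [Ne, FaithfulSMul.algebraMap_eq_zero_iff]
    exact pow_ne_zero n hs
  let f : Localization.Away s →ₐ[A] K := IsLocalization.liftAlgHom (M := Submonoid.powers s)
    (f := Algebra.ofId A K) hu
  have hf : Injective f := by
    rw [injective_iff_map_eq_zero]
    intro x hx
    obtain ⟨⟨a, b⟩, hab⟩ := IsLocalization.surj (Submonoid.powers s) x
    have hab' : x * algebraMap A (Localization.Away s) b = algebraMap A _ a := hab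
    have h1 : algebraMap A K a = 0 := by
      rw [← f.commutes a, ← hab', map_mul, hx, zero_mul]
    rw [FaithfulSMul.algebraMap_eq_zero_iff] at h1
    rw [h1, map_zero] at hab'
    exact (IsLocalization.map_units (Localization.Away s) b).mul_left_eq_zero.1 hab'
  let Φ : Localization.Away s ⊗[A] Λ₀ →ₐ[A] E :=
    (e.restrictScalars A : K ⊗[A] Λ₀ →ₐ[A] E).comp
      (Algebra.TensorProduct.map f (AlgHom.id A Λ₀))
  have hΦt : ∀ r x, Φ (r ⊗ₜ x) = e (f r ⊗ₜ x) := fun r x => rfl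
  have hinj : Injective Φ := by
    refine e.injective.comp ?_
    exact Module.Flat.rTensor_preserves_injective_linearMap (M := Λ₀) f.toLinearMap hf
  have hΦ : ∀ y, Φ y ∈ locA (GE0_h e).range s := by
    intro y
    obtain ⟨⟨_, n, rfl⟩, z, hz⟩ := GE0_den (Submonoid.powers s) y
    refine ⟨n, z, ?_⟩
    have h1 : Φ (s ^ n • y) = s ^ n • Φ y := map_smul _ _ _
    have h2 : s ^ n • y = (1 : Localization.Away s) ⊗ₜ z := hz
    have h3 : s ^ n • Φ y = GE0_h e z := by
      rw [← h1, h2, hΦt, map_one, GE0_h_apply]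
    exact h3.symm
  let Ψ : Localization.Away s ⊗[A] Λ₀ →+* locA (GE0_h e).range s :=
    (Φ.codRestrict _ hΦ : _ →ₐ[A] _)
  refine ⟨RingEquiv.ofBijective Ψ ⟨?_, ?_⟩⟩
  · intro x y h
    exact hinj (congrArg Subtype.val h)
  · rintro ⟨x, n, z, hz⟩
    obtain ⟨v, hv⟩ := (IsLocalization.map_units (Localization.Away s)
      (⟨s ^ n, n, rfl⟩ : Submonoid.powers s)).exists_right_inv
    have hv' : algebraMap A (Localization.Away s) (s ^ n) * v = 1 := hv
    refine ⟨v ⊗ₜ z, Subtype.ext ?_⟩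
    show Φ (v ⊗ₜ z) = x
    have hz' : GE0_h e z = s ^ n • x := hz
    have h1 : s ^ n • Φ (v ⊗ₜ z) = s ^ n • x := by
      rw [← hz', GE0_h_apply, ← map_smul, TensorProduct.smul_tmul', Algebra.smul_def, hv', hΦt,
        map_one]
    have h2 : algebraMap A K (s ^ n) ≠ 0 := by
      rw [Ne, FaithfulSMul.algebraMap_eq_zero_iff]
      exact pow_ne_zero n hs
    rw [← IsScalarTower.algebraMap_smul K (s ^ n) (Φ (v ⊗ₜ z)),
      ← IsScalarTower.algebraMap_smul K (s ^ n) x] at h1
    exact (smul_right_injective E h2) h1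

end GE0aux

theorem thm_GE0 : St_GE0 := by
  intro A K _ _ _ _ _ Λ₀ _ _ _ _ E _ _ _ _ e hs
  obtain ⟨s, hs0, hs⟩ := hs
  refine ⟨(GE0_h e).range, ?_, ?_, s, hs0, ?_⟩
  · have h1 : Subalgebra.toSubmodule (GE0_h e).range = LinearMap.range (GE0_h e).toLinearMap := by
      ext x
      rfl
    rw [h1, LinearMap.range_eq_map]
    exact (Module.Finite.fg_top (R := A) (M := Λ₀)).map _
  · intro x
    obtain ⟨b, z, hz⟩ := GE0_den (nonZeroDivisors A) (e.symm x)
    refine ⟨b, nonZeroDivisors.ne_zero b.2, z, ?_⟩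
    show GE0_h e z = (b : A) • x
    rw [GE0_h_apply, ← hz, ← AlgEquiv.restrictScalars_apply A e, map_smul,
      AlgEquiv.restrictScalars_apply, AlgEquiv.apply_symm_apply]
  · intro s' hs' hd
    obtain ⟨e'⟩ := GE0_loc e s' hs'
    exact GFG.of_equiv e' (hs s' hs' hd)

end Pool.Agent.Q4
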