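import Pool.Agent.Q4.StD
import Pool.Agent.QCT.GNil

/-!
# Q4, module GEM: products of matrix rings
-/

set_option autoImplicit false

namespace Pool.Agent.Q4

open Function Pool.Agent.TQF Pool.Agent.QCB

section order

variable {A : Type} [CommRing A] {n : ℕ} {d : Fin n → ℕ} {D : Fin n → Type}
  [∀ i, Ring (D i)] [∀ i, Algebra A (D i)]

/-- the matrices with all entries in `Δ` -/
def GEM_ga (Δ : ∀ i, Subalgebra A (D i)) :
    Subalgebra A (∀ i, Matrix (Fin (d i)) (Fin (d i)) (D i)) where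
  carrier := {x | ∀ i j k, x i j k ∈ Δ i}
  mul_mem' := by
    intro x y hx hy i j k
    rw [Pi.mul_apply, Matrix.mul_apply]
    exact (Δ i).sum_mem fun l _ => (Δ i).mul_mem (hx i j l) (hy i l k)
  add_mem' := by
    intro x y hx hy i j k
    exact (Δ i).add_mem (hx i j k) (hy i j k)
  algebraMap_mem' := by
    intro r i j k
    rw [Pi.algebraMap_apply, Matrix.algebraMap_matrix_apply]
    split_ifs
    · exact (Δ i).algebraMap_mem r
    · exact (Δ i).zero_mem

theorem GEM_fg (Δ : ∀ i, Subalgebra A (D i))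
    (h : ∀ i, (Subalgebra.toSubmodule (Δ i)).FG) :
    (Subalgebra.toSubmodule (GEM_ga (d := d) Δ)).FG := by
  have : ∀ i, Module.Finite A (Subalgebra.toSubmodule (Δ i)) := fun i =>
    Module.Finite.iff_fg.2 (h i)
  let f : (∀ i, Fin (d i) → Fin (d i) → Subalgebra.toSubmodule (Δ i)) →ₗ[A]
      (∀ i, Matrix (Fin (d i)) (Fin (d i)) (D i)) :=
    { toFun := fun y i => Matrix.of fun j k => (y i j k : D i)
      map_add' := fun x y => rfl
      map_smul' := fun r x => rfl }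
  have hf : LinearMap.range f = Subalgebra.toSubmodule (GEM_ga (d := d) Δ) := by
    ext x
    constructor
    · rintro ⟨y, rfl⟩
      intro i j k
      exact (y i j k).2
    · intro hx
      exact ⟨fun i j k => ⟨x i j k, hx i j k⟩, rfl⟩
  rw [← hf]
  exact Module.Finite.iff_fg.1 (Module.Finite.range f)

theorem GEM_den [IsDomain A] (Δ : ∀ i, Subalgebra A (D i))
    (h : ∀ i, ∀ x : D i, ∃ a : A, a ≠ 0 ∧ a • x ∈ Δ i)
    (x : ∀ i, Matrix (Fin (d i)) (Fin (d i)) (D i)) :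
    ∃ a : A, a ≠ 0 ∧ a • x ∈ GEM_ga Δ := by
  choose c hc0 hc using h
  refine ⟨∏ t : (Σ i, Fin (d i) × Fin (d i)), c t.1 (x t.1 t.2.1 t.2.2), ?_, fun i j k => ?_⟩
  · exact Finset.prod_ne_zero_iff.2 fun t _ => hc0 _ _
  · have h1 := Finset.prod_erase_mul Finset.univ
      (fun t : (Σ i, Fin (d i) × Fin (d i)) => c t.1 (x t.1 t.2.1 t.2.2))
      (Finset.mem_univ (⟨i, (j, k)⟩ : (Σ i, Fin (d i) × Fin (d i))))
    rw [← h1]
    have h2 := (Δ i).smul_mem (hc i (x i j k)) (∏ t ∈ Finset.univ.erase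
      (⟨i, (j, k)⟩ : (Σ i, Fin (d i) × Fin (d i))), c t.1 (x t.1 t.2.1 t.2.2))
    rw [smul_smul] at h2
    exact h2

theorem GEM_toLoc (Δ : ∀ i, Subalgebra A (D i)) (s : A)
    (x : locA (GEM_ga (d := d) Δ) s) (i : Fin n) (j k : Fin (d i)) :
    x.1 i j k ∈ locA (Δ i) s := by
  obtain ⟨m, hm⟩ := x.2
  exact ⟨m, hm i j k⟩

theorem GEM_ofLoc (Δ : ∀ i, Subalgebra A (D i)) (s : A)
    (x : ∀ i, Matrix (Fin (d i)) (Fin (d i)) (D i)) (h : ∀ i j k, x i j k ∈ locA (Δ i) s) :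
    x ∈ locA (GEM_ga (d := d) Δ) s := by
  choose c hc using h
  refine ⟨∑ t : (Σ i, Fin (d i) × Fin (d i)), c t.1 t.2.1 t.2.2, fun i j k => ?_⟩
  have h1 := Finset.sum_erase_add Finset.univ
    (fun t : (Σ i, Fin (d i) × Fin (d i)) => c t.1 t.2.1 t.2.2)
    (Finset.mem_univ (⟨i, (j, k)⟩ : (Σ i, Fin (d i) × Fin (d i))))
  rw [← h1, pow_add]
  have h2 := (Δ i).smul_mem (hc i j k) (s ^ (∑ t ∈ Finset.univ.erase
      (⟨i, (j, k)⟩ : (Σ i, Fin (d i) × Fin (d i))), c t.1 t.2.1 t.2.2))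
  rw [smul_smul] at h2
  exact h2

/-- the localisation of the order is a product of matrix rings -/
def GEM_equiv (Δ : ∀ i, Subalgebra A (D i)) (s : A) :
    locA (GEM_ga (d := d) Δ) s ≃+* (∀ i, Matrix (Fin (d i)) (Fin (d i)) (locA (Δ i) s)) where
  toFun := fun x i => Matrix.of fun j k => ⟨x.1 i j k, GEM_toLoc Δ s x i j k⟩
  invFun := fun y => ⟨fun i => Matrix.of fun j k => (y i j k).1,
    GEM_ofLoc Δ s _ fun i j k => (y i j k).2⟩
  left_inv := fun x => rfl
  right_inv := fun y => rfl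
  map_add' := fun x y => rfl
  map_mul' := fun x y => by
    funext i
    ext j k
    rw [Pi.mul_apply, Matrix.mul_apply, AddSubmonoidClass.coe_finsetSum]
    rfl

end order

/-- transport of the localised order along an isomorphism -/
def GEM_tr {A E E' : Type} [CommRing A] [Ring E] [Algebra A E] [Ring E'] [Algebra A E']
    (e : E ≃ₐ[A] E') (Γ : Subalgebra A E) (s : A) :
    locA Γ s ≃+* locA (Γ.map (e : E →ₐ[A] E')) s where
  toFun := fun x => ⟨e x.1, by
    obtain ⟨m, hm⟩ := x.2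
    exact ⟨m, _, hm, map_smul e _ _⟩⟩
  invFun := fun y => ⟨e.symm y.1, by
    obtain ⟨m, z, hz, hz'⟩ := y.2
    refine ⟨m, ?_⟩
    have h1 : s ^ m • e.symm y.1 = z := by
      rw [← map_smul, ← hz']
      exact e.symm_apply_apply z
    rw [h1]
    exact hz⟩
  left_inv := fun x => Subtype.ext (e.symm_apply_apply x.1)
  right_inv := fun y => Subtype.ext (e.apply_symm_apply y.1)
  map_add' := fun x y => Subtype.ext (map_add e x.1 y.1)
  map_mul' := fun x y => Subtype.ext (map_mul e x.1 y.1)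

theorem thm_GEM : St_GEM := by
  refine ⟨?_, ?_⟩
  · intro A _ _ n d E _ _ hE
    choose Δ hfg hden s hs0 hs using hE
    refine ⟨GEM_ga Δ, GEM_fg Δ hfg, GEM_den Δ hden, ∏ i, s i,
      Finset.prod_ne_zero_iff.2 fun i _ => hs0 i, fun s' hs' hdvd => ?_⟩
    have h1 : ∀ i, GFG (locA (Δ i) s') := fun i =>
      hs i s' hs' ((Finset.dvd_prod_of_mem s (Finset.mem_univ i)).trans hdvd)
    exact GFG.of_equiv (GEM_equiv Δ s').symm
      (Pool.Agent.QCT.GPi n _ fun i => Pool.Agent.QCT.GMat (d i) (h1 i))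
  · intro A _ E E' _ _ _ _ e hE
    obtain ⟨Γ, hfg, hden, s, hs0, hs⟩ := hE
    refine ⟨Γ.map (e : E →ₐ[A] E'), ?_, ?_, s, hs0, fun s' hs' hdvd => ?_⟩
    · rw [Subalgebra.map_toSubmodule]
      exact hfg.map _
    · intro x
      obtain ⟨a, ha, hx⟩ := hden (e.symm x)
      refine ⟨a, ha, a • e.symm x, hx, ?_⟩
      change e (a • e.symm x) = a • x
      rw [map_smul, e.apply_symm_apply]
    · exact GFG.of_equiv (GEM_tr e Γ s') (hs s' hs' hdvd)

end Pool.Agent.Q4
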