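import Pool.Agent.Q4.StD
import Pool.Agent.QCT.GNil

/-!
# Q4, module GEN: algebras modulo a nilpotent ideal
-/

set_option autoImplicit false

namespace Pool.Agent.Q4

open Quaternion TensorProduct Function Pool.Agent.TQF Pool.Agent.QCB

theorem thm_GEN (h1 : St_LocK) (h2 : St_LocC) : St_GEN := by
  intro A K _ _ _ _ _ _ Λ _ _ _ E _ _ _ _ π hπ hnil hGE
  obtain ⟨Γ', hΓ', hΓ'2, t, ht, hloc⟩ := h1 A K Λ E π hπ hnil
  obtain ⟨Γ, hΓ, hΓ2, s, hs, hG⟩ := hGE
  obtain ⟨t', ht', hcomp⟩ := h2 A E Γ Γ' hΓ hΓ' hΓ2 hΓ'2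
  refine ⟨s * (t * t'), mul_ne_zero hs (mul_ne_zero ht ht'), fun s' hs' hdvd => ?_⟩
  have d1 : s ∣ s' := (Dvd.intro _ rfl).trans hdvd
  have d2 : t ∣ s' := ((Dvd.intro _ rfl).trans (Dvd.intro_left s rfl)).trans hdvd
  have d3 : t' ∣ s' := ((Dvd.intro_left t rfl).trans (Dvd.intro_left s rfl)).trans hdvd
  obtain ⟨ρ, hρ, hρn⟩ := hloc s' hs' d2
  have hG1 : GFG (locA Γ s') := hG s' hs' d1
  rw [hcomp s' d3] at hG1
  have : IsNoetherianRing (Localization.Away s') :=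
    IsLocalization.isNoetherianRing (Submonoid.powers s') _ inferInstance
  have : IsNoetherian (Localization.Away s') (Localization.Away s' ⊗[A] Λ) := inferInstance
  have : IsNoetherianRing (Localization.Away s' ⊗[A] Λ) :=
    isNoetherian_of_tower (Localization.Away s') inferInstance
  exact QCT.GNil ρ hρ hρn hG1

end Pool.Agent.Q4
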