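import Pool.Agent.Q4.StD
import Pool.Agent.QCB.QI

/-!
# Q4, module GNC4: algebras which are generically products of matrix rings over biquaternion algebras
-/

set_option autoImplicit false

namespace Pool.Agent.Q4

open Quaternion TensorProduct Function Pool.Agent.TQF Pool.Agent.QCB

/-- generic form -/
private theorem GNC4_num {A K : Type} [CommRing A] [IsDomain A] [Field K] [Algebra A K]
    [IsFractionRing A K] (a : K) (ha : a ≠ 0) :
    ∃ (α : A) (u : K), α ≠ 0 ∧ u ≠ 0 ∧ algebraMap A K α = u ^ 2 * a := by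
  obtain ⟨x, y, hy, rfl⟩ := IsFractionRing.div_surjective (A := A) a
  have hy0 : algebraMap A K y ≠ 0 := by
    rw [Ne, FaithfulSMul.algebraMap_eq_zero_iff]
    exact nonZeroDivisors.ne_zero hy
  have hx0 : x ≠ 0 := by
    rintro rfl
    simp at ha
  refine ⟨x * y, algebraMap A K y, mul_ne_zero hx0 (nonZeroDivisors.ne_zero hy), hy0, ?_⟩
  rw [map_mul]
  field_simp

/-- the scaled Albert form is anisotropic -/
private theorem GNC4_anis {K : Type} [Field K] {a b c d u v w z : K} (hu : u ≠ 0) (hv : v ≠ 0)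
    (hw : w ≠ 0) (hz : z ≠ 0) (h : Anis a b c d) :
    Anis (u ^ 2 * a) (v ^ 2 * b) (w ^ 2 * c) (z ^ 2 * d) := by
  intro x hx
  have h1 : alb a b c d ![u * x 0, v * x 1, u * v * x 2, w * x 3, z * x 4, w * z * x 5] = 0 := by
    rw [← hx]
    simp only [alb, albC, Fin.sum_univ_succ, Fin.sum_univ_zero]
    simp
    ring
  have h2 := h _ h1
  have e0 := congrFun h2 0
  have e1 := congrFun h2 1
  have e2 := congrFun h2 2
  have e3 := congrFun h2 3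
  have e4 := congrFun h2 4
  have e5 := congrFun h2 5
  simp [hu, hv, hw, hz] at e0 e1 e2 e3 e4 e5
  funext i
  fin_cases i <;> simp [e0, e1, e2, e3, e4, e5]

section
variable {A K : Type} [CommRing A] [IsDomain A] [Field K] [Algebra A K]
    [IsFractionRing A K] {E : Type} [Ring E] [Algebra A E] [Algebra K E] [IsScalarTower A K E]

private theorem GNC4_K (h1 : St_GE0)
    (hA : ∃ s : A, s ≠ 0 ∧ ∀ s' : A, s' ≠ 0 → s ∣ s' → GFG (Localization.Away s'))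
    (e : E ≃ₐ[K] K) : GE A E := by
  refine h1 A K A E ((Algebra.TensorProduct.rid A K K).trans e.symm) ?_
  obtain ⟨s, hs, h⟩ := hA
  refine ⟨s, hs, fun s' hs' hd => ?_⟩
  exact (h s' hs' hd).of_equiv
    (Algebra.TensorProduct.rid A (Localization.Away s') (Localization.Away s')).symm.toRingEquiv

private theorem GNC4_H (h1 : St_GE0) (h2 : St_BCQ)
    (hQ : ∀ a b : A, a ≠ 0 → b ≠ 0 → ∃ s : A, s ≠ 0 ∧ ∀ s' : A, s' ≠ 0 → s ∣ s' →
      GFG ℍ[Localization.Away s',algebraMap A (Localization.Away s') a,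
        algebraMap A (Localization.Away s') b])
    {a b : K} (ha : a ≠ 0) (hb : b ≠ 0) (e : E ≃ₐ[K] ℍ[K,a,b]) : GE A E := by
  obtain ⟨α, u, hα, hu, hαu⟩ := GNC4_num (A := A) a ha
  obtain ⟨β, v, hβ, hv, hβv⟩ := GNC4_num (A := A) b hb
  obtain ⟨k1, -, k3, -⟩ := h2
  obtain ⟨f1⟩ := k3 K a b u v (IsUnit.mk0 u hu) (IsUnit.mk0 v hv)
  have f2 := k1 A K α β
  rw [hαu, hβv] at f2
  obtain ⟨f2⟩ := f2
  refine h1 A K ℍ[A,α,β] E ((f2.trans f1).trans e.symm) ?_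
  obtain ⟨s, hs, h⟩ := hQ α β hα hβ
  refine ⟨s, hs, fun s' hs' hd => ?_⟩
  obtain ⟨f3⟩ := k1 A (Localization.Away s') α β
  exact (h s' hs' hd).of_equiv f3.symm.toRingEquiv

private theorem GNC4_B (h1 : St_GE0) (h2 : St_BCQ)
    (hB : ∀ a b c d : A, Anis (algebraMap A K a) (algebraMap A K b) (algebraMap A K c)
      (algebraMap A K d) → ∃ s : A, s ≠ 0 ∧ ∀ s' : A, s' ≠ 0 → s ∣ s' →
        GFG (BQ (Localization.Away s') (algebraMap A _ a) (algebraMap A _ b) (algebraMap A _ c)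
          (algebraMap A _ d)))
    {a b c d : K} (ha : a ≠ 0) (hb : b ≠ 0) (hc : c ≠ 0) (hd : d ≠ 0) (hn : Anis a b c d)
    (e : E ≃ₐ[K] BQ K a b c d) : GE A E := by
  obtain ⟨α, u, hα, hu, hαu⟩ := GNC4_num (A := A) a ha
  obtain ⟨β, v, hβ, hv, hβv⟩ := GNC4_num (A := A) b hb
  obtain ⟨γ, w, hγ, hw, hγw⟩ := GNC4_num (A := A) c hc
  obtain ⟨δ, z, hδ, hz, hδz⟩ := GNC4_num (A := A) d hd
  obtain ⟨-, k2, -, k4⟩ := h2
  obtain ⟨f1⟩ := k4 K a b c d u v w z (IsUnit.mk0 u hu) (IsUnit.mk0 v hv) (IsUnit.mk0 w hw)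
    (IsUnit.mk0 z hz)
  have f2 := k2 A K α β γ δ
  rw [hαu, hβv, hγw, hδz] at f2
  obtain ⟨f2⟩ := f2
  refine h1 A K (BQ A α β γ δ) E ((f2.trans f1).trans e.symm) ?_
  obtain ⟨s, hs, h⟩ := hB α β γ δ (by
    rw [hαu, hβv, hγw, hδz]
    exact GNC4_anis hu hv hw hz hn)
  refine ⟨s, hs, fun s' hs' hd => ?_⟩
  obtain ⟨f3⟩ := k2 A (Localization.Away s') α β γ δ
  exact (h s' hs' hd).of_equiv f3.symm.toRingEquiv

end

theorem thm_GNC4 (h1 : St_GE0) (h2 : St_BCQ) (h3 : St_GEM) (h4 : St_GEN) (h5 : St_ALBE) :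
    St_GNC4 := by
  intro A K _ _ _ _ _ _ h2K hA hQ hB Λ _ _ _ hsp
  obtain ⟨n, d, E, iR, iK, π, hπ, hnil, hE⟩ := hsp
  let iA : ∀ i, Algebra A (E i) := fun i => Algebra.compHom (E i) (algebraMap A K)
  have iT : ∀ i, IsScalarTower A K (E i) := fun i => IsScalarTower.of_algebraMap_eq' rfl
  refine h4 A K Λ (∀ i, Matrix (Fin (d i)) (Fin (d i)) (E i)) π hπ hnil ?_
  refine h3.1 A n d E fun i => ?_
  rcases hE i with ⟨⟨e⟩⟩ | ⟨a, b, ha, hb, ⟨e⟩⟩ | ⟨a, b, c, d', ha, hb, hc, hd, ⟨e⟩⟩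
  · exact GNC4_K h1 hA e
  · exact GNC4_H h1 h2 hQ ha hb e
  · by_cases hn : Anis a b c d'
    · exact GNC4_B h1 h2 hB ha hb hc hd hn e
    · obtain ⟨a', b', ha', hb', ⟨f⟩⟩ := h5 K a b c d' h2K ha hb hc hd hn
      have g1 : GE A ℍ[K,a',b'] := GNC4_H h1 h2 hQ ha' hb' (AlgEquiv.refl : _ ≃ₐ[K] _)
      have g2 := h3.1 A 1 (fun _ => 2) (fun _ => ℍ[K,a',b']) (fun _ => g1)
      have f1 : (Fin 1 → Matrix (Fin 2) (Fin 2) ℍ[K,a',b']) ≃ₐ[A] Matrix (Fin 2) (Fin 2) ℍ[K,a',b'] :=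
        AlgEquiv.funUnique A (Fin 1) _
      have f2 : Matrix (Fin 2) (Fin 2) ℍ[K,a',b'] ≃ₐ[A] E i :=
        ((e.trans f).symm).restrictScalars A
      exact h3.2 A _ _ (f1.trans f2) g2

end Pool.Agent.Q4
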