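import Pool.Agent.Q4.StA

/-!
# Q4, module QUIN: nondegenerate forms in five variables (helper99)
-/

set_option autoImplicit false

namespace Pool.Agent.Q4

open Function Quaternion TensorProduct

/-- homomorphisms from a quaternion algebra to a nontrivial algebra are injective -/
private theorem QUIN_inj {K Λ : Type} [Field K] [Ring Λ] [Algebra K Λ] [Nontrivial Λ] (a b : K)
    (h2 : (2 : K) ≠ 0) (ha : a ≠ 0) (hb : b ≠ 0) (f : ℍ[K,a,b] →ₐ[K] Λ) : Injective f := by
  have h4 : (4 : K) ≠ 0 := by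
    have : (4 : K) = 2 * 2 := by norm_num
    rw [this]
    exact mul_ne_zero h2 h2
  -- real parts of elements of the kernel vanish
  have hre : ∀ w : ℍ[K,a,b], f w = 0 → w.re = 0 := by
    intro w hw
    have h1 : algebraMap K ℍ[K,a,b] (4 * a * b * w.re) =
        algebraMap K ℍ[K,a,b] b * (algebraMap K ℍ[K,a,b] a * w +
          (⟨0, 1, 0, 0⟩ : ℍ[K,a,b]) * (w * (⟨0, 1, 0, 0⟩ : ℍ[K,a,b]))) +
        (⟨0, 0, 1, 0⟩ : ℍ[K,a,b]) * ((algebraMap K ℍ[K,a,b] a * w +
          (⟨0, 1, 0, 0⟩ : ℍ[K,a,b]) * (w * (⟨0, 1, 0, 0⟩ : ℍ[K,a,b]))) *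
            (⟨0, 0, 1, 0⟩ : ℍ[K,a,b])) := by
      rw [QuaternionAlgebra.algebraMap_eq, QuaternionAlgebra.algebraMap_eq,
        QuaternionAlgebra.algebraMap_eq]
      ext <;> simp
      ring
    have h3 : f (algebraMap K ℍ[K,a,b] (4 * a * b * w.re)) = 0 := by
      rw [h1]
      simp only [map_add, map_mul, hw, mul_zero, zero_mul, add_zero]
    rw [AlgHom.commutes] at h3
    have h5 : 4 * a * b * w.re = 0 := by
      by_contra hne
      have h6 := (algebraMap K Λ).injective (a₁ := 4 * a * b * w.re) (a₂ := 0)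
        (by rw [h3, map_zero])
      exact hne h6
    rcases mul_eq_zero.1 h5 with h | h
    · exact absurd h (mul_ne_zero (mul_ne_zero h4 ha) hb)
    · exact h
  rw [injective_iff_map_eq_zero]
  intro z hz
  have e0 := hre z hz
  have e1 := hre ((⟨0, 1, 0, 0⟩ : ℍ[K,a,b]) * z) (by rw [map_mul, hz, mul_zero])
  have e2 := hre ((⟨0, 0, 1, 0⟩ : ℍ[K,a,b]) * z) (by rw [map_mul, hz, mul_zero])
  have e3 := hre ((⟨0, 0, 0, 1⟩ : ℍ[K,a,b]) * z) (by rw [map_mul, hz, mul_zero])
  have f1 : ((⟨0, 1, 0, 0⟩ : ℍ[K,a,b]) * z).re = a * z.imI := by simp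
  have f2 : ((⟨0, 0, 1, 0⟩ : ℍ[K,a,b]) * z).re = b * z.imJ := by simp
  have f3 : ((⟨0, 0, 0, 1⟩ : ℍ[K,a,b]) * z).re = -(a * b) * z.imK := by simp
  rw [f1] at e1
  rw [f2] at e2
  rw [f3] at e3
  ext
  · exact e0
  · exact (mul_eq_zero.1 e1).resolve_left ha
  · exact (mul_eq_zero.1 e2).resolve_left hb
  · exact (mul_eq_zero.1 e3).resolve_left (neg_ne_zero.2 (mul_ne_zero ha hb))

section
variable {K Λ : Type} [Field K] [Ring Λ] [Algebra K Λ]

/-- the coefficient of `1` -/
private theorem QUIN_ind0 (c d : K) (h2 : (2 : K) ≠ 0) (hc : c ≠ 0) (hd : d ≠ 0) (I J : Λ)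
    (hI : I * I = c • (1 : Λ)) (hJ : J * J = d • (1 : Λ)) (hIJ : J * I = -(I * J))
    (y0 y1 y2 y3 : Λ) (h0I : I * y0 = y0 * I) (h1I : I * y1 = y1 * I) (h2I : I * y2 = y2 * I)
    (h3I : I * y3 = y3 * I) (h0J : J * y0 = y0 * J) (h1J : J * y1 = y1 * J)
    (h2J : J * y2 = y2 * J) (h3J : J * y3 = y3 * J)
    (h : y0 + y1 * I + y2 * J + y3 * (I * J) = 0) : y0 = 0 := by
  have h4 : (4 : K) ≠ 0 := by
    have : (4 : K) = 2 * 2 := by norm_num
    rw [this]
    exact mul_ne_zero h2 h2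
  -- conjugation by `I`
  have a0 : I * y0 * I = c • y0 := by
    rw [h0I, mul_assoc, hI, mul_smul_comm, mul_one]
  have a1 : I * (y1 * I) * I = c • (y1 * I) := by
    rw [← mul_assoc, h1I, mul_assoc, hI, mul_smul_comm, mul_one]
  have a2 : I * (y2 * J) * I = -(c • (y2 * J)) := by
    rw [← mul_assoc, h2I, mul_assoc, mul_assoc, hIJ, mul_neg, ← mul_assoc I I J, hI,
      smul_one_mul, mul_neg, mul_smul_comm]
  have a3 : I * (y3 * (I * J)) * I = -(c • (y3 * (I * J))) := by
    have : I * (y3 * (I * J)) * I = y3 * (I * (I * (J * I))) := by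
      rw [← mul_assoc, h3I]; noncomm_ring
    rw [this, hIJ, mul_neg, mul_neg, mul_neg, ← mul_assoc I I, hI]
    rw [smul_one_mul, mul_smul_comm]
  -- conjugation by `J`
  have b0 : J * y0 * J = d • y0 := by
    rw [h0J, mul_assoc, hJ, mul_smul_comm, mul_one]
  have b1 : J * (y1 * I) * J = -(d • (y1 * I)) := by
    rw [← mul_assoc, h1J, mul_assoc, mul_assoc, ← mul_assoc J I J, hIJ, neg_mul, mul_assoc,
      hJ, mul_smul_comm, mul_one, mul_neg, mul_smul_comm]
  have b2 : J * (y2 * J) * J = d • (y2 * J) := by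
    rw [← mul_assoc, h2J, mul_assoc, hJ, mul_smul_comm, mul_one]
  have b3 : J * (y3 * (I * J)) * J = -(d • (y3 * (I * J))) := by
    have : J * (y3 * (I * J)) * J = y3 * ((J * I) * (J * J)) := by
      rw [← mul_assoc, h3J]; noncomm_ring
    rw [this, hIJ, hJ, mul_smul_comm, mul_one, smul_neg, mul_neg, mul_smul_comm]
  have hK : (I * J) * (I * J) = -((c * d) • (1 : Λ)) := by
    have : (I * J) * (I * J) = I * (J * I) * J := by noncomm_ring
    rw [this, hIJ]
    have : I * -(I * J) * J = -((I * I) * (J * J)) := by noncomm_ring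
    rw [this, hI, hJ, smul_mul_smul_comm, one_mul]
  have c0 : (I * J) * y0 * (I * J) = -((c * d) • y0) := by
    have : (I * J) * y0 * (I * J) = y0 * ((I * J) * (I * J)) := by
      rw [mul_assoc I J y0, h0J, ← mul_assoc I y0 J, h0I]; noncomm_ring
    rw [this, hK, mul_neg, mul_smul_comm, mul_one]
  have hKI : (I * J) * I = -(c • J) := by
    rw [mul_assoc, hIJ, mul_neg, ← mul_assoc, hI, smul_one_mul]
  have hKJ : (I * J) * J = d • I := by
    rw [mul_assoc, hJ, mul_smul_comm, mul_one]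
  have hJK : J * (I * J) = -(d • I) := by
    rw [← mul_assoc, hIJ, neg_mul, hKJ]
  have hIK : I * (I * J) = c • J := by
    rw [← mul_assoc, hI, smul_one_mul]
  have c1 : (I * J) * (y1 * I) * (I * J) = (c * d) • (y1 * I) := by
    have : (I * J) * (y1 * I) * (I * J) = y1 * (((I * J) * I) * (I * J)) := by
      rw [← mul_assoc (I * J) y1 I, mul_assoc I J y1, h1J, ← mul_assoc I y1 J, h1I]; noncomm_ring
    rw [this, hKI, neg_mul, smul_mul_assoc, hJK, smul_neg, neg_neg, smul_smul, mul_smul_comm]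
  have c2 : (I * J) * (y2 * J) * (I * J) = (c * d) • (y2 * J) := by
    have : (I * J) * (y2 * J) * (I * J) = y2 * (((I * J) * J) * (I * J)) := by
      rw [← mul_assoc (I * J) y2 J, mul_assoc I J y2, h2J, ← mul_assoc I y2 J, h2I]; noncomm_ring
    rw [this, hKJ, smul_mul_assoc, hIK, smul_smul, mul_comm d c, mul_smul_comm]
  have c3 : (I * J) * (y3 * (I * J)) * (I * J) = -((c * d) • (y3 * (I * J))) := by
    have : (I * J) * (y3 * (I * J)) * (I * J) = y3 * ((I * J) * ((I * J) * (I * J))) := by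
      rw [← mul_assoc (I * J) y3 (I * J), mul_assoc I J y3, h3J, ← mul_assoc I y3 J, h3I]
      noncomm_ring
    rw [this, hK, mul_neg, mul_smul_comm, mul_one, mul_neg, mul_smul_comm]
  set S : Λ := y0 + y1 * I + y2 * J + y3 * (I * J) with hS
  have e1 : I * S * I = c • y0 + c • (y1 * I) + -(c • (y2 * J)) + -(c • (y3 * (I * J))) := by
    rw [hS, mul_add, mul_add, mul_add, add_mul, add_mul, add_mul, a0, a1, a2, a3]
  have e2 : J * S * J = d • y0 + -(d • (y1 * I)) + d • (y2 * J) + -(d • (y3 * (I * J))) := by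
    rw [hS, mul_add, mul_add, mul_add, add_mul, add_mul, add_mul, b0, b1, b2, b3]
  have e3 : (I * J) * S * (I * J) = -((c * d) • y0) + (c * d) • (y1 * I) + (c * d) • (y2 * J)
      + -((c * d) • (y3 * (I * J))) := by
    rw [hS, mul_add, mul_add, mul_add, add_mul, add_mul, add_mul, c0, c1, c2, c3]
  have key : (c * d) • S + d • (I * S * I) + c • (J * S * J) - (I * J) * S * (I * J)
      = (4 * (c * d)) • y0 := by
    rw [e1, e2, e3, hS]
    module
  rw [h] at key
  simp only [smul_zero, mul_zero, zero_mul, add_zero, sub_zero] at key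
  exact (smul_eq_zero.1 key.symm).resolve_left (mul_ne_zero h4 (mul_ne_zero hc hd))

private theorem QUIN_ind (c d : K) (h2 : (2 : K) ≠ 0) (hc : c ≠ 0) (hd : d ≠ 0) (I J : Λ)
    (hI : I * I = c • (1 : Λ)) (hJ : J * J = d • (1 : Λ)) (hIJ : J * I = -(I * J))
    (y0 y1 y2 y3 : Λ) (h0I : I * y0 = y0 * I) (h1I : I * y1 = y1 * I) (h2I : I * y2 = y2 * I)
    (h3I : I * y3 = y3 * I) (h0J : J * y0 = y0 * J) (h1J : J * y1 = y1 * J)
    (h2J : J * y2 = y2 * J) (h3J : J * y3 = y3 * J)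
    (h : y0 + y1 * I + y2 * J + y3 * (I * J) = 0) : y0 = 0 ∧ y1 = 0 ∧ y2 = 0 ∧ y3 = 0 := by
  have hz0 : y0 = 0 := QUIN_ind0 c d h2 hc hd I J hI hJ hIJ y0 y1 y2 y3 h0I h1I h2I h3I h0J h1J
    h2J h3J h
  have hz1 : y1 = 0 := by
    have h' : c • y1 + y0 * I + (-(c • y3)) * J + (-y2) * (I * J) = 0 := by
      have : c • y1 + y0 * I + (-(c • y3)) * J + (-y2) * (I * J)
          = (y0 + y1 * I + y2 * J + y3 * (I * J)) * I := by
        have e1 : y1 * I * I = c • y1 := by rw [mul_assoc, hI, mul_smul_comm, mul_one]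
        have e2 : y2 * J * I = (-y2) * (I * J) := by rw [mul_assoc, hIJ]; noncomm_ring
        have e3 : y3 * (I * J) * I = (-(c • y3)) * J := by
          rw [mul_assoc, mul_assoc, hIJ, mul_neg, ← mul_assoc I I, hI, smul_one_mul, mul_neg,
            mul_smul_comm, neg_mul, smul_mul_assoc]
        rw [add_mul, add_mul, add_mul, e1, e2, e3]
        abel
      rw [this, h, zero_mul]
    have h3 := QUIN_ind0 c d h2 hc hd I J hI hJ hIJ (c • y1) y0 (-(c • y3)) (-y2)
      (by rw [mul_smul_comm, smul_mul_assoc, h1I]) h0I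
      (by rw [mul_neg, neg_mul, mul_smul_comm, smul_mul_assoc, h3I])
      (by rw [mul_neg, neg_mul, h2I])
      (by rw [mul_smul_comm, smul_mul_assoc, h1J]) h0J
      (by rw [mul_neg, neg_mul, mul_smul_comm, smul_mul_assoc, h3J])
      (by rw [mul_neg, neg_mul, h2J]) h'
    exact (smul_eq_zero.1 h3).resolve_left hc
  have hz2 : y2 = 0 := by
    have h' : d • y2 + (d • y3) * I + y0 * J + y1 * (I * J) = 0 := by
      have : d • y2 + (d • y3) * I + y0 * J + y1 * (I * J)
          = (y0 + y1 * I + y2 * J + y3 * (I * J)) * J := by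
        have e1 : y1 * I * J = y1 * (I * J) := mul_assoc _ _ _
        have e2 : y2 * J * J = d • y2 := by rw [mul_assoc, hJ, mul_smul_comm, mul_one]
        have e3 : y3 * (I * J) * J = (d • y3) * I := by
          rw [mul_assoc, mul_assoc, hJ, mul_smul_comm, mul_one, mul_smul_comm, smul_mul_assoc]
        rw [add_mul, add_mul, add_mul, e1, e2, e3]
        abel
      rw [this, h, zero_mul]
    have h3 := QUIN_ind0 c d h2 hc hd I J hI hJ hIJ (d • y2) (d • y3) y0 y1
      (by rw [mul_smul_comm, smul_mul_assoc, h2I])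
      (by rw [mul_smul_comm, smul_mul_assoc, h3I]) h0I h1I
      (by rw [mul_smul_comm, smul_mul_assoc, h2J])
      (by rw [mul_smul_comm, smul_mul_assoc, h3J]) h0J h1J h'
    exact (smul_eq_zero.1 h3).resolve_left hd
  refine ⟨hz0, hz1, hz2, ?_⟩
  rw [hz0, hz1, hz2, zero_mul, zero_mul, zero_add, zero_add, zero_add] at h
  have hK : (I * J) * (I * J) = -((c * d) • (1 : Λ)) := by
    have : (I * J) * (I * J) = I * (J * I) * J := by noncomm_ring
    rw [this, hIJ]
    have : I * -(I * J) * J = -((I * I) * (J * J)) := by noncomm_ring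
    rw [this, hI, hJ, smul_mul_smul_comm, one_mul]
  have h3 : y3 * ((I * J) * (I * J)) = 0 := by rw [← mul_assoc, h, zero_mul]
  rw [hK, mul_neg, mul_smul_comm, mul_one, neg_eq_zero] at h3
  exact (smul_eq_zero.1 h3).resolve_left (mul_ne_zero hc hd)

/-- three anticommuting elements -/
private theorem QUIN_tri (x y z : K) (a b c : Λ) (ha : a * a = x • (1 : Λ))
    (hb : b * b = y • (1 : Λ)) (hc : c * c = z • (1 : Λ)) (hab : b * a = -(a * b))
    (hac : c * a = -(a * c)) (hbc : c * b = -(b * c)) :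
    (a * b) * (a * b) = -((x * y) • (1 : Λ)) ∧ c * (a * b) = (a * b) * c ∧
      (a * b * c) * (a * b * c) = -((x * y * z) • (1 : Λ)) ∧
      a * (a * b * c) = (a * b * c) * a ∧ b * (a * b * c) = (a * b * c) * b := by
  have h1 : (a * b) * (a * b) = -((x * y) • (1 : Λ)) := by
    have : (a * b) * (a * b) = a * (b * a) * b := by noncomm_ring
    rw [this, hab]
    have : a * -(a * b) * b = -((a * a) * (b * b)) := by noncomm_ring
    rw [this, ha, hb, smul_mul_smul_comm, one_mul]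
  have h2 : c * (a * b) = (a * b) * c := by
    rw [← mul_assoc, hac, neg_mul, mul_assoc, hbc]
    noncomm_ring
  refine ⟨h1, h2, ?_, ?_, ?_⟩
  · have : (a * b * c) * (a * b * c) = (a * b) * (c * (a * b)) * c := by noncomm_ring
    rw [this, h2]
    have : a * b * (a * b * c) * c = (a * b) * (a * b) * (c * c) := by noncomm_ring
    rw [this, h1, hc, neg_mul, smul_mul_smul_comm, one_mul]
  · have h3 : (a * b * c) * a = (a * b) * (c * a) := by noncomm_ring
    have h4 : (a * b) * -(a * c) = -(a * (b * a) * c) := by noncomm_ring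
    rw [h3, hac, h4, hab]
    noncomm_ring
  · have h3 : (a * b * c) * b = (a * b) * (c * b) := by noncomm_ring
    have h4 : b * (a * b * c) = (b * a) * (b * c) := by noncomm_ring
    rw [h3, hbc, h4, hab]
    noncomm_ring

end

/-- every element of the tensor product in coordinates -/
private theorem QUIN_rep {K : Type} [Field K] (a b c d : K) (z : BQ K a b c d) :
    ∃ x0 x1 x2 x3 : ℍ[K,a,b], z = x0 ⊗ₜ 1 + x1 ⊗ₜ (⟨0, 1, 0, 0⟩ : ℍ[K,c,d]) +
      x2 ⊗ₜ (⟨0, 0, 1, 0⟩ : ℍ[K,c,d]) + x3 ⊗ₜ (⟨0, 0, 0, 1⟩ : ℍ[K,c,d]) := by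
  induction z using TensorProduct.induction_on with
  | zero => exact ⟨0, 0, 0, 0, by simp⟩
  | tmul x y =>
    refine ⟨y.re • x, y.imI • x, y.imJ • x, y.imK • x, ?_⟩
    have hy : y = y.re • (1 : ℍ[K,c,d]) + y.imI • (⟨0, 1, 0, 0⟩ : ℍ[K,c,d]) +
        y.imJ • (⟨0, 0, 1, 0⟩ : ℍ[K,c,d]) + y.imK • (⟨0, 0, 0, 1⟩ : ℍ[K,c,d]) := by
      ext <;> simp
    conv_lhs => rw [hy]
    rw [tmul_add, tmul_add, tmul_add, tmul_smul, tmul_smul, tmul_smul, tmul_smul, smul_tmul',
      smul_tmul', smul_tmul', smul_tmul']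
  | add z z' hz hz' =>
    obtain ⟨x0, x1, x2, x3, rfl⟩ := hz
    obtain ⟨y0, y1, y2, y3, rfl⟩ := hz'
    refine ⟨x0 + y0, x1 + y1, x2 + y2, x3 + y3, ?_⟩
    rw [add_tmul, add_tmul, add_tmul, add_tmul]
    abel

theorem thm_QUIN : St_QUIN := by
  intro K _ Q h2 hQ
  classical
  let _ : Invertible (2 : K) := invertibleOfNonzero h2
  obtain ⟨v', hv'⟩ := LinearMap.BilinForm.exists_orthogonal_basis
    (QuadraticForm.associated_isSymm K Q)
  have hfr : Module.finrank K (Fin 5 → K) = 5 := by simp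
  let v : Module.Basis (Fin 5) K (Fin 5 → K) := v'.reindex (finCongr hfr)
  -- orthogonality
  have hort : ∀ i j, i ≠ j → Q.IsOrtho (v i) (v j) := by
    intro i j hij
    have h1 := hv' (i := (finCongr hfr).symm i) (j := (finCongr hfr).symm j)
      (fun h => hij ((finCongr hfr).symm.injective h))
    rw [← QuadraticMap.associated_isOrtho]
    simpa [v] using h1
  have hpol : ∀ i j, i ≠ j → QuadraticMap.polar Q (v i) (v j) = 0 := fun i j hij =>
    (hort i j hij).polar_eq_zero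
  -- nonzero values
  have hne : ∀ i, Q (v i) ≠ 0 := by
    intro i hi
    have h1 : v i = 0 := by
      apply hQ.1
      intro y
      have h3 : QuadraticMap.polarBilin Q (v i) = 0 := by
        apply v.ext
        intro j
        rw [QuadraticMap.polarBilin_apply_apply, LinearMap.zero_apply]
        by_cases hij : i = j
        · rw [← hij, QuadraticMap.polar_self, hi, smul_zero]
        · exact hpol i j hij
      rw [h3, LinearMap.zero_apply]
    exact v.ne_zero i h1
  -- the generators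
  have hmem : ∀ x y : Fin 5 → K, CliffordAlgebra.ι Q x * CliffordAlgebra.ι Q y ∈
      CliffordAlgebra.even Q := fun x y => CliffordAlgebra.ι_mul_ι_mem_evenOdd_zero Q x y
  set e : Fin 5 → CliffordAlgebra Q := fun i => CliffordAlgebra.ι Q (v i) with he
  have hsq : ∀ i, e i * e i = algebraMap K _ (Q (v i)) := fun i =>
    CliffordAlgebra.ι_sq_scalar Q (v i)
  have hsw : ∀ i j, i ≠ j → e i * e j = -(e j * e i) := fun i j hij =>
    CliffordAlgebra.ι_mul_ι_comm_of_isOrtho (hort i j hij)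
  -- the elements `u i = e 0 * e i` of the even Clifford algebra
  let u : Fin 5 → CliffordAlgebra.even Q := fun i => ⟨e 0 * e i, hmem _ _⟩
  have hprod : ∀ i j, i ≠ 0 → ((u i * u j : CliffordAlgebra.even Q) : CliffordAlgebra Q)
      = -(Q (v 0) • (e i * e j)) := by
    intro i j hi
    change (e 0 * e i) * (e 0 * e j) = _
    have h3 : (e 0 * e i) * (e 0 * e j) = e 0 * (e i * e 0) * e j := by noncomm_ring
    have h4 : e 0 * -(e 0 * e i) * e j = -((e 0 * e 0) * (e i * e j)) := by noncomm_ring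
    rw [h3, hsw i 0 hi, h4, hsq, Algebra.smul_def]
  have husq : ∀ i, i ≠ 0 → u i * u i = (-(Q (v 0) * Q (v i))) • (1 : CliffordAlgebra.even Q) := by
    intro i hi
    apply Subtype.ext
    rw [hprod i i hi, hsq]
    change _ = (-(Q (v 0) * Q (v i))) • (1 : CliffordAlgebra Q)
    rw [neg_smul, mul_smul, Algebra.algebraMap_eq_smul_one]
  have husw : ∀ i j, i ≠ 0 → j ≠ 0 → i ≠ j → u j * u i = -(u i * u j) := by
    intro i j hi hj hij
    apply Subtype.ext
    rw [hprod j i hj]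
    change _ = -((u i * u j : CliffordAlgebra.even Q) : CliffordAlgebra Q)
    rw [hprod i j hi, hsw j i (Ne.symm hij), smul_neg]
  set x : Fin 5 → K := fun i => -(Q (v 0) * Q (v i)) with hx
  have hx0 : ∀ i, x i ≠ 0 := fun i => neg_ne_zero.2 (mul_ne_zero (hne 0) (hne i))
  obtain ⟨s1, s2, s3, s4, s5⟩ := QUIN_tri (x 1) (x 2) (x 3) (u 1) (u 2) (u 3)
    (husq 1 (by decide)) (husq 2 (by decide)) (husq 3 (by decide))
    (husw 1 2 (by decide) (by decide) (by decide)) (husw 1 3 (by decide) (by decide) (by decide))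
    (husw 2 3 (by decide) (by decide) (by decide))
  obtain ⟨-, t2, t3, t4, t5⟩ := QUIN_tri (x 1) (x 2) (x 4) (u 1) (u 2) (u 4)
    (husq 1 (by decide)) (husq 2 (by decide)) (husq 4 (by decide))
    (husw 1 2 (by decide) (by decide) (by decide)) (husw 1 4 (by decide) (by decide) (by decide))
    (husw 2 4 (by decide) (by decide) (by decide))
  have h34 : u 4 * u 3 = -(u 3 * u 4) := husw 3 4 (by decide) (by decide) (by decide)
  set I2 : CliffordAlgebra.even Q := u 1 * u 2 * u 3 with hI2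
  set J2 : CliffordAlgebra.even Q := u 1 * u 2 * u 4 with hJ2
  have hsw2 : J2 * I2 = -(I2 * J2) := by
    have e1 : J2 * I2 = (u 1 * u 2) * (u 4 * (u 1 * u 2)) * u 3 := by
      rw [hJ2, hI2]; noncomm_ring
    have e2 : I2 * J2 = (u 1 * u 2) * (u 3 * (u 1 * u 2)) * u 4 := by
      rw [hJ2, hI2]; noncomm_ring
    have e3 : (u 1 * u 2) * (u 1 * u 2 * u 4) * u 3
        = (u 1 * u 2) * (u 1 * u 2) * (u 4 * u 3) := by noncomm_ring
    have e4 : (u 1 * u 2) * (u 1 * u 2 * u 3) * u 4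
        = (u 1 * u 2) * (u 1 * u 2) * (u 3 * u 4) := by noncomm_ring
    rw [e1, e2, t2, s2, e3, e4, h34, mul_neg]
  set c : K := -(x 1 * x 2 * x 3) with hc
  set d : K := -(x 1 * x 2 * x 4) with hd
  have hc0 : c ≠ 0 := neg_ne_zero.2 (mul_ne_zero (mul_ne_zero (hx0 1) (hx0 2)) (hx0 3))
  have hd0 : d ≠ 0 := neg_ne_zero.2 (mul_ne_zero (mul_ne_zero (hx0 1) (hx0 2)) (hx0 4))
  have hI2sq : I2 * I2 = c • (1 : CliffordAlgebra.even Q) := by rw [s3, hc, neg_smul]
  have hJ2sq : J2 * J2 = d • (1 : CliffordAlgebra.even Q) := by rw [t3, hd, neg_smul]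
  let B1 : QuaternionAlgebra.Basis (CliffordAlgebra.even Q) (x 1) 0 (x 2) :=
    { i := u 1
      j := u 2
      k := u 1 * u 2
      i_mul_i := by rw [zero_smul, add_zero]; exact husq 1 (by decide)
      j_mul_j := husq 2 (by decide)
      i_mul_j := rfl
      j_mul_i := by
        rw [zero_smul, zero_sub]
        exact husw 1 2 (by decide) (by decide) (by decide) }
  let B2 : QuaternionAlgebra.Basis (CliffordAlgebra.even Q) c 0 d :=
    { i := I2
      j := J2
      k := I2 * J2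
      i_mul_i := by rw [zero_smul, add_zero]; exact hI2sq
      j_mul_j := hJ2sq
      i_mul_j := rfl
      j_mul_i := by
        rw [zero_smul, zero_sub]
        exact hsw2 }
  let f1 : ℍ[K,x 1,x 2] →ₐ[K] CliffordAlgebra.even Q := B1.liftHom
  let f2 : ℍ[K,c,d] →ₐ[K] CliffordAlgebra.even Q := B2.liftHom
  have hf1 : ∀ w : ℍ[K,x 1,x 2], f1 w = algebraMap K _ w.re + w.imI • u 1 + w.imJ • u 2
      + w.imK • (u 1 * u 2) := fun w => rfl
  have hf2 : ∀ w : ℍ[K,c,d], f2 w = algebraMap K _ w.re + w.imI • I2 + w.imJ • J2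
      + w.imK • (I2 * J2) := fun w => rfl
  -- the images commute
  have hcI : ∀ w : ℍ[K,x 1,x 2], Commute (f1 w) I2 := by
    intro w
    have c1 : Commute (u 1) I2 := s4
    have c2 : Commute (u 2) I2 := s5
    rw [hf1]
    exact (((Algebra.commute_algebraMap_left _ _).add_left (c1.smul_left _)).add_left
      (c2.smul_left _)).add_left ((c1.mul_left c2).smul_left _)
  have hcJ : ∀ w : ℍ[K,x 1,x 2], Commute (f1 w) J2 := by
    intro w
    have c1 : Commute (u 1) J2 := t4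
    have c2 : Commute (u 2) J2 := t5
    rw [hf1]
    exact (((Algebra.commute_algebraMap_left _ _).add_left (c1.smul_left _)).add_left
      (c2.smul_left _)).add_left ((c1.mul_left c2).smul_left _)
  have hcomm : ∀ (w : ℍ[K,x 1,x 2]) (w' : ℍ[K,c,d]), Commute (f1 w) (f2 w') := by
    intro w w'
    rw [hf2]
    exact (((Algebra.commute_algebraMap_right _ _).add_right ((hcI w).smul_right _)).add_right
      ((hcJ w).smul_right _)).add_right (((hcI w).mul_right (hcJ w)).smul_right _)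
  let φ : BQ K (x 1) (x 2) c d →ₐ[K] CliffordAlgebra.even Q :=
    Algebra.TensorProduct.lift f1 f2 hcomm
  have hφ : ∀ (w : ℍ[K,x 1,x 2]) (w' : ℍ[K,c,d]), φ (w ⊗ₜ w') = f1 w * f2 w' := fun w w' =>
    Algebra.TensorProduct.lift_tmul _ _ _ _ _
  have hf2i : f2 ⟨0, 1, 0, 0⟩ = I2 := by rw [hf2]; simp
  have hf2j : f2 ⟨0, 0, 1, 0⟩ = J2 := by rw [hf2]; simp
  have hf2k : f2 ⟨0, 0, 0, 1⟩ = I2 * J2 := by rw [hf2]; simp
  have hf1i : f1 ⟨0, 1, 0, 0⟩ = u 1 := by rw [hf1]; simp
  have hf1j : f1 ⟨0, 0, 1, 0⟩ = u 2 := by rw [hf1]; simp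
  have hnt : Nontrivial (CliffordAlgebra.even Q) := inferInstance
  have hinj1 : Injective f1 := QUIN_inj (x 1) (x 2) h2 (hx0 1) (hx0 2) f1
  have hinj : Injective φ := by
    rw [injective_iff_map_eq_zero]
    intro z hz
    obtain ⟨x0, x1, x2, x3, rfl⟩ := QUIN_rep _ _ _ _ z
    rw [map_add, map_add, map_add, hφ, hφ, hφ, hφ, hf2i, hf2j, hf2k, map_one, mul_one] at hz
    obtain ⟨z0, z1, z2, z3⟩ := QUIN_ind c d h2 hc0 hd0 I2 J2 hI2sq hJ2sq hsw2
      (f1 x0) (f1 x1) (f1 x2) (f1 x3) (hcI x0).symm (hcI x1).symm (hcI x2).symm (hcI x3).symm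
      (hcJ x0).symm (hcJ x1).symm (hcJ x2).symm (hcJ x3).symm hz
    have w0 : x0 = 0 := hinj1 (by rw [z0, map_zero])
    have w1 : x1 = 0 := hinj1 (by rw [z1, map_zero])
    have w2 : x2 = 0 := hinj1 (by rw [z2, map_zero])
    have w3 : x3 = 0 := hinj1 (by rw [z3, map_zero])
    rw [w0, w1, w2, w3, zero_tmul, zero_tmul, zero_tmul, zero_tmul]
    simp
  -- the range
  let R : Subalgebra K (CliffordAlgebra.even Q) := φ.range
  have r1 : u 1 ∈ R := ⟨(⟨0, 1, 0, 0⟩ : ℍ[K,x 1,x 2]) ⊗ₜ 1, by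
    change φ _ = _
    rw [hφ, hf1i, map_one, mul_one]⟩
  have r2 : u 2 ∈ R := ⟨(⟨0, 0, 1, 0⟩ : ℍ[K,x 1,x 2]) ⊗ₜ 1, by
    change φ _ = _
    rw [hφ, hf1j, map_one, mul_one]⟩
  have rI : I2 ∈ R := ⟨1 ⊗ₜ (⟨0, 1, 0, 0⟩ : ℍ[K,c,d]), by
    change φ _ = _
    rw [hφ, hf2i, map_one, one_mul]⟩
  have rJ : J2 ∈ R := ⟨1 ⊗ₜ (⟨0, 0, 1, 0⟩ : ℍ[K,c,d]), by
    change φ _ = _
    rw [hφ, hf2j, map_one, one_mul]⟩
  have hxx : x 1 * x 2 ≠ 0 := mul_ne_zero (hx0 1) (hx0 2)
  have hback : ∀ w : CliffordAlgebra.even Q, (u 1 * u 2) * w ∈ R → w ∈ R := by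
    intro w hw
    have h3 : (u 1 * u 2) * ((u 1 * u 2) * w) ∈ R :=
      Subalgebra.mul_mem R (Subalgebra.mul_mem R r1 r2) hw
    rw [← mul_assoc, s1, neg_mul, smul_one_mul] at h3
    have h4 := Subalgebra.smul_mem R (Subalgebra.neg_mem R h3) (x 1 * x 2)⁻¹
    rwa [neg_neg, smul_smul, inv_mul_cancel₀ hxx, one_smul] at h4
  have r3 : u 3 ∈ R := hback _ rI
  have r4 : u 4 ∈ R := hback _ rJ
  have r0 : u 0 ∈ R := by
    have : u 0 = Q (v 0) • (1 : CliffordAlgebra.even Q) := by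
      apply Subtype.ext
      change e 0 * e 0 = Q (v 0) • (1 : CliffordAlgebra Q)
      rw [hsq, Algebra.algebraMap_eq_smul_one]
    rw [this]
    exact Subalgebra.smul_mem R (Subalgebra.one_mem R) _
  have rall : ∀ i, u i ∈ R := by
    intro i
    fin_cases i
    · exact r0
    · exact r1
    · exact r2
    · exact r3
    · exact r4
  -- the range as a subalgebra of the Clifford algebra
  let S : Subalgebra K (CliffordAlgebra Q) := R.map (CliffordAlgebra.even Q).val
  have hS : ∀ w : CliffordAlgebra.even Q, w ∈ R → (w : CliffordAlgebra Q) ∈ S := fun w hw =>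
    ⟨w, hw, rfl⟩
  have hall : ∀ i j, e i * e j ∈ S := by
    intro i j
    by_cases hi : i = 0
    · rw [hi]
      exact hS (u j) (rall j)
    · have h3 := hS _ (Subalgebra.mul_mem R (rall i) (rall j))
      rw [hprod i j hi] at h3
      have h4 := Subalgebra.smul_mem S (Subalgebra.neg_mem S h3) (Q (v 0))⁻¹
      rwa [neg_neg, smul_smul, inv_mul_cancel₀ (hne 0), one_smul] at h4
  have hvec : ∀ x y : Fin 5 → K, CliffordAlgebra.ι Q x * CliffordAlgebra.ι Q y ∈ S := by
    intro x y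
    rw [← v.sum_repr x, ← v.sum_repr y, map_sum, map_sum, Finset.sum_mul_sum]
    refine Subalgebra.sum_mem S fun i _ => Subalgebra.sum_mem S fun j _ => ?_
    rw [map_smul, map_smul, smul_mul_assoc, mul_smul_comm]
    exact Subalgebra.smul_mem S (Subalgebra.smul_mem S (hall i j) _) _
  have hsurj : Surjective φ := by
    rintro ⟨w, hw⟩
    have hxS : w ∈ S := by
      have hx' : w ∈ CliffordAlgebra.evenOdd Q 0 := hw
      clear hw
      induction w, hx' using CliffordAlgebra.even_induction with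
      | algebraMap r => exact Subalgebra.algebraMap_mem S r
      | add x y hx hy ihx ihy => exact Subalgebra.add_mem S ihx ihy
      | ι_mul_ι_mul m₁ m₂ x hx ih => exact Subalgebra.mul_mem S (hvec m₁ m₂) ih
    obtain ⟨y, ⟨z, hz⟩, hy⟩ := hxS
    have h5 : φ z = y := hz
    have h6 : ((φ z : CliffordAlgebra.even Q) : CliffordAlgebra Q) = w := by
      rw [h5]
      exact hy
    exact ⟨z, Subtype.ext h6⟩
  exact ⟨x 1, x 2, c, d, hx0 1, hx0 2, hc0, hd0, ⟨(AlgEquiv.ofBijective φ ⟨hinj, hsurj⟩).symm⟩⟩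

end Pool.Agent.Q4
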