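import Pool.Agent.Q4.StD
import Pool.Agent.QCT.Defs

/-!
# Q4, statements, part E: even Clifford algebras of degenerate forms
-/

set_option autoImplicit false

namespace Pool.Agent.Q4

open Function Pool.Agent.QCT

/-- **RAD** (3 h). Splitting off the radical.
Proof. Let `V = Fin n → K`, `R` the radical (the kernel of the polar form) and `V'` a complement of `R`, of dimension `m` (the dimension of the range of the polar form, a map `V → V*` with kernel `R`); `Q(r) = 0` for
`r ∈ R` since `2 Q(r) = B(r, r) = 0`, and `Q(v + r) = Q(v)`. Identify `V'` with `Fin m → K` by a basis, `Q'` the restriction of `Q`; it is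
nondegenerate (a vector of `V'` orthogonal to `V'` is orthogonal to `V = V' + R`, so lies in `R ∩ V' = 0`). The projection `pr : V → V'`
along `R` and the inclusion `s : V' → V` are isometries (`Q' ∘ pr = Q`, `Q ∘ s = Q'`), `pr ∘ s = 1`. They induce `π : even Q → even Q'` and
`σ : even Q' → even Q` (restrictions of `CliffordAlgebra.map`, which maps the even part to the even part), `π σ = 1`, so `π` is
surjective. Nilpotency: let `J` be the two-sided ideal (or just the subspace `∑ ι(r) C`, `r ∈ R`) of the Clifford algebra `C`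
of `Q`. As `ι(r) ι(v) = -ι(v) ι(r)` for all `v` (`B(r, v) = 0`), `J` is a two-sided ideal, equal to `∑_k ι(r_k) C` for a basis `r_k` of `R`, and a
product of `dim R + 1` elements of `J` is `0` (move the `ι(r_k)` together; one occurs twice and `ι(r_k)² = 0`). For every
`x ∈ C` the difference `x - map s (map pr x)` lies in `J` (true for `x = ι v`, `v = v' + r`, and stable under products and sums). So
the kernel of `π` consists of elements of `J`, and its power of exponent `dim R + 1` vanishes. -/
def St_RAD : Prop :=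
  ∀ (K : Type) [Field K] (n : ℕ) (Q : QuadraticForm K (Fin n → K)), (2 : K) ≠ 0 →
    ∃ (m : ℕ) (Q' : QuadraticForm K (Fin m → K)),
      m = Module.finrank K (LinearMap.range (QuadraticMap.polarBilin Q)) ∧
      (QuadraticMap.polarBilin Q').Nondegenerate ∧
      ∃ π : CliffordAlgebra.even Q →ₐ[K] CliffordAlgebra.even Q', Surjective π ∧
        IsNilpotent (RingHom.ker π)

/-- **RK1** (1 h). Forms in at most one variable: `even Q = K`.
Proof. The even Clifford algebra is generated by products `ι x * ι y`; for `n = 0` there are none but `0`, for `n = 1` they are scalars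
(`x = r v`, `y = s v`, `ι v * ι v = Q(v)`). So `algebraMap K (even Q)` is surjective, and injective because `even Q` is nontrivial. -/
def St_RK1 : Prop :=
  ∀ (K : Type) [Field K] (n : ℕ) (Q : QuadraticForm K (Fin n → K)), n ≤ 1 →
    Nonempty (CliffordAlgebra.even Q ≃ₐ[K] K)

/-- **NCO** (1 h). Composition with a surjection with nilpotent kernel.
Proof. If `π : Λ → Λ'` and `ρ : Λ' → E` are surjective with nilpotent kernels, so is `ρ π`: if `(ker π) ^ r = 0` and `(ker ρ) ^ s = 0` then
`(ker (ρ π)) ^ s ⊆ ker π`, so `(ker (ρ π)) ^ (r s) = 0` (compare `QuatSplit.congr` in `Pool/Agent/QCT/TER.lean`). Third statement: one factor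
with `d = 1` (`TER_quat` there). -/
def St_NCO : Prop :=
  (∀ (K Λ Λ' : Type) [Field K] [Ring Λ] [Ring Λ'] [Algebra K Λ] [Algebra K Λ'] (π : Λ →ₐ[K] Λ'),
    Surjective π → IsNilpotent (RingHom.ker π) → QuatSplit K Λ' → QuatSplit K Λ) ∧
  (∀ (K Λ Λ' : Type) [Field K] [Ring Λ] [Ring Λ'] [Algebra K Λ] [Algebra K Λ'] (π : Λ →ₐ[K] Λ'),
    Surjective π → IsNilpotent (RingHom.ker π) → BiquatSplit K Λ' → BiquatSplit K Λ) ∧
  (∀ (K Λ : Type) [Field K] [Ring Λ] [Algebra K Λ], Nonempty (Λ ≃ₐ[K] K) → QuatSplit K Λ) ∧
  (∀ (K Λ : Type) [Field K] [Ring Λ] [Algebra K Λ] (a b c d : K), a ≠ 0 → b ≠ 0 → c ≠ 0 → d ≠ 0 →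
    Nonempty (Λ ≃ₐ[K] BQ K a b c d) → BiquatSplit K Λ)

end Pool.Agent.Q4
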