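import Pool.Agent.Q4.TOP4
import Pool.Agent.Q4.StE
import Pool.Agent.Q4.GNC4
import Pool.Agent.Q4.GE0
import Pool.Agent.Q4.BCQ
import Pool.Agent.Q4.GEM
import Pool.Agent.Q4.GEN
import Pool.Agent.Q4.ALBE
import Pool.Agent.Q4.QUIN

/-!
# Q4: assembly
-/

set_option autoImplicit false
set_option linter.style.haveILetI false

namespace Pool.Agent.Q4

open Pool.Agent.TQF Pool.Agent.QCB Pool.Agent.QCT Function TensorProduct MvPolynomial
open Pool.Agent.Helper11 Pool.Agent.Helper67.Bass Quaternion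

theorem all_GNC4 : St_GNC4 := thm_GNC4 thm_GE0 thm_BCQ thm_GEM (thm_GEN thm_LocK thm_LocC) thm_ALBE

/-- the rank of a quadratic form -/
noncomputable def qrk {K : Type} [Field K] {n : ℕ} (Q : QuadraticForm K (Fin n → K)) : ℕ :=
  Module.finrank K (LinearMap.range (QuadraticMap.polarBilin Q))

theorem all_QS (hR : St_RAD) (h1 : St_RK1) (hN : St_NCO) {K : Type} [Field K] (h2 : (2 : K) ≠ 0)
    {n : ℕ} (Q : QuadraticForm K (Fin n → K)) (h : qrk Q ≤ 1 ∨ qrk Q = 3) :
    QuatSplit K (CliffordAlgebra.even Q) := by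
  obtain ⟨m, Q', hm, hQ', π, hπ, hn⟩ := hR K n Q h2
  refine hN.1 K _ _ π hπ hn ?_
  rw [qrk, ← hm] at h
  clear hm
  rcases h with h | rfl
  · exact hN.2.2.1 K _ (h1 K m Q' h)
  · exact TER h2 Q' hQ'

theorem all_BS (hR : St_RAD) (hN : St_NCO) {K : Type} [Field K] (h2 : (2 : K) ≠ 0)
    {n : ℕ} (Q : QuadraticForm K (Fin n → K)) (h : qrk Q = 5) :
    BiquatSplit K (CliffordAlgebra.even Q) := by
  obtain ⟨m, Q', hm, hQ', π, hπ, hn⟩ := hR K n Q h2
  refine hN.2.1 K _ _ π hπ hn ?_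
  rw [qrk, ← hm] at h
  clear hm
  subst h
  obtain ⟨a, b, c, d, ha, hb, hc, hd, he⟩ := thm_QUIN K Q' h2 hQ'
  exact hN.2.2.2 K _ a b c d ha hb hc hd he

/-- the theorem -/
theorem ALL4 (hQ4 : St_QORD4) (hR : St_RAD) (hK1 : St_RK1) (hN : St_NCO) {S : Type} [CommRing S]
    [Algebra.FiniteType ℤ S] {n : ℕ} (f : MvPolynomial (Fin n) S) (hf : f.totalDegree ≤ 2)
    (h : ∀ (P : Ideal S) [P.IsPrime], KroneckerLeOne (FractionRing (S ⧸ P)) ∨
      ((2 : S) ∉ P ∧ (∃ (F : Subfield (FractionRing (S ⧸ P))) (t : FractionRing (S ⧸ P)),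
        KroneckerLeOne F ∧ Transcendental F t ∧ IntermediateField.adjoin F {t} = ⊤) ∧
        ((qrk (hform (MvPolynomial.map (toFrac P) f)) ≤ 1 ∨
          qrk (hform (MvPolynomial.map (toFrac P) f)) = 3 ∨
          QuatSplit (FractionRing (S ⧸ P)) (CliffordAlgebra.even
            (hform (MvPolynomial.map (toFrac P) f)))) ∨
        ((∃ p : ℕ, p.Prime ∧ (p : S) ∈ P) ∧
          (qrk (hform (MvPolynomial.map (toFrac P) f)) = 5 ∨
          BiquatSplit (FractionRing (S ⧸ P)) (CliffordAlgebra.even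
            (hform (MvPolynomial.map (toFrac P) f)))))))) :
    AddGroup.FG (G0 (MvPolynomial (Fin n) S ⧸ Ideal.span {f})) := by
  haveI : IsNoetherianRing S := Algebra.FiniteType.isNoetherianRing ℤ S
  refine TOP_ind f ?_
  intro P _
  have hft : @Algebra.FiniteType ℤ (S ⧸ P) _ _ (Ring.toIntAlgebra (S ⧸ P)) := by
    have h : Algebra.FiniteType ℤ (S ⧸ P) :=
      Algebra.FiniteType.of_surjective (Ideal.Quotient.mkₐ ℤ P) Ideal.Quotient.mk_surjective
    have e : (inferInstance : Algebra ℤ (S ⧸ P)) = Ring.toIntAlgebra (S ⧸ P) :=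
      Subsingleton.elim _ _
    rw [← e]
    exact h
  have hdeg : (MvPolynomial.map (Ideal.Quotient.mk P) f).totalDegree ≤ 2 :=
    (TOPV_deg _ f).trans hf
  by_cases hkr : KroneckerLeOne (FractionRing (S ⧸ P))
  · obtain ⟨x, V, i1, i2, hx, hloc, hfg⟩ := @all_Gen (S ⧸ P) (FractionRing (S ⧸ P)) _ _ hft _ _ _
      hkr n _ hdeg
    exact ⟨x, V, i1, i2, hx, hloc, hfg.fg⟩
  · obtain ⟨h2, ⟨F, t, hF, ht, htop⟩, hS⟩ := (h P).resolve_left hkr
    have h2' : (2 : S ⧸ P) ≠ 0 := by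
      intro h0
      apply h2
      rw [← Ideal.Quotient.eq_zero_iff_mem, map_ofNat]
      exact h0
    have h2K : (2 : FractionRing (S ⧸ P)) ≠ 0 := by
      intro h0
      apply h2'
      apply IsFractionRing.injective (S ⧸ P) (FractionRing (S ⧸ P))
      rw [map_ofNat, map_zero]
      exact h0
    have h3 : MvPolynomial.map (algebraMap (S ⧸ P) (FractionRing (S ⧸ P)))
        (MvPolynomial.map (Ideal.Quotient.mk P) f) = MvPolynomial.map (toFrac P) f := by
      rw [MvPolynomial.map_map]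
      rfl
    rcases hS with hS | ⟨⟨p, hp, hpP⟩, hS⟩
    · have hS' : QuatSplit (FractionRing (S ⧸ P)) (CliffordAlgebra.even
          (hform (MvPolynomial.map (algebraMap (S ⧸ P) (FractionRing (S ⧸ P)))
            (MvPolynomial.map (Ideal.Quotient.mk P) f)))) := by
        rw [h3]
        rcases hS with hS | hS | hS
        · exact all_QS hR hK1 hN h2K _ (Or.inl hS)
        · exact all_QS hR hK1 hN h2K _ (Or.inr hS)
        · exact hS
      obtain ⟨x, V, i1, i2, hx, hloc, hfg⟩ := @TOPK thm_LocK thm_LocC all_Gm thm_LamF thm_Lin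
        thm_Kt all_OrdH (S ⧸ P) (FractionRing (S ⧸ P)) _ _ hft _ _ _ h2' F hF t ht htop hkr n _
        hdeg hS'
      exact ⟨x, V, i1, i2, hx, hloc, hfg⟩
    · have hS' : BiquatSplit (FractionRing (S ⧸ P)) (CliffordAlgebra.even
          (hform (MvPolynomial.map (algebraMap (S ⧸ P) (FractionRing (S ⧸ P)))
            (MvPolynomial.map (Ideal.Quotient.mk P) f)))) := by
        rw [h3]
        rcases hS with hS | hS
        · exact all_BS hR hN h2K _ hS
        · exact hS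
      haveI : Fact p.Prime := ⟨hp⟩
      have hpK : ((p : ℕ) : FractionRing (S ⧸ P)) = 0 := by
        have h1 : ((p : ℕ) : S ⧸ P) = 0 := by
          rw [← map_natCast (Ideal.Quotient.mk P), Ideal.Quotient.eq_zero_iff_mem]
          exact hpP
        rw [← map_natCast (algebraMap (S ⧸ P) (FractionRing (S ⧸ P))), h1, map_zero]
      haveI : CharP (FractionRing (S ⧸ P)) p :=
        (CharP.charP_iff_prime_eq_zero hp).2 hpK
      obtain ⟨x, V, i1, i2, hx, hloc, hfg⟩ := @TOP4_K all_GNC4 thm_BCQ hQ4 thm_LocC all_Gm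
        thm_LamF thm_Lin thm_Kt all_OrdH (S ⧸ P) (FractionRing (S ⧸ P)) _ _ hft _ _ _ h2' p _ _ F
        hF t ht htop hkr n _ hdeg hS'
      exact ⟨x, V, i1, i2, hx, hloc, hfg⟩

end Pool.Agent.Q4
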