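import Pool.Agent.Q4.TOP5
import Pool.Agent.Q4.GE0
import Pool.Agent.Q4.BCQ
import Pool.Agent.Q4.GEM
import Pool.Agent.Q4.GEN
import Pool.Agent.Q4.ALBE
import Pool.Agent.Q4.QUIN

/-!
# Q4: assembly of the theorem with centres
-/

set_option autoImplicit false
set_option linter.style.haveILetI false

namespace Pool.Agent.Q4

open Pool.Agent.TQF Pool.Agent.QCB Pool.Agent.QCT Function TensorProduct MvPolynomial
open Pool.Agent.Helper11 Pool.Agent.Helper67.Bass Quaternion

/-- the theorem -/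
theorem ALL5 (hQ4 : St_QORD4) (hR : St_RADM) (hEV : St_EVA) (hCS : St_CS1) (h6 : St_GEX)
    (h7 : St_ORL) {S : Type} [CommRing S] [Algebra.FiniteType ℤ S] {n : ℕ}
    (f : MvPolynomial (Fin n) S) (hf : f.totalDegree ≤ 2)
    (h : ∀ (P : Ideal S) [P.IsPrime], KroneckerLeOne (FractionRing (S ⧸ P)) ∨
      ((2 : S) ∉ P ∧ Ruled (FractionRing (S ⧸ P)) ∧
        ((∃ (r : ℕ) (w : Fin r → FractionRing (S ⧸ P))
            (l : (Fin (n + 1) → FractionRing (S ⧸ P)) →ₗ[FractionRing (S ⧸ P)]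
              (Fin r → FractionRing (S ⧸ P))), Surjective l ∧ (∀ i, w i ≠ 0) ∧
            (∀ v, hform (MvPolynomial.map (toFrac P) f) v = ∑ i, w i * l v i ^ 2) ∧
            (r ≤ 4 ∨ (r ≤ 6 ∧ ∃ p : ℕ, p.Prime ∧ (p : S) ∈ P)) ∧
            (Odd r ∨ RDisc (FractionRing (S ⧸ P)) w)) ∨
          CSplit (FractionRing (S ⧸ P)) (CliffordAlgebra.even
            (hform (MvPolynomial.map (toFrac P) f)))))) :
    AddGroup.FG (G0 (MvPolynomial (Fin n) S ⧸ Ideal.span {f})) := by
  haveI : IsNoetherianRing S := Algebra.FiniteType.isNoetherianRing ℤ S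
  refine TOP_ind f ?_
  intro P _
  have hft : @Algebra.FiniteType ℤ (S ⧸ P) _ _ (Ring.toIntAlgebra (S ⧸ P)) := by
    have h : Algebra.FiniteType ℤ (S ⧸ P) :=
      Algebra.FiniteType.of_surjective (Ideal.Quotient.mkₐ ℤ P) Ideal.Quotient.mk_surjective
    have e : (inferInstance : Algebra ℤ (S ⧸ P)) = Ring.toIntAlgebra (S ⧸ P) :=
      Subsingleton.elim _ _
    rw [← e]
    exact h
  have hdeg : (MvPolynomial.map (Ideal.Quotient.mk P) f).totalDegree ≤ 2 :=
    (TOPV_deg _ f).trans hf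
  by_cases hkr : KroneckerLeOne (FractionRing (S ⧸ P))
  · obtain ⟨x, V, i1, i2, hx, hloc, hfg⟩ := @all_Gen (S ⧸ P) (FractionRing (S ⧸ P)) _ _ hft _ _ _
      hkr n _ hdeg
    exact ⟨x, V, i1, i2, hx, hloc, hfg.fg⟩
  · obtain ⟨h2, hRK, hS⟩ := (h P).resolve_left hkr
    have h2' : (2 : S ⧸ P) ≠ 0 := by
      intro h0
      apply h2
      rw [← Ideal.Quotient.eq_zero_iff_mem, map_ofNat]
      exact h0
    have h2K : (2 : FractionRing (S ⧸ P)) ≠ 0 := by
      intro h0
      apply h2'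
      apply IsFractionRing.injective (S ⧸ P) (FractionRing (S ⧸ P))
      rw [map_ofNat, map_zero]
      exact h0
    have h3 : MvPolynomial.map (algebraMap (S ⧸ P) (FractionRing (S ⧸ P)))
        (MvPolynomial.map (Ideal.Quotient.mk P) f) = MvPolynomial.map (toFrac P) f := by
      rw [MvPolynomial.map_map]
      rfl
    have hpK : ∀ p : ℕ, (p : S) ∈ P → ((p : ℕ) : FractionRing (S ⧸ P)) = 0 := by
      intro p hpP
      have h1 : ((p : ℕ) : S ⧸ P) = 0 := by
        rw [← map_natCast (Ideal.Quotient.mk P), Ideal.Quotient.eq_zero_iff_mem]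
        exact hpP
      rw [← map_natCast (algebraMap (S ⧸ P) (FractionRing (S ⧸ P))), h1, map_zero]
    have hS' : CSplit (FractionRing (S ⧸ P)) (CliffordAlgebra.even
        (hform (MvPolynomial.map (algebraMap (S ⧸ P) (FractionRing (S ⧸ P)))
          (MvPolynomial.map (Ideal.Quotient.mk P) f)))) := by
      rw [h3]
      rcases hS with ⟨r, w, l, hl, hw, hQ, hr, hd⟩ | hS
      · obtain ⟨π, hπ, hn⟩ := hR _ _ r (hform (MvPolynomial.map (toFrac P) f))
          (QuadraticMap.weightedSumSquares (FractionRing (S ⧸ P)) w) l hl (by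
            intro v
            rw [hQ, QuadraticMap.weightedSumSquares_apply]
            exact Finset.sum_congr rfl fun i _ => by rw [smul_eq_mul, sq])
        refine hCS.2.2.1 _ _ _ π hπ hn (hEV _ r w h2K hRK hw ?_ hd)
        rcases hr with hr | ⟨hr, p, hp, hpP⟩
        · exact Or.inl hr
        · exact Or.inr ⟨hr, p, hp, hpK p hpP⟩
      · exact hS
    obtain ⟨x, V, i1, i2, hx, hloc, hfg⟩ := @TOP5_gen thm_GE0 thm_BCQ thm_GEM
      (thm_GEN thm_LocK thm_LocC) thm_ALBE h6 h7 hQ4 thm_LocC thm_Kt all_OrdH all_Gm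
      thm_LamF thm_Lin (S ⧸ P) (FractionRing (S ⧸ P)) _ _ hft _ _ _ h2' hRK hkr n _ hdeg hS'
    exact ⟨x, V, i1, i2, hx, hloc, hfg⟩

end Pool.Agent.Q4
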