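import Pool.Agent.Q4.StF

/-!
# Q4, statements, part H: hyperbolic planes
-/

set_option autoImplicit false

namespace Pool.Agent.Q4

open Function

/-- the hyperbolic plane `(x, y) ↦ x y` -/
def hyp (K : Type) [Field K] : QuadraticForm K (K × K) :=
  QuadraticMap.linMulLin (LinearMap.fst K K K) (LinearMap.snd K K K)

/-- **RADG** (1 h; this is `St_RADM` for arbitrary modules). See `St_RADM`, `St_RAD` and `Pool/Agent/Q4/RADM.lean`, `RAD.lean`. `V` is finite dimensional
(for the nilpotency). -/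
def St_RADG : Prop :=
  ∀ (K : Type) [Field K] (V V' : Type) [AddCommGroup V] [Module K V] [FiniteDimensional K V]
    [AddCommGroup V'] [Module K V'] (Q : QuadraticForm K V) (Q' : QuadraticForm K V')
    (φ : V →ₗ[K] V'), Surjective φ → (∀ v, Q v = Q' (φ v)) →
    ∃ π : CliffordAlgebra.even Q →ₐ[K] CliffordAlgebra.even Q', Surjective π ∧
      IsNilpotent (RingHom.ker π)

/-- **HYP** (3 h). Splitting off a hyperbolic plane.
Proof. Let `C = CliffordAlgebra Q₀`, `C₀ = even Q₀`, `g = ι v₀`, `g² = u = Q₀ v₀`, `g⁻¹ = u⁻¹ g`, and `Q = hyp.prod Q₀` on `(K × K) × V`. For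
`m = ((x, y), v)` let `W(m) = !![ι v, x; y, -ι v] ∈ M_2(C)`: `W(m)² = x y + Q₀ v = Q(m)`, so `W` extends to an algebra homomorphism
`C(Q) → M_2(C)` (`CliffordAlgebra.lift`). On products of two vectors,
`W(m) W(m') = !![ι v ι v' + x y', x' ι v - x ι v'; y ι v' - y' ι v, y x' + ι v ι v']`, the diagonal entries are even and the others odd;
conjugation with `diag(1, g)`, `(A, B; C, D) ↦ (A, B g⁻¹; g C, g D g⁻¹)`, gives a homomorphism `β : even Q → M_2(C₀)`
(`CliffordAlgebra.even.lift`, or restrict and use that all entries are even). Let `e = ι ((1,0),0)`, `f = ι ((0,1),0)`,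
`G = ι (0, v₀)` in `C(Q)`: `e² = f² = 0`, `e f + f e = 1`, `e`, `f` anticommute with all `ι (0, v)`. Surjective: `β(e f) = E_11`,
`β(f e) = E_22`, `β(e G) = -E_12`, `β(f G) = u E_21`, `β(ι(0,v) ι(0,v')) E_11 = ι v ι v' E_11`. Injective: the elements
`E_11 = e f`, `E_22 = f e`, `E_12 = -e G`, `E_21 = u⁻¹ f G` of `R = even Q` are `2 × 2` matrix units (check the products), and they
commute appropriately with `j(c)`, `c ∈ C₀` (`j : C₀ → R` induced by `v ↦ (0, v)`), so every `z ∈ R` is
`∑ E_ia (E_1a... )`: `z = ∑_{a,b} E_{a1} z_{ab} E_{1b}` with `z_{ab} = E_{1a} z E_{b1} ∈ E_11 R E_11`. Finally `E_11 R E_11 = j(C₀) E_11`: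
`R` is spanned by the products `e^a f^b j'(c)` with `c ∈ C` homogeneous of parity `a + b` (`j' : C → C(Q)`), and
`E_11 e f j(c) E_11 = j(c) E_11`, `E_11 e j'(c) E_11 = 0` etc. As `β(j(c) E_11) = c E_11`, `β` is injective on `E_11 R E_11` and so on `R`. -/
def St_HYP : Prop :=
  ∀ (K : Type) [Field K] (V : Type) [AddCommGroup V] [Module K V] (Q₀ : QuadraticForm K V)
    (v₀ : V), (2 : K) ≠ 0 → Q₀ v₀ ≠ 0 → Nonempty
      (CliffordAlgebra.even ((hyp K).prod Q₀) ≃ₐ[K] Matrix (Fin 2) (Fin 2)
        (CliffordAlgebra.even Q₀))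

/-- **HYP0** (1 h). The hyperbolic plane: with `e`, `f` as above `even = K e f ⊕ K f e`, two orthogonal idempotents with sum `1`; both are
nonzero (`W(e) W(f) = E_11`, `W(f) W(e) = E_22` in `M_2(K)`, `W` as in `St_HYP` with `V = 0`). -/
def St_HYP0 : Prop :=
  ∀ (K : Type) [Field K], Nonempty (CliffordAlgebra.even (hyp K) ≃ₐ[K] K × K)

/-- **CM2** (1.5 h). Proof. If `π : Λ → ∏ M_{d i}(E i)` is surjective with nilpotent kernel `J` then so is
`M_2(Λ) → M_2(∏ M_{d i}(E i)) ≅ ∏ M_{2 d i}(E i)` (kernel: matrices with entries in `J`, whose `n`-th power has entries in `J ^ n`; reindexing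
of matrices of matrices: `Matrix.compAlgEquiv` or similar, `finProdFinEquiv`). -/
def St_CM2 : Prop :=
  ∀ (K Λ : Type) [Field K] [Ring Λ] [Algebra K Λ], CSplit K Λ →
    CSplit K (Matrix (Fin 2) (Fin 2) Λ)

/-- `Q` is an orthogonal sum of hyperbolic planes, a form `∑ w_i x_i²`, `w_i ≠ 0`, in at most four variables (at most six if `K` has
positive characteristic), and a zero form; the number of variables of the second form is odd or its discriminant field is ruled. -/
def SmallAnis (K : Type) [Field K] {V : Type} [AddCommGroup V] [Module K V]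
    (Q : QuadraticForm K V) : Prop :=
  ∃ (s r : ℕ) (w : Fin r → K) (l : V →ₗ[K] (Fin s → K) × (Fin s → K) × (Fin r → K)),
    Surjective l ∧ (∀ i, w i ≠ 0) ∧
    (∀ v, Q v = ∑ j, (l v).1 j * (l v).2.1 j + ∑ i, w i * (l v).2.2 i ^ 2) ∧
    (r ≤ 4 ∨ (r ≤ 6 ∧ ∃ p : ℕ, p.Prime ∧ (p : K) = 0)) ∧ (Odd r ∨ RDisc K w)

/-- **EVB** (2 h), with the hypotheses `St_RADG`, `St_HYP`, `St_HYP0`, `St_CM2`, `St_EVA`, `St_CS1`.
Proof. Induction on `s` for all `V`, `Q`, `l`. `s = 0`: `St_RADG` for `V → (Fin r → K)` (the last component) and `St_EVA`, `St_CS1` third part.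
`s + 1`: let `V₁ = (Fin s → K) × (Fin s → K) × (Fin r → K)` with `Q₁ = ∑ x_j y_j + ∑ w_i z_i²` (write it as a sum of
`QuadraticMap.linMulLin`, or as `∑` of products of coordinate functions as in `hform`). The map `V → (K × K) × V₁` which separates the
coordinates with index `0` is surjective and `Q` is the pull back of `(hyp K).prod Q₁`; `St_RADG`, `St_CS1` third part. If `s = 0` and
`r = 0` then `V₁ = 0`: `St_RADG` for `(K × K) × V₁ → K × K` and `St_HYP0`, `St_CS1` second part (`Fac K K` because `K` is ruled).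
Otherwise `Q₁` has a nonzero value (a basis vector `z_i`, or `x_j = y_j = 1`), and `St_HYP`, `St_CM2` and the induction hypothesis for
`V₁`, `Q₁` and the identity finish the proof (`CSplit` is invariant under isomorphisms by `St_CS1` third part). -/
def St_EVB : Prop :=
  ∀ (K : Type) [Field K] (V : Type) [AddCommGroup V] [Module K V] [FiniteDimensional K V]
    (Q : QuadraticForm K V), (2 : K) ≠ 0 → Ruled K → SmallAnis K Q →
    CSplit K (CliffordAlgebra.even Q)

end Pool.Agent.Q4
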