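import Pool.Agent.Q4.All5
import Pool.Agent.Q4.StH

/-!
# Q4: final form of the theorem
-/

set_option autoImplicit false

namespace Pool.Agent.Q4

open Pool.Agent.TQF Pool.Agent.QCB Pool.Agent.QCT Function MvPolynomial
open Pool.Agent.Helper11 Pool.Agent.Helper67.Bass Quaternion

theorem ALL6 (hQ4 : St_QORD4) (hR : St_RADM) (hEV : St_EVA) (hCS : St_CS1) (h6 : St_GEX)
    (h7 : St_ORL) (hB : St_EVB) {S : Type} [CommRing S] [Algebra.FiniteType ℤ S] {n : ℕ}
    (f : MvPolynomial (Fin n) S) (hf : f.totalDegree ≤ 2)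
    (h : ∀ (P : Ideal S) [P.IsPrime], KroneckerLeOne (FractionRing (S ⧸ P)) ∨
      (Ruled (FractionRing (S ⧸ P)) ∧ (2 : FractionRing (S ⧸ P)) ≠ 0 ∧
        (SmallAnis (FractionRing (S ⧸ P)) (hform (MvPolynomial.map (toFrac P) f)) ∨
          CSplit (FractionRing (S ⧸ P)) (CliffordAlgebra.even
            (hform (MvPolynomial.map (toFrac P) f)))))) :
    AddGroup.FG (G0 (MvPolynomial (Fin n) S ⧸ Ideal.span {f})) := by
  refine ALL5 hQ4 hR hEV hCS h6 h7 f hf ?_
  intro P _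
  rcases h P with h | ⟨h1, h2, h3⟩
  · exact Or.inl h
  · refine Or.inr ⟨?_, h1, Or.inr ?_⟩
    · intro h4
      apply h2
      have h5 : (2 : FractionRing (S ⧸ P)) =
          algebraMap (S ⧸ P) (FractionRing (S ⧸ P)) (Ideal.Quotient.mk P 2) := by
        rw [map_ofNat, map_ofNat]
      rw [h5, Ideal.Quotient.eq_zero_iff_mem.2 h4, map_zero]
    · rcases h3 with h3 | h3
      · exact hB _ _ _ h2 h1 h3
      · exact h3

end Pool.Agent.Q4
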