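import Pool.Agent.TQF.Final2
import Pool.Agent.TQF.TLoc
import Pool.Agent.BassH.Closed

/-!
# Q4, module CONE: the hypersurface `∑ x_l g_l = 0`
-/

set_option autoImplicit false
set_option linter.style.haveILetI false

namespace Pool.Agent.Q4

open Function MvPolynomial Pool.Agent.Helper11 Pool.Agent.Helper67.Bass Pool.Agent.TQF
open BassH (FG0)

theorem CONE_bigF {R : Type} [CommRing R] {r : ℕ} (g : Fin r → R) :
    bigF g = ∑ l, C (g l) * (X l : MvPolynomial (Fin r) R) := by
  unfold bigF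
  exact Finset.sum_congr rfl fun l _ => mul_comm _ _

theorem CONE_b {R T : Type} [CommRing R] [CommRing T] {r : ℕ} (g : Fin (r + 1) → R)
    (μ : MvPolynomial (Fin (r + 1)) R →+* T) (h : μ (X 0) = 0) :
    (eval₂Hom (μ.comp C) (fun l => μ (X l.succ)) : MvPolynomial (Fin r) R →+* T)
      (bigF (Fin.tail g)) = μ (bigF g) := by
  rw [CONE_bigF, CONE_bigF, map_sum, map_sum, Fin.sum_univ_succ, map_mul, h, mul_zero, zero_add]
  refine Finset.sum_congr rfl fun l _ => ?_
  rw [map_mul, map_mul, eval₂Hom_C, eval₂Hom_X']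
  rfl

theorem CONE_lift {A T : Type} [CommRing A] [CommRing T] (φ : A →+* T) (x : A) (h : φ x = 0) :
    ∃ ψ : (A ⧸ Ideal.span {x}) →+* T, ∀ a, ψ (Ideal.Quotient.mk _ a) = φ a :=
  ⟨Ideal.Quotient.lift _ φ (fun y hy => by
    obtain ⟨z, rfl⟩ := Ideal.mem_span_singleton'.1 hy
    rw [map_mul, h, mul_zero]), fun _ => rfl⟩

theorem CONE_quot' {R T : Type} [CommRing R] [CommRing T] {r : ℕ} (g : Fin (r + 1) → R)
    (μ : MvPolynomial (Fin (r + 1)) R →+* T) (hμ : Surjective μ) (hμX : μ (X 0) = 0)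
    (hμF : μ (bigF g) = 0)
    (hk : ∀ (U : Type) [CommRing U] (φ : MvPolynomial (Fin (r + 1)) R →+* U), φ (X 0) = 0 →
      φ (bigF g) = 0 → ∃ ψ : T →+* U, ∀ x, ψ (μ x) = φ x) :
    Nonempty ((MvPolynomial (Fin r) R ⧸ Ideal.span {bigF (Fin.tail g)}) ≃+* T) := by
  obtain ⟨b, hb⟩ := CONE_lift _ _ ((CONE_b g μ hμX).trans hμF)
  -- from the larger ring
  let a0 : MvPolynomial (Fin (r + 1)) R →+* (MvPolynomial (Fin r) R ⧸
      Ideal.span {bigF (Fin.tail g)}) :=
    eval₂Hom ((Ideal.Quotient.mk _).comp C)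
      (Fin.cons 0 (fun l => Ideal.Quotient.mk _ (X l)))
  have ha0C : ∀ a, a0 (C a) = Ideal.Quotient.mk _ (C a) := fun a => eval₂Hom_C _ _ _
  have ha00 : a0 (X 0) = 0 := (eval₂Hom_X' _ _ _).trans rfl
  have ha0X : ∀ l : Fin r, a0 (X l.succ) = Ideal.Quotient.mk _ (X l) := fun l =>
    (eval₂Hom_X' _ _ _).trans rfl
  have ha0 : a0 (bigF g) = 0 := by
    have h1 : a0 (bigF g) = Ideal.Quotient.mk _ (bigF (Fin.tail g)) := by
      rw [← CONE_b g a0 ha00]
      have h2 : (eval₂Hom (a0.comp C) (fun l => a0 (X l.succ)) : MvPolynomial (Fin r) R →+* _) =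
          Ideal.Quotient.mk _ := by
        refine MvPolynomial.ringHom_ext (fun x => ?_) (fun l => ?_)
        · rw [eval₂Hom_C]
          exact ha0C x
        · rw [eval₂Hom_X']
          exact ha0X l
      rw [h2]
    rw [h1]
    exact Ideal.Quotient.eq_zero_iff_mem.2 (Ideal.mem_span_singleton_self _)
  obtain ⟨a, ha⟩ := hk _ a0 ha00 ha0
  refine ⟨RingEquiv.ofRingHom b a ?_ ?_⟩
  · have h1 : (b.comp a).comp μ = μ := by
      refine MvPolynomial.ringHom_ext (fun x => ?_) (fun l => ?_)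
      · show b (a (μ (C x))) = μ (C x)
        rw [ha, ha0C, hb, eval₂Hom_C]
        rfl
      · show b (a (μ (X l))) = μ (X l)
        rw [ha]
        refine Fin.cases ?_ (fun l => ?_) l
        · rw [ha00, hμX, map_zero]
        · rw [ha0X, hb, eval₂Hom_X']
    refine RingHom.ext fun z => ?_
    obtain ⟨x, rfl⟩ := hμ z
    exact DFunLike.congr_fun h1 x
  · refine Ideal.Quotient.ringHom_ext
      (MvPolynomial.ringHom_ext (fun x => ?_) (fun l => ?_))
    · show a (b (Ideal.Quotient.mk _ (C x))) = Ideal.Quotient.mk _ (C x)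
      rw [hb, eval₂Hom_C]
      show a (μ (C x)) = _
      rw [ha, ha0C]
    · show a (b (Ideal.Quotient.mk _ (X l))) = Ideal.Quotient.mk _ (X l)
      rw [hb, eval₂Hom_X', ha, ha0X]

theorem CONE_quot {R : Type} [CommRing R] {r : ℕ} (g : Fin (r + 1) → R) :
    Nonempty ((MvPolynomial (Fin r) R ⧸ Ideal.span {bigF (Fin.tail g)}) ≃+*
      ((MvPolynomial (Fin (r + 1)) R ⧸ Ideal.span {bigF g}) ⧸
        Ideal.span {Ideal.Quotient.mk (Ideal.span {bigF g}) (X 0)})) := by
  refine CONE_quot' (T := (MvPolynomial (Fin (r + 1)) R ⧸ Ideal.span {bigF g}) ⧸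
    Ideal.span {Ideal.Quotient.mk (Ideal.span {bigF g}) (X 0)}) g
    (RingHom.comp (Ideal.Quotient.mk _) (Ideal.Quotient.mk _)) ?_ ?_ ?_ ?_
  · exact Ideal.Quotient.mk_surjective.comp Ideal.Quotient.mk_surjective
  · exact Ideal.Quotient.eq_zero_iff_mem.2 (Ideal.mem_span_singleton_self _)
  · show Ideal.Quotient.mk _ (Ideal.Quotient.mk _ (bigF g)) = 0
    rw [Ideal.Quotient.eq_zero_iff_mem.2 (Ideal.mem_span_singleton_self (bigF g))]
    exact map_zero _
  · intro U _ φ h0 hF
    obtain ⟨a1, ha1⟩ := CONE_lift φ (bigF g) hF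
    obtain ⟨a, ha'⟩ := CONE_lift a1 (Ideal.Quotient.mk (Ideal.span {bigF g}) (X 0)) (by
      rw [ha1]; exact h0)
    exact ⟨a, fun x => (ha' _).trans (ha1 _)⟩

theorem CONE_loc {R : Type} [CommRing R] {r : ℕ} (g : Fin (r + 1) → R) :
    ∃ _ : Algebra (MvPolynomial (Fin (r + 1)) R ⧸ Ideal.span {bigF g})
      (Localization.Away (X () : MvPolynomial Unit
        (MvPolynomial (Fin r) R ⧸ Ideal.span {C (g 0) + bigF (Fin.tail g)}))),
      IsLocalization.Away (Ideal.Quotient.mk (Ideal.span {bigF g}) (X 0))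
        (Localization.Away (X () : MvPolynomial Unit
        (MvPolynomial (Fin r) R ⧸ Ideal.span {C (g 0) + bigF (Fin.tail g)}))) := by
  set I : Ideal (MvPolynomial (Fin (r + 1)) R) := Ideal.span {bigF g} with hI
  set I' : Ideal (MvPolynomial (Fin r) R) := Ideal.span {C (g 0) + bigF (Fin.tail g)} with hI'
  set D := MvPolynomial (Fin r) R ⧸ I' with hD
  set H := MvPolynomial (Fin (r + 1)) R ⧸ I with hH
  let E := MvPolynomial Unit D
  let T0 : E := X ()
  let L := Localization.Away T0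
  let ν : MvPolynomial (Fin r) R →+* L :=
    ((algebraMap E L).comp C).comp (Ideal.Quotient.mk I')
  let T : L := algebraMap E L T0
  have hT : IsUnit T := IsLocalization.Away.algebraMap_isUnit T0
  have hν : ν (C (g 0) + bigF (Fin.tail g)) = 0 := by
    show algebraMap E L (C (Ideal.Quotient.mk I' _)) = 0
    rw [Ideal.Quotient.eq_zero_iff_mem.2 (Ideal.mem_span_singleton_self _), map_zero, map_zero]
  -- the map from the cone
  let φ0 : MvPolynomial (Fin (r + 1)) R →+* L :=
    eval₂Hom (ν.comp C) (Fin.cons T (fun l => ν (X l) * T))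
  have hφC : ∀ a, φ0 (C a) = ν (C a) := fun a => eval₂Hom_C _ _ _
  have hφ0 : φ0 (X 0) = T := (eval₂Hom_X' _ _ _).trans rfl
  have hφX : ∀ l : Fin r, φ0 (X l.succ) = ν (X l) * T := fun l => (eval₂Hom_X' _ _ _).trans rfl
  have hφF : φ0 (bigF g) = 0 := by
    have h1 : φ0 (bigF g) = ν (C (g 0) + bigF (Fin.tail g)) * T := by
      rw [CONE_bigF, CONE_bigF, map_sum, Fin.sum_univ_succ, map_add, map_sum, add_mul,
        Finset.sum_mul, map_mul, hφC, hφ0]
      congr 1
      refine Finset.sum_congr rfl fun l _ => ?_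
      rw [map_mul, map_mul, hφC, hφX, mul_assoc]
      rfl
    rw [h1, hν, zero_mul]
  let φ : H →+* L := Ideal.Quotient.lift I φ0 (fun x hx => by
      rw [hI, Ideal.mem_span_singleton'] at hx
      obtain ⟨y, rfl⟩ := hx
      rw [map_mul, hφF, mul_zero])
  have hφ : ∀ x, φ (Ideal.Quotient.mk I x) = φ0 x := fun x => rfl
  -- the map back
  let x0 : H := Ideal.Quotient.mk I (X 0)
  let L' := Localization.Away x0
  let u : L' := algebraMap H L' x0
  have hu : IsUnit u := IsLocalization.Away.algebraMap_isUnit x0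
  obtain ⟨v, huv⟩ := hu.exists_right_inv
  let κ : MvPolynomial (Fin (r + 1)) R →+* L' := (algebraMap H L').comp (Ideal.Quotient.mk I)
  have hκF : κ (bigF g) = 0 := by
    show algebraMap H L' (Ideal.Quotient.mk I _) = 0
    rw [Ideal.Quotient.eq_zero_iff_mem.2 (Ideal.mem_span_singleton_self _), map_zero]
  have hκ0 : κ (X 0) = u := rfl
  let ψ0 : MvPolynomial (Fin r) R →+* L' := eval₂Hom (κ.comp C) (fun l => κ (X l.succ) * v)
  have hψC : ∀ a, ψ0 (C a) = κ (C a) := fun a => eval₂Hom_C _ _ _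
  have hψX : ∀ l, ψ0 (X l) = κ (X l.succ) * v := fun l => eval₂Hom_X' _ _ _
  have hψF : ψ0 (C (g 0) + bigF (Fin.tail g)) = 0 := by
    have h1 : ψ0 (C (g 0) + bigF (Fin.tail g)) = κ (bigF g) * v := by
      rw [CONE_bigF, CONE_bigF, map_sum, Fin.sum_univ_succ, map_add, map_sum, add_mul,
        Finset.sum_mul, map_mul, hψC, hκ0, mul_assoc, huv, mul_one]
      congr 1
      refine Finset.sum_congr rfl fun l _ => ?_
      rw [map_mul, map_mul, hψC, hψX, mul_assoc]
      rfl
    rw [h1, hκF, zero_mul]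
  let ψ1 : D →+* L' := Ideal.Quotient.lift I' ψ0 (fun x hx => by
      rw [hI', Ideal.mem_span_singleton'] at hx
      obtain ⟨y, rfl⟩ := hx
      rw [map_mul, hψF, mul_zero])
  let ψ2 : E →+* L' := eval₂Hom ψ1 (fun _ => u)
  have hψ2T : ψ2 T0 = u := eval₂Hom_X' _ _ _
  have hψ2C : ∀ a, ψ2 (C a) = ψ1 a := fun a => eval₂Hom_C _ _ _
  have hψu : IsUnit (ψ2 T0) := by rw [hψ2T]; exact hu
  let ψ : L →+* L' := IsLocalization.Away.lift (S := L) T0 hψu
  have hψ : ∀ e, ψ (algebraMap E L e) = ψ2 e := fun e =>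
    IsLocalization.Away.lift_eq (S := L) T0 hψu e
  have hψν : ∀ x, ψ (ν x) = ψ0 x := by
    intro x
    show ψ (algebraMap E L (C (Ideal.Quotient.mk I' x))) = ψ0 x
    rw [hψ, hψ2C]
    rfl
  have hψT : ψ T = u := by
    show ψ (algebraMap E L T0) = u
    rw [hψ, hψ2T]
  have hcomp : ψ.comp φ = algebraMap H L' := by
    refine Ideal.Quotient.ringHom_ext (MvPolynomial.ringHom_ext (fun x => ?_) (fun l => ?_))
    · show ψ (φ0 (C x)) = κ (C x)
      rw [hφC, hψν, hψC]
    · show ψ (φ0 (X l)) = κ (X l)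
      refine Fin.cases ?_ (fun l => ?_) l
      · rw [hφ0, hψT]
        rfl
      · rw [hφX, map_mul, hψν, hψT, hψX, mul_assoc, mul_comm v u, huv, mul_one]
  letI alg : Algebra H L := φ.toAlgebra
  refine ⟨alg, TLoc_isLoc x0 ?_ ?_ ?_⟩
  · show IsUnit (φ0 (X 0))
    rw [hφ0]
    exact hT
  · -- every element times a power of `T` is in the image
    have hx0 : algebraMap H L x0 = T := hφ0
    have add : ∀ z w : L, (∃ (k : ℕ) (h : H), algebraMap H L x0 ^ k * z = algebraMap H L h) →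
        (∃ (k : ℕ) (h : H), algebraMap H L x0 ^ k * w = algebraMap H L h) →
        ∃ (k : ℕ) (h : H), algebraMap H L x0 ^ k * (z + w) = algebraMap H L h := by
      rintro z w ⟨k, h, hk⟩ ⟨k', h', hk'⟩
      refine ⟨k + k', x0 ^ k' * h + x0 ^ k * h', ?_⟩
      rw [map_add, map_mul, map_mul, map_pow, map_pow, ← hk, ← hk']
      ring
    have mul : ∀ z w : L, (∃ (k : ℕ) (h : H), algebraMap H L x0 ^ k * z = algebraMap H L h) →
        (∃ (k : ℕ) (h : H), algebraMap H L x0 ^ k * w = algebraMap H L h) →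
        ∃ (k : ℕ) (h : H), algebraMap H L x0 ^ k * (z * w) = algebraMap H L h := by
      rintro z w ⟨k, h, hk⟩ ⟨k', h', hk'⟩
      refine ⟨k + k', h * h', ?_⟩
      rw [map_mul, ← hk, ← hk']
      ring
    have base : ∀ d : MvPolynomial (Fin r) R, ∃ (k : ℕ) (h : H),
        algebraMap H L x0 ^ k * ν d = algebraMap H L h := by
      intro d
      induction d using MvPolynomial.induction_on with
      | C a =>
        refine ⟨0, Ideal.Quotient.mk I (C a), ?_⟩
        rw [pow_zero, one_mul]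
        exact (hφC a).symm
      | add p q hp hq => rw [map_add]; exact add _ _ hp hq
      | mul_X p i hp =>
        rw [map_mul]
        refine mul _ _ hp ⟨1, Ideal.Quotient.mk I (X i.succ), ?_⟩
        rw [hx0, pow_one, mul_comm]
        exact (hφX i).symm
    have baseE : ∀ e : E, ∃ (k : ℕ) (h : H),
        algebraMap H L x0 ^ k * algebraMap E L e = algebraMap H L h := by
      intro e
      induction e using MvPolynomial.induction_on with
      | C a =>
        obtain ⟨d, rfl⟩ := Ideal.Quotient.mk_surjective a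
        exact base d
      | add p q hp hq => rw [map_add]; exact add _ _ hp hq
      | mul_X p i hp =>
        rw [map_mul]
        refine mul _ _ hp ⟨0, x0, ?_⟩
        rw [pow_zero, one_mul, hx0]
    intro z
    obtain ⟨n, e, hn⟩ := IsLocalization.Away.surj T0 z
    obtain ⟨k, h, hk⟩ := baseE e
    refine ⟨n + k, h, ?_⟩
    rw [← hk, ← hn, hx0]
    ring
  · intro h hh
    have h1 : algebraMap H L' h = 0 := by
      rw [← hcomp]
      show ψ (φ h) = 0
      have h2 : φ h = 0 := hh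
      rw [h2, map_zero]
    rw [IsLocalization.map_eq_zero_iff (Submonoid.powers x0) L'] at h1
    obtain ⟨⟨_, k, rfl⟩, hk⟩ := h1
    exact ⟨k, hk⟩

theorem CONE_step {R : Type} [CommRing R] [IsNoetherianRing R] {r : ℕ} (g : Fin (r + 1) → R)
    (h0 : FG0 (MvPolynomial (Fin r) R ⧸ Ideal.span {C (g 0) + bigF (Fin.tail g)}))
    (h1 : FG0 (MvPolynomial (Fin r) R ⧸ Ideal.span {bigF (Fin.tail g)})) :
    FG0 (MvPolynomial (Fin (r + 1)) R ⧸ Ideal.span {bigF g}) := by
  obtain ⟨e⟩ := CONE_quot g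
  obtain ⟨alg, hl⟩ := CONE_loc g
  refine BassH.closed_of_away _ (Localization.Away (X () : MvPolynomial Unit
        (MvPolynomial (Fin r) R ⧸ Ideal.span {C (g 0) + bigF (Fin.tail g)})))
        (Ideal.Quotient.mk (Ideal.span {bigF g}) (X 0)) (BassH.closed_equiv _ _ e h1) ?_
  exact BassH.closed_away (MvPolynomial Unit
        (MvPolynomial (Fin r) R ⧸ Ideal.span {C (g 0) + bigF (Fin.tail g)})) _ (X ())
        (BassH.closed_mv _ Unit h0)

end Pool.Agent.Q4
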