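import Pool.Agent.Q4.All6
import Pool.Agent.Q4.CONE

/-!
# Q4: linear systems of quadrics
-/

set_option autoImplicit false
set_option linter.style.haveILetI false

namespace Pool.Agent.Q4

open Pool.Agent.TQF Pool.Agent.QCB Pool.Agent.QCT Function MvPolynomial
open Pool.Agent.Helper11 Pool.Agent.Helper67.Bass Quaternion
open BassH (FG0)

/-- The condition on a field `K` and a polynomial `q` of degree at most two. -/
def GoodQ (K : Type) [Field K] {n : ℕ} (q : MvPolynomial (Fin n) K) : Prop :=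
  KroneckerLeOne K ∨ (Ruled K ∧ (2 : K) ≠ 0 ∧
    (SmallAnis K (hform q) ∨ CSplit K (CliffordAlgebra.even (hform q))))

theorem SmallAnis_zero (K : Type) [Field K] (n : ℕ) (h : Ruled K) :
    SmallAnis K (hform (0 : MvPolynomial (Fin n) K)) := by
  refine ⟨0, 0, Fin.elim0, 0, fun y => ⟨0, Subsingleton.elim _ _⟩, fun i => i.elim0, ?_,
    Or.inl (by omega), Or.inr ⟨K, inferInstance, inferInstance, 1, ?_, ?_, h⟩⟩
  · intro v
    rw [Finset.univ_eq_empty, Finset.sum_empty, Finset.sum_empty, add_zero]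
    unfold hform
    rw [sum_apply]
    refine Finset.sum_eq_zero fun i _ => ?_
    rw [sum_apply]
    refine Finset.sum_eq_zero fun j _ => ?_
    split_ifs
    · rw [coeff_zero, zero_smul]
      rfl
    · rfl
  · simp
  · exact eq_top_iff.2 fun x _ => IntermediateField.algebraMap_mem _ x

theorem ALL7_mv {S : Type} [CommRing S] [Algebra.FiniteType ℤ S] (r : ℕ) :
    @Algebra.FiniteType ℤ (MvPolynomial (Fin r) S) _ _ (Ring.toIntAlgebra _) := by
  have h0 : Algebra.FiniteType ℤ (MvPolynomial (Fin r) S) :=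
    Algebra.FiniteType.trans (S := S) (inferInstance : Algebra.FiniteType ℤ S)
      (inferInstance : Algebra.FiniteType S (MvPolynomial (Fin r) S))
  have key : ∀ (i j : Algebra ℤ (MvPolynomial (Fin r) S)),
      @Algebra.FiniteType ℤ (MvPolynomial (Fin r) S) _ _ i →
      @Algebra.FiniteType ℤ (MvPolynomial (Fin r) S) _ _ j := by
    intro i j h
    have e : i = j := Subsingleton.elim _ _
    rw [← e]
    exact h
  exact key _ _ h0

theorem ALL7_comm {S : Type} [CommRing S] {r n : ℕ} (p : MvPolynomial (Fin n) S) :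
    commAlgEquiv S (Fin n) (Fin r) (MvPolynomial.map C p) = C p := by
  induction p using MvPolynomial.induction_on with
  | C a => rw [map_C, commAlgEquiv_C, map_C]
  | add p q hp hq => rw [map_add, map_add, hp, hq, C_add]
  | mul_X p i hp => rw [map_mul, map_mul, hp, map_X, commAlgEquiv_X, C_mul]

/-- points with residue field `K` -/
def Pt {S K : Type} [CommRing S] [Field K] {r : ℕ} (φ : S →+* K) (x : Fin r → K) : Prop :=
  (∃ l, x l = 1) ∧ ∀ z : K, ∃ a b : MvPolynomial (Fin r) S, eval₂ φ x b ≠ 0 ∧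
    z * eval₂ φ x b = eval₂ φ x a

theorem Pt.cons {S K : Type} [CommRing S] [Field K] {r : ℕ} {φ : S →+* K} {x : Fin r → K}
    (h : Pt φ x) : Pt φ (Fin.cons 0 x : Fin (r + 1) → K) := by
  obtain ⟨⟨l, hl⟩, h2⟩ := h
  refine ⟨⟨l.succ, by rw [Fin.cons_succ, hl]⟩, fun z => ?_⟩
  obtain ⟨a, b, hb, hz⟩ := h2 z
  have e : ∀ a : MvPolynomial (Fin r) S,
      eval₂ φ (Fin.cons 0 x : Fin (r + 1) → K) (rename Fin.succ a) = eval₂ φ x a := by
    intro a
    rw [eval₂_rename]
    rfl
  exact ⟨rename Fin.succ a, rename Fin.succ b, by rw [e]; exact hb, by rw [e, e]; exact hz⟩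

theorem Pt_frac {S : Type} [CommRing S] {r : ℕ} (P : Ideal (MvPolynomial (Fin r) S))
    [P.IsPrime] : Pt ((toFrac P).comp C) (Fin.cons 1 (fun l => toFrac P (X l)) :
      Fin (r + 1) → FractionRing (MvPolynomial (Fin r) S ⧸ P)) := by
  refine ⟨⟨0, rfl⟩, fun z => ?_⟩
  have e : ∀ a : MvPolynomial (Fin r) S,
      eval₂ ((toFrac P).comp C) (Fin.cons 1 (fun l => toFrac P (X l)) :
        Fin (r + 1) → FractionRing (MvPolynomial (Fin r) S ⧸ P)) (rename Fin.succ a) =
      toFrac P a := by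
    intro a
    rw [eval₂_rename]
    have h1 : (eval₂Hom ((toFrac P).comp C) ((Fin.cons 1 (fun l => toFrac P (X l)) :
        Fin (r + 1) → FractionRing (MvPolynomial (Fin r) S ⧸ P)) ∘ Fin.succ)) = toFrac P := by
      refine MvPolynomial.ringHom_ext (fun x => ?_) (fun l => ?_)
      · rw [eval₂Hom_C]
        rfl
      · rw [eval₂Hom_X']
        rfl
    exact DFunLike.congr_fun h1 a
  obtain ⟨x, y, hy, rfl⟩ := IsFractionRing.div_surjective (A := MvPolynomial (Fin r) S ⧸ P) z
  obtain ⟨a, rfl⟩ := Ideal.Quotient.mk_surjective x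
  obtain ⟨b, rfl⟩ := Ideal.Quotient.mk_surjective y
  have hb : toFrac P b ≠ 0 := by
    show algebraMap (MvPolynomial (Fin r) S ⧸ P) (FractionRing (MvPolynomial (Fin r) S ⧸ P))
      (Ideal.Quotient.mk P b) ≠ 0
    rw [Ne, FaithfulSMul.algebraMap_eq_zero_iff]
    exact nonZeroDivisors.ne_zero hy
  refine ⟨rename Fin.succ a, rename Fin.succ b, by rw [e]; exact hb, ?_⟩
  rw [e, e]
  exact div_mul_cancel₀ _ hb

section

variable (hQ4 : St_QORD4) (hR : St_RADM) (hEV : St_EVA) (hCS : St_CS1) (h6 : St_GEX)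
    (h7 : St_ORL) (hB : St_EVB) {S : Type} [CommRing S] [Algebra.FiniteType ℤ S] {n : ℕ}
include hQ4 hR hEV hCS h6 h7 hB

theorem ALL7_S {r : ℕ} (f : Fin (r + 1) → MvPolynomial (Fin n) S)
    (h : ∀ (K : Type) [Field K] (φ : S →+* K) (x : Fin (r + 1) → K), Pt φ x →
      GoodQ K (∑ l, C (x l) * MvPolynomial.map φ (f l))) : FG0 S := by
  have h1 : FG0 (MvPolynomial (Fin 0) S ⧸ Ideal.span {(0 : MvPolynomial (Fin 0) S)}) := by
    refine ALL6 hQ4 hR hEV hCS h6 h7 hB (0 : MvPolynomial (Fin 0) S) (by simp) ?_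
    intro P _
    have hpt : Pt (toFrac P) (Fin.cons 1 (fun _ => 0) : Fin (r + 1) → FractionRing (S ⧸ P)) := by
      refine ⟨⟨0, rfl⟩, fun z => ?_⟩
      obtain ⟨x, y, hy, rfl⟩ := IsFractionRing.div_surjective (A := S ⧸ P) z
      obtain ⟨a, rfl⟩ := Ideal.Quotient.mk_surjective x
      obtain ⟨b, rfl⟩ := Ideal.Quotient.mk_surjective y
      have hb : toFrac P b ≠ 0 := by
        show algebraMap (S ⧸ P) (FractionRing (S ⧸ P)) (Ideal.Quotient.mk P b) ≠ 0
        rw [Ne, FaithfulSMul.algebraMap_eq_zero_iff]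
        exact nonZeroDivisors.ne_zero hy
      refine ⟨C a, C b, by rw [eval₂_C]; exact hb, ?_⟩
      rw [eval₂_C, eval₂_C]
      exact div_mul_cancel₀ _ hb
    rcases h _ _ _ hpt with h | ⟨h1, h2, -⟩
    · exact Or.inl h
    · refine Or.inr ⟨h1, h2, Or.inl ?_⟩
      rw [map_zero]
      exact SmallAnis_zero _ _ h1
  refine BassH.closed_equiv _ _ ?_ h1
  refine (Ideal.quotEquivOfEq ?_).trans ((RingEquiv.quotientBot _).trans
    (isEmptyAlgEquiv S (Fin 0)).toRingEquiv)
  exact Ideal.span_singleton_eq_bot.2 rfl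

theorem ALL7_chart {r : ℕ} (f : Fin (r + 1) → MvPolynomial (Fin n) S)
    (hf : ∀ l, (f l).totalDegree ≤ 2)
    (h : ∀ (K : Type) [Field K] (φ : S →+* K) (x : Fin (r + 1) → K), Pt φ x →
      GoodQ K (∑ l, C (x l) * MvPolynomial.map φ (f l))) :
    FG0 (MvPolynomial (Fin r) (MvPolynomial (Fin n) S) ⧸
      Ideal.span {C (f 0) + bigF (Fin.tail f)}) := by
  have h1 : FG0 (MvPolynomial (Fin n) (MvPolynomial (Fin r) S) ⧸
      Ideal.span {MvPolynomial.map C (f 0) + cay (Fin.tail f)}) := by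
    haveI := ALL7_mv (S := S) r
    refine @ALL6 hQ4 hR hEV hCS h6 h7 hB (MvPolynomial (Fin r) S) _ this n
      (MvPolynomial.map C (f 0) + cay (Fin.tail f)) ?_ ?_
    · refine (totalDegree_add _ _).trans (max_le ?_ ?_)
      · exact (TOPV_deg _ _).trans (hf 0)
      · exact deg_cay _ fun l => hf l.succ
    · intro P _
      have h2 := h _ _ _ (Pt_frac P)
      have e : MvPolynomial.map (toFrac P) (MvPolynomial.map C (f 0) + cay (Fin.tail f)) =
          ∑ l, C ((Fin.cons 1 (fun l => toFrac P (X l)) :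
            Fin (r + 1) → FractionRing (MvPolynomial (Fin r) S ⧸ P)) l) *
            MvPolynomial.map ((toFrac P).comp C) (f l) := by
        rw [map_add, MvPolynomial.map_map, Fin.sum_univ_succ, Fin.cons_zero, C_1, one_mul]
        congr 1
        unfold cay
        rw [map_sum]
        refine Finset.sum_congr rfl fun l _ => ?_
        rw [map_mul, map_C, MvPolynomial.map_map, Fin.cons_succ]
        rfl
      rw [e]
      exact h2
  refine BassH.closed_equiv _ _ (Ideal.quotientEquiv _ _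
    (commAlgEquiv S (Fin n) (Fin r)).toRingEquiv ?_) h1
  rw [Ideal.map_span, Set.image_singleton]
  congr 2
  show _ = commAlgEquiv S (Fin n) (Fin r) _
  rw [map_add, comm_cay, ALL7_comm]

theorem ALL7_cone : ∀ {r : ℕ} (f : Fin (r + 1) → MvPolynomial (Fin n) S),
    (∀ l, (f l).totalDegree ≤ 2) →
    (∀ (K : Type) [Field K] (φ : S →+* K) (x : Fin (r + 1) → K), Pt φ x →
      GoodQ K (∑ l, C (x l) * MvPolynomial.map φ (f l))) →
    FG0 (MvPolynomial (Fin (r + 1)) (MvPolynomial (Fin n) S) ⧸ Ideal.span {bigF f}) := by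
  haveI : IsNoetherianRing S := Algebra.FiniteType.isNoetherianRing ℤ S
  intro r
  induction r with
  | zero =>
    intro f hf h
    refine CONE_step f (ALL7_chart hQ4 hR hEV hCS h6 h7 hB f hf h) ?_
    have h1 := ALL7_S hQ4 hR hEV hCS h6 h7 hB f h
    have h2 := BassH.closed_mv _ (Fin 0) (BassH.closed_mv _ (Fin n) h1)
    refine BassH.closed_equiv _ _ ?_ h2
    refine (RingEquiv.quotientBot _).symm.trans (Ideal.quotEquivOfEq ?_)
    symm
    rw [Ideal.span_singleton_eq_bot]
    unfold bigF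
    rw [Finset.univ_eq_empty, Finset.sum_empty]
  | succ r ih =>
    intro f hf h
    refine CONE_step f (ALL7_chart hQ4 hR hEV hCS h6 h7 hB f hf h) ?_
    refine ih (Fin.tail f) (fun l => hf l.succ) ?_
    intro K _ φ x hx
    have h1 := h K φ _ hx.cons
    rw [Fin.sum_univ_succ, Fin.cons_zero, C_0, zero_mul, zero_add] at h1
    exact h1

theorem ALL7 (hTb : St_Tb) {r : ℕ} (f : Fin (r + 1) → MvPolynomial (Fin n) S)
    (hf : ∀ l, (f l).totalDegree ≤ 2)
    (h : ∀ (K : Type) [Field K] (φ : S →+* K) (x : Fin (r + 1) → K), Pt φ x →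
      GoodQ K (∑ l, C (x l) * MvPolynomial.map φ (f l))) :
    AddGroup.FG (G0 (MvPolynomial (Fin n) S ⧸ Ideal.span (Set.range f))) := by
  haveI : IsNoetherianRing S := Algebra.FiniteType.isNoetherianRing ℤ S
  exact hTb _ _ f (ALL7_cone hQ4 hR hEV hCS h6 h7 hB f hf h)

end

end Pool.Agent.Q4
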