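import Pool.Agent.Q4.StH

/-!
# Q4, module CM2: matrices over split algebras
-/

set_option autoImplicit false

namespace Pool.Agent.Q4

open Function

/-- the component of the map -/
private noncomputable def CM2_comp {K Λ : Type} [Field K] [Ring Λ] [Algebra K Λ] {n : ℕ}
    {d : Fin n → ℕ} {E : Fin n → Type} [∀ i, Ring (E i)] [∀ i, Algebra K (E i)]
    (π : Λ →ₐ[K] ∀ i, Matrix (Fin (d i)) (Fin (d i)) (E i)) (i : Fin n) :
    Matrix (Fin 2) (Fin 2) Λ →ₐ[K] Matrix (Fin (2 * d i)) (Fin (2 * d i)) (E i) :=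
  (Matrix.reindexAlgEquiv K (E i) (finProdFinEquiv (m := 2) (n := d i))).toAlgHom.comp
    ((Matrix.compAlgEquiv (Fin 2) (Fin (d i)) (E i) K).toAlgHom.comp
      (((Pi.evalAlgHom K (fun i => Matrix (Fin (d i)) (Fin (d i)) (E i)) i).comp π).mapMatrix))

private theorem CM2_apply {K Λ : Type} [Field K] [Ring Λ] [Algebra K Λ] {n : ℕ}
    {d : Fin n → ℕ} {E : Fin n → Type} [∀ i, Ring (E i)] [∀ i, Algebra K (E i)]
    (π : Λ →ₐ[K] ∀ i, Matrix (Fin (d i)) (Fin (d i)) (E i)) (i : Fin n)
    (X : Matrix (Fin 2) (Fin 2) Λ) (a b : Fin 2) (p q : Fin (d i)) :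
    CM2_comp π i X (finProdFinEquiv (a, p)) (finProdFinEquiv (b, q)) = π (X a b) i p q := by
  change π (X (finProdFinEquiv.symm (finProdFinEquiv (a, p))).1
    (finProdFinEquiv.symm (finProdFinEquiv (b, q))).1) i
    (finProdFinEquiv.symm (finProdFinEquiv (a, p))).2
    (finProdFinEquiv.symm (finProdFinEquiv (b, q))).2 = π (X a b) i p q
  rw [Equiv.symm_apply_apply, Equiv.symm_apply_apply]

theorem thm_CM2 : St_CM2 := by
  rintro K Λ _ _ _ ⟨n, d, E, iR, iA, π, hs, ⟨r, hr⟩, hE⟩
  refine ⟨n, fun i => 2 * d i, E, iR, iA, AlgHom.pi fun i => CM2_comp π i, ?_, ?_, hE⟩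
  · intro Y
    have h1 : ∀ a b : Fin 2, ∃ x : Λ, π x = fun i p q =>
        Y i (finProdFinEquiv (a, p)) (finProdFinEquiv (b, q)) := fun a b => hs _
    choose x hx using h1
    refine ⟨Matrix.of x, ?_⟩
    funext i u v
    obtain ⟨⟨a, p⟩, rfl⟩ := (finProdFinEquiv (m := 2) (n := d i)).surjective u
    obtain ⟨⟨b, q⟩, rfl⟩ := (finProdFinEquiv (m := 2) (n := d i)).surjective v
    change CM2_comp π i (Matrix.of x) (finProdFinEquiv (a, p)) (finProdFinEquiv (b, q)) = _
    rw [CM2_apply, Matrix.of_apply, hx]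
  · have hr1 : (RingHom.ker π) ^ (r + 1) = 0 := by
      rw [Submodule.pow_succ, hr, Submodule.zero_eq_bot, Submodule.bot_mul]
    have hker : ∀ X : Matrix (Fin 2) (Fin 2) Λ,
        X ∈ RingHom.ker (AlgHom.pi fun i => CM2_comp π i) → ∀ a b, X a b ∈ RingHom.ker π := by
      intro X hX a b
      rw [RingHom.mem_ker] at hX ⊢
      funext i p q
      have h1 : CM2_comp π i X = 0 := congrFun hX i
      rw [← CM2_apply, h1]
      rfl
    have key : ∀ m : ℕ, (RingHom.ker (AlgHom.pi fun i => CM2_comp π i)) ^ m ≤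
        ((RingHom.ker π) ^ m).matrix (Fin 2) := by
      intro m
      induction m with
      | zero =>
        intro X _
        rw [Ideal.mem_matrix]
        intro a b
        rw [Submodule.pow_zero, Submodule.one_eq_span]
        exact Submodule.mem_span_singleton.2 ⟨X a b, by rw [smul_eq_mul, mul_one]⟩
      | succ m ih =>
        rw [Submodule.pow_succ, Submodule.pow_succ, Ideal.mul_le]
        intro U hU V hV
        rw [Ideal.mem_matrix]
        intro a b
        rw [Matrix.mul_apply]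
        refine Submodule.sum_mem _ fun c _ => ?_
        exact Ideal.mul_mem_mul ((Ideal.mem_matrix _ _ _).1 (ih hU) a c) (hker V hV c b)
    refine ⟨r + 1, ?_⟩
    have h2 := key (r + 1)
    rw [hr1] at h2
    rw [Submodule.zero_eq_bot, eq_bot_iff]
    intro X hX
    have h3 := (Ideal.mem_matrix _ _ _).1 (h2 hX)
    rw [Submodule.mem_bot]
    ext a b
    exact h3 a b

end Pool.Agent.Q4
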