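import Pool.Agent.Q4.StA

/-!
# Q4, module CONC (St_CON; the file name CON is reserved on some systems): the concrete data of a biquaternion algebra
-/

set_option autoImplicit false

namespace Pool.Agent.Q4

open Quaternion TensorProduct

section

variable {K : Type} [Field K]

private theorem CON_sq (a b s t u : K) : (⟨0, s, t, u⟩ : ℍ[K,a,b]) * ⟨0, s, t, u⟩ =
    algebraMap K _ (a * s ^ 2 + b * t ^ 2 - a * b * u ^ 2) := by
  rw [QuaternionAlgebra.algebraMap_eq]
  ext <;> simp only [QuaternionAlgebra.re_mul, QuaternionAlgebra.imI_mul, QuaternionAlgebra.imJ_mul,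
    QuaternionAlgebra.imK_mul] <;> ring

private theorem CON_alb (a b c d : K) (v : Fin 6 → K) : alb a b c d v =
    (a * v 0 ^ 2 + b * v 1 ^ 2 - a * b * v 2 ^ 2) - (c * v 3 ^ 2 + d * v 4 ^ 2 - c * d * v 5 ^ 2) := by
  unfold alb
  rw [Fin.sum_univ_six]
  show a * v 0 ^ 2 + b * v 1 ^ 2 + -(a * b) * v 2 ^ 2 + -c * v 3 ^ 2 + -d * v 4 ^ 2 +
    c * d * v 5 ^ 2 = _
  ring

private theorem CON_am1 (a b c d s : K) : (algebraMap K ℍ[K,a,b] s) ⊗ₜ[K] (1 : ℍ[K,c,d]) =
    algebraMap K (BQ K a b c d) s := rfl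

private theorem CON_am2 (a b c d s : K) : (1 : ℍ[K,a,b]) ⊗ₜ[K] (algebraMap K ℍ[K,c,d] s) =
    algebraMap K (BQ K a b c d) s := by
  rw [← CON_am1, Algebra.algebraMap_eq_smul_one, Algebra.algebraMap_eq_smul_one,
    TensorProduct.tmul_smul, TensorProduct.smul_tmul']

private theorem CON_wp (a b c d : K) (v : Fin 6 → K) :
    wv a b c d v * pv a b c d v = algebraMap K _ (alb a b c d v) := by
  rw [CON_alb, map_sub]
  unfold wv pv pq1 pq2
  rw [sub_mul, mul_add, mul_add, Algebra.TensorProduct.tmul_mul_tmul,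
    Algebra.TensorProduct.tmul_mul_tmul, Algebra.TensorProduct.tmul_mul_tmul,
    Algebra.TensorProduct.tmul_mul_tmul, one_mul, one_mul, mul_one, mul_one, one_mul, mul_one,
    CON_sq, CON_sq, CON_am1, CON_am2]
  abel

private theorem CON_pw (a b c d : K) (v : Fin 6 → K) :
    pv a b c d v * wv a b c d v = algebraMap K _ (alb a b c d v) := by
  rw [CON_alb, map_sub]
  unfold wv pv pq1 pq2
  rw [add_mul, mul_sub, mul_sub, Algebra.TensorProduct.tmul_mul_tmul,
    Algebra.TensorProduct.tmul_mul_tmul, Algebra.TensorProduct.tmul_mul_tmul,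
    Algebra.TensorProduct.tmul_mul_tmul, one_mul, one_mul, mul_one, mul_one, one_mul, mul_one,
    CON_sq, CON_sq, CON_am1, CON_am2]
  abel

private theorem CON_pq1_add (a b : K) (v w : Fin 6 → K) : pq1 a b (v + w) = pq1 a b v + pq1 a b w := by
  ext <;> simp only [pq1, QuaternionAlgebra.re_add, QuaternionAlgebra.imI_add,
    QuaternionAlgebra.imJ_add, QuaternionAlgebra.imK_add, Pi.add_apply, add_zero]

private theorem CON_pq2_add (a b : K) (v w : Fin 6 → K) : pq2 a b (v + w) = pq2 a b v + pq2 a b w := by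
  ext <;> simp only [pq2, QuaternionAlgebra.re_add, QuaternionAlgebra.imI_add,
    QuaternionAlgebra.imJ_add, QuaternionAlgebra.imK_add, Pi.add_apply, add_zero]

private theorem CON_pq1_smul (a b s : K) (v : Fin 6 → K) : pq1 a b (s • v) = s • pq1 a b v := by
  ext <;> simp only [pq1, QuaternionAlgebra.re_smul, QuaternionAlgebra.imI_smul,
    QuaternionAlgebra.imJ_smul, QuaternionAlgebra.imK_smul, Pi.smul_apply, smul_zero]

private theorem CON_pq2_smul (a b s : K) (v : Fin 6 → K) : pq2 a b (s • v) = s • pq2 a b v := by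
  ext <;> simp only [pq2, QuaternionAlgebra.re_smul, QuaternionAlgebra.imI_smul,
    QuaternionAlgebra.imJ_smul, QuaternionAlgebra.imK_smul, Pi.smul_apply, smul_zero]

/-- `wv` as a linear map -/
private noncomputable def CON_W (a b c d : K) : (Fin 6 → K) →ₗ[K] BQ K a b c d where
  toFun := wv a b c d
  map_add' v w := by
    unfold wv
    rw [CON_pq1_add, CON_pq2_add, TensorProduct.add_tmul, TensorProduct.tmul_add]
    abel
  map_smul' s v := by
    unfold wv
    rw [CON_pq1_smul, CON_pq2_smul, TensorProduct.tmul_smul, ← TensorProduct.smul_tmul',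
      RingHom.id_apply, smul_sub]

/-- `pv` as a linear map -/
private noncomputable def CON_P (a b c d : K) : (Fin 6 → K) →ₗ[K] BQ K a b c d where
  toFun := pv a b c d
  map_add' v w := by
    unfold pv
    rw [CON_pq1_add, CON_pq2_add, TensorProduct.add_tmul, TensorProduct.tmul_add]
    abel
  map_smul' s v := by
    unfold pv
    rw [CON_pq1_smul, CON_pq2_smul, TensorProduct.tmul_smul, ← TensorProduct.smul_tmul',
      RingHom.id_apply, smul_add]

private theorem CON_lin {D : Type} [Ring D] [Algebra K D] {V : Type} [AddCommGroup V] [Module K V]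
    (f : V →ₗ[K] D) {ι : Type} (t : ι → V) (ht : Submodule.span K (Set.range t) = ⊤)
    (h : ∀ i, f (t i) = 0) (v : V) : f v = 0 := by
  have h1 : Submodule.span K (Set.range t) ≤ LinearMap.ker f := by
    rw [Submodule.span_le]
    rintro _ ⟨i, rfl⟩
    exact h i
  rw [ht] at h1
  exact h1 (Submodule.mem_top (x := v))

/-- an element which commutes with all `W (t i) * P (t j)` commutes with all `W v * P v'` -/
private theorem CON_com {D : Type} [Ring D] [Algebra K D] {V : Type} [AddCommGroup V] [Module K V]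
    (W P : V →ₗ[K] D) {ι : Type} (t : ι → V) (ht : Submodule.span K (Set.range t) = ⊤) (z : D)
    (h : ∀ i j, z * (W (t i) * P (t j)) = W (t i) * P (t j) * z) (v v' : V) :
    z * (W v * P v') = W v * P v' * z := by
  have h1 : ∀ j v, z * (W v * P (t j)) = W v * P (t j) * z := by
    intro j v
    have h2 := CON_lin ((LinearMap.mulLeft K z).comp ((LinearMap.mulRight K (P (t j))).comp W) -
      (LinearMap.mulRight K z).comp ((LinearMap.mulRight K (P (t j))).comp W)) t ht
      (fun i => sub_eq_zero.2 (h i j)) v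
    exact sub_eq_zero.1 h2
  have h3 := CON_lin ((LinearMap.mulLeft K z).comp ((LinearMap.mulLeft K (W v)).comp P) -
      (LinearMap.mulRight K z).comp ((LinearMap.mulLeft K (W v)).comp P)) t ht
      (fun j => sub_eq_zero.2 (h1 j v)) v'
  exact sub_eq_zero.1 h3

/-- an element which commutes with `i` and `j` is a scalar -/
private theorem CON_cen1 (a b : K) (h2 : (2 : K) ≠ 0) (ha : a ≠ 0) (x : ℍ[K,a,b])
    (h1 : (⟨0, 1, 0, 0⟩ : ℍ[K,a,b]) * x = x * ⟨0, 1, 0, 0⟩)
    (h3 : (⟨0, 0, 1, 0⟩ : ℍ[K,a,b]) * x = x * ⟨0, 0, 1, 0⟩) :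
    x = algebraMap K _ x.re := by
  have e1 := congrArg QuaternionAlgebra.imJ h1
  have e2 := congrArg QuaternionAlgebra.imK h1
  have e3 := congrArg QuaternionAlgebra.imK h3
  simp only [QuaternionAlgebra.imJ_mul, QuaternionAlgebra.imK_mul] at e1 e2 e3
  have f1 : x.imK = 0 := by
    have : 2 * a * x.imK = 0 := by linear_combination e1
    exact (mul_eq_zero.1 this).resolve_left (mul_ne_zero h2 ha)
  have f2 : x.imJ = 0 := by
    have : 2 * x.imJ = 0 := by linear_combination e2
    exact (mul_eq_zero.1 this).resolve_left h2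
  have f3 : x.imI = 0 := by
    have : 2 * x.imI = 0 := by linear_combination -e3
    exact (mul_eq_zero.1 this).resolve_left h2
  rw [QuaternionAlgebra.algebraMap_eq]
  ext
  · rfl
  · exact f3
  · exact f2
  · exact f1

/-- an element which commutes with the generators is a scalar -/
private theorem CON_cen (a b c d : K) (h2 : (2 : K) ≠ 0) (ha : a ≠ 0) (hc : c ≠ 0)
    (z : BQ K a b c d)
    (h : ∀ x ∈ ({⟨0, 1, 0, 0⟩, ⟨0, 0, 1, 0⟩} : Set ℍ[K,a,b]),
      (x ⊗ₜ[K] (1 : ℍ[K,c,d])) * z = z * (x ⊗ₜ[K] (1 : ℍ[K,c,d])))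
    (h' : ∀ y ∈ ({⟨0, 1, 0, 0⟩, ⟨0, 0, 1, 0⟩} : Set ℍ[K,c,d]),
      ((1 : ℍ[K,a,b]) ⊗ₜ[K] y) * z = z * ((1 : ℍ[K,a,b]) ⊗ₜ[K] y)) :
    ∃ k : K, z = algebraMap K _ k := by
  have h1 : z ∈ Subalgebra.centralizer K (Algebra.TensorProduct.includeLeft (S := K) ''
      ({⟨0, 1, 0, 0⟩, ⟨0, 0, 1, 0⟩} : Set ℍ[K,a,b]) : Set (BQ K a b c d)) := by
    rw [Subalgebra.mem_centralizer_iff]
    rintro _ ⟨x, hx, rfl⟩
    exact h x hx
  rw [Subalgebra.centralizer_coe_image_includeLeft_eq_center_tensorProduct] at h1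
  obtain ⟨w, hw⟩ := h1
  -- every element of the image is `1 ⊗ y`
  have h3 : ∃ y : ℍ[K,c,d], z = 1 ⊗ₜ y := by
    rw [← hw]
    clear hw h h'
    induction w using TensorProduct.induction_on with
    | zero => exact ⟨0, by rw [map_zero, TensorProduct.tmul_zero]⟩
    | tmul x y =>
      have hx := Subalgebra.mem_centralizer_iff K |>.1 x.2
      have hx' := CON_cen1 a b h2 ha x (hx _ (Or.inl rfl)) (hx _ (Or.inr rfl))
      refine ⟨(x : ℍ[K,a,b]).re • y, ?_⟩
      rw [← TensorProduct.smul_tmul]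
      show (x : ℍ[K,a,b]) ⊗ₜ[K] y = _
      rw [← Algebra.algebraMap_eq_smul_one, ← hx']
    | add u v hu hv =>
      obtain ⟨y1, h1⟩ := hu
      obtain ⟨y2, h3⟩ := hv
      refine ⟨y1 + y2, ?_⟩
      rw [map_add, h1, h3, TensorProduct.tmul_add]
  obtain ⟨y, rfl⟩ := h3
  have h4 : ∀ s ∈ ({⟨0, 1, 0, 0⟩, ⟨0, 0, 1, 0⟩} : Set ℍ[K,c,d]), s * y = y * s := by
    intro s hs
    have h5 := h' s hs
    rw [Algebra.TensorProduct.tmul_mul_tmul, Algebra.TensorProduct.tmul_mul_tmul, one_mul] at h5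
    exact Algebra.TensorProduct.includeRight_injective (R := K) (A := ℍ[K,a,b]) (B := ℍ[K,c,d])
      (algebraMap K ℍ[K,a,b]).injective h5
  have h5 := CON_cen1 c d h2 hc y (h4 _ (Or.inl rfl)) (h4 _ (Or.inr rfl))
  refine ⟨y.re, ?_⟩
  rw [h5, CON_am2]
  rfl

/-- the conjugation -/
private noncomputable def CON_star (a b : K) : ℍ[K,a,b] →ₗ[K] ℍ[K,a,b] where
  toFun x := star x
  map_add' x y := star_add x y
  map_smul' s x := by
    ext <;> simp

private theorem CON_star_pure (a b s t u : K) : CON_star a b ⟨0, s, t, u⟩ = -⟨0, s, t, u⟩ := by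
  show star (⟨0, s, t, u⟩ : ℍ[K,a,b]) = _
  ext <;> simp

private theorem CON_sigma (a b c d : K) : ∃ σ : BQ K a b c d →ₗ[K] BQ K a b c d,
    (∀ x y, σ (x * y) = σ y * σ x) ∧ (∀ x, σ (σ x) = x) ∧
    (∀ v, σ (wv a b c d v) = -wv a b c d v) ∧ ∀ v, σ (pv a b c d v) = -pv a b c d v := by
  have s1 : ∀ a b : K, CON_star a b 1 = 1 := fun a b => star_one _
  refine ⟨TensorProduct.map (CON_star a b) (CON_star c d), fun x y => ?_, fun x => ?_, fun v => ?_,
    fun v => ?_⟩
  · induction x using TensorProduct.induction_on with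
    | zero => rw [zero_mul, map_zero, mul_zero]
    | add x1 x2 h1 h2 => rw [add_mul, map_add, map_add, mul_add, h1, h2]
    | tmul x1 x2 =>
      induction y using TensorProduct.induction_on with
      | zero => rw [mul_zero, map_zero, zero_mul]
      | add y1 y2 h1 h2 => rw [mul_add, map_add, map_add, add_mul, h1, h2]
      | tmul y1 y2 =>
        rw [Algebra.TensorProduct.tmul_mul_tmul, TensorProduct.map_tmul, TensorProduct.map_tmul,
          TensorProduct.map_tmul, Algebra.TensorProduct.tmul_mul_tmul]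
        exact congrArg₂ (fun u v => u ⊗ₜ[K] v) (star_mul x1 y1) (star_mul x2 y2)
  · induction x using TensorProduct.induction_on with
    | zero => rw [map_zero, map_zero]
    | add x1 x2 h1 h2 => rw [map_add, map_add, h1, h2]
    | tmul x1 x2 =>
      rw [TensorProduct.map_tmul, TensorProduct.map_tmul]
      exact congrArg₂ (fun u v => u ⊗ₜ[K] v) (star_star x1) (star_star x2)
  · unfold wv pq1 pq2
    rw [map_sub, TensorProduct.map_tmul, TensorProduct.map_tmul, s1, s1, CON_star_pure,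
      CON_star_pure, TensorProduct.neg_tmul, TensorProduct.tmul_neg]
    abel
  · unfold pv pq1 pq2
    rw [map_add, TensorProduct.map_tmul, TensorProduct.map_tmul, s1, s1, CON_star_pure,
      CON_star_pure, TensorProduct.neg_tmul, TensorProduct.tmul_neg]
    abel

/-- a pure quaternion which is not zero does not commute with `i` or with `j` -/
private theorem CON_noncom (a b : K) (h2 : (2 : K) ≠ 0) (ha : a ≠ 0) (y : ℍ[K,a,b]) (h0 : y.re = 0)
    (hy : y ≠ 0) : ∃ s : ℍ[K,a,b], y * s - s * y ≠ 0 := by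
  by_contra hc
  push Not at hc
  have h3 := CON_cen1 a b h2 ha y (sub_eq_zero.1 (hc _)).symm (sub_eq_zero.1 (hc _)).symm
  rw [h0, map_zero] at h3
  exact hy h3

private theorem CON_norm (a b c d : K) (h2 : (2 : K) ≠ 0) (hc : c ≠ 0)
    (hz : ∀ x y : BQ K a b c d, x * y = 0 → x = 0 ∨ y = 0) (v : Fin 6 → K) :
    Algebra.norm K (wv a b c d v) = Algebra.norm K (pv a b c d v) := by
  have hnz : NoZeroDivisors (BQ K a b c d) := ⟨fun {x y} h => hz x y h⟩
  by_cases hy : pq2 c d v = 0
  · unfold wv pv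
    rw [hy, TensorProduct.tmul_zero, sub_zero, add_zero]
  · obtain ⟨s, hs⟩ := CON_noncom c d h2 hc (pq2 c d v) rfl hy
    set y := pq2 c d v with hyd
    set w := y * s - s * y with hw
    have e1 : y * w = -(w * y) := by
      have e2 : y * y = algebraMap K _ (c * v 3 ^ 2 + d * v 4 ^ 2 - c * d * v 5 ^ 2) :=
        CON_sq _ _ _ _ _
      have e5 : y * y * s = s * (y * y) := by rw [e2, Algebra.commutes]
      rw [hw, mul_sub, ← mul_assoc, ← mul_assoc, e5, sub_mul, neg_sub, mul_assoc s y y]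
    have e3 : ((1 : ℍ[K,a,b]) ⊗ₜ[K] w) * wv a b c d v = pv a b c d v * ((1 : ℍ[K,a,b]) ⊗ₜ[K] w) := by
      unfold wv pv
      rw [← hyd, mul_sub, add_mul, Algebra.TensorProduct.tmul_mul_tmul,
        Algebra.TensorProduct.tmul_mul_tmul, Algebra.TensorProduct.tmul_mul_tmul,
        Algebra.TensorProduct.tmul_mul_tmul, one_mul, one_mul, mul_one, mul_one, one_mul, e1,
        TensorProduct.tmul_neg]
      abel
    have hw0 : ((1 : ℍ[K,a,b]) ⊗ₜ[K] w : BQ K a b c d) ≠ 0 := by
      intro h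
      have h3 := Algebra.TensorProduct.includeRight_injective (R := K) (A := ℍ[K,a,b])
        (B := ℍ[K,c,d]) (algebraMap K ℍ[K,a,b]).injective (a₁ := w) (a₂ := 0)
        (by rw [map_zero]; exact h)
      exact hs h3
    have hnt : Nontrivial (BQ K a b c d) := ⟨⟨_, _, hw0⟩⟩
    have hdom : IsDomain (BQ K a b c d) := NoZeroDivisors.to_isDomain _
    have e4 := congrArg (Algebra.norm K) e3
    rw [map_mul, map_mul, mul_comm] at e4
    exact mul_right_cancel₀ (fun h => hw0 (Algebra.norm_eq_zero_iff.1 h)) e4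

private theorem CON_g1 (a b c d : K) (z : BQ K a b c d)
    (h : ∀ v v', z * (wv a b c d v * pv a b c d v') = wv a b c d v * pv a b c d v' * z)
    (v v' : Fin 6 → K) (hv : pq2 c d v = 0) (hv' : pq2 c d v' = 0) (g : ℍ[K,a,b]) (r : K)
    (hr : r ≠ 0) (hg : pq1 a b v * pq1 a b v' = r • g) :
    (g ⊗ₜ[K] (1 : ℍ[K,c,d])) * z = z * (g ⊗ₜ[K] (1 : ℍ[K,c,d])) := by
  have h1 := h v v'
  unfold wv pv at h1
  rw [hv, hv', TensorProduct.tmul_zero, sub_zero, add_zero, Algebra.TensorProduct.tmul_mul_tmul,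
    mul_one, hg, ← TensorProduct.smul_tmul', smul_mul_assoc, mul_smul_comm] at h1
  exact (smul_right_injective _ hr h1).symm

private theorem CON_g2 (a b c d : K) (z : BQ K a b c d)
    (h : ∀ v v', z * (wv a b c d v * pv a b c d v') = wv a b c d v * pv a b c d v' * z)
    (v v' : Fin 6 → K) (hv : pq1 a b v = 0) (hv' : pq1 a b v' = 0) (g : ℍ[K,c,d]) (r : K)
    (hr : r ≠ 0) (hg : pq2 c d v * pq2 c d v' = r • g) :
    ((1 : ℍ[K,a,b]) ⊗ₜ[K] g) * z = z * ((1 : ℍ[K,a,b]) ⊗ₜ[K] g) := by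
  have h1 := h v v'
  have e1 : wv a b c d v * pv a b c d v' = -(r • ((1 : ℍ[K,a,b]) ⊗ₜ[K] g)) := by
    unfold wv pv
    rw [hv, hv', TensorProduct.zero_tmul, zero_sub, zero_add]
    refine (neg_mul ((1 : ℍ[K,a,b]) ⊗ₜ[K] pq2 c d v : BQ K a b c d) _).trans ?_
    rw [Algebra.TensorProduct.tmul_mul_tmul, mul_one, hg, TensorProduct.tmul_smul]
  rw [e1] at h1
  have h3 : z * (r • ((1 : ℍ[K,a,b]) ⊗ₜ[K] g)) = (r • ((1 : ℍ[K,a,b]) ⊗ₜ[K] g)) * z :=
    neg_injective ((mul_neg z _).symm.trans (h1.trans (neg_mul _ z)))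
  rw [smul_mul_assoc, mul_smul_comm] at h3
  exact (smul_right_injective _ hr h3).symm

end

theorem thm_CON : St_CON := by
  intro K _ a b c d h2 ha hb hc hd
  refine ⟨CON_wp a b c d, CON_pw a b c d, fun t ht hal => ⟨fun i j hij => ?_, fun i j hij => ?_,
    fun i => CON_wp a b c d (t i), fun i => CON_pw a b c d (t i), fun z hz => ?_⟩,
    CON_sigma a b c d, CON_norm a b c d h2 hc⟩
  · have h1 := CON_wp a b c d (t i + t j)
    have e1 : wv a b c d (t i + t j) = wv a b c d (t i) + wv a b c d (t j) :=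
      (CON_W a b c d).map_add _ _
    have e2 : pv a b c d (t i + t j) = pv a b c d (t i) + pv a b c d (t j) :=
      (CON_P a b c d).map_add _ _
    rw [hal i j hij, map_add, e1, e2, add_mul, mul_add, mul_add, CON_wp, CON_wp] at h1
    rw [eq_neg_iff_add_eq_zero]
    have h3 := sub_eq_zero.2 h1
    rw [← h3]
    abel
  · have h1 := CON_pw a b c d (t i + t j)
    have e1 : wv a b c d (t i + t j) = wv a b c d (t i) + wv a b c d (t j) :=
      (CON_W a b c d).map_add _ _
    have e2 : pv a b c d (t i + t j) = pv a b c d (t i) + pv a b c d (t j) :=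
      (CON_P a b c d).map_add _ _
    rw [hal i j hij, map_add, e1, e2, add_mul, mul_add, mul_add, CON_pw, CON_pw] at h1
    rw [eq_neg_iff_add_eq_zero]
    have h3 := sub_eq_zero.2 h1
    rw [← h3]
    abel
  · have h1 : ∀ v v', z * (wv a b c d v * pv a b c d v') = wv a b c d v * pv a b c d v' * z :=
      CON_com (CON_W a b c d) (CON_P a b c d) t ht z hz
    refine CON_cen a b c d h2 ha hc z ?_ ?_
    · rintro x (rfl | rfl)
      · refine CON_g1 a b c d z h1 (Pi.single 1 1) (Pi.single 2 1) ?_ ?_ _ (-b) (neg_ne_zero.2 hb) ?_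
        · ext <;> simp [pq2]
        · ext <;> simp [pq2]
        · ext <;> simp [pq1]
      · refine CON_g1 a b c d z h1 (Pi.single 0 1) (Pi.single 2 1) ?_ ?_ _ a ha ?_
        · ext <;> simp [pq2]
        · ext <;> simp [pq2]
        · ext <;> simp [pq1]
    · rintro x (rfl | rfl)
      · refine CON_g2 a b c d z h1 (Pi.single 4 1) (Pi.single 5 1) ?_ ?_ _ (-d) (neg_ne_zero.2 hd) ?_
        · ext <;> simp [pq1]
        · ext <;> simp [pq1]
        · ext <;> simp [pq2]
      · refine CON_g2 a b c d z h1 (Pi.single 3 1) (Pi.single 5 1) ?_ ?_ _ c hc ?_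
        · ext <;> simp [pq1]
        · ext <;> simp [pq1]
        · ext <;> simp [pq2]

end Pool.Agent.Q4
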