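import Pool.Agent.Q4.StF

/-!
# Q4, module CS1: products with one or two factors (helper40)
-/

set_option autoImplicit false

namespace Pool.Agent.Q4

open Quaternion TensorProduct Function Pool.Agent.Helper67.Bass Pool.Agent.QCT

private theorem CS1_nil {K Λ Λ' E : Type} [Field K] [Ring Λ] [Ring Λ'] [Ring E] [Algebra K Λ]
    [Algebra K Λ'] [Algebra K E] (π : Λ →ₐ[K] Λ') (ρ : Λ' →ₐ[K] E)
    (hπ : IsNilpotent (RingHom.ker π)) (hρ : IsNilpotent (RingHom.ker ρ)) :
    IsNilpotent (RingHom.ker (ρ.comp π)) := by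
  obtain ⟨r, hr⟩ := hπ
  obtain ⟨s, hs⟩ := hρ
  have hr1 : (RingHom.ker π) ^ (r + 1) = 0 := by
    rw [Submodule.pow_succ, hr, Submodule.zero_eq_bot, Submodule.bot_mul]
  have hs1 : (RingHom.ker ρ) ^ (s + 1) = 0 := by
    rw [Submodule.pow_succ, hs, Submodule.zero_eq_bot, Submodule.bot_mul]
  have key : ∀ n : ℕ, ∀ y ∈ (RingHom.ker (ρ.comp π)) ^ n, π y ∈ (RingHom.ker ρ) ^ n := by
    intro n
    induction n with
    | zero =>
      intro y _
      rw [Submodule.pow_zero, Submodule.one_eq_span]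
      exact Submodule.mem_span_singleton.2 ⟨π y, by rw [smul_eq_mul, mul_one]⟩
    | succ n ih =>
      intro y hy
      rw [Submodule.pow_succ] at hy ⊢
      have h1 : (RingHom.ker (ρ.comp π)) ^ n * (RingHom.ker (ρ.comp π)) ≤
          Ideal.comap π ((RingHom.ker ρ) ^ n * RingHom.ker ρ) := by
        rw [Ideal.mul_le]
        intro u hu v hv
        rw [Ideal.mem_comap, map_mul]
        refine Ideal.mul_mem_mul (ih u hu) ?_
        rw [RingHom.mem_ker] at hv ⊢
        exact hv
      exact h1 hy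
  have hle : (RingHom.ker (ρ.comp π)) ^ (s + 1) ≤ RingHom.ker π := by
    intro y hy
    have h1 := key _ y hy
    rw [hs1] at h1
    exact h1
  have hall : ∀ k : ℕ, (RingHom.ker (ρ.comp π)) ^ ((s + 1) * (k + 1)) ≤
      (RingHom.ker π) ^ (k + 1) := by
    intro k
    induction k with
    | zero =>
      rw [Nat.zero_add, mul_one, Submodule.pow_one]
      exact hle
    | succ k ih =>
      have e : (s + 1) * (k + 1 + 1) = (s + 1) * (k + 1) + (s + 1) := by ring
      rw [e, Submodule.pow_add _ (Nat.succ_ne_zero s), Submodule.pow_succ (n := k + 1)]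
      exact Ideal.mul_mono ih hle
  refine ⟨(s + 1) * (r + 1), ?_⟩
  have h2 := hall r
  rw [hr1] at h2
  exact le_antisymm h2 bot_le

private theorem CS1_ker1 {K Λ E : Type} [Field K] [Ring Λ] [Ring E] [Algebra K Λ]
    [Algebra K E] (π : Λ →ₐ[K] E) (h : Injective π) : IsNilpotent (RingHom.ker π) := by
  refine ⟨1, ?_⟩
  rw [Submodule.pow_one, Submodule.zero_eq_bot, eq_bot_iff]
  intro z hz
  rw [RingHom.mem_ker] at hz
  have h1 : z = 0 := h (by rw [hz, map_zero])
  rw [h1]
  exact Submodule.zero_mem _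

/-- an arbitrary finite index set -/
private theorem CS1_fin {K Λ : Type} [Field K] [Ring Λ] [Algebra K Λ] (ι : Type) [Fintype ι]
    (d : ι → ℕ) (E : ι → Type) [∀ i, Ring (E i)] [∀ i, Algebra K (E i)]
    (π : Λ →ₐ[K] ∀ i, Matrix (Fin (d i)) (Fin (d i)) (E i)) (hs : Surjective π)
    (hn : IsNilpotent (RingHom.ker π)) (hE : ∀ i, Fac K (E i)) : CSplit K Λ := by
  let e : ι ≃ Fin (Fintype.card ι) := Fintype.equivFin ι
  let π' : Λ →ₐ[K] ∀ j : Fin (Fintype.card ι), Matrix (Fin (d (e.symm j))) (Fin (d (e.symm j)))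
      (E (e.symm j)) := AlgHom.pi fun j =>
    (Pi.evalAlgHom K (fun i => Matrix (Fin (d i)) (Fin (d i)) (E i)) (e.symm j)).comp π
  refine ⟨Fintype.card ι, fun j => d (e.symm j), fun j => E (e.symm j), fun _ => inferInstance,
    fun _ => inferInstance, π', ?_, ?_, fun j => hE _⟩
  · intro m
    obtain ⟨z, hz⟩ := hs ((Equiv.piCongrLeft' (fun i => Matrix (Fin (d i)) (Fin (d i)) (E i))
      e).symm m)
    refine ⟨z, funext fun j => ?_⟩
    have h1 := congrFun ((Equiv.piCongrLeft' (fun i => Matrix (Fin (d i)) (Fin (d i)) (E i))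
      e).apply_symm_apply m) j
    refine Eq.trans ?_ h1
    show π z (e.symm j) = _
    rw [hz]
    rfl
  · have h1 : RingHom.ker π' = RingHom.ker π := by
      ext z
      rw [RingHom.mem_ker, RingHom.mem_ker]
      constructor
      · intro h
        funext i
        obtain ⟨j, rfl⟩ := e.symm.surjective i
        exact congrFun h j
      · intro h
        funext j
        show π z (e.symm j) = 0
        rw [h]
        rfl
    rw [h1]
    exact hn

/-- a product of algebras -/
private theorem CS1_pi {K Λ : Type} [Field K] [Ring Λ] [Algebra K Λ] (ι : Type) [Fintype ι]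
    (E : ι → Type) [∀ i, Ring (E i)] [∀ i, Algebra K (E i)]
    (e : Λ ≃ₐ[K] ∀ i, E i) (hE : ∀ i, Fac K (E i)) : CSplit K Λ := by
  refine CS1_fin ι (fun _ => 1) E (AlgHom.pi fun i =>
    (Matrix.scalarAlgHom (Fin 1) K).comp ((Pi.evalAlgHom K E i).comp (e : Λ →ₐ[K] ∀ i, E i)))
    ?_ ?_ hE
  · intro m
    refine ⟨e.symm (fun i => m i 0 0), ?_⟩
    funext i p q
    have hp : p = 0 := Subsingleton.elim (α := Fin 1) _ _
    have hq : q = 0 := Subsingleton.elim (α := Fin 1) _ _
    rw [hp, hq]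
    change Matrix.scalar (Fin 1) (e (e.symm (fun i => m i 0 0)) i) 0 0 = m i 0 0
    rw [Matrix.scalar_apply, Matrix.diagonal_apply_eq, e.apply_symm_apply]
  · refine CS1_ker1 _ ?_
    rw [injective_iff_map_eq_zero]
    intro z hz
    have h0 : e z = 0 := by
      funext i
      have h1 := congrFun hz i
      have h2 : Matrix.scalar (Fin 1) (e z i) 0 0 = (0 : E i) := congrFun (congrFun h1 0) 0
      rw [Matrix.scalar_apply, Matrix.diagonal_apply_eq] at h2
      exact h2
    rw [← e.symm_apply_apply z, h0, map_zero]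

theorem thm_CS1 : St_CS1 := by
  refine ⟨?_, ?_, ?_, ?_⟩
  · rintro K Λ E _ _ _ _ _ hE ⟨e⟩
    exact CS1_pi Unit (fun _ => E) (e.trans (AlgEquiv.funUnique K Unit E).symm) fun _ => hE
  · rintro K Λ E _ _ _ _ _ hE ⟨e⟩
    let f : (E × E) ≃ₐ[K] (Fin 2 → E) :=
      { toFun := fun p => ![p.1, p.2]
        invFun := fun x => (x 0, x 1)
        left_inv := fun p => rfl
        right_inv := fun x => by
          funext i
          fin_cases i <;> rfl
        map_mul' := fun p q => by
          funext i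
          fin_cases i <;> rfl
        map_add' := fun p q => by
          funext i
          fin_cases i <;> rfl
        commutes' := fun r => by
          funext i
          fin_cases i <;> rfl }
    exact CS1_pi (Fin 2) (fun _ => E) (e.trans f) fun _ => hE
  · rintro K Λ Λ' _ _ _ _ _ π hπ hnil ⟨n, d, E, iR, iA, ρ, hs, hn, hE⟩
    exact ⟨n, d, E, iR, iA, ρ.comp π, hs.comp hπ, CS1_nil π ρ hnil hn, hE⟩
  · rintro K Λ _ _ _ hK ⟨r, d, a, b, r', d', π, hab, hs, hn⟩
    have hFK : Fac K K := ⟨K, inferInstance, inferInstance, inferInstance, hK,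
      Or.inl ⟨AlgEquiv.refl⟩⟩
    have hFH : ∀ i, Fac K ℍ[K,a i,b i] := fun i => ⟨K, inferInstance, inferInstance,
      inferInstance, hK, Or.inr (Or.inl ⟨a i, b i, (hab i).1, (hab i).2, ⟨AlgEquiv.refl⟩⟩)⟩
    let E : Fin r ⊕ Fin r' → Type := Sum.elim (fun i => ℍ[K,a i,b i]) (fun _ => K)
    let D : Fin r ⊕ Fin r' → ℕ := Sum.elim d d'
    let iR : ∀ s, Ring (E s) := fun s =>
      Sum.rec (fun i => (inferInstance : Ring ℍ[K,a i,b i])) (fun _ => (inferInstance : Ring K)) s
    let iA : ∀ s, Algebra K (E s) := fun s =>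
      Sum.rec (motive := fun s => @Algebra K (E s) _ (iR s).toSemiring)
        (fun i => (inferInstance : Algebra K ℍ[K,a i,b i]))
        (fun _ => (inferInstance : Algebra K K)) s
    let ρ : ∀ s, ((∀ i, Matrix (Fin (d i)) (Fin (d i)) ℍ[K,a i,b i]) ×
      (∀ i, Matrix (Fin (d' i)) (Fin (d' i)) K)) →ₐ[K] Matrix (Fin (D s)) (Fin (D s)) (E s) :=
      fun s => Sum.rec (motive := fun s => ((∀ i, Matrix (Fin (d i)) (Fin (d i)) ℍ[K,a i,b i]) ×
        (∀ i, Matrix (Fin (d' i)) (Fin (d' i)) K)) →ₐ[K] Matrix (Fin (D s)) (Fin (D s)) (E s))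
        (fun i => (Pi.evalAlgHom K (fun i => Matrix (Fin (d i)) (Fin (d i)) ℍ[K,a i,b i]) i).comp
          (AlgHom.fst K _ _))
        (fun i => (Pi.evalAlgHom K (fun i => Matrix (Fin (d' i)) (Fin (d' i)) K) i).comp
          (AlgHom.snd K _ _)) s
    have hρ1 : ∀ x i, ρ (Sum.inl i) x = x.1 i := fun x i => rfl
    have hρ2 : ∀ x i, ρ (Sum.inr i) x = x.2 i := fun x i => rfl
    refine CS1_fin (Fin r ⊕ Fin r') D E ((AlgHom.pi ρ).comp π) ?_ ?_ ?_
    · intro m
      obtain ⟨z, hz⟩ := hs (fun i => m (Sum.inl i), fun i => m (Sum.inr i))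
      refine ⟨z, ?_⟩
      funext s
      rcases s with i | i
      · show ρ (Sum.inl i) (π z) = m (Sum.inl i)
        rw [hρ1, hz]
      · show ρ (Sum.inr i) (π z) = m (Sum.inr i)
        rw [hρ2, hz]
    · refine CS1_nil _ _ hn (CS1_ker1 _ ?_)
      rw [injective_iff_map_eq_zero]
      intro x hx
      refine Prod.ext ?_ ?_
      · funext i
        exact congrFun hx (Sum.inl i)
      · funext i
        exact congrFun hx (Sum.inr i)
    · rintro (i | i)
      · exact hFH i
      · exact hFK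

end Pool.Agent.Q4
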