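import Pool.Agent.Helper67.Bass.HF
import Pool.Agent.QCT.Defs

/-!
# Nets of quadrics over a finite field

Three quadratic polynomials over a finite field of odd characteristic whose generic member has odd
rank at most seven: the function field of the plane is a rational function field over a field of
Kronecker dimension at most one, and if the rank is seven then the three forms have a common zero by
Chevalley and Warning, so that the generic member splits off a hyperbolic plane.
-/

set_option autoImplicit false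
set_option linter.style.haveILetI false

namespace Pool.Agent.Q4

open Pool.Agent.QCT Pool.Agent.Helper67.Bass MvPolynomial Function
open scoped IntermediateField.algebraAdjoinAdjoin

/-- transcendence degree at most one over the prime field of characteristic `p` -/
theorem CW7_of_trdeg (L : Type) [Field L] (p : ℕ) [hp : Fact p.Prime] [Algebra (ZMod p) L]
    (h : Algebra.trdeg (ZMod p) L ≤ 1) : KroneckerLeOne L := by
  right
  refine ⟨p, hp.out, ?_, fun x y => ?_⟩
  · have h1 := map_natCast (algebraMap (ZMod p) L) p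
    rw [CharP.cast_eq_zero, map_zero] at h1
    exact h1.symm
  · have h1 : ¬ AlgebraicIndependent (ZMod p) ![x, y] := by
      intro h2
      have h3 := h2.cardinalMk_le_trdeg.trans h
      rw [Cardinal.mk_fin] at h3
      exact absurd (Nat.cast_le_one.1 h3) (by norm_num)
    rw [algebraicIndependent_iff] at h1
    push Not at h1
    obtain ⟨P, hP, hP0⟩ := h1
    obtain ⟨F, rfl⟩ := MvPolynomial.map_surjective (Int.castRingHom (ZMod p))
      (ZMod.ringHom_surjective _) P
    refine ⟨F, fun h2 => hP0 ?_, ?_⟩
    · rw [MvPolynomial.C_dvd_iff_map_hom_eq_zero (Int.castRingHom (ZMod p)) (p : ℤ)] at h2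
      · exact h2
      · intro a
        rw [eq_intCast]
        exact ZMod.intCast_zmod_eq_zero_iff_dvd a p
    · rw [← hP, MvPolynomial.aeval_def, MvPolynomial.aeval_def, MvPolynomial.eval₂_map]
      congr 1
      exact RingHom.ext_int _ _

/-- a field generated by two elements over a finite field, of Kronecker dimension not at most one,
is a rational function field in one variable over a subfield of Kronecker dimension at most one -/
theorem CW7_ruled {k K : Type} [Field k] [Finite k] [Field K] (φ : k →+* K) (u v : K)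
    (hgen : ∀ z : K, ∃ a b : MvPolynomial (Fin 2) k, eval₂ φ ![u, v] b ≠ 0 ∧
      z * eval₂ φ ![u, v] b = eval₂ φ ![u, v] a) (hK : ¬ KroneckerLeOne K) :
    ∃ (F : Subfield K) (t : K), KroneckerLeOne F ∧ Transcendental F t ∧
      IntermediateField.adjoin F {t} = ⊤ := by
  obtain ⟨p, hpk⟩ := CharP.exists k
  haveI : Fact p.Prime := ⟨CharP.char_is_prime k p⟩
  letI : Algebra (ZMod p) k := ZMod.algebra k p
  haveI : CharP K p := charP_of_injective_ringHom φ.injective p
  letI : Algebra (ZMod p) K := ZMod.algebra K p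
  letI : Algebra (IntermediateField.adjoin (ZMod p) {u}) K := IntermediateField.toAlgebra _
  let E := IntermediateField.adjoin (ZMod p) ({u} : Set K)
  let A := algebraicClosure E K
  let F : Subfield K := A.toSubfield
  have hmem : ∀ z : K, z ∈ F ↔ IsAlgebraic E z := fun z => mem_algebraicClosure_iff
  have hφ : ∀ c : k, φ c ∈ F := by
    intro c
    rw [hmem]
    have h1 : IsAlgebraic (ZMod p) c := Algebra.IsAlgebraic.isAlgebraic c
    have h2 : IsAlgebraic (ZMod p) (φ c) := by
      obtain ⟨f, hf, hf0⟩ := h1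
      refine ⟨f, hf, ?_⟩
      have h3 : (Polynomial.aeval (φ c)) f = φ (Polynomial.aeval c f) := by
        rw [Polynomial.aeval_def, Polynomial.aeval_def, Polynomial.hom_eval₂]
        congr 1
        exact Subsingleton.elim _ _
      rw [h3, hf0, map_zero]
    exact h2.tower_top E
  have hu : u ∈ F := by
    rw [hmem]
    exact isAlgebraic_algebraMap (⟨u, IntermediateField.subset_adjoin _ _ rfl⟩ : E)
  have hE : ∀ z : K, z ∈ E → z ∈ F := by
    intro z hz
    rw [hmem]
    exact isAlgebraic_algebraMap (⟨z, hz⟩ : E)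
  have hFle : ∀ (G : Subfield K), (∀ c, φ c ∈ G) → u ∈ G → v ∈ G → ∀ z, z ∈ G := by
    intro G h1 h2 h3 z
    have h4 : ∀ a : MvPolynomial (Fin 2) k, eval₂ φ ![u, v] a ∈ G := by
      intro a
      induction a using MvPolynomial.induction_on with
      | C c => rw [eval₂_C]; exact h1 c
      | add a b ha hb => rw [eval₂_add]; exact add_mem ha hb
      | mul_X a i ha =>
        rw [eval₂_mul, eval₂_X]
        refine mul_mem ha ?_
        fin_cases i
        · exact h2
        · exact h3
    obtain ⟨a, b, hb, hab⟩ := hgen z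
    rw [(eq_div_iff hb).2 hab]
    exact div_mem (h4 a) (h4 b)
  have hKF : KroneckerLeOne F := by
    have h1 : Algebra.trdeg (ZMod p) (Algebra.adjoin (ZMod p) ({u} : Set K)) ≤ 1 := by
      have h2 := _root_.trdeg_le_of_surjective
        (Polynomial.aeval (⟨u, Algebra.self_mem_adjoin_singleton _ u⟩ :
          Algebra.adjoin (ZMod p) ({u} : Set K))) (by
            rintro ⟨z, hz⟩
            have hz' := hz
            rw [Algebra.adjoin_singleton_eq_range_aeval] at hz'
            obtain ⟨g, hg⟩ := hz'
            refine ⟨g, Subtype.ext (Eq.trans ?_ hg)⟩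
            exact (Polynomial.aeval_algHom_apply (Algebra.adjoin (ZMod p) ({u} : Set K)).val
              _ g).symm)
      rw [Polynomial.trdeg_of_isDomain] at h2
      exact h2
    have h2 : Algebra.trdeg (ZMod p) E ≤ 1 := by
      rw [← _root_.trdeg_add_eq (ZMod p) (Algebra.adjoin (ZMod p) ({u} : Set K)) (A := E),
        _root_.trdeg_eq_zero (R := Algebra.adjoin (ZMod p) ({u} : Set K)), add_zero]
      exact h1
    have h3 : Algebra.trdeg (ZMod p) A ≤ 1 := by
      rw [← _root_.trdeg_add_eq (ZMod p) E (A := A), _root_.trdeg_eq_zero (R := E), add_zero]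
      exact h2
    exact CW7_of_trdeg A p h3
  refine ⟨F, v, hKF, ?_, ?_⟩
  · intro h1
    have h2 : v ∈ F := by
      rw [hmem]
      have h3 : IsAlgebraic A v := h1
      exact h3.restrictScalars E
    have h3 := hFle F hφ hu h2
    apply hK
    exact KroneckerLeOne.of_hom (RingHom.codRestrict (RingHom.id K) F h3) hKF
  · rw [eq_top_iff]
    intro z _
    have h1 := hFle (IntermediateField.adjoin F {v}).toSubfield
      (fun c => (IntermediateField.adjoin F {v}).algebraMap_mem (⟨φ c, hφ c⟩ : F))
      ((IntermediateField.adjoin F {v}).algebraMap_mem (⟨u, hu⟩ : F))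
      (IntermediateField.subset_adjoin _ _ rfl) z
    exact h1

/-- an isotropic diagonal form splits off a hyperbolic plane -/
theorem CW7_split {K : Type} [Field K] (h2 : (2 : K) ≠ 0) {n : ℕ} (w : Fin n → K)
    (hw : ∀ i, w i ≠ 0) (y : Fin n → K) (hy : y ≠ 0) (h0 : ∑ i, w i * y i ^ 2 = 0) :
    ∃ (r : ℕ) (w' : Fin r → K) (l : (Fin n → K) →ₗ[K] K × K × (Fin r → K)), r + 2 = n ∧
      Surjective l ∧ (∀ i, w' i ≠ 0) ∧
      ∀ v, ∑ i, w i * v i ^ 2 = (l v).1 * (l v).2.1 + ∑ i, w' i * (l v).2.2 i ^ 2 := by
  classical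
  letI : Invertible (2 : K) := invertibleOfNonzero h2
  -- the bilinear form
  let B : LinearMap.BilinForm K (Fin n → K) := LinearMap.mk₂ K (fun v z => ∑ i, w i * v i * z i)
    (by intro a b c; rw [← Finset.sum_add_distrib]; exact Finset.sum_congr rfl fun i _ => by
          rw [Pi.add_apply]; ring)
    (by intro a b c; rw [smul_eq_mul, Finset.mul_sum]; exact Finset.sum_congr rfl fun i _ => by
          rw [Pi.smul_apply, smul_eq_mul]; ring)
    (by intro a b c; rw [← Finset.sum_add_distrib]; exact Finset.sum_congr rfl fun i _ => by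
          rw [Pi.add_apply]; ring)
    (by intro a b c; rw [smul_eq_mul, Finset.mul_sum]; exact Finset.sum_congr rfl fun i _ => by
          rw [Pi.smul_apply, smul_eq_mul]; ring)
  have hBd : ∀ v z, B v z = ∑ i, w i * v i * z i := fun v z => rfl
  have hBs : ∀ v z, B v z = B z v := by
    intro v z
    rw [hBd, hBd]
    exact Finset.sum_congr rfl fun i _ => by ring
  have hBQ : ∀ v, B v v = ∑ i, w i * v i ^ 2 := by
    intro v
    rw [hBd]
    exact Finset.sum_congr rfl fun i _ => by ring
  have hBi : ∀ v i, B v (Pi.single i 1) = w i * v i := by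
    intro v i
    rw [hBd, Finset.sum_eq_single i]
    · rw [Pi.single_eq_same, mul_one]
    · intro j _ hj
      rw [Pi.single_eq_of_ne hj, mul_zero]
    · intro h; exact absurd (Finset.mem_univ i) h
  obtain ⟨i0, hi0⟩ : ∃ i, y i ≠ 0 := by
    by_contra h
    push Not at h
    exact hy (funext h)
  have hyy : B y y = 0 := by rw [hBQ]; exact h0
  obtain ⟨f, hff, hyf⟩ : ∃ f, B f f = 0 ∧ B y f = 2⁻¹ := by
    have hc : B y (Pi.single i0 1) ≠ 0 := by
      rw [hBi]; exact mul_ne_zero (hw i0) hi0
    set g : Fin n → K := Pi.single i0 1 with hg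
    set c := B y g with hcdef
    refine ⟨(2 * c)⁻¹ • (g - (B g g / (2 * c)) • y), ?_, ?_⟩
    · have h1 : B (g - (B g g / (2 * c)) • y) (g - (B g g / (2 * c)) • y) = 0 := by
        have h3 : B g y = c := hBs g y
        simp only [map_sub, LinearMap.sub_apply, map_smul, LinearMap.smul_apply, smul_eq_mul, hyy,
          h3, ← hcdef, mul_zero, sub_zero]
        field_simp
        ring
      simp only [map_smul, LinearMap.smul_apply] at h1 ⊢
      rw [h1, smul_zero, smul_zero]
    · rw [map_smul, map_sub, map_smul, hyy, ← hcdef, smul_zero, sub_zero, smul_eq_mul, mul_inv,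
        mul_assoc, inv_mul_cancel₀ hc, mul_one]
  have hfy : B f y = 2⁻¹ := by rw [← hBs]; exact hyf
  -- the complement
  let W : Submodule K (Fin n → K) := LinearMap.ker (B y) ⊓ LinearMap.ker (B f)
  have hWm : ∀ v, v ∈ W ↔ B y v = 0 ∧ B f v = 0 := fun v => by
    rw [Submodule.mem_inf, LinearMap.mem_ker, LinearMap.mem_ker]
  let pr : (Fin n → K) →ₗ[K] (Fin n → K) :=
    LinearMap.id - (LinearMap.toSpanSingleton K _ y).comp ((2 : K) • B f) -
      (LinearMap.toSpanSingleton K _ f).comp ((2 : K) • B y)
  have hpr : ∀ v, pr v = v - (2 * B f v) • y - (2 * B y v) • f := fun v => rfl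
  have hprW : ∀ v, pr v ∈ W := by
    intro v
    rw [hWm, hpr]
    constructor
    · rw [map_sub, map_sub, map_smul, map_smul, hyy, hyf, smul_zero, sub_zero, smul_eq_mul]
      field_simp
      ring
    · rw [map_sub, map_sub, map_smul, map_smul, hff, hfy, smul_zero, sub_zero, smul_eq_mul]
      field_simp
      ring
  let L : (Fin n → K) ≃ₗ[K] K × K × W :=
    { toFun := fun v => (2 * B f v, 2 * B y v, ⟨pr v, hprW v⟩)
      map_add' := by
        intro a b
        refine Prod.ext ?_ (Prod.ext ?_ (Subtype.ext ?_))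
        · simp only [Prod.fst_add, map_add]; ring
        · simp only [Prod.snd_add, Prod.fst_add, map_add]; ring
        · simp only [map_add]; rfl
      map_smul' := by
        intro a b
        refine Prod.ext ?_ (Prod.ext ?_ (Subtype.ext ?_))
        · simp only [map_smul, smul_eq_mul, RingHom.id_apply, Prod.smul_mk]; ring
        · simp only [map_smul, smul_eq_mul, RingHom.id_apply, Prod.smul_mk]; ring
        · simp only [map_smul]; rfl
      invFun := fun z => z.1 • y + z.2.1 • f + (z.2.2 : Fin n → K)
      left_inv := by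
        intro v
        change (2 * B f v) • y + (2 * B y v) • f + pr v = v
        rw [hpr]
        abel
      right_inv := by
        rintro ⟨a, b, v, hv⟩
        have hv' := (hWm v).1 hv
        have e1 : B f (a • y + b • f + v) = a * 2⁻¹ := by
          rw [map_add, map_add, map_smul, map_smul, hfy, hff, hv'.2, smul_zero, add_zero, add_zero,
            smul_eq_mul]
        have e2 : B y (a • y + b • f + v) = b * 2⁻¹ := by
          rw [map_add, map_add, map_smul, map_smul, hyy, hyf, hv'.1, smul_zero, zero_add, add_zero,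
            smul_eq_mul]
        refine Prod.ext ?_ (Prod.ext ?_ (Subtype.ext ?_))
        · change 2 * B f (a • y + b • f + v) = a
          rw [e1]; field_simp
        · change 2 * B y (a • y + b • f + v) = b
          rw [e2]; field_simp
        · change pr (a • y + b • f + v) = v
          rw [hpr, e1, e2]
          have e3 : 2 * (a * 2⁻¹) = a := by field_simp
          have e4 : 2 * (b * 2⁻¹) = b := by field_simp
          rw [e3, e4]
          abel }
  have hfin : Module.finrank K W + 2 = n := by
    have h1 := L.finrank_eq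
    rw [Module.finrank_prod, Module.finrank_prod, Module.finrank_self, Module.finrank_fin_fun] at h1
    omega
  -- the form on the complement
  let Q : QuadraticForm K (Fin n → K) := LinearMap.BilinMap.toQuadraticMap B
  have hQ : ∀ v, Q v = B v v := fun v => rfl
  let QW : QuadraticForm K W := Q.comp W.subtype
  have hQW : ∀ v : W, QW v = B v v := fun v => rfl
  have hass : ∀ a b : W, QuadraticMap.associated (R := K) QW a b = B a b := by
    intro a b
    have h1 : QuadraticMap.polar QW a b = 2 * B a b := by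
      unfold QuadraticMap.polar
      rw [hQW, hQW, hQW, Submodule.coe_add]
      simp only [map_add, LinearMap.add_apply, hBs (b : Fin n → K) a]
      ring
    have h3 := QuadraticMap.two_nsmul_associated K QW
    have h4 := LinearMap.congr_fun (LinearMap.congr_fun h3 a) b
    have h5 : (2 : K) * QuadraticMap.associated (R := K) QW a b = QuadraticMap.polar QW a b := by
      have h6 : (2 : ℕ) • (QuadraticMap.associated (R := K) QW a b) = QuadraticMap.polar QW a b := h4
      rw [← h6, two_nsmul, two_mul]
    rw [h1] at h5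
    exact mul_left_cancel₀ h2 h5
  have hnd : (QuadraticMap.associated (R := K) QW).SeparatingLeft := by
    intro a ha
    have h1 : ∀ v, B a v = 0 := by
      intro v
      have h3 := L.symm_apply_apply v
      have h4 : v = (L v).1 • y + (L v).2.1 • f + ((L v).2.2 : Fin n → K) := h3.symm
      have h5 := (hWm a).1 a.2
      rw [h4, map_add, map_add, map_smul, map_smul, hBs _ y, hBs _ f, h5.1, h5.2, smul_zero,
        smul_zero, zero_add, zero_add]
      have h6 := ha (L v).2.2
      rwa [hass] at h6
    apply Subtype.ext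
    funext i
    have h3 := h1 (Pi.single i 1)
    rw [hBi] at h3
    exact (mul_eq_zero.1 h3).resolve_left (hw i)
  obtain ⟨w', ⟨e⟩⟩ := QuadraticForm.equivalent_weightedSumSquares_units_of_nondegenerate' QW hnd
  refine ⟨Module.finrank K W, fun i => (w' i : K),
    (LinearMap.prodMap LinearMap.id (LinearMap.prodMap LinearMap.id
      e.toLinearEquiv.toLinearMap)).comp (L : (Fin n → K) →ₗ[K] K × K × W), hfin, ?_,
    fun i => (w' i).ne_zero, ?_⟩
  · rintro ⟨a, b, c⟩
    obtain ⟨c', rfl⟩ := e.toLinearEquiv.surjective c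
    obtain ⟨v, hv⟩ := L.surjective (a, b, c')
    refine ⟨v, ?_⟩
    rw [LinearMap.comp_apply]
    change (LinearMap.prodMap LinearMap.id (LinearMap.prodMap LinearMap.id
      e.toLinearEquiv.toLinearMap)) (L v) = _
    rw [hv]
    rfl
  · intro v
    change _ = (L v).1 * (L v).2.1 + ∑ i, (w' i : K) * (e (L v).2.2) i ^ 2
    have h3 := e.map_app (L v).2.2
    rw [QuadraticMap.weightedSumSquares_apply] at h3
    have h4 : ∑ i, (w' i : K) * (e (L v).2.2) i ^ 2 = QW (L v).2.2 := by
      rw [← h3]
      exact Finset.sum_congr rfl fun i _ => by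
        rw [Units.smul_def, smul_eq_mul, pow_two]
    rw [h4, ← hBQ, hQW]
    have h5 := L.symm_apply_apply v
    have h6 : v = (L v).1 • y + (L v).2.1 • f + ((L v).2.2 : Fin n → K) := h5.symm
    have h7 := (hWm _).1 (L v).2.2.2
    set a := (L v).1
    set b := (L v).2.1
    set c : Fin n → K := ((L v).2.2 : Fin n → K)
    have h8 : B v v = B (a • y + b • f + c) (a • y + b • f + c) := by rw [← h6]
    rw [h8]
    simp only [map_add, LinearMap.add_apply, map_smul, LinearMap.smul_apply, smul_eq_mul, hyy, hff,
      hyf, hfy, h7.1, h7.2, hBs c y, hBs c f]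
    field_simp
    ring

/-- the quadratic form of a polynomial of degree at most two, as a sum -/
theorem CW7_hform_apply {K : Type} [Field K] {n : ℕ} (f : MvPolynomial (Fin n) K)
    (v : Fin (n + 1) → K) :
    hform f v = ∑ i, ∑ j, if i ≤ j then f.coeff (expo n i + expo n j) * (v i * v j) else 0 := by
  unfold hform
  rw [sum_apply]
  refine Finset.sum_congr rfl fun i _ => ?_
  rw [sum_apply]
  refine Finset.sum_congr rfl fun j _ => ?_
  split_ifs
  · rfl
  · rfl

theorem CW7_hform_member {k K : Type} [Field k] [Field K] (φ : k →+* K) {n r : ℕ}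
    (f : Fin r → MvPolynomial (Fin n) k) (x : Fin r → K) (v : Fin (n + 1) → k) :
    hform (∑ l, C (x l) * MvPolynomial.map φ (f l)) (fun i => φ (v i)) =
      ∑ l, x l * φ (hform (f l) v) := by
  let G : Fin r → Fin (n + 1) → Fin (n + 1) → K := fun l i j =>
    if i ≤ j then x l * φ ((f l).coeff (expo n i + expo n j)) * (φ (v i) * φ (v j)) else 0
  have h1 : ∀ l, x l * φ (hform (f l) v) = ∑ i, ∑ j, G l i j := by
    intro l
    rw [CW7_hform_apply, map_sum, Finset.mul_sum]
    refine Finset.sum_congr rfl fun i _ => ?_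
    rw [map_sum, Finset.mul_sum]
    refine Finset.sum_congr rfl fun j _ => ?_
    change _ = if i ≤ j then x l * φ ((f l).coeff (expo n i + expo n j)) * (φ (v i) * φ (v j))
      else 0
    split_ifs
    · rw [map_mul, map_mul, mul_assoc]
    · rw [map_zero, mul_zero]
  have h3 : ∀ i j, (if i ≤ j then (∑ l, C (x l) * MvPolynomial.map φ (f l)).coeff
      (expo n i + expo n j) * (φ (v i) * φ (v j)) else 0) = ∑ l, G l i j := by
    intro i j
    have h4 : ∀ l, G l i j = if i ≤ j then x l * φ ((f l).coeff (expo n i + expo n j)) *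
      (φ (v i) * φ (v j)) else 0 := fun l => rfl
    simp only [h4]
    split_ifs
    · rw [coeff_sum, Finset.sum_mul]
      refine Finset.sum_congr rfl fun l _ => ?_
      rw [coeff_C_mul, coeff_map]
    · rw [Finset.sum_const_zero]
  rw [CW7_hform_apply]
  simp only [h1, h3]
  calc ∑ i, ∑ j, ∑ l, G l i j = ∑ i, ∑ l, ∑ j, G l i j :=
        Finset.sum_congr rfl fun i _ => Finset.sum_comm
    _ = ∑ l, ∑ i, ∑ j, G l i j := Finset.sum_comm

theorem CW7_card {α : Type} (i : Fintype α) {p : ℕ} (h : Nat.card α = 1)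
    (h1 : p ∣ @Fintype.card α i) : p ∣ 1 := by
  rw [← Nat.card_eq_fintype_card, h] at h1
  exact h1

/-- three polynomials of degree at most two in seven variables with zero at the origin over a finite
field have a common nonzero zero -/
theorem CW7_CW {k : Type} [Field k] [Finite k] (P : Fin 3 → MvPolynomial (Fin 7) k)
    (hP : ∀ l, (P l).totalDegree ≤ 2) (h0 : ∀ l, eval 0 (P l) = 0) :
    ∃ c : Fin 7 → k, c ≠ 0 ∧ ∀ l, eval c (P l) = 0 := by
  classical
  obtain ⟨p, hpk⟩ := CharP.exists k
  haveI : Fact p.Prime := ⟨CharP.char_is_prime k p⟩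
  haveI := Fintype.ofFinite k
  have h1 := char_dvd_card_solutions_of_fintype_sum_lt (K := k) p (f := P) (by
    rw [Fintype.card_fin, Fin.sum_univ_three]
    have := hP 0
    have := hP 1
    have := hP 2
    omega)
  by_contra h
  push Not at h
  have h2 : Nat.card { x : Fin 7 → k // ∀ i, eval x (P i) = 0 } = 1 := by
    rw [Nat.card_eq_one_iff_unique]
    refine ⟨⟨fun y z => ?_⟩, ⟨⟨0, h0⟩⟩⟩
    have h4 : ∀ y : { x : Fin 7 → k // ∀ i, eval x (P i) = 0 }, y.1 = 0 := by
      intro y
      by_contra h3
      obtain ⟨l, hl⟩ := h y.1 h3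
      exact hl (y.2 l)
    exact Subtype.ext ((h4 y).trans (h4 z).symm)
  exact (Fact.out : p.Prime).one_lt.ne' (Nat.dvd_one.1 (CW7_card _ h2 h1))

/-- a common nonzero zero of three quadratic forms on a space of dimension seven -/
theorem CW7_zero {k : Type} [Field k] [Finite k] {n : ℕ} (f : Fin 3 → MvPolynomial (Fin n) k)
    (j : Fin 7 → Fin (n + 1)) :
    ∃ c : Fin 7 → k, c ≠ 0 ∧ ∀ l, hform (f l) (∑ i, c i • Pi.single (j i) 1) = 0 := by
  classical
  let Y : Fin (n + 1) → MvPolynomial (Fin 7) k := fun a => ∑ i, if a = j i then X i else 0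
  have hY : ∀ a, (Y a).totalDegree ≤ 1 := by
    intro a
    refine (totalDegree_finsetSum _ _).trans (Finset.sup_le fun i _ => ?_)
    split_ifs
    · exact (totalDegree_X i).le
    · rw [totalDegree_zero]; exact Nat.zero_le _
  have hYe : ∀ (c : Fin 7 → k) a, eval c (Y a) =
      (∑ i, c i • (Pi.single (j i) 1 : Fin (n + 1) → k)) a := by
    intro c a
    rw [Finset.sum_apply, map_sum]
    refine Finset.sum_congr rfl fun i _ => ?_
    rw [Pi.smul_apply, smul_eq_mul]
    split_ifs with h
    · rw [eval_X, h, Pi.single_eq_same, mul_one]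
    · rw [map_zero, Pi.single_eq_of_ne h, mul_zero]
  let P : Fin 3 → MvPolynomial (Fin 7) k := fun l =>
    ∑ a, ∑ b, if a ≤ b then C ((f l).coeff (expo n a + expo n b)) * (Y a * Y b) else 0
  have hP : ∀ (c : Fin 7 → k) l, eval c (P l) =
      hform (f l) (∑ i, c i • Pi.single (j i) 1) := by
    intro c l
    rw [CW7_hform_apply, map_sum]
    refine Finset.sum_congr rfl fun a _ => ?_
    rw [map_sum]
    refine Finset.sum_congr rfl fun b _ => ?_
    split_ifs
    · rw [map_mul, map_mul, eval_C, hYe, hYe]
    · rw [map_zero]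
  obtain ⟨c, hc, h⟩ := CW7_CW P (by
    intro l
    refine (totalDegree_finsetSum _ _).trans (Finset.sup_le fun a _ => ?_)
    refine (totalDegree_finsetSum _ _).trans (Finset.sup_le fun b _ => ?_)
    split_ifs
    · refine (totalDegree_mul _ _).trans ?_
      have h1 := totalDegree_mul (Y a) (Y b)
      have h2 := hY a
      have h3 := hY b
      rw [totalDegree_C]
      omega
    · rw [totalDegree_zero]; exact Nat.zero_le _) (by
    intro l
    rw [hP]
    have h1 : (∑ i, (0 : Fin 7 → k) i • (Pi.single (j i) 1 : Fin (n + 1) → k)) = 0 :=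
      Finset.sum_eq_zero fun i _ => by rw [Pi.zero_apply, zero_smul]
    rw [h1]
    exact QuadraticMap.map_zero _)
  exact ⟨c, hc, fun l => by rw [← hP]; exact h l⟩

/-- the residue field of a point of the projective plane over a finite field -/
theorem CW7_point {k K : Type} [Field k] [Finite k] [Field K] (φ : k →+* K) (x : Fin 3 → K)
    (l : Fin 3) (hl : x l = 1)
    (hgen : ∀ z : K, ∃ a b : MvPolynomial (Fin 3) k, eval₂ φ x b ≠ 0 ∧
      z * eval₂ φ x b = eval₂ φ x a) (hK : ¬ KroneckerLeOne K) :
    ∃ (F : Subfield K) (t : K), KroneckerLeOne F ∧ Transcendental F t ∧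
      IntermediateField.adjoin F {t} = ⊤ := by
  obtain ⟨i, j, hij⟩ : ∃ i j : Fin 3, ∀ m, m = l ∨ m = i ∨ m = j := by
    fin_cases l
    · exact ⟨1, 2, by decide⟩
    · exact ⟨0, 2, by decide⟩
    · exact ⟨0, 1, by decide⟩
  have h1 : ∀ a : MvPolynomial (Fin 3) k, ∃ b : MvPolynomial (Fin 2) k,
      eval₂ φ ![x i, x j] b = eval₂ φ x a := by
    intro a
    induction a using MvPolynomial.induction_on with
    | C c => exact ⟨C c, by rw [eval₂_C, eval₂_C]⟩
    | add a b ha hb =>
      obtain ⟨a', ha'⟩ := ha
      obtain ⟨b', hb'⟩ := hb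
      exact ⟨a' + b', by rw [eval₂_add, eval₂_add, ha', hb']⟩
    | mul_X a m ha =>
      obtain ⟨a', ha'⟩ := ha
      rcases hij m with rfl | rfl | rfl
      · exact ⟨a', by rw [eval₂_mul, eval₂_X, ha', hl, mul_one]⟩
      · exact ⟨a' * X 0, by rw [eval₂_mul, eval₂_X, eval₂_mul, eval₂_X, ha']; rfl⟩
      · exact ⟨a' * X 1, by rw [eval₂_mul, eval₂_X, eval₂_mul, eval₂_X, ha']; rfl⟩
  refine CW7_ruled φ (x i) (x j) (fun z => ?_) hK
  obtain ⟨a, b, hb, hab⟩ := hgen z
  obtain ⟨a', ha'⟩ := h1 a
  obtain ⟨b', hb'⟩ := h1 b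
  exact ⟨a', b', by rw [hb']; exact hb, by rw [ha', hb']; exact hab⟩

/-- the generic member of odd rank at most seven -/
theorem CW7_form {k K : Type} [Field k] [Finite k] [Field K] (φ : k →+* K) (h2 : (2 : K) ≠ 0)
    {n : ℕ} (f : Fin 3 → MvPolynomial (Fin n) k) (x : Fin 3 → K) (r : ℕ) (hr : Odd r)
    (hr7 : r ≤ 7) (w : Fin r → K) (hw : ∀ i, w i ≠ 0)
    (l : (Fin (n + 1) → K) →ₗ[K] (Fin r → K)) (hl : Surjective l)
    (hQ : ∀ v, hform (∑ i, C (x i) * MvPolynomial.map φ (f i)) v = ∑ i, w i * l v i ^ 2) :
    ∃ (s r : ℕ) (w : Fin r → K)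
      (l : (Fin (n + 1) → K) →ₗ[K] (Fin s → K) × (Fin s → K) × (Fin r → K)),
      Surjective l ∧ (∀ i, w i ≠ 0) ∧
      (∀ v, hform (∑ i, C (x i) * MvPolynomial.map φ (f i)) v =
        ∑ j, (l v).1 j * (l v).2.1 j + ∑ i, w i * (l v).2.2 i ^ 2) ∧ r ≤ 6 ∧ Odd r := by
  classical
  by_cases h7 : r = 7
  · subst h7
    -- coordinates on which the form is nondegenerate
    let S : Set (Fin 7 → K) := Set.range fun a : Fin (n + 1) => l (Pi.single a 1)
    have hS : Submodule.span K S = ⊤ := by
      rw [eq_top_iff]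
      intro z _
      obtain ⟨v, rfl⟩ := hl z
      have h1 : v = ∑ a, v a • (Pi.single a 1 : Fin (n + 1) → K) := by
        funext b
        rw [Finset.sum_apply, Finset.sum_eq_single b]
        · rw [Pi.smul_apply, Pi.single_eq_same, smul_eq_mul, mul_one]
        · intro a _ hab
          rw [Pi.smul_apply, Pi.single_eq_of_ne hab.symm, smul_zero]
        · intro h; exact absurd (Finset.mem_univ b) h
      rw [h1, map_sum]
      refine Submodule.sum_mem _ fun a _ => ?_
      rw [map_smul]
      exact Submodule.smul_mem _ _ (Submodule.subset_span ⟨a, rfl⟩)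
    obtain ⟨g, hg, _, hgi⟩ := Submodule.exists_fun_fin_finrank_span_eq K S
    have hfin : Module.finrank K (Submodule.span K S) = 7 := by
      rw [hS, finrank_top, Module.finrank_fin_fun]
    obtain ⟨g', hg', hgi'⟩ : ∃ g' : Fin 7 → (Fin 7 → K), (∀ i, g' i ∈ S) ∧
        LinearIndependent K g' := by
      refine ⟨fun i => g (Fin.cast hfin.symm i), fun i => hg _, ?_⟩
      exact hgi.comp _ (Fin.cast_injective _)
    choose j hj using hg'
    obtain ⟨c, hc, hc0⟩ := CW7_zero f j
    set v : Fin (n + 1) → k := ∑ i, c i • (Pi.single (j i) 1 : Fin (n + 1) → k) with hv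
    have hv1 : (fun a => φ (v a)) = ∑ i, φ (c i) • (Pi.single (j i) 1 : Fin (n + 1) → K) := by
      funext a
      rw [hv, Finset.sum_apply, Finset.sum_apply, map_sum]
      refine Finset.sum_congr rfl fun i _ => ?_
      rw [Pi.smul_apply, Pi.smul_apply, smul_eq_mul, smul_eq_mul, map_mul]
      congr 1
      by_cases h : a = j i
      · rw [h, Pi.single_eq_same, Pi.single_eq_same, map_one]
      · rw [Pi.single_eq_of_ne h, Pi.single_eq_of_ne h, map_zero]
    set y : Fin 7 → K := l (fun a => φ (v a)) with hy
    have hyg : y = ∑ i, φ (c i) • g' i := by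
      rw [hy, hv1, map_sum]
      refine Finset.sum_congr rfl fun i _ => ?_
      rw [map_smul]
      exact congrArg (fun z => φ (c i) • z) (hj i)
    have hy0 : y ≠ 0 := by
      intro h
      rw [hyg] at h
      have h1 := Fintype.linearIndependent_iff.1 hgi' (fun i => φ (c i)) h
      apply hc
      funext i
      exact φ.injective ((h1 i).trans (map_zero φ).symm)
    have hyQ : ∑ i, w i * y i ^ 2 = 0 := by
      rw [hy, ← hQ, CW7_hform_member]
      refine Finset.sum_eq_zero fun i _ => ?_
      rw [hv, hc0, map_zero, mul_zero]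
    obtain ⟨r, w', L, hr7', hLs, hw', hL⟩ := CW7_split h2 w hw y hy0 hyQ
    let ι : K →ₗ[K] (Fin 1 → K) := LinearMap.pi fun _ => LinearMap.id
    have hι : Surjective ι := fun z => ⟨z 0, funext fun i => by
      rw [Subsingleton.elim i 0]; rfl⟩
    refine ⟨1, r, w', (LinearMap.prodMap ι (LinearMap.prodMap ι LinearMap.id)).comp (L.comp l),
      ?_, hw', ?_, by omega, ?_⟩
    · rintro ⟨a, b, z⟩
      obtain ⟨a', rfl⟩ := hι a
      obtain ⟨b', rfl⟩ := hι b
      obtain ⟨u, hu⟩ := hLs (a', b', z)
      obtain ⟨u', rfl⟩ := hl u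
      refine ⟨u', ?_⟩
      rw [LinearMap.comp_apply, LinearMap.comp_apply, hu]
      rfl
    · intro u
      rw [hQ, hL, Fin.sum_univ_one]
      rfl
    · obtain rfl : r = 5 := by omega
      decide
  · have hr6 : r ≤ 6 := by omega
    refine ⟨0, r, w, LinearMap.prod 0 (LinearMap.prod 0 l), ?_, hw, ?_, hr6, hr⟩
    · rintro ⟨a, b, z⟩
      obtain ⟨u, rfl⟩ := hl z
      exact ⟨u, Prod.ext (Subsingleton.elim _ _) (Prod.ext (Subsingleton.elim _ _) rfl)⟩
    · intro v
      rw [hQ, Fin.sum_univ_zero, zero_add]
      rfl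

end Pool.Agent.Q4
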