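import Pool.Agent.Q4.StA

set_option autoImplicit false

namespace Pool.Agent.Q4

open Function Polynomial

theorem CWK_core (h : St_CWS) (k : Type) [Field k] [Finite k] (L : Type) [Field L]
    [Algebra (FractionRing k[X][X]) L] [FiniteDimensional (FractionRing k[X][X]) L]
    (n : ℕ) (q : Fin n → L) (hn : 8 < n) :
    ∃ y : Fin n → L, y ≠ 0 ∧ ∑ i, q i * y i ^ 2 = 0 := by
  classical
  set F := FractionRing k[X][X] with hF
  let m := Module.finrank F L
  have hm : 0 < m := Module.finrank_pos
  let b : Module.Basis (Fin m) F L := Module.finBasis F L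
  obtain ⟨d, hd⟩ := IsLocalization.exist_integer_multiples_of_finite (nonZeroDivisors k[X][X])
    (fun x : Fin m × Fin n × Fin m × Fin m => b.repr (q x.2.1 * b x.2.2.1 * b x.2.2.2) x.1)
  choose c hc using hd
  let e : Fin n × Fin m ≃ Fin (n * m) := finProdFinEquiv
  obtain ⟨x, hx0, hx⟩ := h k m (n * m) (by nlinarith)
    (fun l I J => if (e.symm I).1 = (e.symm J).1 then
      c (l, (e.symm I).1, (e.symm I).2, (e.symm J).2) else 0)
  let z : Fin n → Fin m → F := fun i s => algebraMap k[X][X] F (x (e (i, s)))
  let y : Fin n → L := fun i => ∑ s, z i s • b s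
  refine ⟨y, ?_, ?_⟩
  · intro hy
    apply hx0
    funext I
    have h1 : ∑ s, z (e.symm I).1 s • b s = 0 := congrFun hy (e.symm I).1
    have h2 := (Fintype.linearIndependent_iff.mp b.linearIndependent) _ h1 (e.symm I).2
    have h3 : z (e.symm I).1 (e.symm I).2 = algebraMap k[X][X] F (x I) := by
      simp only [z, Prod.mk.eta, Equiv.apply_symm_apply]
    rw [h3] at h2
    exact (IsFractionRing.injective k[X][X] F) (by rw [h2, Pi.zero_apply, map_zero])
  · have key : ∀ l, b.repr ((algebraMap k[X][X] F (d : k[X][X])) • ∑ i, q i * y i ^ 2) l = 0 := by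
      intro l
      have e1 : ∑ i, q i * y i ^ 2
          = ∑ i, ∑ s, ∑ t, (z i s * z i t) • (q i * b s * b t) := by
        refine Finset.sum_congr rfl fun i _ => ?_
        rw [pow_two, Finset.sum_mul_sum, Finset.mul_sum]
        refine Finset.sum_congr rfl fun s _ => ?_
        rw [Finset.mul_sum]
        refine Finset.sum_congr rfl fun t _ => ?_
        rw [Algebra.smul_def, Algebra.smul_def, Algebra.smul_def, map_mul]
        ring
      have e2 : ∑ I, ∑ J, (if (e.symm I).1 = (e.symm J).1 then
          c (l, (e.symm I).1, (e.symm I).2, (e.symm J).2) else 0) * x I * x J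
          = ∑ i, ∑ s, ∑ t, c (l, i, s, t) * x (e (i, s)) * x (e (i, t)) := by
        rw [← e.sum_comp, Fintype.sum_prod_type]
        refine Finset.sum_congr rfl fun i _ => ?_
        refine Finset.sum_congr rfl fun s _ => ?_
        rw [← e.sum_comp, Fintype.sum_prod_type]
        simp only [Equiv.symm_apply_apply]
        rw [Finset.sum_eq_single i]
        · simp
        · intro j _ hj
          simp [Ne.symm hj]
        · simp
      have e3 := hx l
      rw [e2] at e3
      have e4 := congrArg (algebraMap k[X][X] F) e3
      rw [map_zero] at e4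
      rw [← e4, e1]
      simp only [map_sum, map_mul, map_smul, Finsupp.coe_smul, Finsupp.coe_finsetSum,
        Finset.sum_apply, Pi.smul_apply, smul_eq_mul, Finset.mul_sum]
      refine Finset.sum_congr rfl fun i _ => Finset.sum_congr rfl fun s _ =>
        Finset.sum_congr rfl fun t _ => ?_
      have h5 := hc (l, i, s, t)
      simp only [Algebra.smul_def] at h5
      rw [h5]
      simp only [z]
      ring
    have h6 : (algebraMap k[X][X] F (d : k[X][X])) • ∑ i, q i * y i ^ 2 = 0 := by
      apply b.repr.injective
      rw [map_zero]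
      ext l
      exact key l
    rcases smul_eq_zero.mp h6 with h7 | h7
    · exfalso
      exact nonZeroDivisors.ne_zero d.2 ((IsFractionRing.injective k[X][X] F) (by rw [h7, map_zero]))
    · exact h7

theorem thm_CWK (h : St_CWS) : St_CWK := by
  intro k _ _ K _ _ hinj halg n q hn
  classical
  have : FaithfulSMul k[X][X] K := (faithfulSMul_iff_algebraMap_injective k[X][X] K).mpr hinj
  let _ : Algebra (FractionRing k[X][X]) K := FractionRing.liftAlgebra k[X][X] K
  have : IsScalarTower k[X][X] (FractionRing k[X][X]) K :=
    FractionRing.isScalarTower_liftAlgebra k[X][X] K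
  have : Algebra.IsAlgebraic (FractionRing k[X][X]) K :=
    (IsFractionRing.comap_isAlgebraic_iff (A := k[X][X]) (K := FractionRing k[X][X])).mp halg
  let L := IntermediateField.adjoin (FractionRing k[X][X]) (Set.range q)
  have : FiniteDimensional (FractionRing k[X][X]) L :=
    IntermediateField.finiteDimensional_adjoin fun x _ =>
      (Algebra.IsAlgebraic.isAlgebraic x).isIntegral
  obtain ⟨y, hy0, hy⟩ := CWK_core h k L n
    (fun i => ⟨q i, IntermediateField.subset_adjoin _ _ ⟨i, rfl⟩⟩) hn
  refine ⟨fun i => (y i : K), ?_, ?_⟩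
  · intro h0
    apply hy0
    funext i
    exact Subtype.ext (congrFun h0 i)
  · have h1 := congrArg (fun t : L => (t : K)) hy
    simpa using h1

end Pool.Agent.Q4
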