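import Pool.Agent.Q4.StA

/-!
# Q4, module CWS: systems of quadratic forms over `k[X, Y]`, `k` a finite field
-/

set_option autoImplicit false

namespace Pool.Agent.Q4

open Polynomial

private theorem CWS_card (T : Type) (i : Fintype T) : @Fintype.card T i = Nat.card T :=
  (@Nat.card_eq_fintype_card T i).symm

/-- Chevalley-Warning for quadratic forms -/
private theorem CWS_forms {k : Type} [Field k] [Finite k] {σ τ : Type} [Fintype σ] [Fintype τ]
    (q : τ → σ → σ → k) (h : 2 * Fintype.card τ < Fintype.card σ) :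
    ∃ z : σ → k, z ≠ 0 ∧ ∀ t, ∑ a, ∑ b, q t a b * z a * z b = 0 := by
  classical
  let _ : Fintype k := Fintype.ofFinite k
  obtain ⟨p, hp⟩ := CharP.exists k
  have hpp : p.Prime := CharP.char_is_prime k p
  let F : τ → MvPolynomial σ k := fun t =>
    ∑ a, ∑ b, MvPolynomial.C (q t a b) * MvPolynomial.X a * MvPolynomial.X b
  have hF : ∀ t, (F t).totalDegree ≤ 2 := by
    intro t
    refine MvPolynomial.totalDegree_finsetSum_le fun a _ =>
      MvPolynomial.totalDegree_finsetSum_le fun b _ => ?_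
    refine (MvPolynomial.totalDegree_mul _ _).trans ?_
    refine (add_le_add_left (MvPolynomial.totalDegree_mul _ _) _).trans ?_
    rw [MvPolynomial.totalDegree_C, MvPolynomial.totalDegree_X, MvPolynomial.totalDegree_X]
  have hev : ∀ t z, MvPolynomial.eval z (F t) = ∑ a, ∑ b, q t a b * z a * z b := by
    intro t z
    simp only [F, map_sum, map_mul, MvPolynomial.eval_C, MvPolynomial.eval_X]
  have hsum : ∑ t ∈ (Finset.univ : Finset τ), (F t).totalDegree < Fintype.card σ := by
    refine lt_of_le_of_lt (Finset.sum_le_card_nsmul _ _ 2 fun t _ => hF t) ?_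
    rw [Finset.card_univ, smul_eq_mul]
    omega
  have hdvd := char_dvd_card_solutions_of_sum_lt p (K := k) (f := F) hsum
  have hsol0 : ∀ t ∈ (Finset.univ : Finset τ), MvPolynomial.eval (0 : σ → k) (F t) = 0 := by
    intro t _
    rw [hev]
    simp
  have hdvd' : p ∣ Nat.card {x : σ → k // ∀ i ∈ (Finset.univ : Finset τ),
      MvPolynomial.eval x (F i) = 0} := hdvd.trans (dvd_of_eq (CWS_card _ _))
  have hcard : 1 < Nat.card {x : σ → k // ∀ i ∈ (Finset.univ : Finset τ),
      MvPolynomial.eval x (F i) = 0} := by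
    have h0 : Nonempty {x : σ → k // ∀ i ∈ (Finset.univ : Finset τ),
      MvPolynomial.eval x (F i) = 0} := ⟨⟨0, hsol0⟩⟩
    exact hpp.one_lt.trans_le (Nat.le_of_dvd Nat.card_pos hdvd')
  have hnt := Finite.one_lt_card_iff_nontrivial.1 hcard
  obtain ⟨⟨x, hx⟩, hne⟩ := exists_ne (⟨0, hsol0⟩ : {x : σ → k //
    ∀ i ∈ (Finset.univ : Finset τ), MvPolynomial.eval x (F i) = 0})
  refine ⟨x, fun h => hne (Subtype.ext h), fun t => ?_⟩
  rw [← hev]
  exact hx t (Finset.mem_univ t)

section

variable {k : Type} [Field k]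

/-- both degrees are at most `m` -/
private def CWS_BD (m : ℕ) (P : k[X][X]) : Prop :=
  P.natDegree ≤ m ∧ ∀ n, (P.coeff n).natDegree ≤ m

private theorem CWS_BD_mono {m m' : ℕ} {P : k[X][X]} (h : CWS_BD m P) (hm : m ≤ m') :
    CWS_BD m' P := ⟨h.1.trans hm, fun n => (h.2 n).trans hm⟩

private theorem CWS_BD_mul {m m' : ℕ} {P Q : k[X][X]} (hP : CWS_BD m P) (hQ : CWS_BD m' Q) :
    CWS_BD (m + m') (P * Q) := by
  refine ⟨natDegree_mul_le.trans (add_le_add hP.1 hQ.1), fun n => ?_⟩
  rw [coeff_mul]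
  refine natDegree_sum_le_of_forall_le _ _ fun x _ => ?_
  exact natDegree_mul_le.trans (add_le_add (hP.2 _) (hQ.2 _))

private theorem CWS_BD_sum {ι : Type} (s : Finset ι) {m : ℕ} {f : ι → k[X][X]}
    (hf : ∀ i ∈ s, CWS_BD m (f i)) : CWS_BD m (∑ i ∈ s, f i) := by
  refine ⟨natDegree_sum_le_of_forall_le _ _ fun i hi => (hf i hi).1, fun n => ?_⟩
  rw [finsetSum_coeff]
  exact natDegree_sum_le_of_forall_le _ _ fun i hi => (hf i hi).2 n

private theorem CWS_BD_ex (P : k[X][X]) : ∃ m, CWS_BD m P := by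
  refine ⟨P.natDegree + ∑ n ∈ P.support, (P.coeff n).natDegree, Nat.le_add_right _ _, fun n => ?_⟩
  by_cases hn : n ∈ P.support
  · exact (Finset.single_le_sum (f := fun n => (P.coeff n).natDegree) (fun _ _ => Nat.zero_le _)
      hn).trans (Nat.le_add_left _ _)
  · rw [notMem_support_iff.1 hn, natDegree_zero]
    exact Nat.zero_le _

private theorem CWS_BD_mono2 (s t e : ℕ) (hs : s ≤ e) (ht : t ≤ e) (z : k) :
    CWS_BD e (monomial t (monomial s z)) := by
  refine ⟨(natDegree_monomial_le _).trans ht, fun n => ?_⟩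
  rw [coeff_monomial]
  split_ifs
  · exact (natDegree_monomial_le _).trans hs
  · rw [natDegree_zero]
    exact Nat.zero_le _

private theorem CWS_zero {m : ℕ} {P : k[X][X]} (hP : CWS_BD m P)
    (h : ∀ s t, s ≤ m → t ≤ m → (P.coeff t).coeff s = 0) : P = 0 := by
  ext t s
  rw [coeff_zero, coeff_zero]
  by_cases ht : t ≤ m
  · by_cases hs : s ≤ m
    · exact h s t hs ht
    · exact coeff_eq_zero_of_natDegree_lt (lt_of_le_of_lt (hP.2 t) (not_le.1 hs))
  · rw [coeff_eq_zero_of_natDegree_lt (lt_of_le_of_lt hP.1 (not_le.1 ht)), coeff_zero]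

private theorem CWS_pull (c : k[X][X]) (s t s1 t1 s2 t2 : ℕ) (z z' : k) :
    ((c * monomial t1 (monomial s1 z) * monomial t2 (monomial s2 z')).coeff t).coeff s =
      ((c * monomial t1 (monomial s1 1) * monomial t2 (monomial s2 1)).coeff t).coeff s * z * z' := by
  have h1 : ∀ (s t : ℕ) (z : k), (monomial t (monomial s z) : k[X][X]) =
      C (C z) * monomial t (monomial s 1) := by
    intro s t z
    rw [C_mul_monomial, C_mul_monomial, mul_one]
  rw [h1 s1 t1 z, h1 s2 t2 z']
  have h2 : c * (C (C z) * monomial t1 (monomial s1 1)) * (C (C z') * monomial t2 (monomial s2 1)) =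
      C (C (z * z')) * (c * monomial t1 (monomial s1 1) * monomial t2 (monomial s2 1)) := by
    rw [C_mul, C_mul]
    ring
  rw [h2, coeff_C_mul, coeff_C_mul]
  ring

end

private theorem CWS_arith (r N M e : ℕ) (h : 8 * r < N) (he : e = 8 * r * M + 2 * r * M ^ 2) :
    2 * (r * ((2 * e + M + 1) * (2 * e + M + 1))) < N * ((e + 1) * (e + 1)) := by
  have h1 : (8 * r + 1) * ((e + 1) * (e + 1)) ≤ N * ((e + 1) * (e + 1)) :=
    Nat.mul_le_mul_right _ h
  refine lt_of_lt_of_le ?_ h1
  subst he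
  set A := 8 * r * M with hA
  set B := 2 * r * M ^ 2 with hB
  have h2 : 2 * (r * ((2 * (A + B) + M + 1) * (2 * (A + B) + M + 1))) ≤
      2 * (r * ((2 * (A + B + 1) + M) * (2 * (A + B + 1) + M))) := by
    have h5 : 2 * (A + B) + M + 1 ≤ 2 * (A + B + 1) + M := by omega
    exact Nat.mul_le_mul_left _ (Nat.mul_le_mul_left _ (Nat.mul_le_mul h5 h5))
  have h3 : 2 * (r * ((2 * (A + B + 1) + M) * (2 * (A + B + 1) + M))) =
      8 * r * ((A + B + 1) * (A + B + 1)) + A * (A + B + 1) + B := by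
    rw [hA, hB]
    ring
  have h4 : (8 * r + 1) * ((A + B + 1) * (A + B + 1)) =
      8 * r * ((A + B + 1) * (A + B + 1)) + A * (A + B + 1) + B + (B * (A + B) + (A + B + 1)) := by
    ring
  omega

theorem thm_CWS : St_CWS := by
  classical
  intro k _ _ r N hr c
  choose m hm using fun l i j => CWS_BD_ex (c l i j)
  set M : ℕ := ∑ l, ∑ i, ∑ j, m l i j with hM
  have hmM : ∀ l i j, CWS_BD M (c l i j) := by
    intro l i j
    refine CWS_BD_mono (hm l i j) ?_
    calc m l i j ≤ ∑ j, m l i j := Finset.single_le_sum (fun _ _ => Nat.zero_le _)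
          (Finset.mem_univ j)
      _ ≤ ∑ i, ∑ j, m l i j := Finset.single_le_sum (f := fun i => ∑ j, m l i j)
          (fun _ _ => Nat.zero_le _) (Finset.mem_univ i)
      _ ≤ M := Finset.single_le_sum (f := fun l => ∑ i, ∑ j, m l i j)
          (fun _ _ => Nat.zero_le _) (Finset.mem_univ l)
  clear_value M
  obtain ⟨e, he⟩ : ∃ e : ℕ, e = 8 * r * M + 2 * r * M ^ 2 := ⟨_, rfl⟩
  have har := CWS_arith r N M e hr he
  let q : Fin r × Fin (2 * e + M + 1) × Fin (2 * e + M + 1) →
      Fin N × Fin (e + 1) × Fin (e + 1) → Fin N × Fin (e + 1) × Fin (e + 1) → k := fun t a b =>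
    ((c t.1 a.1 b.1 * monomial (a.2.2 : ℕ) (monomial (a.2.1 : ℕ) 1) *
      monomial (b.2.2 : ℕ) (monomial (b.2.1 : ℕ) 1)).coeff t.2.2).coeff t.2.1
  obtain ⟨z, hz, hq⟩ := CWS_forms q (by
    simp only [Fintype.card_prod, Fintype.card_fin]
    exact har)
  let x : Fin N → k[X][X] := fun i => ∑ u : Fin (e + 1) × Fin (e + 1),
    monomial (u.2 : ℕ) (monomial (u.1 : ℕ) (z (i, u)))
  have hx : ∀ i, CWS_BD e (x i) := fun i => CWS_BD_sum _ fun u _ =>
    CWS_BD_mono2 _ _ _ (Nat.lt_succ_iff.1 u.1.2) (Nat.lt_succ_iff.1 u.2.2) _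
  refine ⟨x, ?_, fun l => ?_⟩
  · intro h
    apply hz
    funext ⟨i, u⟩
    have h1 : ((x i).coeff u.2).coeff u.1 = z (i, u) := by
      simp only [x, finsetSum_coeff]
      rw [Finset.sum_eq_single u]
      · rw [coeff_monomial, if_pos rfl, coeff_monomial, if_pos rfl]
      · intro v _ hv
        rw [coeff_monomial]
        split_ifs with h2
        · rw [coeff_monomial, if_neg]
          intro h3
          exact hv (Prod.ext (Fin.ext h3) (Fin.ext h2))
        · exact coeff_zero _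
      · intro h2
        exact absurd (Finset.mem_univ _) h2
    rw [← h1, h]
    simp
  · have hb : CWS_BD (2 * e + M) (∑ i, ∑ j, c l i j * x i * x j) := by
      refine CWS_BD_sum _ fun i _ => CWS_BD_sum _ fun j _ => ?_
      refine CWS_BD_mono (CWS_BD_mul (CWS_BD_mul (hmM l i j) (hx i)) (hx j)) ?_
      omega
    refine CWS_zero hb fun s t hs ht => ?_
    have h1 := hq (l, ⟨s, Nat.lt_succ_iff.2 hs⟩, ⟨t, Nat.lt_succ_iff.2 ht⟩)
    rw [← h1, Fintype.sum_prod_type]
    have h2 : ∀ i, (∑ u : Fin (e + 1) × Fin (e + 1), ∑ b : Fin N × Fin (e + 1) × Fin (e + 1),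
        q (l, ⟨s, Nat.lt_succ_iff.2 hs⟩, ⟨t, Nat.lt_succ_iff.2 ht⟩) (i, u) b * z (i, u) * z b) =
        ∑ j, ((c l i j * x i * x j).coeff t).coeff s := by
      intro i
      have h3 : ∀ j, ((c l i j * x i * x j).coeff t).coeff s =
          ∑ u : Fin (e + 1) × Fin (e + 1), ∑ v : Fin (e + 1) × Fin (e + 1),
            q (l, ⟨s, Nat.lt_succ_iff.2 hs⟩, ⟨t, Nat.lt_succ_iff.2 ht⟩) (i, u) (j, v) *
              z (i, u) * z (j, v) := by
        intro j
        have h4 : c l i j * x i = ∑ u : Fin (e + 1) × Fin (e + 1),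
            c l i j * monomial (u.2 : ℕ) (monomial (u.1 : ℕ) (z (i, u))) := Finset.mul_sum _ _ _
        rw [h4, Finset.sum_mul, finsetSum_coeff, finsetSum_coeff]
        refine Finset.sum_congr rfl fun u _ => ?_
        have h5 : c l i j * monomial (u.2 : ℕ) (monomial (u.1 : ℕ) (z (i, u))) * x j =
            ∑ v : Fin (e + 1) × Fin (e + 1),
              c l i j * monomial (u.2 : ℕ) (monomial (u.1 : ℕ) (z (i, u))) *
                monomial (v.2 : ℕ) (monomial (v.1 : ℕ) (z (j, v))) := Finset.mul_sum _ _ _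
        rw [h5, finsetSum_coeff, finsetSum_coeff]
        refine Finset.sum_congr rfl fun v _ => ?_
        exact CWS_pull _ _ _ _ _ _ _ _ _
      rw [Finset.sum_congr rfl fun j _ => h3 j]
      refine Eq.trans ?_ Finset.sum_comm
      refine Finset.sum_congr rfl fun u _ => ?_
      rw [Fintype.sum_prod_type]
    rw [Finset.sum_congr rfl fun i _ => h2 i]
    simp only [finsetSum_coeff]

end Pool.Agent.Q4
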