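import Mathlib

/-!
# Q4: biquaternion algebras and Albert forms, definitions

`BQ A a b c d` is the tensor product of the quaternion algebras `ℍ[A,a,b]` (`i² = a`, `j² = b`, `k = ij`) and
`ℍ[A,c,d]` over the commutative ring `A`. A vector `v ∈ A⁶` is a pair of pure quaternions
`x = v 0 i + v 1 j + v 2 k ∈ ℍ[A,a,b]`, `y = v 3 i + v 4 j + v 5 k ∈ ℍ[A,c,d]`; `wv v = x ⊗ 1 - 1 ⊗ y` and
`pv v = x ⊗ 1 + 1 ⊗ y`; these two elements commute and their product is `x² - y² = alb v`.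
-/

set_option autoImplicit false

namespace Pool.Agent.Q4

open Quaternion TensorProduct

/-- the biquaternion algebra `(a, b) ⊗ (c, d)` -/
abbrev BQ (A : Type) [CommRing A] (a b c d : A) : Type := ℍ[A,a,b] ⊗[A] ℍ[A,c,d]

section
variable {A : Type} [CommRing A] (a b c d : A)

/-- the coefficients `a, b, -ab, -c, -d, cd` of the Albert form -/
def albC : Fin 6 → A := ![a, b, -(a * b), -c, -d, c * d]

/-- the Albert form `a v₀² + b v₁² - a b v₂² - c v₃² - d v₄² + c d v₅²` -/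
def alb (v : Fin 6 → A) : A := ∑ i, albC a b c d i * v i ^ 2

/-- the Albert form is anisotropic -/
def Anis : Prop := ∀ v : Fin 6 → A, alb a b c d v = 0 → v = 0

/-- the pure quaternion `v 0 i + v 1 j + v 2 k` -/
def pq1 (v : Fin 6 → A) : ℍ[A,a,b] := ⟨0, v 0, v 1, v 2⟩

/-- the pure quaternion `v 3 i + v 4 j + v 5 k` -/
def pq2 (v : Fin 6 → A) : ℍ[A,c,d] := ⟨0, v 3, v 4, v 5⟩

/-- `x ⊗ 1 - 1 ⊗ y` -/
def wv (v : Fin 6 → A) : BQ A a b c d := pq1 a b v ⊗ₜ 1 - 1 ⊗ₜ pq2 c d v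

/-- `x ⊗ 1 + 1 ⊗ y` -/
def pv (v : Fin 6 → A) : BQ A a b c d := pq1 a b v ⊗ₜ 1 + 1 ⊗ₜ pq2 c d v

end

/-- `D` is a `K`-algebra, `W i`, `P i` (`i < 6`) behave like the values of `wv` and `pv` on an orthogonal basis with
values `q i` of the Albert form -/
structure ADat (K D : Type) [Field K] [Ring D] [Algebra K D] (q : Fin 6 → K) (W P : Fin 6 → D) :
    Prop where
  wp : ∀ i j, i ≠ j → W i * P j = -(W j * P i)
  pw : ∀ i j, i ≠ j → P i * W j = -(P j * W i)
  wpd : ∀ i, W i * P i = algebraMap K D (q i)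
  pwd : ∀ i, P i * W i = algebraMap K D (q i)
  cen : ∀ z : D, (∀ i j, z * (W i * P j) = W i * P j * z) → ∃ k : K, z = algebraMap K D k

end Pool.Agent.Q4
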