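import Pool.Agent.Q4.StF
import Mathlib.Algebra.QuadraticAlgebra.Basic

/-!
# Q4, module EV2: even Clifford algebras in rank two

Statement and proof: see `St_EV2` in `Pool/Agent/Q4/StF.lean`.
-/

set_option autoImplicit false

namespace Pool.Agent.Q4

open Function

/-- the homomorphism from the quadratic algebra given by a square root of `δ` -/
noncomputable def EV2_hom {K A : Type} [Field K] [Ring A] [Algebra K A] (δ : K) (u : A)
    (hu : u * u = algebraMap K A δ) : QuadraticAlgebra K δ 0 →ₐ[K] A :=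
  QuadraticAlgebra.lift ⟨u, by rw [zero_smul, add_zero, hu, Algebra.algebraMap_eq_smul_one]⟩

theorem EV2_hom_apply {K A : Type} [Field K] [Ring A] [Algebra K A] (δ : K) (u : A)
    (hu : u * u = algebraMap K A δ) (z : QuadraticAlgebra K δ 0) :
    EV2_hom δ u hu z = z.re • 1 + z.im • u := rfl

/-- the case of a nonsquare -/
theorem EV2_field {K L : Type} [Field K] [Field L] [Algebra K L] (δ : K) (z : L)
    (hz : z ^ 2 = algebraMap K L δ) (hL : IntermediateField.adjoin K {z} = ⊤)
    (hδ : ∀ x : K, x * x ≠ δ) : Nonempty (QuadraticAlgebra K δ 0 ≃ₐ[K] L) := by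
  have hzz : z * z = algebraMap K L δ := by rw [← pow_two, hz]
  have hinjK := (algebraMap K L).injective
  refine ⟨AlgEquiv.ofBijective (EV2_hom δ z hzz) ⟨?_, ?_⟩⟩
  · rw [injective_iff_map_eq_zero]
    intro u hu
    rw [EV2_hom_apply] at hu
    have him : u.im = 0 := by
      by_contra hne
      have h1 : z = algebraMap K L (-u.re / u.im) := by
        have h2 : algebraMap K L u.im ≠ 0 := by
          intro h
          exact hne (hinjK (by rw [h, map_zero]))
        rw [map_div₀, map_neg, eq_div_iff h2]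
        rw [Algebra.smul_def, Algebra.smul_def, mul_one] at hu
        linear_combination hu
      apply hδ (-u.re / u.im)
      apply hinjK
      rw [map_mul, ← h1, hzz]
    have hre : u.re = 0 := by
      rw [him, zero_smul, add_zero, Algebra.smul_def, mul_one] at hu
      exact hinjK (by rw [hu, map_zero])
    ext
    · exact hre
    · exact him
  · have halg : IsAlgebraic K z := by
      have h1 : IsIntegral K z := by
        refine ⟨Polynomial.X ^ 2 - Polynomial.C δ, ?_, ?_⟩
        · exact Polynomial.monic_X_pow_sub_C δ (by norm_num)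
        · rw [Polynomial.eval₂_sub, Polynomial.eval₂_pow, Polynomial.eval₂_X,
            Polynomial.eval₂_C, hz, sub_self]
      exact h1.isAlgebraic
    have h1 := IntermediateField.adjoin_simple_toSubalgebra_of_isAlgebraic halg
    rw [hL, IntermediateField.top_toSubalgebra] at h1
    have h2 : Algebra.adjoin K {z} ≤ (EV2_hom δ z hzz).range := by
      rw [Algebra.adjoin_le_iff, Set.singleton_subset_iff]
      exact ⟨⟨0, 1⟩, by
        change EV2_hom δ z hzz ⟨0, 1⟩ = z
        rw [EV2_hom_apply]; simp⟩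
    intro y
    have h3 : y ∈ Algebra.adjoin K {z} := by rw [← h1]; trivial
    exact h2 h3

/-- the case of a square -/
theorem EV2_split {K L : Type} [Field K] [Field L] [Algebra K L] (δ : K) (z : L)
    (h2 : (2 : K) ≠ 0) (hδ0 : δ ≠ 0)
    (hz : z ^ 2 = algebraMap K L δ) (hL : IntermediateField.adjoin K {z} = ⊤)
    (ε : K) (hε : ε * ε = δ) : Nonempty (QuadraticAlgebra K δ 0 ≃ₐ[K] L × L) := by
  have hε0 : ε ≠ 0 := by
    rintro rfl
    exact hδ0 (by rw [← hε, mul_zero])
  -- `L = K`
  have hzK : z ∈ (⊥ : IntermediateField K L) := by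
    have h1 : (z - algebraMap K L ε) * (z + algebraMap K L ε) = 0 := by
      have : (z - algebraMap K L ε) * (z + algebraMap K L ε)
        = z ^ 2 - algebraMap K L (ε * ε) := by rw [map_mul]; ring
      rw [this, hz, hε, sub_self]
    rcases mul_eq_zero.1 h1 with h | h
    · rw [IntermediateField.mem_bot]
      exact ⟨ε, (sub_eq_zero.1 h).symm⟩
    · rw [IntermediateField.mem_bot]
      exact ⟨-ε, by rw [map_neg]; exact (eq_neg_of_add_eq_zero_left h).symm⟩
  have hbot : (⊥ : IntermediateField K L) = ⊤ := by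
    rw [← hL, eq_comm, eq_bot_iff, IntermediateField.adjoin_le_iff, Set.singleton_subset_iff]
    exact hzK
  have hsurjK : Surjective (algebraMap K L) := by
    intro y
    have h1 : y ∈ (⊥ : IntermediateField K L) := by rw [hbot]; trivial
    rw [IntermediateField.mem_bot] at h1
    exact h1
  have hinjK := (algebraMap K L).injective
  have hu : algebraMap K L ε * algebraMap K L ε = algebraMap K L δ := by rw [← map_mul, hε]
  have hv : (-algebraMap K L ε) * (-algebraMap K L ε) = algebraMap K L δ := by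
    rw [neg_mul_neg, hu]
  refine ⟨AlgEquiv.ofBijective
    (AlgHom.prod (EV2_hom δ (algebraMap K L ε) hu) (EV2_hom δ (-algebraMap K L ε) hv)) ⟨?_, ?_⟩⟩
  · rw [injective_iff_map_eq_zero]
    intro u hu'
    rw [AlgHom.prod_apply, EV2_hom_apply, EV2_hom_apply, Prod.mk_eq_zero] at hu'
    obtain ⟨e1, e2⟩ := hu'
    rw [Algebra.smul_def, Algebra.smul_def, mul_one] at e1 e2
    have e3 : algebraMap K L (2 * u.re) = 0 := by
      rw [map_mul, map_ofNat]
      linear_combination e1 + e2
    have e4 : algebraMap K L (2 * (u.im * ε)) = 0 := by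
      rw [map_mul, map_mul, map_ofNat]
      linear_combination e1 - e2
    have e5 : 2 * u.re = 0 := hinjK (by rw [e3, map_zero])
    have e6 : 2 * (u.im * ε) = 0 := hinjK (by rw [e4, map_zero])
    ext
    · exact (mul_eq_zero.1 e5).resolve_left h2
    · exact (mul_eq_zero.1 ((mul_eq_zero.1 e6).resolve_left h2)).resolve_right hε0
  · rintro ⟨x, y⟩
    obtain ⟨x, rfl⟩ := hsurjK x
    obtain ⟨y, rfl⟩ := hsurjK y
    refine ⟨⟨(x + y) / 2, (x - y) / (2 * ε)⟩, ?_⟩
    rw [AlgHom.prod_apply, EV2_hom_apply, EV2_hom_apply, Prod.mk.injEq]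
    constructor
    · rw [Algebra.smul_def, Algebra.smul_def, mul_one, ← map_mul, ← map_add]
      congr 1
      field_simp
      ring
    · rw [Algebra.smul_def, Algebra.smul_def, mul_one, mul_neg, ← map_mul, ← sub_eq_add_neg,
        ← map_sub]
      congr 1
      field_simp
      ring

/-- the even Clifford algebra -/
theorem EV2_cliff {K : Type} [Field K] (w : Fin 2 → K) (h2 : (2 : K) ≠ 0) (hw : ∀ i, w i ≠ 0) :
    Nonempty (QuadraticAlgebra K (-(w 0 * w 1)) 0 ≃ₐ[K]
      CliffordAlgebra.even (QuadraticMap.weightedSumSquares K w)) := by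
  classical
  let _ : Invertible (2 : K) := invertibleOfNonzero h2
  set Q : QuadraticForm K (Fin 2 → K) := QuadraticMap.weightedSumSquares K w with hQ
  let v : Module.Basis (Fin 2) K (Fin 2 → K) := Pi.basisFun K (Fin 2)
  have hv : ∀ i, v i = Pi.single i (1 : K) := fun i => Pi.basisFun_apply K (Fin 2) i
  have hQv : ∀ i, Q (v i) = w i := by
    intro i
    rw [hQ, QuadraticMap.weightedSumSquares_apply, hv]
    rw [Finset.sum_eq_single i]
    · simp
    · intro j _ hj
      simp [Pi.single_eq_of_ne hj]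
    · intro h
      exact absurd (Finset.mem_univ i) h
  have hort : ∀ i j, i ≠ j → Q.IsOrtho (v i) (v j) := by
    intro i j hij
    rw [QuadraticMap.isOrtho_def, hQ, QuadraticMap.weightedSumSquares_apply,
      QuadraticMap.weightedSumSquares_apply, QuadraticMap.weightedSumSquares_apply,
      ← Finset.sum_add_distrib]
    refine Finset.sum_congr rfl fun k _ => ?_
    rw [hv, hv, Pi.add_apply, ← smul_add]
    congr 1
    by_cases hk : k = i
    · rw [hk, Pi.single_eq_of_ne hij]
      ring
    · rw [Pi.single_eq_of_ne hk]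
      ring
  have hmem : ∀ x y : Fin 2 → K, CliffordAlgebra.ι Q x * CliffordAlgebra.ι Q y ∈
      CliffordAlgebra.even Q := fun x y => CliffordAlgebra.ι_mul_ι_mem_evenOdd_zero Q x y
  set e : Fin 2 → CliffordAlgebra Q := fun i => CliffordAlgebra.ι Q (v i) with he
  have hsq : ∀ i, e i * e i = algebraMap K _ (w i) := fun i => by
    rw [← hQv i]
    exact CliffordAlgebra.ι_sq_scalar Q (v i)
  have hsw : ∀ i j, i ≠ j → e i * e j = -(e j * e i) := fun i j hij =>
    CliffordAlgebra.ι_mul_ι_comm_of_isOrtho (hort i j hij)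
  have p1 : (e 0 * e 1) * (e 0 * e 1) = algebraMap K _ (-(w 0 * w 1)) := by
    calc (e 0 * e 1) * (e 0 * e 1) = e 0 * (e 1 * e 0) * e 1 := by noncomm_ring
      _ = -((e 0 * e 0) * (e 1 * e 1)) := by rw [hsw 1 0 (by decide)]; noncomm_ring
      _ = _ := by rw [hsq, hsq, ← map_mul, ← map_neg]
  set δ : K := -(w 0 * w 1) with hδ
  have hδ0 : δ ≠ 0 := neg_ne_zero.2 (mul_ne_zero (hw 0) (hw 1))
  let u : CliffordAlgebra.even Q := ⟨e 0 * e 1, hmem _ _⟩
  have hu : u * u = algebraMap K _ δ := Subtype.ext p1
  let f : QuadraticAlgebra K δ 0 →ₐ[K] CliffordAlgebra.even Q := EV2_hom δ u hu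
  have hnt : Nontrivial (CliffordAlgebra Q) := inferInstance
  have hinjK := (algebraMap K (CliffordAlgebra Q)).injective
  have hf : ∀ z : QuadraticAlgebra K δ 0, ((f z : CliffordAlgebra.even Q) : CliffordAlgebra Q) =
      algebraMap K _ z.re + z.im • (e 0 * e 1) := by
    intro z
    change z.re • (1 : CliffordAlgebra Q) + z.im • (e 0 * e 1) = _
    rw [Algebra.algebraMap_eq_smul_one]
  refine ⟨AlgEquiv.ofBijective f ⟨?_, ?_⟩⟩
  · rw [injective_iff_map_eq_zero]
    intro z hz
    have e1 : algebraMap K (CliffordAlgebra Q) z.re + z.im • (e 0 * e 1) = 0 := by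
      rw [← hf, hz]
      rfl
    have e2 : e 0 * (algebraMap K (CliffordAlgebra Q) z.re + z.im • (e 0 * e 1)) * e 0 =
        algebraMap K _ (w 0) * (algebraMap K (CliffordAlgebra Q) z.re - z.im • (e 0 * e 1)) := by
      have e3 : e 0 * (z.im • (e 0 * e 1)) * e 0 = -(algebraMap K _ (w 0) *
          (z.im • (e 0 * e 1))) := by
        rw [mul_smul_comm, smul_mul_assoc, mul_smul_comm, ← smul_neg]
        congr 1
        rw [← hsq 0]
        calc e 0 * (e 0 * e 1) * e 0 = e 0 * e 0 * (e 1 * e 0) := by noncomm_ring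
          _ = _ := by rw [hsw 1 0 (by decide)]; noncomm_ring
      have e4 : e 0 * algebraMap K _ z.re * e 0 = algebraMap K _ (w 0) * algebraMap K _ z.re := by
        rw [← Algebra.commutes, mul_assoc, hsq, Algebra.commutes]
      rw [mul_add, add_mul, e3, e4, mul_sub, sub_eq_add_neg]
    rw [e1, mul_zero, zero_mul] at e2
    have e5 : algebraMap K (CliffordAlgebra Q) z.re - z.im • (e 0 * e 1) = 0 := by
      have h3 : algebraMap K (CliffordAlgebra Q) (w 0)⁻¹ * (algebraMap K _ (w 0) *
          (algebraMap K (CliffordAlgebra Q) z.re - z.im • (e 0 * e 1))) = 0 := by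
        rw [← e2, mul_zero]
      rwa [← mul_assoc, ← map_mul, inv_mul_cancel₀ (hw 0), map_one, one_mul] at h3
    have e6 : algebraMap K (CliffordAlgebra Q) (2 * z.re) = 0 := by
      rw [map_mul, map_ofNat]
      calc (2 : CliffordAlgebra Q) * algebraMap K _ z.re
          = (algebraMap K _ z.re + z.im • (e 0 * e 1)) +
            (algebraMap K _ z.re - z.im • (e 0 * e 1)) := by
            rw [two_mul]; abel
        _ = 0 := by rw [e1, e5, add_zero]
    have e7 : z.re = 0 := by
      have h3 : 2 * z.re = 0 := hinjK (by rw [e6, map_zero])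
      exact (mul_eq_zero.1 h3).resolve_left h2
    have e8 : z.im • (e 0 * e 1) = 0 := by rwa [e7, map_zero, zero_add] at e1
    have e9 : algebraMap K (CliffordAlgebra Q) (z.im * δ) = 0 := by
      rw [map_mul, ← p1, ← mul_assoc, ← Algebra.smul_def, e8, zero_mul]
    have e10 : z.im = 0 := by
      have h3 : z.im * δ = 0 := hinjK (by rw [e9, map_zero])
      exact (mul_eq_zero.1 h3).resolve_right hδ0
    ext
    · exact e7
    · exact e10
  · let S : Subalgebra K (CliffordAlgebra Q) := ((CliffordAlgebra.even Q).val.comp f).range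
    have h01 : e 0 * e 1 ∈ S := ⟨⟨0, 1⟩, by
      change ((f ⟨0, 1⟩ : CliffordAlgebra.even Q) : CliffordAlgebra Q) = _
      rw [hf, map_zero, zero_add, one_smul]⟩
    have hii : ∀ i, e i * e i ∈ S := fun i => by
      rw [hsq]
      exact Subalgebra.algebraMap_mem S _
    have hall : ∀ i j, e i * e j ∈ S := by
      intro i j
      by_cases hij : i = j
      · rw [hij]
        exact hii j
      · fin_cases i <;> fin_cases j
        · exact absurd rfl hij
        · exact h01
        · change e 1 * e 0 ∈ S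
          rw [hsw 1 0 (by decide)]
          exact Subalgebra.neg_mem S h01
        · exact absurd rfl hij
    have hvec : ∀ x y : Fin 2 → K, CliffordAlgebra.ι Q x * CliffordAlgebra.ι Q y ∈ S := by
      intro x y
      rw [← v.sum_repr x, ← v.sum_repr y, map_sum, map_sum, Finset.sum_mul_sum]
      refine Subalgebra.sum_mem S fun i _ => Subalgebra.sum_mem S fun j _ => ?_
      rw [map_smul, map_smul, smul_mul_assoc, mul_smul_comm]
      exact Subalgebra.smul_mem S (Subalgebra.smul_mem S (hall i j) _) _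
    rintro ⟨x, hx⟩
    have hxS : x ∈ S := by
      have hx' : x ∈ CliffordAlgebra.evenOdd Q 0 := hx
      clear hx
      induction x, hx' using CliffordAlgebra.even_induction with
      | algebraMap r => exact Subalgebra.algebraMap_mem S r
      | add x y hx hy ihx ihy => exact Subalgebra.add_mem S ihx ihy
      | ι_mul_ι_mul m₁ m₂ x hx ih => exact Subalgebra.mul_mem S (hvec m₁ m₂) ih
    obtain ⟨z, hz⟩ := hxS
    exact ⟨z, Subtype.ext hz⟩

theorem thm_EV2 : St_EV2 := by
  intro K _ w h2 hw L _ _ z hz hL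
  obtain ⟨φ⟩ := EV2_cliff w h2 hw
  by_cases h : ∃ ε : K, ε * ε = -(w 0 * w 1)
  · obtain ⟨ε, hε⟩ := h
    obtain ⟨ψ⟩ := EV2_split (-(w 0 * w 1)) z h2
      (neg_ne_zero.2 (mul_ne_zero (hw 0) (hw 1))) hz hL ε hε
    exact Or.inr ⟨φ.symm.trans ψ⟩
  · push Not at h
    obtain ⟨ψ⟩ := EV2_field (-(w 0 * w 1)) z hz hL h
    exact Or.inl ⟨φ.symm.trans ψ⟩

end Pool.Agent.Q4
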