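import Pool.Agent.Q4.StF

/-!
# Q4, module EV3: the even Clifford algebra of a form of rank three
-/

set_option autoImplicit false

namespace Pool.Agent.Q4

open Function Quaternion

/-- homomorphisms from a quaternion algebra to a nontrivial algebra are injective -/
theorem EV3_inj {K Λ : Type} [Field K] [Ring Λ] [Algebra K Λ] [Nontrivial Λ] (a b : K)
    (h2 : (2 : K) ≠ 0) (ha : a ≠ 0) (hb : b ≠ 0) (f : ℍ[K,a,b] →ₐ[K] Λ) : Injective f := by
  have h4 : (4 : K) ≠ 0 := by
    have : (4 : K) = 2 * 2 := by norm_num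
    rw [this]
    exact mul_ne_zero h2 h2
  -- real parts of elements of the kernel vanish
  have hre : ∀ w : ℍ[K,a,b], f w = 0 → w.re = 0 := by
    intro w hw
    have h1 : algebraMap K ℍ[K,a,b] (4 * a * b * w.re) =
        algebraMap K ℍ[K,a,b] b * (algebraMap K ℍ[K,a,b] a * w +
          (⟨0, 1, 0, 0⟩ : ℍ[K,a,b]) * (w * (⟨0, 1, 0, 0⟩ : ℍ[K,a,b]))) +
        (⟨0, 0, 1, 0⟩ : ℍ[K,a,b]) * ((algebraMap K ℍ[K,a,b] a * w +
          (⟨0, 1, 0, 0⟩ : ℍ[K,a,b]) * (w * (⟨0, 1, 0, 0⟩ : ℍ[K,a,b]))) *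
            (⟨0, 0, 1, 0⟩ : ℍ[K,a,b])) := by
      rw [QuaternionAlgebra.algebraMap_eq, QuaternionAlgebra.algebraMap_eq,
        QuaternionAlgebra.algebraMap_eq]
      ext <;> simp
      ring
    have h3 : f (algebraMap K ℍ[K,a,b] (4 * a * b * w.re)) = 0 := by
      rw [h1]
      simp only [map_add, map_mul, hw, mul_zero, zero_mul, add_zero]
    rw [AlgHom.commutes] at h3
    have h5 : 4 * a * b * w.re = 0 := by
      by_contra hne
      have h6 := (algebraMap K Λ).injective (a₁ := 4 * a * b * w.re) (a₂ := 0)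
        (by rw [h3, map_zero])
      exact hne h6
    rcases mul_eq_zero.1 h5 with h | h
    · exact absurd h (mul_ne_zero (mul_ne_zero h4 ha) hb)
    · exact h
  rw [injective_iff_map_eq_zero]
  intro z hz
  have e0 := hre z hz
  have e1 := hre ((⟨0, 1, 0, 0⟩ : ℍ[K,a,b]) * z) (by rw [map_mul, hz, mul_zero])
  have e2 := hre ((⟨0, 0, 1, 0⟩ : ℍ[K,a,b]) * z) (by rw [map_mul, hz, mul_zero])
  have e3 := hre ((⟨0, 0, 0, 1⟩ : ℍ[K,a,b]) * z) (by rw [map_mul, hz, mul_zero])
  have f1 : ((⟨0, 1, 0, 0⟩ : ℍ[K,a,b]) * z).re = a * z.imI := by simp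
  have f2 : ((⟨0, 0, 1, 0⟩ : ℍ[K,a,b]) * z).re = b * z.imJ := by simp
  have f3 : ((⟨0, 0, 0, 1⟩ : ℍ[K,a,b]) * z).re = -(a * b) * z.imK := by simp
  rw [f1] at e1
  rw [f2] at e2
  rw [f3] at e3
  ext
  · exact e0
  · exact (mul_eq_zero.1 e1).resolve_left ha
  · exact (mul_eq_zero.1 e2).resolve_left hb
  · exact (mul_eq_zero.1 e3).resolve_left (neg_ne_zero.2 (mul_ne_zero ha hb))

/-- the values of the weighted sum of squares at the basis vectors -/
theorem EV3_val {K : Type} [Field K] {n : ℕ} (w : Fin n → K) (i : Fin n) :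
    QuadraticMap.weightedSumSquares K w (Pi.basisFun K (Fin n) i) = w i := by
  classical
  rw [QuadraticMap.weightedSumSquares_apply, Finset.sum_eq_single i]
  · rw [Pi.basisFun_apply, Pi.single_eq_same, mul_one, smul_eq_mul, mul_one]
  · intro j _ hj
    rw [Pi.basisFun_apply, Pi.single_eq_of_ne hj, mul_zero, smul_zero]
  · intro h
    exact absurd (Finset.mem_univ i) h

/-- the basis vectors are orthogonal -/
theorem EV3_ort {K : Type} [Field K] {n : ℕ} (w : Fin n → K) (i j : Fin n) (hij : i ≠ j) :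
    (QuadraticMap.weightedSumSquares K w).IsOrtho (Pi.basisFun K (Fin n) i)
      (Pi.basisFun K (Fin n) j) := by
  classical
  show QuadraticMap.weightedSumSquares K w (Pi.basisFun K (Fin n) i + Pi.basisFun K (Fin n) j) =
    QuadraticMap.weightedSumSquares K w (Pi.basisFun K (Fin n) i) +
      QuadraticMap.weightedSumSquares K w (Pi.basisFun K (Fin n) j)
  rw [QuadraticMap.weightedSumSquares_apply, QuadraticMap.weightedSumSquares_apply,
    QuadraticMap.weightedSumSquares_apply, ← Finset.sum_add_distrib]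
  refine Finset.sum_congr rfl fun l _ => ?_
  rw [Pi.basisFun_apply, Pi.basisFun_apply, Pi.add_apply]
  by_cases hl : l = i
  · have h1 : l ≠ j := fun h => hij (hl.symm.trans h)
    rw [Pi.single_eq_of_ne h1, add_zero, mul_zero, smul_zero, add_zero]
  · rw [Pi.single_eq_of_ne hl, zero_add, mul_zero, smul_zero, zero_add]

theorem thm_EV3 : St_EV3 := by
  classical
  intro K _ w h2 hw
  let _ : Invertible (2 : K) := invertibleOfNonzero h2
  obtain ⟨Q, hQ⟩ : ∃ Q, Q = QuadraticMap.weightedSumSquares K w := ⟨_, rfl⟩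
  rw [← hQ]
  let v : Module.Basis (Fin 3) K (Fin 3 → K) := Pi.basisFun K (Fin 3)
  have hort : ∀ i j, i ≠ j → Q.IsOrtho (v i) (v j) := fun i j hij => by
    rw [hQ]
    exact EV3_ort w i j hij
  have hne : ∀ i, Q (v i) ≠ 0 := fun i => by
    rw [hQ, EV3_val w i]
    exact hw i
  -- the generators
  have hmem : ∀ x y : Fin 3 → K, CliffordAlgebra.ι Q x * CliffordAlgebra.ι Q y ∈
      CliffordAlgebra.even Q := fun x y => CliffordAlgebra.ι_mul_ι_mem_evenOdd_zero Q x y
  set e : Fin 3 → CliffordAlgebra Q := fun i => CliffordAlgebra.ι Q (v i) with he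
  have hsq : ∀ i, e i * e i = algebraMap K _ (Q (v i)) := fun i =>
    CliffordAlgebra.ι_sq_scalar Q (v i)
  have hsw : ∀ i j, i ≠ j → e i * e j = -(e j * e i) := fun i j hij =>
    CliffordAlgebra.ι_mul_ι_comm_of_isOrtho (hort i j hij)
  -- products
  have p1 : (e 0 * e 1) * (e 0 * e 1) = algebraMap K _ (-(Q (v 0) * Q (v 1))) := by
    calc (e 0 * e 1) * (e 0 * e 1) = e 0 * (e 1 * e 0) * e 1 := by noncomm_ring
      _ = -((e 0 * e 0) * (e 1 * e 1)) := by rw [hsw 1 0 (by decide)]; noncomm_ring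
      _ = _ := by rw [hsq, hsq, ← map_mul, ← map_neg]
  have p2 : (e 1 * e 2) * (e 1 * e 2) = algebraMap K _ (-(Q (v 1) * Q (v 2))) := by
    calc (e 1 * e 2) * (e 1 * e 2) = e 1 * (e 2 * e 1) * e 2 := by noncomm_ring
      _ = -((e 1 * e 1) * (e 2 * e 2)) := by rw [hsw 2 1 (by decide)]; noncomm_ring
      _ = _ := by rw [hsq, hsq, ← map_mul, ← map_neg]
  have p3 : (e 0 * e 1) * (e 1 * e 2) = Q (v 1) • (e 0 * e 2) := by
    calc (e 0 * e 1) * (e 1 * e 2) = e 0 * (e 1 * e 1) * e 2 := by noncomm_ring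
      _ = e 0 * (algebraMap K _ (Q (v 1))) * e 2 := by rw [hsq]
      _ = Q (v 1) • (e 0 * e 2) := by
        rw [← Algebra.commutes, mul_assoc, ← Algebra.smul_def]
  have p4 : (e 1 * e 2) * (e 0 * e 1) = -(Q (v 1) • (e 0 * e 2)) := by
    calc (e 1 * e 2) * (e 0 * e 1) = e 1 * (e 2 * e 0) * e 1 := by noncomm_ring
      _ = -(e 1 * e 0 * (e 2 * e 1)) := by rw [hsw 2 0 (by decide)]; noncomm_ring
      _ = (e 1 * e 0) * (e 1 * e 2) := by rw [hsw 2 1 (by decide)]; noncomm_ring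
      _ = -((e 0 * e 1) * (e 1 * e 2)) := by rw [hsw 1 0 (by decide)]; noncomm_ring
      _ = _ := by rw [p3]
  set a : K := -(Q (v 0) * Q (v 1)) with ha
  set b : K := -(Q (v 1) * Q (v 2)) with hb
  have ha0 : a ≠ 0 := neg_ne_zero.2 (mul_ne_zero (hne 0) (hne 1))
  have hb0 : b ≠ 0 := neg_ne_zero.2 (mul_ne_zero (hne 1) (hne 2))
  let B : QuaternionAlgebra.Basis (CliffordAlgebra.even Q) a 0 b :=
    { i := ⟨e 0 * e 1, hmem _ _⟩
      j := ⟨e 1 * e 2, hmem _ _⟩
      k := ⟨Q (v 1) • (e 0 * e 2), Subalgebra.smul_mem _ (hmem _ _) _⟩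
      i_mul_i := by
        apply Subtype.ext
        rw [zero_smul, add_zero]
        change (e 0 * e 1) * (e 0 * e 1) = a • (1 : CliffordAlgebra Q)
        rw [p1, Algebra.algebraMap_eq_smul_one]
      j_mul_j := by
        apply Subtype.ext
        change (e 1 * e 2) * (e 1 * e 2) = b • (1 : CliffordAlgebra Q)
        rw [p2, Algebra.algebraMap_eq_smul_one]
      i_mul_j := Subtype.ext p3
      j_mul_i := by
        apply Subtype.ext
        rw [zero_smul, zero_sub]
        exact p4 }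
  let f : ℍ[K,a,b] →ₐ[K] CliffordAlgebra.even Q := B.liftHom
  have hfi : f ⟨0, 1, 0, 0⟩ = B.i := by
    simp [f, QuaternionAlgebra.Basis.lift]
  have hfj : f ⟨0, 0, 1, 0⟩ = B.j := by
    simp [f, QuaternionAlgebra.Basis.lift]
  have hfk : f ⟨0, 0, 0, 1⟩ = B.k := by
    simp [f, QuaternionAlgebra.Basis.lift]
  have hnt : Nontrivial (CliffordAlgebra.even Q) := inferInstance
  have hinj : Injective f := EV3_inj a b h2 ha0 hb0 f
  -- the range as a subalgebra of the Clifford algebra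
  let S : Subalgebra K (CliffordAlgebra Q) := ((CliffordAlgebra.even Q).val.comp f).range
  have h01 : e 0 * e 1 ∈ S := ⟨⟨0, 1, 0, 0⟩, by
    change ((f ⟨0, 1, 0, 0⟩ : CliffordAlgebra.even Q) : CliffordAlgebra Q) = _
    rw [hfi]⟩
  have h12 : e 1 * e 2 ∈ S := ⟨⟨0, 0, 1, 0⟩, by
    change ((f ⟨0, 0, 1, 0⟩ : CliffordAlgebra.even Q) : CliffordAlgebra Q) = _
    rw [hfj]⟩
  have h02' : Q (v 1) • (e 0 * e 2) ∈ S := ⟨⟨0, 0, 0, 1⟩, by
    change ((f ⟨0, 0, 0, 1⟩ : CliffordAlgebra.even Q) : CliffordAlgebra Q) = _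
    rw [hfk]⟩
  have h02 : e 0 * e 2 ∈ S := by
    have := Subalgebra.smul_mem S h02' (Q (v 1))⁻¹
    rwa [smul_smul, inv_mul_cancel₀ (hne 1), one_smul] at this
  have hii : ∀ i, e i * e i ∈ S := fun i => by
    rw [hsq]
    exact Subalgebra.algebraMap_mem S _
  have hall : ∀ i j, e i * e j ∈ S := by
    intro i j
    by_cases hij : i = j
    · rw [hij]
      exact hii j
    · have hsymm : ∀ p q, p ≠ q → e p * e q ∈ S → e q * e p ∈ S := by
        intro p q hpq hm
        rw [hsw q p (Ne.symm hpq)]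
        exact Subalgebra.neg_mem S hm
      fin_cases i <;> fin_cases j
      · exact absurd rfl hij
      · exact h01
      · exact h02
      · exact hsymm 0 1 (by decide) h01
      · exact absurd rfl hij
      · exact h12
      · exact hsymm 0 2 (by decide) h02
      · exact hsymm 1 2 (by decide) h12
      · exact absurd rfl hij
  have hvec : ∀ x y : Fin 3 → K, CliffordAlgebra.ι Q x * CliffordAlgebra.ι Q y ∈ S := by
    intro x y
    rw [← v.sum_repr x, ← v.sum_repr y, map_sum, map_sum, Finset.sum_mul_sum]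
    refine Subalgebra.sum_mem S fun i _ => Subalgebra.sum_mem S fun j _ => ?_
    rw [map_smul, map_smul, smul_mul_assoc, mul_smul_comm]
    exact Subalgebra.smul_mem S (Subalgebra.smul_mem S (hall i j) _) _
  have hsurj : Surjective f := by
    rintro ⟨x, hx⟩
    have hxS : x ∈ S := by
      have hx' : x ∈ CliffordAlgebra.evenOdd Q 0 := hx
      clear hx
      induction x, hx' using CliffordAlgebra.even_induction with
      | algebraMap r => exact Subalgebra.algebraMap_mem S r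
      | add x y hx hy ihx ihy => exact Subalgebra.add_mem S ihx ihy
      | ι_mul_ι_mul m₁ m₂ x hx ih => exact Subalgebra.mul_mem S (hvec m₁ m₂) ih
    obtain ⟨z, hz⟩ := hxS
    exact ⟨z, Subtype.ext hz⟩
  exact ⟨a, b, ha0, hb0, ⟨(AlgEquiv.ofBijective f ⟨hinj, hsurj⟩).symm⟩⟩

end Pool.Agent.Q4
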