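import Pool.Agent.Q4.StF

/-!
# Q4, module EV4: even Clifford algebras in rank four (helper40)
-/

set_option autoImplicit false

namespace Pool.Agent.Q4

open Quaternion TensorProduct Function

section
variable {K Λ : Type} [Field K] [Ring Λ] [Algebra K Λ]

/-- the coefficient of `1` -/
private theorem EV4_ind0 (c d : K) (h2 : (2 : K) ≠ 0) (hc : c ≠ 0) (hd : d ≠ 0) (I J : Λ)
    (hI : I * I = c • (1 : Λ)) (hJ : J * J = d • (1 : Λ)) (hIJ : J * I = -(I * J))
    (y0 y1 y2 y3 : Λ) (h0I : I * y0 = y0 * I) (h1I : I * y1 = y1 * I) (h2I : I * y2 = y2 * I)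
    (h3I : I * y3 = y3 * I) (h0J : J * y0 = y0 * J) (h1J : J * y1 = y1 * J)
    (h2J : J * y2 = y2 * J) (h3J : J * y3 = y3 * J)
    (h : y0 + y1 * I + y2 * J + y3 * (I * J) = 0) : y0 = 0 := by
  have h4 : (4 : K) ≠ 0 := by
    have : (4 : K) = 2 * 2 := by norm_num
    rw [this]
    exact mul_ne_zero h2 h2
  -- conjugation by `I`
  have a0 : I * y0 * I = c • y0 := by
    rw [h0I, mul_assoc, hI, mul_smul_comm, mul_one]
  have a1 : I * (y1 * I) * I = c • (y1 * I) := by
    rw [← mul_assoc, h1I, mul_assoc, hI, mul_smul_comm, mul_one]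
  have a2 : I * (y2 * J) * I = -(c • (y2 * J)) := by
    rw [← mul_assoc, h2I, mul_assoc, mul_assoc, hIJ, mul_neg, ← mul_assoc I I J, hI,
      smul_one_mul, mul_neg, mul_smul_comm]
  have a3 : I * (y3 * (I * J)) * I = -(c • (y3 * (I * J))) := by
    have : I * (y3 * (I * J)) * I = y3 * (I * (I * (J * I))) := by
      rw [← mul_assoc, h3I]; noncomm_ring
    rw [this, hIJ, mul_neg, mul_neg, mul_neg, ← mul_assoc I I, hI]
    rw [smul_one_mul, mul_smul_comm]
  -- conjugation by `J`
  have b0 : J * y0 * J = d • y0 := by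
    rw [h0J, mul_assoc, hJ, mul_smul_comm, mul_one]
  have b1 : J * (y1 * I) * J = -(d • (y1 * I)) := by
    rw [← mul_assoc, h1J, mul_assoc, mul_assoc, ← mul_assoc J I J, hIJ, neg_mul, mul_assoc,
      hJ, mul_smul_comm, mul_one, mul_neg, mul_smul_comm]
  have b2 : J * (y2 * J) * J = d • (y2 * J) := by
    rw [← mul_assoc, h2J, mul_assoc, hJ, mul_smul_comm, mul_one]
  have b3 : J * (y3 * (I * J)) * J = -(d • (y3 * (I * J))) := by
    have : J * (y3 * (I * J)) * J = y3 * ((J * I) * (J * J)) := by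
      rw [← mul_assoc, h3J]; noncomm_ring
    rw [this, hIJ, hJ, mul_smul_comm, mul_one, smul_neg, mul_neg, mul_smul_comm]
  have hK : (I * J) * (I * J) = -((c * d) • (1 : Λ)) := by
    have : (I * J) * (I * J) = I * (J * I) * J := by noncomm_ring
    rw [this, hIJ]
    have : I * -(I * J) * J = -((I * I) * (J * J)) := by noncomm_ring
    rw [this, hI, hJ, smul_mul_smul_comm, one_mul]
  have c0 : (I * J) * y0 * (I * J) = -((c * d) • y0) := by
    have : (I * J) * y0 * (I * J) = y0 * ((I * J) * (I * J)) := by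
      rw [mul_assoc I J y0, h0J, ← mul_assoc I y0 J, h0I]; noncomm_ring
    rw [this, hK, mul_neg, mul_smul_comm, mul_one]
  have hKI : (I * J) * I = -(c • J) := by
    rw [mul_assoc, hIJ, mul_neg, ← mul_assoc, hI, smul_one_mul]
  have hKJ : (I * J) * J = d • I := by
    rw [mul_assoc, hJ, mul_smul_comm, mul_one]
  have hJK : J * (I * J) = -(d • I) := by
    rw [← mul_assoc, hIJ, neg_mul, hKJ]
  have hIK : I * (I * J) = c • J := by
    rw [← mul_assoc, hI, smul_one_mul]
  have c1 : (I * J) * (y1 * I) * (I * J) = (c * d) • (y1 * I) := by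
    have : (I * J) * (y1 * I) * (I * J) = y1 * (((I * J) * I) * (I * J)) := by
      rw [← mul_assoc (I * J) y1 I, mul_assoc I J y1, h1J, ← mul_assoc I y1 J, h1I]; noncomm_ring
    rw [this, hKI, neg_mul, smul_mul_assoc, hJK, smul_neg, neg_neg, smul_smul, mul_smul_comm]
  have c2 : (I * J) * (y2 * J) * (I * J) = (c * d) • (y2 * J) := by
    have : (I * J) * (y2 * J) * (I * J) = y2 * (((I * J) * J) * (I * J)) := by
      rw [← mul_assoc (I * J) y2 J, mul_assoc I J y2, h2J, ← mul_assoc I y2 J, h2I]; noncomm_ring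
    rw [this, hKJ, smul_mul_assoc, hIK, smul_smul, mul_comm d c, mul_smul_comm]
  have c3 : (I * J) * (y3 * (I * J)) * (I * J) = -((c * d) • (y3 * (I * J))) := by
    have : (I * J) * (y3 * (I * J)) * (I * J) = y3 * ((I * J) * ((I * J) * (I * J))) := by
      rw [← mul_assoc (I * J) y3 (I * J), mul_assoc I J y3, h3J, ← mul_assoc I y3 J, h3I]
      noncomm_ring
    rw [this, hK, mul_neg, mul_smul_comm, mul_one, mul_neg, mul_smul_comm]
  set S : Λ := y0 + y1 * I + y2 * J + y3 * (I * J) with hS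
  have e1 : I * S * I = c • y0 + c • (y1 * I) + -(c • (y2 * J)) + -(c • (y3 * (I * J))) := by
    rw [hS, mul_add, mul_add, mul_add, add_mul, add_mul, add_mul, a0, a1, a2, a3]
  have e2 : J * S * J = d • y0 + -(d • (y1 * I)) + d • (y2 * J) + -(d • (y3 * (I * J))) := by
    rw [hS, mul_add, mul_add, mul_add, add_mul, add_mul, add_mul, b0, b1, b2, b3]
  have e3 : (I * J) * S * (I * J) = -((c * d) • y0) + (c * d) • (y1 * I) + (c * d) • (y2 * J)
      + -((c * d) • (y3 * (I * J))) := by
    rw [hS, mul_add, mul_add, mul_add, add_mul, add_mul, add_mul, c0, c1, c2, c3]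
  have key : (c * d) • S + d • (I * S * I) + c • (J * S * J) - (I * J) * S * (I * J)
      = (4 * (c * d)) • y0 := by
    rw [e1, e2, e3, hS]
    module
  rw [h] at key
  simp only [smul_zero, mul_zero, zero_mul, add_zero, sub_zero] at key
  exact (smul_eq_zero.1 key.symm).resolve_left (mul_ne_zero h4 (mul_ne_zero hc hd))

private theorem EV4_ind (c d : K) (h2 : (2 : K) ≠ 0) (hc : c ≠ 0) (hd : d ≠ 0) (I J : Λ)
    (hI : I * I = c • (1 : Λ)) (hJ : J * J = d • (1 : Λ)) (hIJ : J * I = -(I * J))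
    (y0 y1 y2 y3 : Λ) (h0I : I * y0 = y0 * I) (h1I : I * y1 = y1 * I) (h2I : I * y2 = y2 * I)
    (h3I : I * y3 = y3 * I) (h0J : J * y0 = y0 * J) (h1J : J * y1 = y1 * J)
    (h2J : J * y2 = y2 * J) (h3J : J * y3 = y3 * J)
    (h : y0 + y1 * I + y2 * J + y3 * (I * J) = 0) : y0 = 0 ∧ y1 = 0 ∧ y2 = 0 ∧ y3 = 0 := by
  have hz0 : y0 = 0 := EV4_ind0 c d h2 hc hd I J hI hJ hIJ y0 y1 y2 y3 h0I h1I h2I h3I h0J h1J
    h2J h3J h
  have hz1 : y1 = 0 := by
    have h' : c • y1 + y0 * I + (-(c • y3)) * J + (-y2) * (I * J) = 0 := by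
      have : c • y1 + y0 * I + (-(c • y3)) * J + (-y2) * (I * J)
          = (y0 + y1 * I + y2 * J + y3 * (I * J)) * I := by
        have e1 : y1 * I * I = c • y1 := by rw [mul_assoc, hI, mul_smul_comm, mul_one]
        have e2 : y2 * J * I = (-y2) * (I * J) := by rw [mul_assoc, hIJ]; noncomm_ring
        have e3 : y3 * (I * J) * I = (-(c • y3)) * J := by
          rw [mul_assoc, mul_assoc, hIJ, mul_neg, ← mul_assoc I I, hI, smul_one_mul, mul_neg,
            mul_smul_comm, neg_mul, smul_mul_assoc]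
        rw [add_mul, add_mul, add_mul, e1, e2, e3]
        abel
      rw [this, h, zero_mul]
    have h3 := EV4_ind0 c d h2 hc hd I J hI hJ hIJ (c • y1) y0 (-(c • y3)) (-y2)
      (by rw [mul_smul_comm, smul_mul_assoc, h1I]) h0I
      (by rw [mul_neg, neg_mul, mul_smul_comm, smul_mul_assoc, h3I])
      (by rw [mul_neg, neg_mul, h2I])
      (by rw [mul_smul_comm, smul_mul_assoc, h1J]) h0J
      (by rw [mul_neg, neg_mul, mul_smul_comm, smul_mul_assoc, h3J])
      (by rw [mul_neg, neg_mul, h2J]) h'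
    exact (smul_eq_zero.1 h3).resolve_left hc
  have hz2 : y2 = 0 := by
    have h' : d • y2 + (d • y3) * I + y0 * J + y1 * (I * J) = 0 := by
      have : d • y2 + (d • y3) * I + y0 * J + y1 * (I * J)
          = (y0 + y1 * I + y2 * J + y3 * (I * J)) * J := by
        have e1 : y1 * I * J = y1 * (I * J) := mul_assoc _ _ _
        have e2 : y2 * J * J = d • y2 := by rw [mul_assoc, hJ, mul_smul_comm, mul_one]
        have e3 : y3 * (I * J) * J = (d • y3) * I := by
          rw [mul_assoc, mul_assoc, hJ, mul_smul_comm, mul_one, mul_smul_comm, smul_mul_assoc]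
        rw [add_mul, add_mul, add_mul, e1, e2, e3]
        abel
      rw [this, h, zero_mul]
    have h3 := EV4_ind0 c d h2 hc hd I J hI hJ hIJ (d • y2) (d • y3) y0 y1
      (by rw [mul_smul_comm, smul_mul_assoc, h2I])
      (by rw [mul_smul_comm, smul_mul_assoc, h3I]) h0I h1I
      (by rw [mul_smul_comm, smul_mul_assoc, h2J])
      (by rw [mul_smul_comm, smul_mul_assoc, h3J]) h0J h1J h'
    exact (smul_eq_zero.1 h3).resolve_left hd
  refine ⟨hz0, hz1, hz2, ?_⟩
  rw [hz0, hz1, hz2, zero_mul, zero_mul, zero_add, zero_add, zero_add] at h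
  have hK : (I * J) * (I * J) = -((c * d) • (1 : Λ)) := by
    have : (I * J) * (I * J) = I * (J * I) * J := by noncomm_ring
    rw [this, hIJ]
    have : I * -(I * J) * J = -((I * I) * (J * J)) := by noncomm_ring
    rw [this, hI, hJ, smul_mul_smul_comm, one_mul]
  have h3 : y3 * ((I * J) * (I * J)) = 0 := by rw [← mul_assoc, h, zero_mul]
  rw [hK, mul_neg, mul_smul_comm, mul_one, neg_eq_zero] at h3
  exact (smul_eq_zero.1 h3).resolve_left (mul_ne_zero hc hd)


end

/-- an algebra with a central commutative subring and two anticommuting generators -/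
private theorem EV4_A {K C R : Type} [Field K] [Ring C] [Algebra K C] [CommRing R] [Algebra K R]
    (ψ : R →ₐ[K] C) (hψc : ∀ r x, ψ r * x = x * ψ r) (hψi : Injective ψ) (a b : K)
    (h2 : (2 : K) ≠ 0) (ha : a ≠ 0) (hb : b ≠ 0) (I J : C) (hI : I * I = a • (1 : C))
    (hJ : J * J = b • (1 : C)) (hIJ : J * I = -(I * J))
    (hgen : ∀ S : Subalgebra K C, I ∈ S → J ∈ S → (∀ r, ψ r ∈ S) → S = ⊤) :
    Nonempty (C ≃ₐ[K] ℍ[R,algebraMap K R a,algebraMap K R b]) := by
  let iA : Algebra R C := RingHom.toAlgebra' (ψ : R →+* C) hψc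
  have hsm : ∀ (r : R) (x : C), r • x = ψ r * x := fun r x => rfl
  have : IsScalarTower K R C := IsScalarTower.of_algebraMap_eq fun k => (ψ.commutes k).symm
  have hsa : ∀ (k : K) (x : C), algebraMap K R k • x = k • x := fun k x => by
    rw [hsm, ψ.commutes, ← Algebra.smul_def]
  let B : QuaternionAlgebra.Basis C (algebraMap K R a) 0 (algebraMap K R b) :=
    { i := I
      j := J
      k := I * J
      i_mul_i := by rw [zero_smul, add_zero, hsa]; exact hI
      j_mul_j := by rw [hsa]; exact hJ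
      i_mul_j := rfl
      j_mul_i := by
        rw [zero_smul, zero_sub]
        exact hIJ }
  let f : ℍ[R,algebraMap K R a,algebraMap K R b] →ₐ[R] C := B.liftHom
  have hf : ∀ x : ℍ[R,algebraMap K R a,algebraMap K R b], f x = ψ x.re + ψ x.imI * I +
      ψ x.imJ * J + ψ x.imK * (I * J) := fun x => rfl
  have hinj : Injective f := by
    rw [injective_iff_map_eq_zero]
    intro x hx
    rw [hf] at hx
    obtain ⟨y0, y1, y2, y3⟩ := EV4_ind a b h2 ha hb I J hI hJ hIJ (ψ x.re) (ψ x.imI) (ψ x.imJ)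
      (ψ x.imK) (hψc _ _).symm (hψc _ _).symm (hψc _ _).symm (hψc _ _).symm (hψc _ _).symm
      (hψc _ _).symm (hψc _ _).symm (hψc _ _).symm hx
    ext
    · exact hψi (y0.trans (map_zero ψ).symm)
    · exact hψi (y1.trans (map_zero ψ).symm)
    · exact hψi (y2.trans (map_zero ψ).symm)
    · exact hψi (y3.trans (map_zero ψ).symm)
  let g : ℍ[R,algebraMap K R a,algebraMap K R b] →ₐ[K] C := f.restrictScalars K
  have hsurj : Surjective g := by
    have h1 := hgen g.range ⟨⟨0, 1, 0, 0⟩, by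
        show f ⟨0, 1, 0, 0⟩ = I
        rw [hf]
        simp⟩ ⟨⟨0, 0, 1, 0⟩, by
        show f ⟨0, 0, 1, 0⟩ = J
        rw [hf]
        simp⟩ fun r => ⟨⟨r, 0, 0, 0⟩, by
        show f ⟨r, 0, 0, 0⟩ = ψ r
        rw [hf]
        simp⟩
    intro x
    have h3 : x ∈ g.range := h1 ▸ Algebra.mem_top
    exact h3
  exact ⟨(AlgEquiv.ofBijective g ⟨hinj, hsurj⟩).symm⟩

/-- quaternion algebras over a product of two fields -/
private def EV4_prod {K L : Type} [Field K] [Field L] [Algebra K L] (a b : K) :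
    ℍ[L × L,algebraMap K (L × L) a,algebraMap K (L × L) b] ≃ₐ[K]
      ℍ[L,algebraMap K L a,algebraMap K L b] × ℍ[L,algebraMap K L a,algebraMap K L b] where
  toFun x := (⟨x.re.1, x.imI.1, x.imJ.1, x.imK.1⟩, ⟨x.re.2, x.imI.2, x.imJ.2, x.imK.2⟩)
  invFun y := ⟨(y.1.re, y.2.re), (y.1.imI, y.2.imI), (y.1.imJ, y.2.imJ), (y.1.imK, y.2.imK)⟩
  left_inv _ := rfl
  right_inv _ := rfl
  map_mul' _ _ := rfl
  map_add' _ _ := rfl
  commutes' _ := rfl

/-- the field `K(√δ)`, or its square, as a subalgebra -/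
private theorem EV4_B {K C L : Type} [Field K] [Ring C] [Algebra K C] [Field L] [Algebra K L]
    (h2 : (2 : K) ≠ 0) (δ : K) (hδ : δ ≠ 0) (ζ : C) (hζ : ζ * ζ = δ • (1 : C))
    (hζc : ∀ x, ζ * x = x * ζ) (hind : ∀ p q : K, p • (1 : C) + q • ζ = 0 → p = 0 ∧ q = 0)
    (z : L) (hz : z ^ 2 = algebraMap K L δ) (hL : IntermediateField.adjoin K {z} = ⊤) :
    (∃ ψ : L →ₐ[K] C, (∀ r x, ψ r * x = x * ψ r) ∧ Injective ψ ∧ ∃ r, ψ r = ζ) ∨
      ∃ ψ : L × L →ₐ[K] C, (∀ r x, ψ r * x = x * ψ r) ∧ Injective ψ ∧ ∃ r, ψ r = ζ := by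
  have hcen : ∀ (p q : K) (x : C), (p • (1 : C) + q • ζ) * x = x * (p • (1 : C) + q • ζ) := by
    intro p q x
    rw [add_mul, mul_add, smul_mul_assoc, smul_mul_assoc, mul_smul_comm, mul_smul_comm, one_mul,
      mul_one, hζc]
  have hmul : ∀ p q p' q' : K, (p • (1 : C) + q • ζ) * (p' • (1 : C) + q' • ζ) =
      (p * p' + δ * (q * q')) • (1 : C) + (p * q' + q * p') • ζ := by
    intro p q p' q'
    rw [add_mul, mul_add, mul_add]
    simp only [smul_mul_assoc, mul_smul_comm, one_mul, mul_one, hζ]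
    module
  by_cases h : ∃ ε : K, ε ^ 2 = δ
  · right
    obtain ⟨ε, hε⟩ := h
    have hε0 : ε ≠ 0 := by
      rintro rfl
      exact hδ (by rw [← hε]; ring)
    have hzr : z ∈ (⊥ : IntermediateField K L) := by
      rw [IntermediateField.mem_bot]
      have h1 : (z - algebraMap K L ε) * (z + algebraMap K L ε) = 0 := by
        have : (z - algebraMap K L ε) * (z + algebraMap K L ε) = z ^ 2 - (algebraMap K L ε) ^ 2 := by
          ring
        rw [this, hz, ← map_pow, hε, sub_self]
      rcases mul_eq_zero.1 h1 with h3 | h3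
      · exact ⟨ε, (sub_eq_zero.1 h3).symm⟩
      · exact ⟨-ε, by rw [map_neg]; exact (eq_neg_of_add_eq_zero_left h3).symm⟩
    have hbot : (⊤ : IntermediateField K L) = ⊥ := by
      rw [← hL]
      exact IntermediateField.adjoin_simple_eq_bot_iff.2 hzr
    have hbij : Bijective (Algebra.ofId K L) := by
      refine ⟨(algebraMap K L).injective, fun x => ?_⟩
      have h1 : x ∈ (⊥ : IntermediateField K L) := hbot ▸ IntermediateField.mem_top
      exact IntermediateField.mem_bot.1 h1
    let σ : L ≃ₐ[K] K := (AlgEquiv.ofBijective (Algebra.ofId K L) hbij).symm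
    -- the coefficients of `x u + y v`
    let ψ : L × L →ₐ[K] C :=
      { toFun := fun r => ((σ r.1 + σ r.2) / 2) • (1 : C) + ((σ r.1 - σ r.2) / (2 * ε)) • ζ
        map_one' := by
          show ((σ 1 + σ 1) / 2) • (1 : C) + ((σ 1 - σ 1) / (2 * ε)) • ζ = 1
          rw [map_one, sub_self, zero_div, zero_smul, add_zero,
            show ((1 : K) + 1) / 2 = 1 by field_simp; norm_num, one_smul]
        map_zero' := by
          show ((σ 0 + σ 0) / 2) • (1 : C) + ((σ 0 - σ 0) / (2 * ε)) • ζ = 0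
          rw [map_zero]
          simp
        map_mul' := fun r r' => by
          show ((σ (r.1 * r'.1) + σ (r.2 * r'.2)) / 2) • (1 : C) +
            ((σ (r.1 * r'.1) - σ (r.2 * r'.2)) / (2 * ε)) • ζ = _
          rw [hmul, map_mul, map_mul]
          congr 2
          · rw [← hε]
            field_simp
            ring
          · field_simp
            ring
        map_add' := fun r r' => by
          show ((σ (r.1 + r'.1) + σ (r.2 + r'.2)) / 2) • (1 : C) +
            ((σ (r.1 + r'.1) - σ (r.2 + r'.2)) / (2 * ε)) • ζ = _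
          rw [map_add, map_add]
          module
        commutes' := fun k => by
          show ((σ (algebraMap K L k) + σ (algebraMap K L k)) / 2) • (1 : C) +
            ((σ (algebraMap K L k) - σ (algebraMap K L k)) / (2 * ε)) • ζ = _
          have h3 : σ (algebraMap K L k) = k := σ.commutes k
          rw [h3, sub_self, zero_div, zero_smul, add_zero,
            show (k + k) / 2 = k by field_simp; ring, Algebra.algebraMap_eq_smul_one] }
    have hψ : ∀ r, ψ r = ((σ r.1 + σ r.2) / 2) • (1 : C) + ((σ r.1 - σ r.2) / (2 * ε)) • ζ :=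
      fun r => rfl
    refine ⟨ψ, fun r x => ?_, ?_, ⟨(σ.symm ε, σ.symm (-ε)), ?_⟩⟩
    · rw [hψ]
      exact hcen _ _ x
    · rw [injective_iff_map_eq_zero]
      intro r hr
      rw [hψ] at hr
      obtain ⟨h3, h4⟩ := hind _ _ hr
      have h5 : σ r.1 + σ r.2 = 0 := (div_eq_zero_iff.1 h3).resolve_right h2
      have h6 : σ r.1 - σ r.2 = 0 := (div_eq_zero_iff.1 h4).resolve_right (mul_ne_zero h2 hε0)
      have h7 : 2 * σ r.1 = 0 := by linear_combination h5 + h6
      have h8 : σ r.1 = 0 := (mul_eq_zero.1 h7).resolve_left h2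
      have h9 : σ r.2 = 0 := by rw [h8, zero_sub, neg_eq_zero] at h6; exact h6
      exact Prod.ext (σ.injective (by rw [h8]; exact (map_zero σ).symm))
        (σ.injective (by rw [h9]; exact (map_zero σ).symm))
    · rw [hψ]
      show ((σ (σ.symm ε) + σ (σ.symm (-ε))) / 2) • (1 : C) +
        ((σ (σ.symm ε) - σ (σ.symm (-ε))) / (2 * ε)) • ζ = ζ
      rw [σ.apply_symm_apply, σ.apply_symm_apply, add_neg_cancel, zero_div, zero_smul, zero_add,
        show (ε - -ε) / (2 * ε) = 1 by field_simp; ring, one_smul]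
  · left
    push Not at h
    have hns : ∀ p q : K, p ^ 2 - δ * q ^ 2 = 0 → p = 0 ∧ q = 0 := by
      intro p q hpq
      by_cases hq : q = 0
      · rw [hq] at hpq
        have h3 : p ^ 2 = 0 := by linear_combination hpq
        exact ⟨pow_eq_zero_iff (two_ne_zero) |>.1 h3, hq⟩
      · exfalso
        refine h (p / q) ?_
        rw [div_pow, div_eq_iff (pow_ne_zero 2 hq)]
        linear_combination hpq
    have hrep : ∀ x : L, ∃ p q : K, x = algebraMap K L p + algebraMap K L q * z := by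
      intro x
      have hx : x ∈ IntermediateField.adjoin K {z} := by
        rw [hL]
        exact IntermediateField.mem_top
      induction hx using IntermediateField.adjoin_induction with
      | mem x hx =>
        rw [Set.mem_singleton_iff] at hx
        exact ⟨0, 1, by rw [hx]; simp⟩
      | algebraMap k => exact ⟨k, 0, by simp⟩
      | add x y _ _ hx hy =>
        obtain ⟨p, q, rfl⟩ := hx
        obtain ⟨p', q', rfl⟩ := hy
        exact ⟨p + p', q + q', by rw [map_add, map_add]; ring⟩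
      | inv x _ hx =>
        obtain ⟨p, q, rfl⟩ := hx
        by_cases h0 : p ^ 2 - δ * q ^ 2 = 0
        · obtain ⟨h3, h4⟩ := hns p q h0
          exact ⟨0, 0, by rw [h3, h4]; simp⟩
        · refine ⟨p / (p ^ 2 - δ * q ^ 2), -q / (p ^ 2 - δ * q ^ 2), ?_⟩
          refine inv_eq_of_mul_eq_one_left ?_
          have h3 : algebraMap K L (p ^ 2 - δ * q ^ 2) ≠ 0 := fun h5 =>
            h0 ((algebraMap K L).injective (by rw [h5, map_zero]))
          rw [map_div₀, map_div₀]
          field_simp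
          rw [map_neg, map_sub, map_mul, map_pow, map_pow, ← hz]
          ring
      | mul x y _ _ hx hy =>
        obtain ⟨p, q, rfl⟩ := hx
        obtain ⟨p', q', rfl⟩ := hy
        refine ⟨p * p' + δ * (q * q'), p * q' + q * p', ?_⟩
        simp only [map_add, map_mul]
        linear_combination (algebraMap K L q) * (algebraMap K L q') * hz
    have huniq : ∀ p q p' q' : K, algebraMap K L p + algebraMap K L q * z =
        algebraMap K L p' + algebraMap K L q' * z → p = p' ∧ q = q' := by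
      intro p q p' q' h3
      have h4 : (p - p') ^ 2 - δ * (q - q') ^ 2 = 0 := by
        apply (algebraMap K L).injective
        rw [map_sub, map_mul, map_pow, map_pow, map_sub, map_sub, map_zero, ← hz]
        have h5 : algebraMap K L p - algebraMap K L p' =
          -((algebraMap K L q - algebraMap K L q') * z) := by linear_combination h3
        rw [h5]
        ring
      obtain ⟨h5, h6⟩ := hns _ _ h4
      exact ⟨sub_eq_zero.1 h5, sub_eq_zero.1 h6⟩
    choose P Q hPQ using hrep
    have hu : ∀ (x : L) (p q : K), x = algebraMap K L p + algebraMap K L q * z →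
        P x = p ∧ Q x = q := fun x p q hx => huniq _ _ _ _ ((hPQ x).symm.trans hx)
    let ψ : L →ₐ[K] C :=
      { toFun := fun x => P x • (1 : C) + Q x • ζ
        map_one' := by
          obtain ⟨h3, h4⟩ := hu 1 1 0 (by simp)
          rw [h3, h4, one_smul, zero_smul, add_zero]
        map_zero' := by
          obtain ⟨h3, h4⟩ := hu 0 0 0 (by simp)
          rw [h3, h4, zero_smul, zero_smul, add_zero]
        map_mul' := fun x y => by
          obtain ⟨h3, h4⟩ := hu (x * y) (P x * P y + δ * (Q x * Q y)) (P x * Q y + Q x * P y) (by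
            conv_lhs => rw [hPQ x, hPQ y]
            simp only [map_add, map_mul]
            linear_combination (algebraMap K L (Q x)) * (algebraMap K L (Q y)) * hz)
          rw [h3, h4, hmul]
        map_add' := fun x y => by
          obtain ⟨h3, h4⟩ := hu (x + y) (P x + P y) (Q x + Q y) (by
            conv_lhs => rw [hPQ x, hPQ y]
            simp only [map_add]
            ring)
          rw [h3, h4]
          module
        commutes' := fun k => by
          obtain ⟨h3, h4⟩ := hu (algebraMap K L k) k 0 (by simp)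
          rw [h3, h4, zero_smul, add_zero, Algebra.algebraMap_eq_smul_one] }
    have hψ : ∀ x, ψ x = P x • (1 : C) + Q x • ζ := fun x => rfl
    refine ⟨ψ, fun r x => ?_, ?_, ⟨z, ?_⟩⟩
    · rw [hψ]
      exact hcen _ _ x
    · rw [injective_iff_map_eq_zero]
      intro x hx
      rw [hψ] at hx
      obtain ⟨h3, h4⟩ := hind _ _ hx
      rw [hPQ x, h3, h4]
      simp
    · obtain ⟨h3, h4⟩ := hu z 0 1 (by simp)
      rw [hψ, h3, h4, one_smul, zero_smul, zero_add]

/-- anticommuting with a product -/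
private theorem EV4_anti {E : Type} [Ring E] {x y y' : E} (h : x * y = y * x)
    (h' : x * y' = -(y' * x)) : x * (y * y') = -((y * y') * x) := by
  rw [← mul_assoc, h, mul_assoc, h', mul_neg, ← mul_assoc]

private theorem EV4_anti' {E : Type} [Ring E] {x y y' : E} (h : x * y = -(y * x))
    (h' : x * y' = y' * x) : x * (y * y') = -((y * y') * x) := by
  rw [← mul_assoc, h, neg_mul, mul_assoc, h', ← mul_assoc]

private theorem EV4_comm {E : Type} [Ring E] {x y y' : E} (h : x * y = -(y * x))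
    (h' : x * y' = -(y' * x)) : x * (y * y') = (y * y') * x := by
  rw [← mul_assoc, h, neg_mul, mul_assoc, h', mul_neg, neg_neg, ← mul_assoc]

/-- the even Clifford algebra of a diagonal form of rank four -/
private theorem EV4_data {K : Type} [Field K] (w : Fin 4 → K) (h2 : (2 : K) ≠ 0)
    (hw : ∀ i, w i ≠ 0) :
    ∃ I J ζ : CliffordAlgebra.even (QuadraticMap.weightedSumSquares K w),
      I * I = (-(w 0 * w 1)) • 1 ∧ J * J = (-(w 0 * w 2)) • 1 ∧ J * I = -(I * J) ∧
      ζ * ζ = (w 0 * w 1 * w 2 * w 3) • 1 ∧ (∀ x, ζ * x = x * ζ) ∧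
      (∀ p q : K, p • (1 : CliffordAlgebra.even (QuadraticMap.weightedSumSquares K w)) +
        q • ζ = 0 → p = 0 ∧ q = 0) ∧
      ∀ S : Subalgebra K (CliffordAlgebra.even (QuadraticMap.weightedSumSquares K w)),
        I ∈ S → J ∈ S → ζ ∈ S → S = ⊤ := by
  classical
  set Q := QuadraticMap.weightedSumSquares K w with hQ
  have hQv : ∀ v, Q v = ∑ i, w i • (v i * v i) := fun v =>
    QuadraticMap.weightedSumSquares_apply w v
  have hQs : ∀ i, Q (Pi.single i 1) = w i := by
    intro i
    rw [hQv, Finset.sum_eq_single i]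
    · simp
    · intro j _ hj
      simp [Pi.single_eq_of_ne hj]
    · intro h
      exact absurd (Finset.mem_univ _) h
  have hort : ∀ i j : Fin 4, i ≠ j → Q.IsOrtho (Pi.single i 1) (Pi.single j 1) := by
    intro i j hij
    unfold QuadraticMap.IsOrtho
    rw [hQv, hQv, hQv, ← Finset.sum_add_distrib]
    refine Finset.sum_congr rfl fun k _ => ?_
    by_cases hk : k = i
    · subst hk
      simp [Pi.single_eq_of_ne hij]
    · simp [Pi.single_eq_of_ne hk]
  have hmem : ∀ x y : Fin 4 → K, CliffordAlgebra.ι Q x * CliffordAlgebra.ι Q y ∈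
      CliffordAlgebra.even Q := fun x y => CliffordAlgebra.ι_mul_ι_mem_evenOdd_zero Q x y
  set e : Fin 4 → CliffordAlgebra Q := fun i => CliffordAlgebra.ι Q (Pi.single i 1) with he
  have hsq : ∀ i, e i * e i = algebraMap K _ (w i) := fun i => by
    rw [← hQs i]
    exact CliffordAlgebra.ι_sq_scalar Q (Pi.single i 1)
  have hsq' : ∀ i, e i * e i = w i • (1 : CliffordAlgebra Q) := fun i => by
    rw [hsq, Algebra.algebraMap_eq_smul_one]
  have hsw : ∀ i j, i ≠ j → e i * e j = -(e j * e i) := fun i j hij =>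
    CliffordAlgebra.ι_mul_ι_comm_of_isOrtho (hort i j hij)
  -- the elements `u i = e 0 * e i` of the even Clifford algebra
  let u : Fin 4 → CliffordAlgebra.even Q := fun i => ⟨e 0 * e i, hmem _ _⟩
  have hprod : ∀ i j, i ≠ 0 → ((u i * u j : CliffordAlgebra.even Q) : CliffordAlgebra Q)
      = -(w 0 • (e i * e j)) := by
    intro i j hi
    change (e 0 * e i) * (e 0 * e j) = _
    have h3 : (e 0 * e i) * (e 0 * e j) = e 0 * (e i * e 0) * e j := by noncomm_ring
    have h4 : e 0 * -(e 0 * e i) * e j = -((e 0 * e 0) * (e i * e j)) := by noncomm_ring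
    rw [h3, hsw i 0 hi, h4, hsq, Algebra.smul_def]
  have husq : ∀ i, i ≠ 0 → u i * u i = (-(w 0 * w i)) • (1 : CliffordAlgebra.even Q) := by
    intro i hi
    apply Subtype.ext
    rw [hprod i i hi, hsq']
    change _ = (-(w 0 * w i)) • (1 : CliffordAlgebra Q)
    rw [neg_smul, mul_smul]
  have husw : ∀ i j, i ≠ 0 → j ≠ 0 → i ≠ j → u j * u i = -(u i * u j) := by
    intro i j hi hj hij
    apply Subtype.ext
    rw [hprod j i hj]
    change _ = -((u i * u j : CliffordAlgebra.even Q) : CliffordAlgebra Q)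
    rw [hprod i j hi, hsw j i hij.symm, smul_neg]
  -- the central element
  have hζm : e 0 * e 1 * (e 2 * e 3) ∈ CliffordAlgebra.even Q :=
    Subalgebra.mul_mem _ (hmem _ _) (hmem _ _)
  set Z : CliffordAlgebra Q := e 0 * e 1 * (e 2 * e 3) with hZ
  have hZe : ∀ i, e i * Z = -(Z * e i) := by
    intro i
    fin_cases i
    · exact EV4_anti' (EV4_anti rfl (hsw 0 1 (by decide)))
        (EV4_comm (hsw 0 2 (by decide)) (hsw 0 3 (by decide)))
    · exact EV4_anti' (EV4_anti' (hsw 1 0 (by decide)) rfl)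
        (EV4_comm (hsw 1 2 (by decide)) (hsw 1 3 (by decide)))
    · exact EV4_anti (EV4_comm (hsw 2 0 (by decide)) (hsw 2 1 (by decide)))
        (EV4_anti rfl (hsw 2 3 (by decide)))
    · exact EV4_anti (EV4_comm (hsw 3 0 (by decide)) (hsw 3 1 (by decide)))
        (EV4_anti' (hsw 3 2 (by decide)) rfl)
  have hι : ∀ m : Fin 4 → K, CliffordAlgebra.ι Q m = ∑ i, m i • e i := by
    intro m
    have h : m = ∑ i, m i • (Pi.single i 1 : Fin 4 → K) := by
      ext k
      simp [Finset.sum_apply, Pi.single_apply]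
    conv_lhs => rw [h]
    rw [map_sum]
    simp only [map_smul]
    rfl
  have hZι : ∀ m : Fin 4 → K, CliffordAlgebra.ι Q m * Z = -(Z * CliffordAlgebra.ι Q m) := by
    intro m
    rw [hι, Finset.sum_mul, Finset.mul_sum, ← Finset.sum_neg_distrib]
    refine Finset.sum_congr rfl fun i _ => ?_
    rw [smul_mul_assoc, mul_smul_comm, hZe, smul_neg]
  have hZc : ∀ x : CliffordAlgebra Q, x ∈ CliffordAlgebra.even Q → Z * x = x * Z := by
    intro x hx
    have hx' : x ∈ CliffordAlgebra.evenOdd Q 0 := hx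
    clear hx
    induction x, hx' using CliffordAlgebra.even_induction with
    | algebraMap r => exact (Algebra.commutes r Z).symm
    | add x y hx hy ihx ihy => rw [mul_add, add_mul, ihx, ihy]
    | ι_mul_ι_mul m₁ m₂ x hx ih =>
      have h3 := EV4_comm (x := Z) (y := CliffordAlgebra.ι Q m₁) (y' := CliffordAlgebra.ι Q m₂)
        (by rw [hZι, neg_neg]) (by rw [hZι, neg_neg])
      rw [← mul_assoc, h3, mul_assoc, ih, ← mul_assoc]
  have hZZ : Z * Z = (w 0 * w 1 * w 2 * w 3) • (1 : CliffordAlgebra Q) := by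
    have h3 : (e 0 * e 1) * (e 0 * e 1) = -((w 0 * w 1) • (1 : CliffordAlgebra Q)) := by
      have h4 : (e 0 * e 1) * (e 0 * e 1) = e 0 * (e 1 * e 0) * e 1 := by noncomm_ring
      have h5 : e 0 * -(e 0 * e 1) * e 1 = -((e 0 * e 0) * (e 1 * e 1)) := by noncomm_ring
      rw [h4, hsw 1 0 (by decide), h5, hsq', hsq', smul_mul_smul_comm, one_mul]
    have h4 : (e 2 * e 3) * (e 2 * e 3) = -((w 2 * w 3) • (1 : CliffordAlgebra Q)) := by
      have h4 : (e 2 * e 3) * (e 2 * e 3) = e 2 * (e 3 * e 2) * e 3 := by noncomm_ring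
      have h5 : e 2 * -(e 2 * e 3) * e 3 = -((e 2 * e 2) * (e 3 * e 3)) := by noncomm_ring
      rw [h4, hsw 3 2 (by decide), h5, hsq', hsq', smul_mul_smul_comm, one_mul]
    have h5 : (e 2 * e 3) * (e 0 * e 1) = (e 0 * e 1) * (e 2 * e 3) := by
      have h6 : e 0 * (e 2 * e 3) = (e 2 * e 3) * e 0 :=
        EV4_comm (hsw 0 2 (by decide)) (hsw 0 3 (by decide))
      have h7 : e 1 * (e 2 * e 3) = (e 2 * e 3) * e 1 :=
        EV4_comm (hsw 1 2 (by decide)) (hsw 1 3 (by decide))
      rw [← mul_assoc (e 2 * e 3), ← h6, mul_assoc (e 0), ← h7, ← mul_assoc (e 0)]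
    have h6 : Z * Z = (e 0 * e 1) * ((e 2 * e 3) * (e 0 * e 1)) * (e 2 * e 3) := by
      rw [hZ]; noncomm_ring
    have h7 : (e 0 * e 1) * ((e 0 * e 1) * (e 2 * e 3)) * (e 2 * e 3) =
        ((e 0 * e 1) * (e 0 * e 1)) * ((e 2 * e 3) * (e 2 * e 3)) := by noncomm_ring
    rw [h6, h5, h7, h3, h4, neg_mul_neg, smul_mul_smul_comm, one_mul]
    congr 1
    ring
  let _ : Invertible (2 : K) := invertibleOfNonzero h2
  have hntE : Nontrivial (CliffordAlgebra Q) := inferInstance
  refine ⟨u 1, u 2, ⟨Z, hζm⟩, husq 1 (by decide), husq 2 (by decide),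
    husw 1 2 (by decide) (by decide) (by decide), Subtype.ext hZZ,
    fun x => Subtype.ext (hZc x x.2), fun p q hpq => ?_, fun S h1 h3 h4 => ?_⟩
  · have h3 : p • (1 : CliffordAlgebra Q) + q • Z = 0 := congrArg Subtype.val hpq
    have h4 : p • e 0 + q • (Z * e 0) = 0 := by
      have h5 := congrArg (· * e 0) h3
      simp only [add_mul, smul_mul_assoc, one_mul, zero_mul] at h5
      exact h5
    have h5 : p • e 0 - q • (Z * e 0) = 0 := by
      have h5 := congrArg (e 0 * ·) h3
      simp only [mul_add, mul_smul_comm, mul_one, mul_zero, hZe, smul_neg] at h5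
      rw [sub_eq_add_neg]
      exact h5
    have h6 : (2 * p * w 0) • (1 : CliffordAlgebra Q) = 0 := by
      have h7 : (2 * p) • e 0 = 0 := by
        have h8 : (p • e 0 + q • (Z * e 0)) + (p • e 0 - q • (Z * e 0)) = 0 := by
          rw [h4, h5, add_zero]
        rw [← h8]
        module
      have h8 := congrArg (· * e 0) h7
      simp only [smul_mul_assoc, zero_mul, hsq', smul_smul] at h8
      exact h8
    have hp : p = 0 := by
      rcases smul_eq_zero.1 h6 with h7 | h7
      · exact (mul_eq_zero.1 ((mul_eq_zero.1 h7).resolve_right (hw 0))).resolve_left h2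
      · exact absurd h7 one_ne_zero
    refine ⟨hp, ?_⟩
    rw [hp, zero_smul, zero_add] at h3
    refine (smul_eq_zero.1 h3).resolve_right fun h7 => ?_
    rw [h7, mul_zero] at hZZ
    rcases smul_eq_zero.1 hZZ.symm with h8 | h8
    · exact mul_ne_zero (mul_ne_zero (mul_ne_zero (hw 0) (hw 1)) (hw 2)) (hw 3) h8
    · exact one_ne_zero h8
  · -- `u 3` is in `S`
    have hw3 : w 0 * w 1 * w 2 ≠ 0 := mul_ne_zero (mul_ne_zero (hw 0) (hw 1)) (hw 2)
    have h5 : u 1 * u 2 * ⟨Z, hζm⟩ = (w 0 * w 1 * w 2) • u 3 := by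
      apply Subtype.ext
      change ((u 1 * u 2 : CliffordAlgebra.even Q) : CliffordAlgebra Q) * Z =
        (w 0 * w 1 * w 2) • (e 0 * e 3)
      rw [hprod 1 2 (by decide)]
      have h6 : e 0 * (e 1 * e 2) = (e 1 * e 2) * e 0 :=
        EV4_comm (hsw 0 1 (by decide)) (hsw 0 2 (by decide))
      have h7 : (e 1 * e 2) * (e 1 * e 2) = -((w 1 * w 2) • (1 : CliffordAlgebra Q)) := by
        have h4 : (e 1 * e 2) * (e 1 * e 2) = e 1 * (e 2 * e 1) * e 2 := by noncomm_ring
        have h5 : e 1 * -(e 1 * e 2) * e 2 = -((e 1 * e 1) * (e 2 * e 2)) := by noncomm_ring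
        rw [h4, hsw 2 1 (by decide), h5, hsq', hsq', smul_mul_smul_comm, one_mul]
      have h8 : (e 1 * e 2) * Z = -((w 1 * w 2) • (e 0 * e 3)) := by
        have h9 : (e 1 * e 2) * Z = ((e 1 * e 2) * e 0) * (e 1 * e 2) * e 3 := by
          rw [hZ]; noncomm_ring
        have h10 : e 0 * (e 1 * e 2) * (e 1 * e 2) * e 3 =
          e 0 * ((e 1 * e 2) * (e 1 * e 2)) * e 3 := by noncomm_ring
        rw [h9, ← h6, h10, h7, mul_neg, mul_smul_comm, mul_one, neg_mul, smul_mul_assoc]
      rw [neg_mul, smul_mul_assoc, h8, smul_neg, neg_neg, smul_smul]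
      congr 1
      ring
    have r3 : u 3 ∈ S := by
      have h6 := Subalgebra.smul_mem S (Subalgebra.mul_mem S (Subalgebra.mul_mem S h1 h3) h4)
        (w 0 * w 1 * w 2)⁻¹
      rwa [h5, smul_smul, inv_mul_cancel₀ hw3, one_smul] at h6
    have r0 : u 0 ∈ S := by
      have : u 0 = w 0 • (1 : CliffordAlgebra.even Q) := by
        apply Subtype.ext
        change e 0 * e 0 = w 0 • (1 : CliffordAlgebra Q)
        rw [hsq']
      rw [this]
      exact Subalgebra.smul_mem S (Subalgebra.one_mem S) _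
    have rall : ∀ i, u i ∈ S := by
      intro i
      fin_cases i
      · exact r0
      · exact h1
      · exact h3
      · exact r3
    let T : Subalgebra K (CliffordAlgebra Q) := S.map (CliffordAlgebra.even Q).val
    have hT : ∀ x : CliffordAlgebra.even Q, x ∈ S → (x : CliffordAlgebra Q) ∈ T := fun x hx =>
      ⟨x, hx, rfl⟩
    have hall : ∀ i j, e i * e j ∈ T := by
      intro i j
      by_cases hi : i = 0
      · rw [hi]
        exact hT (u j) (rall j)
      · have h3 := hT _ (Subalgebra.mul_mem S (rall i) (rall j))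
        rw [hprod i j hi] at h3
        have h4 := Subalgebra.smul_mem T (Subalgebra.neg_mem T h3) (w 0)⁻¹
        rwa [neg_neg, smul_smul, inv_mul_cancel₀ (hw 0), one_smul] at h4
    have hvec : ∀ x y : Fin 4 → K, CliffordAlgebra.ι Q x * CliffordAlgebra.ι Q y ∈ T := by
      intro x y
      rw [hι, hι, Finset.sum_mul_sum]
      refine Subalgebra.sum_mem T fun i _ => Subalgebra.sum_mem T fun j _ => ?_
      rw [smul_mul_assoc, mul_smul_comm]
      exact Subalgebra.smul_mem T (Subalgebra.smul_mem T (hall i j) _) _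
    rw [eq_top_iff]
    rintro ⟨x, hx⟩ -
    have hxT : x ∈ T := by
      have hx' : x ∈ CliffordAlgebra.evenOdd Q 0 := hx
      clear hx
      induction x, hx' using CliffordAlgebra.even_induction with
      | algebraMap r => exact Subalgebra.algebraMap_mem T r
      | add x y hx hy ihx ihy => exact Subalgebra.add_mem T ihx ihy
      | ι_mul_ι_mul m₁ m₂ x hx ih => exact Subalgebra.mul_mem T (hvec m₁ m₂) ih
    obtain ⟨y, hy, hyx⟩ := hxT
    have h6 : y = ⟨x, hx⟩ := Subtype.ext hyx
    rw [← h6]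
    exact hy

theorem thm_EV4 : St_EV4 := by
  intro K _ w h2 hw L _ _ z hz hL
  obtain ⟨I, J, ζ, hI, hJ, hIJ, hζ, hζc, hind, hgen⟩ := EV4_data w h2 hw
  have hδ : w 0 * w 1 * w 2 * w 3 ≠ 0 :=
    mul_ne_zero (mul_ne_zero (mul_ne_zero (hw 0) (hw 1)) (hw 2)) (hw 3)
  have ha : -(w 0 * w 1) ≠ 0 := neg_ne_zero.2 (mul_ne_zero (hw 0) (hw 1))
  have hb : -(w 0 * w 2) ≠ 0 := neg_ne_zero.2 (mul_ne_zero (hw 0) (hw 2))
  have hinj0 : ∀ k : K, k ≠ 0 → algebraMap K L k ≠ 0 := fun k hk h =>
    hk ((algebraMap K L).injective (by rw [h, map_zero]))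
  refine ⟨algebraMap K L (-(w 0 * w 1)), algebraMap K L (-(w 0 * w 2)), hinj0 _ ha, hinj0 _ hb, ?_⟩
  rcases EV4_B h2 _ hδ ζ hζ hζc hind z hz hL with ⟨ψ, h1, h3, r, hr⟩ | ⟨ψ, h1, h3, r, hr⟩
  · left
    exact EV4_A ψ h1 h3 _ _ h2 ha hb I J hI hJ hIJ fun S hS1 hS2 hS3 => hgen S hS1 hS2 (hr ▸ hS3 r)
  · right
    obtain ⟨e⟩ := EV4_A ψ h1 h3 _ _ h2 ha hb I J hI hJ hIJ
      fun S hS1 hS2 hS3 => hgen S hS1 hS2 (hr ▸ hS3 r)
    exact ⟨e.trans (EV4_prod _ _)⟩

end Pool.Agent.Q4
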