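import Pool.Agent.Q4.StF

/-! Q4, module EV5: even Clifford algebras in rank five. -/

set_option autoImplicit false

namespace Pool.Agent.Q4

theorem EV5_polar {K : Type} [Field K] {n : ℕ} (w x y : Fin n → K) :
    QuadraticMap.polarBilin (QuadraticMap.weightedSumSquares K w) x y =
      ∑ i, 2 * (w i * x i * y i) := by
  rw [QuadraticMap.polarBilin_apply_apply, QuadraticMap.polar,
    QuadraticMap.weightedSumSquares_apply, QuadraticMap.weightedSumSquares_apply,
    QuadraticMap.weightedSumSquares_apply, ← Finset.sum_sub_distrib, ← Finset.sum_sub_distrib]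
  refine Finset.sum_congr rfl fun i _ => ?_
  simp only [smul_eq_mul, Pi.add_apply]
  ring

theorem EV5_nondeg {K : Type} [Field K] {n : ℕ} (w : Fin n → K) (h2 : (2 : K) ≠ 0)
    (hw : ∀ i, w i ≠ 0) :
    (QuadraticMap.polarBilin (QuadraticMap.weightedSumSquares K w)).Nondegenerate := by
  classical
  have hs : ∀ (x : Fin n → K) (i : Fin n),
      QuadraticMap.polarBilin (QuadraticMap.weightedSumSquares K w) x (Pi.single i 1) =
        2 * (w i * x i) := by
    intro x i
    rw [EV5_polar, Finset.sum_eq_single i]
    · rw [Pi.single_eq_same, mul_one]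
    · intro j _ hj
      rw [Pi.single_eq_of_ne hj, mul_zero, mul_zero]
    · intro h
      exact absurd (Finset.mem_univ i) h
  have hsym : ∀ x y : Fin n → K,
      QuadraticMap.polarBilin (QuadraticMap.weightedSumSquares K w) x y =
        QuadraticMap.polarBilin (QuadraticMap.weightedSumSquares K w) y x := by
    intro x y
    rw [EV5_polar, EV5_polar]
    refine Finset.sum_congr rfl fun i _ => ?_
    ring
  have hl : ∀ x : Fin n → K, (∀ y,
      QuadraticMap.polarBilin (QuadraticMap.weightedSumSquares K w) x y = 0) → x = 0 := by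
    intro x hx
    funext i
    have h := hx (Pi.single i 1)
    rw [hs] at h
    rcases mul_eq_zero.1 h with h | h
    · exact absurd h h2
    rcases mul_eq_zero.1 h with h | h
    · exact absurd h (hw i)
    · exact h
  refine ⟨fun x hx => hl x hx, fun y hy => hl y fun x => ?_⟩
  rw [hsym]
  exact hy x

theorem thm_EV5 (h : St_QUIN) : St_EV5 := fun K _ w h2 hw =>
  h K (QuadraticMap.weightedSumSquares K w) h2 (EV5_nondeg w h2 hw)

end Pool.Agent.Q4
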