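import Pool.Agent.Q4.StF

/-!
# Q4, module EV6: even Clifford algebras in rank six (helper65)
-/

set_option autoImplicit false

namespace Pool.Agent.Q4

open Function Quaternion TensorProduct

section
variable {K Λ : Type} [Field K] [Ring Λ] [Algebra K Λ]

/-- the coefficient of `1` -/
private theorem EV6_ind0 (c d : K) (h2 : (2 : K) ≠ 0) (hc : c ≠ 0) (hd : d ≠ 0) (I J : Λ)
    (hI : I * I = c • (1 : Λ)) (hJ : J * J = d • (1 : Λ)) (hIJ : J * I = -(I * J))
    (y0 y1 y2 y3 : Λ) (h0I : I * y0 = y0 * I) (h1I : I * y1 = y1 * I) (h2I : I * y2 = y2 * I)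
    (h3I : I * y3 = y3 * I) (h0J : J * y0 = y0 * J) (h1J : J * y1 = y1 * J)
    (h2J : J * y2 = y2 * J) (h3J : J * y3 = y3 * J)
    (h : y0 + y1 * I + y2 * J + y3 * (I * J) = 0) : y0 = 0 := by
  have h4 : (4 : K) ≠ 0 := by
    have : (4 : K) = 2 * 2 := by norm_num
    rw [this]
    exact mul_ne_zero h2 h2
  -- conjugation by `I`
  have a0 : I * y0 * I = c • y0 := by
    rw [h0I, mul_assoc, hI, mul_smul_comm, mul_one]
  have a1 : I * (y1 * I) * I = c • (y1 * I) := by
    rw [← mul_assoc, h1I, mul_assoc, hI, mul_smul_comm, mul_one]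
  have a2 : I * (y2 * J) * I = -(c • (y2 * J)) := by
    rw [← mul_assoc, h2I, mul_assoc, mul_assoc, hIJ, mul_neg, ← mul_assoc I I J, hI,
      smul_one_mul, mul_neg, mul_smul_comm]
  have a3 : I * (y3 * (I * J)) * I = -(c • (y3 * (I * J))) := by
    have : I * (y3 * (I * J)) * I = y3 * (I * (I * (J * I))) := by
      rw [← mul_assoc, h3I]; noncomm_ring
    rw [this, hIJ, mul_neg, mul_neg, mul_neg, ← mul_assoc I I, hI]
    rw [smul_one_mul, mul_smul_comm]
  -- conjugation by `J`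
  have b0 : J * y0 * J = d • y0 := by
    rw [h0J, mul_assoc, hJ, mul_smul_comm, mul_one]
  have b1 : J * (y1 * I) * J = -(d • (y1 * I)) := by
    rw [← mul_assoc, h1J, mul_assoc, mul_assoc, ← mul_assoc J I J, hIJ, neg_mul, mul_assoc,
      hJ, mul_smul_comm, mul_one, mul_neg, mul_smul_comm]
  have b2 : J * (y2 * J) * J = d • (y2 * J) := by
    rw [← mul_assoc, h2J, mul_assoc, hJ, mul_smul_comm, mul_one]
  have b3 : J * (y3 * (I * J)) * J = -(d • (y3 * (I * J))) := by
    have : J * (y3 * (I * J)) * J = y3 * ((J * I) * (J * J)) := by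
      rw [← mul_assoc, h3J]; noncomm_ring
    rw [this, hIJ, hJ, mul_smul_comm, mul_one, smul_neg, mul_neg, mul_smul_comm]
  have hK : (I * J) * (I * J) = -((c * d) • (1 : Λ)) := by
    have : (I * J) * (I * J) = I * (J * I) * J := by noncomm_ring
    rw [this, hIJ]
    have : I * -(I * J) * J = -((I * I) * (J * J)) := by noncomm_ring
    rw [this, hI, hJ, smul_mul_smul_comm, one_mul]
  have c0 : (I * J) * y0 * (I * J) = -((c * d) • y0) := by
    have : (I * J) * y0 * (I * J) = y0 * ((I * J) * (I * J)) := by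
      rw [mul_assoc I J y0, h0J, ← mul_assoc I y0 J, h0I]; noncomm_ring
    rw [this, hK, mul_neg, mul_smul_comm, mul_one]
  have hKI : (I * J) * I = -(c • J) := by
    rw [mul_assoc, hIJ, mul_neg, ← mul_assoc, hI, smul_one_mul]
  have hKJ : (I * J) * J = d • I := by
    rw [mul_assoc, hJ, mul_smul_comm, mul_one]
  have hJK : J * (I * J) = -(d • I) := by
    rw [← mul_assoc, hIJ, neg_mul, hKJ]
  have hIK : I * (I * J) = c • J := by
    rw [← mul_assoc, hI, smul_one_mul]
  have c1 : (I * J) * (y1 * I) * (I * J) = (c * d) • (y1 * I) := by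
    have : (I * J) * (y1 * I) * (I * J) = y1 * (((I * J) * I) * (I * J)) := by
      rw [← mul_assoc (I * J) y1 I, mul_assoc I J y1, h1J, ← mul_assoc I y1 J, h1I]; noncomm_ring
    rw [this, hKI, neg_mul, smul_mul_assoc, hJK, smul_neg, neg_neg, smul_smul, mul_smul_comm]
  have c2 : (I * J) * (y2 * J) * (I * J) = (c * d) • (y2 * J) := by
    have : (I * J) * (y2 * J) * (I * J) = y2 * (((I * J) * J) * (I * J)) := by
      rw [← mul_assoc (I * J) y2 J, mul_assoc I J y2, h2J, ← mul_assoc I y2 J, h2I]; noncomm_ring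
    rw [this, hKJ, smul_mul_assoc, hIK, smul_smul, mul_comm d c, mul_smul_comm]
  have c3 : (I * J) * (y3 * (I * J)) * (I * J) = -((c * d) • (y3 * (I * J))) := by
    have : (I * J) * (y3 * (I * J)) * (I * J) = y3 * ((I * J) * ((I * J) * (I * J))) := by
      rw [← mul_assoc (I * J) y3 (I * J), mul_assoc I J y3, h3J, ← mul_assoc I y3 J, h3I]
      noncomm_ring
    rw [this, hK, mul_neg, mul_smul_comm, mul_one, mul_neg, mul_smul_comm]
  set S : Λ := y0 + y1 * I + y2 * J + y3 * (I * J) with hS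
  have e1 : I * S * I = c • y0 + c • (y1 * I) + -(c • (y2 * J)) + -(c • (y3 * (I * J))) := by
    rw [hS, mul_add, mul_add, mul_add, add_mul, add_mul, add_mul, a0, a1, a2, a3]
  have e2 : J * S * J = d • y0 + -(d • (y1 * I)) + d • (y2 * J) + -(d • (y3 * (I * J))) := by
    rw [hS, mul_add, mul_add, mul_add, add_mul, add_mul, add_mul, b0, b1, b2, b3]
  have e3 : (I * J) * S * (I * J) = -((c * d) • y0) + (c * d) • (y1 * I) + (c * d) • (y2 * J)
      + -((c * d) • (y3 * (I * J))) := by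
    rw [hS, mul_add, mul_add, mul_add, add_mul, add_mul, add_mul, c0, c1, c2, c3]
  have key : (c * d) • S + d • (I * S * I) + c • (J * S * J) - (I * J) * S * (I * J)
      = (4 * (c * d)) • y0 := by
    rw [e1, e2, e3, hS]
    module
  rw [h] at key
  simp only [smul_zero, mul_zero, zero_mul, add_zero, sub_zero] at key
  exact (smul_eq_zero.1 key.symm).resolve_left (mul_ne_zero h4 (mul_ne_zero hc hd))

private theorem EV6_ind (c d : K) (h2 : (2 : K) ≠ 0) (hc : c ≠ 0) (hd : d ≠ 0) (I J : Λ)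
    (hI : I * I = c • (1 : Λ)) (hJ : J * J = d • (1 : Λ)) (hIJ : J * I = -(I * J))
    (y0 y1 y2 y3 : Λ) (h0I : I * y0 = y0 * I) (h1I : I * y1 = y1 * I) (h2I : I * y2 = y2 * I)
    (h3I : I * y3 = y3 * I) (h0J : J * y0 = y0 * J) (h1J : J * y1 = y1 * J)
    (h2J : J * y2 = y2 * J) (h3J : J * y3 = y3 * J)
    (h : y0 + y1 * I + y2 * J + y3 * (I * J) = 0) : y0 = 0 ∧ y1 = 0 ∧ y2 = 0 ∧ y3 = 0 := by
  have hz0 : y0 = 0 := EV6_ind0 c d h2 hc hd I J hI hJ hIJ y0 y1 y2 y3 h0I h1I h2I h3I h0J h1J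
    h2J h3J h
  have hz1 : y1 = 0 := by
    have h' : c • y1 + y0 * I + (-(c • y3)) * J + (-y2) * (I * J) = 0 := by
      have : c • y1 + y0 * I + (-(c • y3)) * J + (-y2) * (I * J)
          = (y0 + y1 * I + y2 * J + y3 * (I * J)) * I := by
        have e1 : y1 * I * I = c • y1 := by rw [mul_assoc, hI, mul_smul_comm, mul_one]
        have e2 : y2 * J * I = (-y2) * (I * J) := by rw [mul_assoc, hIJ]; noncomm_ring
        have e3 : y3 * (I * J) * I = (-(c • y3)) * J := by
          rw [mul_assoc, mul_assoc, hIJ, mul_neg, ← mul_assoc I I, hI, smul_one_mul, mul_neg,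
            mul_smul_comm, neg_mul, smul_mul_assoc]
        rw [add_mul, add_mul, add_mul, e1, e2, e3]
        abel
      rw [this, h, zero_mul]
    have h3 := EV6_ind0 c d h2 hc hd I J hI hJ hIJ (c • y1) y0 (-(c • y3)) (-y2)
      (by rw [mul_smul_comm, smul_mul_assoc, h1I]) h0I
      (by rw [mul_neg, neg_mul, mul_smul_comm, smul_mul_assoc, h3I])
      (by rw [mul_neg, neg_mul, h2I])
      (by rw [mul_smul_comm, smul_mul_assoc, h1J]) h0J
      (by rw [mul_neg, neg_mul, mul_smul_comm, smul_mul_assoc, h3J])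
      (by rw [mul_neg, neg_mul, h2J]) h'
    exact (smul_eq_zero.1 h3).resolve_left hc
  have hz2 : y2 = 0 := by
    have h' : d • y2 + (d • y3) * I + y0 * J + y1 * (I * J) = 0 := by
      have : d • y2 + (d • y3) * I + y0 * J + y1 * (I * J)
          = (y0 + y1 * I + y2 * J + y3 * (I * J)) * J := by
        have e1 : y1 * I * J = y1 * (I * J) := mul_assoc _ _ _
        have e2 : y2 * J * J = d • y2 := by rw [mul_assoc, hJ, mul_smul_comm, mul_one]
        have e3 : y3 * (I * J) * J = (d • y3) * I := by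
          rw [mul_assoc, mul_assoc, hJ, mul_smul_comm, mul_one, mul_smul_comm, smul_mul_assoc]
        rw [add_mul, add_mul, add_mul, e1, e2, e3]
        abel
      rw [this, h, zero_mul]
    have h3 := EV6_ind0 c d h2 hc hd I J hI hJ hIJ (d • y2) (d • y3) y0 y1
      (by rw [mul_smul_comm, smul_mul_assoc, h2I])
      (by rw [mul_smul_comm, smul_mul_assoc, h3I]) h0I h1I
      (by rw [mul_smul_comm, smul_mul_assoc, h2J])
      (by rw [mul_smul_comm, smul_mul_assoc, h3J]) h0J h1J h'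
    exact (smul_eq_zero.1 h3).resolve_left hd
  refine ⟨hz0, hz1, hz2, ?_⟩
  rw [hz0, hz1, hz2, zero_mul, zero_mul, zero_add, zero_add, zero_add] at h
  have hK : (I * J) * (I * J) = -((c * d) • (1 : Λ)) := by
    have : (I * J) * (I * J) = I * (J * I) * J := by noncomm_ring
    rw [this, hIJ]
    have : I * -(I * J) * J = -((I * I) * (J * J)) := by noncomm_ring
    rw [this, hI, hJ, smul_mul_smul_comm, one_mul]
  have h3 : y3 * ((I * J) * (I * J)) = 0 := by rw [← mul_assoc, h, zero_mul]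
  rw [hK, mul_neg, mul_smul_comm, mul_one, neg_eq_zero] at h3
  exact (smul_eq_zero.1 h3).resolve_left (mul_ne_zero hc hd)

/-- three anticommuting elements -/
private theorem EV6_tri (x y z : K) (a b c : Λ) (ha : a * a = x • (1 : Λ))
    (hb : b * b = y • (1 : Λ)) (hc : c * c = z • (1 : Λ)) (hab : b * a = -(a * b))
    (hac : c * a = -(a * c)) (hbc : c * b = -(b * c)) :
    (a * b) * (a * b) = -((x * y) • (1 : Λ)) ∧ c * (a * b) = (a * b) * c ∧
      (a * b * c) * (a * b * c) = -((x * y * z) • (1 : Λ)) ∧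
      a * (a * b * c) = (a * b * c) * a ∧ b * (a * b * c) = (a * b * c) * b := by
  have h1 : (a * b) * (a * b) = -((x * y) • (1 : Λ)) := by
    have : (a * b) * (a * b) = a * (b * a) * b := by noncomm_ring
    rw [this, hab]
    have : a * -(a * b) * b = -((a * a) * (b * b)) := by noncomm_ring
    rw [this, ha, hb, smul_mul_smul_comm, one_mul]
  have h2 : c * (a * b) = (a * b) * c := by
    rw [← mul_assoc, hac, neg_mul, mul_assoc, hbc]
    noncomm_ring
  refine ⟨h1, h2, ?_, ?_, ?_⟩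
  · have : (a * b * c) * (a * b * c) = (a * b) * (c * (a * b)) * c := by noncomm_ring
    rw [this, h2]
    have : a * b * (a * b * c) * c = (a * b) * (a * b) * (c * c) := by noncomm_ring
    rw [this, h1, hc, neg_mul, smul_mul_smul_comm, one_mul]
  · have h3 : (a * b * c) * a = (a * b) * (c * a) := by noncomm_ring
    have h4 : (a * b) * -(a * c) = -(a * (b * a) * c) := by noncomm_ring
    rw [h3, hac, h4, hab]
    noncomm_ring
  · have h3 : (a * b * c) * b = (a * b) * (c * b) := by noncomm_ring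
    have h4 : b * (a * b * c) = (b * a) * (b * c) := by noncomm_ring
    rw [h3, hbc, h4, hab]
    noncomm_ring

end

/-- every element of the tensor product in coordinates -/
private theorem EV6_rep {K : Type} [Field K] (a b c d : K) (z : BQ K a b c d) :
    ∃ x0 x1 x2 x3 : ℍ[K,a,b], z = x0 ⊗ₜ 1 + x1 ⊗ₜ (⟨0, 1, 0, 0⟩ : ℍ[K,c,d]) +
      x2 ⊗ₜ (⟨0, 0, 1, 0⟩ : ℍ[K,c,d]) + x3 ⊗ₜ (⟨0, 0, 0, 1⟩ : ℍ[K,c,d]) := by
  induction z using TensorProduct.induction_on with
  | zero => exact ⟨0, 0, 0, 0, by simp⟩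
  | tmul x y =>
    refine ⟨y.re • x, y.imI • x, y.imJ • x, y.imK • x, ?_⟩
    have hy : y = y.re • (1 : ℍ[K,c,d]) + y.imI • (⟨0, 1, 0, 0⟩ : ℍ[K,c,d]) +
        y.imJ • (⟨0, 0, 1, 0⟩ : ℍ[K,c,d]) + y.imK • (⟨0, 0, 0, 1⟩ : ℍ[K,c,d]) := by
      ext <;> simp
    conv_lhs => rw [hy]
    rw [tmul_add, tmul_add, tmul_add, tmul_smul, tmul_smul, tmul_smul, tmul_smul, smul_tmul',
      smul_tmul', smul_tmul', smul_tmul']
  | add z z' hz hz' =>
    obtain ⟨x0, x1, x2, x3, rfl⟩ := hz
    obtain ⟨y0, y1, y2, y3, rfl⟩ := hz'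
    refine ⟨x0 + y0, x1 + y1, x2 + y2, x3 + y3, ?_⟩
    rw [add_tmul, add_tmul, add_tmul, add_tmul]
    abel

/-- two commuting quaternionic pairs -/
private theorem EV6_hom {F Λ : Type} [Field F] [Ring Λ] [Algebra F Λ] (a b c d : F)
    (h2 : (2 : F) ≠ 0) (ha : a ≠ 0) (hb : b ≠ 0) (hc : c ≠ 0) (hd : d ≠ 0) (I1 J1 I2 J2 : Λ)
    (hI1 : I1 * I1 = a • (1 : Λ)) (hJ1 : J1 * J1 = b • (1 : Λ)) (hIJ1 : J1 * I1 = -(I1 * J1))
    (hI2 : I2 * I2 = c • (1 : Λ)) (hJ2 : J2 * J2 = d • (1 : Λ)) (hIJ2 : J2 * I2 = -(I2 * J2))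
    (c11 : Commute I1 I2) (c12 : Commute I1 J2) (c21 : Commute J1 I2) (c22 : Commute J1 J2) :
    ∃ φ : BQ F a b c d →ₐ[F] Λ, I1 ∈ Set.range φ ∧ J1 ∈ Set.range φ ∧ I2 ∈ Set.range φ ∧
      J2 ∈ Set.range φ ∧ ∀ u : Λ, u ≠ 0 → Commute u I1 → Commute u J1 → Commute u I2 →
        Commute u J2 → ∀ x, φ x * u = 0 → x = 0 := by
  let B1 : QuaternionAlgebra.Basis Λ a 0 b :=
    { i := I1
      j := J1
      k := I1 * J1
      i_mul_i := by rw [zero_smul, add_zero]; exact hI1
      j_mul_j := hJ1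
      i_mul_j := rfl
      j_mul_i := by
        rw [zero_smul, zero_sub]
        exact hIJ1 }
  let B2 : QuaternionAlgebra.Basis Λ c 0 d :=
    { i := I2
      j := J2
      k := I2 * J2
      i_mul_i := by rw [zero_smul, add_zero]; exact hI2
      j_mul_j := hJ2
      i_mul_j := rfl
      j_mul_i := by
        rw [zero_smul, zero_sub]
        exact hIJ2 }
  let f1 : ℍ[F,a,b] →ₐ[F] Λ := B1.liftHom
  let f2 : ℍ[F,c,d] →ₐ[F] Λ := B2.liftHom
  have hf1 : ∀ w : ℍ[F,a,b], f1 w = algebraMap F _ w.re + w.imI • I1 + w.imJ • J1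
      + w.imK • (I1 * J1) := fun w => rfl
  have hf2 : ∀ w : ℍ[F,c,d], f2 w = algebraMap F _ w.re + w.imI • I2 + w.imJ • J2
      + w.imK • (I2 * J2) := fun w => rfl
  have hcen : ∀ (u : Λ), Commute I1 u → Commute J1 u → ∀ w : ℍ[F,a,b], Commute (f1 w) u := by
    intro u c1 c2 w
    rw [hf1]
    exact (((Algebra.commute_algebraMap_left _ _).add_left (c1.smul_left _)).add_left
      (c2.smul_left _)).add_left ((c1.mul_left c2).smul_left _)
  have hcI : ∀ w : ℍ[F,a,b], Commute (f1 w) I2 := hcen I2 c11 c21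
  have hcJ : ∀ w : ℍ[F,a,b], Commute (f1 w) J2 := hcen J2 c12 c22
  have hcomm : ∀ (w : ℍ[F,a,b]) (w' : ℍ[F,c,d]), Commute (f1 w) (f2 w') := by
    intro w w'
    rw [hf2]
    exact (((Algebra.commute_algebraMap_right _ _).add_right ((hcI w).smul_right _)).add_right
      ((hcJ w).smul_right _)).add_right (((hcI w).mul_right (hcJ w)).smul_right _)
  let φ : BQ F a b c d →ₐ[F] Λ := Algebra.TensorProduct.lift f1 f2 hcomm
  have hφ : ∀ (w : ℍ[F,a,b]) (w' : ℍ[F,c,d]), φ (w ⊗ₜ w') = f1 w * f2 w' := fun w w' =>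
    Algebra.TensorProduct.lift_tmul _ _ _ _ _
  have hf2i : f2 ⟨0, 1, 0, 0⟩ = I2 := by rw [hf2]; simp
  have hf2j : f2 ⟨0, 0, 1, 0⟩ = J2 := by rw [hf2]; simp
  have hf2k : f2 ⟨0, 0, 0, 1⟩ = I2 * J2 := by rw [hf2]; simp
  have hf1i : f1 ⟨0, 1, 0, 0⟩ = I1 := by rw [hf1]; simp
  have hf1j : f1 ⟨0, 0, 1, 0⟩ = J1 := by rw [hf1]; simp
  refine ⟨φ, ⟨(⟨0, 1, 0, 0⟩ : ℍ[F,a,b]) ⊗ₜ 1, ?_⟩, ⟨(⟨0, 0, 1, 0⟩ : ℍ[F,a,b]) ⊗ₜ 1, ?_⟩,
    ⟨1 ⊗ₜ (⟨0, 1, 0, 0⟩ : ℍ[F,c,d]), ?_⟩, ⟨1 ⊗ₜ (⟨0, 0, 1, 0⟩ : ℍ[F,c,d]), ?_⟩, ?_⟩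
  · rw [hφ, hf1i, map_one, mul_one]
  · rw [hφ, hf1j, map_one, mul_one]
  · rw [hφ, hf2i, map_one, one_mul]
  · rw [hφ, hf2j, map_one, one_mul]
  intro u hu u1 u2 u3 u4
  -- the first factor
  have hinj1 : ∀ x : ℍ[F,a,b], f1 x * u = 0 → x = 0 := by
    intro x hx
    rw [hf1] at hx
    obtain ⟨z0, z1, z2, z3⟩ := EV6_ind a b h2 ha hb I1 J1 hI1 hJ1 hIJ1
      (x.re • u) (x.imI • u) (x.imJ • u) (x.imK • u)
      (u1.symm.smul_right _) (u1.symm.smul_right _) (u1.symm.smul_right _) (u1.symm.smul_right _)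
      (u2.symm.smul_right _) (u2.symm.smul_right _) (u2.symm.smul_right _) (u2.symm.smul_right _)
      (by
        rw [← hx, Algebra.algebraMap_eq_smul_one]
        simp only [add_mul, smul_mul_assoc, one_mul]
        rw [u1.eq, u2.eq, (u1.mul_right u2).eq])
    ext
    · exact (smul_eq_zero.1 z0).resolve_right hu
    · exact (smul_eq_zero.1 z1).resolve_right hu
    · exact (smul_eq_zero.1 z2).resolve_right hu
    · exact (smul_eq_zero.1 z3).resolve_right hu
  intro z hz
  obtain ⟨x0, x1, x2, x3, rfl⟩ := EV6_rep _ _ _ _ z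
  rw [map_add, map_add, map_add, hφ, hφ, hφ, hφ, hf2i, hf2j, hf2k, map_one, mul_one] at hz
  have huc : ∀ x, Commute (f1 x) u := hcen u u1.symm u2.symm
  obtain ⟨z0, z1, z2, z3⟩ := EV6_ind c d h2 hc hd I2 J2 hI2 hJ2 hIJ2
    (f1 x0 * u) (f1 x1 * u) (f1 x2 * u) (f1 x3 * u)
    ((hcI x0).symm.mul_right u3.symm) ((hcI x1).symm.mul_right u3.symm)
    ((hcI x2).symm.mul_right u3.symm) ((hcI x3).symm.mul_right u3.symm)
    ((hcJ x0).symm.mul_right u4.symm) ((hcJ x1).symm.mul_right u4.symm)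
    ((hcJ x2).symm.mul_right u4.symm) ((hcJ x3).symm.mul_right u4.symm)
    (by
      rw [← hz]
      simp only [add_mul, mul_assoc]
      rw [u3.eq, u4.eq, (u3.mul_right u4).eq]
      simp only [mul_assoc])
  rw [hinj1 x0 z0, hinj1 x1 z1, hinj1 x2 z2, hinj1 x3 z3, zero_tmul, zero_tmul, zero_tmul,
    zero_tmul]
  simp

/-- the generators of the even Clifford algebra of a diagonal form in six variables -/
private theorem EV6_cl {K : Type} [Field K] (w : Fin 6 → K) (h2 : (2 : K) ≠ 0)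
    (hw : ∀ i, w i ≠ 0) :
    ∃ u : Fin 5 → CliffordAlgebra.even (QuadraticMap.weightedSumSquares K w),
      (∀ i, u i * u i = (-(w 0 * w i.succ)) •
        (1 : CliffordAlgebra.even (QuadraticMap.weightedSumSquares K w))) ∧
      (∀ i j, i ≠ j → u j * u i = -(u i * u j)) ∧
      (∀ R : Subalgebra K (CliffordAlgebra.even (QuadraticMap.weightedSumSquares K w)),
        (∀ i, u i ∈ R) → R = ⊤) ∧
      (∀ r : K, r ≠ 0 → u 0 * u 1 * u 2 * u 3 * u 4 ≠ algebraMap K _ r) := by
  classical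
  let _ : Invertible (2 : K) := invertibleOfNonzero h2
  set Q := QuadraticMap.weightedSumSquares K w with hQ
  have hmem : ∀ x y : Fin 6 → K, CliffordAlgebra.ι Q x * CliffordAlgebra.ι Q y ∈
      CliffordAlgebra.even Q := fun x y => CliffordAlgebra.ι_mul_ι_mem_evenOdd_zero Q x y
  let v : Fin 6 → (Fin 6 → K) := fun i => Pi.single i 1
  have hQv : ∀ i, Q (v i) = w i := by
    intro i
    rw [hQ, QuadraticMap.weightedSumSquares_apply, Finset.sum_eq_single i]
    · simp [v]
    · intro j _ hj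
      simp [v, Pi.single_eq_of_ne hj]
    · intro h
      exact absurd (Finset.mem_univ i) h
  have hort : ∀ i j, i ≠ j → Q.IsOrtho (v i) (v j) := by
    intro i j hij
    rw [QuadraticMap.isOrtho_def, hQ]
    simp only [QuadraticMap.weightedSumSquares_apply]
    rw [← Finset.sum_add_distrib]
    refine Finset.sum_congr rfl fun k _ => ?_
    by_cases hk : k = i
    · have hkj : k ≠ j := fun h => hij (hk.symm.trans h)
      simp [v, Pi.single_eq_of_ne hkj]
    · simp [v, Pi.single_eq_of_ne hk]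
  set e : Fin 6 → CliffordAlgebra Q := fun i => CliffordAlgebra.ι Q (v i) with he
  have hsq : ∀ i, e i * e i = algebraMap K _ (w i) := fun i => by
    rw [← hQv i]
    exact CliffordAlgebra.ι_sq_scalar Q (v i)
  have hsw : ∀ i j, i ≠ j → e i * e j = -(e j * e i) := fun i j hij =>
    CliffordAlgebra.ι_mul_ι_comm_of_isOrtho (hort i j hij)
  let u : Fin 5 → CliffordAlgebra.even Q := fun i => ⟨e 0 * e i.succ, hmem _ _⟩
  have hprod : ∀ i j, ((u i * u j : CliffordAlgebra.even Q) : CliffordAlgebra Q)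
      = -(w 0 • (e i.succ * e j.succ)) := by
    intro i j
    change (e 0 * e i.succ) * (e 0 * e j.succ) = _
    have h3 : (e 0 * e i.succ) * (e 0 * e j.succ) = e 0 * (e i.succ * e 0) * e j.succ := by
      noncomm_ring
    have h4 : e 0 * -(e 0 * e i.succ) * e j.succ = -((e 0 * e 0) * (e i.succ * e j.succ)) := by
      noncomm_ring
    rw [h3, hsw i.succ 0 (Fin.succ_ne_zero i), h4, hsq, Algebra.smul_def]
  refine ⟨u, ?_, ?_, ?_, ?_⟩
  · intro i
    apply Subtype.ext
    rw [hprod i i, hsq]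
    change _ = (-(w 0 * w i.succ)) • (1 : CliffordAlgebra Q)
    rw [neg_smul, mul_smul, Algebra.algebraMap_eq_smul_one]
  · intro i j hij
    apply Subtype.ext
    rw [hprod j i]
    change _ = -((u i * u j : CliffordAlgebra.even Q) : CliffordAlgebra Q)
    rw [hprod i j, hsw j.succ i.succ (fun h => hij (Fin.succ_injective _ h).symm), smul_neg]
  · intro R hR
    let S : Subalgebra K (CliffordAlgebra Q) := R.map (CliffordAlgebra.even Q).val
    have hS : ∀ x : CliffordAlgebra.even Q, x ∈ R → (x : CliffordAlgebra Q) ∈ S := fun x hx =>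
      ⟨x, hx, rfl⟩
    have h0 : ∀ j, e 0 * e j ∈ S := by
      intro j
      refine Fin.cases ?_ (fun j => ?_) j
      · rw [hsq]
        exact Subalgebra.algebraMap_mem S _
      · exact hS (u j) (hR j)
    have h0' : ∀ j, e j * e 0 ∈ S := by
      intro j
      by_cases hj : j = 0
      · rw [hj]
        exact h0 0
      · rw [hsw j 0 hj]
        exact Subalgebra.neg_mem S (h0 j)
    have hall : ∀ i j, e i * e j ∈ S := by
      intro i j
      have h1 := Subalgebra.smul_mem S (Subalgebra.mul_mem S (h0' i) (h0 j)) (w 0)⁻¹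
      have h3 : (e i * e 0) * (e 0 * e j) = w 0 • (e i * e j) := by
        have : (e i * e 0) * (e 0 * e j) = e i * (e 0 * e 0) * e j := by noncomm_ring
        rw [this, hsq, ← Algebra.commutes, mul_assoc, ← Algebra.smul_def]
      rwa [h3, smul_smul, inv_mul_cancel₀ (hw 0), one_smul] at h1
    have hvec : ∀ x y : Fin 6 → K, CliffordAlgebra.ι Q x * CliffordAlgebra.ι Q y ∈ S := by
      intro x y
      have hx : ∀ x : Fin 6 → K, x = ∑ i, x i • v i := by
        intro x
        funext k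
        simp [v, Finset.sum_apply, Pi.single_apply]
      rw [hx x, hx y, map_sum, map_sum, Finset.sum_mul_sum]
      refine Subalgebra.sum_mem S fun i _ => Subalgebra.sum_mem S fun j _ => ?_
      rw [map_smul, map_smul, smul_mul_assoc, mul_smul_comm]
      exact Subalgebra.smul_mem S (Subalgebra.smul_mem S (hall i j) _) _
    rw [eq_top_iff]
    rintro ⟨x, hx⟩ -
    have hxS : x ∈ S := by
      have hx' : x ∈ CliffordAlgebra.evenOdd Q 0 := hx
      clear hx
      induction x, hx' using CliffordAlgebra.even_induction with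
      | algebraMap r => exact Subalgebra.algebraMap_mem S r
      | add x y hx hy ihx ihy => exact Subalgebra.add_mem S ihx ihy
      | ι_mul_ι_mul m₁ m₂ x hx ih => exact Subalgebra.mul_mem S (hvec m₁ m₂) ih
    obtain ⟨y, hyR, hy⟩ := hxS
    have h6 : (⟨x, hx⟩ : CliffordAlgebra.even Q) = y := Subtype.ext hy.symm
    rw [h6]
    exact hyR
  · intro r hr h
    have h1 : e 0 * ((u 0 * u 1 * u 2 * u 3 * u 4 : CliffordAlgebra.even Q) : CliffordAlgebra Q)
        = -(((u 0 * u 1 * u 2 * u 3 * u 4 : CliffordAlgebra.even Q) : CliffordAlgebra Q) * e 0) := by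
      have ha : ∀ i, e 0 * ((u i : CliffordAlgebra.even Q) : CliffordAlgebra Q)
          = -((u i : CliffordAlgebra Q) * e 0) := by
        intro i
        change e 0 * (e 0 * e i.succ) = -((e 0 * e i.succ) * e 0)
        rw [mul_assoc, hsw i.succ 0 (Fin.succ_ne_zero i)]
        noncomm_ring
      have hb : ∀ p q : CliffordAlgebra Q, e 0 * p = -(p * e 0) → e 0 * q = -(q * e 0) →
          e 0 * (p * q) = (p * q) * e 0 := by
        intro p q hp hq
        rw [← mul_assoc, hp, neg_mul, mul_assoc, hq, mul_neg, neg_neg, mul_assoc]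
      have hc : ∀ p q : CliffordAlgebra Q, e 0 * p = p * e 0 → e 0 * q = -(q * e 0) →
          e 0 * (p * q) = -((p * q) * e 0) := by
        intro p q hp hq
        rw [← mul_assoc, hp, mul_assoc, hq, mul_neg, mul_assoc]
      change e 0 * ((u 0 : CliffordAlgebra Q) * (u 1 : CliffordAlgebra Q) *
        (u 2 : CliffordAlgebra Q) * (u 3 : CliffordAlgebra Q) * (u 4 : CliffordAlgebra Q)) = _
      exact hc _ _ (hb _ _ (hc _ _ (hb _ _ (ha 0) (ha 1)) (ha 2)) (ha 3)) (ha 4)
    rw [h] at h1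
    change e 0 * algebraMap K (CliffordAlgebra Q) r = -(algebraMap K (CliffordAlgebra Q) r * e 0)
      at h1
    rw [Algebra.commutes, eq_neg_iff_add_eq_zero, ← Algebra.commutes, ← two_smul K, ← Algebra.smul_def,
      smul_smul, smul_eq_zero] at h1
    rcases h1 with h1 | h1
    · exact (mul_ne_zero h2 hr) h1
    · have h3 := hsq 0
      rw [h1, mul_zero] at h3
      have h4 := (algebraMap K (CliffordAlgebra Q)).injective (a₁ := w 0) (a₂ := 0)
        (by rw [← h3, map_zero])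
      exact hw 0 h4

/-- the product of five anticommuting elements -/
private theorem EV6_five {K Λ : Type} [Field K] [Ring Λ] [Algebra K Λ] (x : Fin 5 → K)
    (u : Fin 5 → Λ) (hu : ∀ i, u i * u i = x i • (1 : Λ))
    (hsw : ∀ i j, i ≠ j → u j * u i = -(u i * u j)) :
    (∀ i, Commute (u 0 * u 1 * u 2 * u 3 * u 4) (u i)) ∧
    (u 0 * u 1 * u 2 * u 3 * u 4) * (u 0 * u 1 * u 2 * u 3 * u 4) =
      (x 0 * x 1 * x 2 * x 3 * x 4) • (1 : Λ) := by
  obtain ⟨s1, s2, s3, s4, s5⟩ := EV6_tri (x 0) (x 1) (x 2) (u 0) (u 1) (u 2) (hu 0) (hu 1) (hu 2)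
    (hsw 0 1 (by decide)) (hsw 0 2 (by decide)) (hsw 1 2 (by decide))
  set T := u 0 * u 1 * u 2 with hT
  have s6 : u 2 * T = T * u 2 := by
    rw [hT, ← mul_assoc, s2]
  have anti : ∀ y : Λ, y * u 0 = -(u 0 * y) → y * u 1 = -(u 1 * y) → y * u 2 = -(u 2 * y) →
      y * T = -(T * y) := by
    intro y h0 h1 h3
    have e1 : y * T = (y * u 0) * u 1 * u 2 := by rw [hT]; noncomm_ring
    have e2 : -(u 0 * y) * u 1 * u 2 = -(u 0 * (y * u 1) * u 2) := by noncomm_ring
    have e3 : -(u 0 * -(u 1 * y) * u 2) = u 0 * u 1 * (y * u 2) := by noncomm_ring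
    rw [e1, h0, e2, h1, e3, h3, hT]
    noncomm_ring
  have a3 : u 3 * T = -(T * u 3) := anti _ (hsw 0 3 (by decide)) (hsw 1 3 (by decide))
    (hsw 2 3 (by decide))
  have a4 : u 4 * T = -(T * u 4) := anti _ (hsw 0 4 (by decide)) (hsw 1 4 (by decide))
    (hsw 2 4 (by decide))
  have hTT : T * T = (-(x 0 * x 1 * x 2)) • (1 : Λ) := by rw [s3, neg_smul]
  obtain ⟨t1, t2, t3, t4, t5⟩ := EV6_tri (-(x 0 * x 1 * x 2)) (x 3) (x 4) T (u 3) (u 4) hTT (hu 3)
    (hu 4) a3 a4 (hsw 3 4 (by decide))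
  have t6 : u 4 * (T * u 3 * u 4) = (T * u 3 * u 4) * u 4 := by
    rw [← mul_assoc, t2]
  have com : ∀ y : Λ, y * T = T * y → y * u 3 = -(u 3 * y) → y * u 4 = -(u 4 * y) →
      Commute (T * u 3 * u 4) y := by
    intro y h0 h3 h4
    have e1 : y * (T * u 3 * u 4) = (y * T) * u 3 * u 4 := by noncomm_ring
    have e2 : T * y * u 3 * u 4 = T * (y * u 3) * u 4 := by noncomm_ring
    have e3 : T * -(u 3 * y) * u 4 = -(T * u 3 * (y * u 4)) := by noncomm_ring
    have : y * (T * u 3 * u 4) = (T * u 3 * u 4) * y := by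
      rw [e1, h0, e2, h3, e3, h4]
      noncomm_ring
    exact this.symm
  refine ⟨?_, ?_⟩
  · intro i
    fin_cases i
    · exact com _ s4 (hsw 3 0 (by decide)) (hsw 4 0 (by decide))
    · exact com _ s5 (hsw 3 1 (by decide)) (hsw 4 1 (by decide))
    · exact com _ s6 (hsw 3 2 (by decide)) (hsw 4 2 (by decide))
    · exact t5.symm
    · exact t6.symm
  · rw [t3, ← neg_smul]
    congr 1
    ring

/-- the two quaternionic pairs and the central element, over an extension `L` of `K` -/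
private theorem EV6_main {K L Λ : Type} [Field K] [Field L] [Algebra K L] [Ring Λ] [Algebra K Λ]
    [Algebra L Λ] [IsScalarTower K L Λ] (x : Fin 5 → K) (h2 : (2 : K) ≠ 0) (hx : ∀ i, x i ≠ 0)
    (u : Fin 5 → Λ) (hu : ∀ i, u i * u i = x i • (1 : Λ))
    (hsw : ∀ i j, i ≠ j → u j * u i = -(u i * u j))
    (htop : ∀ R : Subalgebra K Λ, (∀ i, u i ∈ R) → R = ⊤) :
    ∃ a b c d : L, a ≠ 0 ∧ b ≠ 0 ∧ c ≠ 0 ∧ d ≠ 0 ∧ ∃ φ : BQ L a b c d →ₐ[L] Λ,
      (∀ y : Λ, y ≠ 0 → (∀ i, Commute y (u i)) → ∀ z, φ z * y = 0 → z = 0) ∧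
      (∀ R : Subalgebra K Λ, (∀ z, φ z ∈ R) → u 0 * u 1 * u 2 * u 3 * u 4 ∈ R → R = ⊤) := by
  have h34 : u 3 * u 2 = -(u 2 * u 3) := hsw 2 3 (by decide)
  obtain ⟨s1, s2, s3, s4, s5⟩ := EV6_tri (x 0) (x 1) (x 2) (u 0) (u 1) (u 2) (hu 0) (hu 1) (hu 2)
    (hsw 0 1 (by decide)) (hsw 0 2 (by decide)) (hsw 1 2 (by decide))
  obtain ⟨-, t2, t3, t4, t5⟩ := EV6_tri (x 0) (x 1) (x 3) (u 0) (u 1) (u 3) (hu 0) (hu 1) (hu 3)
    (hsw 0 1 (by decide)) (hsw 0 3 (by decide)) (hsw 1 3 (by decide))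
  set I2 : Λ := u 0 * u 1 * u 2 with hI2
  set J2 : Λ := u 0 * u 1 * u 3 with hJ2
  have hsw2 : J2 * I2 = -(I2 * J2) := by
    have e1 : J2 * I2 = (u 0 * u 1) * (u 3 * (u 0 * u 1)) * u 2 := by
      rw [hJ2, hI2]; noncomm_ring
    have e2 : I2 * J2 = (u 0 * u 1) * (u 2 * (u 0 * u 1)) * u 3 := by
      rw [hJ2, hI2]; noncomm_ring
    have e3 : (u 0 * u 1) * (u 0 * u 1 * u 3) * u 2
        = (u 0 * u 1) * (u 0 * u 1) * (u 3 * u 2) := by noncomm_ring
    have e4 : (u 0 * u 1) * (u 0 * u 1 * u 2) * u 3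
        = (u 0 * u 1) * (u 0 * u 1) * (u 2 * u 3) := by noncomm_ring
    rw [e1, e2, t2, s2, e3, e4, h34, mul_neg]
  have hL : ∀ k : K, (algebraMap K L k) • (1 : Λ) = k • (1 : Λ) := fun k => by
    rw [algebraMap_smul]
  have hinj : ∀ k : K, k ≠ 0 → algebraMap K L k ≠ 0 := fun k hk h =>
    hk ((algebraMap K L).injective (by rw [h, map_zero]))
  have hc0 : -(x 0 * x 1 * x 2) ≠ 0 := neg_ne_zero.2 (mul_ne_zero (mul_ne_zero (hx 0) (hx 1)) (hx 2))
  have hd0 : -(x 0 * x 1 * x 3) ≠ 0 := neg_ne_zero.2 (mul_ne_zero (mul_ne_zero (hx 0) (hx 1)) (hx 3))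
  have h2L : (2 : L) ≠ 0 := by
    have := hinj 2 h2
    rwa [map_ofNat] at this
  obtain ⟨φ, ⟨p0, q0⟩, ⟨p1, q1⟩, ⟨p2, q2⟩, ⟨p3, q3⟩, hφ⟩ := EV6_hom (algebraMap K L (x 0))
    (algebraMap K L (x 1)) (algebraMap K L (-(x 0 * x 1 * x 2)))
    (algebraMap K L (-(x 0 * x 1 * x 3))) h2L (hinj _ (hx 0)) (hinj _ (hx 1)) (hinj _ hc0)
    (hinj _ hd0) (u 0) (u 1) I2 J2 (by rw [hL, hu]) (by rw [hL, hu]) (hsw 0 1 (by decide))
    (by rw [hL, s3, neg_smul]) (by rw [hL, t3, neg_smul]) hsw2 s4 t4 s5 t5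
  refine ⟨_, _, _, _, hinj _ (hx 0), hinj _ (hx 1), hinj _ hc0, hinj _ hd0, φ, ?_, ?_⟩
  · intro y hy hyc z hz
    exact hφ y hy (hyc 0) (hyc 1) (((hyc 0).mul_right (hyc 1)).mul_right (hyc 2))
      (((hyc 0).mul_right (hyc 1)).mul_right (hyc 3)) z hz
  · intro R hR hζ
    have r0 : u 0 ∈ R := q0 ▸ hR p0
    have r1 : u 1 ∈ R := q1 ▸ hR p1
    have rI : I2 ∈ R := q2 ▸ hR p2
    have rJ : J2 ∈ R := q3 ▸ hR p3
    have hback : ∀ (y : Λ) (k : K) (y' : Λ), y ∈ R → k ≠ 0 → y * y = k • (1 : Λ) → y * y' ∈ R →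
        y' ∈ R := by
      intro y k y' hy hk hyy hyy'
      have h3 := Subalgebra.smul_mem R (Subalgebra.mul_mem R hy hyy') k⁻¹
      rwa [← mul_assoc, hyy, smul_one_mul, smul_smul, inv_mul_cancel₀ hk, one_smul] at h3
    have hxx : -(x 0 * x 1) ≠ 0 := neg_ne_zero.2 (mul_ne_zero (hx 0) (hx 1))
    have h01 : (u 0 * u 1) * (u 0 * u 1) = (-(x 0 * x 1)) • (1 : Λ) := by rw [s1, neg_smul]
    have r2 : u 2 ∈ R := hback (u 0 * u 1) _ _ (Subalgebra.mul_mem R r0 r1) hxx h01 rI
    have r3 : u 3 ∈ R := hback (u 0 * u 1) _ _ (Subalgebra.mul_mem R r0 r1) hxx h01 rJ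
    have r4 : u 4 ∈ R := by
      have h4 : I2 * (u 3 * u 4) ∈ R := by
        rw [← mul_assoc]
        exact hζ
      have h5 : u 3 * u 4 ∈ R := hback I2 (-(x 0 * x 1 * x 2)) _ rI hc0
        (by rw [s3, neg_smul]) h4
      exact hback (u 3) (x 3) _ r3 (hx 3) (hu 3) h5
    apply htop
    intro i
    fin_cases i
    · exact r0
    · exact r1
    · exact r2
    · exact r3
    · exact r4

/-- the theorem for an abstract algebra with the generators `u i` -/
private theorem EV6_abs {K C : Type} [Field K] [Ring C] [Algebra K C] [Nontrivial C] (w : Fin 6 → K)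
    (h2 : (2 : K) ≠ 0) (hw : ∀ i, w i ≠ 0) (u : Fin 5 → C)
    (hu : ∀ i, u i * u i = (-(w 0 * w i.succ)) • (1 : C))
    (hsw : ∀ i j, i ≠ j → u j * u i = -(u i * u j))
    (htop : ∀ R : Subalgebra K C, (∀ i, u i ∈ R) → R = ⊤)
    (hns : ∀ r : K, r ≠ 0 → u 0 * u 1 * u 2 * u 3 * u 4 ≠ algebraMap K _ r) (L : Type) [Field L]
    [Algebra K L] (z : L) (hz : z ^ 2 = algebraMap K L (-∏ i, w i))
    (hadj : IntermediateField.adjoin K {z} = ⊤) : ∃ a b c d : L, a ≠ 0 ∧ b ≠ 0 ∧ c ≠ 0 ∧ d ≠ 0 ∧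
    (Nonempty (C ≃ₐ[K] ℍ[L,a,b] ⊗[L] ℍ[L,c,d]) ∨
      Nonempty (C ≃ₐ[K] (ℍ[L,a,b] ⊗[L] ℍ[L,c,d]) × (ℍ[L,a,b] ⊗[L] ℍ[L,c,d]))) := by
  set δ : K := -∏ i, w i with hδ
  have hx : ∀ i : Fin 5, -(w 0 * w i.succ) ≠ 0 := fun i =>
    neg_ne_zero.2 (mul_ne_zero (hw 0) (hw _))
  obtain ⟨hcom, hsq⟩ := EV6_five (fun i : Fin 5 => -(w 0 * w i.succ)) u hu hsw
  set ζ' : C := u 0 * u 1 * u 2 * u 3 * u 4 with hζ'
  have hδ0 : δ ≠ 0 := neg_ne_zero.2 (Finset.prod_ne_zero_iff.2 fun i _ => hw i)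
  have hw2 : w 0 ^ 2 ≠ 0 := pow_ne_zero 2 (hw 0)
  let ζ : C := (w 0 ^ 2)⁻¹ • ζ'
  have hζζ' : w 0 ^ 2 • ζ = ζ' := by
    change w 0 ^ 2 • ((w 0 ^ 2)⁻¹ • ζ') = ζ'
    rw [smul_smul, mul_inv_cancel₀ hw2, one_smul]
  have hζsq : ζ * ζ = algebraMap K C δ := by
    change ((w 0 ^ 2)⁻¹ • ζ') * ((w 0 ^ 2)⁻¹ • ζ') = _
    rw [smul_mul_smul_comm, hsq, smul_smul, Algebra.algebraMap_eq_smul_one]
    congr 1
    rw [hδ, Fin.prod_univ_succ, Fin.prod_univ_five]
    field_simp
  have hζu : ∀ i, Commute ζ (u i) := fun i => (hcom i).smul_left _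
  -- elements commuting with the generators are central
  have hcentral : ∀ y : C, (∀ i, Commute y (u i)) → y ∈ Subalgebra.center K C := by
    intro y hy
    have h1 : Subalgebra.centralizer K {y} = ⊤ := htop _ fun i => by
      rw [Subalgebra.mem_centralizer_iff]
      intro g hg
      rw [Set.mem_singleton_iff.1 hg]
      exact hy i
    rw [Subalgebra.mem_center_iff]
    intro b
    have h3 : b ∈ Subalgebra.centralizer K {y} := by rw [h1]; exact Algebra.mem_top
    exact ((Subalgebra.mem_centralizer_iff K).1 h3 y rfl).symm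
  have hζc := hcentral ζ hζu
  by_cases hε : ∃ ε : K, ε ^ 2 = δ
  · -- the centre splits
    obtain ⟨ε, hε⟩ := hε
    have hε0 : ε ≠ 0 := by
      rintro rfl
      exact hδ0 (by rw [← hε]; ring)
    have hzK : z ∈ Set.range (algebraMap K L) := by
      have h3 : (z - algebraMap K L ε) * (z + algebraMap K L ε) = 0 := by
        have : (z - algebraMap K L ε) * (z + algebraMap K L ε)
            = z ^ 2 - (algebraMap K L ε) ^ 2 := by ring
        rw [this, hz, ← map_pow, hε, sub_self]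
      rcases mul_eq_zero.1 h3 with h | h
      · exact ⟨ε, (sub_eq_zero.1 h).symm⟩
      · exact ⟨-ε, by rw [map_neg]; exact (eq_neg_of_add_eq_zero_left h).symm⟩
    have hsur : Surjective (algebraMap K L) := by
      have hb : IntermediateField.adjoin K {z} = ⊥ :=
        IntermediateField.adjoin_simple_eq_bot_iff.2 (IntermediateField.mem_bot.2 hzK)
      intro y
      have hy : y ∈ (⊥ : IntermediateField K L) := by
        rw [← hb, hadj]
        exact IntermediateField.mem_top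
      exact IntermediateField.mem_bot.1 hy
    let τ : K ≃ₐ[K] L := AlgEquiv.ofBijective (Algebra.ofId K L) ⟨(algebraMap K L).injective, hsur⟩
    let σ : L →ₐ[K] C := (Algebra.ofId K C).comp (τ.symm : L →ₐ[K] K)
    have hσ : ∀ y, σ y = algebraMap K C (τ.symm y) := fun y => rfl
    let _ : Algebra L C := RingHom.toAlgebra' (σ : L →+* C) (fun c x => by
      change σ c * x = x * σ c
      rw [hσ]
      exact Algebra.commutes _ _)
    have hLC : ∀ y : L, algebraMap L C y = σ y := fun y => rfl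
    have htow : IsScalarTower K L C := IsScalarTower.of_algebraMap_eq fun k => by
      rw [hLC, σ.commutes]
    obtain ⟨a, b, c, d, ha, hb, hc, hd, φ, hφ1, hφ2⟩ := EV6_main (L := L)
      (fun i : Fin 5 => -(w 0 * w i.succ)) h2 hx u hu hsw htop
    refine ⟨a, b, c, d, ha, hb, hc, hd, Or.inr ?_⟩
    -- the idempotents
    let p : C := (2⁻¹ : K) • (1 + ε⁻¹ • ζ)
    let q : C := (2⁻¹ : K) • (1 - ε⁻¹ • ζ)
    have hpq1 : p + q = 1 := by
      change (2⁻¹ : K) • (1 + ε⁻¹ • ζ) + (2⁻¹ : K) • (1 - ε⁻¹ • ζ) = 1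
      rw [← smul_add]
      have : (1 + ε⁻¹ • ζ + (1 - ε⁻¹ • ζ) : C) = (2 : K) • (1 : C) := by
        rw [two_smul]
        abel
      rw [this, smul_smul, inv_mul_cancel₀ h2, one_smul]
    have hηη : (ε⁻¹ • ζ) * (ε⁻¹ • ζ) = 1 := by
      rw [smul_mul_smul_comm, hζsq, Algebra.algebraMap_eq_smul_one, smul_smul, ← hε]
      have : ε⁻¹ * ε⁻¹ * ε ^ 2 = 1 := by field_simp
      rw [this, one_smul]
    have hpq0 : p * q = 0 := by
      change ((2⁻¹ : K) • (1 + ε⁻¹ • ζ)) * ((2⁻¹ : K) • (1 - ε⁻¹ • ζ)) = 0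
      rw [smul_mul_smul_comm]
      have : ∀ η : C, (1 + η) * (1 - η) = 1 - η * η := fun η => by noncomm_ring
      rw [this, hηη, sub_self, smul_zero]
    have hqp0 : q * p = 0 := by
      change ((2⁻¹ : K) • (1 - ε⁻¹ • ζ)) * ((2⁻¹ : K) • (1 + ε⁻¹ • ζ)) = 0
      rw [smul_mul_smul_comm]
      have : ∀ η : C, (1 - η) * (1 + η) = 1 - η * η := fun η => by noncomm_ring
      rw [this, hηη, sub_self, smul_zero]
    have hpp : p * p = p := by
      have : p * p = p * (p + q) := by rw [mul_add, hpq0, add_zero]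
      rw [this, hpq1, mul_one]
    have hqq : q * q = q := by
      have : q * q = q * (p + q) := by rw [mul_add, hqp0, zero_add]
      rw [this, hpq1, mul_one]
    have hpu : ∀ i, Commute p (u i) := fun i =>
      (((Commute.one_left _).add_left ((hζu i).smul_left _)).smul_left _)
    have hqu : ∀ i, Commute q (u i) := fun i =>
      (((Commute.one_left _).sub_left ((hζu i).smul_left _)).smul_left _)
    have hpc := hcentral p hpu
    have hqc := hcentral q hqu
    rw [Subalgebra.mem_center_iff] at hpc hqc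
    have hp0 : p ≠ 0 := by
      intro h
      change (2⁻¹ : K) • (1 + ε⁻¹ • ζ) = 0 at h
      have h3 := (smul_eq_zero.1 h).resolve_left (inv_ne_zero h2)
      apply hns (-(w 0 ^ 2 * ε)) (neg_ne_zero.2 (mul_ne_zero hw2 hε0))
      have h4 : ζ = -(ε • (1 : C)) := by
        have h5 : ε • (1 + ε⁻¹ • ζ) = 0 := by rw [h3, smul_zero]
        rw [smul_add, smul_smul, mul_inv_cancel₀ hε0, one_smul] at h5
        exact eq_neg_of_add_eq_zero_right h5
      change ζ' = _
      rw [← hζζ', h4, Algebra.algebraMap_eq_smul_one, smul_neg, smul_smul, neg_smul]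
    have hq0 : q ≠ 0 := by
      intro h
      change (2⁻¹ : K) • (1 - ε⁻¹ • ζ) = 0 at h
      have h3 := (smul_eq_zero.1 h).resolve_left (inv_ne_zero h2)
      apply hns (w 0 ^ 2 * ε) (mul_ne_zero hw2 hε0)
      have h4 : ζ = ε • (1 : C) := by
        have h5 : ε • (1 - ε⁻¹ • ζ) = 0 := by rw [h3, smul_zero]
        rw [smul_sub, smul_smul, mul_inv_cancel₀ hε0, one_smul] at h5
        exact (sub_eq_zero.1 h5).symm
      change ζ' = _
      rw [← hζζ', h4, Algebra.algebraMap_eq_smul_one, smul_smul]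
    -- the isomorphism
    let F : (BQ L a b c d × BQ L a b c d) →+* C :=
      { toFun := fun x => φ x.1 * p + φ x.2 * q
        map_one' := by
          change φ 1 * p + φ 1 * q = 1
          rw [map_one, one_mul, one_mul, hpq1]
        map_zero' := by
          change φ 0 * p + φ 0 * q = 0
          rw [map_zero, zero_mul, zero_mul, add_zero]
        map_add' := by
          intro x y
          change φ (x.1 + y.1) * p + φ (x.2 + y.2) * q = _
          rw [map_add, map_add, add_mul, add_mul]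
          abel
        map_mul' := by
          intro x y
          change φ (x.1 * y.1) * p + φ (x.2 * y.2) * q
            = (φ x.1 * p + φ x.2 * q) * (φ y.1 * p + φ y.2 * q)
          have e1 : (φ x.1 * p) * (φ y.1 * p) = φ (x.1 * y.1) * p := by
            have : (φ x.1 * p) * (φ y.1 * p) = φ x.1 * (p * φ y.1) * p := by noncomm_ring
            rw [this, ← hpc (φ y.1), map_mul]
            have : φ x.1 * (φ y.1 * p) * p = φ x.1 * φ y.1 * (p * p) := by noncomm_ring
            rw [this, hpp]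
          have e2 : (φ x.1 * p) * (φ y.2 * q) = 0 := by
            have : (φ x.1 * p) * (φ y.2 * q) = φ x.1 * (p * φ y.2) * q := by noncomm_ring
            rw [this, ← hpc (φ y.2)]
            have : φ x.1 * (φ y.2 * p) * q = φ x.1 * φ y.2 * (p * q) := by noncomm_ring
            rw [this, hpq0, mul_zero]
          have e3 : (φ x.2 * q) * (φ y.1 * p) = 0 := by
            have : (φ x.2 * q) * (φ y.1 * p) = φ x.2 * (q * φ y.1) * p := by noncomm_ring
            rw [this, ← hqc (φ y.1)]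
            have : φ x.2 * (φ y.1 * q) * p = φ x.2 * φ y.1 * (q * p) := by noncomm_ring
            rw [this, hqp0, mul_zero]
          have e4 : (φ x.2 * q) * (φ y.2 * q) = φ (x.2 * y.2) * q := by
            have : (φ x.2 * q) * (φ y.2 * q) = φ x.2 * (q * φ y.2) * q := by noncomm_ring
            rw [this, ← hqc (φ y.2), map_mul]
            have : φ x.2 * (φ y.2 * q) * q = φ x.2 * φ y.2 * (q * q) := by noncomm_ring
            rw [this, hqq]
          rw [mul_add, add_mul, add_mul, e1, e2, e3, e4]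
          abel }
    have hF : ∀ x y, F (x, y) = φ x * p + φ y * q := fun x y => rfl
    have hFinj : Injective F := by
      rw [injective_iff_map_eq_zero]
      rintro ⟨x, y⟩ hxy
      rw [hF] at hxy
      have h3 : φ x * p = 0 := by
        have h4 : (φ x * p + φ y * q) * p = 0 := by rw [hxy, zero_mul]
        rwa [add_mul, mul_assoc, mul_assoc, hpp, hqp0, mul_zero, add_zero] at h4
      have h3' : φ y * q = 0 := by
        have h4 : (φ x * p + φ y * q) * q = 0 := by rw [hxy, zero_mul]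
        rwa [add_mul, mul_assoc, mul_assoc, hqq, hpq0, mul_zero, zero_add] at h4
      rw [hφ1 p hp0 hpu x h3, hφ1 q hq0 hqu y h3']
      rfl
    have hFalg : ∀ r : K, F (algebraMap K (BQ L a b c d × BQ L a b c d) r) = algebraMap K C r := by
      intro r
      have h3 : algebraMap K (BQ L a b c d × BQ L a b c d) r
          = (algebraMap L (BQ L a b c d) (algebraMap K L r),
            algebraMap L (BQ L a b c d) (algebraMap K L r)) := rfl
      rw [h3, hF, φ.commutes, ← mul_add, hpq1, mul_one, hLC, σ.commutes]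
    let F' : (BQ L a b c d × BQ L a b c d) →ₐ[K] C := { F with commutes' := hFalg }
    have hF' : ∀ x, F' x = F x := fun x => rfl
    have hFsur : Surjective F' := by
      have h3 : F'.range = ⊤ := by
        apply hφ2
        · intro x
          refine ⟨(x, x), ?_⟩
          change F (x, x) = φ x
          rw [hF, ← mul_add, hpq1, mul_one]
        · have h4 : ζ' = (w 0 ^ 2 * ε) • (p - q) := by
            have h5 : p - q = ε⁻¹ • ζ := by
              change (2⁻¹ : K) • (1 + ε⁻¹ • ζ) - (2⁻¹ : K) • (1 - ε⁻¹ • ζ) = _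
              rw [← smul_sub]
              have : (1 + ε⁻¹ • ζ - (1 - ε⁻¹ • ζ) : C) = (2 : K) • (ε⁻¹ • ζ) := by
                rw [two_smul]
                abel
              rw [this, smul_smul, inv_mul_cancel₀ h2, one_smul]
            rw [h5, smul_smul, mul_assoc, mul_inv_cancel₀ hε0, mul_one, hζζ']
          change ζ' ∈ _
          rw [h4]
          have h6 : p ∈ F'.range := ⟨(1, 0), by
            change F (1, 0) = p
            rw [hF, map_one, map_zero, one_mul, zero_mul, add_zero]⟩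
          have h7 : q ∈ F'.range := ⟨(0, 1), by
            change F (0, 1) = q
            rw [hF, map_one, map_zero, one_mul, zero_mul, zero_add]⟩
          exact Subalgebra.smul_mem _ (Subalgebra.sub_mem _ h6 h7) _
      intro y
      have h4 : y ∈ F'.range := by rw [h3]; exact Algebra.mem_top
      exact h4
    exact ⟨(AlgEquiv.ofBijective F' ⟨hFinj, hFsur⟩).symm⟩
  · -- the centre is a field
    have hε' : ∀ b : K, b ^ 2 ≠ δ := fun b hb => hε ⟨b, hb⟩
    have hirr : Irreducible (Polynomial.X ^ 2 - Polynomial.C δ : Polynomial K) :=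
      X_pow_sub_C_irreducible_of_prime Nat.prime_two hε'
    have hmon : (Polynomial.X ^ 2 - Polynomial.C δ : Polynomial K).Monic :=
      Polynomial.monic_X_pow_sub_C δ two_ne_zero
    have haz : Polynomial.aeval z (Polynomial.X ^ 2 - Polynomial.C δ : Polynomial K) = 0 := by
      simp [hz]
    have hint : IsIntegral K z := ⟨_, hmon, haz⟩
    have hmin : minpoly K z = Polynomial.X ^ 2 - Polynomial.C δ :=
      (minpoly.eq_of_irreducible_of_monic hirr haz hmon).symm
    have hadj' : Algebra.adjoin K {z} = ⊤ := by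
      rw [← IntermediateField.adjoin_simple_toSubalgebra_of_isAlgebraic hint.isAlgebraic, hadj]
      rfl
    let pb : PowerBasis K L := PowerBasis.ofAdjoinEqTop hint hadj'
    have hgen : pb.gen = z := PowerBasis.ofAdjoinEqTop_gen hint hadj'
    have hζroot : Polynomial.aeval ζ (minpoly K pb.gen) = 0 := by
      rw [hgen, hmin]
      simp only [map_sub, map_pow, Polynomial.aeval_X, Polynomial.aeval_C]
      rw [pow_two, hζsq, sub_self]
    let σ : L →ₐ[K] C := pb.lift ζ hζroot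
    have hσz : σ z = ζ := by
      have := pb.lift_gen ζ hζroot
      rwa [hgen] at this
    have hσc : ∀ y : L, σ y ∈ Subalgebra.center K C := by
      intro y
      have h3 : Algebra.adjoin K {z} ≤ (Subalgebra.center K C).comap σ := by
        apply Algebra.adjoin_le
        rintro t ht
        rw [Set.mem_singleton_iff.1 ht]
        change σ z ∈ Subalgebra.center K C
        rw [hσz]
        exact hζc
      have h4 : y ∈ Algebra.adjoin K {z} := by rw [hadj']; exact Algebra.mem_top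
      exact h3 h4
    let _ : Algebra L C := RingHom.toAlgebra' (σ : L →+* C) (fun c x => by
      change σ c * x = x * σ c
      exact ((Subalgebra.mem_center_iff.1 (hσc c)) x).symm)
    have hLC : ∀ y : L, algebraMap L C y = σ y := fun y => rfl
    have htow : IsScalarTower K L C := IsScalarTower.of_algebraMap_eq fun k => by
      rw [hLC, σ.commutes]
    obtain ⟨a, b, c, d, ha, hb, hc, hd, φ, hφ1, hφ2⟩ := EV6_main (L := L)
      (fun i : Fin 5 => -(w 0 * w i.succ)) h2 hx u hu hsw htop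
    refine ⟨a, b, c, d, ha, hb, hc, hd, Or.inl ?_⟩
    let F' : BQ L a b c d →ₐ[K] C := { (φ : BQ L a b c d →+* C) with
      commutes' := fun r => by
        change φ (algebraMap L (BQ L a b c d) (algebraMap K L r)) = _
        rw [φ.commutes, hLC, σ.commutes] }
    have hFinj : Injective F' := by
      rw [injective_iff_map_eq_zero]
      intro x hx
      refine hφ1 1 one_ne_zero (fun i => Commute.one_left _) x ?_
      rw [mul_one]
      exact hx
    have hFsur : Surjective F' := by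
      have h3 : F'.range = ⊤ := by
        apply hφ2
        · intro x
          exact ⟨x, rfl⟩
        · refine ⟨algebraMap L (BQ L a b c d) (algebraMap K L (w 0 ^ 2) * z), ?_⟩
          change φ (algebraMap L (BQ L a b c d) (algebraMap K L (w 0 ^ 2) * z)) = ζ'
          rw [φ.commutes, hLC, map_mul, σ.commutes, hσz, ← Algebra.smul_def, hζζ']
      intro y
      have h4 : y ∈ F'.range := by rw [h3]; exact Algebra.mem_top
      exact h4
    exact ⟨(AlgEquiv.ofBijective F' ⟨hFinj, hFsur⟩).symm⟩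

theorem thm_EV6 : St_EV6 := by
  intro K _ w h2 hw L _ _ z hz hadj
  let _ : Invertible (2 : K) := invertibleOfNonzero h2
  obtain ⟨u, hu, hsw, htop, hns⟩ := EV6_cl w h2 hw
  exact EV6_abs w h2 hw u hu hsw htop hns L z hz hadj

end Pool.Agent.Q4
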