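import Pool.Agent.Q4.StF

/-!
# Q4, module EVA: forms of rank at most six

Statement and proof: see `St_EVA` in `Pool/Agent/Q4/StF.lean`.
-/

set_option autoImplicit false

namespace Pool.Agent.Q4

open Quaternion TensorProduct Function Pool.Agent.Helper67.Bass Pool.Agent.QCT

theorem EVA_fin {K L : Type} [Field K] [Field L] [Algebra K L] (z : L) (δ : K)
    (hz : z ^ 2 = algebraMap K L δ) (ht : IntermediateField.adjoin K {z} = ⊤) :
    FiniteDimensional K L := by
  have hint : IsIntegral K z := by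
    refine ⟨Polynomial.X ^ 2 - Polynomial.C δ, Polynomial.monic_X_pow_sub_C δ (by norm_num), ?_⟩
    simp [hz]
  have h1 : FiniteDimensional K (IntermediateField.adjoin K {z}) :=
    IntermediateField.adjoin.finiteDimensional hint
  rw [ht] at h1
  exact Module.Finite.equiv (IntermediateField.topEquiv (F := K) (E := L)).toLinearEquiv

theorem thm_EVA (h1 : St_RK1) (h2 : St_EV2) (h3 : St_EV3) (h4 : St_EV4) (h5 : St_EV5)
    (h6 : St_EV6) (hc : St_CS1) : St_EVA := by
  obtain ⟨c1, c2, -, -⟩ := hc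
  intro K _ r w hK2 hK hw hr hodd
  have hfinK : FiniteDimensional K K := inferInstance
  -- small rank
  have small : r ≤ 1 → CSplit K (CliffordAlgebra.even (QuadraticMap.weightedSumSquares K w)) := by
    intro hr1
    have e1 := h1 K r (QuadraticMap.weightedSumSquares K w) hr1
    exact c1 K _ K ⟨K, inferInstance, inferInstance, hfinK, hK, Or.inl ⟨AlgEquiv.refl⟩⟩ e1
  have hr6 : r ≤ 6 := by
    rcases hr with h | h
    · omega
    · exact h.1
  have hp : 4 < r → ∃ p : ℕ, p.Prime ∧ (p : K) = 0 := by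
    intro h
    rcases hr with h' | h'
    · omega
    · exact h'.2
  have hR : ¬ Odd r → RDisc K w := fun h => hodd.resolve_left h
  clear hodd hr
  interval_cases r
  · exact small (by norm_num)
  · exact small (by norm_num)
  · obtain ⟨L, _, _, z, hz, ht, hL⟩ := hR (by decide)
    have hfin := EVA_fin z _ hz ht
    have e1 : (-1) ^ (2 / 2) * ∏ i, w i = -(w 0 * w 1) := by
      rw [Fin.prod_univ_two]
      norm_num
    rw [e1] at hz
    have hF : Fac K L := ⟨L, inferInstance, inferInstance, hfin, hL, Or.inl ⟨AlgEquiv.refl⟩⟩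
    rcases h2 K w hK2 hw L z hz ht with h | h
    · exact c1 K _ L hF h
    · exact c2 K _ L hF h
  · obtain ⟨a, b, ha, hb, h⟩ := h3 K w hK2 hw
    exact c1 K _ ℍ[K,a,b] ⟨K, inferInstance, inferInstance, hfinK, hK,
      Or.inr (Or.inl ⟨a, b, ha, hb, ⟨AlgEquiv.refl⟩⟩)⟩ h
  · obtain ⟨L, _, _, z, hz, ht, hL⟩ := hR (by decide)
    have hfin := EVA_fin z _ hz ht
    have e1 : (-1) ^ (4 / 2) * ∏ i, w i = w 0 * w 1 * w 2 * w 3 := by
      rw [Fin.prod_univ_four]
      norm_num
    rw [e1] at hz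
    obtain ⟨a, b, ha, hb, h⟩ := h4 K w hK2 hw L z hz ht
    have hF : Fac K ℍ[L,a,b] := ⟨L, inferInstance, inferInstance, hfin, hL,
      Or.inr (Or.inl ⟨a, b, ha, hb, ⟨AlgEquiv.refl⟩⟩)⟩
    rcases h with h | h
    · exact c1 K _ _ hF h
    · exact c2 K _ _ hF h
  · obtain ⟨a, b, c, d, ha, hb, hc, hd, h⟩ := h5 K w hK2 hw
    exact c1 K _ (BQ K a b c d) ⟨K, inferInstance, inferInstance, hfinK, hK,
      Or.inr (Or.inr ⟨hp (by norm_num), a, b, c, d, ha, hb, hc, hd, ⟨AlgEquiv.refl⟩⟩)⟩ h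
  · obtain ⟨L, _, _, z, hz, ht, hL⟩ := hR (by decide)
    have hfin := EVA_fin z _ hz ht
    have e1 : (-1) ^ (6 / 2) * ∏ i, w i = -∏ i, w i := by
      norm_num
    rw [e1] at hz
    obtain ⟨a, b, c, d, ha, hb, hc, hd, h⟩ := h6 K w hK2 hw L z hz ht
    have hF : Fac K (ℍ[L,a,b] ⊗[L] ℍ[L,c,d]) := ⟨L, inferInstance, inferInstance, hfin, hL,
      Or.inr (Or.inr ⟨hp (by norm_num), a, b, c, d, ha, hb, hc, hd, ⟨AlgEquiv.refl⟩⟩)⟩
    rcases h with h | h
    · exact c1 K _ _ hF h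
    · exact c2 K _ _ hF h

end Pool.Agent.Q4
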