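import Pool.Agent.Q4.StH

/-!
# Q4, module EVB: forms of small anisotropic rank

Statement and proof: see `St_EVB` in `Pool/Agent/Q4/StH.lean`.
-/

set_option autoImplicit false

namespace Pool.Agent.Q4

open Function

/-- the form `∑ x_j y_j + ∑ w_i z_i²` -/
noncomputable def EVBq (K : Type) [Field K] (s r : ℕ) (w : Fin r → K) :
    QuadraticForm K ((Fin s → K) × (Fin s → K) × (Fin r → K)) :=
  (∑ j : Fin s, QuadraticMap.linMulLin
      ((LinearMap.proj j).comp (LinearMap.fst K (Fin s → K) ((Fin s → K) × (Fin r → K))))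
      ((LinearMap.proj j).comp ((LinearMap.fst K (Fin s → K) (Fin r → K)).comp
        (LinearMap.snd K (Fin s → K) ((Fin s → K) × (Fin r → K)))))) +
  ∑ i : Fin r, w i • QuadraticMap.linMulLin
      ((LinearMap.proj i).comp ((LinearMap.snd K (Fin s → K) (Fin r → K)).comp
        (LinearMap.snd K (Fin s → K) ((Fin s → K) × (Fin r → K)))))
      ((LinearMap.proj i).comp ((LinearMap.snd K (Fin s → K) (Fin r → K)).comp
        (LinearMap.snd K (Fin s → K) ((Fin s → K) × (Fin r → K)))))

theorem EVBq_apply (K : Type) [Field K] (s r : ℕ) (w : Fin r → K)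
    (p : (Fin s → K) × (Fin s → K) × (Fin r → K)) :
    EVBq K s r w p = ∑ j, p.1 j * p.2.1 j + ∑ i, w i * p.2.2 i ^ 2 := by
  unfold EVBq
  simp only [QuadraticMap.add_apply, QuadraticMap.sum_apply, QuadraticMap.smul_apply,
    QuadraticMap.linMulLin_apply, LinearMap.comp_apply, LinearMap.proj_apply,
    LinearMap.fst_apply, LinearMap.snd_apply, smul_eq_mul]
  congr 1
  exact Finset.sum_congr rfl fun i _ => by ring

/-- separate the coordinates with index `0` -/
def EVBsep (K : Type) [Field K] (s r : ℕ) :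
    ((Fin (s + 1) → K) × (Fin (s + 1) → K) × (Fin r → K)) →ₗ[K]
      ((K × K) × ((Fin s → K) × (Fin s → K) × (Fin r → K))) where
  toFun p := ((p.1 0, p.2.1 0), (fun j => p.1 j.succ, fun j => p.2.1 j.succ, p.2.2))
  map_add' _ _ := rfl
  map_smul' _ _ := rfl

theorem EVBsep_surj (K : Type) [Field K] (s r : ℕ) : Surjective (EVBsep K s r) := by
  rintro ⟨⟨x, y⟩, a, b, c⟩
  refine ⟨(Fin.cons x a, Fin.cons y b, c), ?_⟩
  simp [EVBsep]

private theorem EVB_nil {K Λ E : Type} [Field K] [Ring Λ] [Algebra K Λ] [Ring E]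
    [Algebra K E] (π : Λ →ₐ[K] E) (h : Injective π) : IsNilpotent (RingHom.ker π) := by
  refine ⟨1, ?_⟩
  rw [Submodule.pow_one, Submodule.zero_eq_bot, eq_bot_iff]
  intro z hz
  rw [RingHom.mem_ker] at hz
  have h1 : z = 0 := h (by rw [hz, map_zero])
  rw [h1]
  exact Submodule.zero_mem _

theorem thm_EVB (h1 : St_RADG) (h2 : St_HYP) (h3 : St_HYP0) (h4 : St_CM2) (h5 : St_EVA)
    (h6 : St_CS1) : St_EVB := by
  obtain ⟨-, c2, c3, -⟩ := h6
  intro K _ V _ _ _ Q hK2 hK hQ
  obtain ⟨s, r, w, l, hl, hw, hQl, hr, hodd⟩ := hQ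
  have main : ∀ (s : ℕ) (V : Type) [AddCommGroup V] [Module K V] [FiniteDimensional K V]
      (Q : QuadraticForm K V) (l : V →ₗ[K] (Fin s → K) × (Fin s → K) × (Fin r → K)),
      Surjective l → (∀ v, Q v = ∑ j, (l v).1 j * (l v).2.1 j + ∑ i, w i * (l v).2.2 i ^ 2) →
      CSplit K (CliffordAlgebra.even Q) := by
    intro s
    induction s with
    | zero =>
      intro V _ _ _ Q l hl hQl
      have hs : Surjective (((LinearMap.snd K (Fin 0 → K) (Fin r → K)).comp
          (LinearMap.snd K (Fin 0 → K) ((Fin 0 → K) × (Fin r → K)))).comp l) := by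
        intro c
        obtain ⟨v, hv⟩ := hl (0, 0, c)
        exact ⟨v, by simp [LinearMap.comp_apply, hv]⟩
      obtain ⟨π, hπ, hn⟩ := h1 K V (Fin r → K) Q (QuadraticMap.weightedSumSquares K w) _ hs (by
        intro v
        rw [hQl v, QuadraticMap.weightedSumSquares_apply]
        simp only [Finset.univ_eq_empty, Finset.sum_empty, zero_add, LinearMap.comp_apply,
          LinearMap.snd_apply, smul_eq_mul]
        exact Finset.sum_congr rfl fun i _ => by ring)
      exact c3 K _ _ π hπ hn (h5 K r w hK2 hK hw hr hodd)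
    | succ s ih =>
      intro V _ _ _ Q l hl hQl
      have hs : Surjective ((EVBsep K s r).comp l) := by
        rw [LinearMap.coe_comp]
        exact (EVBsep_surj K s r).comp hl
      obtain ⟨π, hπ, hn⟩ := h1 K V _ Q ((hyp K).prod (EVBq K s r w)) _ hs (by
        intro v
        rw [hQl v, QuadraticMap.prod_apply, EVBq_apply, Fin.sum_univ_succ]
        simp only [hyp, EVBsep, LinearMap.comp_apply, LinearMap.coe_mk, AddHom.coe_mk,
          QuadraticMap.linMulLin_apply, LinearMap.fst_apply, LinearMap.snd_apply]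
        ring)
      refine c3 K _ _ π hπ hn ?_
      by_cases h0 : s = 0 ∧ r = 0
      · obtain ⟨hs0, hr0⟩ := h0
        subst hs0
        subst hr0
        have hs' : Surjective (LinearMap.fst K (K × K)
            ((Fin 0 → K) × (Fin 0 → K) × (Fin 0 → K))) := LinearMap.fst_surjective
        obtain ⟨π', hπ', hn'⟩ := h1 K _ (K × K) ((hyp K).prod (EVBq K 0 0 w)) (hyp K) _ hs' (by
          intro v
          rw [QuadraticMap.prod_apply, EVBq_apply]
          simp)
        refine c3 K _ _ π' hπ' hn' ?_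
        exact c2 K _ K ⟨K, inferInstance, inferInstance, inferInstance, hK,
          Or.inl ⟨AlgEquiv.refl⟩⟩ (h3 K)
      · have hv : ∃ v₀, EVBq K s r w v₀ ≠ 0 := by
          by_cases hs0 : s = 0
          · have hr0 : 0 < r := Nat.pos_of_ne_zero fun h => h0 ⟨hs0, h⟩
            refine ⟨(0, 0, Pi.single ⟨0, hr0⟩ 1), ?_⟩
            rw [EVBq_apply]
            rw [Finset.sum_eq_single (⟨0, hr0⟩ : Fin r)]
            · simpa using hw ⟨0, hr0⟩
            · intro b _ hb
              simp [Pi.single_eq_of_ne hb]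
            · intro h
              exact absurd (Finset.mem_univ _) h
          · have hs1 : 0 < s := Nat.pos_of_ne_zero hs0
            refine ⟨(Pi.single ⟨0, hs1⟩ 1, Pi.single ⟨0, hs1⟩ 1, 0), ?_⟩
            rw [EVBq_apply]
            rw [Finset.sum_eq_single (⟨0, hs1⟩ : Fin s)]
            · simp
            · intro b _ hb
              simp [Pi.single_eq_of_ne hb]
            · intro h
              exact absurd (Finset.mem_univ _) h
        obtain ⟨v₀, hv₀⟩ := hv
        obtain ⟨f⟩ := h2 K _ (EVBq K s r w) v₀ hK2 hv₀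
        have hc : CSplit K (CliffordAlgebra.even (EVBq K s r w)) :=
          ih _ (EVBq K s r w) LinearMap.id surjective_id (fun v => EVBq_apply K s r w v)
        exact c3 K _ _ f.toAlgHom f.surjective (EVB_nil f.toAlgHom f.injective) (h4 K _ hc)
  exact main s V Q l hl hQl

end Pool.Agent.Q4
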