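import Pool.Agent.Q4.StF
import Pool.Agent.QCB.QI

/-!
# Q4, module GEX: orders over a finite extension of the base (helper58)
-/

set_option autoImplicit false

namespace Pool.Agent.Q4

open Function Pool.Agent.TQF Pool.Agent.QCB

/-- the localisations over the two bases have the same elements -/
def GEX_equiv {A A' E : Type} [CommRing A] [CommRing A'] [Algebra A A'] [Ring E] [Algebra A E]
    [Algebra A' E] [IsScalarTower A A' E] (Γ : Subalgebra A' E) (x : A) :
    locA Γ (algebraMap A A' x) ≃+* locA (Γ.restrictScalars A) x where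
  toFun := fun y => ⟨y.1, by
    obtain ⟨n, hn⟩ := y.2
    refine ⟨n, ?_⟩
    rw [← map_pow, algebraMap_smul] at hn
    exact hn⟩
  invFun := fun y => ⟨y.1, by
    obtain ⟨n, hn⟩ := y.2
    refine ⟨n, ?_⟩
    rw [← map_pow, algebraMap_smul]
    exact hn⟩
  left_inv := fun x => rfl
  right_inv := fun y => rfl
  map_add' := fun x y => rfl
  map_mul' := fun x y => rfl

theorem thm_GEX : St_GEX := by
  intro A A' _ _ _ _ _ _ hinj E _ _ _ _ hE
  obtain ⟨Γ, hfg, hden, s, hs0, hs⟩ := hE
  have hint : Algebra.IsIntegral A A' := Algebra.IsIntegral.of_finite A A'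
  have hmul : ∀ a' : A', a' ≠ 0 → ∃ a : A, a ≠ 0 ∧ a' ∣ algebraMap A A' a := fun a' h =>
    (hint.isIntegral a').isAlgebraic.exists_nonzero_dvd (mem_nonZeroDivisors_of_ne_zero h)
  refine ⟨Γ.restrictScalars A, ?_, ?_, ?_⟩
  · have h1 : Module.Finite A' (Subalgebra.toSubmodule Γ) := Module.Finite.iff_fg.2 hfg
    have h2 : Module.Finite A (Subalgebra.toSubmodule Γ) :=
      Module.Finite.trans A' (Subalgebra.toSubmodule Γ)
    exact Module.Finite.iff_fg.1 h2
  · intro x
    obtain ⟨a', ha', hx⟩ := hden x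
    obtain ⟨a, ha, c, hc⟩ := hmul a' ha'
    refine ⟨a, ha, ?_⟩
    have h1 : a • x = c • (a' • x) := by
      rw [smul_smul, mul_comm c a', ← hc, algebraMap_smul]
    rw [h1]
    exact Γ.smul_mem hx c
  · obtain ⟨a, ha, hdvd⟩ := hmul s hs0
    refine ⟨a, ha, fun s' hs' hd => ?_⟩
    have h1 : algebraMap A A' s' ≠ 0 := by
      intro h0
      exact hs' (hinj (by rw [h0, map_zero]))
    exact GFG.of_equiv (GEX_equiv Γ s') (hs _ h1 (hdvd.trans (map_dvd _ hd)))

end Pool.Agent.Q4
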