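import Pool.Agent.Q4.StH

/-!
# Q4, module HYP: splitting off a hyperbolic plane
-/

set_option autoImplicit false
set_option linter.unusedSimpArgs false

namespace Pool.Agent.Q4

open Function

section HYPabs

variable {K A R : Type} [Field K] [Ring A] [Ring R] [Algebra K A] [Algebra K R]

/-- matrices over `A` act through a system of matrix units -/
theorem HYP_psi (j : A →ₐ[K] R) (P S : Fin 2 → R) (E : R)
    (h1 : ∀ i k, S i * P k = if i = k then E else 0) (h2 : ∀ i, E * S i = S i)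
    (h3 : ∀ c, E * j c = j c * E) (h4 : ∑ i, P i * S i = 1) :
    ∃ Ψ : Matrix (Fin 2) (Fin 2) A →ₐ[K] R, ∀ M, Ψ M = ∑ i, ∑ k, P i * j (M i k) * S k := by
  have key : ∀ (i k k' l : Fin 2) (x y : A), P i * j x * S k * (P k' * j y * S l) =
      if k = k' then P i * j (x * y) * S l else 0 := by
    intro i k k' l x y
    have e1 : P i * j x * S k * (P k' * j y * S l) = P i * j x * (S k * P k') * j y * S l := by
      simp only [mul_assoc]
    rw [e1, h1]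
    split_ifs
    · rw [mul_assoc (P i * j x), h3, ← mul_assoc, mul_assoc _ E, h2, map_mul, mul_assoc (P i)]
    · rw [mul_zero, zero_mul, zero_mul]
  let L : Matrix (Fin 2) (Fin 2) A →ₗ[K] R :=
    { toFun := fun M => ∑ i, ∑ k, P i * j (M i k) * S k
      map_add' := fun M N => by
        simp only [Matrix.add_apply, map_add, mul_add, add_mul, Finset.sum_add_distrib]
      map_smul' := fun c M => by
        simp only [Matrix.smul_apply, map_smul, mul_smul_comm, smul_mul_assoc, Finset.smul_sum,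
          RingHom.id_apply] }
  refine ⟨AlgHom.ofLinearMap L ?_ ?_, fun M => rfl⟩
  · change ∑ i, ∑ k, P i * j ((1 : Matrix (Fin 2) (Fin 2) A) i k) * S k = 1
    rw [← h4]
    refine Finset.sum_congr rfl fun i _ => ?_
    rw [Finset.sum_eq_single i]
    · rw [Matrix.one_apply_eq, map_one, mul_one]
    · intro k _ hk
      rw [Matrix.one_apply_ne hk.symm, map_zero, mul_zero, zero_mul]
    · intro h
      exact absurd (Finset.mem_univ i) h
  · intro M N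
    change ∑ i, ∑ k, P i * j ((M * N) i k) * S k =
      (∑ i, ∑ k, P i * j (M i k) * S k) * (∑ i, ∑ k, P i * j (N i k) * S k)
    simp only [Matrix.mul_apply, Fin.sum_univ_two, map_add, mul_add, add_mul, key]
    simp
    abel

theorem HYP_corner (X Y Z T : Matrix (Fin 2) (Fin 2) A) :
    !![1, 0; 0, 0] * X * !![1, 0; 0, 0] + !![1, 0; 0, 0] * Y * !![0, 1; 0, 0] +
      (!![0, 0; 1, 0] * Z * !![1, 0; 0, 0] + !![0, 0; 1, 0] * T * !![0, 1; 0, 0]) =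
      !![X 0 0, Y 0 0; Z 0 0, T 0 0] := by
  rw [Matrix.eta_fin_two X, Matrix.eta_fin_two Y, Matrix.eta_fin_two Z, Matrix.eta_fin_two T]
  simp [Matrix.mul_fin_two]

end HYPabs

section HYPfwd

variable {K V : Type} [Field K] [AddCommGroup V] [Module K V] (Q₀ : QuadraticForm K V)

/-- the products of two vectors in the even part -/
noncomputable def HYPb : V →ₗ[K] V →ₗ[K] CliffordAlgebra.even Q₀ :=
  (CliffordAlgebra.even.ι Q₀).bilin

theorem HYPb_coe (v v' : V) : ((HYPb Q₀ v v' : CliffordAlgebra.even Q₀) : CliffordAlgebra Q₀) =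
    CliffordAlgebra.ι Q₀ v * CliffordAlgebra.ι Q₀ v' := rfl

/-- the matrix of a product of two vectors -/
noncomputable def HYPB (v₀ v₁ : V) (m m' : (K × K) × V) :
    Matrix (Fin 2) (Fin 2) (CliffordAlgebra.even Q₀) :=
  !![HYPb Q₀ m.2 m'.2 + (m.1.1 * m'.1.2) • 1, HYPb Q₀ (m'.1.1 • m.2 - m.1.1 • m'.2) v₁;
    HYPb Q₀ v₀ (m.1.2 • m'.2 - m'.1.2 • m.2),
    (m.1.2 * m'.1.1) • 1 + HYPb Q₀ v₀ m.2 * HYPb Q₀ m'.2 v₁]

/-- the matrix of a vector -/
noncomputable def HYPW (m : (K × K) × V) : Matrix (Fin 2) (Fin 2) (CliffordAlgebra Q₀) :=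
  !![CliffordAlgebra.ι Q₀ m.2, m.1.1 • 1; m.1.2 • 1, -CliffordAlgebra.ι Q₀ m.2]

/-- the diagonal matrix `diag (1, v)` -/
noncomputable def HYPD (v : V) : Matrix (Fin 2) (Fin 2) (CliffordAlgebra Q₀) :=
  !![1, 0; 0, CliffordAlgebra.ι Q₀ v]

theorem HYPB_coe (v₀ v₁ : V) (h01 : CliffordAlgebra.ι Q₀ v₀ * CliffordAlgebra.ι Q₀ v₁ = 1)
    (m m' : (K × K) × V) :
    (CliffordAlgebra.even Q₀).val.mapMatrix (HYPB Q₀ v₀ v₁ m m') =
      HYPD Q₀ v₀ * HYPW Q₀ m * (HYPW Q₀ m' * HYPD Q₀ v₁) := by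
  ext i k
  fin_cases i <;> fin_cases k <;>
  simp [HYPB, HYPD, HYPW, Matrix.mul_apply, HYPb_coe, smul_smul, h01, sub_eq_add_neg, mul_comm]

theorem HYPW_sq (m : (K × K) × V) :
    HYPW Q₀ m * HYPW Q₀ m = ((hyp K).prod Q₀ m) • 1 := by
  ext i k
  fin_cases i <;> fin_cases k <;>
  simp [HYPW, Matrix.mul_apply, hyp, Algebra.algebraMap_eq_smul_one, add_smul, smul_smul,
    mul_comm, add_comm]

theorem HYPW_add (m m' : (K × K) × V) : HYPW Q₀ (m + m') = HYPW Q₀ m + HYPW Q₀ m' := by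
  ext i k
  fin_cases i <;> fin_cases k <;> simp [HYPW, add_smul, add_comm]

theorem HYPW_smul (c : K) (m : (K × K) × V) : HYPW Q₀ (c • m) = c • HYPW Q₀ m := by
  ext i k
  fin_cases i <;> fin_cases k <;> simp [HYPW, smul_smul]

theorem HYPD_mul (v v' : V) (h : CliffordAlgebra.ι Q₀ v * CliffordAlgebra.ι Q₀ v' = 1) :
    HYPD Q₀ v * HYPD Q₀ v' = 1 := by
  ext i k
  fin_cases i <;> fin_cases k <;> simp [HYPD, Matrix.mul_apply, h]

theorem HYPmap_inj : Injective ((CliffordAlgebra.even Q₀).val.mapMatrix :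
    Matrix (Fin 2) (Fin 2) (CliffordAlgebra.even Q₀) →ₐ[K] _) := by
  intro A B h
  ext i k
  exact congrFun (congrFun h i) k

/-- the products of two vectors as matrices -/
noncomputable def HYPhom (v₀ v₁ : V)
    (h01 : CliffordAlgebra.ι Q₀ v₀ * CliffordAlgebra.ι Q₀ v₁ = 1)
    (h10 : CliffordAlgebra.ι Q₀ v₁ * CliffordAlgebra.ι Q₀ v₀ = 1) :
    CliffordAlgebra.EvenHom ((hyp K).prod Q₀)
      (Matrix (Fin 2) (Fin 2) (CliffordAlgebra.even Q₀)) where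
  bilin := LinearMap.mk₂ K (HYPB Q₀ v₀ v₁)
    (fun m m' n => by
      refine HYPmap_inj Q₀ ?_
      rw [map_add, HYPB_coe Q₀ v₀ v₁ h01, HYPB_coe Q₀ v₀ v₁ h01, HYPB_coe Q₀ v₀ v₁ h01,
        HYPW_add, mul_add, add_mul])
    (fun c m n => by
      refine HYPmap_inj Q₀ ?_
      rw [map_smul, HYPB_coe Q₀ v₀ v₁ h01, HYPB_coe Q₀ v₀ v₁ h01, HYPW_smul, mul_smul_comm,
        smul_mul_assoc])
    (fun m m' n => by
      refine HYPmap_inj Q₀ ?_
      rw [map_add, HYPB_coe Q₀ v₀ v₁ h01, HYPB_coe Q₀ v₀ v₁ h01, HYPB_coe Q₀ v₀ v₁ h01,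
        HYPW_add, add_mul, mul_add])
    (fun c m n => by
      refine HYPmap_inj Q₀ ?_
      rw [map_smul, HYPB_coe Q₀ v₀ v₁ h01, HYPB_coe Q₀ v₀ v₁ h01, HYPW_smul, smul_mul_assoc,
        mul_smul_comm])
  contract m := by
    refine HYPmap_inj Q₀ ?_
    change (CliffordAlgebra.even Q₀).val.mapMatrix (HYPB Q₀ v₀ v₁ m m) = _
    rw [HYPB_coe Q₀ v₀ v₁ h01, mul_assoc, ← mul_assoc (HYPW Q₀ m), HYPW_sq, smul_one_mul,
      mul_smul_comm, HYPD_mul Q₀ v₀ v₁ h01, AlgHom.commutes, Algebra.algebraMap_eq_smul_one]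
  contract_mid m₁ m₂ m₃ := by
    refine HYPmap_inj Q₀ ?_
    change (CliffordAlgebra.even Q₀).val.mapMatrix
      (HYPB Q₀ v₀ v₁ m₁ m₂ * HYPB Q₀ v₀ v₁ m₂ m₃) =
      (CliffordAlgebra.even Q₀).val.mapMatrix
      (((hyp K).prod Q₀ m₂) • HYPB Q₀ v₀ v₁ m₁ m₃)
    rw [map_mul, map_smul, HYPB_coe Q₀ v₀ v₁ h01, HYPB_coe Q₀ v₀ v₁ h01, HYPB_coe Q₀ v₀ v₁ h01]
    have e1 : HYPD Q₀ v₀ * HYPW Q₀ m₁ * (HYPW Q₀ m₂ * HYPD Q₀ v₁) *
        (HYPD Q₀ v₀ * HYPW Q₀ m₂ * (HYPW Q₀ m₃ * HYPD Q₀ v₁)) =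
        HYPD Q₀ v₀ * HYPW Q₀ m₁ * (HYPW Q₀ m₂ * (HYPD Q₀ v₁ * HYPD Q₀ v₀) * HYPW Q₀ m₂) *
        (HYPW Q₀ m₃ * HYPD Q₀ v₁) := by
      simp only [mul_assoc]
    rw [e1, HYPD_mul Q₀ v₁ v₀ h10, mul_one, HYPW_sq, mul_smul_comm, mul_one, smul_mul_assoc]

end HYPfwd

section HYPbwd

variable {K V : Type} [Field K] [AddCommGroup V] [Module K V] (Q₀ : QuadraticForm K V)

/-- the first basis vector of the hyperbolic plane -/
noncomputable def HYPe : CliffordAlgebra ((hyp K).prod Q₀) :=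
  CliffordAlgebra.ι ((hyp K).prod Q₀) ((1, 0), 0)

/-- the second basis vector of the hyperbolic plane -/
noncomputable def HYPf : CliffordAlgebra ((hyp K).prod Q₀) :=
  CliffordAlgebra.ι ((hyp K).prod Q₀) ((0, 1), 0)

/-- the vectors of the second summand -/
noncomputable def HYPn (v : V) : CliffordAlgebra ((hyp K).prod Q₀) :=
  CliffordAlgebra.ι ((hyp K).prod Q₀) ((0, 0), v)

theorem HYPn_add (v v' : V) : HYPn Q₀ (v + v') = HYPn Q₀ v + HYPn Q₀ v' := by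
  unfold HYPn
  rw [← map_add]
  congr 1
  simp

theorem HYPn_smul (c : K) (v : V) : HYPn Q₀ (c • v) = c • HYPn Q₀ v := by
  unfold HYPn
  rw [← map_smul]
  congr 1
  simp

theorem HYPn_sub (v v' : V) : HYPn Q₀ (v - v') = HYPn Q₀ v - HYPn Q₀ v' := by
  unfold HYPn
  rw [← map_sub]
  congr 1
  simp

theorem HYP_vec (m : (K × K) × V) : CliffordAlgebra.ι ((hyp K).prod Q₀) m =
    m.1.1 • HYPe Q₀ + m.1.2 • HYPf Q₀ + HYPn Q₀ m.2 := by
  unfold HYPe HYPf HYPn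
  rw [← map_smul, ← map_smul, ← map_add, ← map_add]
  congr 1
  obtain ⟨⟨x, y⟩, v⟩ := m
  simp

theorem HYPee : HYPe Q₀ * HYPe Q₀ = 0 := by
  have h : (hyp K).prod Q₀ ((1, 0), 0) = 0 := by simp [hyp]
  unfold HYPe
  rw [CliffordAlgebra.ι_sq_scalar, h, map_zero]

theorem HYPff : HYPf Q₀ * HYPf Q₀ = 0 := by
  have h : (hyp K).prod Q₀ ((0, 1), 0) = 0 := by simp [hyp]
  unfold HYPf
  rw [CliffordAlgebra.ι_sq_scalar, h, map_zero]

theorem HYPnn (v : V) : HYPn Q₀ v * HYPn Q₀ v = Q₀ v • 1 := by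
  unfold HYPn
  rw [CliffordAlgebra.ι_sq_scalar, Algebra.algebraMap_eq_smul_one]
  simp [hyp]

theorem HYPfe : HYPf Q₀ * HYPe Q₀ = 1 - HYPe Q₀ * HYPf Q₀ := by
  have h : QuadraticMap.polar ((hyp K).prod Q₀) ((0, 1), 0) ((1, 0), 0) = 1 := by
    simp [hyp, QuadraticMap.polar]
  unfold HYPf HYPe
  rw [eq_sub_iff_add_eq, CliffordAlgebra.ι_mul_ι_add_swap, h, map_one]

theorem HYPne (v : V) : HYPn Q₀ v * HYPe Q₀ = -(HYPe Q₀ * HYPn Q₀ v) := by
  have h : QuadraticMap.polar ((hyp K).prod Q₀) ((0, 0), v) ((1, 0), 0) = 0 := by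
    simp [hyp, QuadraticMap.polar]
  unfold HYPn HYPe
  rw [eq_neg_iff_add_eq_zero, CliffordAlgebra.ι_mul_ι_add_swap, h, map_zero]

theorem HYPnf (v : V) : HYPn Q₀ v * HYPf Q₀ = -(HYPf Q₀ * HYPn Q₀ v) := by
  have h : QuadraticMap.polar ((hyp K).prod Q₀) ((0, 0), v) ((0, 1), 0) = 0 := by
    simp [hyp, QuadraticMap.polar]
  unfold HYPn HYPf
  rw [eq_neg_iff_add_eq_zero, CliffordAlgebra.ι_mul_ι_add_swap, h, map_zero]

/-- the even elements of the second summand -/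
noncomputable def HYPj : CliffordAlgebra.even Q₀ →ₐ[K] CliffordAlgebra.even ((hyp K).prod Q₀) :=
  CliffordAlgebra.even.lift Q₀
    { bilin := (CliffordAlgebra.even.ι ((hyp K).prod Q₀)).bilin.compl₁₂
        (LinearMap.inr K (K × K) V) (LinearMap.inr K (K × K) V)
      contract := fun m => by
        rw [LinearMap.compl₁₂_apply, CliffordAlgebra.EvenHom.contract]
        congr 1
        simp
      contract_mid := fun m₁ m₂ m₃ => by
        simp only [LinearMap.compl₁₂_apply, CliffordAlgebra.EvenHom.contract_mid]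
        congr 1
        simp }

theorem HYPj_b (v v' : V) : HYPj Q₀ (HYPb Q₀ v v') =
    HYPb ((hyp K).prod Q₀) ((0, 0), v) ((0, 0), v') := by
  unfold HYPj HYPb
  rw [CliffordAlgebra.even.lift_ι]
  rfl

theorem HYPj_coe (v v' : V) : ((HYPj Q₀ (HYPb Q₀ v v') :
    CliffordAlgebra.even ((hyp K).prod Q₀)) : CliffordAlgebra ((hyp K).prod Q₀)) =
    HYPn Q₀ v * HYPn Q₀ v' := by
  rw [HYPj_b]
  rfl

/-- induction on the even elements -/
theorem HYP_ind {p : CliffordAlgebra.even Q₀ → Prop}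
    (h1 : ∀ r : K, p (algebraMap K _ r)) (h2 : ∀ x y, p x → p y → p (x + y))
    (h3 : ∀ v v' x, p x → p (HYPb Q₀ v v' * x)) (x : CliffordAlgebra.even Q₀) : p x := by
  obtain ⟨x, hx⟩ := x
  refine CliffordAlgebra.even_induction Q₀ (motive := fun x hx => p ⟨x, hx⟩) ?_ ?_ ?_ x hx
  · intro r
    exact h1 r
  · intro x y hx hy h h'
    exact h2 ⟨x, hx⟩ ⟨y, hy⟩ h h'
  · intro m₁ m₂ x hx h
    exact h3 m₁ m₂ ⟨x, hx⟩ h

/-- normal forms -/
theorem HYP_nf {R : Type} [Ring R] {e f : R} (ee : e * e = 0) (ff : f * f = 0)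
    (fe : f * e = 1 - e * f) : (∀ z, e * (e * z) = 0) ∧ (∀ z, f * (f * z) = 0) ∧
    (∀ z, f * (e * z) = z - e * (f * z)) ∧ e * (f * e) = e ∧ f * (e * f) = f := by
  refine ⟨fun z => ?_, fun z => ?_, fun z => ?_, ?_, ?_⟩
  · rw [← mul_assoc, ee, zero_mul]
  · rw [← mul_assoc, ff, zero_mul]
  · rw [← mul_assoc, fe, sub_mul, one_mul, mul_assoc]
  · rw [fe, mul_sub, mul_one, ← mul_assoc, ee, zero_mul, sub_zero]
  · rw [← mul_assoc, fe, sub_mul, one_mul, mul_assoc, ff, mul_zero, sub_zero]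

theorem HYP_comm (c : CliffordAlgebra.even Q₀) :
    HYPb ((hyp K).prod Q₀) ((1, 0), 0) ((0, 1), 0) * HYPj Q₀ c =
      HYPj Q₀ c * HYPb ((hyp K).prod Q₀) ((1, 0), 0) ((0, 1), 0) := by
  refine HYP_ind Q₀ (p := fun c => HYPb ((hyp K).prod Q₀) ((1, 0), 0) ((0, 1), 0) * HYPj Q₀ c =
      HYPj Q₀ c * HYPb ((hyp K).prod Q₀) ((1, 0), 0) ((0, 1), 0)) ?_ ?_ ?_ c
  · intro r
    rw [AlgHom.commutes]
    exact (Algebra.commutes r _).symm
  · intro x y hx hy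
    rw [map_add, mul_add, add_mul, hx, hy]
  · intro v v' x hx
    rw [map_mul, ← mul_assoc, mul_assoc _ _ (HYPb _ _ _), ← hx, ← mul_assoc]
    congr 1
    refine Subtype.ext ?_
    change HYPe Q₀ * HYPf Q₀ * (HYPj Q₀ (HYPb Q₀ v v')).1 =
      (HYPj Q₀ (HYPb Q₀ v v')).1 * (HYPe Q₀ * HYPf Q₀)
    rw [HYPj_coe]
    have e1 : ∀ v, HYPn Q₀ v * (HYPe Q₀ * HYPf Q₀) = HYPe Q₀ * HYPf Q₀ * HYPn Q₀ v := by
      intro v
      rw [← mul_assoc, HYPne, neg_mul, mul_assoc, HYPnf, mul_neg, neg_neg, mul_assoc]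
    rw [mul_assoc (HYPn Q₀ v), e1, ← mul_assoc (HYPn Q₀ v), e1, ← mul_assoc]

omit [AddCommGroup V] [Module K V] in
/-- the identity behind `Ψ ∘ β = 1` -/
theorem HYP_id {R : Type} [Ring R] [Algebra K R] {e f g g' : R} (n : V → R) (ee : e * e = 0)
    (ff : f * f = 0) (fe : f * e = 1 - e * f) (ne : ∀ v, n v * e = -(e * n v))
    (nf : ∀ v, n v * f = -(f * n v)) (ge : g * e = -(e * g)) (gf : g * f = -(f * g))
    (ge' : g' * e = -(e * g')) (gf' : g' * f = -(f * g')) (gg : g * g' = 1) (gg' : g' * g = 1)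
    (x y x' y' : K) (v v' : V) :
    e * f * (n v * n v' + (x * y') • 1) * (e * f) +
      e * f * ((x' • n v - x • n v') * g') * (g * e) +
      (f * g' * (g * (y • n v' - y' • n v)) * (e * f) +
      f * g' * ((y * x') • 1 + g * n v * (n v' * g')) * (g * e)) =
    (x • e + y • f + n v) * (x' • e + y' • f + n v') := by
  obtain ⟨a1, a2, a3, a4, a5⟩ := HYP_nf ee ff fe
  have b1 : ∀ v z, n v * (e * z) = -(e * (n v * z)) := fun v z => by
    rw [← mul_assoc, ne, neg_mul, mul_assoc]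
  have b2 : ∀ v z, n v * (f * z) = -(f * (n v * z)) := fun v z => by
    rw [← mul_assoc, nf, neg_mul, mul_assoc]
  have c1 : ∀ z, g * (e * z) = -(e * (g * z)) := fun z => by
    rw [← mul_assoc, ge, neg_mul, mul_assoc]
  have c2 : ∀ z, g * (f * z) = -(f * (g * z)) := fun z => by
    rw [← mul_assoc, gf, neg_mul, mul_assoc]
  have c3 : ∀ z, g' * (e * z) = -(e * (g' * z)) := fun z => by
    rw [← mul_assoc, ge', neg_mul, mul_assoc]
  have c4 : ∀ z, g' * (f * z) = -(f * (g' * z)) := fun z => by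
    rw [← mul_assoc, gf', neg_mul, mul_assoc]
  have d1 : ∀ z, g * (g' * z) = z := fun z => by rw [← mul_assoc, gg, one_mul]
  have d2 : ∀ z, g' * (g * z) = z := fun z => by rw [← mul_assoc, gg', one_mul]
  simp only [mul_add, add_mul, mul_sub, sub_mul, mul_assoc, smul_mul_assoc, mul_smul_comm,
    one_mul, mul_one, a1, a2, a3, a4, a5, ee, ff, fe, ne, nf, ge, gf, ge', gf', gg, gg', b1, b2,
    c1, c2, c3, c4, d1, d2, mul_neg, neg_mul, neg_neg, mul_zero, smul_zero, smul_neg, neg_zero,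
    smul_sub, smul_add, smul_smul, add_zero, zero_add, sub_zero]
  module

end HYPbwd

theorem thm_HYP : St_HYP := by
  intro K _ V _ _ Q₀ v₀ _ hv₀
  obtain ⟨v₁, hv₁⟩ : ∃ v₁ : V, v₁ = (Q₀ v₀)⁻¹ • v₀ := ⟨_, rfl⟩
  have h01 : CliffordAlgebra.ι Q₀ v₀ * CliffordAlgebra.ι Q₀ v₁ = 1 := by
    rw [hv₁, map_smul, mul_smul_comm, CliffordAlgebra.ι_sq_scalar,
      Algebra.algebraMap_eq_smul_one, smul_smul, inv_mul_cancel₀ hv₀, one_smul]
  have h10 : CliffordAlgebra.ι Q₀ v₁ * CliffordAlgebra.ι Q₀ v₀ = 1 := by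
    rw [hv₁, map_smul, smul_mul_assoc, CliffordAlgebra.ι_sq_scalar,
      Algebra.algebraMap_eq_smul_one, smul_smul, inv_mul_cancel₀ hv₀, one_smul]
  have g01 : HYPn Q₀ v₀ * HYPn Q₀ v₁ = 1 := by
    rw [hv₁, HYPn_smul, mul_smul_comm, HYPnn, smul_smul, inv_mul_cancel₀ hv₀, one_smul]
  have g10 : HYPn Q₀ v₁ * HYPn Q₀ v₀ = 1 := by
    rw [hv₁, HYPn_smul, smul_mul_assoc, HYPnn, smul_smul, inv_mul_cancel₀ hv₀, one_smul]
  have ee := HYPee Q₀
  have ff := HYPff Q₀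
  have fe := HYPfe Q₀
  obtain ⟨a1, a2, a3, a4, a5⟩ := HYP_nf ee ff fe
  -- the map `β`
  obtain ⟨β, hβ⟩ : ∃ β : CliffordAlgebra.even ((hyp K).prod Q₀) →ₐ[K]
      Matrix (Fin 2) (Fin 2) (CliffordAlgebra.even Q₀),
      ∀ m m', β (HYPb ((hyp K).prod Q₀) m m') = HYPB Q₀ v₀ v₁ m m' := by
    refine ⟨CliffordAlgebra.even.lift _ (HYPhom Q₀ v₀ v₁ h01 h10), fun m m' => ?_⟩
    unfold HYPb
    rw [CliffordAlgebra.even.lift_ι]
    rfl
  -- the map `Ψ`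
  have b1 : ∀ v z, HYPn Q₀ v * (HYPe Q₀ * z) = -(HYPe Q₀ * (HYPn Q₀ v * z)) := fun v z => by
    rw [← mul_assoc, HYPne, neg_mul, mul_assoc]
  have b2 : ∀ v z, HYPn Q₀ v * (HYPf Q₀ * z) = -(HYPf Q₀ * (HYPn Q₀ v * z)) := fun v z => by
    rw [← mul_assoc, HYPnf, neg_mul, mul_assoc]
  obtain ⟨E, hE⟩ : ∃ E, E = HYPb ((hyp K).prod Q₀) ((1, 0), 0) ((0, 1), 0) := ⟨_, rfl⟩
  obtain ⟨P1, hP1⟩ : ∃ P1, P1 = HYPb ((hyp K).prod Q₀) ((0, 1), 0) ((0, 0), v₁) := ⟨_, rfl⟩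
  obtain ⟨S1, hS1⟩ : ∃ S1, S1 = HYPb ((hyp K).prod Q₀) ((0, 0), v₀) ((1, 0), 0) := ⟨_, rfl⟩
  have cE : (E : CliffordAlgebra ((hyp K).prod Q₀)) = HYPe Q₀ * HYPf Q₀ := by rw [hE]; rfl
  have cP1 : (P1 : CliffordAlgebra ((hyp K).prod Q₀)) = HYPf Q₀ * HYPn Q₀ v₁ := by rw [hP1]; rfl
  have cS1 : (S1 : CliffordAlgebra ((hyp K).prod Q₀)) = HYPn Q₀ v₀ * HYPe Q₀ := by rw [hS1]; rfl
  have k00 : E * E = E := by
    refine Subtype.ext ?_
    rw [Subalgebra.coe_mul, cE, mul_assoc, a5]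
  have k01 : E * P1 = 0 := by
    refine Subtype.ext ?_
    rw [Subalgebra.coe_mul, cE, cP1, mul_assoc, a2, mul_zero]
    rfl
  have k10 : S1 * E = 0 := by
    refine Subtype.ext ?_
    rw [Subalgebra.coe_mul, cE, cS1, mul_assoc, a1, mul_zero]
    rfl
  have k11 : S1 * P1 = E := by
    refine Subtype.ext ?_
    rw [Subalgebra.coe_mul, cE, cS1, cP1, mul_assoc, b1, b2, g01, mul_neg, neg_neg, mul_one]
  have kE : E * S1 = S1 := by
    refine Subtype.ext ?_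
    rw [Subalgebra.coe_mul, cE, cS1, mul_assoc, HYPne, mul_neg, a3, mul_neg, mul_sub, a1, sub_zero]
  have kS : E * E + P1 * S1 = 1 := by
    refine Subtype.ext ?_
    rw [k00, Subalgebra.coe_add, Subalgebra.coe_mul, cE, cS1, cP1, mul_assoc,
      ← mul_assoc (HYPn Q₀ v₁), g10, one_mul, fe, add_sub_cancel]
    rfl
  obtain ⟨Ψ, hΨ⟩ := HYP_psi (HYPj Q₀) ![E, P1] ![E, S1] E
    (by
      intro i k
      fin_cases i <;> fin_cases k <;> simp [k00, k01, k10, k11])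
    (by
      intro i
      fin_cases i <;> simp [k00, kE])
    (by
      intro c
      rw [hE]
      exact HYP_comm Q₀ c)
    (by
      rw [Fin.sum_univ_two]
      exact kS)
  have hΨ' : ∀ M, Ψ M = E * HYPj Q₀ (M 0 0) * E + E * HYPj Q₀ (M 0 1) * S1 +
      (P1 * HYPj Q₀ (M 1 0) * E + P1 * HYPj Q₀ (M 1 1) * S1) := by
    intro M
    rw [hΨ, Fin.sum_univ_two, Fin.sum_univ_two, Fin.sum_univ_two]
    rfl
  -- left inverse
  have hL : Ψ.comp β = AlgHom.id K _ := by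
    refine CliffordAlgebra.even.algHom_ext _ ?_
    refine CliffordAlgebra.EvenHom.ext (LinearMap.ext fun m => LinearMap.ext fun m' => ?_)
    change Ψ (β (HYPb ((hyp K).prod Q₀) m m')) = HYPb ((hyp K).prod Q₀) m m'
    rw [hβ, hΨ']
    refine Subtype.ext ?_
    rw [HYPb_coe, HYP_vec, HYP_vec]
    have c00 : ((HYPj Q₀ (HYPB Q₀ v₀ v₁ m m' 0 0) : CliffordAlgebra.even ((hyp K).prod Q₀)) :
        CliffordAlgebra ((hyp K).prod Q₀)) =
        HYPn Q₀ m.2 * HYPn Q₀ m'.2 + (m.1.1 * m'.1.2) • 1 := by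
      change ((HYPj Q₀ (HYPb Q₀ m.2 m'.2 + (m.1.1 * m'.1.2) • 1) :
        CliffordAlgebra.even ((hyp K).prod Q₀)) : CliffordAlgebra ((hyp K).prod Q₀)) = _
      rw [map_add, map_smul, map_one, Subalgebra.coe_add, HYPj_coe]
      rfl
    have c01 : ((HYPj Q₀ (HYPB Q₀ v₀ v₁ m m' 0 1) : CliffordAlgebra.even ((hyp K).prod Q₀)) :
        CliffordAlgebra ((hyp K).prod Q₀)) =
        (m'.1.1 • HYPn Q₀ m.2 - m.1.1 • HYPn Q₀ m'.2) * HYPn Q₀ v₁ := by
      change ((HYPj Q₀ (HYPb Q₀ (m'.1.1 • m.2 - m.1.1 • m'.2) v₁) :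
        CliffordAlgebra.even ((hyp K).prod Q₀)) : CliffordAlgebra ((hyp K).prod Q₀)) = _
      rw [HYPj_coe, HYPn_sub, HYPn_smul, HYPn_smul]
    have c10 : ((HYPj Q₀ (HYPB Q₀ v₀ v₁ m m' 1 0) : CliffordAlgebra.even ((hyp K).prod Q₀)) :
        CliffordAlgebra ((hyp K).prod Q₀)) =
        HYPn Q₀ v₀ * (m.1.2 • HYPn Q₀ m'.2 - m'.1.2 • HYPn Q₀ m.2) := by
      change ((HYPj Q₀ (HYPb Q₀ v₀ (m.1.2 • m'.2 - m'.1.2 • m.2)) :
        CliffordAlgebra.even ((hyp K).prod Q₀)) : CliffordAlgebra ((hyp K).prod Q₀)) = _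
      rw [HYPj_coe, HYPn_sub, HYPn_smul, HYPn_smul]
    have c11 : ((HYPj Q₀ (HYPB Q₀ v₀ v₁ m m' 1 1) : CliffordAlgebra.even ((hyp K).prod Q₀)) :
        CliffordAlgebra ((hyp K).prod Q₀)) =
        (m.1.2 * m'.1.1) • 1 + HYPn Q₀ v₀ * HYPn Q₀ m.2 * (HYPn Q₀ m'.2 * HYPn Q₀ v₁) := by
      change ((HYPj Q₀ ((m.1.2 * m'.1.1) • 1 + HYPb Q₀ v₀ m.2 * HYPb Q₀ m'.2 v₁) :
        CliffordAlgebra.even ((hyp K).prod Q₀)) : CliffordAlgebra ((hyp K).prod Q₀)) = _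
      rw [map_add, map_smul, map_one, map_mul, Subalgebra.coe_add, Subalgebra.coe_mul, HYPj_coe,
        HYPj_coe]
      rfl
    simp only [Subalgebra.coe_add, Subalgebra.coe_mul, cE, cP1, cS1, c00, c01, c10, c11]
    exact HYP_id (HYPn Q₀) ee ff fe (HYPne Q₀) (HYPnf Q₀) (HYPne Q₀ v₀) (HYPnf Q₀ v₀)
      (HYPne Q₀ v₁) (HYPnf Q₀ v₁) g01 g10 _ _ _ _ _ _
  -- right inverse
  have hR : β.comp Ψ = AlgHom.id K _ := by
    have hb : HYPb Q₀ v₀ v₁ = 1 := Subtype.ext h01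
    have bE : β E = !![1, 0; 0, 0] := by
      rw [hE, hβ]
      ext i k
      fin_cases i <;> fin_cases k <;> simp [HYPB]
    have bP : β P1 = !![0, 0; 1, 0] := by
      rw [hP1, hβ]
      ext i k
      fin_cases i <;> fin_cases k <;> simp [HYPB, hb]
    have bS : β S1 = !![0, 1; 0, 0] := by
      rw [hS1, hβ]
      ext i k
      fin_cases i <;> fin_cases k <;> simp [HYPB, hb]
    have bj : ∀ c, β (HYPj Q₀ c) 0 0 = c := by
      intro c
      refine (HYP_ind Q₀ (p := fun c => β (HYPj Q₀ c) 0 0 = c ∧ β (HYPj Q₀ c) 1 0 = 0)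
        ?_ ?_ ?_ c).1
      · intro r
        rw [AlgHom.commutes, AlgHom.commutes]
        exact ⟨rfl, rfl⟩
      · intro x y hx hy
        rw [map_add, map_add, Matrix.add_apply, Matrix.add_apply, hx.1, hx.2, hy.1, hy.2, add_zero]
        exact ⟨rfl, rfl⟩
      · intro v v' x hx
        rw [map_mul, map_mul, HYPj_b, hβ, Matrix.mul_apply, Matrix.mul_apply, Fin.sum_univ_two,
          Fin.sum_univ_two, hx.1, hx.2]
        simp [HYPB]
    refine AlgHom.ext fun M => ?_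
    change β (Ψ M) = M
    rw [hΨ', map_add, map_add, map_add, map_mul, map_mul, map_mul, map_mul, map_mul, map_mul,
      map_mul, map_mul, bE, bP, bS, HYP_corner, bj, bj, bj, bj]
    exact (Matrix.eta_fin_two M).symm
  exact ⟨AlgEquiv.ofAlgHom β Ψ hR hL⟩

end Pool.Agent.Q4
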