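import Pool.Agent.Q4.StH

/-! Q4, module HYP0: the even Clifford algebra of the hyperbolic plane. -/

set_option autoImplicit false

namespace Pool.Agent.Q4

open CliffordAlgebra

theorem HYP0_hyp {K : Type} [Field K] (m : K × K) : hyp K m = m.1 * m.2 := rfl

/-- the bilinear map `(m, m') ↦ (x y', y x')` -/
def HYP0_bil (K : Type) [Field K] : EvenHom (hyp K) (K × K) where
  bilin := LinearMap.mk₂ K (fun m m' => (m.1 * m'.2, m.2 * m'.1))
    (fun a b c => by ext <;> simp [add_mul])
    (fun c a b => by ext <;> simp [mul_assoc])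
    (fun a b c => by ext <;> simp [mul_add])
    (fun c a b => by ext <;> simp [mul_left_comm])
  contract m := by
    ext
    · simp [HYP0_hyp]
    · simp [HYP0_hyp, mul_comm]
  contract_mid a b c := by
    ext
    · simp only [LinearMap.mk₂_apply, HYP0_hyp, Prod.fst_mul, Prod.smul_fst, smul_eq_mul]; ring
    · simp only [LinearMap.mk₂_apply, HYP0_hyp, Prod.snd_mul, Prod.smul_snd, smul_eq_mul]; ring

/-- the homomorphism `β` -/
noncomputable def HYP0_be (K : Type) [Field K] : even (hyp K) →ₐ[K] K × K :=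
  even.lift (hyp K) (HYP0_bil K)

theorem HYP0_be_i (K : Type) [Field K] (m m' : K × K) :
    HYP0_be K ((even.ι (hyp K)).bilin m m') = (m.1 * m'.2, m.2 * m'.1) :=
  even.lift_ι (hyp K) (HYP0_bil K) m m'

/-- the idempotent `e f` -/
noncomputable def HYP0_p (K : Type) [Field K] : even (hyp K) :=
  (even.ι (hyp K)).bilin (1, 0) (0, 1)

/-- the idempotent `f e` -/
noncomputable def HYP0_q (K : Type) [Field K] : even (hyp K) :=
  (even.ι (hyp K)).bilin (0, 1) (1, 0)

theorem HYP0_ee (K : Type) [Field K] : (even.ι (hyp K)).bilin (1, 0) (1, 0) = 0 := by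
  rw [(even.ι (hyp K)).contract, HYP0_hyp]; simp

theorem HYP0_ff (K : Type) [Field K] : (even.ι (hyp K)).bilin (0, 1) (0, 1) = 0 := by
  rw [(even.ι (hyp K)).contract, HYP0_hyp]; simp

theorem HYP0_dec (K : Type) [Field K] (m m' : K × K) :
    (even.ι (hyp K)).bilin m m' = (m.1 * m'.2) • HYP0_p K + (m.2 * m'.1) • HYP0_q K := by
  obtain ⟨x, y⟩ := m
  obtain ⟨x', y'⟩ := m'
  have h : ∀ a b : K, ((a, b) : K × K) = a • ((1, 0) : K × K) + b • ((0, 1) : K × K) := by
    intro a b; ext <;> simp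
  rw [h x y, h x' y']
  simp only [map_add, map_smul, LinearMap.add_apply, LinearMap.smul_apply, HYP0_ee, HYP0_ff,
    smul_zero, zero_add, add_zero, smul_smul]
  change _ • HYP0_q K + _ • HYP0_p K = _
  simp [mul_comm, add_comm]

theorem HYP0_add (K : Type) [Field K] : HYP0_p K + HYP0_q K = 1 := by
  have h := (even.ι (hyp K)).contract (1, 1)
  rw [HYP0_dec] at h
  simpa [HYP0_hyp] using h

theorem HYP0_pq (K : Type) [Field K] : HYP0_p K * HYP0_q K = 0 := by
  have h := (even.ι (hyp K)).contract_mid (1, 0) (0, 1) (1, 0)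
  rw [HYP0_ee, smul_zero] at h
  exact h

theorem HYP0_qp (K : Type) [Field K] : HYP0_q K * HYP0_p K = 0 := by
  have h := (even.ι (hyp K)).contract_mid (0, 1) (1, 0) (0, 1)
  rw [HYP0_ff, smul_zero] at h
  exact h

theorem HYP0_pp (K : Type) [Field K] : HYP0_p K * HYP0_p K = HYP0_p K := by
  have h : HYP0_p K * (HYP0_p K + HYP0_q K) = HYP0_p K := by rw [HYP0_add, mul_one]
  rwa [mul_add, HYP0_pq, add_zero] at h

theorem HYP0_qq (K : Type) [Field K] : HYP0_q K * HYP0_q K = HYP0_q K := by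
  have h : HYP0_q K * (HYP0_p K + HYP0_q K) = HYP0_q K := by rw [HYP0_add, mul_one]
  rwa [mul_add, HYP0_qp, zero_add] at h

/-- the inverse of `β` -/
noncomputable def HYP0_ga (K : Type) [Field K] : K × K →ₐ[K] even (hyp K) :=
  AlgHom.ofLinearMap
    ({ toFun := fun z => z.1 • HYP0_p K + z.2 • HYP0_q K
       map_add' := fun a b => by simp only [Prod.fst_add, Prod.snd_add, add_smul]; abel
       map_smul' := fun c a => by
        simp only [Prod.smul_fst, Prod.smul_snd, smul_eq_mul, mul_smul, smul_add,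
          RingHom.id_apply] } : K × K →ₗ[K] even (hyp K))
    (by
      change (1 : K) • HYP0_p K + (1 : K) • HYP0_q K = 1
      rw [one_smul, one_smul, HYP0_add])
    (fun a b => by
      change (a.1 * b.1) • HYP0_p K + (a.2 * b.2) • HYP0_q K =
        (a.1 • HYP0_p K + a.2 • HYP0_q K) * (b.1 • HYP0_p K + b.2 • HYP0_q K)
      simp only [mul_add, add_mul, smul_mul_smul_comm, HYP0_pp, HYP0_qq, HYP0_pq, HYP0_qp,
        smul_zero, add_zero, zero_add])

theorem HYP0_ga_apply (K : Type) [Field K] (z : K × K) :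
    HYP0_ga K z = z.1 • HYP0_p K + z.2 • HYP0_q K := rfl

theorem thm_HYP0 : St_HYP0 := by
  intro K _
  refine ⟨AlgEquiv.ofAlgHom (HYP0_be K) (HYP0_ga K) ?_ ?_⟩
  · ext z
    all_goals
      simp [HYP0_ga_apply, HYP0_p, HYP0_q, HYP0_be_i]
  · refine even.algHom_ext (hyp K) ?_
    refine EvenHom.ext (LinearMap.ext₂ fun m m' => ?_)
    change HYP0_ga K (HYP0_be K ((even.ι (hyp K)).bilin m m')) = (even.ι (hyp K)).bilin m m'
    rw [HYP0_be_i, HYP0_ga_apply, HYP0_dec K m m']

end Pool.Agent.Q4
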