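import Pool.Agent.Q4.StK

/-!
# Q4, module KB: counting with prime factors in a unique factorization domain
-/

set_option autoImplicit false

namespace Pool.Agent.Q4

open Classical in
/-- `1` if `c` and `q` are associated, `0` otherwise -/
noncomputable def KB_d {A : Type} [CommRing A] (c q : A) : ℕ := if Associated c q then 1 else 0

theorem KB_d_pos {A : Type} [CommRing A] {c q : A} (h : Associated c q) : KB_d c q = 1 := by
  unfold KB_d
  rw [if_pos h]

theorem KB_d_neg {A : Type} [CommRing A] {c q : A} (h : ¬ Associated c q) : KB_d c q = 0 := by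
  unfold KB_d
  rw [if_neg h]

/-- the number of elements of a multiset associated with `c` -/
noncomputable def KB_k {A : Type} [CommRing A] (c : A) (m : Multiset A) : ℕ :=
  (m.map (KB_d c)).sum

theorem KB_k_zero {A : Type} [CommRing A] (c : A) : KB_k c (0 : Multiset A) = 0 := by
  simp [KB_k]

theorem KB_k_cons {A : Type} [CommRing A] (c q : A) (m : Multiset A) :
    KB_k c (q ::ₘ m) = KB_k c m + KB_d c q := by
  unfold KB_k
  rw [Multiset.map_cons, Multiset.sum_cons, add_comm]

theorem KB_k_replicate {A : Type} [CommRing A] (c q : A) (n : ℕ) :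
    KB_k c (Multiset.replicate n q) = n * KB_d c q := by
  unfold KB_k
  rw [Multiset.map_replicate, Multiset.sum_replicate, smul_eq_mul]

/-- the valuation of a product -/
theorem KB_vmul {A : Type} [CommRing A] [IsDomain A] [UniqueFactorizationMonoid A] {c a b : A}
    (hc : Prime c) (ha : a ≠ 0) (hb : b ≠ 0) :
    multiplicity c (a * b) = multiplicity c a + multiplicity c b :=
  multiplicity_mul hc (FiniteMultiplicity.of_not_isUnit hc.not_isUnit (mul_ne_zero ha hb))

theorem KB_vpow {A : Type} [CommRing A] [IsDomain A] [UniqueFactorizationMonoid A] {c a : A}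
    (hc : Prime c) (ha : a ≠ 0) (n : ℕ) :
    multiplicity c (a ^ n) = n * multiplicity c a := by
  induction n with
  | zero =>
    rw [pow_zero, zero_mul]
    exact multiplicity_eq_zero.2 (fun h => hc.not_isUnit (isUnit_of_dvd_one h))
  | succ n ih =>
    rw [pow_succ, KB_vmul hc (pow_ne_zero _ ha) ha, ih]
    ring

theorem KB_vprime {A : Type} [CommRing A] [IsDomain A] [UniqueFactorizationMonoid A] {c q : A}
    (hc : Prime c) (hq : Prime q) :
    multiplicity c q = KB_d c q := by
  by_cases h : Associated c q
  · rw [KB_d_pos h]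
    have h1 : FiniteMultiplicity c q := FiniteMultiplicity.of_not_isUnit hc.not_isUnit hq.ne_zero
    rw [h1.multiplicity_eq_iff]
    refine ⟨by rw [pow_one]; exact h.dvd, ?_⟩
    intro h2
    have h3 : c * c ∣ c := by
      have h4 : c ^ (1 + 1) ∣ c := h2.trans h.symm.dvd
      have h5 : c ^ (1 + 1) = c * c := by ring
      rwa [h5] at h4
    have h6 : c ∣ 1 := by
      have h7 : c * c ∣ c * 1 := by rwa [mul_one]
      exact (mul_dvd_mul_iff_left hc.ne_zero).1 h7
    exact hc.not_isUnit (isUnit_of_dvd_one h6)
  · rw [KB_d_neg h]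
    exact multiplicity_eq_zero.2 (fun h' => h (hc.associated_of_dvd hq h'))

/-- the valuation of the product of the powers -/
theorem KB_val {A : Type} [CommRing A] [IsDomain A] [UniqueFactorizationMonoid A] (r : A → ℕ)
    (hr : ∀ q q' : A, Associated q q' → r q = r q') {c : A} (hc : Prime c) (m : Multiset A)
    (hm : ∀ q ∈ m, Prime q) :
    (m.map fun q => q ^ r q).prod ≠ 0 ∧
      multiplicity c (m.map fun q => q ^ r q).prod = KB_k c m * r c := by
  induction m using Multiset.induction_on with
  | empty =>
    refine ⟨by simp, ?_⟩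
    rw [KB_k_zero, Multiset.map_zero, Multiset.prod_zero, zero_mul]
    exact multiplicity_eq_zero.2 (fun h => hc.not_isUnit (isUnit_of_dvd_one h))
  | cons q m ih =>
    have hq : Prime q := hm q (Multiset.mem_cons_self q m)
    obtain ⟨h1, h2⟩ := ih (fun q' h => hm q' (Multiset.mem_cons_of_mem h))
    rw [Multiset.map_cons, Multiset.prod_cons]
    refine ⟨mul_ne_zero (pow_ne_zero _ hq.ne_zero) h1, ?_⟩
    rw [KB_vmul hc (pow_ne_zero _ hq.ne_zero) h1, h2, KB_vpow hc hq.ne_zero, KB_vprime hc hq,
      KB_k_cons]
    by_cases h : Associated c q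
    · rw [KB_d_pos h, hr c q h]
      ring
    · rw [KB_d_neg h]
      ring

theorem KB_count {A : Type} [CommRing A] [DecidableEq (Associates A)] (c : A) (m : Multiset A) :
    (m.map Associates.mk).count (Associates.mk c) = KB_k c m := by
  induction m using Multiset.induction_on with
  | empty => rw [Multiset.map_zero, Multiset.count_zero, KB_k_zero]
  | cons q m ih =>
    rw [Multiset.map_cons, Multiset.count_cons, ih, KB_k_cons]
    congr 1
    by_cases h : Associated c q
    · rw [KB_d_pos h, if_pos (Associates.mk_eq_mk_iff_associated.2 h)]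
    · rw [KB_d_neg h, if_neg (fun h' => h (Associates.mk_eq_mk_iff_associated.1 h'))]

/-- a class representative -/
noncomputable def KB_out {A : Type} [CommRing A] (a : Associates A) : A := Quot.out a

theorem KB_out_mk {A : Type} [CommRing A] (x : A) : Associated (KB_out (Associates.mk x)) x :=
  Associates.mk_quot_out x

theorem KB_sum {A : Type} [CommRing A] [DecidableEq (Associates A)] {Γ : Type 1} [AddCommGroup Γ] (t : A → Γ)
    (ht : ∀ q q' : A, Associated q q' → t q = t q') (m : Multiset A)
    (S : Finset (Associates A)) (hS : (m.map Associates.mk).toFinset ⊆ S) :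
    (m.map t).sum = ∑ a ∈ S, ((m.map Associates.mk).count a) • t (KB_out a) := by
  have h1 : m.map t = (m.map Associates.mk).map (fun a => t (KB_out a)) := by
    rw [Multiset.map_map]
    refine Multiset.map_congr rfl ?_
    intro x _
    exact ht _ _ (KB_out_mk x).symm
  rw [h1, Finset.sum_multiset_map_count]
  refine Finset.sum_subset hS ?_
  intro a _ ha
  rw [Multiset.mem_toFinset] at ha
  rw [Multiset.count_eq_zero_of_notMem ha, zero_smul]

theorem KB_G {A : Type} [CommRing A] {Γ : Type 1} [AddCommGroup Γ] (t : A → Γ)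
    (ht : ∀ q q' : A, Associated q q' → t q = t q') (m n : Multiset A)
    (hm : ∀ q ∈ m, Prime q) (hn : ∀ q ∈ n, Prime q)
    (h : ∀ c : A, Prime c → KB_k c m • t c = KB_k c n • t c) :
    (m.map t).sum = (n.map t).sum := by
  let _ : DecidableEq (Associates A) := Classical.decEq _
  rw [KB_sum t ht m ((m.map Associates.mk).toFinset ∪ (n.map Associates.mk).toFinset)
    Finset.subset_union_left, KB_sum t ht n
    ((m.map Associates.mk).toFinset ∪ (n.map Associates.mk).toFinset) Finset.subset_union_right]
  refine Finset.sum_congr rfl ?_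
  intro a ha
  have h1 : ∃ q : A, Prime q ∧ Associates.mk q = a := by
    rw [Finset.mem_union, Multiset.mem_toFinset, Multiset.mem_toFinset, Multiset.mem_map,
      Multiset.mem_map] at ha
    rcases ha with ⟨q, hq, h2⟩ | ⟨q, hq, h2⟩
    · exact ⟨q, hm q hq, h2⟩
    · exact ⟨q, hn q hq, h2⟩
  obtain ⟨q, hq, rfl⟩ := h1
  rw [KB_count, KB_count, ht _ _ (KB_out_mk q)]
  exact h q hq

theorem KB_two {Γ : Type 1} [AddCommGroup Γ] {x : Γ} (h : 2 • x = 0) (n : ℕ) :
    (2 * n) • x = 0 := by
  rw [mul_comm, mul_smul, h, smul_zero]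

/-- the first step: the classes of the primes -/
theorem KB_one {A : Type} [CommRing A] [IsDomain A] [UniqueFactorizationMonoid A] {Γ : Type 1}
    [AddCommGroup Γ] (t : A → Γ) (r : A → ℕ)
    (htr : ∀ q q' : A, Associated q q' → t q = t q' ∧ r q = r q')
    {q : A} (hq : Prime q) (m : Multiset A) (hm : ∀ q ∈ m, Prime q)
    (ha : Associated (q ^ 16) (m.map fun q => q ^ r q).prod) (h4 : ∀ q : A, Prime q → 4 ≤ r q)
    (hs : (m.map t).sum = 0) : KB_k q m * r q = 16 ∧ KB_k q m • t q = 0 := by
  classical
  have hv : ∀ c : A, Prime c → KB_k c m * r c = 16 * KB_d c q := by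
    intro c hc
    rw [← (KB_val r (fun a b h => (htr a b h).2) hc m hm).2,
      ← multiplicity_eq_of_associated_right ha, KB_vpow hc hq.ne_zero, KB_vprime hc hq]
  have h1 : KB_k q m * r q = 16 := by
    have h2 := hv q hq
    rw [KB_d_pos (Associated.refl q)] at h2
    omega
  refine ⟨h1, ?_⟩
  have h2 : (m.map t).sum = ((Multiset.replicate (KB_k q m) q).map t).sum := by
    refine KB_G t (fun a b h => (htr a b h).1) m _ hm ?_ ?_
    · intro x hx
      rw [Multiset.eq_of_mem_replicate hx]
      exact hq
    · intro c hc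
      by_cases hcq : Associated c q
      · have h3 : KB_k c (Multiset.replicate (KB_k q m) q) = KB_k q m := by
          rw [KB_k_replicate, KB_d_pos hcq, mul_one]
        have h4' : KB_k c m = KB_k q m := by
          have h5 := hv c hc
          rw [KB_d_pos hcq, (htr c q hcq).2] at h5
          have h6 : KB_k c m * r q = KB_k q m * r q := by omega
          exact Nat.eq_of_mul_eq_mul_right (by have := h4 q hq; omega) h6
        rw [h3, h4']
      · have h3 : KB_k c (Multiset.replicate (KB_k q m) q) = 0 := by
          rw [KB_k_replicate, KB_d_neg hcq, mul_zero]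
        have h4' : KB_k c m = 0 := by
          have h5 := hv c hc
          rw [KB_d_neg hcq] at h5
          have h6 := h4 c hc
          rcases Nat.eq_zero_or_pos (KB_k c m) with h7 | h7
          · exact h7
          · exfalso
            have : 0 < KB_k c m * r c := Nat.mul_pos h7 (by omega)
            omega
        rw [h3, h4']
  rw [hs, Multiset.map_replicate, Multiset.sum_replicate] at h2
  exact h2.symm

theorem thm_KB : St_KB := by
  classical
  intro A _ _ _ Γ _ t r Z htr h4 hZ hq16 hqi
  have hr : ∀ q q' : A, Associated q q' → r q = r q' := fun a b h => (htr a b h).2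
  have ht : ∀ q q' : A, Associated q q' → t q = t q' := fun a b h => (htr a b h).1
  -- step 1
  have s1 : ∀ q : A, Prime q → ∃ k : ℕ, k * r q = 16 ∧ k • t q = 0 := by
    intro q hq
    obtain ⟨_, m, hm, ha, hs⟩ := hZ _ (hq16 q hq)
    exact ⟨_, KB_one t r htr hq m hm ha h4 hs⟩
  have s1' : ∀ q : A, Prime q → (r q = 4 ∧ 4 • t q = 0) ∨ (r q = 8 ∧ 2 • t q = 0) ∨
      (r q = 16 ∧ t q = 0) := by
    intro q hq
    obtain ⟨k, hk, hk'⟩ := s1 q hq
    have h5 := h4 q hq
    have h6 : k ≤ 4 := by
      by_contra h7
      have : 5 * 4 ≤ k * r q := Nat.mul_le_mul (by omega) h5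
      omega
    interval_cases k
    · omega
    · right; right
      refine ⟨by omega, ?_⟩
      rwa [one_smul] at hk'
    · right; left
      exact ⟨by omega, hk'⟩
    · omega
    · left
      exact ⟨by omega, hk'⟩
  -- step 2
  have s2 : ∀ q : A, Prime q → 2 • t q = 0 ∧ (r q ≠ 4 → t q = 0) := by
    intro q hq
    obtain ⟨x, hx, β, hβ, hxe⟩ := hqi q hq
    obtain ⟨hx0, m, hm, ha, hs⟩ := hZ x hx
    have hv : ∀ c : A, Prime c → KB_k c m * r c =
        8 * KB_d c q + 16 * multiplicity c β := by
      intro c hc
      have e1 : multiplicity c x = KB_k c m * r c := by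
        rw [multiplicity_eq_of_associated_right ha]
        exact (KB_val r hr hc m hm).2
      have e2 : multiplicity c (x ^ 2) = multiplicity c (q ^ 16 * β ^ 32) := by rw [hxe]
      rw [KB_vpow hc hx0, KB_vmul hc (pow_ne_zero _ hq.ne_zero) (pow_ne_zero _ hβ),
        KB_vpow hc hq.ne_zero, KB_vpow hc hβ, KB_vprime hc hq] at e2
      omega
    have h2 : (m.map t).sum = ((Multiset.replicate (KB_k q m) q).map t).sum := by
      refine KB_G t ht m _ hm ?_ ?_
      · intro x hx
        rw [Multiset.eq_of_mem_replicate hx]
        exact hq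
      · intro c hc
        by_cases hcq : Associated c q
        · have h3 : KB_k c (Multiset.replicate (KB_k q m) q) = KB_k q m := by
            rw [KB_k_replicate, KB_d_pos hcq, mul_one]
          have h4' : KB_k c m = KB_k q m := by
            have h5 := hv c hc
            have h5' := hv q hq
            rw [KB_d_pos hcq, hr c q hcq,
              ← multiplicity_eq_of_associated_left hcq (c := β)] at h5
            rw [KB_d_pos (Associated.refl q)] at h5'
            have h6 : KB_k c m * r q = KB_k q m * r q := by omega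
            exact Nat.eq_of_mul_eq_mul_right (by have := h4 q hq; omega) h6
          rw [h3, h4']
        · have h3 : KB_k c (Multiset.replicate (KB_k q m) q) = 0 := by
            rw [KB_k_replicate, KB_d_neg hcq, mul_zero]
          rw [h3, zero_smul]
          have h5 := hv c hc
          rw [KB_d_neg hcq] at h5
          obtain ⟨k, hk, hk'⟩ := s1 c hc
          have h6 : KB_k c m = multiplicity c β * k := by
            have h7 : KB_k c m * r c = (multiplicity c β * k) * r c := by
              rw [h5, mul_assoc, hk]
              ring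
            exact Nat.eq_of_mul_eq_mul_right (by have := h4 c hc; omega) h7
          rw [h6, mul_smul, hk', smul_zero]
    rw [hs, Multiset.map_replicate, Multiset.sum_replicate] at h2
    have h3 := hv q hq
    rw [KB_d_pos (Associated.refl q)] at h3
    rcases s1' q hq with ⟨h5, h6⟩ | ⟨h5, h6⟩ | ⟨h5, h6⟩
    · refine ⟨?_, fun h => absurd h5 h⟩
      rw [h5] at h3
      have h7 : KB_k q m = 2 + multiplicity q β * 4 := by omega
      rw [h7, add_smul, mul_smul, h6, smul_zero, add_zero] at h2
      exact h2.symm
    · rw [h5] at h3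
      have h7 : KB_k q m = 1 + multiplicity q β * 2 := by omega
      rw [h7, add_smul, mul_smul, h6, smul_zero, add_zero, one_smul] at h2
      refine ⟨h6, fun _ => h2.symm⟩
    · refine ⟨by rw [h6, smul_zero], fun _ => h6⟩
  refine ⟨s2, ?_⟩
  -- step 3
  intro p p' hp hp' hpp
  obtain ⟨x, hx, ξ, η, hξ, hη, hxe⟩ := hpp
  obtain ⟨hx0, m, hm, ha, hs⟩ := hZ x hx
  have hv : ∀ c : A, Prime c → KB_k c m * r c + 8 * multiplicity c ξ =
      4 * (KB_d c p + KB_d c p') +
        8 * multiplicity c η := by
    intro c hc
    have e1 : multiplicity c x = KB_k c m * r c := by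
      rw [multiplicity_eq_of_associated_right ha]
      exact (KB_val r hr hc m hm).2
    have e2 : multiplicity c (x ^ 4 * ξ ^ 32) = multiplicity c ((p * p') ^ 16 * η ^ 32) := by
      rw [hxe]
    rw [KB_vmul hc (pow_ne_zero _ hx0) (pow_ne_zero _ hξ), KB_vpow hc hx0, KB_vpow hc hξ,
      KB_vmul hc (pow_ne_zero _ (mul_ne_zero hp.ne_zero hp'.ne_zero)) (pow_ne_zero _ hη),
      KB_vpow hc (mul_ne_zero hp.ne_zero hp'.ne_zero), KB_vpow hc hη,
      KB_vmul hc hp.ne_zero hp'.ne_zero, KB_vprime hc hp, KB_vprime hc hp'] at e2
    omega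
  have h2 : (m.map t).sum = ((p ::ₘ p' ::ₘ 0 : Multiset A).map t).sum := by
    refine KB_G t ht m _ hm ?_ ?_
    · intro y hy
      rw [Multiset.mem_cons, Multiset.mem_cons] at hy
      rcases hy with hy | hy | hy
      · rw [hy]; exact hp
      · rw [hy]; exact hp'
      · exact absurd hy (Multiset.notMem_zero y)
    · intro c hc
      rw [KB_k_cons, KB_k_cons, KB_k_zero, zero_add]
      by_cases h5 : r c = 4
      · have h6 := hv c hc
        rw [h5] at h6
        have h7 : KB_k c m + 2 * multiplicity c ξ =
            (KB_d c p' + KB_d c p) +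
              2 * multiplicity c η := by omega
        have h8 : (KB_k c m + 2 * multiplicity c ξ) • t c =
            (KB_d c p' + KB_d c p + 2 * multiplicity c η) • t c := by rw [h7]
        rw [add_smul, add_smul, KB_two (s2 c hc).1, KB_two (s2 c hc).1, add_zero, add_zero] at h8
        exact h8
      · rw [(s2 c hc).2 h5, smul_zero, smul_zero]
  rw [hs, Multiset.map_cons, Multiset.map_cons, Multiset.map_zero, Multiset.sum_cons,
    Multiset.sum_cons, Multiset.sum_zero, add_zero] at h2
  have h3 : t p' + t p' = 0 := by
    have := (s2 p' hp').1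
    rwa [two_smul] at this
  have h5 : t p + t p' = t p' + t p' := by rw [← h2, h3]
  exact add_right_cancel h5

end Pool.Agent.Q4
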