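import Pool.Agent.Q4.StK

/-!
# Q4, module KEY: torsion modules over biquaternion orders, assembly

Statement and proof: see `St_KEY` in `Pool/Agent/Q4/StK.lean`.
-/

set_option autoImplicit false

namespace Pool.Agent.Q4

open Quaternion TensorProduct Function Pool.Agent.QTB Pool.Agent.QCB

theorem thm_KEY (h1 : St_KR) (h2 : St_KB) (h3 : St_RNQ) (h4 : St_PSA) : St_KEY := by
  intro A _ _ _ a b c d hu2 ha hb hc hd han hiso Γ _ ψ h
  obtain ⟨t, r, htr, hrep, hrel, hgen⟩ := h
  have h20 : (2 : A) ≠ 0 := hu2.ne_zero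
  obtain ⟨rmul, ralg, rne, rvv, rpv, -⟩ := h3 A a b c d h20 han
  have rz : rn (A := A) (0 : Pool.Agent.QTB.BQ A a b c d) = 0 := by
    have e1 := ralg 0
    rw [map_zero, zero_pow (by norm_num)] at e1
    exact e1
  obtain ⟨h5, h6⟩ := h2 A Γ t r {x | ∃ z : Pool.Agent.QTB.BQ A a b c d, z ≠ 0 ∧ x = rn (A := A) z}
    htr (fun q hq => (h1 A a b c d q (r q) hu2 ha hb hc hd hq (hrep q hq).1 (hrep q hq).2).1)
    (by
      rintro x ⟨z, hz, rfl⟩
      exact ⟨rne z hz, hrel z (rne z hz)⟩)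
    (by
      intro q hq
      refine ⟨algebraMap A _ q, ?_, (ralg q).symm⟩
      intro h0
      have e1 := ralg q
      rw [h0, rz] at e1
      exact pow_ne_zero 16 hq.ne_zero e1.symm)
    (by
      intro q hq
      obtain ⟨x, y, hxy, he⟩ := hiso q hq.ne_zero
      have hy : y ≠ 0 := by
        rintro rfl
        have e1 : dg (alc a b c d) (0 : Fin 6 → A) 0 = 0 := by simp [dg]
        rw [e1, mul_zero] at he
        rcases hxy with h7 | h7
        · exact h7 (han x he)
        · exact h7 rfl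
      have hay : dg (alc a b c d) y y ≠ 0 := fun h0 => hy (han y h0)
      have e2 : rn (A := A) (vv a b c d x * QTB.pv a b c d y) ^ 2 =
          q ^ 16 * dg (alc a b c d) y y ^ 32 := by
        rw [rmul, mul_pow, rvv, rpv, he]
        ring
      refine ⟨_, ⟨vv a b c d x * QTB.pv a b c d y, ?_, rfl⟩, _, hay, e2⟩
      intro h0
      rw [h0, rz, zero_pow (by norm_num)] at e2
      exact mul_ne_zero (pow_ne_zero 16 hq.ne_zero) (pow_ne_zero 32 hay) e2.symm)
  refine ⟨t, fun q q' hqq => (htr q q' hqq).1, fun q hq => (h5 q hq).1, ?_, ?_, hgen⟩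
  · intro q hq hspl
    apply (h5 q hq).2
    intro hr
    exact hspl ((h1 A a b c d q (r q) hu2 ha hb hc hd hq (hrep q hq).1 (hrep q hq).2).2 hr)
  · intro p p' hp hp' hI
    obtain ⟨g, ξ, η, hg, hξ, hη, he⟩ := h4 A a b c d (p * p') h20
      (mul_ne_zero hp.ne_zero hp'.ne_zero) han hI
    exact h6 p p' hp hp' ⟨_, ⟨g, hg, rfl⟩, ξ, η, hξ, hη, he⟩

end Pool.Agent.Q4
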