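import Pool.Agent.Q4.StK
import Pool.Agent.QTB.RGE4

/-!
# Q4, module KR: representations of a biquaternion order modulo a prime
-/

set_option autoImplicit false

namespace Pool.Agent.Q4

open Quaternion TensorProduct Function Pool.Agent.QTB Pool.Agent.QCB

section
variable {A : Type} [CommRing A] (a b : A)

theorem KR_ii : (⟨0, 1, 0, 0⟩ : ℍ[A,a,b]) * ⟨0, 1, 0, 0⟩ = algebraMap A ℍ[A,a,b] a := by
  ext <;> simp

theorem KR_jj : (⟨0, 0, 1, 0⟩ : ℍ[A,a,b]) * ⟨0, 0, 1, 0⟩ = algebraMap A ℍ[A,a,b] b := by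
  ext <;> simp

theorem KR_ij : (⟨0, 1, 0, 0⟩ : ℍ[A,a,b]) * ⟨0, 0, 1, 0⟩ =
    -((⟨0, 0, 1, 0⟩ : ℍ[A,a,b]) * ⟨0, 1, 0, 0⟩) := by
  ext <;> simp

end

theorem thm_KR (h : St_SIMQ) : St_KR := by
  intro A _ _ a b c d q r h2 ha hb hc hd hq hr hrep
  refine ⟨RGE4 q (h A a b c d q h2 ha hb hc hd (Or.inl hq)) r hr hrep, ?_⟩
  rintro rfl
  obtain ⟨E, hE, φ, ρ, hres, hρ⟩ := hrep
  have h1 : ∀ x : A, ρ ((algebraMap A ℍ[A,a,b] x) ⊗ₜ[A] (1 : ℍ[A,c,d])) = φ x • 1 := fun x => by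
    rw [← hρ, Algebra.TensorProduct.algebraMap_apply]
  have h3 : ∀ x : A, ρ ((1 : ℍ[A,a,b]) ⊗ₜ[A] (algebraMap A ℍ[A,c,d] x)) = φ x • 1 := fun x => by
    rw [← hρ, Algebra.TensorProduct.algebraMap_apply']
  refine ⟨E, hE, φ, hres, ρ ((⟨0, 1, 0, 0⟩ : ℍ[A,a,b]) ⊗ₜ[A] (1 : ℍ[A,c,d])),
    ρ ((⟨0, 0, 1, 0⟩ : ℍ[A,a,b]) ⊗ₜ[A] (1 : ℍ[A,c,d])),
    ρ ((1 : ℍ[A,a,b]) ⊗ₜ[A] (⟨0, 1, 0, 0⟩ : ℍ[A,c,d])),
    ρ ((1 : ℍ[A,a,b]) ⊗ₜ[A] (⟨0, 0, 1, 0⟩ : ℍ[A,c,d])), ?_, ?_, ?_, ?_, ?_, ?_, ?_, ?_, ?_, ?_⟩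
  · rw [← map_mul, Algebra.TensorProduct.tmul_mul_tmul, KR_ii, mul_one, h1]
  · rw [← map_mul, Algebra.TensorProduct.tmul_mul_tmul, KR_jj, mul_one, h1]
  · rw [← map_mul, ← map_mul, ← map_neg, Algebra.TensorProduct.tmul_mul_tmul,
      Algebra.TensorProduct.tmul_mul_tmul, KR_ij, TensorProduct.neg_tmul]
  · rw [← map_mul, Algebra.TensorProduct.tmul_mul_tmul, KR_ii, mul_one, h3]
  · rw [← map_mul, Algebra.TensorProduct.tmul_mul_tmul, KR_jj, mul_one, h3]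
  · rw [← map_mul, ← map_mul, ← map_neg, Algebra.TensorProduct.tmul_mul_tmul,
      Algebra.TensorProduct.tmul_mul_tmul, KR_ij, TensorProduct.tmul_neg]
  · rw [← map_mul, ← map_mul, Algebra.TensorProduct.tmul_mul_tmul,
      Algebra.TensorProduct.tmul_mul_tmul, one_mul, mul_one, one_mul, mul_one]
  · rw [← map_mul, ← map_mul, Algebra.TensorProduct.tmul_mul_tmul,
      Algebra.TensorProduct.tmul_mul_tmul, one_mul, mul_one, one_mul, mul_one]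
  · rw [← map_mul, ← map_mul, Algebra.TensorProduct.tmul_mul_tmul,
      Algebra.TensorProduct.tmul_mul_tmul, one_mul, mul_one, one_mul, mul_one]
  · rw [← map_mul, ← map_mul, Algebra.TensorProduct.tmul_mul_tmul,
      Algebra.TensorProduct.tmul_mul_tmul, one_mul, mul_one, one_mul, mul_one]

end Pool.Agent.Q4
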