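import Pool.Agent.Q4.StA

/-!
# Q4, module LR: left and right multiplications in a division algebra have the same determinant

The bilinear form `T (a * b)`, `T` a nonzero functional, is nondegenerate, and the right
multiplication by `x` is the adjoint of the left multiplication by `x`.
-/

set_option autoImplicit false

namespace Pool.Agent.Q4

theorem thm_LR : St_LR := by
  intro K D _ _ _ _ _ _ x
  -- a nonzero functional
  obtain ⟨T, hT⟩ : ∃ T : Module.Dual K D, T 1 ≠ 0 := by
    by_contra h
    push Not at h
    exact one_ne_zero ((Module.forall_dual_apply_eq_zero_iff K (1 : D)).mp h)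
  -- the bilinear form
  let B : D →ₗ[K] Module.Dual K D :=
    LinearMap.mk₂ K (fun a b : D => T (a * b)) (fun a a' b => by simp [add_mul])
      (fun c a b => by simp) (fun a b b' => by simp [mul_add]) (fun c a b => by simp)
  have hB : ∀ a b, B a b = T (a * b) := fun a b => rfl
  have hinj : Function.Injective B := by
    rw [injective_iff_map_eq_zero]
    intro a ha
    by_contra hne
    have h1 : Function.Injective (LinearMap.mulLeft K a) := by
      rw [injective_iff_map_eq_zero]
      intro b hb
      exact (mul_eq_zero.mp hb).resolve_left hne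
    obtain ⟨b, hb⟩ := LinearMap.injective_iff_surjective.mp h1 1
    apply hT
    rw [← hb, LinearMap.mulLeft_apply, ← hB, ha]
    rfl
  let e : D ≃ₗ[K] Module.Dual K D :=
    LinearEquiv.ofInjectiveOfFinrankEq B hinj (by rw [Subspace.dual_finrank_eq])
  have he : ∀ a, e a = B a := fun a => rfl
  have key : ((e : D →ₗ[K] Module.Dual K D) ∘ₗ (LinearMap.mulRight K x) ∘ₗ
      (e.symm : Module.Dual K D →ₗ[K] D)) = (LinearMap.mulLeft K x).dualMap := by
    ext φ b
    obtain ⟨a, rfl⟩ := e.surjective φ
    have h1 : e.symm (e a) = a := e.symm_apply_apply a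
    rw [LinearMap.comp_apply, LinearMap.comp_apply, LinearMap.dualMap_apply]
    simp only [LinearEquiv.coe_coe, h1, LinearMap.mulRight_apply, LinearMap.mulLeft_apply]
    rw [he, he, hB, hB, mul_assoc]
  rw [← LinearMap.det_conj (LinearMap.mulRight K x) e, key, LinearMap.det_dualMap]

end Pool.Agent.Q4
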