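import Pool.Agent.Q4.StE

/-!
# Q4, module NCO: composition with a surjection with nilpotent kernel
-/

set_option autoImplicit false

namespace Pool.Agent.Q4

open Function Pool.Agent.QCT

private theorem NCO_nil {K Λ Λ' E : Type} [Field K] [Ring Λ] [Ring Λ'] [Ring E] [Algebra K Λ]
    [Algebra K Λ'] [Algebra K E] (π : Λ →ₐ[K] Λ') (ρ : Λ' →ₐ[K] E)
    (hπ : IsNilpotent (RingHom.ker π)) (hρ : IsNilpotent (RingHom.ker ρ)) :
    IsNilpotent (RingHom.ker (ρ.comp π)) := by
  obtain ⟨r, hr⟩ := hπ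
  obtain ⟨s, hs⟩ := hρ
  have hr1 : (RingHom.ker π) ^ (r + 1) = 0 := by
    rw [Submodule.pow_succ, hr, Submodule.zero_eq_bot, Submodule.bot_mul]
  have hs1 : (RingHom.ker ρ) ^ (s + 1) = 0 := by
    rw [Submodule.pow_succ, hs, Submodule.zero_eq_bot, Submodule.bot_mul]
  have key : ∀ n : ℕ, ∀ y ∈ (RingHom.ker (ρ.comp π)) ^ n, π y ∈ (RingHom.ker ρ) ^ n := by
    intro n
    induction n with
    | zero =>
      intro y _
      rw [Submodule.pow_zero, Submodule.one_eq_span]
      exact Submodule.mem_span_singleton.2 ⟨π y, by rw [smul_eq_mul, mul_one]⟩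
    | succ n ih =>
      intro y hy
      rw [Submodule.pow_succ] at hy ⊢
      have h1 : (RingHom.ker (ρ.comp π)) ^ n * (RingHom.ker (ρ.comp π)) ≤
          Ideal.comap π ((RingHom.ker ρ) ^ n * RingHom.ker ρ) := by
        rw [Ideal.mul_le]
        intro u hu v hv
        rw [Ideal.mem_comap, map_mul]
        refine Ideal.mul_mem_mul (ih u hu) ?_
        rw [RingHom.mem_ker] at hv ⊢
        exact hv
      exact h1 hy
  have hle : (RingHom.ker (ρ.comp π)) ^ (s + 1) ≤ RingHom.ker π := by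
    intro y hy
    have h1 := key _ y hy
    rw [hs1] at h1
    exact h1
  have hall : ∀ k : ℕ, (RingHom.ker (ρ.comp π)) ^ ((s + 1) * (k + 1)) ≤
      (RingHom.ker π) ^ (k + 1) := by
    intro k
    induction k with
    | zero =>
      rw [Nat.zero_add, mul_one, Submodule.pow_one]
      exact hle
    | succ k ih =>
      have e : (s + 1) * (k + 1 + 1) = (s + 1) * (k + 1) + (s + 1) := by ring
      rw [e, Submodule.pow_add _ (Nat.succ_ne_zero s), Submodule.pow_succ (n := k + 1)]
      exact Ideal.mul_mono ih hle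
  refine ⟨(s + 1) * (r + 1), ?_⟩
  have h2 := hall r
  rw [hr1] at h2
  exact le_antisymm h2 bot_le

private theorem NCO_ker1 {K Λ E : Type} [Field K] [Ring Λ] [Ring E] [Algebra K Λ]
    [Algebra K E] (π : Λ →ₐ[K] E) (h : Injective π) : IsNilpotent (RingHom.ker π) := by
  refine ⟨1, ?_⟩
  rw [Submodule.pow_one, Submodule.zero_eq_bot, eq_bot_iff]
  intro z hz
  rw [RingHom.mem_ker] at hz
  have h1 : z = 0 := h (by rw [hz, map_zero])
  rw [h1]
  exact Submodule.zero_mem _

theorem thm_NCO : St_NCO := by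
  refine ⟨?_, ?_, ?_, ?_⟩
  · rintro K Λ Λ' _ _ _ _ _ π hπ hnil ⟨r, d, a, b, r', d', ρ, hab, hs, hn⟩
    exact ⟨r, d, a, b, r', d', ρ.comp π, hab, hs.comp hπ, NCO_nil π ρ hnil hn⟩
  · rintro K Λ Λ' _ _ _ _ _ π hπ hnil ⟨n, d, E, iR, iA, ρ, hs, hn, hE⟩
    exact ⟨n, d, E, iR, iA, ρ.comp π, hs.comp hπ, NCO_nil π ρ hnil hn, hE⟩
  · rintro K Λ _ _ _ ⟨e⟩
    refine ⟨0, fun i => i.elim0, fun i => i.elim0, fun i => i.elim0, 1, fun _ => 1,
      AlgHom.prod (AlgHom.pi fun i => i.elim0)
        (AlgHom.pi fun _ => (Matrix.scalarAlgHom (Fin 1) K).comp (e : Λ →ₐ[K] K)),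
      fun i => i.elim0, ?_, ?_⟩
    · rintro ⟨m, m'⟩
      refine ⟨e.symm (m' 0 0 0), ?_⟩
      refine Prod.ext ?_ ?_
      · funext i
        exact i.elim0
      · funext i
        have hi : i = 0 := Subsingleton.elim _ _
        subst hi
        funext p q
        have hp : p = 0 := Subsingleton.elim (α := Fin 1) _ _
        have hq : q = 0 := Subsingleton.elim (α := Fin 1) _ _
        rw [hp, hq]
        change Matrix.scalar (Fin 1) (e (e.symm (m' 0 0 0))) 0 0 = m' 0 0 0
        rw [Matrix.scalar_apply, Matrix.diagonal_apply_eq, e.apply_symm_apply]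
    · refine NCO_ker1 _ ?_
      rw [injective_iff_map_eq_zero]
      intro z hz
      have h1 := congrFun (congrArg Prod.snd hz) 0
      have h2 : Matrix.scalar (Fin 1) (e z) 0 0 = (0 : K) := congrFun (congrFun h1 0) 0
      rw [Matrix.scalar_apply, Matrix.diagonal_apply_eq] at h2
      rw [← e.symm_apply_apply z, h2, map_zero]
  · rintro K Λ _ _ _ a b c d ha hb hc hd ⟨e⟩
    refine ⟨1, fun _ => 1, fun _ => BQ K a b c d, fun _ => inferInstance, fun _ => inferInstance,
      AlgHom.pi fun _ => (Matrix.scalarAlgHom (Fin 1) K).comp (e : Λ →ₐ[K] BQ K a b c d), ?_, ?_,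
      fun _ => Or.inr (Or.inr ⟨a, b, c, d, ha, hb, hc, hd, ⟨AlgEquiv.refl⟩⟩)⟩
    · intro m
      refine ⟨e.symm (m 0 0 0), ?_⟩
      funext i
      have hi : i = 0 := Subsingleton.elim _ _
      subst hi
      funext p q
      have hp : p = 0 := Subsingleton.elim (α := Fin 1) _ _
      have hq : q = 0 := Subsingleton.elim (α := Fin 1) _ _
      rw [hp, hq]
      change Matrix.scalar (Fin 1) (e (e.symm (m 0 0 0))) 0 0 = m 0 0 0
      rw [Matrix.scalar_apply, Matrix.diagonal_apply_eq, e.apply_symm_apply]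
    · refine NCO_ker1 _ ?_
      rw [injective_iff_map_eq_zero]
      intro z hz
      have h1 := congrFun hz 0
      have h2 : Matrix.scalar (Fin 1) (e z) 0 0 = (0 : BQ K a b c d) :=
        congrFun (congrFun h1 0) 0
      rw [Matrix.scalar_apply, Matrix.diagonal_apply_eq] at h2
      rw [← e.symm_apply_apply z, h2, map_zero]

end Pool.Agent.Q4
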