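import Pool.Agent.Q4.StA

/-! Q4 [NZD]: Albert's theorem, no zero divisors. -/

set_option autoImplicit false

namespace Pool.Agent.Q4

open Quaternion TensorProduct

section
variable {K : Type} [Field K] {a b c d : K}

/-- every nonzero pair has a right inverse in the commutative extension by a square root of `c` -/
private theorem NZD_rinv (h2 : (2 : K) ≠ 0) (hc : ∀ r : K, r ^ 2 ≠ c)
    (h3 : ∀ x y : ℍ[K,a,b], (x * star x).re + c * (y * star y).re = 0 → (x * star y).re = 0 →
      x = 0 ∧ y = 0) (x y : ℍ[K,a,b]) (hxy : ¬ (x = 0 ∧ y = 0)) :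
    ∃ x' y' : ℍ[K,a,b], x * x' + c • (y * y') = 1 ∧ x * y' + y * x' = 0 := by
  set r : K := (x * star x).re + c * (y * star y).re with hr
  set s : K := 2 * (x * star y).re with hs
  have hx : x * star x + c • (y * star y) = algebraMap K _ r := by
    rw [QuaternionAlgebra.mul_star_eq_coe x, QuaternionAlgebra.mul_star_eq_coe y, hr, map_add, map_mul,
      ← QuaternionAlgebra.coe_algebraMap, Algebra.smul_def]
  have hy : x * star y + y * star x = algebraMap K _ s := by
    have h := QuaternionAlgebra.self_add_star' (x * star y)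
    rw [star_mul, star_star] at h
    rw [h, hs, ← QuaternionAlgebra.coe_algebraMap]
    congr 1
    ring
  have hrs : ¬ (r = 0 ∧ s = 0) := by
    rintro ⟨h, h'⟩
    refine hxy (h3 x y h ?_)
    rw [hs] at h'
    exact (mul_eq_zero.1 h').resolve_left h2
  have ht : r ^ 2 - c * s ^ 2 ≠ 0 := by
    intro h
    by_cases h0 : s = 0
    · apply hrs
      refine ⟨?_, h0⟩
      rw [h0] at h
      have : r ^ 2 = 0 := by linear_combination h
      exact pow_eq_zero_iff (two_ne_zero) |>.1 this
    · apply hc (r / s)
      rw [div_pow, div_eq_iff (pow_ne_zero _ h0)]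
      linear_combination h
  set t : K := r ^ 2 - c * s ^ 2 with htdef
  refine ⟨t⁻¹ • (r • star x - (c * s) • star y), t⁻¹ • (r • star y - s • star x), ?_, ?_⟩
  · have e1 : x * (t⁻¹ • (r • star x - (c * s) • star y)) + c • (y * (t⁻¹ • (r • star y - s • star x))) =
        t⁻¹ • (r • (x * star x + c • (y * star y)) - (c * s) • (x * star y + y * star x)) := by
      simp only [mul_smul_comm, mul_sub, smul_sub, smul_add, smul_smul, mul_comm]
      module
    rw [e1, hx, hy, ← map_one (algebraMap K ℍ[K,a,b])]
    simp only [Algebra.smul_def, ← map_mul, ← map_sub]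
    congr 1
    have : r * r - c * s * s = t := by rw [htdef]; ring
    rw [this, inv_mul_cancel₀ ht]
  · have e1 : x * (t⁻¹ • (r • star y - s • star x)) + y * (t⁻¹ • (r • star x - (c * s) • star y)) =
        t⁻¹ • (r • (x * star y + y * star x) - s • (x * star x + c • (y * star y))) := by
      simp only [mul_smul_comm, mul_sub, smul_sub, smul_add, smul_smul]
      module
    rw [e1, hx, hy]
    simp only [Algebra.smul_def, ← map_mul, ← map_sub]
    have : r * s - s * r = 0 := by ring
    rw [this, mul_zero, map_zero]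

/-- the abstract argument -/
private theorem NZD_abs {D : Type} [Ring D] [Algebra K D] [Nontrivial D] (f : ℍ[K,a,b] →ₐ[K] D) (I J : D)
    (hI : I * I = algebraMap K D c) (hJ : J * J = algebraMap K D d) (hJI : J * I = -(I * J))
    (hfI : ∀ x, I * f x = f x * I) (hfJ : ∀ x, J * f x = f x * J)
    (hgen : ∀ z : D, ∃ x₀ x₁ x₂ x₃, z = (f x₀ + f x₁ * I) + (f x₂ + f x₃ * I) * J)
    (huni : ∀ x y, f x + f y * I = 0 → x = 0 ∧ y = 0)
    (h2 : (2 : K) ≠ 0) (hc : ∀ r : K, r ^ 2 ≠ c)
    (h3 : ∀ x y : ℍ[K,a,b], (x * star x).re + c * (y * star y).re = 0 → (x * star y).re = 0 →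
      x = 0 ∧ y = 0)
    (h4 : ∀ x y : ℍ[K,a,b], x * y = y * x → x * x - c • (y * y) ≠ algebraMap K _ d)
    (z w : D) (hzw : z * w = 0) : z = 0 ∨ w = 0 := by
  -- multiplication in the subring
  have hmul : ∀ x y x' y', (f x + f y * I) * (f x' + f y' * I) =
      f (x * x' + c • (y * y')) + f (x * y' + y * x') * I := by
    intro x y x' y'
    have e1 : f y * I * (f y' * I) = f y * f y' * algebraMap K D c := by
      calc f y * I * (f y' * I) = f y * (I * f y') * I := by noncomm_ring
        _ = f y * (f y' * I) * I := by rw [hfI]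
        _ = f y * f y' * (I * I) := by noncomm_ring
        _ = f y * f y' * algebraMap K D c := by rw [hI]
    have e2 : f y * I * f x' = f y * f x' * I := by
      rw [mul_assoc, hfI, ← mul_assoc]
    have e3 : f y * f y' * algebraMap K D c = f (c • (y * y')) := by
      rw [map_smul, map_mul, Algebra.smul_def, Algebra.commutes]
    rw [mul_add, add_mul, add_mul, e1, e2, e3]
    simp only [map_add, map_mul]
    noncomm_ring
  -- left inverses in the subring
  have hright : ∀ x y, f x + f y * I ≠ 0 → ∃ x' y', (f x + f y * I) * (f x' + f y' * I) = 1 := by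
    intro x y h
    have hxy : ¬ (x = 0 ∧ y = 0) := by
      rintro ⟨rfl, rfl⟩
      apply h
      rw [map_zero, zero_mul, add_zero]
    obtain ⟨x', y', h1, h5⟩ := NZD_rinv h2 hc h3 x y hxy
    refine ⟨x', y', ?_⟩
    rw [hmul, h1, h5, map_one, map_zero, zero_mul, add_zero]
  have hleft : ∀ x y, f x + f y * I ≠ 0 → ∃ x' y', (f x' + f y' * I) * (f x + f y * I) = 1 := by
    intro x y h
    obtain ⟨x', y', h1⟩ := hright x y h
    have h5 : f x' + f y' * I ≠ 0 := by
      intro h6
      rw [h6, mul_zero] at h1
      exact zero_ne_one h1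
    obtain ⟨x'', y'', h6⟩ := hright x' y' h5
    refine ⟨x', y', ?_⟩
    have h7 : f x + f y * I = f x'' + f y'' * I := by
      calc f x + f y * I = (f x + f y * I) * ((f x' + f y' * I) * (f x'' + f y'' * I)) := by
            rw [h6, mul_one]
        _ = ((f x + f y * I) * (f x' + f y' * I)) * (f x'' + f y'' * I) := by rw [mul_assoc]
        _ = f x'' + f y'' * I := by rw [h1, one_mul]
    rw [h7]
    exact h6
  -- left inverses
  have key : ∀ z : D, z ≠ 0 → ∃ v : D, v * z = 1 := by
    intro z hz
    obtain ⟨x₀, x₁, x₂, x₃, rfl⟩ := hgen z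
    by_cases hβ : f x₂ + f x₃ * I = 0
    · rw [hβ, zero_mul, add_zero] at hz ⊢
      obtain ⟨x', y', h⟩ := hleft _ _ hz
      exact ⟨_, h⟩
    · obtain ⟨u, v, huv⟩ := hleft _ _ hβ
      -- gamma
      have hγ := hmul u v x₀ x₁
      set x : ℍ[K,a,b] := u * x₀ + c • (v * x₁) with hx
      set y : ℍ[K,a,b] := u * x₁ + v * x₀ with hy
      have h5 : (f u + f v * I) * ((f x₀ + f x₁ * I) + (f x₂ + f x₃ * I) * J) = f x + f y * I + J := by
        rw [mul_add, hγ, ← mul_assoc, huv, one_mul]
      have hJγ : J * (f x + f y * I) = (f x - f y * I) * J := by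
        calc J * (f x + f y * I) = J * f x + (J * f y) * I := by noncomm_ring
          _ = f x * J + (f y * J) * I := by rw [hfJ, hfJ]
          _ = f x * J + f y * (J * I) := by noncomm_ring
          _ = f x * J + f y * (-(I * J)) := by rw [hJI]
          _ = (f x - f y * I) * J := by noncomm_ring
      have h6 : (f x - f y * I - J) * (f x + f y * I + J) =
          f (x * x - c • (y * y) - algebraMap K _ d) + f (x * y - y * x) * I := by
        have e0 : (f x - f y * I) = f x + f (-y) * I := by
          rw [map_neg]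
          noncomm_ring
        calc (f x - f y * I - J) * (f x + f y * I + J)
            = (f x - f y * I) * (f x + f y * I) + (f x - f y * I) * J - J * (f x + f y * I) - J * J := by
              noncomm_ring
          _ = (f x + f (-y) * I) * (f x + f y * I) - algebraMap K D d := by
              rw [hJγ, hJ, ← e0]
              noncomm_ring
          _ = f (x * x - c • (y * y) - algebraMap K _ d) + f (x * y - y * x) * I := by
              rw [hmul]
              have e1 : (x * x + c • (-y * y)) = x * x - c • (y * y) := by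
                rw [neg_mul, smul_neg, sub_eq_add_neg]
              have e2 : x * y + -y * x = x * y - y * x := by
                rw [neg_mul, sub_eq_add_neg]
              rw [e1, e2, map_sub f _ (algebraMap K _ d), AlgHom.commutes]
              noncomm_ring
      have h7 : f (x * x - c • (y * y) - algebraMap K _ d) + f (x * y - y * x) * I ≠ 0 := by
        intro h
        obtain ⟨h8, h9⟩ := huni _ _ h
        exact h4 x y (sub_eq_zero.1 h9) (sub_eq_zero.1 h8)
      obtain ⟨x', y', h8⟩ := hleft _ _ h7
      refine ⟨(f x' + f y' * I) * ((f x - f y * I - J) * (f u + f v * I)), ?_⟩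
      rw [mul_assoc, mul_assoc, h5, h6, h8]
  by_cases hz : z = 0
  · exact Or.inl hz
  · right
    obtain ⟨v, hv⟩ := key z hz
    calc w = (v * z) * w := by rw [hv, one_mul]
      _ = v * (z * w) := by rw [mul_assoc]
      _ = 0 := by rw [hzw, mul_zero]

end

theorem thm_NZD (h : St_NZa) : St_NZD := by
  intro K _ a b c d h2 hA
  obtain ⟨hc, _, h3, h4⟩ := h K a b c d h2 hA
  intro z w hzw
  set i : ℍ[K,c,d] := ⟨0, 1, 0, 0⟩ with hi
  set j : ℍ[K,c,d] := ⟨0, 0, 1, 0⟩ with hj
  have hii : i * i = algebraMap K _ c := by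
    rw [QuaternionAlgebra.algebraMap_eq]
    ext <;> simp [hi]
  have hjj : j * j = algebraMap K _ d := by
    rw [QuaternionAlgebra.algebraMap_eq]
    ext <;> simp [hj]
  have hji : j * i = -(i * j) := by
    ext <;> simp [hi, hj]
  have hq : ∀ q : ℍ[K,c,d], q = q.re • 1 + q.imI • i + q.imJ • j + q.imK • (i * j) := by
    intro q
    ext <;> simp [hi, hj]
  refine NZD_abs (K := K) (a := a) (b := b) (c := c) (d := d)
    (Algebra.TensorProduct.includeLeft : ℍ[K,a,b] →ₐ[K] BQ K a b c d) (1 ⊗ₜ i) (1 ⊗ₜ j)
    ?_ ?_ ?_ ?_ ?_ ?_ ?_ h2 hc h3 h4 z w hzw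
  · rw [Algebra.TensorProduct.tmul_mul_tmul, hii, one_mul, Algebra.TensorProduct.algebraMap_apply]
    rw [Algebra.algebraMap_eq_smul_one, Algebra.algebraMap_eq_smul_one, TensorProduct.smul_tmul]
  · rw [Algebra.TensorProduct.tmul_mul_tmul, hjj, one_mul, Algebra.TensorProduct.algebraMap_apply]
    rw [Algebra.algebraMap_eq_smul_one, Algebra.algebraMap_eq_smul_one, TensorProduct.smul_tmul]
  · rw [Algebra.TensorProduct.tmul_mul_tmul, Algebra.TensorProduct.tmul_mul_tmul, hji,
      TensorProduct.tmul_neg]
  · intro x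
    rw [Algebra.TensorProduct.includeLeft_apply, Algebra.TensorProduct.tmul_mul_tmul,
      Algebra.TensorProduct.tmul_mul_tmul, one_mul, one_mul, mul_one, mul_one]
  · intro x
    rw [Algebra.TensorProduct.includeLeft_apply, Algebra.TensorProduct.tmul_mul_tmul,
      Algebra.TensorProduct.tmul_mul_tmul, one_mul, one_mul, mul_one, mul_one]
  · intro z
    induction z using TensorProduct.induction_on with
    | zero =>
      refine ⟨0, 0, 0, 0, ?_⟩
      simp
    | tmul x q =>
      refine ⟨q.re • x, q.imI • x, q.imJ • x, q.imK • x, ?_⟩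
      simp only [Algebra.TensorProduct.includeLeft_apply, Algebra.TensorProduct.tmul_mul_tmul,
        mul_one, one_mul, add_mul]
      conv_lhs => rw [hq q]
      simp only [TensorProduct.tmul_add, TensorProduct.tmul_smul, TensorProduct.smul_tmul']
      abel
    | add z₁ z₂ h₁ h₂ =>
      obtain ⟨x₀, x₁, x₂, x₃, e⟩ := h₁
      obtain ⟨y₀, y₁, y₂, y₃, e'⟩ := h₂
      refine ⟨x₀ + y₀, x₁ + y₁, x₂ + y₂, x₃ + y₃, ?_⟩
      rw [e, e']
      simp only [map_add]
      noncomm_ring
  · intro x y hxy
    rw [Algebra.TensorProduct.includeLeft_apply, Algebra.TensorProduct.includeLeft_apply,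
      Algebra.TensorProduct.tmul_mul_tmul, mul_one, one_mul] at hxy
    constructor
    · have h1 := congrArg (fun t => TensorProduct.rid K ℍ[K,a,b]
        (LinearMap.lTensor ℍ[K,a,b] (QuaternionAlgebra.reₗ c 0 d) t)) hxy
      simpa [hi] using h1
    · have h1 := congrArg (fun t => TensorProduct.rid K ℍ[K,a,b]
        (LinearMap.lTensor ℍ[K,a,b] (QuaternionAlgebra.imIₗ c 0 d) t)) hxy
      simpa [hi] using h1

end Pool.Agent.Q4
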