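import Pool.Agent.Q4.StA

/-!
# Q4, module NZa: quaternion algebras with an anisotropic Albert form
-/

set_option autoImplicit false

namespace Pool.Agent.Q4

open Quaternion TensorProduct Function Polynomial

private theorem NZa_alb {K : Type} [Field K] (a b c d v0 v1 v2 v3 v4 v5 : K) :
    alb a b c d ![v0, v1, v2, v3, v4, v5] =
      a * v0 ^ 2 + b * v1 ^ 2 - a * b * v2 ^ 2 - c * v3 ^ 2 - d * v4 ^ 2 + c * d * v5 ^ 2 := by
  unfold alb albC
  simp only [Fin.sum_univ_succ, Fin.sum_univ_zero]
  simp [Fin.succ]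
  ring

private theorem NZa_key {K : Type} [Field K] {a b c d : K} (h : Anis a b c d)
    (v0 v1 v2 v3 v4 v5 : K)
    (h0 : a * v0 ^ 2 + b * v1 ^ 2 - a * b * v2 ^ 2 - c * v3 ^ 2 - d * v4 ^ 2 + c * d * v5 ^ 2 = 0) :
    v0 = 0 ∧ v3 = 0 ∧ v4 = 0 ∧ v5 = 0 ∧ v1 = 0 ∧ v2 = 0 := by
  have h1 := h ![v0, v1, v2, v3, v4, v5] (by rw [NZa_alb, h0])
  have h2 := fun i => congrFun h1 i
  exact ⟨h2 0, h2 3, h2 4, h2 5, h2 1, h2 2⟩

private theorem NZa_two {K : Type} [Field K] {a b : K} (ha : ∀ r : K, r ^ 2 ≠ a)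
    (hN : ∀ v0 v1 v2 : K, a * v0 ^ 2 + b * v1 ^ 2 - a * b * v2 ^ 2 = 0 → v0 = 0) (hb : b ≠ 0)
    (x0 x1 x2 x3 : K) (h : x0 ^ 2 - a * x1 ^ 2 - b * x2 ^ 2 + a * b * x3 ^ 2 = 0) :
    x0 = 0 ∧ x1 = 0 ∧ x2 = 0 ∧ x3 = 0 := by
  have hz : ∀ s t : K, s ^ 2 - a * t ^ 2 = 0 → s = 0 ∧ t = 0 := by
    intro s t hst
    have ht : t = 0 := by
      by_contra ht
      apply ha (s / t)
      rw [div_pow, div_eq_iff (pow_ne_zero 2 ht)]
      linear_combination hst
    subst ht
    have hs : s ^ 2 = 0 := by linear_combination hst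
    exact ⟨pow_eq_zero_iff (two_ne_zero) |>.1 hs, rfl⟩
  by_cases hN2 : x2 ^ 2 - a * x3 ^ 2 = 0
  · obtain ⟨h2, h3⟩ := hz x2 x3 hN2
    have h1 : x0 ^ 2 - a * x1 ^ 2 = 0 := by linear_combination h + b * hN2
    obtain ⟨h4, h5⟩ := hz x0 x1 h1
    exact ⟨h4, h5, h2, h3⟩
  · exfalso
    have h1 := hN (b * (x2 ^ 2 - a * x3 ^ 2)) (a * (x0 * x3 + x1 * x2)) (x0 * x2 + a * x1 * x3) (by
      linear_combination (-(a * b * (x2 ^ 2 - a * x3 ^ 2))) * h)
    exact (mul_ne_zero hb hN2) h1

theorem thm_NZa : St_NZa := by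
  intro K _ a b c d h2 hA
  have hc0 : c ≠ 0 := by
    intro h0
    have := (NZa_key hA 0 0 0 1 0 0 (by rw [h0]; ring)).2.1
    exact one_ne_zero this
  have ha0 : a ≠ 0 := by
    intro h0
    have := (NZa_key hA 1 0 0 0 0 0 (by rw [h0]; ring)).1
    exact one_ne_zero this
  have hb0 : b ≠ 0 := by
    intro h0
    have := (NZa_key hA 0 1 0 0 0 0 (by rw [h0]; ring)).2.2.2.2.1
    exact one_ne_zero this
  have hd0 : d ≠ 0 := by
    intro h0
    have := (NZa_key hA 0 0 0 0 1 0 (by rw [h0]; ring)).2.2.1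
    exact one_ne_zero this
  have hcs : ∀ r : K, r ^ 2 ≠ c := by
    intro r hr
    have := (NZa_key hA 0 0 0 0 r 1 (by rw [← hr]; ring)).2.2.2.1
    exact one_ne_zero this
  have has : ∀ r : K, r ^ 2 ≠ a := by
    intro r hr
    have := (NZa_key hA 0 r 1 0 0 0 (by rw [← hr]; ring)).2.2.2.2.2
    exact one_ne_zero this
  have hN3 : ∀ v0 v1 v2 : K, a * v0 ^ 2 + b * v1 ^ 2 - a * b * v2 ^ 2 = 0 → v0 = 0 := by
    intro v0 v1 v2 h
    exact (NZa_key hA v0 v1 v2 0 0 0 (by linear_combination h)).1
  have hN : ∀ x : ℍ[K,a,b], x.re ^ 2 - a * x.imI ^ 2 - b * x.imJ ^ 2 + a * b * x.imK ^ 2 = 0 →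
      x = 0 := by
    intro x hx
    obtain ⟨h0, h1, h3, h4⟩ := NZa_two has hN3 hb0 _ _ _ _ hx
    exact QuaternionAlgebra.ext h0 h1 h3 h4
  refine ⟨hcs, hN, ?_, ?_⟩
  · rintro ⟨x0, x1, x2, x3⟩ ⟨y0, y1, y2, y3⟩ h1 h3
    simp only [QuaternionAlgebra.re_mul, QuaternionAlgebra.re_star, QuaternionAlgebra.imI_star,
      QuaternionAlgebra.imJ_star, QuaternionAlgebra.imK_star] at h1 h3
    by_cases hy : (⟨y0, y1, y2, y3⟩ : ℍ[K,a,b]) = 0
    · refine ⟨hN _ ?_, hy⟩
      have e0 : y0 = 0 := congrArg QuaternionAlgebra.re hy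
      have e1 : y1 = 0 := congrArg QuaternionAlgebra.imI hy
      have e2 : y2 = 0 := congrArg QuaternionAlgebra.imJ hy
      have e3 : y3 = 0 := congrArg QuaternionAlgebra.imK hy
      subst e0 e1 e2 e3
      simp only
      linear_combination h1
    · exfalso
      apply hy
      apply hN
      simp only
      have h5 := (NZa_key hA (x0 * -y1 + x1 * y0 + b * (x2 * y3 - x3 * y2))
        (x0 * -y2 + x2 * y0 - a * (x1 * y3 - x3 * y1))
        (x0 * -y3 + x3 * y0 - (x1 * y2 - x2 * y1))
        (y0 ^ 2 - a * y1 ^ 2 - b * y2 ^ 2 + a * b * y3 ^ 2) 0 0 ?_).2.1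
      · exact h5
      · linear_combination (-(y0 ^ 2 - a * y1 ^ 2 - b * y2 ^ 2 + a * b * y3 ^ 2)) * h1 +
          (x0 * y0 - a * x1 * y1 - b * x2 * y2 + a * b * x3 * y3) * h3
  · rintro ⟨x0, x1, x2, x3⟩ ⟨y0, y1, y2, y3⟩ h1 h3
    have c1 := congrArg QuaternionAlgebra.imI h1
    have c2 := congrArg QuaternionAlgebra.imJ h1
    have c3 := congrArg QuaternionAlgebra.imK h1
    have d0 := congrArg QuaternionAlgebra.re h3
    have d1 := congrArg QuaternionAlgebra.imI h3
    have d2 := congrArg QuaternionAlgebra.imJ h3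
    have d3 := congrArg QuaternionAlgebra.imK h3
    simp only [QuaternionAlgebra.re_mul, QuaternionAlgebra.imI_mul, QuaternionAlgebra.imJ_mul,
      QuaternionAlgebra.imK_mul, QuaternionAlgebra.re_sub, QuaternionAlgebra.imI_sub,
      QuaternionAlgebra.imJ_sub, QuaternionAlgebra.imK_sub, QuaternionAlgebra.re_smul,
      QuaternionAlgebra.imI_smul, QuaternionAlgebra.imJ_smul, QuaternionAlgebra.imK_smul,
      QuaternionAlgebra.coe_algebraMap, QuaternionAlgebra.re_coe, QuaternionAlgebra.imI_coe,
      QuaternionAlgebra.imJ_coe, QuaternionAlgebra.imK_coe, smul_eq_mul] at c1 c2 c3 d0 d1 d2 d3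
    have k1 : x2 * y3 = x3 * y2 := by
      have : 2 * b * (x2 * y3 - x3 * y2) = 0 := by
        first
          | linear_combination c1
          | linear_combination -c1
      have := (mul_eq_zero.1 this).resolve_left (mul_ne_zero h2 hb0)
      linear_combination this
    have k2 : x1 * y3 = x3 * y1 := by
      have : 2 * a * (x1 * y3 - x3 * y1) = 0 := by
        linear_combination c2
      have := (mul_eq_zero.1 this).resolve_left (mul_ne_zero h2 ha0)
      linear_combination this
    have k3 : x1 * y2 = x2 * y1 := by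
      have : 2 * (x1 * y2 - x2 * y1) = 0 := by
        linear_combination c3
      have := (mul_eq_zero.1 this).resolve_left h2
      linear_combination this
    have m1 : x0 * x1 = c * y0 * y1 := by
      have : 2 * (x0 * x1 - c * y0 * y1) = 0 := by linear_combination d1
      have := (mul_eq_zero.1 this).resolve_left h2
      linear_combination this
    have m2 : x0 * x2 = c * y0 * y2 := by
      have : 2 * (x0 * x2 - c * y0 * y2) = 0 := by linear_combination d2
      have := (mul_eq_zero.1 this).resolve_left h2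
      linear_combination this
    have m3 : x0 * x3 = c * y0 * y3 := by
      have : 2 * (x0 * x3 - c * y0 * y3) = 0 := by linear_combination d3
      have := (mul_eq_zero.1 this).resolve_left h2
      linear_combination this
    have m0 : x0 ^ 2 + a * x1 ^ 2 + b * x2 ^ 2 - a * b * x3 ^ 2 -
        c * (y0 ^ 2 + a * y1 ^ 2 + b * y2 ^ 2 - a * b * y3 ^ 2) = d := by linear_combination d0
    -- the case of proportional pure parts
    have hprop : ∀ s : K, x1 = s * y1 → x2 = s * y2 → x3 = s * y3 →
        (y1 ≠ 0 ∨ y2 ≠ 0 ∨ y3 ≠ 0) → False := by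
      intro s s1 s2 s3 hy
      have hrs : x0 * s = c * y0 := by
        rcases hy with hy | hy | hy
        · apply mul_right_cancel₀ hy
          rw [s1] at m1
          linear_combination m1
        · apply mul_right_cancel₀ hy
          rw [s2] at m2
          linear_combination m2
        · apply mul_right_cancel₀ hy
          rw [s3] at m3
          linear_combination m3
      subst s1 s2 s3
      have h5 := (NZa_key hA ((s ^ 2 - c) * y1) ((s ^ 2 - c) * y2) ((s ^ 2 - c) * y3)
        (y0 * s - x0) s 1 ?_).2.2.2.1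
      · exact one_ne_zero h5
      · linear_combination (s ^ 2 - c) * m0 + (-(x0 * s - c * y0)) * hrs
    by_cases y1z : y1 = 0
    · by_cases y2z : y2 = 0
      · by_cases y3z : y3 = 0
        · subst y1z y2z y3z
          have hx0 : (x1 ≠ 0 ∨ x2 ≠ 0 ∨ x3 ≠ 0) → False := by
            intro hx
            have hx0 : x0 = 0 := by
              rcases hx with hx | hx | hx
              · apply mul_right_cancel₀ hx
                linear_combination m1
              · apply mul_right_cancel₀ hx
                linear_combination m2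
              · apply mul_right_cancel₀ hx
                linear_combination m3
            subst hx0
            have h5 := (NZa_key hA x1 x2 x3 y0 1 0 ?_).2.2.1
            · exact one_ne_zero h5
            · linear_combination m0
          have hx1 : x1 = 0 := by
            by_contra h
            exact hx0 (Or.inl h)
          have hx2 : x2 = 0 := by
            by_contra h
            exact hx0 (Or.inr (Or.inl h))
          have hx3 : x3 = 0 := by
            by_contra h
            exact hx0 (Or.inr (Or.inr h))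
          subst hx1 hx2 hx3
          have h5 := (NZa_key hA 0 0 0 d (c * y0) x0 ?_).2.1
          · exact hd0 h5
          · linear_combination (c * d) * m0
        · exact hprop (x3 / y3) (by rw [div_mul_eq_mul_div, eq_div_iff y3z]; linear_combination k2)
            (by rw [div_mul_eq_mul_div, eq_div_iff y3z]; linear_combination k1)
            (by rw [div_mul_cancel₀ _ y3z]) (Or.inr (Or.inr y3z))
      · exact hprop (x2 / y2) (by rw [div_mul_eq_mul_div, eq_div_iff y2z]; linear_combination k3)
          (by rw [div_mul_cancel₀ _ y2z])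
          (by rw [div_mul_eq_mul_div, eq_div_iff y2z]; linear_combination -k1)
          (Or.inr (Or.inl y2z))
    · exact hprop (x1 / y1) (by rw [div_mul_cancel₀ _ y1z])
        (by rw [div_mul_eq_mul_div, eq_div_iff y1z]; linear_combination -k3)
        (by rw [div_mul_eq_mul_div, eq_div_iff y1z]; linear_combination -k2)
        (Or.inl y1z)

end Pool.Agent.Q4
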