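import Pool.Agent.Q4.StF
import Pool.Agent.TQF.NOrd0

/-!
# Q4, module ORL: orders in finite extension fields
-/

set_option autoImplicit false

namespace Pool.Agent.Q4

open Function

theorem thm_ORL : St_ORL := by
  intro A K _ _ _ _ _ _ L _ _ _ _ _
  have hN : IsNoetherianRing A := Algebra.FiniteType.isNoetherianRing ℤ A
  obtain ⟨Δ, hfg, hΔ⟩ := Pool.Agent.TQF.thm_Ord0 A K L
  have hinjL : Injective (algebraMap A L) := by
    rw [IsScalarTower.algebraMap_eq A K L]
    exact (algebraMap K L).injective.comp (IsFractionRing.injective A K)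
  have hfin : Module.Finite A Δ := Module.Finite.iff_fg.2 hfg
  have hinj : Injective (algebraMap A Δ) := by
    intro a b hab
    apply hinjL
    exact congrArg Subtype.val hab
  have hfr : IsFractionRing Δ L := by
    refine IsFractionRing.of_field Δ L fun z => ?_
    obtain ⟨r, hr, hrz⟩ := hΔ z
    refine ⟨⟨r • z, hrz⟩, algebraMap A Δ r, ?_⟩
    have h1 : algebraMap A L r ≠ 0 := fun h => hr (hinjL (h.trans (map_zero _).symm))
    show z = (r • z) / algebraMap A L r
    rw [Algebra.smul_def, mul_div_cancel_left₀ z h1]
  have hft : Algebra.FiniteType ℤ Δ := by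
    have h2 : Algebra.FiniteType A Δ := inferInstance
    exact Algebra.FiniteType.trans (inferInstance : Algebra.FiniteType ℤ A) h2
  exact ⟨Δ, inferInstance, inferInstance, inferInstance, inferInstance, hfin, hinj,
    inferInstance, hfr, hft⟩

end Pool.Agent.Q4
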