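import Pool.Agent.Q4.StA2

set_option autoImplicit false

namespace Pool.Agent.Q4

open Function

section PS1
variable {K D : Type} [Field K] [Ring D] [Algebra K D]

theorem PS1_rel {q : Fin 3 → K} {f : K} {W P : Fin 3 → D} (hf : f ≠ 0)
    (hA : R3 K D (fun i => f * q i) W P) :
    (f⁻¹ • (W 0 * P 1)) * (f⁻¹ • (W 0 * P 1)) = -((q 0 * q 1) • (1 : D)) ∧
    (f⁻¹ • (W 1 * P 2)) * (f⁻¹ • (W 1 * P 2)) = -((q 1 * q 2) • (1 : D)) ∧
    (f⁻¹ • (W 0 * P 1)) * (f⁻¹ • (W 1 * P 2)) = q 1 • (f⁻¹ • (W 0 * P 2)) ∧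
    (f⁻¹ • (W 1 * P 2)) * (f⁻¹ • (W 0 * P 1))
      = -((f⁻¹ • (W 0 * P 1)) * (f⁻¹ • (W 1 * P 2))) := by
  have p10 : P 1 * W 0 = -(P 0 * W 1) := hA.pw 1 0 (by decide)
  have p21 : P 2 * W 1 = -(P 1 * W 2) := hA.pw 2 1 (by decide)
  have p20 : P 2 * W 0 = -(P 0 * W 2) := hA.pw 2 0 (by decide)
  have w10 : W 1 * P 0 = -(W 0 * P 1) := hA.wp 1 0 (by decide)
  have w21 : W 2 * P 1 = -(W 1 * P 2) := hA.wp 2 1 (by decide)
  have d0 : W 0 * P 0 = (f * q 0) • (1 : D) := by
    rw [hA.wpd 0, Algebra.algebraMap_eq_smul_one]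
  have d1 : W 1 * P 1 = (f * q 1) • (1 : D) := by
    rw [hA.wpd 1, Algebra.algebraMap_eq_smul_one]
  have d2 : W 2 * P 2 = (f * q 2) • (1 : D) := by
    rw [hA.wpd 2, Algebra.algebraMap_eq_smul_one]
  have e1 : (f⁻¹ * f⁻¹) * (f * q 0 * (f * q 1)) = q 0 * q 1 := by field_simp
  have e2 : (f⁻¹ * f⁻¹) * (f * q 1 * (f * q 2)) = q 1 * q 2 := by field_simp
  have e3 : (f⁻¹ * f⁻¹) * (f * q 1) = q 1 * f⁻¹ := by field_simp
  refine ⟨?_, ?_, ?_, ?_⟩
  · rw [smul_mul_smul_comm]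
    have : W 0 * P 1 * (W 0 * P 1) = -((f * q 0 * (f * q 1)) • (1 : D)) := by
      calc W 0 * P 1 * (W 0 * P 1) = W 0 * (P 1 * W 0) * P 1 := by noncomm_ring
        _ = -((W 0 * P 0) * (W 1 * P 1)) := by rw [p10]; noncomm_ring
        _ = _ := by rw [d0, d1, smul_mul_smul_comm, one_mul]
    rw [this, smul_neg, smul_smul, e1]
  · rw [smul_mul_smul_comm]
    have : W 1 * P 2 * (W 1 * P 2) = -((f * q 1 * (f * q 2)) • (1 : D)) := by
      calc W 1 * P 2 * (W 1 * P 2) = W 1 * (P 2 * W 1) * P 2 := by noncomm_ring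
        _ = -((W 1 * P 1) * (W 2 * P 2)) := by rw [p21]; noncomm_ring
        _ = _ := by rw [d1, d2, smul_mul_smul_comm, one_mul]
    rw [this, smul_neg, smul_smul, e2]
  · rw [smul_mul_smul_comm]
    have p11 : P 1 * W 1 = (f * q 1) • (1 : D) := by
      rw [hA.pwd 1, Algebra.algebraMap_eq_smul_one]
    have : W 0 * P 1 * (W 1 * P 2) = (f * q 1) • (W 0 * P 2) := by
      calc W 0 * P 1 * (W 1 * P 2) = W 0 * (P 1 * W 1) * P 2 := by noncomm_ring
        _ = _ := by rw [p11, mul_smul_comm, mul_one, smul_mul_assoc]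
    rw [this, smul_smul, smul_smul, e3]
  · rw [smul_mul_smul_comm, smul_mul_smul_comm, ← smul_neg]
    congr 1
    calc W 1 * P 2 * (W 0 * P 1) = W 1 * (P 2 * W 0) * P 1 := by noncomm_ring
      _ = -((W 1 * P 0) * (W 2 * P 1)) := by rw [p20]; noncomm_ring
      _ = _ := by rw [w10, w21]; noncomm_ring

/-- averaging for two anticommuting elements -/
theorem PS1_avg [NoZeroDivisors D] [Nontrivial D] {r s : K} {u v u' v' : D} (hr : r ≠ 0)
    (hs : s ≠ 0) (uu : u * u = -(r • (1 : D))) (vv : v * v = -(s • (1 : D)))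
    (uv : v * u = -(u * v)) (uu' : u' * u' = -(r • (1 : D))) (vv' : v' * v' = -(s • (1 : D)))
    (uv' : v' * u' = -(u' * v')) : ∃ g : D, g ≠ 0 ∧ u' * g = g * u ∧ v' * g = g * v := by
  have hu0 : u ≠ 0 := by
    intro h
    rw [h, mul_zero] at uu
    exact smul_ne_zero hr one_ne_zero (neg_eq_zero.mp uu.symm)
  have hv0 : v ≠ 0 := by
    intro h
    rw [h, mul_zero] at vv
    exact smul_ne_zero hs one_ne_zero (neg_eq_zero.mp vv.symm)
  have h1 : ∃ y : D, y ≠ 0 ∧ u' * y = y * u := by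
    by_cases h : u' * u - r • (1 : D) = 0
    · refine ⟨v, hv0, ?_⟩
      have h2 : (u' + u) * u = 0 := by
        rw [add_mul, uu, ← sub_eq_add_neg, h]
      rcases mul_eq_zero.mp h2 with h3 | h3
      · rw [eq_neg_of_add_eq_zero_left h3, uv, neg_mul]
      · exact absurd h3 hu0
    · refine ⟨_, h, ?_⟩
      calc u' * (u' * u - r • (1 : D)) = (u' * u') * u - r • u' := by
            rw [mul_sub, mul_smul_comm, mul_one, mul_assoc]
        _ = u' * (u * u) - r • u := by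
            rw [uu, uu', neg_mul, smul_mul_assoc, one_mul, mul_neg, mul_smul_comm, mul_one]
            abel
        _ = _ := by rw [sub_mul, smul_mul_assoc, one_mul, mul_assoc]
  obtain ⟨y, hy0, hy⟩ := h1
  by_cases h : v' * y * v - s • y = 0
  · refine ⟨y * u, mul_ne_zero hy0 hu0, ?_, ?_⟩
    · rw [← mul_assoc, hy]
    · have h2 : (v' * y + y * v) * v = 0 := by
        rw [add_mul, mul_assoc y v v, vv, mul_neg, mul_smul_comm, mul_one, ← sub_eq_add_neg, h]
      rcases mul_eq_zero.mp h2 with h3 | h3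
      · rw [← mul_assoc, eq_neg_of_add_eq_zero_left h3, neg_mul, mul_assoc, uv, mul_neg, neg_neg,
          mul_assoc]
      · exact absurd h3 hv0
  · refine ⟨_, h, ?_, ?_⟩
    · calc u' * (v' * y * v - s • y) = (u' * v') * y * v - s • (u' * y) := by
            rw [mul_sub, mul_smul_comm]
            noncomm_ring
        _ = -(v' * (u' * y) * v) - s • (u' * y) := by
            rw [← neg_neg (u' * v'), ← uv']
            noncomm_ring
        _ = -(v' * y * (u * v)) - s • (y * u) := by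
            rw [hy]
            noncomm_ring
        _ = v' * y * (v * u) - s • (y * u) := by
            rw [uv]
            noncomm_ring
        _ = _ := by
            rw [sub_mul, smul_mul_assoc]
            noncomm_ring
    · calc v' * (v' * y * v - s • y) = (v' * v') * (y * v) - s • (v' * y) := by
            rw [mul_sub, mul_smul_comm]
            noncomm_ring
        _ = (v' * y) * (v * v) - s • (y * v) := by
            rw [vv, vv', neg_mul, smul_mul_assoc, one_mul, mul_neg, mul_smul_comm, mul_one]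
            abel
        _ = _ := by
            rw [sub_mul, smul_mul_assoc]
            noncomm_ring

end PS1

theorem thm_PS1 : St_PS1 := by
  intro K D _ _ _ _ _ q f W P W' P' hq hf hA hA'
  have hA1 : R3 K D (fun i => 1 * q i) W P := by simpa only [one_mul] using hA
  obtain ⟨a1, a2, a3, a4⟩ := PS1_rel one_ne_zero hA1
  simp only [inv_one, one_smul] at a1 a2 a3 a4
  obtain ⟨b1, b2, b3, b4⟩ := PS1_rel hf hA'
  obtain ⟨g, hg, g1, g2⟩ := PS1_avg (mul_ne_zero (hq 0) (hq 1)) (mul_ne_zero (hq 1) (hq 2))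
    a1 a2 a4 b1 b2 b4
  have k1 : W' 0 * P' 1 * g = f • (g * (W 0 * P 1)) := by
    rw [← g1, smul_mul_assoc, smul_smul, mul_inv_cancel₀ hf, one_smul]
  have k2 : W' 1 * P' 2 * g = f • (g * (W 1 * P 2)) := by
    rw [← g2, smul_mul_assoc, smul_smul, mul_inv_cancel₀ hf, one_smul]
  have k3 : W' 0 * P' 2 * g = f • (g * (W 0 * P 2)) := by
    have h1 : (f⁻¹ • (W' 0 * P' 1)) * (f⁻¹ • (W' 1 * P' 2)) * g
        = g * ((W 0 * P 1) * (W 1 * P 2)) := by
      calc (f⁻¹ • (W' 0 * P' 1)) * (f⁻¹ • (W' 1 * P' 2)) * g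
          = (f⁻¹ • (W' 0 * P' 1)) * ((f⁻¹ • (W' 1 * P' 2)) * g) := by rw [mul_assoc]
        _ = ((f⁻¹ • (W' 0 * P' 1)) * g) * (W 1 * P 2) := by rw [g2, mul_assoc]
        _ = _ := by rw [g1, mul_assoc]
    rw [a3, b3] at h1
    have h2 : q 1 • (f⁻¹ • (W' 0 * P' 2 * g)) = q 1 • (g * (W 0 * P 2)) := by
      rw [← smul_mul_assoc, ← smul_mul_assoc, h1, mul_smul_comm]
    have h3 : f⁻¹ • (W' 0 * P' 2 * g) = g * (W 0 * P 2) := smul_right_injective D (hq 1) h2
    rw [← h3, smul_smul, mul_inv_cancel₀ hf, one_smul]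
  have kd : ∀ i, W' i * P' i * g = f • (g * (W i * P i)) := by
    intro i
    rw [hA'.wpd i, hA.wpd i, ← Algebra.commutes (q i) g, ← Algebra.smul_def, ← Algebra.smul_def,
      smul_smul]
  have kn : ∀ i j, i ≠ j → W' i * P' j * g = f • (g * (W i * P j)) →
      W' j * P' i * g = f • (g * (W j * P i)) := by
    intro i j hij h
    rw [hA'.wp j i hij.symm, hA.wp j i hij.symm, neg_mul, h, mul_neg, smul_neg]
  refine ⟨g, hg, ?_⟩
  intro i j
  fin_cases i <;> fin_cases j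
  · exact kd 0
  · exact k1
  · exact k3
  · exact kn 0 1 (by decide) k1
  · exact kd 1
  · exact k2
  · exact kn 0 2 (by decide) k3
  · exact kn 1 2 (by decide) k2
  · exact kd 2

end Pool.Agent.Q4
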