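import Pool.Agent.Q4.StA2

/-!
# Q4, module PS2: the norm identity for similitudes of three-dimensional subspaces

Statement and proof: see `St_PS2` in `Pool/Agent/Q4/StA2.lean`.
-/

set_option autoImplicit false

namespace Pool.Agent.Q4

open Quaternion TensorProduct Function

theorem PS2_norm_sigma (hLR : St_LR) {K D : Type} [Field K] [Ring D] [Algebra K D] [Nontrivial D]
    [NoZeroDivisors D] [FiniteDimensional K D] (σ : D →ₗ[K] D)
    (h1 : ∀ x y, σ (x * y) = σ y * σ x) (h2 : ∀ x, σ (σ x) = x) (x : D) :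
    Algebra.norm K (σ x) = Algebra.norm K x := by
  let e : D ≃ₗ[K] D := LinearEquiv.ofInvolutive σ h2
  have h3 : Algebra.lmul K D (σ x) = (e : D →ₗ[K] D) ∘ₗ LinearMap.mulRight K x ∘ₗ
      (e.symm : D →ₗ[K] D) := by
    refine LinearMap.ext fun y => ?_
    show σ x * y = σ (σ y * x)
    rw [h1, h2]
  rw [Algebra.norm_apply, Algebra.norm_apply, h3, LinearMap.det_conj, hLR K D x]
  rfl

/-- an antisymmetric scalar is zero -/
theorem PS2_anti {K D : Type} [Field K] [Ring D] [Algebra K D] [Nontrivial D]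
    (h2 : (2 : K) ≠ 0) (τ : D →ₗ[K] D) (h1 : τ 1 = 1) (r : D)
    (hr : ∃ c : K, r = algebraMap K D c) (hτ : τ r = -r) : r = 0 := by
  obtain ⟨c, rfl⟩ := hr
  have e1 : τ (algebraMap K D c) = algebraMap K D c := by
    rw [Algebra.algebraMap_eq_smul_one, map_smul, h1]
  rw [e1] at hτ
  have e2 : algebraMap K D (2 * c) = 0 := by
    rw [two_mul, map_add]
    exact eq_neg_iff_add_eq_zero.mp hτ
  have e3 : (2 : K) * c = 0 := (algebraMap K D).injective (e2.trans (map_zero _).symm)
  rw [(mul_eq_zero.mp e3).resolve_left h2, map_zero]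

/-- symmetric elements of the centraliser commute with `x` -/
theorem PS2_comm {K D : Type} [Field K] [Ring D] [Algebra K D] [Nontrivial D] [NoZeroDivisors D]
    (h2 : (2 : K) ≠ 0) (τ : D →ₗ[K] D) (hτ1 : τ 1 = 1) (hτm : ∀ x y, τ (x * y) = τ y * τ x)
    (C : Subalgebra K D) (x y z : D) (hx : x ∈ C) (hy : y ∈ C) (hz : z ∈ C) (s t : K)
    (hs : s ≠ 0) (ht : t ≠ 0) (hxx : x * x = algebraMap K D s) (hyy : y * y = algebraMap K D t)
    (hxy : x * y = -(y * x)) (hτx : τ x = -x) (hτy : τ y = -y) (hτz : τ z = z)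
    (hC : ∀ w ∈ C, w * x = x * w → w * y = y * w → ∃ c : K, w = algebraMap K D c) :
    z * x = x * z := by
  obtain ⟨δ, hδ⟩ : ∃ δ, δ = z * x - x * z := ⟨_, rfl⟩
  have hδC : δ ∈ C := by
    rw [hδ]
    exact C.sub_mem (C.mul_mem hz hx) (C.mul_mem hx hz)
  have hδτ : τ δ = δ := by
    rw [hδ, map_sub, hτm, hτm, hτx, hτz]
    noncomm_ring
  have hδx : δ * x = -(x * δ) := by
    have e1 : z * (x * x) = x * x * z := by
      rw [hxx]
      exact (Algebra.commutes s z).symm
    have e2 : δ * x + x * δ = z * (x * x) - x * x * z := by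
      rw [hδ]
      noncomm_ring
    rw [e1, sub_self] at e2
    exact eq_neg_of_add_eq_zero_left e2
  have hx0 : x ≠ 0 := by
    intro h0
    rw [h0, zero_mul] at hxx
    exact hs ((algebraMap K D).injective (hxx.symm.trans (map_zero _).symm))
  have hy0 : y ≠ 0 := by
    intro h0
    rw [h0, zero_mul] at hyy
    exact ht ((algebraMap K D).injective (hyy.symm.trans (map_zero _).symm))
  -- the part commuting with `y`
  have hp : δ * y + y * δ = 0 := by
    apply PS2_anti h2 τ hτ1
    · apply hC _ (C.add_mem (C.mul_mem hδC hy) (C.mul_mem hy hδC))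
      · have e1 : δ * y * x = x * (δ * y) := by
          rw [mul_assoc, (neg_eq_iff_eq_neg.mpr hxy).symm, mul_neg, ← mul_assoc, hδx]
          noncomm_ring
        have e2 : y * δ * x = x * (y * δ) := by
          rw [mul_assoc, hδx, mul_neg, ← mul_assoc, (neg_eq_iff_eq_neg.mpr hxy).symm]
          noncomm_ring
        rw [add_mul, mul_add, e1, e2]
      · have e1 : δ * (y * y) = y * y * δ := by
          rw [hyy]
          exact (Algebra.commutes t δ).symm
        have e2 : (δ * y + y * δ) * y - y * (δ * y + y * δ) = δ * (y * y) - y * y * δ := by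
          noncomm_ring
        rw [e1, sub_self] at e2
        exact sub_eq_zero.mp e2
    · rw [map_add, hτm, hτm, hτy, hδτ]
      noncomm_ring
  have hδy : δ * y = -(y * δ) := eq_neg_of_add_eq_zero_left hp
  -- the part anticommuting with `y`
  have hr : δ * (x * y) = 0 := by
    apply PS2_anti h2 τ hτ1
    · apply hC _ (C.mul_mem hδC (C.mul_mem hx hy))
      · have e1 : δ * (x * y) * x = δ * x * (y * x) := by noncomm_ring
        rw [e1, (neg_eq_iff_eq_neg.mpr hxy).symm, hδx]
        noncomm_ring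
      · have e1 : y * (δ * (x * y)) = y * δ * (x * y) := by noncomm_ring
        rw [e1, (neg_eq_iff_eq_neg.mpr hδy).symm]
        have e2 : -(δ * y) * (x * y) = -(δ * (y * x) * y) := by noncomm_ring
        rw [e2, (neg_eq_iff_eq_neg.mpr hxy).symm]
        noncomm_ring
    · rw [hτm, hτm, hτx, hτy, hδτ]
      have e1 : -y * -x * δ = y * (x * δ) := by noncomm_ring
      rw [e1, (neg_eq_iff_eq_neg.mpr hδx).symm]
      have e2 : y * -(δ * x) = -(y * δ * x) := by noncomm_ring
      rw [e2, (neg_eq_iff_eq_neg.mpr hδy).symm]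
      have e3 : -(-(δ * y) * x) = δ * (y * x) := by noncomm_ring
      rw [e3, (neg_eq_iff_eq_neg.mpr hxy).symm, mul_neg]
  have hδ0 : δ = 0 := (mul_eq_zero.mp hr).resolve_right (mul_ne_zero hx0 hy0)
  rw [hδ] at hδ0
  exact sub_eq_zero.mp hδ0

/-- symmetric elements which commute with the first two of five generators -/
theorem PS2_core {K D : Type} [Field K] [Ring D] [Algebra K D] [Nontrivial D] [NoZeroDivisors D]
    (h2 : (2 : K) ≠ 0) (τ : D →ₗ[K] D) (hτ1 : τ 1 = 1) (hτm : ∀ x y, τ (x * y) = τ y * τ x)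
    (a : Fin 5 → D) (α : Fin 5 → K) (hα : ∀ i, α i ≠ 0)
    (haa : ∀ i, a i * a i = algebraMap K D (α i)) (hac : ∀ i j, i ≠ j → a i * a j = -(a j * a i))
    (hτa : ∀ i, τ (a i) = a i)
    (hcen : ∀ z, (∀ i, Commute z (a i)) → ∃ c : K, z = algebraMap K D c)
    (z : D) (hz0 : Commute z (a 0)) (hz1 : Commute z (a 1)) (hτz : τ z = z) :
    ∃ c : K, z = algebraMap K D c := by
  have ha0 : ∀ i, a i ≠ 0 := by
    intro i h0
    have e1 := haa i
    rw [h0, zero_mul] at e1
    exact hα i ((algebraMap K D).injective (e1.symm.trans (map_zero _).symm))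
  have sc : ∀ i j, i ≠ j → SemiconjBy (a i) (a j) (-(a j)) := by
    intro i j hij
    show a i * a j = -(a j) * a i
    rw [hac i j hij, neg_mul]
  have sc' : ∀ i, SemiconjBy (a i) (a i) (a i) := fun i => rfl
  -- the product of the five generators
  have hm : ∀ i, Commute (a 0 * a 1 * a 2 * a 3 * a 4) (a i) := by
    intro i
    apply Commute.symm
    fin_cases i
    · have e1 := ((((sc' 0).mul_right (sc 0 1 (by decide))).mul_right
        (sc 0 2 (by decide))).mul_right (sc 0 3 (by decide))).mul_right (sc 0 4 (by decide))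
      simp only [neg_mul, mul_neg, neg_neg] at e1
      exact e1
    · have e1 := ((((sc 1 0 (by decide)).mul_right (sc' 1)).mul_right
        (sc 1 2 (by decide))).mul_right (sc 1 3 (by decide))).mul_right (sc 1 4 (by decide))
      simp only [neg_mul, mul_neg, neg_neg] at e1
      exact e1
    · have e1 := ((((sc 2 0 (by decide)).mul_right (sc 2 1 (by decide))).mul_right
        (sc' 2)).mul_right (sc 2 3 (by decide))).mul_right (sc 2 4 (by decide))
      simp only [neg_mul, mul_neg, neg_neg] at e1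
      exact e1
    · have e1 := ((((sc 3 0 (by decide)).mul_right (sc 3 1 (by decide))).mul_right
        (sc 3 2 (by decide))).mul_right (sc' 3)).mul_right (sc 3 4 (by decide))
      simp only [neg_mul, mul_neg, neg_neg] at e1
      exact e1
    · have e1 := ((((sc 4 0 (by decide)).mul_right (sc 4 1 (by decide))).mul_right
        (sc 4 2 (by decide))).mul_right (sc 4 3 (by decide))).mul_right (sc' 4)
      simp only [neg_mul, mul_neg, neg_neg] at e1
      exact e1
  obtain ⟨κ, hκ⟩ := hcen _ hm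
  -- cancellation
  have cl : ∀ w x y : D, x ≠ 0 → Commute w (x * y) → Commute w x → Commute w y := by
    intro w x y hx0 h h'
    apply mul_left_cancel₀ hx0
    rw [← mul_assoc, ← h'.eq, mul_assoc, h.eq, mul_assoc]
  have cr : ∀ w x y : D, y ≠ 0 → Commute w (x * y) → Commute w y → Commute w x := by
    intro w x y hy0 h h'
    apply mul_right_cancel₀ hy0
    rw [mul_assoc, h.eq, mul_assoc, mul_assoc, h'.eq]
  let C : Subalgebra K D := Subalgebra.centralizer K {a 0, a 1}
  have hmem : ∀ w, w ∈ C ↔ Commute w (a 0) ∧ Commute w (a 1) := by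
    intro w
    constructor
    · intro h
      exact ⟨(h (a 0) (by simp)).symm, (h (a 1) (by simp)).symm⟩
    · rintro ⟨h, h'⟩ g hg
      rcases hg with rfl | hg
      · exact h.symm
      · rw [Set.mem_singleton_iff] at hg
        rw [hg]
        exact h'.symm
  have hC : ∀ w ∈ C, w * (a 2 * a 3) = (a 2 * a 3) * w → w * (a 3 * a 4) = (a 3 * a 4) * w →
      ∃ c : K, w = algebraMap K D c := by
    intro w hw h23 h34
    obtain ⟨w0, w1⟩ := (hmem w).mp hw
    have k23 : Commute w (a 2 * a 3) := h23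
    have k34 : Commute w (a 3 * a 4) := h34
    have k0123 : Commute w (a 0 * a 1 * a 2 * a 3) := by
      rw [mul_assoc]
      exact (w0.mul_right w1).mul_right k23
    have km : Commute w (a 0 * a 1 * a 2 * a 3 * a 4) := by
      rw [hκ]
      exact (Algebra.commutes κ w).symm
    have w4 : Commute w (a 4) := cl w _ _
      (mul_ne_zero (mul_ne_zero (mul_ne_zero (ha0 0) (ha0 1)) (ha0 2)) (ha0 3)) km k0123
    have w3 : Commute w (a 3) := cr w _ _ (ha0 4) k34 w4
    have w2 : Commute w (a 2) := cr w _ _ (ha0 3) k23 w3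
    apply hcen
    intro i
    fin_cases i
    · exact w0
    · exact w1
    · exact w2
    · exact w3
    · exact w4
  have memC : ∀ i j, i ≠ 0 → i ≠ 1 → j ≠ 0 → j ≠ 1 → a i * a j ∈ C := by
    intro i j hi0 hi1 hj0 hj1
    rw [hmem]
    constructor
    · apply Commute.symm
      have e1 := (sc 0 i hi0.symm).mul_right (sc 0 j hj0.symm)
      simp only [neg_mul, mul_neg, neg_neg] at e1
      exact e1
    · apply Commute.symm
      have e1 := (sc 1 i hi1.symm).mul_right (sc 1 j hj1.symm)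
      simp only [neg_mul, mul_neg, neg_neg] at e1
      exact e1
  have sq : ∀ i j, i ≠ j → a i * a j * (a i * a j) = algebraMap K D (-(α i * α j)) := by
    intro i j hij
    have e1 : a i * a j * (a i * a j) = a i * (a j * a i) * a j := by noncomm_ring
    rw [e1, hac j i hij.symm]
    have e2 : a i * -(a i * a j) * a j = -(a i * a i * (a j * a j)) := by noncomm_ring
    rw [e2, haa, haa, ← map_mul, ← map_neg]
  have hτ2 : ∀ i j, i ≠ j → τ (a i * a j) = -(a i * a j) := by
    intro i j hij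
    rw [hτm, hτa, hτa, hac j i hij.symm]
  have hxy : a 2 * a 3 * (a 3 * a 4) = -(a 3 * a 4 * (a 2 * a 3)) := by
    have e1 : a 3 * a 4 * (a 2 * a 3) = a 3 * (a 4 * a 2) * a 3 := by noncomm_ring
    have e2 : a 3 * -(a 2 * a 4) * a 3 = -(a 3 * a 2 * (a 4 * a 3)) := by noncomm_ring
    rw [e1, hac 4 2 (by decide), e2, hac 3 2 (by decide), hac 4 3 (by decide)]
    noncomm_ring
  have hzC : z ∈ C := (hmem z).mpr ⟨hz0, hz1⟩
  have n : ∀ i j, -(α i * α j) ≠ 0 := fun i j => neg_ne_zero.mpr (mul_ne_zero (hα i) (hα j))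
  apply hC z hzC
  · exact PS2_comm h2 τ hτ1 hτm C (a 2 * a 3) (a 3 * a 4) z (memC 2 3 (by decide) (by decide)
      (by decide) (by decide)) (memC 3 4 (by decide) (by decide) (by decide) (by decide)) hzC
      _ _ (n 2 3) (n 3 4) (sq 2 3 (by decide)) (sq 3 4 (by decide)) hxy (hτ2 2 3 (by decide))
      (hτ2 3 4 (by decide)) hτz hC
  · exact PS2_comm h2 τ hτ1 hτm C (a 3 * a 4) (a 2 * a 3) z (memC 3 4 (by decide) (by decide)
      (by decide) (by decide)) (memC 2 3 (by decide) (by decide) (by decide) (by decide)) hzC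
      _ _ (n 3 4) (n 2 3) (sq 3 4 (by decide)) (sq 2 3 (by decide)) (by rw [hxy, neg_neg])
      (hτ2 3 4 (by decide)) (hτ2 2 3 (by decide)) hτz (fun w hw h h' => hC w hw h' h)

theorem thm_PS2 (h1 : St_PS1) (h2 : St_LR) : St_PS2 := by
  intro K D _ _ _ _ _ q f W P W' P' σ hK2 hfin hq hf hA hA' hσm hσσ hσW hσP hσW' hσP' hN hN'
  have : FiniteDimensional K D := Module.finite_of_finrank_pos (by rw [hfin]; norm_num)
  have hR : R3 K D (fun i => q ((![0, 1, 2] : Fin 3 → Fin 6) i))
      (fun i => W ((![0, 1, 2] : Fin 3 → Fin 6) i))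
      (fun i => P ((![0, 1, 2] : Fin 3 → Fin 6) i)) := by
    have hinj : ∀ i j : Fin 3, i ≠ j → (![0, 1, 2] : Fin 3 → Fin 6) i ≠
      (![0, 1, 2] : Fin 3 → Fin 6) j := by decide
    exact ⟨fun i j hij => hA.wp _ _ (hinj i j hij), fun i j hij => hA.pw _ _ (hinj i j hij),
      fun i => hA.wpd _, fun i => hA.pwd _⟩
  obtain ⟨g, hg, hgg⟩ := h1 K D _ f _ _ W' P' (fun i => hq _) hf hR hA'
  -- inverses
  have hinv : ∀ x : D, x ≠ 0 → ∃ y, x * y = 1 ∧ y * x = 1 := by
    intro x hx
    have e1 : Function.Injective (LinearMap.mulLeft K x) := by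
      rw [injective_iff_map_eq_zero]
      intro b hb
      exact (mul_eq_zero.mp hb).resolve_left hx
    obtain ⟨y, hy⟩ := LinearMap.injective_iff_surjective.mp e1 1
    rw [LinearMap.mulLeft_apply] at hy
    refine ⟨y, hy, ?_⟩
    apply mul_left_cancel₀ hx
    rw [← mul_assoc, hy, one_mul, mul_one]
  have hσ1 : σ 1 = 1 := by
    have e1 := hσm (σ 1) 1
    rw [mul_one, hσσ, mul_one] at e1
    exact e1.symm
  obtain ⟨g', hgg', hg'g⟩ := hinv g hg
  obtain ⟨ι, hι⟩ : ∃ ι : Fin 3 → Fin 6, ι = ![0, 1, 2] := ⟨_, rfl⟩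
  rw [← hι] at hgg hA'
  have hι0 : ι 0 = 0 := by rw [hι]; rfl
  have hσs : σ g' * σ g = 1 := by rw [← hσm, hgg', hσ1]
  have hσs' : σ g * σ g' = 1 := by rw [← hσm, hg'g, hσ1]
  -- the elements `S i`, `S' i`
  obtain ⟨S, hS⟩ : ∃ S : Fin 3 → D, ∀ i, S i = g' * W' i * σ g' := ⟨_, fun _ => rfl⟩
  obtain ⟨T, hT⟩ : ∃ T : Fin 3 → D, ∀ i, T i = σ g * P' i * g := ⟨_, fun _ => rfl⟩
  have hST : ∀ i j, S i * T j = f • (W (ι i) * P (ι j)) := by
    intro i j
    have e1 : S i * T j = g' * W' i * (σ g' * σ g) * P' j * g := by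
      rw [hS, hT]
      noncomm_ring
    have e2 : S i * T j = g' * (W' i * P' j * g) := by
      rw [e1, hσs]
      noncomm_ring
    rw [e2, hgg, mul_smul_comm, ← mul_assoc, hg'g, one_mul]
  have hPW : ∀ i j, σ g * (P' j * W' i) = f • (P (ι j) * W (ι i) * σ g) := by
    intro i j
    have e1 := congrArg σ (hgg i j)
    rw [hσm, hσm, map_smul, hσm, hσm, hσP', hσW', hσP, hσW, neg_mul_neg, neg_mul_neg] at e1
    exact e1
  have hTS : ∀ i j, T j * S i = f • (P (ι j) * W (ι i)) := by
    intro i j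
    have e1 : T j * S i = σ g * P' j * (g * g') * W' i * σ g' := by
      rw [hS, hT]
      noncomm_ring
    have e2 : T j * S i = σ g * (P' j * W' i) * σ g' := by
      rw [e1, hgg']
      noncomm_ring
    rw [e2, hPW, smul_mul_assoc, mul_assoc, hσs', mul_one]
  obtain ⟨ξ, hξ⟩ : ∃ ξ : D, ξ = (q 0)⁻¹ • (P 0 * S 0) := ⟨_, rfl⟩
  have hWξ : ∀ i, W (ι i) * ξ = S i := by
    intro i
    have e1 : f • (W (ι i) * P 0) * S 0 = S i * (f • algebraMap K D (q 0)) := by
      have e2 := hST i 0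
      rw [hι0] at e2
      have e3 := hTS 0 0
      rw [hι0, hA.pwd] at e3
      rw [← e2, ← e3, mul_assoc]
    rw [smul_mul_assoc, mul_smul_comm] at e1
    have e4 := smul_right_injective D hf e1
    rw [hξ, mul_smul_comm, ← mul_assoc, e4, Algebra.algebraMap_eq_smul_one, mul_smul_comm,
      mul_one, smul_smul, inv_mul_cancel₀ (hq 0), one_smul]
  have hξT : ∀ j, ξ * T j = f • P (ι j) := by
    intro j
    rw [hξ, smul_mul_assoc, mul_assoc, hST, hι0, mul_smul_comm, ← mul_assoc, hA.pwd,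
      ← Algebra.smul_def, smul_comm f (q 0), smul_smul, inv_mul_cancel₀ (hq 0), one_smul]
  have hξc : ∀ i j, ξ * (P (ι j) * W (ι i)) = P (ι j) * W (ι i) * ξ := by
    intro i j
    have e1 : ξ * (T j * S i) = ξ * T j * S i := (mul_assoc _ _ _).symm
    rw [hTS, hξT, mul_smul_comm, smul_mul_assoc] at e1
    have e2 := smul_right_injective D hf e1
    rw [e2, mul_assoc, hWξ]
  have hσS : ∀ i, σ (S i) = -S i := by
    intro i
    rw [hS, hσm, hσm, hσσ, hσW']
    noncomm_ring
  have hξσ : σ ξ * W 0 = W 0 * ξ := by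
    have e1 := hσS 0
    rw [← hWξ 0, hσm, hσW, hι0, mul_neg, neg_inj] at e1
    exact e1
  -- the involution
  obtain ⟨τ, hτ⟩ : ∃ τ : D →ₗ[K] D, ∀ x, τ x = (q 0)⁻¹ • (P 0 * σ x * W 0) := by
    refine ⟨(q 0)⁻¹ • (LinearMap.mulRight K (W 0) ∘ₗ LinearMap.mulLeft K (P 0) ∘ₗ σ), ?_⟩
    intro x
    rfl
  have hτ1 : τ 1 = 1 := by
    rw [hτ, hσ1, mul_one, hA.pwd, Algebra.algebraMap_eq_smul_one, smul_smul,
      inv_mul_cancel₀ (hq 0), one_smul]
  have hτm : ∀ x y, τ (x * y) = τ y * τ x := by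
    intro x y
    rw [hτ, hτ, hτ, hσm, smul_mul_smul_comm]
    have e1 : P 0 * σ y * W 0 * (P 0 * σ x * W 0) = P 0 * σ y * (W 0 * P 0) * σ x * W 0 := by
      noncomm_ring
    have e2 : P 0 * σ y * (q 0 • (1 : D)) * σ x * W 0 = q 0 • (P 0 * (σ y * σ x) * W 0) := by
      rw [mul_smul_comm, mul_one, smul_mul_assoc, smul_mul_assoc]
      congr 1
      noncomm_ring
    have e3 : (q 0)⁻¹ * (q 0)⁻¹ * q 0 = (q 0)⁻¹ := by
      rw [mul_assoc, inv_mul_cancel₀ (hq 0), mul_one]
    rw [e1, hA.wpd, Algebra.algebraMap_eq_smul_one, e2, smul_smul, e3]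
  -- the five generators
  obtain ⟨a, ha⟩ : ∃ a : Fin 5 → D, ∀ i, a i = P 0 * W i.succ := ⟨_, fun _ => rfl⟩
  have hprod : ∀ i j : Fin 6, i ≠ 0 → P 0 * W i * (P 0 * W j) = -(q 0 • (P i * W j)) := by
    intro i j hi
    have e1 : P 0 * W i * (P 0 * W j) = P 0 * (W i * P 0) * W j := by noncomm_ring
    have e2 : P 0 * -(W 0 * P i) * W j = -(P 0 * W 0 * (P i * W j)) := by noncomm_ring
    rw [e1, hA.wp i 0 hi, e2, hA.pwd, ← Algebra.smul_def]
  have hcen : ∀ z, (∀ i, Commute z (a i)) → ∃ c : K, z = algebraMap K D c := by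
    intro z hz
    have k0 : ∀ j, Commute z (P 0 * W j) := by
      intro j
      refine Fin.cases ?_ (fun i => ?_) j
      · rw [hA.pwd]
        exact (Algebra.commutes _ z).symm
      · rw [← ha]
        exact hz i
    have k1 : ∀ i j, Commute z (P i * W j) := by
      intro i j
      by_cases hi : i = 0
      · rw [hi]
        exact k0 j
      · have e1 : P i * W j = -((q 0)⁻¹ • (P 0 * W i * (P 0 * W j))) := by
          rw [hprod i j hi, smul_neg, smul_smul, inv_mul_cancel₀ (hq 0), one_smul, neg_neg]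
        rw [e1]
        exact (((k0 i).mul_right (k0 j)).smul_right _).neg_right
    obtain ⟨c, hc⟩ := hA.cen (σ z) (fun i j => by
      have e1 := congrArg σ (k1 j i).eq
      rw [hσm, hσm (P j * W i) z, hσm, hσP, hσW, neg_mul_neg] at e1
      exact e1.symm)
    refine ⟨c, ?_⟩
    rw [← hσσ z, hc, Algebra.algebraMap_eq_smul_one, map_smul, hσ1]
  obtain ⟨c, hc⟩ := PS2_core hK2 τ hτ1 hτm a (fun i => -(q 0 * q i.succ))
    (fun i => neg_ne_zero.mpr (mul_ne_zero (hq _) (hq _)))
    (fun i => by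
      rw [ha, hprod _ _ (Fin.succ_ne_zero i), hA.pwd, Algebra.algebraMap_eq_smul_one, smul_smul,
        ← neg_smul, ← Algebra.algebraMap_eq_smul_one])
    (fun i j hij => by
      rw [ha, ha, hprod _ _ (Fin.succ_ne_zero i), hprod _ _ (Fin.succ_ne_zero j),
        hA.pw _ _ (fun h => hij (Fin.succ_injective _ h)), smul_neg])
    (fun i => by
      rw [ha, hτ, hσm, hσP, hσW, neg_mul_neg]
      have e1 : P 0 * (W i.succ * P 0) * W 0 = P 0 * W i.succ * (P 0 * W 0) := by noncomm_ring
      rw [e1, hA.pwd, Algebra.algebraMap_eq_smul_one, mul_smul_comm, mul_one, smul_smul,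
        inv_mul_cancel₀ (hq 0), one_smul])
    hcen ξ
    (by
      have e1 := hξc 1 0
      rw [hι] at e1
      rw [ha]
      exact e1)
    (by
      have e1 := hξc 2 0
      rw [hι] at e1
      rw [ha]
      exact e1)
    (by
      rw [hτ, mul_assoc, hξσ, ← mul_assoc, hA.pwd, ← Algebra.smul_def, smul_smul,
        inv_mul_cancel₀ (hq 0), one_smul])
  -- the end
  have hW'0 : W' 0 = c • (g * W 0 * σ g) := by
    have e1 := hWξ 0
    rw [hι0, hc, hS] at e1
    have e2 : g * (g' * W' 0 * σ g') * σ g = (g * g') * W' 0 * (σ g' * σ g) := by noncomm_ring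
    rw [← e1, hgg', hσs, one_mul, mul_one] at e2
    rw [← e2, ← Algebra.commutes, ← mul_assoc, ← Algebra.commutes, mul_assoc, mul_assoc,
      ← Algebra.smul_def, mul_assoc]
  have hNk : ∀ k : K, Algebra.norm K (algebraMap K D k) = k ^ 16 := by
    intro k
    rw [Algebra.norm_algebraMap, hfin]
  have n1 : Algebra.norm K (W 0) ^ 2 = q 0 ^ 16 := by
    have e1 := congrArg (Algebra.norm K) (hA.wpd 0)
    rw [map_mul, hNk, ← hN] at e1
    rw [sq]
    exact e1
  have n2 : Algebra.norm K (W' 0) ^ 2 = (f * q 0) ^ 16 := by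
    have e1 := congrArg (Algebra.norm K) (hA'.wpd 0)
    rw [map_mul, hNk, ← hN', hι0] at e1
    rw [sq]
    exact e1
  have hc0 : c ≠ 0 := by
    intro h0
    rw [h0, zero_smul] at hW'0
    have e1 := hA'.wpd 0
    rw [hW'0, zero_mul] at e1
    exact mul_ne_zero hf (hq (ι 0)) ((algebraMap K D).injective (e1.symm.trans (map_zero _).symm))
  refine ⟨g, c, hg, hc0, ?_⟩
  have n3 : Algebra.norm K (W' 0) = c ^ 16 * (Algebra.norm K g * Algebra.norm K (W 0) *
      Algebra.norm K g) := by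
    rw [hW'0, Algebra.smul_def, map_mul, map_mul, map_mul, hNk, PS2_norm_sigma h2 σ hσm hσσ]
  rw [n3] at n2
  apply mul_right_cancel₀ (pow_ne_zero 16 (hq 0))
  calc Algebra.norm K g ^ 4 * c ^ 32 * q 0 ^ 16 =
        Algebra.norm K g ^ 4 * c ^ 32 * Algebra.norm K (W 0) ^ 2 := by rw [n1]
    _ = (c ^ 16 * (Algebra.norm K g * Algebra.norm K (W 0) * Algebra.norm K g)) ^ 2 := by ring
    _ = f ^ 16 * q 0 ^ 16 := by rw [n2, mul_pow]

end Pool.Agent.Q4
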