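import Pool.Agent.Q4.RNQ

/-!
# Q4, module PSA: similitudes of three-dimensional subspaces over a domain
-/

set_option autoImplicit false

namespace Pool.Agent.Q4

open Quaternion TensorProduct Function Pool.Agent.QTB QuaternionAlgebra

/-- a relation over the fraction field gives a relation over the domain -/
private theorem PSA_rel {A : Type} [CommRing A] [IsDomain A] {n : ℕ} (x : Fin 3 → Fin n → A)
    (r : Fin 3 → FractionRing A) (ρ : Fin 3 → A) (s : A)
    (hρ : ∀ i, algebraMap A (FractionRing A) (ρ i) = algebraMap A (FractionRing A) s * r i)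
    (h : ∑ i, r i • (fun k => algebraMap A (FractionRing A) (x i k)) = 0) :
    ∑ i, ρ i • x i = 0 := by
  funext k
  apply IsFractionRing.injective A (FractionRing A)
  have h1 := congrFun h k
  rw [Finset.sum_apply, Pi.zero_apply] at h1
  rw [Finset.sum_apply, Pi.zero_apply, map_zero, map_sum]
  calc ∑ i, algebraMap A (FractionRing A) ((ρ i • x i) k) =
        ∑ i, algebraMap A (FractionRing A) s *
          (r i • (fun k => algebraMap A (FractionRing A) (x i k))) k := by
        refine Finset.sum_congr rfl fun i _ => ?_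
        rw [Pi.smul_apply, Pi.smul_apply, smul_eq_mul, smul_eq_mul, map_mul, hρ, mul_assoc]
    _ = 0 := by rw [← Finset.mul_sum, h1, mul_zero]

private theorem PSA_iso {A : Type} [CommRing A] [IsDomain A] (a b c d f : A)
    (h : Iso3 (alc a b c d) f) :
    Iso3 (alc (algebraMap A (FractionRing A) a) (algebraMap A (FractionRing A) b)
      (algebraMap A (FractionRing A) c) (algebraMap A (FractionRing A) d))
      (algebraMap A (FractionRing A) f) := by
  obtain ⟨x, y, h1, h2⟩ := h
  refine ⟨fun i k => algebraMap A _ (x i k), fun i k => algebraMap A _ (y i k), fun i j => ?_,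
    fun r hx hy => ?_⟩
  · rw [← RNQ_alc, ← RNQ_alc, h1, map_mul]
  · obtain ⟨s, ρ, hs, hρ⟩ := RNQ_den r
    have h3 := h2 ρ (PSA_rel x r ρ s hρ hx) (PSA_rel y r ρ s hρ hy)
    have hi := IsFractionRing.injective A (FractionRing A)
    funext i
    have h4 := hρ i
    rw [h3, Pi.zero_apply, map_zero] at h4
    exact (mul_eq_zero.1 h4.symm).resolve_left fun h => hs (hi (by rw [h, map_zero]))

/-- clearing denominators -/
private theorem PSA_clear {A : Type} [CommRing A] [IsDomain A] (a b c d : A)
    (g : QTB.BQ (FractionRing A) (algebraMap A (FractionRing A) a)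
      (algebraMap A (FractionRing A) b) (algebraMap A (FractionRing A) c)
      (algebraMap A (FractionRing A) d)) :
    ∃ (s : A) (g' : QTB.BQ A a b c d), s ≠ 0 ∧
      RNQ_bc (FractionRing A) a b c d g' = algebraMap A (FractionRing A) s • g := by
  obtain ⟨s, x, hs, hx⟩ := RNQ_den (fun m => (bas (algebraMap A (FractionRing A) a)
      (algebraMap A (FractionRing A) b) (algebraMap A (FractionRing A) c)
      (algebraMap A (FractionRing A) d)).repr g m)
  refine ⟨s, ∑ m, x m • bas a b c d m, hs, ?_⟩
  rw [map_sum]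
  conv_rhs => rw [← (bas (algebraMap A (FractionRing A) a)
      (algebraMap A (FractionRing A) b) (algebraMap A (FractionRing A) c)
      (algebraMap A (FractionRing A) d)).sum_repr g]
  rw [Finset.smul_sum]
  refine Finset.sum_congr rfl fun m _ => ?_
  rw [map_smul, RNQ_bas, ← algebraMap_smul (FractionRing A), hx, smul_smul]

private theorem PSA_smul {K : Type} [CommRing K] [Nontrivial K] (a b c d r : K)
    (g : QTB.BQ K a b c d) : rn (A := K) (r • g) = r ^ 16 * rn (A := K) g := by
  rw [← RNQ_scal a b c d r, ← RNQ_mul]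
  exact congrArg rn (Algebra.smul_def r g)

theorem thm_PSA (h1 : St_PSIM) (_h2 : St_RNQ) : St_PSA := by
  intro A _ _ a b c d f h20 hf hA hiso
  set K := FractionRing A with hK
  have hi := IsFractionRing.injective A K
  have hi0 : ∀ x : A, x ≠ 0 → algebraMap A K x ≠ 0 := fun x hx h => hx (hi (by rw [h, map_zero]))
  have h20' : (2 : K) ≠ 0 := by
    have := hi0 2 h20
    rwa [map_ofNat] at this
  obtain ⟨g, ξ, hg, hξ, h3⟩ := h1 K _ _ _ _ _ h20' (hi0 f hf) (RNQ_anis a b c d hA)
    (PSA_iso a b c d f hiso)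
  obtain ⟨s, g', hs, hg'⟩ := PSA_clear a b c d g
  obtain ⟨t, w, ht, hw⟩ := RNQ_den (fun _ : Unit => ξ)
  have hwt := hw ()
  have hs' := hi0 s hs
  have ht' := hi0 t ht
  refine ⟨g', w (), s ^ 2 * t, fun h => ?_, fun h => ?_, mul_ne_zero (pow_ne_zero _ hs) ht, ?_⟩
  · rw [h, map_zero] at hg'
    exact hg ((smul_eq_zero.1 hg'.symm).resolve_left hs')
  · rw [h, map_zero] at hwt
    exact hξ ((mul_eq_zero.1 hwt.symm).resolve_left ht')
  · apply hi
    have e1 : algebraMap A K (rn (A := A) g') = algebraMap A K s ^ 16 * rn (A := K) g := by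
      rw [← RNQ_rn, hg']
      exact PSA_smul _ _ _ _ _ _
    rw [map_mul, map_mul, map_pow, map_pow, map_pow, map_pow, map_mul, map_pow, e1, hwt]
    calc (algebraMap A K s ^ 16 * rn (A := K) g) ^ 4 * (algebraMap A K t * ξ) ^ 32 =
        (rn (A := K) g ^ 4 * ξ ^ 32) * (algebraMap A K s ^ 2 * algebraMap A K t) ^ 32 := by ring
      _ = _ := by rw [h3]

end Pool.Agent.Q4
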