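import Pool.Agent.Q4.StA2

/-!
# Q4, PSIM: similitudes of three-dimensional subspaces give norms, over a field (helper9)
-/

set_option autoImplicit false

namespace Pool.Agent.Q4

open Quaternion TensorProduct Function Pool.Agent.QTB

section

variable {K : Type} [Field K]

private theorem PSIM_symm {n : ℕ} (δ x y : Fin n → K) : dg δ x y = dg δ y x :=
  Finset.sum_congr rfl fun i _ => by rw [mul_comm (x i)]

/-- the bilinear form as a linear map -/
private def PSIM_L {n : ℕ} (δ x : Fin n → K) : (Fin n → K) →ₗ[K] K where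
  toFun y := dg δ x y
  map_add' y z := by
    unfold dg
    rw [← Finset.sum_add_distrib]
    refine Finset.sum_congr rfl fun i _ => ?_
    rw [Pi.add_apply]
    ring
  map_smul' r y := by
    unfold dg
    rw [RingHom.id_apply, smul_eq_mul, Finset.mul_sum]
    refine Finset.sum_congr rfl fun i _ => ?_
    rw [Pi.smul_apply, smul_eq_mul]
    ring

private theorem PSIM_add {n : ℕ} (δ x y z : Fin n → K) : dg δ x (y + z) = dg δ x y + dg δ x z :=
  (PSIM_L δ x).map_add y z

private theorem PSIM_add' {n : ℕ} (δ x y z : Fin n → K) :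
    dg δ (x + y) z = dg δ x z + dg δ y z := by
  rw [PSIM_symm, PSIM_add, PSIM_symm δ z x, PSIM_symm δ z y]

private theorem PSIM_sum {n m : ℕ} (δ x : Fin n → K) (r : Fin m → K) (y : Fin m → Fin n → K) :
    dg δ x (∑ i, r i • y i) = ∑ i, r i * dg δ x (y i) := by
  have h := map_sum (PSIM_L δ x) (fun i => r i • y i) Finset.univ
  refine h.trans (Finset.sum_congr rfl fun i _ => ?_)
  exact (PSIM_L δ x).map_smul (r i) (y i)

private theorem PSIM_sum2 {n m : ℕ} (δ : Fin n → K) (r s : Fin m → K) (y : Fin m → Fin n → K) :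
    dg δ (∑ i, r i • y i) (∑ i, s i • y i) = ∑ j, ∑ i, s j * (r i * dg δ (y i) (y j)) := by
  rw [PSIM_sum]
  refine Finset.sum_congr rfl fun j _ => ?_
  rw [PSIM_symm, PSIM_sum, Finset.mul_sum]
  refine Finset.sum_congr rfl fun i _ => ?_
  rw [PSIM_symm δ (y j)]

/-- orthogonal vectors in given subspaces -/
private theorem PSIM_gs {n : ℕ} (δ : Fin n → K) (S : ℕ → Submodule K (Fin n → K)) (m : ℕ)
    (h : ∀ k < m, k < Module.finrank K (S k)) :
    ∃ t : Fin m → Fin n → K, (∀ i, t i ≠ 0) ∧ (∀ i : Fin m, t i ∈ S i.val) ∧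
      ∀ i j, i ≠ j → dg δ (t i) (t j) = 0 := by
  induction m with
  | zero => exact ⟨fun i => i.elim0, fun i => i.elim0, fun i => i.elim0, fun i => i.elim0⟩
  | succ m ih =>
    obtain ⟨t, h1, h2, h3⟩ := ih fun k hk => h k (Nat.lt_succ_of_lt hk)
    let φ : S m →ₗ[K] (Fin m → K) := LinearMap.pi fun i => (PSIM_L δ (t i)).comp (S m).subtype
    have h4 : LinearMap.ker φ ≠ ⊥ := by
      refine LinearMap.ker_ne_bot_of_finrank_lt ?_
      rw [Module.finrank_fintype_fun_eq_card, Fintype.card_fin]
      exact h m (Nat.lt_succ_self m)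
    obtain ⟨v, hv, hv0⟩ := (Submodule.ne_bot_iff _).1 h4
    have h5 : ∀ i, dg δ (t i) (v : Fin n → K) = 0 := fun i =>
      congrFun (LinearMap.mem_ker.1 hv) i
    have h6 : (v : Fin n → K) ≠ 0 := fun h => hv0 (Subtype.ext h)
    refine ⟨Fin.snoc t (v : Fin n → K), fun i => ?_, fun i => ?_, fun i j hij => ?_⟩
    · refine Fin.lastCases ?_ (fun i => ?_) i
      · rw [Fin.snoc_last]
        exact h6
      · rw [Fin.snoc_castSucc]
        exact h1 i
    · refine Fin.lastCases ?_ (fun i => ?_) i
      · rw [Fin.snoc_last]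
        exact v.2
      · rw [Fin.snoc_castSucc]
        exact h2 i
    · revert hij
      refine Fin.lastCases ?_ (fun i => ?_) i
      · refine Fin.lastCases ?_ (fun j => ?_) j
        · intro hij
          exact absurd rfl hij
        · intro _
          rw [Fin.snoc_last, Fin.snoc_castSucc, PSIM_symm]
          exact h5 j
      · refine Fin.lastCases ?_ (fun j => ?_) j
        · intro _
          rw [Fin.snoc_last, Fin.snoc_castSucc]
          exact h5 i
        · intro hij
          rw [Fin.snoc_castSucc, Fin.snoc_castSucc]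
          exact h3 i j fun h => hij (by rw [h])

variable (a b c d : K)

private theorem PSIM_alb (v : Fin 6 → K) : alb a b c d v = dg (alc a b c d) v v := by
  unfold alb dg
  refine Finset.sum_congr rfl fun i _ => ?_
  rw [pow_two]
  rfl

private theorem PSIM_pol (u v : Fin 6 → K) : alb a b c d (u + v) =
    alb a b c d u + alb a b c d v + 2 * dg (alc a b c d) u v := by
  rw [PSIM_alb, PSIM_alb, PSIM_alb, PSIM_add, PSIM_add', PSIM_add', PSIM_symm _ v u]
  ring

private theorem PSIM_pq1 (u v : Fin 6 → K) : pq1 a b (u + v) = pq1 a b u + pq1 a b v := by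
  unfold pq1
  ext <;> simp

private theorem PSIM_pq2 (u v : Fin 6 → K) : pq2 c d (u + v) = pq2 c d u + pq2 c d v := by
  unfold pq2
  ext <;> simp

private theorem PSIM_wv (u v : Fin 6 → K) : wv a b c d (u + v) = wv a b c d u + wv a b c d v := by
  unfold wv
  rw [PSIM_pq1, PSIM_pq2, TensorProduct.add_tmul, TensorProduct.tmul_add]
  abel

private theorem PSIM_pv (u v : Fin 6 → K) :
    Q4.pv a b c d (u + v) = Q4.pv a b c d u + Q4.pv a b c d v := by
  unfold Q4.pv
  rw [PSIM_pq1, PSIM_pq2, TensorProduct.add_tmul, TensorProduct.tmul_add]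
  abel

private theorem PSIM_fin : Module.finrank K (Q4.BQ K a b c d) = 16 := by
  rw [Module.finrank_tensorProduct, QuaternionAlgebra.finrank_eq_four,
    QuaternionAlgebra.finrank_eq_four]

private theorem PSIM_C (h : Anis a b c d) (i : Fin 6) : albC a b c d i ≠ 0 := by
  intro h0
  have h1 := h (Pi.single i 1) (by
    unfold alb
    refine Finset.sum_eq_zero fun j _ => ?_
    by_cases hj : j = i
    · rw [hj, h0, zero_mul]
    · rw [Pi.single_eq_of_ne hj]
      ring)
  have h2 := congrFun h1 i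
  rw [Pi.single_eq_same] at h2
  exact one_ne_zero h2

end

theorem thm_PSIM (h1 : St_PS2) (h2 : St_NZD) (h3 : St_CON) (h4 : St_LR) : St_PSIM := by
  intro K _ a b c d f hK hf hA hI
  obtain ⟨x, y, hxy, hr⟩ := hI
  set δ := alc a b c d with hδ
  have hz := h2 K a b c d hK hA
  have ha : a ≠ 0 := PSIM_C a b c d hA 0
  have hb : b ≠ 0 := PSIM_C a b c d hA 1
  have hc : c ≠ 0 := neg_ne_zero.1 (PSIM_C a b c d hA 3)
  have hd : d ≠ 0 := neg_ne_zero.1 (PSIM_C a b c d hA 4)
  obtain ⟨c1, c2, c3, ⟨σ, s1, s2, s3, s4⟩, c5⟩ := h3 K a b c d hK ha hb hc hd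
  have c6 := c5 hz
  have hfin := PSIM_fin a b c d
  have : Nontrivial (Q4.BQ K a b c d) := by
    refine Module.nontrivial_of_finrank_pos (R := K) ?_
    rw [hfin]
    norm_num
  have : NoZeroDivisors (Q4.BQ K a b c d) := ⟨fun {x y} h => hz x y h⟩
  have : FiniteDimensional K (Q4.BQ K a b c d) := Module.finite_of_finrank_pos (by
    rw [hfin]
    norm_num)
  -- the vectors `y` are independent
  have hy : LinearIndependent K y := by
    rw [Fintype.linearIndependent_iff]
    intro r h0
    have h5 : ∑ i, r i • x i = 0 := by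
      refine hA _ ?_
      rw [PSIM_alb, PSIM_sum2]
      have h6 := PSIM_sum2 (K := K) δ r r y
      rw [h0] at h6
      have h7 : dg δ (0 : Fin 6 → K) 0 = 0 := (PSIM_L δ 0).map_zero
      rw [h7] at h6
      have h8 : ∑ j, ∑ i, r j * (r i * dg δ (x i) (x j)) =
          f * ∑ j, ∑ i, r j * (r i * dg δ (y i) (y j)) := by
        rw [Finset.mul_sum]
        refine Finset.sum_congr rfl fun j _ => ?_
        rw [Finset.mul_sum]
        refine Finset.sum_congr rfl fun i _ => ?_
        rw [hxy]
        ring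
      rw [h8, ← h6, mul_zero]
    exact fun i => congrFun (hr r h5 h0) i
  set U : Submodule K (Fin 6 → K) := Submodule.span K (Set.range y) with hU
  have hUf : Module.finrank K U = 3 := by
    rw [hU, finrank_span_eq_card hy, Fintype.card_fin]
  obtain ⟨t, t1, t2, t3⟩ := PSIM_gs δ (fun k => if k < 3 then U else ⊤) 6 (by
    intro k hk
    by_cases h : k < 3
    · have e : (if k < 3 then U else ⊤) = U := if_pos h
      show k < Module.finrank K (if k < 3 then U else ⊤ : Submodule K (Fin 6 → K))
      rw [e, hUf]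
      exact h
    · have e : (if k < 3 then U else ⊤) = ⊤ := if_neg h
      show k < Module.finrank K (if k < 3 then U else ⊤ : Submodule K (Fin 6 → K))
      rw [e, finrank_top, Module.finrank_fintype_fun_eq_card, Fintype.card_fin]
      exact hk)
  have hli : LinearIndependent K t := by
    rw [Fintype.linearIndependent_iff]
    intro r h0 i
    have h5 := PSIM_sum (K := K) δ (t i) r t
    rw [h0] at h5
    have h7 : dg δ (t i) 0 = 0 := (PSIM_L δ (t i)).map_zero
    rw [h7, Finset.sum_eq_single i (fun j _ hj => by rw [t3 i j hj.symm, mul_zero])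
      (fun h => absurd (Finset.mem_univ i) h)] at h5
    rcases mul_eq_zero.1 h5.symm with h | h
    · exact h
    · exact absurd (hA (t i) ((PSIM_alb a b c d (t i)).trans h)) (t1 i)
  have hspan : Submodule.span K (Set.range t) = ⊤ :=
    hli.span_eq_top_of_card_eq_finrank (by
      rw [Module.finrank_fintype_fun_eq_card])
  have d1 := c3 t hspan fun i j hij => by
    rw [PSIM_pol, t3 i j hij, mul_zero, add_zero]
  -- the other family
  have hex : ∀ i : Fin 3, ∃ r : Fin 3 → K,
      ∑ j, r j • y j = t ((![0, 1, 2] : Fin 3 → Fin 6) i) := by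
    intro i
    have h5 := t2 ((![0, 1, 2] : Fin 3 → Fin 6) i)
    have h6 : ((![0, 1, 2] : Fin 3 → Fin 6) i : ℕ) < 3 := by
      fin_cases i <;> simp
    rw [if_pos h6, hU] at h5
    exact (Submodule.mem_span_range_iff_exists_fun K).1 h5
  choose r hrt using hex
  set x' : Fin 3 → Fin 6 → K := fun i => ∑ j, r i j • x j with hx'
  have hB : ∀ i j, dg δ (x' i) (x' j) = f * dg δ (t ((![0, 1, 2] : Fin 3 → Fin 6) i))
      (t ((![0, 1, 2] : Fin 3 → Fin 6) j)) := by
    intro i j
    rw [← hrt, ← hrt, hx']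
    show dg δ (∑ k, r i k • x k) (∑ k, r j k • x k) = _
    rw [PSIM_sum2, PSIM_sum2, Finset.mul_sum]
    refine Finset.sum_congr rfl fun l _ => ?_
    rw [Finset.mul_sum]
    refine Finset.sum_congr rfl fun k _ => ?_
    rw [hxy]
    ring
  have hinj : Function.Injective (![0, 1, 2] : Fin 3 → Fin 6) := by decide
  have hB0 : ∀ i j, i ≠ j → dg δ (x' i) (x' j) = 0 := by
    intro i j hij
    rw [hB, t3 _ _ (fun h => hij (hinj h)), mul_zero]
  have hBB : ∀ i, alb a b c d (x' i) = f * alb a b c d (t ((![0, 1, 2] : Fin 3 → Fin 6) i)) := by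
    intro i
    rw [PSIM_alb, PSIM_alb]
    exact hB i i
  have hpol : ∀ i j, i ≠ j → alb a b c d (x' i + x' j) = alb a b c d (x' i) +
      alb a b c d (x' j) := by
    intro i j hij
    rw [PSIM_pol, hB0 i j hij, mul_zero, add_zero]
  have d2 : R3 K (Q4.BQ K a b c d)
      (fun i => f * alb a b c d (t ((![0, 1, 2] : Fin 3 → Fin 6) i)))
      (fun i => wv a b c d (x' i)) (fun i => Q4.pv a b c d (x' i)) := by
    refine ⟨fun i j hij => ?_, fun i j hij => ?_, fun i => ?_, fun i => ?_⟩
    · have h5 := c1 (x' i + x' j)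
      rw [hpol i j hij, map_add, ← c1, ← c1, PSIM_wv, PSIM_pv, add_mul, mul_add, mul_add] at h5
      rw [eq_neg_iff_add_eq_zero]
      have h6 : wv a b c d (x' i) * Q4.pv a b c d (x' j) + wv a b c d (x' j) * Q4.pv a b c d (x' i) =
          (wv a b c d (x' i) * Q4.pv a b c d (x' i) + wv a b c d (x' i) * Q4.pv a b c d (x' j) +
          (wv a b c d (x' j) * Q4.pv a b c d (x' i) + wv a b c d (x' j) * Q4.pv a b c d (x' j))) -
          (wv a b c d (x' i) * Q4.pv a b c d (x' i) +
            wv a b c d (x' j) * Q4.pv a b c d (x' j)) := by abel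
      rw [h6, h5, sub_self]
    · have h5 := c2 (x' i + x' j)
      rw [hpol i j hij, map_add, ← c2, ← c2, PSIM_wv, PSIM_pv, add_mul, mul_add, mul_add] at h5
      rw [eq_neg_iff_add_eq_zero]
      have h6 : Q4.pv a b c d (x' i) * wv a b c d (x' j) + Q4.pv a b c d (x' j) * wv a b c d (x' i) =
          (Q4.pv a b c d (x' i) * wv a b c d (x' i) + Q4.pv a b c d (x' i) * wv a b c d (x' j) +
          (Q4.pv a b c d (x' j) * wv a b c d (x' i) + Q4.pv a b c d (x' j) * wv a b c d (x' j))) -
          (Q4.pv a b c d (x' i) * wv a b c d (x' i) +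
            Q4.pv a b c d (x' j) * wv a b c d (x' j)) := by abel
      rw [h6, h5, sub_self]
    · rw [← hBB]
      exact c1 (x' i)
    · rw [← hBB]
      exact c2 (x' i)
  obtain ⟨g, ξ, hg, hξ, hN⟩ := h1 K (Q4.BQ K a b c d) (fun i => alb a b c d (t i)) f
    (fun i => wv a b c d (t i)) (fun i => Q4.pv a b c d (t i))
    (fun i => wv a b c d (x' i)) (fun i => Q4.pv a b c d (x' i)) σ hK hfin
    (fun i h => t1 i (hA (t i) h)) hf d1 d2 s1 s2 (fun i => s3 _) (fun i => s4 _) (fun i => s3 _)
    (fun i => s4 _) (c6 _) (c6 _)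
  refine ⟨g, ξ, hg, hξ, ?_⟩
  have h5 : rn (A := K) g = Algebra.norm K g := by
    rw [Algebra.norm_apply]
    exact h4 K (Q4.BQ K a b c d) g
  rw [← hN, h5]

end Pool.Agent.Q4
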