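import Pool.Agent.Q4.StE

/-!
# Q4, module RAD: the even Clifford algebra of a degenerate form, splitting off the radical
-/

set_option autoImplicit false

namespace Pool.Agent.Q4

open Function Pool.Agent.QCT

section RADgen

variable {K V V' : Type} [Field K] [AddCommGroup V] [Module K V] [AddCommGroup V'] [Module K V']
  {Q : QuadraticForm K V} {Q' : QuadraticForm K V'}

/-- the map of the Clifford algebras maps the even part to the even part -/
theorem RAD_even (f : Q →qᵢ Q') (x : CliffordAlgebra Q) (hx : x ∈ CliffordAlgebra.even Q) :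
    CliffordAlgebra.map f x ∈ CliffordAlgebra.even Q' := by
  refine CliffordAlgebra.even_induction Q
    (motive := fun x _ => CliffordAlgebra.map f x ∈ CliffordAlgebra.even Q') ?_ ?_ ?_ x hx
  · intro r
    rw [AlgHom.commutes]
    exact Subalgebra.algebraMap_mem _ r
  · intro x y _ _ h1 h2
    rw [map_add]
    exact add_mem h1 h2
  · intro m1 m2 x _ h
    rw [map_mul, map_mul, CliffordAlgebra.map_apply_ι, CliffordAlgebra.map_apply_ι]
    exact mul_mem (CliffordAlgebra.ι_mul_ι_mem_evenOdd_zero Q' _ _) h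

/-- the map of the even Clifford algebras -/
noncomputable def RADmap (f : Q →qᵢ Q') :
    CliffordAlgebra.even Q →ₐ[K] CliffordAlgebra.even Q' :=
  ((CliffordAlgebra.map f).comp (CliffordAlgebra.even Q).val).codRestrict _
    (fun x => RAD_even f x x.2)

theorem RADmap_coe (f : Q →qᵢ Q') (x : CliffordAlgebra.even Q) :
    ((RADmap f x : CliffordAlgebra.even Q') : CliffordAlgebra Q') =
      CliffordAlgebra.map f (x : CliffordAlgebra Q) := rfl

/-- the filtration of the Clifford algebra by the powers of the ideal of the radical -/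
noncomputable def RADF (Q : QuadraticForm K V) : ℕ → Submodule K (CliffordAlgebra Q)
  | 0 => ⊤
  | k + 1 => Submodule.span K {y | ∃ r ∈ LinearMap.ker (QuadraticMap.polarBilin Q),
      ∃ x ∈ RADF Q k, y = CliffordAlgebra.ι Q r * x}

theorem RADF_mk {k : ℕ} {r : V} (hr : r ∈ LinearMap.ker (QuadraticMap.polarBilin Q))
    {x : CliffordAlgebra Q} (hx : x ∈ RADF Q k) : CliffordAlgebra.ι Q r * x ∈ RADF Q (k + 1) :=
  Submodule.subset_span ⟨r, hr, x, hx, rfl⟩

theorem RADF_ind {k : ℕ} {C : CliffordAlgebra Q → Prop} (h0 : C 0)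
    (hadd : ∀ x y, C x → C y → C (x + y)) (hsmul : ∀ (a : K) x, C x → C (a • x))
    (hmk : ∀ r ∈ LinearMap.ker (QuadraticMap.polarBilin Q), ∀ x ∈ RADF Q k,
      C (CliffordAlgebra.ι Q r * x)) : ∀ y ∈ RADF Q (k + 1), C y := by
  intro y hy
  refine Submodule.span_induction (p := fun y _ => C y) ?_ h0 (fun x y _ _ => hadd x y)
    (fun a x _ => hsmul a x) hy
  rintro _ ⟨r, hr, x, hx, rfl⟩
  exact hmk r hr x hx

theorem RAD_polar {r : V} (hr : r ∈ LinearMap.ker (QuadraticMap.polarBilin Q)) (v : V) :
    QuadraticMap.polar Q v r = 0 := by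
  rw [QuadraticMap.polar_comm]
  have h1 : QuadraticMap.polarBilin Q r = 0 := hr
  have h2 : QuadraticMap.polarBilin Q r v = 0 := by rw [h1]; rfl
  exact h2

theorem RAD_swap {r : V} (hr : r ∈ LinearMap.ker (QuadraticMap.polarBilin Q)) (v : V) :
    CliffordAlgebra.ι Q v * CliffordAlgebra.ι Q r =
      -(CliffordAlgebra.ι Q r * CliffordAlgebra.ι Q v) := by
  have h := CliffordAlgebra.ι_mul_ι_add_swap (Q := Q) v r
  rw [RAD_polar hr, map_zero] at h
  exact eq_neg_of_add_eq_zero_left h

theorem RADF_right (k : ℕ) : ∀ x ∈ RADF Q k, ∀ c : CliffordAlgebra Q, x * c ∈ RADF Q k := by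
  induction k with
  | zero => exact fun _ _ _ => Submodule.mem_top
  | succ k ih =>
    intro x hx c
    revert x
    refine RADF_ind ?_ ?_ ?_ ?_
    · rw [zero_mul]
      exact zero_mem _
    · intro x y hx hy
      rw [add_mul]
      exact add_mem hx hy
    · intro a x hx
      rw [smul_mul_assoc]
      exact Submodule.smul_mem _ _ hx
    · intro r hr x hx
      rw [mul_assoc]
      exact RADF_mk hr (ih x hx c)

theorem RADF_left_ι (k : ℕ) : ∀ x ∈ RADF Q k, ∀ v : V,
    CliffordAlgebra.ι Q v * x ∈ RADF Q k := by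
  induction k with
  | zero => exact fun _ _ _ => Submodule.mem_top
  | succ k ih =>
    intro x hx v
    revert x
    refine RADF_ind ?_ ?_ ?_ ?_
    · rw [mul_zero]
      exact zero_mem _
    · intro x y hx hy
      rw [mul_add]
      exact add_mem hx hy
    · intro a x hx
      rw [mul_smul_comm]
      exact Submodule.smul_mem _ _ hx
    · intro r hr x hx
      rw [← mul_assoc, RAD_swap hr, neg_mul, mul_assoc]
      exact neg_mem (RADF_mk hr (ih x hx v))

theorem RADF_left (k : ℕ) (c : CliffordAlgebra Q) : ∀ x ∈ RADF Q k, c * x ∈ RADF Q k := by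
  induction c using CliffordAlgebra.induction with
  | algebraMap a =>
    intro x hx
    rw [← Algebra.smul_def]
    exact Submodule.smul_mem _ _ hx
  | ι v => exact fun x hx => RADF_left_ι k x hx v
  | mul a b ha hb =>
    intro x hx
    rw [mul_assoc]
    exact ha _ (hb x hx)
  | add a b ha hb =>
    intro x hx
    rw [add_mul]
    exact add_mem (ha x hx) (hb x hx)

theorem RADF_ι {r : V} (hr : r ∈ LinearMap.ker (QuadraticMap.polarBilin Q)) :
    CliffordAlgebra.ι Q r ∈ RADF Q 1 := by
  have h := RADF_mk (k := 0) hr (x := 1) Submodule.mem_top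
  rwa [mul_one] at h

theorem RADF_mulι (k : ℕ) : ∀ x ∈ RADF Q k,
    ∀ r ∈ LinearMap.ker (QuadraticMap.polarBilin Q),
      x * CliffordAlgebra.ι Q r ∈ RADF Q (k + 1) := by
  induction k with
  | zero => exact fun x _ r hr => RADF_left 1 x _ (RADF_ι hr)
  | succ k ih =>
    intro x hx r hr
    revert x
    refine RADF_ind ?_ ?_ ?_ ?_
    · rw [zero_mul]
      exact zero_mem _
    · intro x y hx hy
      rw [add_mul]
      exact add_mem hx hy
    · intro a x hx
      rw [smul_mul_assoc]
      exact Submodule.smul_mem _ _ hx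
    · intro s hs x hx
      rw [mul_assoc]
      exact RADF_mk hs (ih x hx r hr)

theorem RADF_mul (k : ℕ) (x : CliffordAlgebra Q) (hx : x ∈ RADF Q k) :
    ∀ y ∈ RADF Q 1, x * y ∈ RADF Q (k + 1) := by
  refine RADF_ind ?_ ?_ ?_ ?_
  · rw [mul_zero]
    exact zero_mem _
  · intro y z hy hz
    rw [mul_add]
    exact add_mem hy hz
  · intro a y hy
    rw [mul_smul_comm]
    exact Submodule.smul_mem _ _ hy
  · intro r hr z _
    rw [← mul_assoc]
    exact RADF_right (k + 1) _ (RADF_mulι k x hx r hr) z

/-- the filtration is generated by products -/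
theorem RADF_gen (k : ℕ) : ∀ x ∈ RADF Q k, x ∈ Submodule.span K
    {y : CliffordAlgebra Q | ∃ (r : Fin k → LinearMap.ker (QuadraticMap.polarBilin Q))
      (c : CliffordAlgebra Q),
      y = (List.ofFn fun i => CliffordAlgebra.ι Q (r i : V)).prod * c} := by
  induction k with
  | zero =>
    intro x _
    refine Submodule.subset_span ⟨fun i => i.elim0, x, ?_⟩
    rw [List.ofFn_zero, List.prod_nil, one_mul]
  | succ k ih =>
    refine RADF_ind (zero_mem _) (fun x y hx hy => add_mem hx hy)
      (fun a x hx => Submodule.smul_mem _ _ hx) ?_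
    intro s hs x hx
    refine Submodule.span_induction (p := fun x _ => CliffordAlgebra.ι Q s * x ∈ _) ?_ ?_ ?_ ?_
      (ih x hx)
    · rintro _ ⟨r, c, rfl⟩
      refine Submodule.subset_span ⟨Fin.cons ⟨s, hs⟩ r, c, ?_⟩
      rw [List.ofFn_succ, List.prod_cons, mul_assoc]
      rfl
    · rw [mul_zero]
      exact zero_mem _
    · intro x y _ _ hx hy
      rw [mul_add]
      exact add_mem hx hy
    · intro a x _ hx
      rw [mul_smul_comm]
      exact Submodule.smul_mem _ _ hx

theorem RAD_sq (h2 : (2 : K) ≠ 0) {r : V} (hr : r ∈ LinearMap.ker (QuadraticMap.polarBilin Q)) :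
    Q r = 0 := by
  have h := RAD_polar hr r
  rw [QuadraticMap.polar_self, two_smul, ← two_mul] at h
  exact (mul_eq_zero.1 h).resolve_left h2

theorem RADF_zero [FiniteDimensional K V] (h2 : (2 : K) ≠ 0) (k : ℕ)
    (hk : Module.finrank K (LinearMap.ker (QuadraticMap.polarBilin Q)) < k) :
    RADF Q k = ⊥ := by
  rw [eq_bot_iff]
  intro x hx
  have h1 := RADF_gen k x hx
  refine (Submodule.span_le.2 ?_ : _ ≤ (⊥ : Submodule K (CliffordAlgebra Q))) h1
  rintro _ ⟨r, c, rfl⟩
  have key : (List.ofFn fun i => CliffordAlgebra.ι Q (r i : V)).prod = 0 := by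
    obtain ⟨E, hE⟩ : ∃ E : ExteriorAlgebra K (LinearMap.ker (QuadraticMap.polarBilin Q)) →ₐ[K]
        CliffordAlgebra Q, ∀ m, E (ExteriorAlgebra.ι K m) = CliffordAlgebra.ι Q (m : V) :=
      ⟨ExteriorAlgebra.lift K
        ⟨(CliffordAlgebra.ι Q).comp (LinearMap.ker (QuadraticMap.polarBilin Q)).subtype, fun m => by
          show CliffordAlgebra.ι Q (m : V) * CliffordAlgebra.ι Q (m : V) = 0
          rw [CliffordAlgebra.ι_sq_scalar, RAD_sq h2 m.2, map_zero]⟩,
        fun m => ExteriorAlgebra.lift_ι_apply K _ _ m⟩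
    have h3 : ¬ LinearIndependent K r := by
      intro h4
      have h5 := h4.fintype_card_le_finrank
      rw [Fintype.card_fin] at h5
      exact absurd h5 (not_le.2 hk)
    have h6 : ExteriorAlgebra.ιMulti K k r = 0 :=
      (ExteriorAlgebra.ιMulti K (M := LinearMap.ker (QuadraticMap.polarBilin Q))
        k).map_linearDependent r h3
    rw [ExteriorAlgebra.ιMulti_apply] at h6
    have h7 := congrArg E h6
    rw [map_zero, map_list_prod, List.map_ofFn] at h7
    rw [← h7]
    congr 2
    funext i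
    exact (hE (r i)).symm
  rw [key, zero_mul]
  exact zero_mem _

/-- the difference of an element and its image under the projection -/
theorem RAD_diff (s : Q' →qᵢ Q) (pr : Q →qᵢ Q')
    (h : ∀ v, v - s (pr v) ∈ LinearMap.ker (QuadraticMap.polarBilin Q))
    (x : CliffordAlgebra Q) :
    x - CliffordAlgebra.map s (CliffordAlgebra.map pr x) ∈ RADF Q 1 := by
  induction x using CliffordAlgebra.induction with
  | algebraMap a =>
    rw [AlgHom.commutes, AlgHom.commutes, sub_self]
    exact zero_mem _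
  | ι v =>
    rw [CliffordAlgebra.map_apply_ι, CliffordAlgebra.map_apply_ι, ← map_sub]
    exact RADF_ι (h v)
  | mul a b ha hb =>
    have h1 : a * b - CliffordAlgebra.map s (CliffordAlgebra.map pr (a * b)) =
        (a - CliffordAlgebra.map s (CliffordAlgebra.map pr a)) * b +
          CliffordAlgebra.map s (CliffordAlgebra.map pr a) *
            (b - CliffordAlgebra.map s (CliffordAlgebra.map pr b)) := by
      rw [map_mul, map_mul]
      noncomm_ring
    rw [h1]
    exact add_mem (RADF_right 1 _ ha b) (RADF_left 1 _ _ hb)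
  | add a b ha hb =>
    have h1 : a + b - CliffordAlgebra.map s (CliffordAlgebra.map pr (a + b)) =
        (a - CliffordAlgebra.map s (CliffordAlgebra.map pr a)) +
          (b - CliffordAlgebra.map s (CliffordAlgebra.map pr b)) := by
      rw [map_add, map_add]
      abel
    rw [h1]
    exact add_mem ha hb

theorem RAD_main [FiniteDimensional K V] (h2 : (2 : K) ≠ 0) (s : Q' →qᵢ Q) (pr : Q →qᵢ Q')
    (h : ∀ v, v - s (pr v) ∈ LinearMap.ker (QuadraticMap.polarBilin Q))
    (h' : ∀ v, pr (s v) = v) :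
    ∃ π : CliffordAlgebra.even Q →ₐ[K] CliffordAlgebra.even Q', Surjective π ∧
      IsNilpotent (RingHom.ker π) := by
  refine ⟨RADmap pr, ?_, ?_⟩
  · intro y
    refine ⟨RADmap s y, Subtype.ext ?_⟩
    rw [RADmap_coe, RADmap_coe]
    have h3 : pr.comp s = QuadraticMap.Isometry.id Q' := by
      ext v : 1
      exact h' v
    have h4 : (CliffordAlgebra.map pr).comp (CliffordAlgebra.map s) =
        AlgHom.id K (CliffordAlgebra Q') := by
      rw [CliffordAlgebra.map_comp_map, h3, CliffordAlgebra.map_id]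
    exact DFunLike.congr_fun h4 (y : CliffordAlgebra Q')
  · have key : ∀ k : ℕ, ∀ y ∈ (RingHom.ker (RADmap pr)) ^ k,
        ((y : CliffordAlgebra.even Q) : CliffordAlgebra Q) ∈ RADF Q k := by
      intro k
      induction k with
      | zero => exact fun _ _ => Submodule.mem_top
      | succ k ih =>
        intro y hy
        rw [Submodule.pow_succ] at hy
        refine Submodule.mul_induction_on (C := fun y : CliffordAlgebra.even Q =>
          (y : CliffordAlgebra Q) ∈ RADF Q (k + 1)) hy ?_ ?_
        · intro a ha b hb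
          have h3 : CliffordAlgebra.map pr (b : CliffordAlgebra Q) = 0 := by
            rw [← RADmap_coe, (RingHom.mem_ker.1 hb : RADmap pr b = 0)]
            rfl
          have h4 := RAD_diff s pr h (b : CliffordAlgebra Q)
          rw [h3, map_zero, sub_zero] at h4
          exact RADF_mul k _ (ih a ha) _ h4
        · intro a b ha hb
          exact add_mem ha hb
    refine ⟨Module.finrank K (LinearMap.ker (QuadraticMap.polarBilin Q)) + 1, ?_⟩
    rw [Submodule.zero_eq_bot, eq_bot_iff]
    intro y hy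
    have h3 := key _ y hy
    rw [RADF_zero h2 _ (Nat.lt_succ_self _)] at h3
    exact Subtype.ext ((Submodule.mem_bot K).1 h3)

end RADgen

theorem thm_RAD : St_RAD := by
  intro K _ n Q h2
  obtain ⟨R, hR⟩ : ∃ R, R = LinearMap.ker (QuadraticMap.polarBilin Q) := ⟨_, rfl⟩
  obtain ⟨W, hW⟩ := R.exists_isCompl
  obtain ⟨m, hm⟩ : ∃ m, m = Module.finrank K (LinearMap.range (QuadraticMap.polarBilin Q)) :=
    ⟨_, rfl⟩
  have h3 := Submodule.finrank_add_eq_of_isCompl hW
  have h4 := LinearMap.finrank_range_add_finrank_ker (QuadraticMap.polarBilin Q)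
  rw [← hR] at h4
  have hWm : Module.finrank K (Fin m → K) = Module.finrank K W := by
    rw [Module.finrank_fin_fun, hm]
    omega
  let e : (Fin m → K) ≃ₗ[K] W := LinearEquiv.ofFinrankEq _ _ hWm
  let s0 : (Fin m → K) →ₗ[K] (Fin n → K) := W.subtype ∘ₗ e.toLinearMap
  let P : (Fin n → K) →ₗ[K] W := W.projectionOnto R hW.symm
  let pr0 : (Fin n → K) →ₗ[K] (Fin m → K) := e.symm.toLinearMap ∘ₗ P
  have hsp : ∀ v, s0 (pr0 v) = (P v : Fin n → K) := fun v => by
    show ((e (e.symm (P v)) : W) : Fin n → K) = P v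
    rw [LinearEquiv.apply_symm_apply]
  have hps : ∀ v, pr0 (s0 v) = v := fun v => by
    show e.symm (P ((e v : W) : Fin n → K)) = v
    have h5 : P ((e v : W) : Fin n → K) = e v := Submodule.projectionOnto_apply_left hW.symm (e v)
    rw [h5, LinearEquiv.symm_apply_apply]
  have hdiff : ∀ v, v - s0 (pr0 v) ∈ R := fun v => by
    rw [hsp]
    refine (Submodule.projectionOnto_apply_eq_zero_iff hW.symm).1 ?_
    have h5 : P ((P v : W) : Fin n → K) = P v := Submodule.projectionOnto_apply_left hW.symm (P v)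
    show P (v - (P v : Fin n → K)) = 0
    rw [map_sub, h5, sub_self]
  have hQ : ∀ v, Q (s0 (pr0 v)) = Q v := fun v => by
    have h5 := hdiff v
    rw [hR] at h5
    have h6 : v = s0 (pr0 v) + (v - s0 (pr0 v)) := by abel
    conv_rhs => rw [h6]
    rw [QuadraticMap.map_add (⇑Q), RAD_polar h5, RAD_sq h2 h5, add_zero, add_zero]
  let Q' : QuadraticForm K (Fin m → K) := Q.comp s0
  have hpol : ∀ x y, QuadraticMap.polar Q' x y = QuadraticMap.polar Q (s0 x) (s0 y) := fun x y => by
    show Q (s0 (x + y)) - Q (s0 x) - Q (s0 y) = Q (s0 x + s0 y) - Q (s0 x) - Q (s0 y)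
    rw [map_add]
  have hsep : ∀ x, (∀ y, QuadraticMap.polar Q' x y = 0) → x = 0 := by
    intro x hx
    have h5 : s0 x ∈ R := by
      rw [hR, LinearMap.mem_ker]
      refine LinearMap.ext fun v => ?_
      show QuadraticMap.polar Q (s0 x) v = 0
      have h6 : v = s0 (pr0 v) + (v - s0 (pr0 v)) := by abel
      have h7 := hdiff v
      rw [hR] at h7
      rw [h6, QuadraticMap.polar_add_right, RAD_polar h7, ← hpol, hx, add_zero]
    have h6 : s0 x ∈ W := (e x).2
    have h7 : s0 x ∈ R ⊓ W := ⟨h5, h6⟩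
    rw [hW.inf_eq_bot, Submodule.mem_bot] at h7
    have h8 := hps x
    rw [h7, map_zero] at h8
    exact h8.symm
  refine ⟨m, Q', hm, ⟨fun x hx => hsep x hx, fun y hy => hsep y fun x => ?_⟩, ?_⟩
  · rw [QuadraticMap.polar_comm]
    exact hy x
  · let s : Q' →qᵢ Q := { s0 with map_app' := fun _ => rfl }
    let pr : Q →qᵢ Q' := { pr0 with map_app' := fun v => hQ v }
    refine RAD_main h2 s pr (fun v => ?_) hps
    rw [← hR]
    exact hdiff v

end Pool.Agent.Q4
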