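import Pool.Agent.Q4.StF

/-!
# Q4, module RADM: surjective maps preserving the forms and the even Clifford algebras
-/

set_option autoImplicit false

namespace Pool.Agent.Q4

open Function Pool.Agent.QCT

section RADMgen

variable {K V V' : Type} [Field K] [AddCommGroup V] [Module K V] [AddCommGroup V'] [Module K V']
  {Q : QuadraticForm K V} {Q' : QuadraticForm K V'} {R : Submodule K V}

/-- the map of the Clifford algebras maps the even part to the even part -/
theorem RADM_even (f : Q →qᵢ Q') (x : CliffordAlgebra Q) (hx : x ∈ CliffordAlgebra.even Q) :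
    CliffordAlgebra.map f x ∈ CliffordAlgebra.even Q' := by
  refine CliffordAlgebra.even_induction Q
    (motive := fun x _ => CliffordAlgebra.map f x ∈ CliffordAlgebra.even Q') ?_ ?_ ?_ x hx
  · intro r
    rw [AlgHom.commutes]
    exact Subalgebra.algebraMap_mem _ r
  · intro x y _ _ h1 h2
    rw [map_add]
    exact add_mem h1 h2
  · intro m1 m2 x _ h
    rw [map_mul, map_mul, CliffordAlgebra.map_apply_ι, CliffordAlgebra.map_apply_ι]
    exact mul_mem (CliffordAlgebra.ι_mul_ι_mem_evenOdd_zero Q' _ _) h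

/-- the map of the even Clifford algebras -/
noncomputable def RADMmap (f : Q →qᵢ Q') :
    CliffordAlgebra.even Q →ₐ[K] CliffordAlgebra.even Q' :=
  ((CliffordAlgebra.map f).comp (CliffordAlgebra.even Q).val).codRestrict _
    (fun x => RADM_even f x x.2)

theorem RADMmap_coe (f : Q →qᵢ Q') (x : CliffordAlgebra.even Q) :
    ((RADMmap f x : CliffordAlgebra.even Q') : CliffordAlgebra Q') =
      CliffordAlgebra.map f (x : CliffordAlgebra Q) := rfl

/-- the subspace `R` lies in the radical of the form `Q` -/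
def RADMrad (Q : QuadraticForm K V) (R : Submodule K V) : Prop :=
  ∀ r ∈ R, Q r = 0 ∧ ∀ v, QuadraticMap.polar Q v r = 0

/-- the filtration of the Clifford algebra by the powers of the ideal of `R` -/
noncomputable def RADMF (Q : QuadraticForm K V) (R : Submodule K V) :
    ℕ → Submodule K (CliffordAlgebra Q)
  | 0 => ⊤
  | k + 1 => Submodule.span K {y | ∃ r ∈ R, ∃ x ∈ RADMF Q R k, y = CliffordAlgebra.ι Q r * x}

theorem RADMF_mk {k : ℕ} {r : V} (hr : r ∈ R) {x : CliffordAlgebra Q} (hx : x ∈ RADMF Q R k) :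
    CliffordAlgebra.ι Q r * x ∈ RADMF Q R (k + 1) :=
  Submodule.subset_span ⟨r, hr, x, hx, rfl⟩

theorem RADMF_ind {k : ℕ} {C : CliffordAlgebra Q → Prop} (h0 : C 0)
    (hadd : ∀ x y, C x → C y → C (x + y)) (hsmul : ∀ (a : K) x, C x → C (a • x))
    (hmk : ∀ r ∈ R, ∀ x ∈ RADMF Q R k, C (CliffordAlgebra.ι Q r * x)) :
    ∀ y ∈ RADMF Q R (k + 1), C y := by
  intro y hy
  refine Submodule.span_induction (p := fun y _ => C y) ?_ h0 (fun x y _ _ => hadd x y)
    (fun a x _ => hsmul a x) hy
  rintro _ ⟨r, hr, x, hx, rfl⟩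
  exact hmk r hr x hx

theorem RADM_swap (H : RADMrad Q R) {r : V} (hr : r ∈ R) (v : V) :
    CliffordAlgebra.ι Q v * CliffordAlgebra.ι Q r =
      -(CliffordAlgebra.ι Q r * CliffordAlgebra.ι Q v) := by
  have h := CliffordAlgebra.ι_mul_ι_add_swap (Q := Q) v r
  rw [(H r hr).2 v, map_zero] at h
  exact eq_neg_of_add_eq_zero_left h

theorem RADMF_right (k : ℕ) : ∀ x ∈ RADMF Q R k, ∀ c : CliffordAlgebra Q,
    x * c ∈ RADMF Q R k := by
  induction k with
  | zero => exact fun _ _ _ => Submodule.mem_top
  | succ k ih =>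
    intro x hx c
    revert x
    refine RADMF_ind ?_ ?_ ?_ ?_
    · rw [zero_mul]
      exact zero_mem _
    · intro x y hx hy
      rw [add_mul]
      exact add_mem hx hy
    · intro a x hx
      rw [smul_mul_assoc]
      exact Submodule.smul_mem _ _ hx
    · intro r hr x hx
      rw [mul_assoc]
      exact RADMF_mk hr (ih x hx c)

theorem RADMF_left_ι (H : RADMrad Q R) (k : ℕ) : ∀ x ∈ RADMF Q R k, ∀ v : V,
    CliffordAlgebra.ι Q v * x ∈ RADMF Q R k := by
  induction k with
  | zero => exact fun _ _ _ => Submodule.mem_top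
  | succ k ih =>
    intro x hx v
    revert x
    refine RADMF_ind ?_ ?_ ?_ ?_
    · rw [mul_zero]
      exact zero_mem _
    · intro x y hx hy
      rw [mul_add]
      exact add_mem hx hy
    · intro a x hx
      rw [mul_smul_comm]
      exact Submodule.smul_mem _ _ hx
    · intro r hr x hx
      rw [← mul_assoc, RADM_swap H hr, neg_mul, mul_assoc]
      exact neg_mem (RADMF_mk hr (ih x hx v))

theorem RADMF_left (H : RADMrad Q R) (k : ℕ) (c : CliffordAlgebra Q) :
    ∀ x ∈ RADMF Q R k, c * x ∈ RADMF Q R k := by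
  induction c using CliffordAlgebra.induction with
  | algebraMap a =>
    intro x hx
    rw [← Algebra.smul_def]
    exact Submodule.smul_mem _ _ hx
  | ι v => exact fun x hx => RADMF_left_ι H k x hx v
  | mul a b ha hb =>
    intro x hx
    rw [mul_assoc]
    exact ha _ (hb x hx)
  | add a b ha hb =>
    intro x hx
    rw [add_mul]
    exact add_mem (ha x hx) (hb x hx)

theorem RADMF_ι {r : V} (hr : r ∈ R) : CliffordAlgebra.ι Q r ∈ RADMF Q R 1 := by
  have h := RADMF_mk (Q := Q) (k := 0) hr (x := 1) Submodule.mem_top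
  rwa [mul_one] at h

theorem RADMF_mulι (H : RADMrad Q R) (k : ℕ) : ∀ x ∈ RADMF Q R k, ∀ r ∈ R,
      x * CliffordAlgebra.ι Q r ∈ RADMF Q R (k + 1) := by
  induction k with
  | zero => exact fun x _ r hr => RADMF_left H 1 x _ (RADMF_ι hr)
  | succ k ih =>
    intro x hx r hr
    revert x
    refine RADMF_ind ?_ ?_ ?_ ?_
    · rw [zero_mul]
      exact zero_mem _
    · intro x y hx hy
      rw [add_mul]
      exact add_mem hx hy
    · intro a x hx
      rw [smul_mul_assoc]
      exact Submodule.smul_mem _ _ hx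
    · intro s hs x hx
      rw [mul_assoc]
      exact RADMF_mk hs (ih x hx r hr)

theorem RADMF_mul (H : RADMrad Q R) (k : ℕ) (x : CliffordAlgebra Q) (hx : x ∈ RADMF Q R k) :
    ∀ y ∈ RADMF Q R 1, x * y ∈ RADMF Q R (k + 1) := by
  refine RADMF_ind ?_ ?_ ?_ ?_
  · rw [mul_zero]
    exact zero_mem _
  · intro y z hy hz
    rw [mul_add]
    exact add_mem hy hz
  · intro a y hy
    rw [mul_smul_comm]
    exact Submodule.smul_mem _ _ hy
  · intro r hr z _
    rw [← mul_assoc]
    exact RADMF_right (k + 1) _ (RADMF_mulι H k x hx r hr) z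

/-- the filtration is generated by products -/
theorem RADMF_gen (k : ℕ) : ∀ x ∈ RADMF Q R k, x ∈ Submodule.span K
    {y : CliffordAlgebra Q | ∃ (r : Fin k → R)
      (c : CliffordAlgebra Q),
      y = (List.ofFn fun i => CliffordAlgebra.ι Q (r i : V)).prod * c} := by
  induction k with
  | zero =>
    intro x _
    refine Submodule.subset_span ⟨fun i => i.elim0, x, ?_⟩
    rw [List.ofFn_zero, List.prod_nil, one_mul]
  | succ k ih =>
    refine RADMF_ind (zero_mem _) (fun x y hx hy => add_mem hx hy)
      (fun a x hx => Submodule.smul_mem _ _ hx) ?_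
    intro s hs x hx
    refine Submodule.span_induction (p := fun x _ => CliffordAlgebra.ι Q s * x ∈ _) ?_ ?_ ?_ ?_
      (ih x hx)
    · rintro _ ⟨r, c, rfl⟩
      refine Submodule.subset_span ⟨Fin.cons ⟨s, hs⟩ r, c, ?_⟩
      rw [List.ofFn_succ, List.prod_cons, mul_assoc]
      rfl
    · rw [mul_zero]
      exact zero_mem _
    · intro x y _ _ hx hy
      rw [mul_add]
      exact add_mem hx hy
    · intro a x _ hx
      rw [mul_smul_comm]
      exact Submodule.smul_mem _ _ hx

theorem RADMF_zero [FiniteDimensional K V] (H : RADMrad Q R) (k : ℕ)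
    (hk : Module.finrank K R < k) : RADMF Q R k = ⊥ := by
  rw [eq_bot_iff]
  intro x hx
  have h1 := RADMF_gen k x hx
  refine (Submodule.span_le.2 ?_ : _ ≤ (⊥ : Submodule K (CliffordAlgebra Q))) h1
  rintro _ ⟨r, c, rfl⟩
  have key : (List.ofFn fun i => CliffordAlgebra.ι Q (r i : V)).prod = 0 := by
    obtain ⟨E, hE⟩ : ∃ E : ExteriorAlgebra K R →ₐ[K]
        CliffordAlgebra Q, ∀ m, E (ExteriorAlgebra.ι K m) = CliffordAlgebra.ι Q (m : V) :=
      ⟨ExteriorAlgebra.lift K
        ⟨(CliffordAlgebra.ι Q).comp R.subtype, fun m => by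
          show CliffordAlgebra.ι Q (m : V) * CliffordAlgebra.ι Q (m : V) = 0
          rw [CliffordAlgebra.ι_sq_scalar, (H m m.2).1, map_zero]⟩,
        fun m => ExteriorAlgebra.lift_ι_apply K _ _ m⟩
    have h3 : ¬ LinearIndependent K r := by
      intro h4
      have h5 := h4.fintype_card_le_finrank
      rw [Fintype.card_fin] at h5
      exact absurd h5 (not_le.2 hk)
    have h6 : ExteriorAlgebra.ιMulti K k r = 0 :=
      (ExteriorAlgebra.ιMulti K (M := R) k).map_linearDependent r h3
    rw [ExteriorAlgebra.ιMulti_apply] at h6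
    have h7 := congrArg E h6
    rw [map_zero, map_list_prod, List.map_ofFn] at h7
    rw [← h7]
    congr 2
    funext i
    exact (hE (r i)).symm
  rw [key, zero_mul]
  exact zero_mem _

/-- the difference of an element and its image under the projection -/
theorem RADM_diff (H : RADMrad Q R) (s : Q' →qᵢ Q) (pr : Q →qᵢ Q')
    (h : ∀ v, v - s (pr v) ∈ R) (x : CliffordAlgebra Q) :
    x - CliffordAlgebra.map s (CliffordAlgebra.map pr x) ∈ RADMF Q R 1 := by
  induction x using CliffordAlgebra.induction with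
  | algebraMap a =>
    rw [AlgHom.commutes, AlgHom.commutes, sub_self]
    exact zero_mem _
  | ι v =>
    rw [CliffordAlgebra.map_apply_ι, CliffordAlgebra.map_apply_ι, ← map_sub]
    exact RADMF_ι (h v)
  | mul a b ha hb =>
    have h1 : a * b - CliffordAlgebra.map s (CliffordAlgebra.map pr (a * b)) =
        (a - CliffordAlgebra.map s (CliffordAlgebra.map pr a)) * b +
          CliffordAlgebra.map s (CliffordAlgebra.map pr a) *
            (b - CliffordAlgebra.map s (CliffordAlgebra.map pr b)) := by
      rw [map_mul, map_mul]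
      noncomm_ring
    rw [h1]
    exact add_mem (RADMF_right 1 _ ha b) (RADMF_left H 1 _ _ hb)
  | add a b ha hb =>
    have h1 : a + b - CliffordAlgebra.map s (CliffordAlgebra.map pr (a + b)) =
        (a - CliffordAlgebra.map s (CliffordAlgebra.map pr a)) +
          (b - CliffordAlgebra.map s (CliffordAlgebra.map pr b)) := by
      rw [map_add, map_add]
      abel
    rw [h1]
    exact add_mem ha hb

theorem RADM_main [FiniteDimensional K V] (H : RADMrad Q R) (s : Q' →qᵢ Q) (pr : Q →qᵢ Q')
    (h : ∀ v, v - s (pr v) ∈ R) (h' : ∀ v, pr (s v) = v) :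
    ∃ π : CliffordAlgebra.even Q →ₐ[K] CliffordAlgebra.even Q', Surjective π ∧
      IsNilpotent (RingHom.ker π) := by
  refine ⟨RADMmap pr, ?_, ?_⟩
  · intro y
    refine ⟨RADMmap s y, Subtype.ext ?_⟩
    rw [RADMmap_coe, RADMmap_coe]
    have h3 : pr.comp s = QuadraticMap.Isometry.id Q' := by
      ext v : 1
      exact h' v
    have h4 : (CliffordAlgebra.map pr).comp (CliffordAlgebra.map s) =
        AlgHom.id K (CliffordAlgebra Q') := by
      rw [CliffordAlgebra.map_comp_map, h3, CliffordAlgebra.map_id]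
    exact DFunLike.congr_fun h4 (y : CliffordAlgebra Q')
  · have key : ∀ k : ℕ, ∀ y ∈ (RingHom.ker (RADMmap pr)) ^ k,
        ((y : CliffordAlgebra.even Q) : CliffordAlgebra Q) ∈ RADMF Q R k := by
      intro k
      induction k with
      | zero => exact fun _ _ => Submodule.mem_top
      | succ k ih =>
        intro y hy
        rw [Submodule.pow_succ] at hy
        refine Submodule.mul_induction_on (C := fun y : CliffordAlgebra.even Q =>
          (y : CliffordAlgebra Q) ∈ RADMF Q R (k + 1)) hy ?_ ?_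
        · intro a ha b hb
          have h3 : CliffordAlgebra.map pr (b : CliffordAlgebra Q) = 0 := by
            rw [← RADMmap_coe, (RingHom.mem_ker.1 hb : RADMmap pr b = 0)]
            rfl
          have h4 := RADM_diff H s pr h (b : CliffordAlgebra Q)
          rw [h3, map_zero, sub_zero] at h4
          exact RADMF_mul H k _ (ih a ha) _ h4
        · intro a b ha hb
          exact add_mem ha hb
    refine ⟨Module.finrank K R + 1, ?_⟩
    rw [Submodule.zero_eq_bot, eq_bot_iff]
    intro y hy
    have h3 := key _ y hy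
    rw [RADMF_zero H _ (Nat.lt_succ_self _)] at h3
    exact Subtype.ext ((Submodule.mem_bot K).1 h3)

end RADMgen

theorem thm_RADM : St_RADM := by
  intro K _ n m Q Q' φ hφ hQ
  obtain ⟨s0, hs0⟩ := φ.exists_rightInverse_of_surjective (LinearMap.range_eq_top.2 hφ)
  have hs : ∀ v, φ (s0 v) = v := fun v => DFunLike.congr_fun hs0 v
  have H : RADMrad Q (LinearMap.ker φ) := by
    intro r hr
    have hr0 : φ r = 0 := hr
    refine ⟨by rw [hQ, hr0, map_zero], fun v => ?_⟩
    show Q (v + r) - Q v - Q r = 0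
    rw [hQ (v + r), hQ v, hQ r, map_add, hr0, add_zero, map_zero, sub_zero, sub_self]
  have hQs : ∀ v, Q (s0 v) = Q' v := fun v => by rw [hQ, hs]
  let s : Q' →qᵢ Q := { s0 with map_app' := fun v => hQs v }
  let pr : Q →qᵢ Q' := { φ with map_app' := fun v => (hQ v).symm }
  refine RADM_main H s pr (fun v => ?_) hs
  rw [LinearMap.mem_ker]
  show φ (v - s0 (φ v)) = 0
  rw [map_sub, hs, sub_self]

end Pool.Agent.Q4
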