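import Pool.Agent.Q4.StH
import Pool.Agent.Q4.RADM

/-!
# Q4, module RADG: surjective maps preserving the forms, arbitrary modules
-/

set_option autoImplicit false

namespace Pool.Agent.Q4

open Function

theorem thm_RADG : St_RADG := by
  intro K _ V V' _ _ _ _ _ Q Q' φ hφ hQ
  obtain ⟨s0, hs0⟩ := φ.exists_rightInverse_of_surjective (LinearMap.range_eq_top.2 hφ)
  have hs : ∀ v, φ (s0 v) = v := fun v => DFunLike.congr_fun hs0 v
  have H : RADMrad Q (LinearMap.ker φ) := by
    intro r hr
    have hr0 : φ r = 0 := hr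
    refine ⟨by rw [hQ, hr0, map_zero], fun v => ?_⟩
    show Q (v + r) - Q v - Q r = 0
    rw [hQ (v + r), hQ v, hQ r, map_add, hr0, add_zero, map_zero, sub_zero, sub_self]
  have hQs : ∀ v, Q (s0 v) = Q' v := fun v => by rw [hQ, hs]
  let s : Q' →qᵢ Q := { s0 with map_app' := fun v => hQs v }
  let pr : Q →qᵢ Q' := { φ with map_app' := fun v => (hQ v).symm }
  refine RADM_main H s pr (fun v => ?_) hs
  rw [LinearMap.mem_ker]
  show φ (v - s0 (φ v)) = 0
  rw [map_sub, hs, sub_self]

end Pool.Agent.Q4
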