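import Pool.Agent.Q4.StE

/-!
# Q4, module RK1: the even Clifford algebra of forms in at most one variable

Statement and proof: see `St_RK1` in `Pool/Agent/Q4/StE.lean`.
-/

set_option autoImplicit false

namespace Pool.Agent.Q4

open Function CliffordAlgebra

/-- Clifford algebras over fields are nontrivial -/
theorem RK1_nontrivial {K : Type} [Field K] {n : ℕ} (Q : QuadraticForm K (Fin n → K)) :
    Nontrivial (CliffordAlgebra Q) := by
  obtain ⟨B, hB⟩ := LinearMap.BilinMap.toQuadraticMap_surjective (-Q)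
  have h : B.toQuadraticMap = (0 : QuadraticForm K (Fin n → K)) - Q := by
    rw [hB, zero_sub]
  have hE : Nontrivial (ExteriorAlgebra K (Fin n → K)) := inferInstance
  refine ⟨⟨1, 0, fun h0 => ?_⟩⟩
  have e1 := changeForm_one h
  rw [h0, map_zero] at e1
  have e2 : (0 : ExteriorAlgebra K (Fin n → K)) = 1 := e1
  exact zero_ne_one e2

theorem thm_RK1 : St_RK1 := by
  intro K _ n Q hn
  have hnt := RK1_nontrivial Q
  -- products of two vectors are scalars
  have h2 : ∀ x y : Fin n → K, ∃ c : K, ι Q x * ι Q y = algebraMap K (CliffordAlgebra Q) c := by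
    intro x y
    rcases Nat.le_one_iff_eq_zero_or_eq_one.mp hn with rfl | rfl
    · refine ⟨0, ?_⟩
      have hx : x = 0 := Subsingleton.elim _ _
      rw [hx, map_zero, zero_mul, map_zero]
    · have hv : ∀ z : Fin 1 → K, z = z 0 • (1 : Fin 1 → K) := by
        intro z
        funext i
        rw [Subsingleton.elim i 0]
        simp
      refine ⟨x 0 * y 0 * Q 1, ?_⟩
      rw [hv x, hv y, map_smul, map_smul, smul_mul_smul_comm, ι_sq_scalar, map_mul,
        Algebra.smul_def]
      simp
  have h3 : ∀ x, x ∈ evenOdd Q 0 → ∃ c : K, x = algebraMap K (CliffordAlgebra Q) c := by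
    intro x hx
    induction x, hx using even_induction with
    | algebraMap r => exact ⟨r, rfl⟩
    | add x y hx hy h h' =>
      obtain ⟨c, rfl⟩ := h
      obtain ⟨d, rfl⟩ := h'
      exact ⟨c + d, (map_add _ _ _).symm⟩
    | ι_mul_ι_mul m₁ m₂ x hx h =>
      obtain ⟨c, rfl⟩ := h
      obtain ⟨d, hd⟩ := h2 m₁ m₂
      exact ⟨d * c, by rw [hd, map_mul]⟩
  have hbij : Bijective (algebraMap K (CliffordAlgebra.even Q)) := by
    constructor
    · intro a b hab
      have e1 : algebraMap K (CliffordAlgebra Q) a = algebraMap K (CliffordAlgebra Q) b :=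
        congrArg Subtype.val hab
      exact (algebraMap K (CliffordAlgebra Q)).injective e1
    · rintro ⟨x, hx⟩
      obtain ⟨c, hc⟩ := h3 x hx
      exact ⟨c, Subtype.ext hc.symm⟩
  exact ⟨(AlgEquiv.ofBijective (Algebra.ofId K (CliffordAlgebra.even Q)) hbij).symm⟩

end Pool.Agent.Q4
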