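import Pool.Agent.Q4.RNQB

/-!
# Q4, module RNQ: the determinant of the right multiplication
-/

set_option autoImplicit false

namespace Pool.Agent.Q4

open Quaternion TensorProduct Function Pool.Agent.QTB QuaternionAlgebra

theorem RNQ_mul {A Λ : Type} [CommRing A] [Ring Λ] [Algebra A Λ] (x y : Λ) :
    rn (A := A) (x * y) = rn (A := A) x * rn (A := A) y := by
  unfold rn
  have h1 : LinearMap.mulRight A (x * y) = (LinearMap.mulRight A y).comp (LinearMap.mulRight A x) := by
    ext z
    exact (mul_assoc z x y).symm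
  rw [h1, LinearMap.det_comp, mul_comm]

theorem RNQ_scal {A : Type} [CommRing A] [Nontrivial A] (a b c d r : A) :
    rn (A := A) (algebraMap A (QTB.BQ A a b c d) r) = r ^ 16 := by
  unfold rn
  have h1 : LinearMap.mulRight A (algebraMap A (QTB.BQ A a b c d) r) = r • LinearMap.id := by
    ext z
    · simp [Algebra.algebraMap_eq_smul_one]
  rw [h1, LinearMap.det_smul, LinearMap.det_id, mul_one,
    Module.finrank_eq_card_basis (bas a b c d)]
  rfl

theorem RNQ_sg_mul {A : Type} [CommRing A] (a b c d : A) (x y : QTB.BQ A a b c d) :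
    sg a b c d (x * y) = sg a b c d y * sg a b c d x := by
  unfold sg
  induction x using TensorProduct.induction_on with
  | zero => rw [zero_mul, map_zero, mul_zero]
  | add x1 x2 h1 h2 => rw [add_mul, map_add, map_add, mul_add, h1, h2]
  | tmul x1 x2 =>
    induction y using TensorProduct.induction_on with
    | zero => rw [mul_zero, map_zero, zero_mul]
    | add y1 y2 h1 h2 => rw [mul_add, map_add, map_add, add_mul, h1, h2]
    | tmul y1 y2 =>
      rw [Algebra.TensorProduct.tmul_mul_tmul, TensorProduct.map_tmul, TensorProduct.map_tmul,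
        TensorProduct.map_tmul, Algebra.TensorProduct.tmul_mul_tmul]
      exact congrArg₂ (fun u v => u ⊗ₜ[A] v) (star_mul x1 y1) (star_mul x2 y2)

theorem RNQ_sg_sg {A : Type} [CommRing A] (a b c d : A) (x : QTB.BQ A a b c d) :
    sg a b c d (sg a b c d x) = x := by
  unfold sg
  induction x using TensorProduct.induction_on with
  | zero => rw [map_zero, map_zero]
  | add x1 x2 h1 h2 => rw [map_add, map_add, h1, h2]
  | tmul x1 x2 =>
    rw [TensorProduct.map_tmul, TensorProduct.map_tmul]
    exact congrArg₂ (fun u v => u ⊗ₜ[A] v) (star_star x1) (star_star x2)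

theorem RNQ_nontrivial {A : Type} [CommRing A] [Nontrivial A] (a b c d : A) :
    Nontrivial (QTB.BQ A a b c d) :=
  ⟨⟨bas a b c d (0, 0), 0, (bas a b c d).ne_zero _⟩⟩

/-- the conjugation does not change the determinant -/
theorem RNQ_sgK (h3 : St_LR) {K : Type} [Field K] (a b c d : K)
    (hz : ∀ x y : Q4.BQ K a b c d, x * y = 0 → x = 0 ∨ y = 0) (z : QTB.BQ K a b c d) :
    rn (A := K) (sg a b c d z) = rn (A := K) z := by
  have hnz : NoZeroDivisors (QTB.BQ K a b c d) := ⟨fun {x y} h => hz x y h⟩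
  have hnt := RNQ_nontrivial a b c d
  let e : QTB.BQ K a b c d ≃ₗ[K] QTB.BQ K a b c d :=
    LinearEquiv.ofInvolutive (sg a b c d) (RNQ_sg_sg a b c d)
  have he : ((e : QTB.BQ K a b c d →ₗ[K] QTB.BQ K a b c d) ∘ₗ (LinearMap.mulLeft K z) ∘ₗ
      (e.symm : QTB.BQ K a b c d →ₗ[K] QTB.BQ K a b c d)) = LinearMap.mulRight K (sg a b c d z) := by
    refine LinearMap.ext fun y => ?_
    show sg a b c d (z * sg a b c d y) = y * sg a b c d z
    rw [RNQ_sg_mul, RNQ_sg_sg]
  unfold rn
  rw [← he, LinearMap.det_conj, h3]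

theorem RNQ_ne (h3 : St_LR) {K : Type} [Field K] (a b c d : K)
    (hz : ∀ x y : Q4.BQ K a b c d, x * y = 0 → x = 0 ∨ y = 0) (z : QTB.BQ K a b c d) (h0 : z ≠ 0) :
    rn (A := K) z ≠ 0 := by
  have hnz : NoZeroDivisors (QTB.BQ K a b c d) := ⟨fun {x y} h => hz x y h⟩
  have hnt := RNQ_nontrivial a b c d
  have hdom : IsDomain (QTB.BQ K a b c d) := NoZeroDivisors.to_isDomain _
  intro h
  unfold rn at h
  rw [h3] at h
  exact h0 (Algebra.norm_eq_zero_iff.1 ((Algebra.norm_apply K z).trans h))

theorem thm_RNQ (h1 : St_NZD) (h2 : St_CON) (h3 : St_LR) : St_RNQ := by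
  intro A _ _ a b c d h20 hA
  set K := FractionRing A with hK
  have hi := IsFractionRing.injective A K
  have hi0 : ∀ x : A, x ≠ 0 → algebraMap A K x ≠ 0 := fun x hx h => hx (hi (by rw [h, map_zero]))
  have h20' : (2 : K) ≠ 0 := by
    have := hi0 2 h20
    rwa [map_ofNat] at this
  have hAn := RNQ_anis a b c d hA
  have hz := h1 K _ _ _ _ h20' hAn
  -- the coefficients are not zero
  have hcoef : ∀ i, alc a b c d i ≠ 0 := by
    intro i hi1
    have h4 := hA (Pi.single i 1) (by
      unfold dg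
      refine Finset.sum_eq_zero fun j _ => ?_
      by_cases hj : j = i
      · rw [hj, hi1, zero_mul]
      · rw [Pi.single_eq_of_ne hj, mul_zero, mul_zero])
    have h5 := congrFun h4 i
    rw [Pi.single_eq_same, Pi.zero_apply] at h5
    exact one_ne_zero h5
  have ha : a ≠ 0 := hcoef 0
  have hb : b ≠ 0 := hcoef 1
  have hc : c ≠ 0 := fun h => hcoef 3 (by show -c = 0; rw [h, neg_zero])
  have hd : d ≠ 0 := fun h => hcoef 4 (by show -d = 0; rw [h, neg_zero])
  obtain ⟨c1, c2, -, -, c5⟩ := h2 K _ _ _ _ h20' (hi0 a ha) (hi0 b hb) (hi0 c hc) (hi0 d hd)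
  have hnz : NoZeroDivisors (QTB.BQ K (algebraMap A K a) (algebraMap A K b) (algebraMap A K c)
    (algebraMap A K d)) := ⟨fun {x y} h => hz x y h⟩
  have hnt := RNQ_nontrivial (algebraMap A K a) (algebraMap A K b) (algebraMap A K c)
    (algebraMap A K d)
  have e1 : ∀ v, rn (A := K) (vv (algebraMap A K a) (algebraMap A K b) (algebraMap A K c)
      (algebraMap A K d) v) ^ 2 = alb (algebraMap A K a) (algebraMap A K b) (algebraMap A K c)
      (algebraMap A K d) v ^ 16 ∧ rn (A := K) (QTB.pv (algebraMap A K a) (algebraMap A K b)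
      (algebraMap A K c) (algebraMap A K d) v) ^ 2 = alb (algebraMap A K a) (algebraMap A K b)
      (algebraMap A K c) (algebraMap A K d) v ^ 16 := by
    intro v
    have e2 : rn (A := K) (vv (algebraMap A K a) (algebraMap A K b) (algebraMap A K c)
      (algebraMap A K d) v) = rn (A := K) (QTB.pv (algebraMap A K a) (algebraMap A K b)
        (algebraMap A K c) (algebraMap A K d) v) := by
      unfold rn
      rw [h3, h3]
      exact c5 hz v
    have e3 : rn (A := K) (vv (algebraMap A K a) (algebraMap A K b) (algebraMap A K c)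
      (algebraMap A K d) v) * rn (A := K) (QTB.pv (algebraMap A K a) (algebraMap A K b)
        (algebraMap A K c) (algebraMap A K d) v) = alb (algebraMap A K a) (algebraMap A K b)
      (algebraMap A K c) (algebraMap A K d) v ^ 16 := by
      rw [← RNQ_mul, ← RNQ_scal (algebraMap A K a) (algebraMap A K b) (algebraMap A K c)
        (algebraMap A K d)]
      exact congrArg rn (c1 v)
    constructor
    · rw [sq]
      nth_rewrite 2 [e2]
      exact e3
    · rw [sq]
      nth_rewrite 1 [← e2]
      exact e3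
  refine ⟨RNQ_mul, RNQ_scal a b c d, fun z hz0 h => ?_, fun x => ?_, fun x => ?_, fun z => ?_⟩
  · refine RNQ_ne h3 _ _ _ _ hz (RNQ_bc K a b c d z) (fun h4 => hz0 ?_) ?_
    · exact RNQ_inj hi a b c d (by rw [h4, map_zero])
    · rw [RNQ_rn, h, map_zero]
  · apply hi
    rw [map_pow, map_pow, ← RNQ_rn, RNQ_vv, (e1 _).1, RNQ_alb, RNQ_alc]
  · apply hi
    rw [map_pow, map_pow, ← RNQ_rn, RNQ_pv, (e1 _).2, RNQ_alb, RNQ_alc]
  · apply hi
    rw [← RNQ_rn, ← RNQ_rn, RNQ_sg, RNQ_sgK h3 _ _ _ _ hz]

end Pool.Agent.Q4
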