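import Pool.Agent.Q4.StA2

/-!
# Q4: base change for biquaternion algebras (auxiliary file for RNQ and PSA)
-/

set_option autoImplicit false

namespace Pool.Agent.Q4

open Quaternion TensorProduct Function Pool.Agent.QTB QuaternionAlgebra

section

variable {A K : Type} [CommRing A] [CommRing K] [Algebra A K]

/-- base change of a quaternion algebra -/
def RNQ_q (K : Type) [CommRing K] [Algebra A K] (a b : A) :
    ℍ[A,a,b] →ₐ[A] ℍ[K,algebraMap A K a,algebraMap A K b] where
  toFun x := ⟨algebraMap A K x.re, algebraMap A K x.imI, algebraMap A K x.imJ, algebraMap A K x.imK⟩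
  map_one' := by ext <;> simp
  map_zero' := by ext <;> simp
  map_add' x y := by ext <;> simp
  map_mul' x y := by ext <;> simp
  commutes' r := by
    rw [QuaternionAlgebra.algebraMap_eq]
    ext <;> simp [Algebra.algebraMap_eq_smul_one]

/-- base change of a biquaternion algebra -/
noncomputable def RNQ_bc (K : Type) [CommRing K] [Algebra A K] (a b c d : A) :
    QTB.BQ A a b c d →ₐ[A]
      QTB.BQ K (algebraMap A K a) (algebraMap A K b) (algebraMap A K c) (algebraMap A K d) :=
  Algebra.TensorProduct.lift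
    ((Algebra.TensorProduct.includeLeft : ℍ[K,algebraMap A K a,algebraMap A K b] →ₐ[A]
      QTB.BQ K (algebraMap A K a) (algebraMap A K b) (algebraMap A K c) (algebraMap A K d)).comp
        (RNQ_q K a b))
    (((Algebra.TensorProduct.includeRight : ℍ[K,algebraMap A K c,algebraMap A K d] →ₐ[K]
      QTB.BQ K (algebraMap A K a) (algebraMap A K b) (algebraMap A K c)
        (algebraMap A K d)).restrictScalars A).comp (RNQ_q K c d))
    (fun x y => by
      show _ * _ = _ * _
      simp)

theorem RNQ_bc_tmul (a b c d : A) (x : ℍ[A,a,b]) (y : ℍ[A,c,d]) :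
    RNQ_bc K a b c d (x ⊗ₜ y) = RNQ_q K a b x ⊗ₜ RNQ_q K c d y := by
  unfold RNQ_bc
  simp

theorem RNQ_q_basis (a b : A) (i : Fin 4) :
    RNQ_q K a b (basisOneIJK a 0 b i) = basisOneIJK (algebraMap A K a) 0 (algebraMap A K b) i := by
  have h1 : ∀ (R : Type) [CommRing R] (c₁ c₂ c₃ : R) (i : Fin 4), basisOneIJK c₁ c₂ c₃ i =
      ⟨(Pi.single i 1 : Fin 4 → R) 0, (Pi.single i 1 : Fin 4 → R) 1,
        (Pi.single i 1 : Fin 4 → R) 2, (Pi.single i 1 : Fin 4 → R) 3⟩ := by
    intro R _ c₁ c₂ c₃ i
    unfold basisOneIJK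
    rw [Module.Basis.coe_ofEquivFun]
    rfl
  rw [h1, h1]
  show (⟨algebraMap A K _, algebraMap A K _, algebraMap A K _, algebraMap A K _⟩ :
    ℍ[K,algebraMap A K a,algebraMap A K b]) = _
  fin_cases i <;> ext <;> simp

theorem RNQ_bas (a b c d : A) (i : Fin 4 × Fin 4) : RNQ_bc K a b c d (bas a b c d i) =
    bas (algebraMap A K a) (algebraMap A K b) (algebraMap A K c) (algebraMap A K d) i := by
  unfold bas
  rw [Module.Basis.tensorProduct_apply, Module.Basis.tensorProduct_apply, RNQ_bc_tmul, RNQ_q_basis,
    RNQ_q_basis]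

theorem RNQ_repr (a b c d : A) (z : QTB.BQ A a b c d) (i : Fin 4 × Fin 4) :
    (bas (algebraMap A K a) (algebraMap A K b) (algebraMap A K c) (algebraMap A K d)).repr
      (RNQ_bc K a b c d z) i = algebraMap A K ((bas a b c d).repr z i) := by
  classical
  have h1 := (bas a b c d).sum_repr z
  conv_lhs => rw [← h1]
  rw [map_sum, map_sum, Finsupp.finsetSum_apply]
  have h2 : ∀ j : Fin 4 × Fin 4,
      (bas (algebraMap A K a) (algebraMap A K b) (algebraMap A K c) (algebraMap A K d)).repr
      (RNQ_bc K a b c d ((bas a b c d).repr z j • bas a b c d j)) i =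
        if j = i then algebraMap A K ((bas a b c d).repr z i) else 0 := by
    intro j
    rw [map_smul, RNQ_bas, ← algebraMap_smul K, map_smul, Finsupp.smul_apply,
      Module.Basis.repr_self, Finsupp.single_apply]
    split_ifs with h
    · rw [h, smul_eq_mul, mul_one]
    · rw [smul_zero]
  rw [Finset.sum_congr rfl fun j _ => h2 j, Finset.sum_ite_eq' Finset.univ i, if_pos (Finset.mem_univ i)]

theorem RNQ_inj (hK : Injective (algebraMap A K)) (a b c d : A) :
    Injective (RNQ_bc K a b c d) := by
  intro z z' h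
  refine (bas a b c d).repr.injective (Finsupp.ext fun i => hK ?_)
  rw [← RNQ_repr, ← RNQ_repr, h]

theorem RNQ_rn (a b c d : A) (z : QTB.BQ A a b c d) :
    rn (A := K) (RNQ_bc K a b c d z) = algebraMap A K (rn (A := A) z) := by
  classical
  unfold rn
  rw [← LinearMap.det_toMatrix (bas a b c d), ← LinearMap.det_toMatrix
    (bas (algebraMap A K a) (algebraMap A K b) (algebraMap A K c) (algebraMap A K d)),
    RingHom.map_det]
  refine congrArg Matrix.det ?_
  ext i j
  rw [LinearMap.toMatrix_apply, LinearMap.mulRight_apply, RingHom.mapMatrix_apply, Matrix.map_apply,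
    LinearMap.toMatrix_apply, LinearMap.mulRight_apply, ← RNQ_repr,
    map_mul (RNQ_bc K a b c d), RNQ_bas]

theorem RNQ_vv (a b c d : A) (x : Fin 6 → A) : RNQ_bc K a b c d (vv a b c d x) =
    vv (algebraMap A K a) (algebraMap A K b) (algebraMap A K c) (algebraMap A K d)
      (fun i => algebraMap A K (x i)) := by
  unfold vv
  rw [map_sub, RNQ_bc_tmul, RNQ_bc_tmul, map_one, map_one]
  have h1 : ∀ (a b s t u : A), RNQ_q K a b ⟨0, s, t, u⟩ =
      ⟨0, algebraMap A K s, algebraMap A K t, algebraMap A K u⟩ := by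
    intro a b s t u
    show (⟨algebraMap A K 0, algebraMap A K s, algebraMap A K t, algebraMap A K u⟩ :
      ℍ[K,algebraMap A K a,algebraMap A K b]) = _
    rw [map_zero]
  rw [h1, h1]

theorem RNQ_pv (a b c d : A) (x : Fin 6 → A) : RNQ_bc K a b c d (QTB.pv a b c d x) =
    QTB.pv (algebraMap A K a) (algebraMap A K b) (algebraMap A K c) (algebraMap A K d)
      (fun i => algebraMap A K (x i)) := by
  unfold QTB.pv
  rw [map_add, RNQ_bc_tmul, RNQ_bc_tmul, map_one, map_one]
  have h1 : ∀ (a b s t u : A), RNQ_q K a b ⟨0, s, t, u⟩ =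
      ⟨0, algebraMap A K s, algebraMap A K t, algebraMap A K u⟩ := by
    intro a b s t u
    show (⟨algebraMap A K 0, algebraMap A K s, algebraMap A K t, algebraMap A K u⟩ :
      ℍ[K,algebraMap A K a,algebraMap A K b]) = _
    rw [map_zero]
  rw [h1, h1]

theorem RNQ_sg (a b c d : A) (z : QTB.BQ A a b c d) : RNQ_bc K a b c d (sg a b c d z) =
    sg (algebraMap A K a) (algebraMap A K b) (algebraMap A K c) (algebraMap A K d)
      (RNQ_bc K a b c d z) := by
  have h1 : ∀ (a b : A) (x : ℍ[A,a,b]), RNQ_q K a b (starL a b x) =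
      starL (algebraMap A K a) (algebraMap A K b) (RNQ_q K a b x) := by
    intro a b x
    show RNQ_q K a b (star x) = star (RNQ_q K a b x)
    ext <;> simp [RNQ_q]
  unfold sg
  induction z using TensorProduct.induction_on with
  | zero => simp only [map_zero]
  | add x y hx hy => simp only [map_add, hx, hy]
  | tmul x y =>
    rw [TensorProduct.map_tmul, RNQ_bc_tmul, RNQ_bc_tmul, TensorProduct.map_tmul, h1, h1]

theorem RNQ_alc (a b c d : A) (x y : Fin 6 → A) :
    algebraMap A K (dg (alc a b c d) x y) = dg (alc (algebraMap A K a) (algebraMap A K b)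
      (algebraMap A K c) (algebraMap A K d)) (fun i => algebraMap A K (x i))
      (fun i => algebraMap A K (y i)) := by
  unfold dg
  rw [map_sum]
  refine Finset.sum_congr rfl fun i _ => ?_
  rw [map_mul, map_mul]
  refine congrArg (· * _) ?_
  unfold alc
  fin_cases i <;> simp

end

theorem RNQ_alb {K : Type} [CommRing K] (a b c d : K) (v : Fin 6 → K) :
    alb a b c d v = dg (alc a b c d) v v := by
  unfold alb dg
  refine Finset.sum_congr rfl fun i _ => ?_
  rw [sq]
  rfl

/-- common denominators -/
theorem RNQ_den {A : Type} [CommRing A] [IsDomain A] {ι : Type} [Finite ι]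
    (v : ι → FractionRing A) : ∃ (s : A) (x : ι → A), s ≠ 0 ∧
      ∀ i, algebraMap A (FractionRing A) (x i) = algebraMap A (FractionRing A) s * v i := by
  obtain ⟨s, hs⟩ := IsLocalization.exist_integer_multiples_of_finite (nonZeroDivisors A) v
  choose x hx using hs
  refine ⟨s, x, nonZeroDivisors.ne_zero s.2, fun i => ?_⟩
  rw [hx i, Algebra.smul_def]

theorem RNQ_anis {A : Type} [CommRing A] [IsDomain A] (a b c d : A)
    (h : ∀ x : Fin 6 → A, dg (alc a b c d) x x = 0 → x = 0) :
    Anis (algebraMap A (FractionRing A) a) (algebraMap A (FractionRing A) b)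
      (algebraMap A (FractionRing A) c) (algebraMap A (FractionRing A) d) := by
  intro v hv
  have hi := IsFractionRing.injective A (FractionRing A)
  obtain ⟨s, x, hs, hx⟩ := RNQ_den v
  have hs' : algebraMap A (FractionRing A) s ≠ 0 := fun h => hs (hi (by rw [h, map_zero]))
  have h1 : dg (alc a b c d) x x = 0 := by
    apply hi
    rw [RNQ_alc, map_zero, ← RNQ_alb]
    rw [show (fun i => algebraMap A (FractionRing A) (x i)) =
      fun i => algebraMap A (FractionRing A) s * v i from funext hx]
    unfold alb at hv ⊢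
    calc _ = ∑ i, algebraMap A (FractionRing A) s ^ 2 * (albC (algebraMap A (FractionRing A) a)
          (algebraMap A (FractionRing A) b) (algebraMap A (FractionRing A) c)
          (algebraMap A (FractionRing A) d) i * v i ^ 2) :=
          Finset.sum_congr rfl fun i _ => by ring
      _ = 0 := by rw [← Finset.mul_sum, hv, mul_zero]
  have h2 := h x h1
  funext i
  have h3 := hx i
  rw [h2, Pi.zero_apply, map_zero] at h3
  exact (mul_eq_zero.1 h3.symm).resolve_left hs'

end Pool.Agent.Q4
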