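import Pool.Agent.Q4.StA

/-!
# Q4, SIM: multipliers of similitudes of Albert forms are norms (helper9)
-/

set_option autoImplicit false

namespace Pool.Agent.Q4

open Quaternion TensorProduct Function

section

variable {K : Type} [Field K] (a b c d : K)

private theorem SIM_single (i : Fin 6) (x : K) :
    alb a b c d (Pi.single i x) = albC a b c d i * x ^ 2 := by
  unfold alb
  rw [Finset.sum_eq_single i]
  · rw [Pi.single_eq_same]
  · intro j _ hj
    rw [Pi.single_eq_of_ne hj]
    ring
  · intro h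
    exact absurd (Finset.mem_univ i) h

private theorem SIM_add (i j : Fin 6) (hij : i ≠ j) :
    alb a b c d (Pi.single i 1 + Pi.single j 1) =
      alb a b c d (Pi.single i 1) + alb a b c d (Pi.single j 1) := by
  unfold alb
  rw [← Finset.sum_add_distrib]
  refine Finset.sum_congr rfl fun k _ => ?_
  rw [Pi.add_apply]
  by_cases h1 : k = i
  · have h2 : k ≠ j := fun h => hij (h1.symm.trans h)
    rw [h1, Pi.single_eq_same, Pi.single_eq_of_ne (h1 ▸ h2)]
    ring
  · rw [Pi.single_eq_of_ne h1]
    ring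

private theorem SIM_C (h : Anis a b c d) (i : Fin 6) : albC a b c d i ≠ 0 := by
  intro h0
  have h1 := h (Pi.single i 1) (by rw [SIM_single, h0, zero_mul])
  have h2 := congrFun h1 i
  rw [Pi.single_eq_same] at h2
  exact one_ne_zero h2

private theorem SIM_fin : Module.finrank K (BQ K a b c d) = 16 := by
  rw [Module.finrank_tensorProduct, QuaternionAlgebra.finrank_eq_four,
    QuaternionAlgebra.finrank_eq_four]

end

theorem thm_SIM (h1 : St_SIM2) (h2 : St_NZD) (h3 : St_CON) : St_SIM := by
  intro K _ a b c d f T hK hf hA hT hx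
  have hz := h2 K a b c d hK hA
  have ha : a ≠ 0 := SIM_C a b c d hA 0
  have hb : b ≠ 0 := SIM_C a b c d hA 1
  have hc : c ≠ 0 := neg_ne_zero.1 (SIM_C a b c d hA 3)
  have hd : d ≠ 0 := neg_ne_zero.1 (SIM_C a b c d hA 4)
  obtain ⟨c1, c2, c3, ⟨σ, s1, s2, s3, s4⟩, c5⟩ := h3 K a b c d hK ha hb hc hd
  have c6 := c5 hz
  have hfin := SIM_fin a b c d
  have : Nontrivial (BQ K a b c d) := by
    refine Module.nontrivial_of_finrank_pos (R := K) ?_
    rw [hfin]
    norm_num
  have : NoZeroDivisors (BQ K a b c d) := ⟨fun {x y} h => hz x y h⟩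
  have : FiniteDimensional K (BQ K a b c d) := Module.finite_of_finrank_pos (by
    rw [hfin]
    norm_num)
  have hinj : Function.Injective T := by
    rw [← LinearMap.ker_eq_bot, LinearMap.ker_eq_bot']
    intro v hv
    refine hA v ?_
    have h := hT v
    rw [hv] at h
    have h0 : alb a b c d 0 = 0 := by
      unfold alb
      refine Finset.sum_eq_zero fun k _ => ?_
      rw [Pi.zero_apply]
      ring
    rw [h0] at h
    rcases mul_eq_zero.1 h.symm with h | h
    · exact absurd h hf
    · exact h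
  have hsurj : Function.Surjective T := LinearMap.injective_iff_surjective.1 hinj
  have hsp1 : Submodule.span K (Set.range fun i : Fin 6 => (Pi.single i 1 : Fin 6 → K)) = ⊤ := by
    have h := (Pi.basisFun K (Fin 6)).span_eq
    have e : (Pi.basisFun K (Fin 6) : Fin 6 → Fin 6 → K) =
        fun i : Fin 6 => (Pi.single i 1 : Fin 6 → K) := funext fun i => Pi.basisFun_apply K _ i
    rwa [e] at h
  have hsp2 : Submodule.span K (Set.range fun i : Fin 6 => T (Pi.single i 1)) = ⊤ := by
    have e : (Set.range fun i : Fin 6 => T (Pi.single i 1)) =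
        T '' (Set.range fun i : Fin 6 => (Pi.single i 1 : Fin 6 → K)) := by
      rw [← Set.range_comp]
      rfl
    rw [e, ← Submodule.map_span, hsp1, Submodule.map_top, LinearMap.range_eq_top]
    exact hsurj
  have d1 := c3 (fun i => Pi.single i 1) hsp1 fun i j hij => SIM_add a b c d i j hij
  have d2 := c3 (fun i => T (Pi.single i 1)) hsp2 fun i j hij => by
    rw [← map_add, hT, hT, hT, SIM_add a b c d i j hij, mul_add]
  have e2 : (fun i : Fin 6 => alb a b c d (T (Pi.single i 1))) =
      fun i => f * alb a b c d (Pi.single i 1) := funext fun i => hT _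
  rw [e2] at d2
  have hq : ∀ i : Fin 6, alb a b c d (Pi.single i 1) ≠ 0 := by
    intro i
    rw [SIM_single, one_pow, mul_one]
    exact SIM_C a b c d hA i
  obtain ⟨g, c0, hg, hc0, hN⟩ := h1 K (BQ K a b c d) (fun i => alb a b c d (Pi.single i 1)) f
    (fun i => wv a b c d (Pi.single i 1)) (fun i => pv a b c d (Pi.single i 1))
    (fun i => wv a b c d (T (Pi.single i 1))) (fun i => pv a b c d (T (Pi.single i 1))) σ hfin hq hf
    d1 d2 s1 s2 (fun i => s3 _) (fun i => s4 _) (fun i => s3 _) (fun i => s4 _) (c6 _) (c6 _)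
  -- the represented quotients
  obtain ⟨v, v', hv, hvv⟩ := hx c0
  have h0 : alb a b c d 0 = 0 := by
    unfold alb
    refine Finset.sum_eq_zero fun k _ => ?_
    rw [Pi.zero_apply]
    ring
  have hv1 : alb a b c d v' ≠ 0 := by
    intro h
    have h5 : v' = 0 := hA v' h
    rw [h, mul_zero] at hvv
    rcases hv with h6 | h6
    · exact h6 (hA v hvv)
    · exact h6 h5
  have hv0 : alb a b c d v ≠ 0 := by
    rw [hvv]
    exact mul_ne_zero hc0 hv1
  -- norms
  have hNa : ∀ x : K, Algebra.norm K (algebraMap K (BQ K a b c d) x) = x ^ 16 := by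
    intro x
    rw [Algebra.norm_algebraMap, hfin]
  have hNw : ∀ v, Algebra.norm K (wv a b c d v) ^ 2 = alb a b c d v ^ 16 := by
    intro v
    rw [pow_two]
    nth_rw 2 [c6 v]
    rw [← map_mul, c1, hNa]
  set y : BQ K a b c d := wv a b c d v * pv a b c d v' with hy
  have hNy : Algebra.norm K y ^ 2 = c0 ^ 16 * alb a b c d v' ^ 32 := by
    rw [hy, map_mul, mul_pow, hNw, ← c6 v', hNw, hvv]
    ring
  have hy0 : y ≠ 0 := by
    intro h
    rw [h, Algebra.norm_zero] at hNy
    have h5 : c0 ^ 16 * alb a b c d v' ^ 32 ≠ 0 := mul_ne_zero (pow_ne_zero _ hc0) (pow_ne_zero _ hv1)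
    exact h5 (hNy.symm.trans (by norm_num))
  obtain ⟨y', hy'⟩ : ∃ y' : BQ K a b c d, y * y' = 1 := by
    have h5 : Function.Injective (LinearMap.mulLeft K y) := by
      rw [← LinearMap.ker_eq_bot, LinearMap.ker_eq_bot']
      intro z hz'
      rcases hz y z hz' with h | h
      · exact absurd h hy0
      · exact h
    obtain ⟨y', hy'⟩ := (LinearMap.injective_iff_surjective.1 h5) 1
    exact ⟨y', hy'⟩
  have hNN : Algebra.norm K y * Algebra.norm K y' = 1 := by
    rw [← map_mul, hy', map_one]
  have hy'0 : y' ≠ 0 := by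
    intro h
    rw [h, mul_zero] at hy'
    exact zero_ne_one hy'
  refine ⟨algebraMap K (BQ K a b c d) (alb a b c d v') * (g * y'), ?_, ?_⟩
  · refine mul_ne_zero (fun h => ?_) (mul_ne_zero hg hy'0)
    have h5 := hNa (alb a b c d v')
    rw [h, Algebra.norm_zero] at h5
    exact pow_ne_zero 16 hv1 h5.symm
  · rw [map_mul, map_mul, hNa, mul_pow, mul_pow, hN]
    have h5 : (Algebra.norm K y ^ 2) ^ 2 * Algebra.norm K y' ^ 4 = 1 := by
      have h6 : (Algebra.norm K y ^ 2) ^ 2 * Algebra.norm K y' ^ 4 =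
        (Algebra.norm K y * Algebra.norm K y') ^ 4 := by ring
      rw [h6, hNN, one_pow]
    rw [hNy] at h5
    have h7 : (alb a b c d v' ^ 16) ^ 4 * (f ^ 16 * c0 ^ 32 * Algebra.norm K y' ^ 4) =
      f ^ 16 * ((c0 ^ 16 * alb a b c d v' ^ 32) ^ 2 * Algebra.norm K y' ^ 4) := by ring
    rw [h7, h5, mul_one]

end Pool.Agent.Q4
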