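import Pool.Agent.Q4.StA

set_option autoImplicit false

namespace Pool.Agent.Q4

open Function

section SIM1
variable {K D : Type} [Field K] [Ring D] [Algebra K D]

/-- the element `f⁻¹ W_0 P_i` -/
def SIM1_u (f : K) (W P : Fin 6 → D) (i : Fin 5) : D := f⁻¹ • (W 0 * P i.succ)

theorem SIM1_mul {q : Fin 6 → K} {f : K} {W P : Fin 6 → D} (hf : f ≠ 0)
    (hA : ADat K D (fun i => f * q i) W P) (i j : Fin 5) :
    SIM1_u f W P i * SIM1_u f W P j = -((f⁻¹ * q 0) • (W i.succ * P j.succ)) := by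
  unfold SIM1_u
  have h1 : P i.succ * W 0 = -(P 0 * W i.succ) := hA.pw _ _ (Fin.succ_ne_zero i)
  have h2 : W 0 * P 0 = algebraMap K D (f * q 0) := hA.wpd 0
  have h3 : W 0 * P i.succ * (W 0 * P j.succ) = -((f * q 0) • (W i.succ * P j.succ)) := by
    calc W 0 * P i.succ * (W 0 * P j.succ) = W 0 * (P i.succ * W 0) * P j.succ := by
          noncomm_ring
      _ = -((W 0 * P 0) * (W i.succ * P j.succ)) := by rw [h1]; noncomm_ring
      _ = _ := by rw [h2, Algebra.smul_def]
  rw [smul_mul_smul_comm, h3, smul_neg, smul_smul]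
  congr 2
  field_simp

theorem SIM1_sq {q : Fin 6 → K} {f : K} {W P : Fin 6 → D} (hf : f ≠ 0)
    (hA : ADat K D (fun i => f * q i) W P) (i : Fin 5) :
    SIM1_u f W P i * SIM1_u f W P i = algebraMap K D (-(q 0 * q i.succ)) := by
  rw [SIM1_mul hf hA, hA.wpd i.succ, Algebra.smul_def, ← map_mul, ← map_neg]
  congr 1
  field_simp

theorem SIM1_anti {q : Fin 6 → K} {f : K} {W P : Fin 6 → D} (hf : f ≠ 0)
    (hA : ADat K D (fun i => f * q i) W P) (i j : Fin 5) (hij : i ≠ j) :
    SIM1_u f W P i * SIM1_u f W P j = -(SIM1_u f W P j * SIM1_u f W P i) := by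
  rw [SIM1_mul hf hA, SIM1_mul hf hA, hA.wp i.succ j.succ (fun h => hij (Fin.succ_injective _ h)),
    smul_neg]

theorem SIM1_cen {q : Fin 6 → K} {f : K} {W P : Fin 6 → D} (hf : f ≠ 0) (hq : q 0 ≠ 0)
    (hA : ADat K D (fun i => f * q i) W P) (z : D)
    (hz : ∀ i, z * SIM1_u f W P i = SIM1_u f W P i * z) : ∃ k : K, z = algebraMap K D k := by
  apply hA.cen
  have hu : ∀ j : Fin 5, W 0 * P j.succ = f • SIM1_u f W P j := by
    intro j
    unfold SIM1_u
    rw [smul_smul, mul_inv_cancel₀ hf, one_smul]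
  have hz0 : ∀ j : Fin 5, z * (W 0 * P j.succ) = W 0 * P j.succ * z := by
    intro j
    rw [hu, mul_smul_comm, smul_mul_assoc, hz]
  intro i j
  refine Fin.cases ?_ (fun i => ?_) i
  · refine Fin.cases ?_ (fun j => ?_) j
    · rw [hA.wpd 0]
      exact (Algebra.commutes _ _).symm
    · exact hz0 j
  · refine Fin.cases ?_ (fun j => ?_) j
    · rw [hA.wp i.succ 0 (Fin.succ_ne_zero i), mul_neg, neg_mul, hz0]
    · have h1 : W i.succ * P j.succ
          = -((f⁻¹ * q 0)⁻¹ • (SIM1_u f W P i * SIM1_u f W P j)) := by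
        rw [SIM1_mul hf hA, smul_neg, neg_neg, smul_smul, inv_mul_cancel₀, one_smul]
        exact mul_ne_zero (inv_ne_zero hf) hq
      rw [h1, mul_neg, neg_mul, mul_smul_comm, smul_mul_assoc]
      congr 2
      calc z * (SIM1_u f W P i * SIM1_u f W P j)
          = (z * SIM1_u f W P i) * SIM1_u f W P j := by noncomm_ring
        _ = SIM1_u f W P i * (z * SIM1_u f W P j) := by rw [hz]; noncomm_ring
        _ = _ := by rw [hz]; noncomm_ring

theorem SIM1_L1 {x a b : D} (h1 : x * a = -(a * x)) (h2 : x * b = -(b * x)) :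
    x * (a * b) = a * b * x := by
  calc x * (a * b) = (x * a) * b := by noncomm_ring
    _ = -(a * (x * b)) := by rw [h1]; noncomm_ring
    _ = _ := by rw [h2]; noncomm_ring

theorem SIM1_L2 {x p r : D} (h1 : x * p = -(p * x)) (h2 : x * r = r * x) :
    x * (p * r) = -(p * r * x) := by
  calc x * (p * r) = (x * p) * r := by noncomm_ring
    _ = -(p * (x * r)) := by rw [h1]; noncomm_ring
    _ = _ := by rw [h2]; noncomm_ring

theorem SIM1_L3 {x p r : D} (h1 : x * p = p * x) (h2 : x * r = -(r * x)) :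
    x * (p * r) = -(p * r * x) := by
  calc x * (p * r) = (x * p) * r := by noncomm_ring
    _ = p * (x * r) := by rw [h1]; noncomm_ring
    _ = _ := by rw [h2]; noncomm_ring

theorem SIM1_L4 {x p r : D} (h1 : x * p = p * x) (h2 : x * r = r * x) :
    x * (p * r) = p * r * x := by
  calc x * (p * r) = (x * p) * r := by noncomm_ring
    _ = p * (x * r) := by rw [h1]; noncomm_ring
    _ = _ := by rw [h2]; noncomm_ring

/-- five anticommuting elements -/
theorem SIM1_five (x : Fin 5 → K) (u : Fin 5 → D) (hs : ∀ i, u i * u i = algebraMap K D (x i))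
    (ha : ∀ i j, i ≠ j → u i * u j = -(u j * u i)) :
    (∀ i, (u 4 * (u 0 * u 1 * (u 2 * u 3))) * u i = u i * (u 4 * (u 0 * u 1 * (u 2 * u 3)))) ∧
    (u 0 * u 1 * (u 2 * u 3)) * (u 0 * u 1 * (u 2 * u 3))
      = algebraMap K D (x 0 * x 1 * (x 2 * x 3)) ∧
    (u 4 * (u 0 * u 1 * (u 2 * u 3))) * (u 4 * (u 0 * u 1 * (u 2 * u 3)))
      = algebraMap K D (x 4 * (x 0 * x 1 * (x 2 * x 3))) := by
  have a01 := ha 0 1 (by decide)
  have a10 := ha 1 0 (by decide)
  have a02 := ha 0 2 (by decide)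
  have a03 := ha 0 3 (by decide)
  have a12 := ha 1 2 (by decide)
  have a13 := ha 1 3 (by decide)
  have a20 := ha 2 0 (by decide)
  have a21 := ha 2 1 (by decide)
  have a23 := ha 2 3 (by decide)
  have a30 := ha 3 0 (by decide)
  have a31 := ha 3 1 (by decide)
  have a32 := ha 3 2 (by decide)
  have a04 := ha 0 4 (by decide)
  have a14 := ha 1 4 (by decide)
  have a24 := ha 2 4 (by decide)
  have a34 := ha 3 4 (by decide)
  have a40 := ha 4 0 (by decide)
  have a41 := ha 4 1 (by decide)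
  have a42 := ha 4 2 (by decide)
  have a43 := ha 4 3 (by decide)
  -- commutation with the products of two
  have c0r : u 0 * (u 2 * u 3) = u 2 * u 3 * u 0 := SIM1_L1 a02 a03
  have c1r : u 1 * (u 2 * u 3) = u 2 * u 3 * u 1 := SIM1_L1 a12 a13
  have c2p : u 2 * (u 0 * u 1) = u 0 * u 1 * u 2 := SIM1_L1 a20 a21
  have c3p : u 3 * (u 0 * u 1) = u 0 * u 1 * u 3 := SIM1_L1 a30 a31
  have c4p : u 4 * (u 0 * u 1) = u 0 * u 1 * u 4 := SIM1_L1 a40 a41
  have c4r : u 4 * (u 2 * u 3) = u 2 * u 3 * u 4 := SIM1_L1 a42 a43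
  have n0p : u 0 * (u 0 * u 1) = -(u 0 * u 1 * u 0) := by
    calc u 0 * (u 0 * u 1) = u 0 * (-(u 1 * u 0)) := by rw [← a01]
      _ = _ := by noncomm_ring
  have n1p : u 1 * (u 0 * u 1) = -(u 0 * u 1 * u 1) := by
    calc u 1 * (u 0 * u 1) = (u 1 * u 0) * u 1 := by noncomm_ring
      _ = _ := by rw [a10]; noncomm_ring
  have n2r : u 2 * (u 2 * u 3) = -(u 2 * u 3 * u 2) := by
    calc u 2 * (u 2 * u 3) = u 2 * (-(u 3 * u 2)) := by rw [← a23]
      _ = _ := by noncomm_ring
  have n3r : u 3 * (u 2 * u 3) = -(u 2 * u 3 * u 3) := by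
    calc u 3 * (u 2 * u 3) = (u 3 * u 2) * u 3 := by noncomm_ring
      _ = _ := by rw [a32]; noncomm_ring
  have m0 : u 0 * (u 0 * u 1 * (u 2 * u 3)) = -(u 0 * u 1 * (u 2 * u 3) * u 0) := SIM1_L2 n0p c0r
  have m1 : u 1 * (u 0 * u 1 * (u 2 * u 3)) = -(u 0 * u 1 * (u 2 * u 3) * u 1) := SIM1_L2 n1p c1r
  have m2 : u 2 * (u 0 * u 1 * (u 2 * u 3)) = -(u 0 * u 1 * (u 2 * u 3) * u 2) := SIM1_L3 c2p n2r
  have m3 : u 3 * (u 0 * u 1 * (u 2 * u 3)) = -(u 0 * u 1 * (u 2 * u 3) * u 3) := SIM1_L3 c3p n3r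
  have m4 : u 4 * (u 0 * u 1 * (u 2 * u 3)) = u 0 * u 1 * (u 2 * u 3) * u 4 := SIM1_L4 c4p c4r
  have cm : ∀ i, u i * (u 4 * (u 0 * u 1 * (u 2 * u 3)))
      = u 4 * (u 0 * u 1 * (u 2 * u 3)) * u i := by
    intro i
    fin_cases i
    · exact SIM1_L1 a04 m0
    · exact SIM1_L1 a14 m1
    · exact SIM1_L1 a24 m2
    · exact SIM1_L1 a34 m3
    · exact SIM1_L4 rfl m4
  have prr : (u 0 * u 1) * (u 2 * u 3) = (u 2 * u 3) * (u 0 * u 1) := by
    calc (u 0 * u 1) * (u 2 * u 3) = u 0 * (u 1 * (u 2 * u 3)) := by noncomm_ring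
      _ = u 0 * (u 2 * u 3) * u 1 := by rw [c1r]; noncomm_ring
      _ = _ := by rw [c0r]; noncomm_ring
  have p2 : (u 0 * u 1) * (u 0 * u 1) = algebraMap K D (-(x 0 * x 1)) := by
    calc (u 0 * u 1) * (u 0 * u 1) = -((u 0 * u 0) * (u 1 * u 1)) := by
          rw [show (u 0 * u 1) * (u 0 * u 1) = u 0 * (u 1 * (u 0 * u 1)) by noncomm_ring, n1p]
          noncomm_ring
      _ = _ := by rw [hs, hs, ← map_mul, ← map_neg]
  have r2 : (u 2 * u 3) * (u 2 * u 3) = algebraMap K D (-(x 2 * x 3)) := by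
    calc (u 2 * u 3) * (u 2 * u 3) = -((u 2 * u 2) * (u 3 * u 3)) := by
          rw [show (u 2 * u 3) * (u 2 * u 3) = u 2 * (u 3 * (u 2 * u 3)) by noncomm_ring, n3r]
          noncomm_ring
      _ = _ := by rw [hs, hs, ← map_mul, ← map_neg]
  have mm : (u 0 * u 1 * (u 2 * u 3)) * (u 0 * u 1 * (u 2 * u 3))
      = algebraMap K D (x 0 * x 1 * (x 2 * x 3)) := by
    calc (u 0 * u 1 * (u 2 * u 3)) * (u 0 * u 1 * (u 2 * u 3))
        = (u 0 * u 1) * ((u 2 * u 3) * (u 0 * u 1)) * (u 2 * u 3) := by noncomm_ring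
      _ = ((u 0 * u 1) * (u 0 * u 1)) * ((u 2 * u 3) * (u 2 * u 3)) := by
          rw [← prr]; noncomm_ring
      _ = _ := by
          rw [p2, r2, ← map_mul]
          congr 1
          ring
  refine ⟨fun i => (cm i).symm, mm, ?_⟩
  calc (u 4 * (u 0 * u 1 * (u 2 * u 3))) * (u 4 * (u 0 * u 1 * (u 2 * u 3)))
      = u 4 * ((u 0 * u 1 * (u 2 * u 3)) * u 4) * (u 0 * u 1 * (u 2 * u 3)) := by noncomm_ring
    _ = (u 4 * u 4) * ((u 0 * u 1 * (u 2 * u 3)) * (u 0 * u 1 * (u 2 * u 3))) := by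
        rw [← m4]; noncomm_ring
    _ = _ := by rw [mm, hs, ← map_mul]

end SIM1

theorem thm_SIM1 (hAV : St_AV) : St_SIM1 := by
  intro K D _ _ _ _ _ q f W P W' P' hq hf hA hA'
  have hA1 : ADat K D (fun i => 1 * q i) W P := by simpa only [one_mul] using hA
  have inj : Injective (algebraMap K D) := FaithfulSMul.algebraMap_injective K D
  set u := SIM1_u (1 : K) W P with hu
  set u' := SIM1_u f W' P' with hu'
  have one0 : (1 : K) ≠ 0 := one_ne_zero
  have hs := SIM1_sq one0 hA1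
  have hs' := SIM1_sq hf hA'
  have ha := SIM1_anti one0 hA1
  have ha' := SIM1_anti hf hA'
  rw [← hu] at hs ha
  rw [← hu'] at hs' ha'
  let x : Fin 5 → K := fun i => -(q 0 * q i.succ)
  have hx : ∀ i, x i ≠ 0 := fun i => neg_ne_zero.mpr (mul_ne_zero (hq 0) (hq i.succ))
  obtain ⟨g, hg0, hg⟩ := hAV K D (fun i => x i.castSucc) (fun i => u i.castSucc)
    (fun i => u' i.castSucc) (fun i => hx _) (fun i => hs _) (fun i => hs' _)
    (fun i j hij => ha _ _ fun h => hij (Fin.castSucc_injective _ h))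
    (fun i j hij => ha' _ _ fun h => hij (Fin.castSucc_injective _ h))
  have g0 : u' 0 * g = g * u 0 := hg 0
  have g1 : u' 1 * g = g * u 1 := hg 1
  have g2 : u' 2 * g = g * u 2 := hg 2
  have g3 : u' 3 * g = g * u 3 := hg 3
  obtain ⟨c1, c2, c3⟩ := SIM1_five x u hs ha
  obtain ⟨c1', c2', c3'⟩ := SIM1_five x u' hs' ha'
  obtain ⟨κ, hκ⟩ := SIM1_cen one0 (hq 0) hA1 _ c1
  obtain ⟨κ', hκ'⟩ := SIM1_cen hf (hq 0) hA' _ c1'
  set m := u 0 * u 1 * (u 2 * u 3) with hm
  set m' := u' 0 * u' 1 * (u' 2 * u' 3) with hm'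
  have hmg : m' * g = g * m := by
    calc m' * g = u' 0 * (u' 1 * (u' 2 * (u' 3 * g))) := by rw [hm']; noncomm_ring
      _ = u' 0 * (u' 1 * ((u' 2 * g) * u 3)) := by rw [g3]; noncomm_ring
      _ = u' 0 * ((u' 1 * g) * (u 2 * u 3)) := by rw [g2]; noncomm_ring
      _ = (u' 0 * g) * (u 1 * (u 2 * u 3)) := by rw [g1]; noncomm_ring
      _ = g * m := by rw [g0, hm]; noncomm_ring
  have hX : x 4 * (x 0 * x 1 * (x 2 * x 3)) ≠ 0 :=
    mul_ne_zero (hx _) (mul_ne_zero (mul_ne_zero (hx _) (hx _)) (mul_ne_zero (hx _) (hx _)))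
  have k2 : κ * κ = x 4 * (x 0 * x 1 * (x 2 * x 3)) := by
    apply inj
    rw [map_mul, ← hκ, c3]
  have k2' : κ' * κ' = x 4 * (x 0 * x 1 * (x 2 * x 3)) := by
    apply inj
    rw [map_mul, ← hκ', c3']
  have kk : κ = κ' ∨ κ = -κ' := by
    have : (κ - κ') * (κ + κ') = 0 := by linear_combination k2 - k2'
    rcases mul_eq_zero.mp this with h | h
    · left; exact sub_eq_zero.mp h
    · right; exact eq_neg_of_add_eq_zero_left h
  obtain ⟨e, he, heκ⟩ : ∃ e : K, (e = 1 ∨ e = -1) ∧ e * κ' = κ := by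
    rcases kk with h | h
    · exact ⟨1, Or.inl rfl, by rw [h, one_mul]⟩
    · exact ⟨-1, Or.inr rfl, by rw [h]; ring⟩
  have hm0 : m ≠ 0 := by
    intro h0
    rw [h0, mul_zero] at c2
    exact mul_ne_zero (mul_ne_zero (hx 0) (hx 1)) (mul_ne_zero (hx 2) (hx 3))
      (inj (by rw [← c2, map_zero]))
  have g4 : e • (u' 4 * g) = g * u 4 := by
    have h1 : (e • (u' 4 * g) - g * u 4) * m = 0 := by
      calc (e • (u' 4 * g) - g * u 4) * m = e • (u' 4 * (g * m)) - g * (u 4 * m) := by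
            rw [sub_mul, smul_mul_assoc]
            noncomm_ring
        _ = e • ((u' 4 * m') * g) - g * (u 4 * m) := by
            rw [← hmg, mul_assoc (u' 4) m' g]
        _ = 0 := by
            rw [hκ, hκ', ← Algebra.commutes κ g, ← Algebra.smul_def, ← Algebra.smul_def, smul_smul,
              heκ, sub_self]
    rcases mul_eq_zero.mp h1 with h2 | h2
    · exact sub_eq_zero.mp h2
    · exact absurd h2 hm0
  -- the signs
  let ε : Fin 6 → K := fun i => if i = 5 then e else 1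
  have hε : ∀ i, ε i = 1 ∨ ε i = -1 := by
    intro i
    by_cases h : i = 5
    · simp only [ε, h, if_true]; exact he
    · simp only [ε, if_neg h, true_or]
  have hε2 : ∀ i, ε i * ε i = 1 := by
    intro i
    rcases hε i with h | h <;> rw [h] <;> ring
  have gu : ∀ j : Fin 5, ε j.succ • (u' j * g) = g * u j := by
    intro j
    fin_cases j
    · have : ε (Fin.succ (0 : Fin 5)) = 1 := if_neg (by decide)
      exact (by rw [this, one_smul, g0] : ε (Fin.succ (0 : Fin 5)) • (u' 0 * g) = g * u 0)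
    · have : ε (Fin.succ (1 : Fin 5)) = 1 := if_neg (by decide)
      exact (by rw [this, one_smul, g1] : ε (Fin.succ (1 : Fin 5)) • (u' 1 * g) = g * u 1)
    · have : ε (Fin.succ (2 : Fin 5)) = 1 := if_neg (by decide)
      exact (by rw [this, one_smul, g2] : ε (Fin.succ (2 : Fin 5)) • (u' 2 * g) = g * u 2)
    · have : ε (Fin.succ (3 : Fin 5)) = 1 := if_neg (by decide)
      exact (by rw [this, one_smul, g3] : ε (Fin.succ (3 : Fin 5)) • (u' 3 * g) = g * u 3)
    · have : ε (Fin.succ (4 : Fin 5)) = e := if_pos (by decide)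
      exact (by rw [this, g4] : ε (Fin.succ (4 : Fin 5)) • (u' 4 * g) = g * u 4)
  have hfq : f * q 0 ≠ 0 := mul_ne_zero hf (hq 0)
  let h : D := (f * q 0)⁻¹ • (P' 0 * g * W 0)
  have wh : W' 0 * h = g * W 0 := by
    simp only [h]
    rw [mul_smul_comm, show W' 0 * (P' 0 * g * W 0) = (W' 0 * P' 0) * (g * W 0) by noncomm_ring,
      hA'.wpd 0, ← Algebra.smul_def, smul_smul, inv_mul_cancel₀ hfq, one_smul]
  have hW'0 : W' 0 ≠ 0 := by
    intro h0
    have h1 := hA'.wpd 0
    rw [h0, zero_mul] at h1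
    exact hfq (inj (by rw [← h1, map_zero]))
  have hP : ∀ i, (ε i • P' i) * g = f • (h * P i) := by
    intro i
    refine Fin.cases ?_ (fun j => ?_) i
    · have : ε 0 = 1 := if_neg (by decide)
      rw [this, one_smul]
      simp only [h]
      rw [smul_mul_assoc, show P' 0 * g * W 0 * P 0 = P' 0 * g * (W 0 * P 0) by noncomm_ring,
        hA.wpd 0, ← Algebra.commutes (q 0), ← Algebra.smul_def, smul_smul, smul_smul]
      have : f * (f * q 0)⁻¹ * q 0 = 1 := by
        have h1 := hf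
        have h2 := hq 0
        field_simp
      rw [this, one_smul]
    · have h1 : W' 0 * ((ε j.succ • P' j.succ) * g - f • (h * P j.succ)) = 0 := by
        have e1 : W' 0 * P' j.succ = f • u' j := by
          rw [hu']
          unfold SIM1_u
          rw [smul_smul, mul_inv_cancel₀ hf, one_smul]
        have e2 : W 0 * P j.succ = u j := by
          rw [hu]
          unfold SIM1_u
          rw [inv_one, one_smul]
        have e3 : W' 0 * ((ε j.succ • P' j.succ) * g) = f • (g * u j) := by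
          calc W' 0 * ((ε j.succ • P' j.succ) * g) = ε j.succ • ((W' 0 * P' j.succ) * g) := by
                rw [smul_mul_assoc, mul_smul_comm, mul_assoc]
            _ = f • (ε j.succ • (u' j * g)) := by
                rw [e1, smul_mul_assoc, smul_smul, smul_smul, mul_comm]
            _ = _ := by rw [gu]
        have e4 : W' 0 * (f • (h * P j.succ)) = f • (g * u j) := by
          calc W' 0 * (f • (h * P j.succ)) = f • ((W' 0 * h) * P j.succ) := by
                rw [mul_smul_comm, mul_assoc]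
            _ = f • (g * (W 0 * P j.succ)) := by rw [wh, mul_assoc]
            _ = _ := by rw [e2]
        rw [mul_sub, e3, e4, sub_self]
      rcases mul_eq_zero.mp h1 with h2 | h2
      · exact absurd h2 hW'0
      · exact sub_eq_zero.mp h2
  refine ⟨g, h, ε, hg0, hε, ?_, hP⟩
  intro i
  have hfi : f * q i ≠ 0 := mul_ne_zero hf (hq i)
  have h1 : W' i * ((ε i • P' i) * g) * W i = W' i * (f • (h * P i)) * W i := by rw [hP]
  have h2 : W' i * ((ε i • P' i) * g) * W i = (f * q i) • (ε i • (g * W i)) := by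
    calc W' i * ((ε i • P' i) * g) * W i = ε i • ((W' i * P' i) * (g * W i)) := by
          rw [smul_mul_assoc, mul_smul_comm, smul_mul_assoc]
          congr 1
          noncomm_ring
      _ = _ := by rw [hA'.wpd i, ← Algebra.smul_def, smul_smul, smul_smul, mul_comm]
  have h3 : W' i * (f • (h * P i)) * W i = (f * q i) • (W' i * h) := by
    calc W' i * (f • (h * P i)) * W i = f • ((W' i * h) * (P i * W i)) := by
          rw [mul_smul_comm, smul_mul_assoc]
          congr 1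
          noncomm_ring
      _ = _ := by rw [hA.pwd i, ← Algebra.commutes (q i), ← Algebra.smul_def, smul_smul]
  rw [h2, h3] at h1
  have h4 : ε i • (g * W i) = W' i * h := smul_right_injective D hfi h1
  rw [smul_mul_assoc, ← h4, smul_smul, hε2, one_smul]

end Pool.Agent.Q4
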