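import Pool.Agent.Q4.StA

/-!
# Q4, module SIM2: the norm identity for similitudes

Statement and proof: see `St_SIM2` in `Pool/Agent/Q4/StA.lean`.
-/

set_option autoImplicit false

namespace Pool.Agent.Q4

open Quaternion TensorProduct Function Polynomial

theorem SIM2_norm_sigma (hLR : St_LR) {K D : Type} [Field K] [Ring D] [Algebra K D] [Nontrivial D]
    [NoZeroDivisors D] [FiniteDimensional K D] (σ : D →ₗ[K] D)
    (h1 : ∀ x y, σ (x * y) = σ y * σ x) (h2 : ∀ x, σ (σ x) = x) (x : D) :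
    Algebra.norm K (σ x) = Algebra.norm K x := by
  let e : D ≃ₗ[K] D := LinearEquiv.ofInvolutive σ h2
  have h3 : Algebra.lmul K D (σ x) = (e : D →ₗ[K] D) ∘ₗ LinearMap.mulRight K x ∘ₗ
      (e.symm : D →ₗ[K] D) := by
    refine LinearMap.ext fun y => ?_
    show σ x * y = σ (σ y * x)
    rw [h1, h2]
  rw [Algebra.norm_apply, Algebra.norm_apply, h3, LinearMap.det_conj, hLR K D x]
  rfl

theorem thm_SIM2 (h1 : St_SIM1) (h2 : St_LR) : St_SIM2 := by
  intro K D _ _ _ _ _ q f W P W' P' σ hfin hq hf hA hA' hσm hσσ hσW hσP hσW' hσP' hN hN'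
  have : FiniteDimensional K D := Module.finite_of_finrank_pos (by rw [hfin]; norm_num)
  obtain ⟨g, h, ε, hg, hε, hW, hP⟩ := h1 K D q f W P W' P' hq hf hA hA'
  -- the relations for `σ`
  have r1 : ∀ i, σ h * (ε i • W' i) = W i * σ g := by
    intro i
    have e1 := congrArg σ (hW i)
    rw [hσm, hσm, map_smul, hσW', hσW, smul_neg, mul_neg, neg_mul, neg_inj] at e1
    exact e1
  have r2 : ∀ i, σ g * (ε i • P' i) = f • (P i * σ h) := by
    intro i
    have e1 := congrArg σ (hP i)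
    rw [hσm, map_smul, map_smul, hσm, hσP', hσP, smul_neg, mul_neg, neg_mul, smul_neg,
      neg_inj] at e1
    exact e1
  have r3 : ∀ i, σ h * g * W i = W i * (σ g * h) := by
    intro i
    rw [mul_assoc, ← hW i, ← mul_assoc, r1, mul_assoc]
  have r4 : ∀ i, σ g * h * P i = P i * (σ h * g) := by
    intro i
    have e1 : f • (σ g * h * P i) = f • (P i * (σ h * g)) := by
      rw [mul_assoc, ← mul_smul_comm, ← hP i, ← mul_assoc, r2, smul_mul_assoc, mul_assoc]
    exact smul_right_injective D hf e1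
  obtain ⟨c, hc⟩ := hA.cen (σ h * g) (fun i j => by
    rw [← mul_assoc, r3, mul_assoc, r4, ← mul_assoc])
  have hW0 : W 0 ≠ 0 := by
    intro h0
    have e1 := hA.wpd 0
    rw [h0, zero_mul] at e1
    exact hq 0 ((algebraMap K D).injective (e1.symm.trans (map_zero _).symm))
  have hh : h ≠ 0 := by
    intro h0
    have e1 := hW 0
    rw [h0, mul_zero] at e1
    exact mul_ne_zero hg hW0 e1.symm
  have hσh : σ h ≠ 0 := by
    intro h0
    apply hh
    rw [← hσσ h, h0, map_zero]
  have hc0 : c ≠ 0 := by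
    intro h0
    rw [h0, map_zero] at hc
    exact mul_ne_zero hσh hg hc
  have hNk : ∀ k : K, Algebra.norm K (algebraMap K D k) = k ^ 16 := by
    intro k
    rw [Algebra.norm_algebraMap, hfin]
  have n1 : Algebra.norm K (W 0) ^ 2 = q 0 ^ 16 := by
    have e1 := congrArg (Algebra.norm K) (hA.wpd 0)
    rw [map_mul, hNk, ← hN] at e1
    rw [sq]
    exact e1
  have n2 : Algebra.norm K (W' 0) ^ 2 = (f * q 0) ^ 16 := by
    have e1 := congrArg (Algebra.norm K) (hA'.wpd 0)
    rw [map_mul, hNk, ← hN'] at e1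
    rw [sq]
    exact e1
  have n3 : Algebra.norm K (ε 0 • W' 0) = Algebra.norm K (W' 0) := by
    rw [Algebra.smul_def, map_mul, hNk]
    rcases hε 0 with h0 | h0
    · rw [h0, one_pow, one_mul]
    · rw [h0]
      norm_num
  have n4 : Algebra.norm K (W' 0) * Algebra.norm K h = Algebra.norm K g * Algebra.norm K (W 0) := by
    rw [← n3, ← map_mul, hW, map_mul]
  have n5 : Algebra.norm K h * Algebra.norm K g = c ^ 16 := by
    rw [← hNk, ← hc, map_mul, SIM2_norm_sigma h2 σ hσm hσσ]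
  have n6 : Algebra.norm K g ^ 2 = f ^ 16 * Algebra.norm K h ^ 2 := by
    have e1 : (Algebra.norm K (W' 0) * Algebra.norm K h) ^ 2 =
        (Algebra.norm K g * Algebra.norm K (W 0)) ^ 2 := by rw [n4]
    rw [mul_pow, mul_pow, n1, n2] at e1
    have e2 : q 0 ^ 16 ≠ 0 := pow_ne_zero _ (hq 0)
    apply mul_right_cancel₀ e2
    rw [← e1]
    ring
  refine ⟨g, c, hg, hc0, ?_⟩
  calc Algebra.norm K g ^ 4 = Algebra.norm K g ^ 2 * Algebra.norm K g ^ 2 := by ring
    _ = f ^ 16 * Algebra.norm K h ^ 2 * Algebra.norm K g ^ 2 :=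
      congrArg (fun x => x * Algebra.norm K g ^ 2) n6
    _ = f ^ 16 * (Algebra.norm K h * Algebra.norm K g) ^ 2 := by ring
    _ = f ^ 16 * (c ^ 16) ^ 2 := by rw [n5]
    _ = f ^ 16 * c ^ 32 := by ring

end Pool.Agent.Q4
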