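import Pool.Agent.Q4.StA2

/-! Q4, module SIMQ (helper12): simplicity of biquaternion orders modulo primes. -/

set_option autoImplicit false

namespace Pool.Agent.Q4

open Quaternion TensorProduct Function Pool.Agent.QTB QuaternionAlgebra

section

variable {A : Type} [CommRing A]

/-- the basis `1, i, j, k` -/
def SIMQ_u (a b : A) : Fin 4 → ℍ[A,a,b] :=
  ![⟨1, 0, 0, 0⟩, ⟨0, 1, 0, 0⟩, ⟨0, 0, 1, 0⟩, ⟨0, 0, 0, 1⟩]

/-- the squares of the basis elements -/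
def SIMQ_e (a b : A) : Fin 4 → A := ![1, a, b, -(a * b)]

theorem SIMQ_unit (a b : A) (ha : IsUnit a) (hb : IsUnit b) (s : Fin 4) :
    IsUnit (SIMQ_e a b s) := by
  fin_cases s
  · exact isUnit_one
  · exact ha
  · exact hb
  · exact (ha.mul hb).neg

theorem SIMQ_re (a b : A) (s : Fin 4) (x : ℍ[A,a,b]) :
    (SIMQ_u a b s * x).re = SIMQ_e a b s * (basisOneIJK a 0 b).repr x s := by
  rw [coe_basisOneIJK_repr]
  fin_cases s <;> simp [SIMQ_u, SIMQ_e, QuaternionAlgebra.re_mul]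

/-- the averaging operator -/
def SIMQ_T {D : Type} [Ring D] [Algebra A D] (a b : A) (I J w : D) : D :=
  (a * b) • w + a • (J * w * J) + b • (I * w * I) + I * J * w * (J * I)

theorem SIMQ_T_add {D : Type} [Ring D] [Algebra A D] (a b : A) (I J w w' : D) :
    SIMQ_T a b I J (w + w') = SIMQ_T a b I J w + SIMQ_T a b I J w' := by
  unfold SIMQ_T
  simp only [mul_add, add_mul, smul_add]
  abel

theorem SIMQ_T_zero {D : Type} [Ring D] [Algebra A D] (a b : A) (I J : D) :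
    SIMQ_T a b I J 0 = 0 := by
  unfold SIMQ_T
  simp

theorem SIMQ_T_kill {D : Type} [Ring D] [Algebra A D] (a b : A) (I J w : D) (N : Type)
    [AddCommGroup N] [Module D N] (hw : ∀ n : N, w • n = 0) (n : N) :
    SIMQ_T a b I J w • n = 0 := by
  unfold SIMQ_T
  rw [add_smul, add_smul, add_smul, Algebra.smul_def, Algebra.smul_def, Algebra.smul_def]
  simp only [mul_smul, hw, smul_zero, add_zero]

theorem SIMQ_av (a b : A) (x : ℍ[A,a,b]) :
    SIMQ_T a b (SIMQ_u a b 1) (SIMQ_u a b 2) x = (4 * (a * b) * x.re) • (1 : ℍ[A,a,b]) := by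
  unfold SIMQ_T SIMQ_u
  ext <;> simp <;> ring

variable (a b c d : A)

theorem SIMQ_T1 (x : ℍ[A,a,b]) (y : ℍ[A,c,d]) :
    SIMQ_T a b (SIMQ_u a b 1 ⊗ₜ[A] (1 : ℍ[A,c,d])) (SIMQ_u a b 2 ⊗ₜ[A] (1 : ℍ[A,c,d]))
      (x ⊗ₜ[A] y) = (SIMQ_T a b (SIMQ_u a b 1) (SIMQ_u a b 2) x) ⊗ₜ[A] y := by
  unfold SIMQ_T
  simp only [Algebra.TensorProduct.tmul_mul_tmul, one_mul, mul_one, TensorProduct.smul_tmul',
    TensorProduct.add_tmul]

theorem SIMQ_T2 (x : ℍ[A,a,b]) (y : ℍ[A,c,d]) :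
    SIMQ_T c d ((1 : ℍ[A,a,b]) ⊗ₜ[A] SIMQ_u c d 1) ((1 : ℍ[A,a,b]) ⊗ₜ[A] SIMQ_u c d 2)
      (x ⊗ₜ[A] y) = x ⊗ₜ[A] (SIMQ_T c d (SIMQ_u c d 1) (SIMQ_u c d 2) y) := by
  unfold SIMQ_T
  simp only [Algebra.TensorProduct.tmul_mul_tmul, one_mul, mul_one, ← TensorProduct.tmul_smul,
    TensorProduct.tmul_add]

theorem SIMQ_TT (w : Pool.Agent.QTB.BQ A a b c d) :
    SIMQ_T c d ((1 : ℍ[A,a,b]) ⊗ₜ[A] SIMQ_u c d 1) ((1 : ℍ[A,a,b]) ⊗ₜ[A] SIMQ_u c d 2)
      (SIMQ_T a b (SIMQ_u a b 1 ⊗ₜ[A] (1 : ℍ[A,c,d])) (SIMQ_u a b 2 ⊗ₜ[A] (1 : ℍ[A,c,d])) w) =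
    algebraMap A _ (4 * (a * b) * (4 * (c * d)) * (bas a b c d).repr w (0, 0)) := by
  induction w using TensorProduct.induction_on with
  | zero =>
    rw [SIMQ_T_zero, SIMQ_T_zero, map_zero, Finsupp.zero_apply, mul_zero, map_zero]
  | add w w' h h' =>
    rw [SIMQ_T_add, SIMQ_T_add, h, h', map_add, Finsupp.add_apply, mul_add, map_add]
  | tmul x y =>
    have h1 : (bas a b c d).repr (x ⊗ₜ[A] y) (0, 0) = x.re * y.re := by
      unfold bas
      rw [Module.Basis.tensorProduct_repr_tmul_apply, coe_basisOneIJK_repr, coe_basisOneIJK_repr]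
      show y.re • x.re = x.re * y.re
      rw [smul_eq_mul, mul_comm]
    rw [SIMQ_T1, SIMQ_av, SIMQ_T2, SIMQ_av, h1, Algebra.algebraMap_eq_smul_one,
      TensorProduct.tmul_smul, ← TensorProduct.smul_tmul', smul_smul]
    rw [Algebra.TensorProduct.one_def]
    congr 1
    ring

theorem SIMQ_coef (s t : Fin 4) (w : Pool.Agent.QTB.BQ A a b c d) :
    (bas a b c d).repr ((SIMQ_u a b s ⊗ₜ[A] SIMQ_u c d t) * w) (0, 0) =
      SIMQ_e a b s * SIMQ_e c d t * (bas a b c d).repr w (s, t) := by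
  induction w using TensorProduct.induction_on with
  | zero => rw [mul_zero, map_zero, Finsupp.zero_apply, Finsupp.zero_apply, mul_zero]
  | add w w' h h' =>
    rw [mul_add, map_add, Finsupp.add_apply, h, h', map_add, Finsupp.add_apply, mul_add]
  | tmul x y =>
    rw [Algebra.TensorProduct.tmul_mul_tmul]
    unfold bas
    rw [Module.Basis.tensorProduct_repr_tmul_apply, Module.Basis.tensorProduct_repr_tmul_apply]
    have h1 : (basisOneIJK a 0 b).repr (SIMQ_u a b s * x) 0 = (SIMQ_u a b s * x).re := rfl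
    have h2 : (basisOneIJK c 0 d).repr (SIMQ_u c d t * y) 0 = (SIMQ_u c d t * y).re := rfl
    rw [h1, h2, SIMQ_re, SIMQ_re, smul_eq_mul, smul_eq_mul]
    ring

end

theorem thm_SIMQ : St_SIMQ := by
  intro A _ _ a b c d q h2 ha hb hc hd _ z hz N _ _ hN
  obtain ⟨s, t, hst⟩ : ∃ s t : Fin 4, ¬ q ∣ (bas a b c d).repr z (s, t) := by
    by_contra hall
    push Not at hall
    choose f hf using fun m : Fin 4 × Fin 4 => hall m.1 m.2
    apply hz
    refine ⟨∑ m, f m • bas a b c d m, ?_⟩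
    have h1 := (bas a b c d).sum_repr z
    rw [← h1, Finset.mul_sum]
    refine Finset.sum_congr rfl fun m _ => ?_
    rw [← Algebra.smul_def, smul_smul, ← hf m]
  set m : Pool.Agent.QTB.BQ A a b c d := SIMQ_u a b s ⊗ₜ[A] SIMQ_u c d t with hm
  refine ⟨4 * (a * b) * (4 * (c * d)) * (bas a b c d).repr (m * z) (0, 0), ?_, ?_⟩
  · have h4 : IsUnit (4 : A) := by
      have : (4 : A) = 2 * 2 := by norm_num
      rw [this]
      exact h2.mul h2
    have hu : IsUnit (4 * (a * b) * (4 * (c * d)) * (SIMQ_e a b s * SIMQ_e c d t)) :=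
      ((h4.mul (ha.mul hb)).mul (h4.mul (hc.mul hd))).mul
        ((SIMQ_unit a b ha hb s).mul (SIMQ_unit c d hc hd t))
    rw [SIMQ_coef, ← mul_assoc, hu.dvd_mul_left]
    exact hst
  · intro n
    rw [← SIMQ_TT a b c d (m * z)]
    refine SIMQ_T_kill _ _ _ _ _ N (fun n => SIMQ_T_kill _ _ _ _ _ N (fun n => ?_) n) n
    rw [mul_smul, hN, smul_zero]

end Pool.Agent.Q4
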