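import Pool.Agent.Q4.StA2

/-!
# Q4, module SLOT: an isotropic Albert form gives a common slot
-/

set_option autoImplicit false

namespace Pool.Agent.Q4

open Quaternion TensorProduct Function Pool.Agent.QTB

/-- the square of a pure quaternion -/
theorem SLOT_sq {E : Type} [Field E] (a b p q r m : E)
    (h : a * p ^ 2 + b * q ^ 2 - a * b * r ^ 2 = m) :
    (⟨0, p, q, r⟩ : ℍ[E,a,b]) * ⟨0, p, q, r⟩ = algebraMap E _ m := by
  subst h
  ext
  · simp [QuaternionAlgebra.algebraMap_eq]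
    ring
  · simp [QuaternionAlgebra.algebraMap_eq]
    try ring
  · simp [QuaternionAlgebra.algebraMap_eq]
    try ring
  · simp [QuaternionAlgebra.algebraMap_eq]
    try ring

/-- anticommuting pure quaternions -/
theorem SLOT_ac {E : Type} [Field E] (a b p q r p' q' r' : E)
    (h : a * p * p' + b * q * q' - a * b * r * r' = 0) :
    (⟨0, p, q, r⟩ : ℍ[E,a,b]) * ⟨0, p', q', r'⟩ = -(⟨0, p', q', r'⟩ * ⟨0, p, q, r⟩) := by
  ext
  · simp
    linear_combination 2 * h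
  · simp
    try ring
  · simp
    try ring
  · simp
    try ring

/-- step (1) -/
theorem SLOT_one {E : Type} [Field E] (a b p q r m : E) (h2 : (2 : E) ≠ 0) (ha : a ≠ 0)
    (hb : b ≠ 0) (hm : m ≠ 0) (h : a * p ^ 2 + b * q ^ 2 - a * b * r ^ 2 = m) :
    ∃ (b' : E) (y : ℍ[E,a,b]), b' ≠ 0 ∧ y * y = algebraMap E _ b' ∧
      (⟨0, p, q, r⟩ : ℍ[E,a,b]) * y = -(y * ⟨0, p, q, r⟩) := by
  by_cases h1 : a * b * (b * q ^ 2 + a * p ^ 2) = 0
  · by_cases h3 : a * b * (a * r ^ 2 - q ^ 2) = 0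
    · by_cases h4 : a * b * (b * r ^ 2 - p ^ 2) = 0
      · exfalso
        have hab : a * b ≠ 0 := mul_ne_zero ha hb
        have e1 : b * q ^ 2 + a * p ^ 2 = 0 := (mul_eq_zero.1 h1).resolve_left hab
        have e2 : a * r ^ 2 - q ^ 2 = 0 := (mul_eq_zero.1 h3).resolve_left hab
        have e3 : b * r ^ 2 - p ^ 2 = 0 := (mul_eq_zero.1 h4).resolve_left hab
        have e4 : 2 * (a * b) * r ^ 2 = 0 := by linear_combination e1 + b * e2 + a * e3
        have e5 : r ^ 2 = 0 := (mul_eq_zero.1 e4).resolve_left (mul_ne_zero h2 hab)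
        apply hm
        rw [← h]
        linear_combination e1 - a * b * e5
      · exact ⟨_, ⟨0, b * r, 0, p⟩, h4, SLOT_sq a b _ _ _ _ (by ring),
          SLOT_ac a b _ _ _ _ _ _ (by ring)⟩
    · exact ⟨_, ⟨0, 0, a * r, q⟩, h3, SLOT_sq a b _ _ _ _ (by ring),
        SLOT_ac a b _ _ _ _ _ _ (by ring)⟩
  · exact ⟨_, ⟨0, b * q, -(a * p), 0⟩, h1, SLOT_sq a b _ _ _ _ (by ring),
      SLOT_ac a b _ _ _ _ _ _ (by ring)⟩

/-- an isotropic nonzero pure quaternion gives pure quaternions with any square -/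
theorem SLOT_rep {E : Type} [Field E] (a b p q r c : E) (h2 : (2 : E) ≠ 0) (ha : a ≠ 0)
    (hb : b ≠ 0) (h : a * p ^ 2 + b * q ^ 2 - a * b * r ^ 2 = 0) (h0 : ¬ (p = 0 ∧ q = 0 ∧ r = 0)) :
    ∃ p' q' r' : E, a * p' ^ 2 + b * q' ^ 2 - a * b * r' ^ 2 = c := by
  by_cases hp : p = 0
  · by_cases hq : q = 0
    · have hr : r ≠ 0 := fun hr => h0 ⟨hp, hq, hr⟩
      have hs : -(2 * a * b * r) ≠ 0 := neg_ne_zero.2
        (mul_ne_zero (mul_ne_zero (mul_ne_zero h2 ha) hb) hr)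
      obtain ⟨l, hl⟩ : ∃ l, l * -(2 * a * b * r) = c + a * b := ⟨_, div_mul_cancel₀ _ hs⟩
      exact ⟨l * p, l * q, 1 + l * r, by linear_combination l ^ 2 * h + hl⟩
    · have hs : 2 * b * q ≠ 0 := mul_ne_zero (mul_ne_zero h2 hb) hq
      obtain ⟨l, hl⟩ : ∃ l, l * (2 * b * q) = c - b := ⟨_, div_mul_cancel₀ _ hs⟩
      exact ⟨l * p, 1 + l * q, l * r, by linear_combination l ^ 2 * h + hl⟩
  · have hs : 2 * a * p ≠ 0 := mul_ne_zero (mul_ne_zero h2 ha) hp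
    obtain ⟨l, hl⟩ : ∃ l, l * (2 * a * p) = c - a := ⟨_, div_mul_cancel₀ _ hs⟩
    exact ⟨1 + l * p, l * q, l * r, by linear_combination l ^ 2 * h + hl⟩

theorem SLOT_common {E : Type} [Field E] (a b c d : E) (h2 : (2 : E) ≠ 0) (ha : a ≠ 0)
    (hb : b ≠ 0) (hc : c ≠ 0) (hd : d ≠ 0) (x : Fin 6 → E) (hx : x ≠ 0)
    (h : dg (alc a b c d) x x = 0) :
    ∃ m p q r s t u : E, m ≠ 0 ∧ a * p ^ 2 + b * q ^ 2 - a * b * r ^ 2 = m ∧
      c * s ^ 2 + d * t ^ 2 - c * d * u ^ 2 = m := by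
  have h' : a * x 0 ^ 2 + b * x 1 ^ 2 - a * b * x 2 ^ 2 =
      c * x 3 ^ 2 + d * x 4 ^ 2 - c * d * x 5 ^ 2 := by
    have h1 := h
    simp only [dg, alc, Fin.sum_univ_succ] at h1
    simp at h1
    linear_combination h1
  by_cases he : a * x 0 ^ 2 + b * x 1 ^ 2 - a * b * x 2 ^ 2 = 0
  · by_cases h0 : x 0 = 0 ∧ x 1 = 0 ∧ x 2 = 0
    · have h0' : ¬ (x 3 = 0 ∧ x 4 = 0 ∧ x 5 = 0) := by
        intro h3
        apply hx
        funext i
        fin_cases i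
        · exact h0.1
        · exact h0.2.1
        · exact h0.2.2
        · exact h3.1
        · exact h3.2.1
        · exact h3.2.2
      obtain ⟨s, t, u, hs⟩ := SLOT_rep c d (x 3) (x 4) (x 5) a h2 hc hd (h' ▸ he) h0'
      exact ⟨a, 1, 0, 0, s, t, u, ha, by ring, hs⟩
    · obtain ⟨p, q, r, hp⟩ := SLOT_rep a b (x 0) (x 1) (x 2) c h2 ha hb he h0
      exact ⟨c, p, q, r, 1, 0, 0, hc, hp, by ring⟩
  · exact ⟨_, _, _, _, _, _, _, he, rfl, h'.symm⟩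

theorem thm_SLOT : St_SLOT := by
  intro E _ a b c d h2 ha hb hc hd x hx h
  obtain ⟨m, p, q, r, s, t, u, hm, h3, h4⟩ := SLOT_common a b c d h2 ha hb hc hd x hx h
  obtain ⟨b', y1, hb', hy1, hy2⟩ := SLOT_one a b p q r m h2 ha hb hm h3
  obtain ⟨d', y2, hd', hy3, hy4⟩ := SLOT_one c d s t u m h2 hc hd hm h4
  exact ⟨m, b', d', _, y1, _, y2, hm, hb', hd', SLOT_sq a b _ _ _ _ h3, hy1, hy2,
    SLOT_sq c d _ _ _ _ h4, hy3, hy4⟩

end Pool.Agent.Q4
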