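import Pool.Agent.Q4.Defs
import Pool.Agent.Helper67.Bass.Defs

/-!
# Q4, statements, part A: similitudes of Albert forms and norms from biquaternion algebras
-/

set_option autoImplicit false

namespace Pool.Agent.Q4

open Quaternion TensorProduct Function Polynomial

/-- **AV** (1 h). Averaging. `D` has no zero divisors, `u_i` and `u'_i` (`i < 4`) are two families of anticommuting
elements with the same nonzero scalar squares `q_i`. Then they are conjugate by one element `g`.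
Proof. Show by induction on `k ≤ 4` that there is `y ≠ 0` with `u'_i y = y u_i` for all `i < k` (`k = 0`: `y = 1`).
Step from `k` to `k + 1`: put `A = u'_k y u_k + q_k y`. Then `u'_k A = q_k (y u_k + u'_k y) = A u_k`, and for `i < k`:
`u'_i A = -u'_k u'_i y u_k + q_k u'_i y = -u'_k y u_i u_k + q_k y u_i = u'_k y u_k u_i + q_k y u_i = A u_i`. If `A ≠ 0` take
`A`. If `A = 0` then (multiply by `u_k` on the right, `q_k ≠ 0`) `u'_k y = -y u_k`. Let `z_k` be a product of the `u`s
which commutes with `u_i` for `i < k` and anticommutes with `u_k`: `z_0 = u_1`, `z_1 = u_1 u_2`, `z_2 = u_2 u_3`,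
`z_3 = u_0 u_1 u_2`. Then `y z_k` works; it is not `0` because `u_i ≠ 0` (`u_i² = q_i ≠ 0`) and there are no zero divisors. -/
def St_AV : Prop :=
  ∀ (K D : Type) [Field K] [Ring D] [Algebra K D] [Nontrivial D] [NoZeroDivisors D]
    (q : Fin 4 → K) (u u' : Fin 4 → D), (∀ i, q i ≠ 0) → (∀ i, u i * u i = algebraMap K D (q i)) →
    (∀ i, u' i * u' i = algebraMap K D (q i)) → (∀ i j, i ≠ j → u i * u j = -(u j * u i)) →
    (∀ i j, i ≠ j → u' i * u' j = -(u' j * u' i)) → ∃ g : D, g ≠ 0 ∧ ∀ i, u' i * g = g * u i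

/-- **LR** (1.5 h). Left and right multiplications have the same determinant.
Proof. Let `x ≠ 0` (for `x = 0` both maps are `0`), `L = Algebra.adjoin K {x}`, a commutative domain (elements of `L` are
polynomials in `x`), finite dimensional over `K`, hence a field (`isField_of_isIntegral` or
`Algebra.IsIntegral`, `FiniteDimensional`). `D` is an `L`-vector space in two ways, by left and by right multiplication
(`L` is commutative; for the right multiplication use `MulOpposite` or `Module.compHom` with the commutative ring `L`),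
of the same finite dimension `r`, `[L : K] r = dim_K D`. By `LinearMap.det_restrictScalars`
(`Mathlib/RingTheory/Norm/Transitivity.lean`) and `LinearMap.det_smul` both determinants are `N_{L/K}(x ^ r)`.
Alternative: the characteristic polynomials of both maps have the same irreducible factor, the minimal
polynomial of `x`. -/
def St_LR : Prop :=
  ∀ (K D : Type) [Field K] [Ring D] [Algebra K D] [Nontrivial D] [NoZeroDivisors D]
    [FiniteDimensional K D] (x : D),
    LinearMap.det (LinearMap.mulRight K x) = LinearMap.det (LinearMap.mulLeft K x)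

/-- **SIM1** (2 h), with the hypothesis `St_AV`. Skolem-Noether for similitudes.
Proof. Put `u_i = W_0 P_i` and `u'_i = f⁻¹ W'_0 P'_i`, `1 ≤ i ≤ 5`. For `i, j ≥ 1`:
`u_i u_j = W_0 (P_i W_0) P_j = -W_0 P_0 W_i P_j = -q_0 W_i P_j` and in the same way `u'_i u'_j = -f⁻¹ q_0 W'_i P'_j`. So
`u_i² = -q_0 q_i = u'_i²`, and the `u_i` (the `u'_i`) anticommute. By `St_AV` (for `u_1, …, u_4`) there is `g ≠ 0` with
`u'_i g = g u_i`, `1 ≤ i ≤ 4`. Put `m = u_1 u_2 u_3 u_4` and `m' = u'_1 u'_2 u'_3 u'_4`; `m' g = g m`. The element `u_5 m` commutes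
with `u_1, …, u_5`, hence with all `W_i P_j` (`W_i P_i = q_i`; `W_0 P_j = u_j`; `W_i P_0 = -u_i`;
`W_i P_j = -q_0⁻¹ u_i u_j`), so it is a scalar `κ` by `cen`; in the same way `u'_5 m' = κ'`. `m² = u_1² u_2² u_3² u_4²` (six
sign changes) and `m` commutes with `u_5`, so `κ² = u_5² u_1² u_2² u_3² u_4² = κ'² ≠ 0` and `κ' = ± κ`. Let `ε_5 = κ / κ' = ± 1`
and `ε_i = 1` for `i < 5`. Then `(ε_5 u'_5 g - g u_5) m = ε_5 u'_5 m' g - g u_5 m = ε_5 κ' g - κ g = 0`, so
`ε_5 u'_5 g = g u_5`. Now let `h = (f q_0)⁻¹ P'_0 g W_0`. `W'_0 h = g W_0` as `W'_0 P'_0 = f q_0`. For `i ≥ 1`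
`W'_0 (ε_i P'_i g) = f ε_i u'_i g = f g u_i = f g W_0 P_i = W'_0 (f h P_i)` and `W'_0 ≠ 0` can be cancelled:
`ε_i P'_i g = f h P_i`; for `i = 0` this holds by the definition of `h` (`W_0 P_0 = q_0`). Multiply by `W'_i` on the left
and by `W_i` on the right: `ε_i f q_i g W_i = f q_i W'_i h`, so `ε_i W'_i h = g W_i` (`ε_i² = 1`). -/
def St_SIM1 : Prop :=
  ∀ (K D : Type) [Field K] [Ring D] [Algebra K D] [Nontrivial D] [NoZeroDivisors D]
    (q : Fin 6 → K) (f : K) (W P W' P' : Fin 6 → D), (∀ i, q i ≠ 0) → f ≠ 0 → ADat K D q W P →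
    ADat K D (fun i => f * q i) W' P' → ∃ (g h : D) (ε : Fin 6 → K), g ≠ 0 ∧
      (∀ i, ε i = 1 ∨ ε i = -1) ∧ (∀ i, (ε i • W' i) * h = g * W i) ∧
      ∀ i, (ε i • P' i) * g = f • (h * P i)

/-- **SIM2** (2 h), with the hypotheses `St_SIM1` and `St_LR`.
Proof. Let `g, h, ε` be as in `St_SIM1`; write `W'_i`, `P'_i` for `ε_i W'_i`, `ε_i P'_i`. Apply `σ` to the two relations:
`σ(h) W'_i = W_i σ(g)` (1) and `σ(g) P'_i = f P_i σ(h)` (2). Put `c = σ(h) g`. Then
`c W_i = σ(h) W'_i h = W_i σ(g) h` by (1) and `σ(g) h P_i = f⁻¹ σ(g) P'_i g = P_i σ(h) g = P_i c` by (2), so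
`c W_i P_j = W_i σ(g) h P_j = W_i P_j c`. By `cen` `c` is a scalar `c_0`, not `0` because `h ≠ 0` (`W'_0 h = g W_0 ≠ 0`), `σ`
is injective and there are no zero divisors. Let `N = Algebra.norm K`, the determinant of the left multiplication,
`N(k) = k ^ 16` for `k ∈ K`, `N(x) ≠ 0` for `x ≠ 0`. `N(σ(x)) = N(x)`: the left multiplication by `σ(x)` is
`σ ∘ (right multiplication by x) ∘ σ`, use `LinearMap.det_conj` and `St_LR`. `N(W_0)² = N(W_0) N(P_0) = q_0 ^ 16`,
`N(W'_0)² = (f q_0) ^ 16`. From `W'_0 h = g W_0` we get `(f q_0) ^ 16 N(h)² = N(g)² q_0 ^ 16`, `N(g)² = f ^ 16 N(h)²`. From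
`σ(h) g = c_0` we get `N(h) N(g) = c_0 ^ 16`. So `N(g) ^ 4 = f ^ 16 N(h)² N(g)² = f ^ 16 c_0 ^ 32`. -/
def St_SIM2 : Prop :=
  ∀ (K D : Type) [Field K] [Ring D] [Algebra K D] [Nontrivial D] [NoZeroDivisors D]
    (q : Fin 6 → K) (f : K) (W P W' P' : Fin 6 → D) (σ : D →ₗ[K] D), Module.finrank K D = 16 →
    (∀ i, q i ≠ 0) → f ≠ 0 → ADat K D q W P → ADat K D (fun i => f * q i) W' P' →
    (∀ x y, σ (x * y) = σ y * σ x) → (∀ x, σ (σ x) = x) →
    (∀ i, σ (W i) = -W i) → (∀ i, σ (P i) = -P i) →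
    (∀ i, σ (W' i) = -W' i) → (∀ i, σ (P' i) = -P' i) →
    Algebra.norm K (W 0) = Algebra.norm K (P 0) → Algebra.norm K (W' 0) = Algebra.norm K (P' 0) →
    ∃ (g : D) (c : K), g ≠ 0 ∧ c ≠ 0 ∧ Algebra.norm K g ^ 4 = f ^ 16 * c ^ 32

/-- **NZa** (1.5 h). Quaternion algebras with an anisotropic Albert form. Let `N` be the reduced norm
(`nrm` of `Pool/Agent/QCB/Defs.lean`; `x * star x = N(x)`; here written out).
Proof. Test vectors `v` (all entries not mentioned are `0`) show: (0) `a, b, c, d ≠ 0` (basis vectors).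
(1) `c = r²`: `v 4 = r`, `v 5 = 1` gives `alb v = -d r² + c d = 0`; so `c` is not a square, similarly `a` is not a square
(`v 1 = r`, `v 2 = 1`). (2) `N` is anisotropic on `ℍ[K,a,b]`: let `N(x) = 0`, that is
`N_1 := x_0² - a x_1² = b N_2`, `N_2 := x_2² - a x_3²`. If `N_2 = 0` then `N_1 = 0` and `x_1 = x_3 = 0`
(`a` is not a square), `x_0 = x_2 = 0`. If `N_2 ≠ 0`: `b N_2² = N_1 N_2 = A² - a B²` with `A = x_0 x_2 + a x_1 x_3`,
`B = x_0 x_3 + x_1 x_2`, and `v = (b N_2, a B, A)` has `alb v = a b² N_2² + a² b B² - a b A² =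
a b (b N_2² + a B² - A²) = 0` but `v 0 ≠ 0`.
(3) Let `N(x) = -c N(y)` and `(x * star y).re = 0`. If `y = 0` then `x = 0` by (2). If `y ≠ 0` the element
`z = x * star y` is pure and `z² = -N(z) = -N(x) N(y) = c N(y)²`; the vector `v = (z_1, z_2, z_3, N(y), 0, 0)` has
`alb v = z² - c N(y)² = 0`, but `N(y) ≠ 0`.
(4) Let `x y = y x` and `x² - c y² = d`. Write `x = r + p`, `y = r' + p'` with `p, p'` pure; `p p' = p' p`. If `p' ≠ 0` then
`p = s p'` with `s ∈ K` (`p p'` commutes; its pure part is `0`: `p p' + p' p` is a scalar, so `p p' = λ ∈ K`; by (2)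
`p'² = e ≠ 0` and `p = λ e⁻¹ p'`); put `u = p'`, `s' = 1`. If `p' = 0`, `p ≠ 0` put `u = p`, `s = 1`, `s' = 0`. In both cases
`x = r + s u`, `y = r' + s' u`, `u² = e`, and comparing coefficients of `1` and `u`: `r² + s² e - c (r'² + s'² e) = d` and
`r s = c r' s'`. Let `n = s² - c s'²`, `t = r' s - r s'`. Then `d n = e n² - c t²` (expand
`(r² - c r'²) n = (r s - c r' s')² - c t²`), so the vector `v = (n u_1, n u_2, n u_3, t, s, s')` has
`alb v = n² e - c t² - d s² + c d s'² = n² e - c t² - d n = 0`; but `(s, s') ≠ 0`. If `p = p' = 0`: `d = r² - c r'²` and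
`v = (0, 0, 0, d, c r', r)` has `alb v = -c d² - d c² r'² + c d r² = -c d (d + c r'² - r²) = 0`, but `d ≠ 0`. -/
def St_NZa : Prop :=
  ∀ (K : Type) [Field K] (a b c d : K), (2 : K) ≠ 0 → Anis a b c d →
    (∀ r : K, r ^ 2 ≠ c) ∧
    (∀ x : ℍ[K,a,b], x.re ^ 2 - a * x.imI ^ 2 - b * x.imJ ^ 2 + a * b * x.imK ^ 2 = 0 → x = 0) ∧
    (∀ x y : ℍ[K,a,b], (x * star x).re + c * (y * star y).re = 0 → (x * star y).re = 0 →
      x = 0 ∧ y = 0) ∧
    ∀ x y : ℍ[K,a,b], x * y = y * x → x * x - c • (y * y) ≠ algebraMap K _ d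

/-- **NZD** (2.5 h), with the hypothesis `St_NZa`. Albert's theorem.
Proof. Let `D = BQ K a b c d`, `I = 1 ⊗ i`, `J = 1 ⊗ j`, `I² = c`, `J² = d`, `I J = -J I`, and write `x` for `x ⊗ 1`,
`x ∈ H = ℍ[K,a,b]`; `H` commutes with `I` and `J`. (a) Every `z ∈ D` is `(x_0 + x_1 I) + (x_2 + x_3 I) J` with `x_i ∈ H`
(`TensorProduct.induction_on`; `i j = k`). The representation is unique (`H → H ⊗ 1`, basis `1, i, j, k` of `ℍ[K,c,d]`;
`Algebra.TensorProduct.basis` or `QuaternionAlgebra.basisOneIJK`); uniqueness is only needed for `x_0 + x_1 I`.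
(b) Let `E = {x + y I}`, a subring. Let `e = x + y I ≠ 0`, `e* = x̄ + ȳ I`. `e e* = r + s I` with
`r = x x̄ + c y ȳ ∈ K` and `s = x ȳ + y x̄ ∈ K` (twice the real part of `x ȳ`). By (2), (3) of `St_NZa`
`(r, s) ≠ (0, 0)`, and `r² ≠ c s²` as `c` is not a square. So `e (e* (r - s I)) = r² - c s²` is a nonzero scalar:
`e` has a right inverse in `E`. So every nonzero element of `E` has a right inverse in `E`, hence a two-sided inverse in `E`.
(c) For `γ = x + y I ∈ E` let `γ' = x - y I`; `J γ = γ' J`. Let `z = α + β J ≠ 0`, `α, β ∈ E`. If `β = 0`, `z` has a left inverse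
by (b). If `β ≠ 0`: `β⁻¹ z = γ + J`, `γ ∈ E`, and `(γ' - J)(γ + J) = γ' γ - d + γ' J - J γ = γ' γ - d ∈ E`. It is not `0`:
`γ' γ = (x² - c y²) + (x y - y x) I = d` would give (uniqueness) `x y = y x` and `x² - c y² = d`, excluded by `St_NZa`. So
it has an inverse, and `z` has a left inverse `w`, `w z = 1`. If now `z z' = 0` then `z' = w z z' = 0`. -/
def St_NZD : Prop :=
  ∀ (K : Type) [Field K] (a b c d : K), (2 : K) ≠ 0 → Anis a b c d →
    ∀ x y : BQ K a b c d, x * y = 0 → x = 0 ∨ y = 0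

/-- **CON** (2 h). The concrete data. Proof. `wv v * pv v = alb v = pv v * wv v` (`pq1 v`² and `pq2 v`² are scalars and
`x ⊗ 1`, `1 ⊗ y` commute). `wv`, `pv` are additive in `v`, so polarisation of this identity (the hypothesis says that
`alb (t i + t j) = alb (t i) + alb (t j)`) gives `wp`, `pw`. `cen`: the `t i` span `K⁶`, so `z` commutes with all
`wv v * pv v'`. For basis vectors `e_0, e_1`: `wv e_0 * pv e_1 = i j ⊗ 1 = k ⊗ 1`, ...: `z` commutes with `i ⊗ 1`
(a nonzero multiple of `(j ⊗ 1)(k ⊗ 1)`), `j ⊗ 1` and with `1 ⊗ i`, `1 ⊗ j`; so `z` commutes with everything; the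
center of `D` is `K` (`ℍ[K,a,b]` is central, since `2, a, b ≠ 0`: commuting with `i` and `j`; tensor products of central
algebras are central, `Mathlib/Algebra/Central/TensorProduct.lean`). `σ = star ⊗ star`
(`TensorProduct.map` of the linear map `star`). `Algebra.norm`: `x = pq1 v`, `y = pq2 v`. If `y = 0` then `wv v = pv v`. Otherwise
`y` does not commute with `i` or not with `j`, so there is `s` with `w = y s - s y ≠ 0` and `y w = y² s - y s y = -w y` (`y²` is a
scalar). So `(1 ⊗ w) wv v = pv v (1 ⊗ w)`, and `1 ⊗ w ≠ 0` has nonzero norm, because `D` has no zero divisors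
(hypothesis): the left multiplication by it is injective. -/
def St_CON : Prop :=
  ∀ (K : Type) [Field K] (a b c d : K), (2 : K) ≠ 0 → a ≠ 0 → b ≠ 0 → c ≠ 0 → d ≠ 0 →
    (∀ v, wv a b c d v * pv a b c d v = algebraMap K _ (alb a b c d v)) ∧
    (∀ v, pv a b c d v * wv a b c d v = algebraMap K _ (alb a b c d v)) ∧
    (∀ t : Fin 6 → Fin 6 → K, Submodule.span K (Set.range t) = ⊤ →
      (∀ i j, i ≠ j → alb a b c d (t i + t j) = alb a b c d (t i) + alb a b c d (t j)) →
      ADat K (BQ K a b c d) (fun i => alb a b c d (t i)) (fun i => wv a b c d (t i))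
        (fun i => pv a b c d (t i))) ∧
    (∃ σ : BQ K a b c d →ₗ[K] BQ K a b c d, (∀ x y, σ (x * y) = σ y * σ x) ∧
      (∀ x, σ (σ x) = x) ∧ (∀ v, σ (wv a b c d v) = -wv a b c d v) ∧
      ∀ v, σ (pv a b c d v) = -pv a b c d v) ∧
    ((∀ x y : BQ K a b c d, x * y = 0 → x = 0 ∨ y = 0) → ∀ v,
      Algebra.norm K (wv a b c d v) = Algebra.norm K (pv a b c d v))

/-- **SIM** (1 h), with the hypotheses `St_SIM2`, `St_NZD`, `St_CON`.
Proof. `D = BQ K a b c d` has no zero divisors (`St_NZD`) and dimension `16`. `a, b, c, d ≠ 0` (`Anis` for basis vectors). Let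
`e_i = Pi.single i 1` and `t_i = T e_i`. `T` is injective (`T v = 0` gives `f alb v = 0`, `v = 0`), so bijective, and
`alb (t_i) = f alb (e_i)`, `alb (t_i + t_j) = f alb (e_i + e_j) = alb (t_i) + alb (t_j)`. By `St_CON` the hypotheses of `St_SIM2` hold for
`q_i = alb (e_i)` (`≠ 0`), `W_i = wv e_i`, …, `W'_i = wv t_i`, …. It gives `g ≠ 0`, `c ≠ 0` with `N(g) ^ 4 = f ^ 16 c ^ 32`. By the last
hypothesis for `x = c` there are `v, v'`, not both `0`, with `alb v = c alb v'`; both are nonzero (`Anis`). Let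
`y = wv v * pv v'`. `N(y)² = N(wv v)² N(pv v')² = alb v ^ 16 alb v' ^ 16` (`N(wv v) = N(pv v)`, `N(wv v) N(pv v) = alb v ^ 16`)
`= c ^ 16 alb v' ^ 32`. `D` is finite dimensional without zero divisors, so `y` has an inverse `y'`, `N(y) N(y') = 1`. Take
`g' = alb v' • (g y')`: `N(g') ^ 4 = alb v' ^ 64 · f ^ 16 c ^ 32 / (c ^ 32 alb v' ^ 64) = f ^ 16`. -/
def St_SIM : Prop :=
  ∀ (K : Type) [Field K] (a b c d f : K) (T : (Fin 6 → K) →ₗ[K] (Fin 6 → K)), (2 : K) ≠ 0 →
    f ≠ 0 → Anis a b c d → (∀ v, alb a b c d (T v) = f * alb a b c d v) →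
    (∀ x : K, ∃ v v' : Fin 6 → K, (v ≠ 0 ∨ v' ≠ 0) ∧ alb a b c d v = x * alb a b c d v') →
    ∃ g : BQ K a b c d, g ≠ 0 ∧ Algebra.norm K g ^ 4 = f ^ 16

/-- **CWS** (2.5 h). Systems of quadratic forms over `k[X, Y]`, `k` finite.
Proof. Let `M` bound the `Y`-degrees of all `c l i j` and the `X`-degrees of all their coefficients. For `e ∈ ℕ` take
unknowns `z_{i,s,t} ∈ k`, `i < N`, `0 ≤ s, t ≤ e`, and `x_i = ∑ z_{i,s,t} X ^ s Y ^ t`. The equations say that the coefficients of
`X ^ s Y ^ t`, `0 ≤ s, t ≤ 2 e + M`, of `∑ c l i j x_i x_j` vanish: `r (2 e + M + 1)²` polynomials of degree at most `2` in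
`N (e + 1)²` unknowns over `k`, with the trivial zero. For `e = 8 r M + 2 r M²`
`N (e + 1)² > 2 r (2 e + M + 1)²` (as `N ≥ 8 r + 1` and `2 (2 e + M + 1)² ≤ 8 (e+1)² + 8 M (e+1) + 2 M²`), so by the theorem
of Chevalley and Warning (`char_dvd_card_solutions_of_sum_lt`) the number of solutions is divisible by `p`, and there
is a nontrivial one. (`Pool/Agent/QCB/CW.lean` contains the case of one variable, with `(MvPolynomial σ κ)[X]` as a tool:
the generic element is a polynomial with coefficients linear forms.) -/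
def St_CWS : Prop :=
  ∀ (k : Type) [Field k] [Finite k] (r N : ℕ), 8 * r < N → ∀ c : Fin r → Fin N → Fin N → k[X][X],
    ∃ x : Fin N → k[X][X], x ≠ 0 ∧ ∀ l, ∑ i, ∑ j, c l i j * x i * x j = 0

/-- **CWK** (2 h), with the hypothesis `St_CWS`. Diagonal forms over fields of transcendence degree two.
Proof. Let `K_0` be the fraction field of `B = k[X][X]` inside `K` (`FractionRing B` with the induced algebra structure,
or the subfield of quotients); `K` is algebraic over it. `L = K_0(q_0, …, q_{n-1})` is finite over `K_0`, with a basis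
`b_1, …, b_m`. Write `y_i = ∑_s z_{is} b_s`; `∑ q_i y_i² = ∑_l (∑_{i,s,t} c^l_{ist} z_{is} z_{it}) b_l` with `c^l_{ist} ∈ K_0`;
multiply by a common denominator, so that `c^l_{ist} ∈ B`. These are `m` quadratic forms in `n m > 8 m` variables; apply
`St_CWS`. -/
def St_CWK : Prop :=
  ∀ (k : Type) [Field k] [Finite k] (K : Type) [Field K] [Algebra k[X][X] K],
    Injective (algebraMap k[X][X] K) → Algebra.IsAlgebraic k[X][X] K → ∀ (n : ℕ) (q : Fin n → K),
    8 < n → ∃ y : Fin n → K, y ≠ 0 ∧ ∑ i, q i * y i ^ 2 = 0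

/-- **ISO** (2 h), with the hypothesis `St_CWK`.
Proof. (1) Some `x ∈ R` is transcendental over `ZMod p` (`ZMod.algebra`): otherwise the finitely generated ring `R` is integral and of
finite type over the field `ZMod p`, hence a finite module over it and finite. (2) Every `y ∈ F = FractionRing R` is
algebraic over `(ZMod p)(x)`: the first alternative of `KroneckerLeOne` is impossible (a primitive polynomial is nonzero
modulo `p`, so `x` would be algebraic); in the second one the prime is `p`, and `G ∈ ℤ[X, Y]` not divisible by `p` with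
`G(x, y) = 0` is nonzero modulo `p`, which makes `y` algebraic over `(ZMod p)[x]` because `x` is transcendental.
(`Pool/Agent/Helper67/Bass/Gen1.lean`, `Gen2.lean`, `Small.lean` contain such arguments.) (3) Let
`(ZMod p)[X][X] → R[X] → K` be induced by `X ↦ x` on the inner variable (`Polynomial.mapRingHom`, injective); `K` is algebraic
over it: it is generated as a field by `F` and `X`, all algebraic. Apply `St_CWK`. -/
def St_ISO : Prop :=
  ∀ (p : ℕ) [Fact p.Prime] (R : Type) [CommRing R] [IsDomain R] [Algebra.FiniteType ℤ R]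
    [Infinite R] [CharP R p] (K : Type) [Field K] [Algebra R[X] K] [IsFractionRing R[X] K],
    Pool.Agent.Helper67.Bass.KroneckerLeOne (FractionRing R) → ∀ (n : ℕ) (q : Fin n → K), 8 < n →
    ∃ y : Fin n → K, y ≠ 0 ∧ ∑ i, q i * y i ^ 2 = 0

/-- **ALBE** (3 h). The isotropic case: the algebra is a matrix algebra over a quaternion algebra.
Proof. Let `v ≠ 0`, `alb v = 0`, `x = pq1 v ∈ H = ℍ[K,a,b]`, `y = pq2 v ∈ H' = ℍ[K,c,d]` pure, not both `0`, `x² = y² = e ∈ K`.
General remark (*): let `H_1`, `H_2` be two quaternion algebras (nonzero parameters) and `φ_1 : H_1 → D`, `φ_2 : H_2 → D` algebra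
homomorphisms with commuting images, `dim D = 16`. Then `H_1 ⊗ H_2 → D` is an isomorphism as soon as it is surjective. Every
homomorphism from a quaternion algebra to a nontrivial algebra is injective (`TER_inj` in `Pool/Agent/QCT/TER.lean`, copy).
Case `e = 0`, say `x ≠ 0`: there is an isomorphism `H ≅ M_2(K)` (`x` is nilpotent; `H` acts faithfully on the
`2`-dimensional left ideal `H x`; or explicitly), so `H ⊗ H' ≅ M_2(K) ⊗ H' ≅ M_2(H')` (Mathlib:
`Matrix` and `TensorProduct`, e.g. `matrixEquivTensor`). The same with the roles exchanged if `y ≠ 0`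
(`TensorProduct.comm`), giving `M_2(H)`.
Case `e ≠ 0`: then `x, y ≠ 0`. Choose a pure `z ∈ H` with `x z = -z x`, `z² = b' ≠ 0` (the pure quaternions orthogonal to `x`
are a `2`-dimensional nondegenerate space) and `w ∈ H'` with `y w = -w y`, `w² = d' ≠ 0`. So
`H ≅ (e, b')`, `H' ≅ (e, d')`. In `D = H ⊗ H'` put `I = x ⊗ 1`, `J = z ⊗ w`, `I² = e`, `J² = b' d'`, `I J = -J I`, and
`I' = x ⊗ y`, `J' = 1 ⊗ w`, `I'² = e²`, `J'² = d'`, `I' J' = -J' I'`; `I, J` commute with `I', J'`. They generate `D`: so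
`D ≅ (e, b' d') ⊗ (e², d')` by the remark (`I' I / e = 1 ⊗ y`, `J J' / d' = z ⊗ 1`), and `(e², d') ≅ M_2(K)` (`I ↦ diag(e, -e)`,
`J ↦ !![0, d'; 1, 0]`), hence `D ≅ M_2((e, b' d'))`. -/
def St_ALBE : Prop :=
  ∀ (K : Type) [Field K] (a b c d : K), (2 : K) ≠ 0 → a ≠ 0 → b ≠ 0 → c ≠ 0 → d ≠ 0 →
    ¬ Anis a b c d → ∃ a' b' : K, a' ≠ 0 ∧ b' ≠ 0 ∧
      Nonempty (BQ K a b c d ≃ₐ[K] Matrix (Fin 2) (Fin 2) ℍ[K,a',b'])

/-- **QUIN** (3 h). Nondegenerate forms in five variables; compare `Pool/Agent/QCT/TER.lean` (three variables).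
Proof. Let `v_0, …, v_4` be an orthogonal basis, `α_i = Q(v_i) ≠ 0`, `e_i = ι v_i`, and `u_i = e_0 e_i`, `1 ≤ i ≤ 4`, in the even Clifford
algebra: they anticommute, `u_i² = -α_0 α_i =: x_i`. Put `i_1 = u_1`, `j_1 = u_2`, `i_2 = u_1 u_2 u_3`, `j_2 = u_1 u_2 u_4`. Then
`i_1, j_1` commute with `i_2, j_2`, `i_2² = -x_1 x_2 x_3 =: c`, `j_2² = -x_1 x_2 x_4 =: d`, `i_2 j_2 = -j_2 i_2`. This defines a
homomorphism `φ : BQ K x_1 x_2 c d → even Q` (`QuaternionAlgebra.Basis.liftHom`, `Algebra.TensorProduct.lift`). It is surjective: the image contains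
`u_1, u_2, u_3, u_4` (`u_3 = -(x_1 x_2)⁻¹ u_1 u_2 i_2`), so all `e_0 e_i`, `e_i e_j = -α_0⁻¹ u_i u_j`, and `even Q` is generated by
products of two vectors. It is injective: `BQ` is a simple ring: if `z ≠ 0` is in the kernel write `z = ∑ x_m ⊗ f_m`
with `f_m` the basis `1, i, j, k` of the second factor; for `u ∈ {1, i, j, k}` of the second factor the sums
`z + (±) (1 ⊗ u) z (1 ⊗ u)` isolate one component and then give `x ⊗ 1` in the kernel, `x ≠ 0`; but homomorphisms from
a quaternion algebra to a nontrivial algebra are injective (`TER_inj`). -/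
def St_QUIN : Prop :=
  ∀ (K : Type) [Field K] (Q : QuadraticForm K (Fin 5 → K)), (2 : K) ≠ 0 →
    (QuadraticMap.polarBilin Q).Nondegenerate → ∃ a b c d : K, a ≠ 0 ∧ b ≠ 0 ∧ c ≠ 0 ∧ d ≠ 0 ∧
      Nonempty (CliffordAlgebra.even Q ≃ₐ[K] BQ K a b c d)

end Pool.Agent.Q4
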