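import Pool.Agent.Q4.StA
import Pool.Agent.QTB.Defs

/-!
# Q4, statements, part A, second file: similitudes of subspaces for Albert forms

Names from `Pool/Agent/QTB/Defs.lean`: `vv a b c d x`, `pv a b c d x`, `alc`, `dg`, `sg`, `rn`, `Iso3`. They agree with `wv`, `pv`,
`albC` of `Pool/Agent/Q4/Defs.lean` (by `rfl`), and `alb a b c d v = dg (alc a b c d) v v`.
-/

set_option autoImplicit false

namespace Pool.Agent.Q4

open Quaternion TensorProduct Function Pool.Agent.QTB

/-- three vectors: `W i`, `P i` behave like the values of `vv` and `pv` on three orthogonal vectors with values `q i` of the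
Albert form -/
structure R3 (K D : Type) [Field K] [Ring D] [Algebra K D] (q : Fin 3 → K) (W P : Fin 3 → D) :
    Prop where
  wp : ∀ i j, i ≠ j → W i * P j = -(W j * P i)
  pw : ∀ i j, i ≠ j → P i * W j = -(P j * W i)
  wpd : ∀ i, W i * P i = algebraMap K D (q i)
  pwd : ∀ i, P i * W i = algebraMap K D (q i)

/-- **SLOT** (1.5 h). An isotropic Albert form gives a common slot.
Proof. Let `p = (x 0, x 1, x 2)`, `p' = (x 3, x 4, x 5)` as pure quaternions `x₁`, `x₂`: `x₁² = x₂² = e` (a scalar), not both are `0`.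
(1) Let `x₁` be pure with `x₁² = m ≠ 0`; then there is `y₁` pure with `y₁ x₁ = -x₁ y₁` and `y₁² = b' ≠ 0`: try the three elements
`t_1 = b p_1 i - a p_0 j`, `t_2 = a p_2 j + p_1 k`, `t_3 = b p_2 i + p_0 k`, which anticommute with `x₁ = p_0 i + p_1 j + p_2 k`
(compare `conj_elem` in `Pool/Agent/QCB/QB.lean`). Their squares are `a b (b p_1² + a p_0²)`, `a b (a p_2² - p_1²)`,
`a b (b p_2² - p_0²)`; if all vanish then `2 a b p_2² = 0`, `p = 0`. The same for the second algebra. So the case `e ≠ 0` is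
done. (2) `e = 0`, say `x₁ ≠ 0`, `x₁² = 0`. The pure quaternions of `ℍ[E,a,b]` represent every `c ≠ 0`: there is a pure `t` with
`x₁ t + t x₁ = s ≠ 0` (a scalar; `t` one of `i, j, k`), and `(t + λ x₁)² = t² + λ s = c` for a suitable `λ`. Replace `x₁` by this element
with square `c` and `x₂` by `i ∈ ℍ[E,c,d]`; `m = c`; apply (1). If `x₁ = 0` then `x₂ ≠ 0`: exchange the roles (`m = a`). -/
def St_SLOT : Prop :=
  ∀ (E : Type) [Field E] (a b c d : E), (2 : E) ≠ 0 → a ≠ 0 → b ≠ 0 → c ≠ 0 → d ≠ 0 →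
    ∀ x : Fin 6 → E, x ≠ 0 → dg (alc a b c d) x x = 0 →
    ∃ (m b' d' : E) (x1 y1 : ℍ[E,a,b]) (x2 y2 : ℍ[E,c,d]), m ≠ 0 ∧ b' ≠ 0 ∧ d' ≠ 0 ∧
      x1 * x1 = algebraMap E _ m ∧ y1 * y1 = algebraMap E _ b' ∧ x1 * y1 = -(y1 * x1) ∧
      x2 * x2 = algebraMap E _ m ∧ y2 * y2 = algebraMap E _ d' ∧ x2 * y2 = -(y2 * x2)

/-- **PS1** (1.5 h). Skolem-Noether for similitudes of three-dimensional subspaces.
Proof. Put `u_0 = W_0 P_1`, `u_1 = W_1 P_2`, `u'_0 = f⁻¹ W'_0 P'_1`, `u'_1 = f⁻¹ W'_1 P'_2`. Then `u_0² = W_0 P_1 W_0 P_1 = -W_0 P_0 W_1 P_1 = -q_0 q_1`,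
`u_1² = -q_1 q_2`, `u_0 u_1 = q_1 W_0 P_2` and `u_1 u_0 = W_1 (P_2 W_0) P_1 = -W_1 P_0 W_2 P_1 = -(W_0 P_1)(W_1 P_2) = -u_0 u_1`, and the
same for `u'` (with the same squares, `u'_0 u'_1 = f⁻¹ q_1 W'_0 P'_2`). Averaging: there is `y ≠ 0` with `u'_0 y = y u_0`: let
`A = u'_0 u_0 - q_0 q_1` (that is `u'_0 y u_0 + u_0² y` for `y = 1`); `u'_0 A = A u_0`; if `A = 0` then `u'_0 = -u_0` and `y = u_1` works. Now
let `A = u'_1 y u_1 - q_1 q_2 y`; `u'_1 A = A u_1` and `u'_0 A = A u_0`; if `A ≠ 0` put `g = A`, if `A = 0` then `u'_1 y = -y u_1` and `g = y u_0`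
works. Then `u'_k g = g u_k` for `k = 0, 1`, hence also for the products, which gives the claim for `(i,j) = (0,1), (1,2), (0,2)`, for
the opposite pairs by antisymmetry and for `i = j` by `wpd`. -/
def St_PS1 : Prop :=
  ∀ (K D : Type) [Field K] [Ring D] [Algebra K D] [Nontrivial D] [NoZeroDivisors D]
    (q : Fin 3 → K) (f : K) (W P W' P' : Fin 3 → D), (∀ i, q i ≠ 0) → f ≠ 0 → R3 K D q W P →
    R3 K D (fun i => f * q i) W' P' →
    ∃ g : D, g ≠ 0 ∧ ∀ i j, W' i * P' j * g = f • (g * (W i * P j))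

/-- **PS2** (3 h), with the hypotheses `St_PS1` and `St_LR`.
Proof. Nonzero elements of `D` are invertible. Restrict `W`, `P` to `{0, 1, 2}` and let `g` be as in `St_PS1`. For `i, j < 3` put
`S_i = g⁻¹ W'_i σ(g)⁻¹`, `S'_j = σ(g) P'_j g`. Then `S_i S'_j = g⁻¹ W'_i P'_j g = f W_i P_j`; applying `σ` to
`W'_i P'_j g = f g W_i P_j` gives `σ(g) P'_j W'_i = f P_j W_i σ(g)` and `S'_j S_i = f P_j W_i`. Hence `W_i⁻¹ S_i = f P_0 S'_0⁻¹ =: ξ` does not depend
on `i`: `S_i = W_i ξ`; from `S'_j W_j ξ = S'_j S_j = f q_j` and `W_j P_j = q_j`: `S'_j = f ξ⁻¹ P_j`; then `S'_j S_i = f P_j W_i` gives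
`ξ P_j W_i = P_j W_i ξ`. As `σ(S_i) = -S_i`: `σ(ξ) W_i = W_i ξ`. CLAIM `ξ ∈ K`. Let `v_1 = P_3 W_4`, `v_2 = P_4 W_5`; they anticommute, have
nonzero scalar squares, commute with `P_j W_i`, `i, j < 3`, and `σ(v) W_0 = -W_0 v` for `v = v_1, v_2, v_1 v_2` (move `W_0` through,
`v_1 v_2` is a multiple of `P_3 W_5`). (a) An element `z` which commutes with all `P_j W_i` for `i, j < 3` and with `v_1, v_2` is a scalar: the
element `P_0 W_1 P_2 W_3 P_4 W_5` commutes with all `P_i W_j` (each of the six indices occurs once), so after applying `σ` it commutes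
with all `W_j P_i`, and is a nonzero scalar by `cen`; so every `P_i W_j` with `i < 3 ≤ j` (or conversely) is up to a nonzero
scalar a product of two elements `P_k W_l` with `k, l < 3` or `k, l ≥ 3`; hence `z` commutes with all `P_i W_j`, `σ(z)` with all
`W_j P_i`, `σ(z) ∈ K` by `cen`, `z ∈ K`. (b) Write `4 z` as the sum over the four characters of the group generated by the conjugations
with `v_1, v_2`: for `z = ξ` the part commuting with both is a scalar by (a); the part anticommuting with `v_2` and commuting with `v_1` is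
`λ_1 v_1` (multiply by `v_1⁻¹` and use (a)), and in the same way the others are multiples of `v_2`, `v_1 v_2`. So
`ξ = λ_0 + λ_1 v_1 + λ_2 v_2 + λ_3 v_1 v_2`, and `W_0 ξ = σ(ξ) W_0 = W_0 (λ_0 - λ_1 v_1 - λ_2 v_2 - λ_3 v_1 v_2)`, so `ξ = λ_0` (`2 ≠ 0`).
END. `W'_0 = g S_0 σ(g) = λ_0 g W_0 σ(g)`. Let `N = Algebra.norm K` (`N(k) = k ^ 16`, `N(x) ≠ 0` for `x ≠ 0`); `N(σ(g)) = N(g)`: the left
multiplication by `σ(x)` is `σ ∘ (right multiplication by x) ∘ σ`, use `LinearMap.det_conj` and `St_LR`.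
`N(W_0)² = N(W_0) N(P_0) = q_0 ^ 16`, `N(W'_0)² = (f q_0) ^ 16`, so `f ^ 16 = λ_0 ^ 32 N(g) ^ 4`. -/
def St_PS2 : Prop :=
  ∀ (K D : Type) [Field K] [Ring D] [Algebra K D] [Nontrivial D] [NoZeroDivisors D]
    (q : Fin 6 → K) (f : K) (W P : Fin 6 → D) (W' P' : Fin 3 → D) (σ : D →ₗ[K] D),
    (2 : K) ≠ 0 → Module.finrank K D = 16 → (∀ i, q i ≠ 0) → f ≠ 0 → ADat K D q W P →
    R3 K D (fun i => f * q ((![0, 1, 2] : Fin 3 → Fin 6) i)) W' P' →
    (∀ x y, σ (x * y) = σ y * σ x) → (∀ x, σ (σ x) = x) →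
    (∀ i, σ (W i) = -W i) → (∀ i, σ (P i) = -P i) →
    (∀ i, σ (W' i) = -W' i) → (∀ i, σ (P' i) = -P' i) →
    Algebra.norm K (W 0) = Algebra.norm K (P 0) → Algebra.norm K (W' 0) = Algebra.norm K (P' 0) →
    ∃ (g : D) (ξ : K), g ≠ 0 ∧ ξ ≠ 0 ∧ Algebra.norm K g ^ 4 * ξ ^ 32 = f ^ 16

/-- **PSIM** (2 h), with the hypotheses `St_PS2`, `St_NZD`, `St_CON`, `St_LR`.
Proof. `D = BQ K a b c d` has no zero divisors (`St_NZD`). Let `B(x, y) = dg (alc a b c d) x y`, so `B(x, x) = alb a b c d x`. Let `x, y` be as in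
`Iso3`: `B(x_i, x_j) = f B(y_i, y_j)`. The `y_i` are independent: `∑ r_i y_i = 0` gives `B(∑ r_i x_i, ∑ r_i x_i) = 0`, so
`∑ r_i x_i = 0` by `Anis` and `r = 0`. Applying one invertible `3 × 3` matrix to `x` and `y` we may assume that the `y_i` are orthogonal
(the space `U` spanned by them is nondegenerate as `B` is anisotropic: `LinearMap.BilinForm.exists_orthogonal_basis` for the restriction
of `B` to `U`, or Gram and Schmidt). Extend by an orthogonal basis of the orthogonal complement of `U` to an orthogonal basis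
`t : Fin 6 → K ^ 6` of `K ^ 6`. `St_CON` for `t` gives `ADat` for `W_i = wv t_i`, `P_i = pv t_i`; the relations `R3` for `W'_i = wv x_i`,
`P'_i = pv x_i` follow by polarisation from `wv v * pv v = alb v` (as in `St_CON`; `B(x_i, x_j) = 0` for `i ≠ j`,
`B(x_i, x_i) = f B(y_i, y_i)`). `St_PS2` applies, with `σ` from `St_CON`. Finally `rn g = Algebra.norm K g` by `St_LR`
(`Algebra.norm_apply`). -/
def St_PSIM : Prop :=
  ∀ (K : Type) [Field K] (a b c d f : K), (2 : K) ≠ 0 → f ≠ 0 → Anis a b c d →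
    Iso3 (alc a b c d) f →
    ∃ (g : Pool.Agent.QTB.BQ K a b c d) (ξ : K), g ≠ 0 ∧ ξ ≠ 0 ∧ rn g ^ 4 * ξ ^ 32 = f ^ 16

/-- **RNQ** (2 h), with the hypotheses `St_NZD`, `St_CON`, `St_LR`. The determinant of the right multiplication.
Proof. (1) The right multiplication by `x y` is the composition of the two right multiplications. (2) `BQ A` is free of rank `16`
(basis `bas`). (3) `K` the fraction field; the map `BQ A → BQ K` of coordinates with respect to `bas` is a ring homomorphism and the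
matrix of the right multiplication by the image of `z` is the image of the matrix of the right multiplication by `z`
(`LinearMap.det_toMatrix`, `Matrix.map`). (4) The form over `K` is anisotropic too (clear denominators), so `BQ K` has no zero divisors and
`rn z ≠ 0` for `z ≠ 0` (an injective endomorphism). (5) By (3) and `St_LR` `rn` over `K` is `Algebra.norm K`, and by `St_CON`
`N(wv v) = N(pv v)`, `N(wv v) N(pv v) = alb v ^ 16`; take squares. (6) as in `St_PS2`: `N(σ x) = N(x)` over `K`; `sg` is the `σ` of `St_CON` (it is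
`star ⊗ star`); or directly: `sg` conjugates the right multiplication by `z` into the left multiplication by `sg z`, and `St_LR`
over `K`. -/
def St_RNQ : Prop :=
  ∀ (A : Type) [CommRing A] [IsDomain A] (a b c d : A), (2 : A) ≠ 0 →
    (∀ x : Fin 6 → A, dg (alc a b c d) x x = 0 → x = 0) →
    (∀ x y : Pool.Agent.QTB.BQ A a b c d, rn (A := A) (x * y) = rn (A := A) x * rn (A := A) y) ∧
    (∀ r : A, rn (A := A) (algebraMap A (Pool.Agent.QTB.BQ A a b c d) r) = r ^ 16) ∧
    (∀ z : Pool.Agent.QTB.BQ A a b c d, z ≠ 0 → rn (A := A) z ≠ 0) ∧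
    (∀ x : Fin 6 → A, rn (A := A) (vv a b c d x) ^ 2 = dg (alc a b c d) x x ^ 16) ∧
    (∀ x : Fin 6 → A, rn (A := A) (QTB.pv a b c d x) ^ 2 = dg (alc a b c d) x x ^ 16) ∧
    ∀ z : Pool.Agent.QTB.BQ A a b c d, rn (A := A) (sg a b c d z) = rn (A := A) z

/-- **PSA** (1.5 h), with the hypotheses `St_PSIM`, `St_RNQ`. The version over a domain.
Proof. `K` the fraction field. The form is anisotropic over `K` (clear denominators) and `Iso3` holds over `K` (a linear relation over
`K` can be multiplied by a common denominator). `St_PSIM` gives `g ∈ BQ K`, `ξ ∈ K`; every element of `BQ K` has a nonzero multiple in the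
image of `BQ A` (coordinates with respect to `bas`): `η g = image of g'`, `ξ = ξ' / η'`. `rn` commutes with the base change (see `St_RNQ`
(3)) and `rn (η g) = η ^ 16 rn g`. So `rn(g') ^ 4 ξ' ^ 32 = f ^ 16 (η² η') ^ 32`. -/
def St_PSA : Prop :=
  ∀ (A : Type) [CommRing A] [IsDomain A] (a b c d f : A), (2 : A) ≠ 0 → f ≠ 0 →
    (∀ x : Fin 6 → A, dg (alc a b c d) x x = 0 → x = 0) → Iso3 (alc a b c d) f →
    ∃ (g : Pool.Agent.QTB.BQ A a b c d) (ξ η : A), g ≠ 0 ∧ ξ ≠ 0 ∧ η ≠ 0 ∧
      rn (A := A) g ^ 4 * ξ ^ 32 = f ^ 16 * η ^ 32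

/-- **SIMQ** (2 h). Proof. Let `z ∈ BQ A` not be divisible by `q`; `N` is killed by `z`, so by the two-sided ideal generated by `z`. Let
`m` be one of the `16` basis elements of `bas` (the products `u ⊗ v`, `u, v ∈ {1, i, j, k}`) whose coefficient `z_m` in `z` is not divisible
by `q`. `m` is invertible (`a, b, c, d` are units). For `w = m⁻¹ z` or `w = m z` the coefficient at `1 ⊗ 1` is a unit times `z_m`. The sum of
`u w u⁻¹` over the `16` basis elements `u` is `16 w_1` where `w_1` is this coefficient (for every basis element `m' ≠ 1` half of the `u`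
anticommute with it, the others commute). So the scalar `16 w_1` kills `N`; `q` does not divide it, as `2` is a unit and `q` is prime or `0`.
It may be convenient to do this in two steps, with `u = 1 ⊗ v` and then `u ⊗ 1`, or to use the conjugations by `i, j` successively:
`w + i w i⁻¹` kills the components anticommuting with `i`. -/
def St_SIMQ : Prop :=
  ∀ (A : Type) [CommRing A] [IsDomain A] (a b c d q : A), IsUnit (2 : A) → IsUnit a → IsUnit b →
    IsUnit c → IsUnit d → (Prime q ∨ q = 0) → Sim A (Pool.Agent.QTB.BQ A a b c d) q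

end Pool.Agent.Q4
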