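import Pool.Agent.Q4.StA
import Pool.Agent.QCB.Defs
import Pool.Agent.TQF.StN

/-!
# Q4, statements, part D: devissage

`GFG Λ` (`Pool/Agent/QCB/Defs.lean`) says that `G₀(Λ)` is finitely generated; `locA Γ s` (`Pool/Agent/TQF/StN.lean`) is the
localisation of the subalgebra `Γ`.
-/

set_option autoImplicit false

namespace Pool.Agent.Q4

open Quaternion TensorProduct Function Pool.Agent.TQF Pool.Agent.QCB

/-- The `A`-algebra `E` contains an order over `A` all of whose small localisations have a finitely generated `G₀`. -/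
def GE (A : Type) [CommRing A] (E : Type) [Ring E] [Algebra A E] : Prop :=
  ∃ Γ : Subalgebra A E, (Subalgebra.toSubmodule Γ).FG ∧ (∀ x : E, ∃ a : A, a ≠ 0 ∧ a • x ∈ Γ) ∧
    ∃ s : A, s ≠ 0 ∧ ∀ s' : A, s' ≠ 0 → s ∣ s' → GFG (locA Γ s')

/-- `Λ` modulo a nilpotent ideal is a finite product of matrix rings over algebras isomorphic to `K`, to a quaternion algebra
`(a, b)` or to a biquaternion algebra `(a, b) ⊗ (c, d)` over `K`. -/
def BiquatSplit (K : Type) [Field K] (Λ : Type) [Ring Λ] [Algebra K Λ] : Prop :=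
  ∃ (n : ℕ) (d : Fin n → ℕ) (E : Fin n → Type) (_ : ∀ i, Ring (E i)) (_ : ∀ i, Algebra K (E i))
    (π : Λ →ₐ[K] ∀ i, Matrix (Fin (d i)) (Fin (d i)) (E i)),
    Surjective π ∧ IsNilpotent (RingHom.ker π) ∧ ∀ i, Nonempty (E i ≃ₐ[K] K) ∨
      (∃ a b : K, a ≠ 0 ∧ b ≠ 0 ∧ Nonempty (E i ≃ₐ[K] ℍ[K,a,b])) ∨
      ∃ a b c d : K, a ≠ 0 ∧ b ≠ 0 ∧ c ≠ 0 ∧ d ≠ 0 ∧
        Nonempty (E i ≃ₐ[K] ℍ[K,a,b] ⊗[K] ℍ[K,c,d])

/-- **GE0** (2 h). Orders from finite free algebras.
Proof. `Γ` is the range of `Λ₀ → E`, `x ↦ e (1 ⊗ x)`: finitely generated as a module, and every element of `K ⊗ Λ₀` has a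
nonzero multiple of the form `1 ⊗ x`. Let `s'` be as in the hypothesis. The composition
`A_s' ⊗ Λ₀ → K ⊗ Λ₀ → E` (`A_s' → K` by the universal property, `Algebra.TensorProduct.map`) is injective because `Λ₀` is flat and
`A_s' → K` is injective, and its range is `locA Γ s'` (an element of `A_s' ⊗ Λ₀` multiplied by a power of `s'` is `1 ⊗ x`, and `s'`
is invertible in `A_s'` and in `E`). So `locA Γ s'` is isomorphic to `A_s' ⊗ Λ₀` as a ring: `GFG.of_equiv` in
`Pool/Agent/QCB/QI.lean`. Compare `GNC_loc` in `Pool/Agent/QCT/GNC.lean`. -/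
def St_GE0 : Prop :=
  ∀ (A K : Type) [CommRing A] [IsDomain A] [Field K] [Algebra A K] [IsFractionRing A K]
    (Λ₀ : Type) [Ring Λ₀] [Algebra A Λ₀] [Module.Finite A Λ₀] [Module.Free A Λ₀] (E : Type) [Ring E]
    [Algebra A E] [Algebra K E] [IsScalarTower A K E] (_ : K ⊗[A] Λ₀ ≃ₐ[K] E),
    (∃ s : A, s ≠ 0 ∧ ∀ s' : A, s' ≠ 0 → s ∣ s' → GFG (Localization.Away s' ⊗[A] Λ₀)) → GE A E

/-- **BCQ** (2 h). Base change and scaling. Proof. First part: the algebra homomorphism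
`B ⊗ ℍ[A,a,b] → ℍ[B,a,b]`, `r ⊗ x ↦ r x` (`Algebra.TensorProduct.lift` or `productLeftAlgHom`) maps a basis to a basis
(`Algebra.TensorProduct.basis`, `QuaternionAlgebra.basisOneIJK`). Second part: the same for the map
`B ⊗ (ℍ[A,a,b] ⊗ ℍ[A,c,d]) → ℍ[B,a,b] ⊗ ℍ[B,c,d]`, `r ⊗ (x ⊗ y) ↦ r (x ⊗ y)`, with the bases of tensor products
(`Module.Basis.tensorProduct`), or from the first part and base change of tensor products of algebras. Third and fourth
part: `i ↦ u i`, `j ↦ v j`, `k ↦ u v k` (`GNC_sc` in `Pool/Agent/QCT/GNC.lean`, copy) and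
`Algebra.TensorProduct.congr`. -/
def St_BCQ : Prop :=
  (∀ (A B : Type) [CommRing A] [CommRing B] [Algebra A B] (a b : A),
    Nonempty (B ⊗[A] ℍ[A,a,b] ≃ₐ[B] ℍ[B,algebraMap A B a,algebraMap A B b])) ∧
  (∀ (A B : Type) [CommRing A] [CommRing B] [Algebra A B] (a b c d : A),
    Nonempty (B ⊗[A] BQ A a b c d ≃ₐ[B]
      BQ B (algebraMap A B a) (algebraMap A B b) (algebraMap A B c) (algebraMap A B d))) ∧
  (∀ (B : Type) [CommRing B] (a b u v : B), IsUnit u → IsUnit v →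
    Nonempty (ℍ[B,u ^ 2 * a,v ^ 2 * b] ≃ₐ[B] ℍ[B,a,b])) ∧
  ∀ (B : Type) [CommRing B] (a b c d u v w x : B), IsUnit u → IsUnit v → IsUnit w → IsUnit x →
    Nonempty (BQ B (u ^ 2 * a) (v ^ 2 * b) (w ^ 2 * c) (x ^ 2 * d) ≃ₐ[B] BQ B a b c d)

/-- **GEM** (1.5 h). Products of matrix rings. Proof. Let `Δ_i` be the order in `E i` and
`Γ = {x | ∀ i j k, x i j k ∈ Δ_i}`: finitely generated (by the elements with one entry a generator of `Δ_i` and the others `0`),
and the product of the finitely many denominators gives the second property (`A` is a domain). For `s'` a multiple of the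
product of the `s_i`: `locA Γ s' = {x | ∀ i j k, x i j k ∈ locA Δ_i s'}` (finitely many entries, maximum of the exponents) is
isomorphic, as a ring, to `∏ M_{d i} (locA Δ_i s')`. Use `GPi`, `GMat` in `Pool/Agent/QCT/GNil.lean` and `GFG.of_equiv` in
`Pool/Agent/QCB/QI.lean`. (`thm_LocM` in `Pool/Agent/TQF` is the same for another notion of finite generation.)
Second part: transport everything along `e`. -/
def St_GEM : Prop :=
  (∀ (A : Type) [CommRing A] [IsDomain A] (n : ℕ) (d : Fin n → ℕ) (E : Fin n → Type)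
    [∀ i, Ring (E i)] [∀ i, Algebra A (E i)], (∀ i, GE A (E i)) →
    GE A (∀ i, Matrix (Fin (d i)) (Fin (d i)) (E i))) ∧
  ∀ (A : Type) [CommRing A] (E E' : Type) [Ring E] [Algebra A E] [Ring E'] [Algebra A E']
    (_ : E ≃ₐ[A] E'), GE A E → GE A E'

/-- **GEN** (1 h), with the hypotheses `St_LocK`, `St_LocC` of `TQF/StN.lean`. This is the end of the proof of `GNC` in
`Pool/Agent/QCT/GNC.lean`. Proof. `St_LocK` for `π` gives `Γ'`, `t` and surjections
`A_s' ⊗ Λ → locA Γ' s'` with nilpotent kernel; `St_LocC`: `locA Γ s' = locA Γ' s'` for multiples of some `t'`, where `Γ` is the order of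
the last hypothesis. `GNil` (`Pool/Agent/QCT/GNil.lean`; `A_s' ⊗ Λ` is a finite module over the noetherian ring `A_s'`). -/
def St_GEN : Prop :=
  ∀ (A K : Type) [CommRing A] [IsDomain A] [IsNoetherianRing A] [Field K] [Algebra A K]
    [IsFractionRing A K] (Λ : Type) [Ring Λ] [Algebra A Λ] [Module.Finite A Λ] (E : Type) [Ring E]
    [Algebra A E] [Algebra K E] [IsScalarTower A K E] (π : K ⊗[A] Λ →ₐ[K] E), Surjective π →
    IsNilpotent (RingHom.ker π) → GE A E →
    ∃ s : A, s ≠ 0 ∧ ∀ s' : A, s' ≠ 0 → s ∣ s' → GFG (Localization.Away s' ⊗[A] Λ)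

/-- **GNC4** (2 h), with the hypotheses `St_LocK`, `St_LocC`, `St_GE0`, `St_BCQ`, `St_GEM`, `St_GEN`, `St_ALBE`; compare `GNC` in
`Pool/Agent/QCT/GNC.lean`. Proof. Give every `E i` the `A`-algebra structure through `K`. By `St_GEN` and the first part of
`St_GEM` it suffices that every `E i` satisfies `GE A (E i)`; by the second part of `St_GEM` this depends on the
isomorphism class (as a `K`-algebra) only.
`K`: `St_GE0` with `Λ₀ = A` (`Algebra.TensorProduct.rid`; `GFG (A_s' ⊗ A)` from `hA` and `GFG.of_equiv`).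
`ℍ[K,a,b]`: write `a = u² α`, `b = v² β` with `α, β ∈ A` nonzero, `u, v ∈ K` nonzero (`GNC_num` in `GNC.lean`), scale (`St_BCQ`), and use
`St_GE0` with `Λ₀ = ℍ[A,α,β]`, `St_BCQ` for `B = K` and for `B = A_s'`, and `hQ`.
`BQ K a b c d`: if `Anis a b c d` is false, `St_ALBE` gives an isomorphism with `M_2(ℍ[K,a',b'])`; use the first part of `St_GEM` with
`n = 1` and the previous case. If it is true, scale as before to `α, β, γ, δ ∈ A` (the Albert form stays anisotropic: with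
`a = u² α`, `b = v² β`, `c = w² γ`, `d = z² δ` the vector `v` corresponds to `(v_0/u, v_1/v, v_2/(u v), v_3/w, v_4/z, v_5/(w z))`) and use
`St_GE0` with `Λ₀ = BQ A α β γ δ`, `St_BCQ`, `hB`. -/
def St_GNC4 : Prop :=
  ∀ (A K : Type) [CommRing A] [IsDomain A] [IsNoetherianRing A] [Field K] [Algebra A K]
    [IsFractionRing A K], (2 : K) ≠ 0 →
    (∃ s : A, s ≠ 0 ∧ ∀ s' : A, s' ≠ 0 → s ∣ s' → GFG (Localization.Away s')) →
    (∀ a b : A, a ≠ 0 → b ≠ 0 → ∃ s : A, s ≠ 0 ∧ ∀ s' : A, s' ≠ 0 → s ∣ s' →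
      GFG ℍ[Localization.Away s',algebraMap A (Localization.Away s') a,
        algebraMap A (Localization.Away s') b]) →
    (∀ a b c d : A, Anis (algebraMap A K a) (algebraMap A K b) (algebraMap A K c)
      (algebraMap A K d) → ∃ s : A, s ≠ 0 ∧ ∀ s' : A, s' ≠ 0 → s ∣ s' →
        GFG (BQ (Localization.Away s') (algebraMap A _ a) (algebraMap A _ b) (algebraMap A _ c)
          (algebraMap A _ d))) →
    ∀ (Λ : Type) [Ring Λ] [Algebra A Λ] [Module.Finite A Λ], BiquatSplit K (K ⊗[A] Λ) →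
    ∃ s : A, s ≠ 0 ∧ ∀ s' : A, s' ≠ 0 → s ∣ s' → GFG (Localization.Away s' ⊗[A] Λ)

end Pool.Agent.Q4
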