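import Pool.Agent.Q4.StE
import Pool.Agent.Helper67.Bass.Defs

/-!
# Q4, statements, part F: centres which are ruled extensions; forms of rank at most six
-/

set_option autoImplicit false

namespace Pool.Agent.Q4

open Quaternion TensorProduct Function Pool.Agent.Helper67.Bass Pool.Agent.QCT

/-- `K = F(t)` is a rational function field in one variable over a subfield `F` of Kronecker dimension at most one. -/
def Ruled (K : Type) [Field K] : Prop :=
  ∃ (F : Subfield K) (t : K), KroneckerLeOne F ∧ Transcendental F t ∧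
    IntermediateField.adjoin F {t} = ⊤

/-- The `K`-algebra `E` is isomorphic to a finite extension field `L` of `K` which is a rational function field (see
`Ruled`), to a quaternion algebra `(a, b)` over such a field `L` or, if `K` has positive characteristic, to a biquaternion
algebra `(a, b) ⊗ (c, d)` over such a field `L`. -/
def Fac (K : Type) [Field K] (E : Type) [Ring E] [Algebra K E] : Prop :=
  ∃ (L : Type) (_ : Field L) (_ : Algebra K L), FiniteDimensional K L ∧ Ruled L ∧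
    (Nonempty (E ≃ₐ[K] L) ∨ (∃ a b : L, a ≠ 0 ∧ b ≠ 0 ∧ Nonempty (E ≃ₐ[K] ℍ[L,a,b])) ∨
      ((∃ p : ℕ, p.Prime ∧ (p : K) = 0) ∧ ∃ a b c d : L, a ≠ 0 ∧ b ≠ 0 ∧ c ≠ 0 ∧ d ≠ 0 ∧
        Nonempty (E ≃ₐ[K] ℍ[L,a,b] ⊗[L] ℍ[L,c,d])))

/-- `Λ` modulo a nilpotent ideal is a finite product of matrix rings over algebras as in `Fac`. -/
def CSplit (K : Type) [Field K] (Λ : Type) [Ring Λ] [Algebra K Λ] : Prop :=
  ∃ (n : ℕ) (d : Fin n → ℕ) (E : Fin n → Type) (_ : ∀ i, Ring (E i)) (_ : ∀ i, Algebra K (E i))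
    (π : Λ →ₐ[K] ∀ i, Matrix (Fin (d i)) (Fin (d i)) (E i)),
    Surjective π ∧ IsNilpotent (RingHom.ker π) ∧ ∀ i, Fac K (E i)

/-- **GEX** (1 h). Orders over a finite extension of the base.
Proof. Let `Γ'`, `s'` be the data for `A'`. `Γ = Γ'.restrictScalars A` is finitely generated over `A` as `A'` is a finite `A`-module. Every
nonzero `a' ∈ A'` has a nonzero multiple in (the image of) `A` (`A'` is integral over `A`: the constant coefficient of a polynomial of
minimal degree, or `Ideal.comap_ne_bot_of_integral_mem`), which gives the second property, and a multiple `s` of `s'`. For a nonzero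
multiple `x` of `s` in `A` the subalgebras `locA Γ x` and `locA Γ' x` have the same elements, so they are isomorphic rings
(`GFG.of_equiv`). -/
def St_GEX : Prop :=
  ∀ (A A' : Type) [CommRing A] [IsDomain A] [CommRing A'] [IsDomain A'] [Algebra A A']
    [Module.Finite A A'], Injective (algebraMap A A') → ∀ (E : Type) [Ring E] [Algebra A E]
    [Algebra A' E] [IsScalarTower A A' E], GE A' E → GE A E

/-- **ORL** (45 min). Proof. `thm_Ord0` (`Pool/Agent/TQF/NOrd0.lean`) for the field `D = L` gives a subalgebra `Δ ⊆ L`, finitely generated as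
an `A`-module, such that every element of `L` has a nonzero multiple in `Δ`; take `A' = Δ`. -/
def St_ORL : Prop :=
  ∀ (A K : Type) [CommRing A] [IsDomain A] [Algebra.FiniteType ℤ A] [Field K] [Algebra A K]
    [IsFractionRing A K] (L : Type) [Field L] [Algebra K L] [FiniteDimensional K L] [Algebra A L]
    [IsScalarTower A K L], ∃ (A' : Type) (_ : CommRing A') (_ : IsDomain A') (_ : Algebra A A')
    (_ : Algebra A' L), Module.Finite A A' ∧ Injective (algebraMap A A') ∧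
      IsScalarTower A A' L ∧ IsFractionRing A' L ∧ Algebra.FiniteType ℤ A'

/-- **RADM** (2 h, this is the main part of `St_RAD`). A surjective linear map which preserves the forms.
Proof. `R = ker φ`: for `r ∈ R`, `v ∈ V`: `Q(v + r) = Q(v)`, so `Q(r) = 0` and `B(r, v) = 0`. Let `s` be a linear section of `φ`;
`Q ∘ s = Q'`. See the proof of `St_RAD`. -/
def St_RADM : Prop :=
  ∀ (K : Type) [Field K] (n m : ℕ) (Q : QuadraticForm K (Fin n → K))
    (Q' : QuadraticForm K (Fin m → K)) (φ : (Fin n → K) →ₗ[K] (Fin m → K)), Surjective φ →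
    (∀ v, Q v = Q' (φ v)) → ∃ π : CliffordAlgebra.even Q →ₐ[K] CliffordAlgebra.even Q',
      Surjective π ∧ IsNilpotent (RingHom.ker π)

/-- **CS1** (1 h). Proof. One or two factors with `d = 1` (`Matrix.uniqueAlgEquiv` or as in `TER_quat` in `Pool/Agent/QCT/TER.lean`). The third
part as in `NCO.lean`. Fourth part: `K` is a finite extension of `K`; `Fin r` and `Fin r'` factors together (`Fin (r + r')` or
`Fin.append`, `Fin.addCases`; or by `finSumFinEquiv`). -/
def St_CS1 : Prop :=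
  (∀ (K Λ E : Type) [Field K] [Ring Λ] [Algebra K Λ] [Ring E] [Algebra K E], Fac K E →
    Nonempty (Λ ≃ₐ[K] E) → CSplit K Λ) ∧
  (∀ (K Λ E : Type) [Field K] [Ring Λ] [Algebra K Λ] [Ring E] [Algebra K E], Fac K E →
    Nonempty (Λ ≃ₐ[K] E × E) → CSplit K Λ) ∧
  (∀ (K Λ Λ' : Type) [Field K] [Ring Λ] [Ring Λ'] [Algebra K Λ] [Algebra K Λ'] (π : Λ →ₐ[K] Λ'),
    Surjective π → IsNilpotent (RingHom.ker π) → CSplit K Λ' → CSplit K Λ) ∧
  (∀ (K Λ : Type) [Field K] [Ring Λ] [Algebra K Λ], Ruled K → QuatSplit K Λ → CSplit K Λ)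

/-- **EV2** (1.5 h). Rank two. `C = even Q` is generated by `ζ = e_0 e_1`, `ζ² = -w_0 w_1 = δ` (`e_i = ι (Pi.single i 1)`), so `C = K + K ζ`, and
`ζ` is not a scalar (`e_0 ζ e_0⁻¹ = -ζ` in the Clifford algebra, while scalars commute with `e_0`; `ζ ≠ 0`). If `δ` is not a square in `K` then
`K[X]/(X² - δ)` is a field, isomorphic to `C` and to `L`. If `δ = ε²` then `z = ± ε`, `L = K`, and
`(x, y) ↦ x (1 + ζ/ε)/2 + y (1 - ζ/ε)/2` is an isomorphism `K × K → C`. -/
def St_EV2 : Prop :=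
  ∀ (K : Type) [Field K] (w : Fin 2 → K), (2 : K) ≠ 0 → (∀ i, w i ≠ 0) → ∀ (L : Type) [Field L]
    [Algebra K L] (z : L), z ^ 2 = algebraMap K L (-(w 0 * w 1)) →
    IntermediateField.adjoin K {z} = ⊤ →
    Nonempty (CliffordAlgebra.even (QuadraticMap.weightedSumSquares K w) ≃ₐ[K] L) ∨
      Nonempty (CliffordAlgebra.even (QuadraticMap.weightedSumSquares K w) ≃ₐ[K] L × L)

/-- **EV3** (1 h). Rank three: the proof of `TER` in `Pool/Agent/QCT/TER.lean` (copy; the basis vectors are orthogonal). -/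
def St_EV3 : Prop :=
  ∀ (K : Type) [Field K] (w : Fin 3 → K), (2 : K) ≠ 0 → (∀ i, w i ≠ 0) → ∃ a b : K, a ≠ 0 ∧
    b ≠ 0 ∧ Nonempty (CliffordAlgebra.even (QuadraticMap.weightedSumSquares K w) ≃ₐ[K] ℍ[K,a,b])

/-- **EV4** (3 h). Rank four. Proof. Let `e_i = ι (Pi.single i 1)`, `C = even Q` and `ζ = e_0 e_1 e_2 e_3`; it commutes with all `e_i e_j`, so
it is central in `C`, `ζ² = w_0 w_1 w_2 w_3 = δ`, and `e_0 ζ = -ζ e_0`. Let `a = -w_0 w_1`, `b = -w_0 w_2`, `I = e_0 e_1`, `J = e_0 e_2`: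
`I² = a`, `J² = b`, `I J = -w_0 e_1 e_2 = -J I`. `C` is generated as an algebra by `I`, `J`, `ζ` (`e_1 e_2 = -w_0⁻¹ I J`;
`e_0 e_3` is a scalar multiple of `ζ I J` as `ζ = (e_0 e_3)(e_1 e_2)`; all `e_i e_j` are products of the `e_0 e_k` up to scalars).
Case 1, `δ` is not a square in `K`. `L' = AdjoinRoot (X ^ 2 - C δ)` is a field and `C` is an `L'`-algebra by `X ↦ ζ`
(`AdjoinRoot.lift`, `RingHom.toAlgebra'`). The homomorphism `ℍ[L',a,b] → C` of `L'`-algebras (`QuaternionAlgebra.Basis.liftHom`) is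
surjective, and injective by `TER_inj` (`Pool/Agent/QCT/TER.lean`, copy) for the field `L'`. `L' ≅ L` over `K`.
Case 2, `δ = ε²`. Then `z = ± ε`, `L = K`. `f : ℍ[K,a,b] → C`, `u = (1 + ζ/ε)/2`, `v = (1 - ζ/ε)/2` central idempotents with `u v = 0`,
`u + v = 1`; `(x, y) ↦ f(x) u + f(y) v` is a homomorphism `ℍ × ℍ → C`, surjective (the image contains `I`, `J`, `ζ`). Injective:
`u, v ≠ 0` (if `ζ = ∓ ε` were a scalar then `e_0 ζ = ζ e_0` and `2 e_0 ζ = 0`, but `e_0² = w_0` and `ζ² = δ` are nonzero scalars), and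
`x ↦ f(x) u` is injective, because its kernel is a two-sided ideal which does not contain `1` (compare `TER_inj`: the target is a ring
with unit `u`; or use the explicit computation of scalars in the kernel there). -/
def St_EV4 : Prop :=
  ∀ (K : Type) [Field K] (w : Fin 4 → K), (2 : K) ≠ 0 → (∀ i, w i ≠ 0) → ∀ (L : Type) [Field L]
    [Algebra K L] (z : L), z ^ 2 = algebraMap K L (w 0 * w 1 * w 2 * w 3) →
    IntermediateField.adjoin K {z} = ⊤ → ∃ a b : L, a ≠ 0 ∧ b ≠ 0 ∧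
    (Nonempty (CliffordAlgebra.even (QuadraticMap.weightedSumSquares K w) ≃ₐ[K] ℍ[L,a,b]) ∨
      Nonempty (CliffordAlgebra.even (QuadraticMap.weightedSumSquares K w) ≃ₐ[K]
        ℍ[L,a,b] × ℍ[L,a,b]))

/-- **EV5** (1 h), with the hypothesis `St_QUIN`: the form `∑ w_i x_i²` is nondegenerate. -/
def St_EV5 : Prop :=
  ∀ (K : Type) [Field K] (w : Fin 5 → K), (2 : K) ≠ 0 → (∀ i, w i ≠ 0) → ∃ a b c d : K, a ≠ 0 ∧
    b ≠ 0 ∧ c ≠ 0 ∧ d ≠ 0 ∧ Nonempty
      (CliffordAlgebra.even (QuadraticMap.weightedSumSquares K w) ≃ₐ[K] BQ K a b c d)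

/-- **EV6** (3.5 h). Rank six. Proof. As `St_EV4`, with `ζ = e_0 e_1 e_2 e_3 e_4 e_5`, central in `C = even Q`, `ζ² = -∏ w_i = δ`,
`e_0 ζ = -ζ e_0`, and the four elements `i_1 = u_1`, `j_1 = u_2`, `i_2 = u_1 u_2 u_3`, `j_2 = u_1 u_2 u_4` of `St_QUIN`
(`u_i = e_0 e_i`, see `Pool/Agent/Q4/QUIN.lean`), which together with `ζ` generate `C` (`ζ` is a scalar multiple of
`(e_0 e_5)` times a product of `u_1, …, u_4`). Case 1 (`δ` not a square): `C` is an algebra over `L' = AdjoinRoot (X ^ 2 - C δ)`,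
`BQ L' a b c d → C` is surjective, and injective by the simplicity of biquaternion algebras over the field `L'` (proved in `QUIN.lean`
over any field). Case 2 (`δ = ε²`): `(x, y) ↦ f(x) u + f(y) v` on `BQ K × BQ K`. -/
def St_EV6 : Prop :=
  ∀ (K : Type) [Field K] (w : Fin 6 → K), (2 : K) ≠ 0 → (∀ i, w i ≠ 0) → ∀ (L : Type) [Field L]
    [Algebra K L] (z : L), z ^ 2 = algebraMap K L (-∏ i, w i) →
    IntermediateField.adjoin K {z} = ⊤ → ∃ a b c d : L, a ≠ 0 ∧ b ≠ 0 ∧ c ≠ 0 ∧ d ≠ 0 ∧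
    (Nonempty (CliffordAlgebra.even (QuadraticMap.weightedSumSquares K w) ≃ₐ[K]
      ℍ[L,a,b] ⊗[L] ℍ[L,c,d]) ∨
      Nonempty (CliffordAlgebra.even (QuadraticMap.weightedSumSquares K w) ≃ₐ[K]
        (ℍ[L,a,b] ⊗[L] ℍ[L,c,d]) × (ℍ[L,a,b] ⊗[L] ℍ[L,c,d])))

/-- the field `K(√δ)`, `δ = (-1) ^ (r / 2) ∏ w_i` the signed discriminant of `∑ w_i x_i²`, `i < r`, is `Ruled` -/
def RDisc (K : Type) [Field K] {r : ℕ} (w : Fin r → K) : Prop :=
  ∃ (L : Type) (_ : Field L) (_ : Algebra K L) (z : L),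
    z ^ 2 = algebraMap K L ((-1) ^ (r / 2) * ∏ i, w i) ∧ IntermediateField.adjoin K {z} = ⊤ ∧
    Ruled L

/-- **EVA** (2 h), assembly, with the hypotheses `St_RK1`, `St_EV2`, …, `St_EV6`, `St_CS1`. Proof. Distinguish `r = 0, …, 6`. `r = 0, 1`: `even Q = K`.
`r` even: `L = K(z)` is finite over `K` (degree at most two). -/
def St_EVA : Prop :=
  ∀ (K : Type) [Field K] (r : ℕ) (w : Fin r → K), (2 : K) ≠ 0 → Ruled K → (∀ i, w i ≠ 0) →
    (r ≤ 4 ∨ (r ≤ 6 ∧ ∃ p : ℕ, p.Prime ∧ (p : K) = 0)) → (Odd r ∨ RDisc K w) →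
    CSplit K (CliffordAlgebra.even (QuadraticMap.weightedSumSquares K w))

end Pool.Agent.Q4
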