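import Pool.Agent.Q4.StA2

/-!
# Q4, statements, part K: torsion modules over biquaternion orders (module KEY of the paper)
-/

set_option autoImplicit false

namespace Pool.Agent.Q4

open Quaternion TensorProduct Function Pool.Agent.QTB Pool.Agent.QCB

/-- **KR** (2 h), with the hypothesis `St_SIMQ`. Representations of a biquaternion order modulo a prime.
Proof. Let `E`, `φ`, `ρ : BQ A → Mat_r(E)` be as in `RepAt`. The images `ρ(m)` of the `16` basis elements `m` (`bas`) are linearly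
independent over `E`: a nontrivial relation `∑ e_m ρ(m) = 0` can be multiplied by a common denominator, so that `e_m = φ(x_m)` with `x_m ∈ A`
(`IsRes`); then `z = ∑ x_m m` satisfies `ρ(z) = 0` and is not divisible by `q` (some `φ(x_m) ≠ 0`, coordinates with respect to
`bas`). Let `N = (Fin r → E)` with the module structure given by `ρ` (`Matrix.mulVec`); it is killed by `z`, so by `St_SIMQ`
some `s` with `¬ q ∣ s` kills `N`; but `ρ(s) = φ(s) • 1` and `φ(s) ≠ 0`, a contradiction to `0 < r`. Hence `16 ≤ dim Mat_r(E) = r²`,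
`4 ≤ r`. If `r = 4` the matrices `I = ρ(i ⊗ 1)`, `J = ρ(j ⊗ 1)`, `K = ρ(1 ⊗ i)`, `L = ρ(1 ⊗ j)` show `SplAt`. -/
def St_KR : Prop :=
  ∀ (A : Type) [CommRing A] [IsDomain A] (a b c d q : A) (r : ℕ), IsUnit (2 : A) → IsUnit a →
    IsUnit b → IsUnit c → IsUnit d → Prime q → 0 < r →
    RepAt A (Pool.Agent.QTB.BQ A a b c d) q r → 4 ≤ r ∧ (r = 4 → SplAt a b c d q)

/-- **KB** (3 h). Counting with prime factors.
Proof. Pass to associate classes: `t` and `r` are functions of the class. For `x ∈ Z` with `m` as in the hypothesis and a prime class `c` let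
`k_c` be the number of elements of `m` in `c`; then `k_c r_c = v_c(x)`, the multiplicity of `c` in `x`, and `∑_c k_c t_c = 0` (finite sum over the
classes occurring in `m`; `Finset.sum_multiset_map_count`). (1) `x = q ^ 16`: `k_c = 0` for the other classes, `k_q r_q = 16` and
`k_q t_q = 0`. So `r_q ∈ {4, 8, 16}` and `(16 / r_q) t_q = 0` for every prime `q`. (2) `x² = q ^ 16 β ^ 32` gives
`v_c(x) = 8 v_c(q) + 16 v_c(β)`. For `c ≠ (q)`: `k_c = (16 / r_c) v_c(β)`, so `k_c t_c = 0` by (1). So `k_q t_q = 0` with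
`k_q r_q = 8 + 16 v_q(β)`. `r_q = 16` is impossible. If `r_q = 8` then `k_q = 1 + 2 v_q(β)`, `2 t_q = 0` by (1), so `t_q = 0`. If
`r_q = 4` then `k_q = 2 + 4 v_q(β)`, `4 t_q = 0` by (1), so `2 t_q = 0`. (3) Let `x ^ 4 ξ ^ 32 = (p p') ^ 16 η ^ 32`. If `p`, `p'` are
associated there is nothing to prove. Otherwise `v_c(x) = 4 v_c(p p') + 8 (v_c(η) - v_c(ξ))`. For all `c` with `r_c = 8` we have `t_c = 0`. For
`r_c = 4`: `k_c = v_c(p p') + 2 (v_c(η) - v_c(ξ))` and `2 t_c = 0`, so `k_c t_c = v_c(p p') t_c`. So `0 = ∑ k_c t_c = t_p + t_p'`, and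
`t_p = -t_p' = t_p'`. -/
def St_KB : Prop :=
  ∀ (A : Type) [CommRing A] [IsDomain A] [UniqueFactorizationMonoid A] (Γ : Type 1)
    [AddCommGroup Γ] (t : A → Γ) (r : A → ℕ) (Z : Set A),
    (∀ q q' : A, Associated q q' → t q = t q' ∧ r q = r q') → (∀ q : A, Prime q → 4 ≤ r q) →
    (∀ x ∈ Z, x ≠ 0 ∧ ∃ m : Multiset A, (∀ q ∈ m, Prime q) ∧
      Associated x (m.map fun q => q ^ r q).prod ∧ (m.map t).sum = 0) →
    (∀ q : A, Prime q → q ^ 16 ∈ Z) →
    (∀ q : A, Prime q → ∃ x ∈ Z, ∃ β : A, β ≠ 0 ∧ x ^ 2 = q ^ 16 * β ^ 32) →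
    (∀ q : A, Prime q → 2 • t q = 0 ∧ (r q ≠ 4 → t q = 0)) ∧
    ∀ p p' : A, Prime p → Prime p' → (∃ x ∈ Z, ∃ ξ η : A, ξ ≠ 0 ∧ η ≠ 0 ∧
      x ^ 4 * ξ ^ 32 = (p * p') ^ 16 * η ^ 32) → t p = t p'

/-- **KEY** (2 h), with the hypotheses `St_KR`, `St_KB`, `St_RNQ`, `St_PSA`. The hypothesis `h` is the conclusion of `FORMg`
(`Pool/Agent/QTB`). Proof. Let `t, r` be as in `h` and `Z = {rn z | z ≠ 0}` (`rn z ≠ 0` by `St_RNQ`). `4 ≤ r q` and `r q = 4 → SplAt` by `St_KR`.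
`q ^ 16 = rn q`. For a prime `q` let `x, y` be as in `hiso`; if `y = 0` then `alpha(x) = 0`, `x = 0`, so `y ≠ 0`, and then
`alpha(x) = q alpha(y) ≠ 0`; `z = vv x * pv y` is not `0` because `rn(z)² = alpha(x) ^ 16 alpha(y) ^ 16 = q ^ 16 alpha(y) ^ 32`
(`St_RNQ`). `Iso3` for `f = p p'`: `St_PSA`. So `St_KB` applies and gives everything. -/
def St_KEY : Prop :=
  ∀ (A : Type) [CommRing A] [IsDomain A] [UniqueFactorizationMonoid A] (a b c d : A),
    IsUnit (2 : A) → IsUnit a → IsUnit b → IsUnit c → IsUnit d →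
    (∀ x : Fin 6 → A, dg (alc a b c d) x x = 0 → x = 0) →
    (∀ q : A, q ≠ 0 → ∃ x y : Fin 6 → A, (x ≠ 0 ∨ y ≠ 0) ∧
      dg (alc a b c d) x x = q * dg (alc a b c d) y y) →
    ∀ (Γ : Type 1) [AddCommGroup Γ] (ψ : NAdd (Pool.Agent.QTB.BQ A a b c d) Γ)
    (_ : ∃ (t : A → Γ) (r : A → ℕ), (∀ q q' : A, Associated q q' → t q = t q' ∧ r q = r q') ∧
      (∀ q : A, Prime q → 0 < r q ∧ RepAt A (Pool.Agent.QTB.BQ A a b c d) q (r q)) ∧
      (∀ z : Pool.Agent.QTB.BQ A a b c d, rn (A := A) z ≠ 0 → ∃ m : Multiset A,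
        (∀ q ∈ m, Prime q) ∧ Associated (rn (A := A) z) (m.map fun q => q ^ r q).prod ∧
        (m.map t).sum = 0) ∧
      ∀ (N : Type) [AddCommGroup N] [Module (Pool.Agent.QTB.BQ A a b c d) N]
        [Module.Finite (Pool.Agent.QTB.BQ A a b c d) N],
        (∃ s : A, s ≠ 0 ∧ Kil s N (Λ := Pool.Agent.QTB.BQ A a b c d)) →
        ψ.val N ∈ AddSubgroup.closure (t '' {q | Prime q})),
    ∃ t : A → Γ, (∀ q q' : A, Associated q q' → t q = t q') ∧
      (∀ q : A, Prime q → 2 • t q = 0) ∧ (∀ q : A, Prime q → ¬ SplAt a b c d q → t q = 0) ∧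
      (∀ p p' : A, Prime p → Prime p' → Iso3 (alc a b c d) (p * p') → t p = t p') ∧
      ∀ (N : Type) [AddCommGroup N] [Module (Pool.Agent.QTB.BQ A a b c d) N]
        [Module.Finite (Pool.Agent.QTB.BQ A a b c d) N],
        (∃ s : A, s ≠ 0 ∧ Kil s N (Λ := Pool.Agent.QTB.BQ A a b c d)) →
        ψ.val N ∈ AddSubgroup.closure (t '' {q | Prime q})

end Pool.Agent.Q4
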