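import Pool.Agent.Q4.Defs
import Pool.Agent.QCB.Defs
import Pool.Agent.Helper67.Bass.Defs

/-!
# Q4: the final statement of steps 1-3 (interface)
-/

set_option autoImplicit false

namespace Pool.Agent.Q4

open Polynomial Pool.Agent.QCB Pool.Agent.Helper67.Bass

/-- **QORD4.** `G₀` of small localisations of biquaternion orders over `R[X]`, `R` an affine curve over a finite field -/
def St_QORD4 : Prop :=
  ∀ (p : ℕ) [Fact p.Prime] (R : Type) [CommRing R] [IsDomain R] [Algebra.FiniteType ℤ R]
    [Infinite R] [CharP R p], (2 : R) ≠ 0 → KroneckerLeOne (FractionRing R) →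
    ∀ (K : Type) [Field K] [Algebra R[X] K] [IsFractionRing R[X] K] (a b c d : R[X]),
    Anis (algebraMap R[X] K a) (algebraMap R[X] K b) (algebraMap R[X] K c) (algebraMap R[X] K d) →
    ∃ s : R[X], s ≠ 0 ∧ ∀ x : R[X], x ≠ 0 → s ∣ x →
      GFG (BQ (Localization.Away x) (algebraMap _ _ a) (algebraMap _ _ b) (algebraMap _ _ c)
        (algebraMap _ _ d))

end Pool.Agent.Q4
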