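import Pool.Agent.QCT.All
import Pool.Agent.Q4.StD
import Pool.Agent.Q4.StQ4

/-!
# Q4, module TOP4: the theorem
-/

set_option autoImplicit false
set_option linter.style.haveILetI false

namespace Pool.Agent.Q4

open Pool.Agent.TQF Pool.Agent.QCB Pool.Agent.QCT Function TensorProduct MvPolynomial
open Pool.Agent.Helper11 Pool.Agent.Helper67.Bass Quaternion

/-- scaling by squares -/
theorem TOP4_sc {K : Type} [Field K] {a b c d u v w x : K} (hu : u ≠ 0) (hv : v ≠ 0) (hw : w ≠ 0)
    (hx : x ≠ 0) (h : Anis a b c d) : Anis (u ^ 2 * a) (v ^ 2 * b) (w ^ 2 * c) (x ^ 2 * d) := by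
  intro y hy
  have h1 := h ![u * y 0, v * y 1, u * v * y 2, w * y 3, x * y 4, w * x * y 5] (by
    rw [← hy]
    simp [alb, albC, Fin.sum_univ_succ]
    ring)
  have e : ∀ i, (![u * y 0, v * y 1, u * v * y 2, w * y 3, x * y 4, w * x * y 5] :
      Fin 6 → K) i = 0 := fun i => congrFun h1 i
  funext i
  fin_cases i
  · exact (mul_eq_zero.1 (e 0)).resolve_left hu
  · exact (mul_eq_zero.1 (e 1)).resolve_left hv
  · exact (mul_eq_zero.1 (e 2)).resolve_left (mul_ne_zero hu hv)
  · exact (mul_eq_zero.1 (e 3)).resolve_left hw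
  · exact (mul_eq_zero.1 (e 4)).resolve_left hx
  · exact (mul_eq_zero.1 (e 5)).resolve_left (mul_ne_zero hw hx)

theorem Anis.ne {K : Type} [Field K] {a b c d : K} (h : Anis a b c d) :
    a ≠ 0 ∧ b ≠ 0 ∧ c ≠ 0 ∧ d ≠ 0 := by
  refine ⟨?_, ?_, ?_, ?_⟩
  · rintro rfl
    have h1 := congrFun (h (Pi.single 0 1) (by simp [alb, albC, Fin.sum_univ_succ])) 0
    simp at h1
  · rintro rfl
    have h1 := congrFun (h (Pi.single 1 1) (by simp [alb, albC, Fin.sum_univ_succ])) 1
    simp at h1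
  · rintro rfl
    have h1 := congrFun (h (Pi.single 3 1) (by simp [alb, albC, Fin.sum_univ_succ])) 3
    simp at h1
  · rintro rfl
    have h1 := congrFun (h (Pi.single 4 1) (by simp [alb, albC, Fin.sum_univ_succ])) 4
    simp at h1

/-- invariance of the hypothesis under isomorphisms -/
theorem BiquatSplit.congr {K Λ Λ' : Type} [Field K] [Ring Λ] [Ring Λ'] [Algebra K Λ] [Algebra K Λ']
    (e : Λ ≃ₐ[K] Λ') (h : BiquatSplit K Λ) : BiquatSplit K Λ' := by
  obtain ⟨r, d, E, i1, i2, π, hsurj, ⟨n, hn⟩, hab⟩ := h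
  refine ⟨r, d, E, i1, i2, π.comp (e.symm : Λ' →ₐ[K] Λ), ?_, ⟨n, ?_⟩, hab⟩
  · intro y
    obtain ⟨x, hx⟩ := hsurj y
    refine ⟨e x, ?_⟩
    rw [AlgHom.comp_apply]
    simpa using hx
  · have key : ∀ n : ℕ, ∀ y ∈ (RingHom.ker (π.comp (e.symm : Λ' →ₐ[K] Λ))) ^ n,
        e.symm y ∈ (RingHom.ker π) ^ n := by
      intro n
      induction n with
      | zero =>
        intro y _
        rw [Submodule.pow_zero, Submodule.one_eq_span]
        exact Submodule.mem_span_singleton.2 ⟨e.symm y, by rw [smul_eq_mul, mul_one]⟩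
      | succ n ih =>
        intro y hy
        rw [Submodule.pow_succ] at hy ⊢
        have h1 : (RingHom.ker (π.comp (e.symm : Λ' →ₐ[K] Λ))) ^ n *
            (RingHom.ker (π.comp (e.symm : Λ' →ₐ[K] Λ))) ≤
            Ideal.comap (e.symm : Λ' ≃ₐ[K] Λ) ((RingHom.ker π) ^ n * RingHom.ker π) := by
          rw [Ideal.mul_le]
          intro u hu v hv
          rw [Ideal.mem_comap, map_mul]
          refine Ideal.mul_mem_mul (ih u hu) ?_
          rw [RingHom.mem_ker] at hv ⊢
          exact hv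
        exact h1 hy
    rw [Submodule.zero_eq_bot, eq_bot_iff]
    intro y hy
    have h1 := key n y hy
    rw [hn] at h1
    have h2 : e.symm y = 0 := h1
    have h3 : y = 0 := by
      rw [← e.apply_symm_apply y, h2, map_zero]
    rw [h3]
    exact Submodule.zero_mem _


section quad

variable {A : Type} [CommRing A] [IsDomain A] [IsNoetherianRing A]

theorem TOP4_quad (hGNC : St_GNC4) (hBC : St_BCQ) (hGm : St_Gm) (hF : St_LamF)
    {K : Type} [Field K] [Algebra A K] [IsFractionRing A K] (h2 : (2 : K) ≠ 0)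
    (hA : ∃ s : A, s ≠ 0 ∧ ∀ (x : A) (V : Type) [CommRing V] [Algebra A V]
      [IsLocalization.Away x V], s ∣ x → FinGn V)
    (hQ : ∀ a b : A, a ≠ 0 → b ≠ 0 → ∃ s : A, s ≠ 0 ∧ ∀ (x : A) (V : Type) [CommRing V]
      [Algebra A V] [IsLocalization.Away x V], x ≠ 0 → s ∣ x →
        GFG ℍ[V,algebraMap A V a,algebraMap A V b])
    (hB : ∀ a b c d : A, Anis (algebraMap A K a) (algebraMap A K b) (algebraMap A K c)
      (algebraMap A K d) → ∃ s : A, s ≠ 0 ∧ ∀ (x : A) (V : Type) [CommRing V]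
      [Algebra A V] [IsLocalization.Away x V], x ≠ 0 → s ∣ x →
        GFG (BQ V (algebraMap A V a) (algebraMap A V b) (algebraMap A V c) (algebraMap A V d)))
    (n : ℕ) (f : MvPolynomial (Fin n) A) (hf : f.totalDegree ≤ 2) (u : A) (hu0 : u ≠ 0)
    (hu : (∃ i, f.coeff (Finsupp.single i 2) = u) ∨ ∃ i j, i ≠ j ∧
      f.coeff (Finsupp.single i 2) + f.coeff (Finsupp.single j 2) +
        f.coeff (Finsupp.single i 1 + Finsupp.single j 1) = u)
    (hS : BiquatSplit K (CliffordAlgebra.even (hform (MvPolynomial.map (algebraMap A K) f)))) :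
    ∃ (x : A) (V : Type) (_ : CommRing V) (_ : Algebra A V), x ≠ 0 ∧
      IsLocalization.Away x V ∧ AddGroup.FG (G0 (MvPolynomial (Fin n) V ⧸
        Ideal.span {MvPolynomial.map (algebraMap A V) f})) := by
  obtain ⟨s₀, hs₀, hA⟩ := hA
  obtain ⟨A₁, _, _, _⟩ : ∃ (A₁ : Type) (_ : CommRing A₁) (_ : Algebra A A₁),
      IsLocalization.Away u A₁ := ⟨Localization.Away u, inferInstance, inferInstance, inferInstance⟩
  have _ : IsDomain A₁ := IsLocalization.Away.isDomain (R := A) _ hu0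
  have _ : IsNoetherianRing A₁ :=
    IsLocalization.isNoetherianRing (Submonoid.powers u) A₁ inferInstance
  have hinj : Injective (algebraMap A A₁) :=
    IsLocalization.injective A₁ (powers_le_nonZeroDivisors_of_noZeroDivisors hu0)
  have hunit : IsUnit (algebraMap A A₁ u) := IsLocalization.Away.algebraMap_isUnit u
  have huK : IsUnit (algebraMap A K u) := by
    rw [isUnit_iff_ne_zero, Ne, map_eq_zero_iff _ (IsFractionRing.injective A K)]
    exact hu0
  let _ : Algebra A₁ K := (IsLocalization.Away.lift (S := A₁) u huK).toAlgebra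
  have _ : IsScalarTower A A₁ K := IsScalarTower.of_algebraMap_eq fun y =>
    (IsLocalization.Away.lift_eq (S := A₁) u huK y).symm
  have _ : IsFractionRing A₁ K :=
    IsFractionRing.isFractionRing_of_isDomain_of_isLocalization (Submonoid.powers u) A₁ K
  obtain ⟨m, q, hiso, ⟨e⟩⟩ := MonX (A := A₁) (K := K) n (MvPolynomial.map (algebraMap A A₁) f)
    ((TOPV_deg (algebraMap A A₁) f).trans hf) (by
      simp only [MvPolynomial.coeff_map, ← map_add]
      rcases hu with ⟨i, hi⟩ | ⟨i, j, hij, h⟩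
      · exact Or.inl ⟨i, by rw [hi]; exact hunit⟩
      · exact Or.inr ⟨i, j, hij, by rw [h]; exact hunit⟩)
  rw [MvPolynomial.map_map, ← IsScalarTower.algebraMap_eq] at e
  obtain ⟨e2⟩ := LamBC (K := K) m q
  have hS' : BiquatSplit K (K ⊗[A₁] Lam q) := (hS.congr e).congr e2.symm
  have _ : Module.Finite A₁ (Lam q) := hF A₁ m q
  have hA' : ∃ s : A₁, s ≠ 0 ∧ ∀ s' : A₁, s' ≠ 0 → s ∣ s' → GFG (Localization.Away s') := by
    refine ⟨algebraMap A A₁ s₀, (map_ne_zero_iff _ hinj).2 hs₀, fun s' hs' hd => ?_⟩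
    obtain ⟨x, hx, hd', hV⟩ := TOPV_tower (V := Localization.Away s') u hu0 s₀ s' hs' hd
    exact (EGFG.modC_iff _).1 (EGFG.of_finG _ (TOPV_T0 (hA x (Localization.Away s') hd')))
  have hQ' : ∀ a b : A₁, a ≠ 0 → b ≠ 0 → ∃ s : A₁, s ≠ 0 ∧ ∀ s' : A₁, s' ≠ 0 → s ∣ s' →
      GFG ℍ[Localization.Away s',algebraMap A₁ (Localization.Away s') a,
        algebraMap A₁ (Localization.Away s') b] := by
    intro a b ha hb
    obtain ⟨a', ha', w, hw, rfl⟩ := TOPV_sq u a ha
    obtain ⟨b', hb', z, hz, rfl⟩ := TOPV_sq u b hb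
    obtain ⟨s, hs, h⟩ := hQ a' b' ha' hb'
    refine ⟨algebraMap A A₁ s, (map_ne_zero_iff _ hinj).2 hs, fun s' hs' hd => ?_⟩
    obtain ⟨x, hx, hd', hV⟩ := TOPV_tower (V := Localization.Away s') u hu0 s s' hs' hd
    have h1 := h x (Localization.Away s') hx hd'
    rw [IsScalarTower.algebraMap_apply A A₁ (Localization.Away s') a',
      IsScalarTower.algebraMap_apply A A₁ (Localization.Away s') b'] at h1
    rw [map_mul, map_mul, map_pow, map_pow]
    obtain ⟨e3⟩ := QI1 (algebraMap A₁ (Localization.Away s') (algebraMap A A₁ a'))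
      (algebraMap A₁ (Localization.Away s') z ^ 2 *
        algebraMap A₁ (Localization.Away s') (algebraMap A A₁ b'))
      (algebraMap A₁ (Localization.Away s') w) (hw.map _)
    obtain ⟨e4⟩ := QI2 (algebraMap A₁ (Localization.Away s') (algebraMap A A₁ a'))
      (algebraMap A₁ (Localization.Away s') (algebraMap A A₁ b'))
      (algebraMap A₁ (Localization.Away s') z) (hz.map _)
    exact GFG.of_equiv (e3.trans e4).symm h1
  have hB' : ∀ a b c d : A₁, Anis (algebraMap A₁ K a) (algebraMap A₁ K b) (algebraMap A₁ K c)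
      (algebraMap A₁ K d) → ∃ s : A₁, s ≠ 0 ∧ ∀ s' : A₁, s' ≠ 0 → s ∣ s' →
      GFG (BQ (Localization.Away s') (algebraMap A₁ _ a) (algebraMap A₁ _ b) (algebraMap A₁ _ c)
        (algebraMap A₁ _ d)) := by
    intro a b c d han
    obtain ⟨ha0, hb0, hc0, hd0⟩ := han.ne
    have nz : ∀ z : A₁, algebraMap A₁ K z ≠ 0 → z ≠ 0 := by
      rintro z hz rfl
      exact hz (map_zero _)
    obtain ⟨a', ha', wa, hwa, rfl⟩ := TOPV_sq u a (nz a ha0)
    obtain ⟨b', hb', wb, hwb, rfl⟩ := TOPV_sq u b (nz b hb0)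
    obtain ⟨c', hc', wc, hwc, rfl⟩ := TOPV_sq u c (nz c hc0)
    obtain ⟨d', hd', wd, hwd, rfl⟩ := TOPV_sq u d (nz d hd0)
    have nu : ∀ w : A₁, IsUnit w → algebraMap A₁ K w ≠ 0 := fun w hw => (hw.map _).ne_zero
    have han' : Anis (algebraMap A K a') (algebraMap A K b') (algebraMap A K c')
        (algebraMap A K d') := by
      have h1 := TOP4_sc (inv_ne_zero (nu wa hwa)) (inv_ne_zero (nu wb hwb))
        (inv_ne_zero (nu wc hwc)) (inv_ne_zero (nu wd hwd)) han
      have e1 : ∀ (w : A₁) (hw : IsUnit w) (z : A), (algebraMap A₁ K w)⁻¹ ^ 2 *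
          algebraMap A₁ K (w ^ 2 * algebraMap A A₁ z) = algebraMap A K z := by
        intro w hw z
        have := nu w hw
        rw [map_mul, map_pow, ← IsScalarTower.algebraMap_apply A A₁ K]
        field_simp
      rwa [e1 wa hwa, e1 wb hwb, e1 wc hwc, e1 wd hwd] at h1
    obtain ⟨s, hs, h⟩ := hB a' b' c' d' han'
    refine ⟨algebraMap A A₁ s, (map_ne_zero_iff _ hinj).2 hs, fun s' hs' hd => ?_⟩
    obtain ⟨x, hx, hd', hV⟩ := TOPV_tower (V := Localization.Away s') u hu0 s s' hs' hd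
    have h1 := h x (Localization.Away s') hx hd'
    rw [IsScalarTower.algebraMap_apply A A₁ (Localization.Away s') a',
      IsScalarTower.algebraMap_apply A A₁ (Localization.Away s') b',
      IsScalarTower.algebraMap_apply A A₁ (Localization.Away s') c',
      IsScalarTower.algebraMap_apply A A₁ (Localization.Away s') d'] at h1
    rw [map_mul _ (wa ^ 2), map_mul _ (wb ^ 2), map_mul _ (wc ^ 2), map_mul _ (wd ^ 2), map_pow _ wa,
      map_pow _ wb, map_pow _ wc, map_pow _ wd]
    obtain ⟨e3⟩ := hBC.2.2.2 (Localization.Away s')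
      (algebraMap A₁ (Localization.Away s') (algebraMap A A₁ a'))
      (algebraMap A₁ (Localization.Away s') (algebraMap A A₁ b'))
      (algebraMap A₁ (Localization.Away s') (algebraMap A A₁ c'))
      (algebraMap A₁ (Localization.Away s') (algebraMap A A₁ d'))
      (algebraMap A₁ (Localization.Away s') wa) (algebraMap A₁ (Localization.Away s') wb)
      (algebraMap A₁ (Localization.Away s') wc) (algebraMap A₁ (Localization.Away s') wd)
      (hwa.map _) (hwb.map _) (hwc.map _) (hwd.map _)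
    exact GFG.of_equiv e3.symm.toRingEquiv h1
  obtain ⟨s, hs, hG⟩ := hGNC A₁ K h2 hA' hQ' hB' (Lam q) hS'
  obtain ⟨k, s₁, hs₁⟩ := IsLocalization.Away.surj u s
  have hy : algebraMap A A₁ (s₁ * s₀) ≠ 0 := by
    rw [map_mul, ← hs₁]
    exact mul_ne_zero (mul_ne_zero hs (pow_ne_zero _ hunit.ne_zero))
      ((map_ne_zero_iff _ hinj).2 hs₀)
  have hsy : s ∣ algebraMap A A₁ (s₁ * s₀) := by
    rw [map_mul, ← hs₁, mul_assoc]
    exact Dvd.intro _ rfl
  have h1 := hG _ hy hsy
  obtain ⟨V, _, _, _, _, hV, hG'⟩ : ∃ (V : Type) (_ : CommRing V) (_ : Algebra A₁ V)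
      (_ : Algebra A V) (_ : IsScalarTower A A₁ V),
      IsLocalization.Away (algebraMap A A₁ (s₁ * s₀)) V ∧ GFG (V ⊗[A₁] Lam q) :=
    ⟨Localization.Away (algebraMap A A₁ (s₁ * s₀)), inferInstance, inferInstance, inferInstance,
      inferInstance, inferInstance, h1⟩
  have hx : IsLocalization.Away (s₁ * s₀ * u) V := IsLocalization.Away.mul A₁ V u (s₁ * s₀)
  have hfV : FinGn V := hA (s₁ * s₀ * u) V ⟨s₁ * u, by ring⟩
  have _ : IsNoetherianRing V :=
    IsLocalization.isNoetherianRing (Submonoid.powers (s₁ * s₀ * u)) V inferInstance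
  have h3 : EGFG (qC (q.map (algebraMap A₁ V)).l (q.map (algebraMap A₁ V)).g) :=
    GQ hGm V m (q.map (algebraMap A₁ V)) (TOPV_T0 hfV) (GLam hF A₁ V m q hG')
  have h4 := GT (MvPolynomial (Fin m) V) _ _ h3
  obtain ⟨e3⟩ := hiso V
  rw [MvPolynomial.map_map, ← IsScalarTower.algebraMap_eq] at e3
  refine ⟨s₁ * s₀ * u, V, inferInstance, inferInstance, mul_ne_zero (mul_ne_zero ?_ hs₀) hu0, hx,
    BassH.closed_equiv _ _ e3.symm h4⟩
  rintro rfl
  rw [zero_mul, map_zero] at hy
  exact hy rfl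

end quad

/-- transport along an isomorphism of base rings -/
theorem TOP4_ring (hBC : St_BCQ) {B B' : Type} [CommRing B] [CommRing B'] (e : B ≃+* B')
    (a b c d : B) (h : GFG (BQ B a b c d)) : GFG (BQ B' (e a) (e b) (e c) (e d)) := by
  letI : Algebra B B' := (e : B →+* B').toAlgebra
  let e' : B ≃ₐ[B] B' := AlgEquiv.ofRingEquiv (f := e) (fun x => rfl)
  obtain ⟨e3⟩ := hBC.2.1 B B' a b c d
  let e4 : B ⊗[B] BQ B a b c d ≃ₐ[B] B' ⊗[B] BQ B a b c d :=
    Algebra.TensorProduct.congr e' AlgEquiv.refl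
  exact GFG.of_equiv (((Algebra.TensorProduct.lid B (BQ B a b c d)).symm.toRingEquiv.trans
    e4.toRingEquiv).trans e3.toRingEquiv) h

theorem TOP4_K (hGNC : St_GNC4) (hBC : St_BCQ) (hQ4 : St_QORD4) (hC : St_LocC) (hGm : St_Gm)
    (hF : St_LamF) (hLin : St_Lin)
    (hKt : St_Kt) (hO : ∀ (R0 : Type) [CommRing R0] [IsDomain R0] [Algebra.FiniteType ℤ R0],
      KroneckerLeOne (FractionRing R0) → OrdH R0 (FractionRing R0))
    {A K : Type} [CommRing A] [IsDomain A] [Algebra.FiniteType ℤ A] [Field K] [Algebra A K]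
    [IsFractionRing A K] (h2 : (2 : A) ≠ 0) (p : ℕ) [Fact p.Prime]
    [CharP K p] (F : Subfield K) (hFK : KroneckerLeOne F) (t : K)
    (ht : Transcendental F t) (htop : IntermediateField.adjoin F {t} = ⊤)
    (hNK : ¬ KroneckerLeOne K) (n : ℕ)
    (f : MvPolynomial (Fin n) A) (hf : f.totalDegree ≤ 2)
    (hS : BiquatSplit K (CliffordAlgebra.even (hform (MvPolynomial.map (algebraMap A K) f)))) :
    ∃ (x : A) (V : Type) (_ : CommRing V) (_ : Algebra A V), x ≠ 0 ∧
      IsLocalization.Away x V ∧ AddGroup.FG (G0 (MvPolynomial (Fin n) V ⧸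
        Ideal.span {MvPolynomial.map (algebraMap A V) f})) := by
  haveI : IsNoetherianRing A := Algebra.FiniteType.isNoetherianRing ℤ A
  obtain ⟨R0, _, _, _, φ, hφ, hkr, ⟨i, hi⟩, hfrac, ⟨Q, hQ, hAQ⟩, s0, hs0, hs⟩ :=
    SPR (A := A) F hFK t ht htop
  have hinf : Infinite R0 := by
    by_contra h
    haveI : Finite R0 := not_infinite_iff_finite.1 h
    exact hNK (TOPK_fin hKt φ hφ hfrac)
  have hAK : Injective (algebraMap A K) := IsFractionRing.injective A K
  have h2K : (2 : K) ≠ 0 := by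
    intro h
    apply h2
    apply hAK
    rw [map_ofNat, map_zero, h]
  have h20 : (2 : R0) ≠ 0 := by
    intro h
    apply h2
    apply hAK
    rw [map_ofNat, map_zero]
    have h1 : φ (Polynomial.C 2) = 0 := by rw [h, map_zero, map_zero]
    rwa [Polynomial.C_ofNat, map_ofNat] at h1
  have hL : LeftPID R0 := LPID hC R0 (hO R0 hkr) h20
  letI : Algebra (Polynomial R0) K := φ.toAlgebra
  have hCK : Injective (algebraMap (Polynomial R0) K) := hφ
  have hQ0 : Q ≠ 0 := fun h => hQ (by rw [h, map_zero])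
  have trans := TOPK_trans (A := A) (C' := Polynomial R0) (K := K) hAK hCK Q hQ0 hAQ s0 hs0 hs
  -- finite generation of the base
  have hA' : ∃ s : A, s ≠ 0 ∧ ∀ (x : A) (V : Type) [CommRing V] [Algebra A V]
      [IsLocalization.Away x V], s ∣ x → FinGn V := by
    obtain ⟨s', hs', h⟩ := TOPV_zero hkr
    obtain ⟨s, hs, h3⟩ := trans s' hs'
    refine ⟨s, hs, ?_⟩
    intro x V _ _ _ hsx
    by_cases hx : x = 0
    · haveI : Subsingleton V := by
        have h1 : IsUnit (algebraMap A V x) := IsLocalization.Away.algebraMap_isUnit x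
        rw [hx, map_zero] at h1
        exact isUnit_zero_iff.1 h1 |> fun h => subsingleton_of_zero_eq_one h
      exact FinGn.of_subsingleton V
    · obtain ⟨_, x', hx', hd, _, hV, _⟩ := h3 x V hx hsx
      exact h x' V hd
  -- quaternion algebras
  have hQ' : ∀ a b : A, a ≠ 0 → b ≠ 0 → ∃ s : A, s ≠ 0 ∧ ∀ (x : A) (V : Type) [CommRing V]
      [Algebra A V] [IsLocalization.Away x V], x ≠ 0 → s ∣ x →
        GFG ℍ[V,algebraMap A V a,algebraMap A V b] := by
    have sq : ∀ a : A, a ≠ 0 → ∃ (k : ℕ) (a' : Polynomial R0), a' ≠ 0 ∧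
        algebraMap (Polynomial R0) K a' = algebraMap A K a * (algebraMap (Polynomial R0) K Q ^ k) ^ 2 := by
      intro a ha
      obtain ⟨k, p, hp⟩ := hAQ a
      refine ⟨k, p * Q ^ k, mul_ne_zero ?_ (pow_ne_zero _ hQ0), ?_⟩
      · rintro rfl
        rw [map_zero] at hp
        exact mul_ne_zero ((map_ne_zero_iff _ hAK).2 ha) (pow_ne_zero _ hQ) hp
      · have hp' : algebraMap A K a * algebraMap (Polynomial R0) K Q ^ k =
          algebraMap (Polynomial R0) K p := hp
        rw [map_mul, ← hp', map_pow]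
        ring
    intro a b ha hb
    obtain ⟨k, a', ha', haa⟩ := sq a ha
    obtain ⟨l, b', hb', hbb⟩ := sq b hb
    obtain ⟨s', hs', h⟩ := TOPV_quat hkr h20 hL a' b' ha' hb'
    obtain ⟨s, hs, h3⟩ := trans s' hs'
    refine ⟨s, hs, ?_⟩
    intro x V _ _ _ hx hsx
    obtain ⟨_, x', hx', hd, hQd, hV, j, hj, hjA, hjC⟩ := h3 x V hx hsx
    have hG := h x' V hx' hd
    have huQ : IsUnit (algebraMap (Polynomial R0) V Q) :=
      isUnit_of_dvd_unit (map_dvd _ hQd) (IsLocalization.Away.algebraMap_isUnit x')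
    have e1 : algebraMap (Polynomial R0) V a' =
        (algebraMap (Polynomial R0) V Q ^ k) ^ 2 * algebraMap A V a := by
      apply hj
      rw [hjC, haa, map_mul, map_pow, map_pow, hjC, hjA]
      ring
    have e2 : algebraMap (Polynomial R0) V b' =
        (algebraMap (Polynomial R0) V Q ^ l) ^ 2 * algebraMap A V b := by
      apply hj
      rw [hjC, hbb, map_mul, map_pow, map_pow, hjC, hjA]
      ring
    rw [e1, e2] at hG
    obtain ⟨e3⟩ := QI1 (algebraMap A V a) ((algebraMap (Polynomial R0) V Q ^ l) ^ 2 *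
      algebraMap A V b) (algebraMap (Polynomial R0) V Q ^ k) (huQ.pow k)
    obtain ⟨e4⟩ := QI2 (algebraMap A V a) (algebraMap A V b)
      (algebraMap (Polynomial R0) V Q ^ l) (huQ.pow l)
    exact GFG.of_equiv (e3.trans e4) hG
  -- biquaternion algebras
  haveI : CharP R0 p := by
    have hinj : Injective (φ.comp Polynomial.C) := hφ.comp Polynomial.C_injective
    exact (RingHom.charP_iff _ hinj p).2 inferInstance
  haveI : IsFractionRing (Polynomial R0) K := by
    refine { map_units := ?_, surj := ?_, exists_of_eq := ?_ }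
    · intro y
      rw [isUnit_iff_ne_zero]
      exact (map_ne_zero_iff _ hCK).2 (nonZeroDivisors.ne_zero y.2)
    · intro z
      obtain ⟨p, q, hq, h⟩ := hfrac z
      have hq0 : q ≠ 0 := fun h0 => hq (by rw [h0, map_zero])
      exact ⟨(p, ⟨q, mem_nonZeroDivisors_of_ne_zero hq0⟩), h⟩
    · intro x y h
      exact ⟨1, by rw [hCK h]⟩
  have hB' : ∀ a b c d : A, Anis (algebraMap A K a) (algebraMap A K b) (algebraMap A K c)
      (algebraMap A K d) → ∃ s : A, s ≠ 0 ∧ ∀ (x : A) (V : Type) [CommRing V]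
      [Algebra A V] [IsLocalization.Away x V], x ≠ 0 → s ∣ x →
        GFG (BQ V (algebraMap A V a) (algebraMap A V b) (algebraMap A V c)
          (algebraMap A V d)) := by
    have sq : ∀ a : A, a ≠ 0 → ∃ (k : ℕ) (a' : Polynomial R0), a' ≠ 0 ∧
        algebraMap (Polynomial R0) K a' = (algebraMap (Polynomial R0) K Q ^ k) ^ 2 *
          algebraMap A K a := by
      intro a ha
      obtain ⟨k, p, hp⟩ := hAQ a
      refine ⟨k, p * Q ^ k, mul_ne_zero ?_ (pow_ne_zero _ hQ0), ?_⟩
      · rintro rfl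
        rw [map_zero] at hp
        exact mul_ne_zero ((map_ne_zero_iff _ hAK).2 ha) (pow_ne_zero _ hQ) hp
      · have hp' : algebraMap A K a * algebraMap (Polynomial R0) K Q ^ k =
          algebraMap (Polynomial R0) K p := hp
        rw [map_mul, ← hp', map_pow]
        ring
    intro a b c d han
    obtain ⟨ha0, hb0, hc0, hd0⟩ := han.ne
    have nz : ∀ z : A, algebraMap A K z ≠ 0 → z ≠ 0 := by
      rintro z hz rfl
      exact hz (map_zero _)
    obtain ⟨k, a', ha', haa⟩ := sq a (nz a ha0)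
    obtain ⟨l, b', hb', hbb⟩ := sq b (nz b hb0)
    obtain ⟨m, c', hc', hcc⟩ := sq c (nz c hc0)
    obtain ⟨o, d', hd', hdd⟩ := sq d (nz d hd0)
    have hQK : algebraMap (Polynomial R0) K Q ≠ 0 := hQ
    have han' := TOP4_sc (pow_ne_zero k hQK) (pow_ne_zero l hQK) (pow_ne_zero m hQK)
      (pow_ne_zero o hQK) han
    rw [← haa, ← hbb, ← hcc, ← hdd] at han'
    obtain ⟨s', hs', h⟩ := hQ4 p R0 h20 hkr K a' b' c' d' han'
    obtain ⟨s, hs, h3⟩ := trans s' hs'
    refine ⟨s, hs, ?_⟩
    intro x V _ _ _ hx hsx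
    obtain ⟨_, x', hx', hd, hQd, hV, j, hj, hjA, hjC⟩ := h3 x V hx hsx
    have hG := h x' hx' hd
    have huQ : IsUnit (algebraMap (Polynomial R0) V Q) :=
      isUnit_of_dvd_unit (map_dvd _ hQd) (IsLocalization.Away.algebraMap_isUnit x')
    have hG' := TOP4_ring hBC
      (IsLocalization.algEquiv (Submonoid.powers x') (Localization.Away x') V).toRingEquiv _ _ _ _
      hG
    have ee : ∀ y, (IsLocalization.algEquiv (Submonoid.powers x') (Localization.Away x')
        V).toRingEquiv (algebraMap (Polynomial R0) (Localization.Away x') y) =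
        algebraMap (Polynomial R0) V y := fun y => AlgEquiv.commutes _ y
    rw [ee, ee, ee, ee] at hG'
    have e1 : ∀ (a : A) (a' : Polynomial R0) (k : ℕ), algebraMap (Polynomial R0) K a' =
        (algebraMap (Polynomial R0) K Q ^ k) ^ 2 * algebraMap A K a →
        algebraMap (Polynomial R0) V a' =
          (algebraMap (Polynomial R0) V Q ^ k) ^ 2 * algebraMap A V a := by
      intro a a' k haa
      apply hj
      rw [hjC, haa, map_mul, map_pow, map_pow, hjC, hjA]
    rw [e1 a a' k haa, e1 b b' l hbb, e1 c c' m hcc, e1 d d' o hdd] at hG'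
    obtain ⟨e3⟩ := hBC.2.2.2 V (algebraMap A V a) (algebraMap A V b) (algebraMap A V c)
      (algebraMap A V d) (algebraMap (Polynomial R0) V Q ^ k)
      (algebraMap (Polynomial R0) V Q ^ l) (algebraMap (Polynomial R0) V Q ^ m)
      (algebraMap (Polynomial R0) V Q ^ o) (huQ.pow k) (huQ.pow l) (huQ.pow m) (huQ.pow o)
    exact GFG.of_equiv e3.toRingEquiv hG'
  by_cases h : (∀ i, f.coeff (Finsupp.single i 2) = 0) ∧
      ∀ i j, i ≠ j → f.coeff (Finsupp.single i 1 + Finsupp.single j 1) = 0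
  · exact TOPV_linear hLin hA' n f hf h.1 h.2
  · have hu : ∃ u : A, u ≠ 0 ∧ ((∃ i, f.coeff (Finsupp.single i 2) = u) ∨
        ∃ i j, i ≠ j ∧ f.coeff (Finsupp.single i 2) + f.coeff (Finsupp.single j 2) +
          f.coeff (Finsupp.single i 1 + Finsupp.single j 1) = u) := by
      by_cases h1 : ∀ i, f.coeff (Finsupp.single i 2) = 0
      · rw [not_and_or] at h
        rcases h with h | h
        · exact absurd h1 h
        · push Not at h
          obtain ⟨i, j, hij, h⟩ := h
          exact ⟨_, h, Or.inr ⟨i, j, hij, by rw [h1, h1, zero_add, zero_add]⟩⟩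
      · push Not at h1
        obtain ⟨i, hi⟩ := h1
        exact ⟨_, hi, Or.inl ⟨i, rfl⟩⟩
    obtain ⟨u, hu0, hu⟩ := hu
    exact TOP4_quad hGNC hBC hGm hF h2K hA' hQ' hB' n f hf u hu0 hu hS

end Pool.Agent.Q4
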