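import Pool.Agent.Q4.TOP4
import Pool.Agent.Q4.StF

/-!
# Q4, module TOP5: the theorem with centres
-/

set_option autoImplicit false
set_option linter.style.haveILetI false

namespace Pool.Agent.Q4

open Pool.Agent.TQF Pool.Agent.QCB Pool.Agent.QCT Function TensorProduct MvPolynomial
open Pool.Agent.Helper11 Pool.Agent.Helper67.Bass Quaternion

theorem TOP5_fam (hBC : St_BCQ) (hQ4 : St_QORD4) (hC : St_LocC) (hKt : St_Kt)
    (hO : ∀ (R0 : Type) [CommRing R0] [IsDomain R0] [Algebra.FiniteType ℤ R0],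
      KroneckerLeOne (FractionRing R0) → OrdH R0 (FractionRing R0))
    {A K : Type} [CommRing A] [IsDomain A] [Algebra.FiniteType ℤ A] [Field K] [Algebra A K]
    [IsFractionRing A K] (h2 : (2 : A) ≠ 0) (hRK : Ruled K) (hNK : ¬ KroneckerLeOne K) :
    (∃ s : A, s ≠ 0 ∧ ∀ (x : A) (V : Type) [CommRing V] [Algebra A V]
      [IsLocalization.Away x V], s ∣ x → FinGn V) ∧
    (∀ a b : A, a ≠ 0 → b ≠ 0 → ∃ s : A, s ≠ 0 ∧ ∀ (x : A) (V : Type) [CommRing V]
      [Algebra A V] [IsLocalization.Away x V], x ≠ 0 → s ∣ x →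
        GFG ℍ[V,algebraMap A V a,algebraMap A V b]) ∧
    ∀ (p : ℕ) [Fact p.Prime] [CharP K p] (a b c d : A), Anis (algebraMap A K a)
      (algebraMap A K b) (algebraMap A K c) (algebraMap A K d) → ∃ s : A, s ≠ 0 ∧
      ∀ (x : A) (V : Type) [CommRing V] [Algebra A V] [IsLocalization.Away x V], x ≠ 0 → s ∣ x →
        GFG (BQ V (algebraMap A V a) (algebraMap A V b) (algebraMap A V c)
          (algebraMap A V d)) := by
  haveI : IsNoetherianRing A := Algebra.FiniteType.isNoetherianRing ℤ A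
  obtain ⟨F, t, hFK, ht, htop⟩ := hRK
  obtain ⟨R0, _, _, _, φ, hφ, hkr, ⟨i, hi⟩, hfrac, ⟨Q, hQ, hAQ⟩, s0, hs0, hs⟩ :=
    SPR (A := A) F hFK t ht htop
  have hinf : Infinite R0 := by
    by_contra h
    haveI : Finite R0 := not_infinite_iff_finite.1 h
    exact hNK (TOPK_fin hKt φ hφ hfrac)
  have hAK : Injective (algebraMap A K) := IsFractionRing.injective A K
  have h2K : (2 : K) ≠ 0 := by
    intro h
    apply h2
    apply hAK
    rw [map_ofNat, map_zero, h]
  have h20 : (2 : R0) ≠ 0 := by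
    intro h
    apply h2
    apply hAK
    rw [map_ofNat, map_zero]
    have h1 : φ (Polynomial.C 2) = 0 := by rw [h, map_zero, map_zero]
    rwa [Polynomial.C_ofNat, map_ofNat] at h1
  have hL : LeftPID R0 := LPID hC R0 (hO R0 hkr) h20
  letI : Algebra (Polynomial R0) K := φ.toAlgebra
  have hCK : Injective (algebraMap (Polynomial R0) K) := hφ
  have hQ0 : Q ≠ 0 := fun h => hQ (by rw [h, map_zero])
  have trans := TOPK_trans (A := A) (C' := Polynomial R0) (K := K) hAK hCK Q hQ0 hAQ s0 hs0 hs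
  -- finite generation of the base
  have hA' : ∃ s : A, s ≠ 0 ∧ ∀ (x : A) (V : Type) [CommRing V] [Algebra A V]
      [IsLocalization.Away x V], s ∣ x → FinGn V := by
    obtain ⟨s', hs', h⟩ := TOPV_zero hkr
    obtain ⟨s, hs, h3⟩ := trans s' hs'
    refine ⟨s, hs, ?_⟩
    intro x V _ _ _ hsx
    by_cases hx : x = 0
    · haveI : Subsingleton V := by
        have h1 : IsUnit (algebraMap A V x) := IsLocalization.Away.algebraMap_isUnit x
        rw [hx, map_zero] at h1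
        exact isUnit_zero_iff.1 h1 |> fun h => subsingleton_of_zero_eq_one h
      exact FinGn.of_subsingleton V
    · obtain ⟨_, x', hx', hd, _, hV, _⟩ := h3 x V hx hsx
      exact h x' V hd
  -- quaternion algebras
  have hQ' : ∀ a b : A, a ≠ 0 → b ≠ 0 → ∃ s : A, s ≠ 0 ∧ ∀ (x : A) (V : Type) [CommRing V]
      [Algebra A V] [IsLocalization.Away x V], x ≠ 0 → s ∣ x →
        GFG ℍ[V,algebraMap A V a,algebraMap A V b] := by
    have sq : ∀ a : A, a ≠ 0 → ∃ (k : ℕ) (a' : Polynomial R0), a' ≠ 0 ∧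
        algebraMap (Polynomial R0) K a' = algebraMap A K a * (algebraMap (Polynomial R0) K Q ^ k) ^ 2 := by
      intro a ha
      obtain ⟨k, p, hp⟩ := hAQ a
      refine ⟨k, p * Q ^ k, mul_ne_zero ?_ (pow_ne_zero _ hQ0), ?_⟩
      · rintro rfl
        rw [map_zero] at hp
        exact mul_ne_zero ((map_ne_zero_iff _ hAK).2 ha) (pow_ne_zero _ hQ) hp
      · have hp' : algebraMap A K a * algebraMap (Polynomial R0) K Q ^ k =
          algebraMap (Polynomial R0) K p := hp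
        rw [map_mul, ← hp', map_pow]
        ring
    intro a b ha hb
    obtain ⟨k, a', ha', haa⟩ := sq a ha
    obtain ⟨l, b', hb', hbb⟩ := sq b hb
    obtain ⟨s', hs', h⟩ := TOPV_quat hkr h20 hL a' b' ha' hb'
    obtain ⟨s, hs, h3⟩ := trans s' hs'
    refine ⟨s, hs, ?_⟩
    intro x V _ _ _ hx hsx
    obtain ⟨_, x', hx', hd, hQd, hV, j, hj, hjA, hjC⟩ := h3 x V hx hsx
    have hG := h x' V hx' hd
    have huQ : IsUnit (algebraMap (Polynomial R0) V Q) :=
      isUnit_of_dvd_unit (map_dvd _ hQd) (IsLocalization.Away.algebraMap_isUnit x')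
    have e1 : algebraMap (Polynomial R0) V a' =
        (algebraMap (Polynomial R0) V Q ^ k) ^ 2 * algebraMap A V a := by
      apply hj
      rw [hjC, haa, map_mul, map_pow, map_pow, hjC, hjA]
      ring
    have e2 : algebraMap (Polynomial R0) V b' =
        (algebraMap (Polynomial R0) V Q ^ l) ^ 2 * algebraMap A V b := by
      apply hj
      rw [hjC, hbb, map_mul, map_pow, map_pow, hjC, hjA]
      ring
    rw [e1, e2] at hG
    obtain ⟨e3⟩ := QI1 (algebraMap A V a) ((algebraMap (Polynomial R0) V Q ^ l) ^ 2 *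
      algebraMap A V b) (algebraMap (Polynomial R0) V Q ^ k) (huQ.pow k)
    obtain ⟨e4⟩ := QI2 (algebraMap A V a) (algebraMap A V b)
      (algebraMap (Polynomial R0) V Q ^ l) (huQ.pow l)
    exact GFG.of_equiv (e3.trans e4) hG
  -- biquaternion algebras
  haveI : IsFractionRing (Polynomial R0) K := by
    refine { map_units := ?_, surj := ?_, exists_of_eq := ?_ }
    · intro y
      rw [isUnit_iff_ne_zero]
      exact (map_ne_zero_iff _ hCK).2 (nonZeroDivisors.ne_zero y.2)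
    · intro z
      obtain ⟨p, q, hq, h⟩ := hfrac z
      have hq0 : q ≠ 0 := fun h0 => hq (by rw [h0, map_zero])
      exact ⟨(p, ⟨q, mem_nonZeroDivisors_of_ne_zero hq0⟩), h⟩
    · intro x y h
      exact ⟨1, by rw [hCK h]⟩
  refine ⟨hA', hQ', ?_⟩
  intro p _ _
  haveI : CharP R0 p := by
    have hinj : Injective (φ.comp Polynomial.C) := hφ.comp Polynomial.C_injective
    exact (RingHom.charP_iff _ hinj p).2 inferInstance
  have sq : ∀ a : A, a ≠ 0 → ∃ (k : ℕ) (a' : Polynomial R0), a' ≠ 0 ∧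
      algebraMap (Polynomial R0) K a' = (algebraMap (Polynomial R0) K Q ^ k) ^ 2 *
        algebraMap A K a := by
    intro a ha
    obtain ⟨k, p, hp⟩ := hAQ a
    refine ⟨k, p * Q ^ k, mul_ne_zero ?_ (pow_ne_zero _ hQ0), ?_⟩
    · rintro rfl
      rw [map_zero] at hp
      exact mul_ne_zero ((map_ne_zero_iff _ hAK).2 ha) (pow_ne_zero _ hQ) hp
    · have hp' : algebraMap A K a * algebraMap (Polynomial R0) K Q ^ k =
        algebraMap (Polynomial R0) K p := hp
      rw [map_mul, ← hp', map_pow]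
      ring
  intro a b c d han
  obtain ⟨ha0, hb0, hc0, hd0⟩ := han.ne
  have nz : ∀ z : A, algebraMap A K z ≠ 0 → z ≠ 0 := by
    rintro z hz rfl
    exact hz (map_zero _)
  obtain ⟨k, a', ha', haa⟩ := sq a (nz a ha0)
  obtain ⟨l, b', hb', hbb⟩ := sq b (nz b hb0)
  obtain ⟨m, c', hc', hcc⟩ := sq c (nz c hc0)
  obtain ⟨o, d', hd', hdd⟩ := sq d (nz d hd0)
  have hQK : algebraMap (Polynomial R0) K Q ≠ 0 := hQ
  have han' := TOP4_sc (pow_ne_zero k hQK) (pow_ne_zero l hQK) (pow_ne_zero m hQK)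
    (pow_ne_zero o hQK) han
  rw [← haa, ← hbb, ← hcc, ← hdd] at han'
  obtain ⟨s', hs', h⟩ := hQ4 p R0 h20 hkr K a' b' c' d' han'
  obtain ⟨s, hs, h3⟩ := trans s' hs'
  refine ⟨s, hs, ?_⟩
  intro x V _ _ _ hx hsx
  obtain ⟨_, x', hx', hd, hQd, hV, j, hj, hjA, hjC⟩ := h3 x V hx hsx
  have hG := h x' hx' hd
  have huQ : IsUnit (algebraMap (Polynomial R0) V Q) :=
    isUnit_of_dvd_unit (map_dvd _ hQd) (IsLocalization.Away.algebraMap_isUnit x')
  have hG' := TOP4_ring hBC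
    (IsLocalization.algEquiv (Submonoid.powers x') (Localization.Away x') V).toRingEquiv _ _ _ _
    hG
  have ee : ∀ y, (IsLocalization.algEquiv (Submonoid.powers x') (Localization.Away x')
      V).toRingEquiv (algebraMap (Polynomial R0) (Localization.Away x') y) =
      algebraMap (Polynomial R0) V y := fun y => AlgEquiv.commutes _ y
  rw [ee, ee, ee, ee] at hG'
  have e1 : ∀ (a : A) (a' : Polynomial R0) (k : ℕ), algebraMap (Polynomial R0) K a' =
      (algebraMap (Polynomial R0) K Q ^ k) ^ 2 * algebraMap A K a →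
      algebraMap (Polynomial R0) V a' =
        (algebraMap (Polynomial R0) V Q ^ k) ^ 2 * algebraMap A V a := by
    intro a a' k haa
    apply hj
    rw [hjC, haa, map_mul, map_pow, map_pow, hjC, hjA]
  rw [e1 a a' k haa, e1 b b' l hbb, e1 c c' m hcc, e1 d d' o hdd] at hG'
  obtain ⟨e3⟩ := hBC.2.2.2 V (algebraMap A V a) (algebraMap A V b) (algebraMap A V c)
    (algebraMap A V d) (algebraMap (Polynomial R0) V Q ^ k)
    (algebraMap (Polynomial R0) V Q ^ l) (algebraMap (Polynomial R0) V Q ^ m)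
    (algebraMap (Polynomial R0) V Q ^ o) (huQ.pow k) (huQ.pow l) (huQ.pow m) (huQ.pow o)
  exact GFG.of_equiv e3.toRingEquiv hG'

/-- generic form -/
theorem TOP5_num {A K : Type} [CommRing A] [IsDomain A] [Field K] [Algebra A K]
    [IsFractionRing A K] (a : K) (ha : a ≠ 0) :
    ∃ (α : A) (u : K), α ≠ 0 ∧ u ≠ 0 ∧ algebraMap A K α = u ^ 2 * a := by
  obtain ⟨x, y, hy, rfl⟩ := IsFractionRing.div_surjective (A := A) a
  have hy0 : algebraMap A K y ≠ 0 := by
    rw [Ne, FaithfulSMul.algebraMap_eq_zero_iff]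
    exact nonZeroDivisors.ne_zero hy
  have hx0 : x ≠ 0 := by
    rintro rfl
    simp at ha
  refine ⟨x * y, algebraMap A K y, mul_ne_zero hx0 (nonZeroDivisors.ne_zero hy), hy0, ?_⟩
  rw [map_mul]
  field_simp

section
variable {A K : Type} [CommRing A] [IsDomain A] [Field K] [Algebra A K]
    [IsFractionRing A K] {E : Type} [Ring E] [Algebra A E] [Algebra K E] [IsScalarTower A K E]

theorem TOP5_K (h1 : St_GE0)
    (hA : ∃ s : A, s ≠ 0 ∧ ∀ s' : A, s' ≠ 0 → s ∣ s' → GFG (Localization.Away s'))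
    (e : E ≃ₐ[K] K) : GE A E := by
  refine h1 A K A E ((Algebra.TensorProduct.rid A K K).trans e.symm) ?_
  obtain ⟨s, hs, h⟩ := hA
  refine ⟨s, hs, fun s' hs' hd => ?_⟩
  exact (h s' hs' hd).of_equiv
    (Algebra.TensorProduct.rid A (Localization.Away s') (Localization.Away s')).symm.toRingEquiv

theorem TOP5_H (h1 : St_GE0) (h2 : St_BCQ)
    (hQ : ∀ a b : A, a ≠ 0 → b ≠ 0 → ∃ s : A, s ≠ 0 ∧ ∀ s' : A, s' ≠ 0 → s ∣ s' →
      GFG ℍ[Localization.Away s',algebraMap A (Localization.Away s') a,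
        algebraMap A (Localization.Away s') b])
    {a b : K} (ha : a ≠ 0) (hb : b ≠ 0) (e : E ≃ₐ[K] ℍ[K,a,b]) : GE A E := by
  obtain ⟨α, u, hα, hu, hαu⟩ := TOP5_num (A := A) a ha
  obtain ⟨β, v, hβ, hv, hβv⟩ := TOP5_num (A := A) b hb
  obtain ⟨k1, -, k3, -⟩ := h2
  obtain ⟨f1⟩ := k3 K a b u v (IsUnit.mk0 u hu) (IsUnit.mk0 v hv)
  have f2 := k1 A K α β
  rw [hαu, hβv] at f2
  obtain ⟨f2⟩ := f2
  refine h1 A K ℍ[A,α,β] E ((f2.trans f1).trans e.symm) ?_
  obtain ⟨s, hs, h⟩ := hQ α β hα hβ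
  refine ⟨s, hs, fun s' hs' hd => ?_⟩
  obtain ⟨f3⟩ := k1 A (Localization.Away s') α β
  exact (h s' hs' hd).of_equiv f3.symm.toRingEquiv

theorem TOP5_B (h1 : St_GE0) (h2 : St_BCQ)
    (hB : ∀ a b c d : A, Anis (algebraMap A K a) (algebraMap A K b) (algebraMap A K c)
      (algebraMap A K d) → ∃ s : A, s ≠ 0 ∧ ∀ s' : A, s' ≠ 0 → s ∣ s' →
        GFG (BQ (Localization.Away s') (algebraMap A _ a) (algebraMap A _ b) (algebraMap A _ c)
          (algebraMap A _ d)))
    {a b c d : K} (ha : a ≠ 0) (hb : b ≠ 0) (hc : c ≠ 0) (hd : d ≠ 0) (hn : Anis a b c d)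
    (e : E ≃ₐ[K] BQ K a b c d) : GE A E := by
  obtain ⟨α, u, hα, hu, hαu⟩ := TOP5_num (A := A) a ha
  obtain ⟨β, v, hβ, hv, hβv⟩ := TOP5_num (A := A) b hb
  obtain ⟨γ, w, hγ, hw, hγw⟩ := TOP5_num (A := A) c hc
  obtain ⟨δ, z, hδ, hz, hδz⟩ := TOP5_num (A := A) d hd
  obtain ⟨-, k2, -, k4⟩ := h2
  obtain ⟨f1⟩ := k4 K a b c d u v w z (IsUnit.mk0 u hu) (IsUnit.mk0 v hv) (IsUnit.mk0 w hw)
    (IsUnit.mk0 z hz)
  have f2 := k2 A K α β γ δ
  rw [hαu, hβv, hγw, hδz] at f2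
  obtain ⟨f2⟩ := f2
  refine h1 A K (BQ A α β γ δ) E ((f2.trans f1).trans e.symm) ?_
  obtain ⟨s, hs, h⟩ := hB α β γ δ (by
    rw [hαu, hβv, hγw, hδz]
    exact TOP4_sc hu hv hw hz hn)
  refine ⟨s, hs, fun s' hs' hd => ?_⟩
  obtain ⟨f3⟩ := k2 A (Localization.Away s') α β γ δ
  exact (h s' hs' hd).of_equiv f3.symm.toRingEquiv

end


/-- the algebras of the list are good -/
theorem TOP5_Fac (h1 : St_GE0) (h2 : St_BCQ) (h3 : St_GEM) (h5 : St_ALBE) (h6 : St_GEX)
    (h7 : St_ORL) (hQ4 : St_QORD4) (hC : St_LocC) (hKt : St_Kt)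
    (hO : ∀ (R0 : Type) [CommRing R0] [IsDomain R0] [Algebra.FiniteType ℤ R0],
      KroneckerLeOne (FractionRing R0) → OrdH R0 (FractionRing R0))
    {A K : Type} [CommRing A] [IsDomain A] [Algebra.FiniteType ℤ A] [Field K] [Algebra A K]
    [IsFractionRing A K] (h2A : (2 : A) ≠ 0) (hNK : ¬ KroneckerLeOne K) {E : Type} [Ring E]
    [Algebra A E] [Algebra K E] [IsScalarTower A K E] (hE : Fac K E) : GE A E := by
  obtain ⟨L, _, _, hfin, hL, hE⟩ := hE
  letI : Algebra A L := Algebra.compHom L (algebraMap A K)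
  haveI : IsScalarTower A K L := IsScalarTower.of_algebraMap_eq' rfl
  obtain ⟨A', _, _, _, _, hA'fin, hinj, htow, hfrac, hft⟩ := h7 A K L
  have hft' : @Algebra.FiniteType ℤ A' _ _ (Ring.toIntAlgebra A') := hft
  have h2A' : (2 : A') ≠ 0 := by
    intro h
    apply h2A
    apply hinj
    rw [map_ofNat, map_zero, h]
  have h2L : (2 : L) ≠ 0 := by
    intro h
    apply h2A'
    apply IsFractionRing.injective A' L
    rw [map_ofNat, map_zero, h]
  have hNL : ¬ KroneckerLeOne L := fun h => hNK (KroneckerLeOne.of_hom (algebraMap K L) h)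
  obtain ⟨f1, f2, f3⟩ := TOP5_fam h2 hQ4 hC hKt hO (A := A') (K := L) h2A' hL hNL
  have hA : ∃ s : A', s ≠ 0 ∧ ∀ s' : A', s' ≠ 0 → s ∣ s' → GFG (Localization.Away s') := by
    obtain ⟨s, hs, h⟩ := f1
    exact ⟨s, hs, fun s' hs' hd => (EGFG.modC_iff _).1
      (EGFG.of_finG _ (TOPV_T0 (h s' (Localization.Away s') hd)))⟩
  have hQ : ∀ a b : A', a ≠ 0 → b ≠ 0 → ∃ s : A', s ≠ 0 ∧ ∀ s' : A', s' ≠ 0 → s ∣ s' →
      GFG ℍ[Localization.Away s',algebraMap A' (Localization.Away s') a,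
        algebraMap A' (Localization.Away s') b] := by
    intro a b ha hb
    obtain ⟨s, hs, h⟩ := f2 a b ha hb
    exact ⟨s, hs, fun s' hs' hd => h s' (Localization.Away s') hs' hd⟩
  have tr : ∀ (X : Type) [Ring X] [Algebra A X] [Algebra A' X] [Algebra K X]
      [IsScalarTower A A' X] [IsScalarTower A K X], (E ≃ₐ[K] X) → GE A' X → GE A E := by
    intro X _ _ _ _ _ _ e hX
    exact h3.2 A X E (e.restrictScalars A).symm (h6 A A' hinj X hX)
  rcases hE with ⟨⟨e⟩⟩ | ⟨a, b, ha, hb, ⟨e⟩⟩ | ⟨⟨p, hp, hpK⟩, a, b, c, d, ha, hb, hc, hd, ⟨e⟩⟩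
  · exact tr L e (TOP5_K (K := L) h1 hA AlgEquiv.refl)
  · exact tr _ e (TOP5_H (K := L) h1 h2 hQ ha hb AlgEquiv.refl)
  · haveI : Fact p.Prime := ⟨hp⟩
    haveI : CharP L p := by
      refine (CharP.charP_iff_prime_eq_zero hp).2 ?_
      rw [← map_natCast (algebraMap K L), hpK, map_zero]
    have hB : ∀ a b c d : A', Anis (algebraMap A' L a) (algebraMap A' L b) (algebraMap A' L c)
        (algebraMap A' L d) → ∃ s : A', s ≠ 0 ∧ ∀ s' : A', s' ≠ 0 → s ∣ s' →
          GFG (BQ (Localization.Away s') (algebraMap A' _ a) (algebraMap A' _ b)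
            (algebraMap A' _ c) (algebraMap A' _ d)) := by
      intro a b c d han
      obtain ⟨s, hs, h⟩ := f3 p a b c d han
      exact ⟨s, hs, fun s' hs' hd => h s' (Localization.Away s') hs' hd⟩
    refine tr _ e ?_
    by_cases hn : Anis a b c d
    · exact TOP5_B (K := L) h1 h2 hB ha hb hc hd hn AlgEquiv.refl
    · obtain ⟨a', b', ha', hb', ⟨f⟩⟩ := h5 L a b c d h2L ha hb hc hd hn
      have g1 : GE A' ℍ[L,a',b'] := TOP5_H (K := L) h1 h2 hQ ha' hb' AlgEquiv.refl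
      have g2 := h3.1 A' 1 (fun _ => 2) (fun _ => ℍ[L,a',b']) (fun _ => g1)
      have f1 : (Fin 1 → Matrix (Fin 2) (Fin 2) ℍ[L,a',b']) ≃ₐ[A']
        Matrix (Fin 2) (Fin 2) ℍ[L,a',b'] := AlgEquiv.funUnique A' (Fin 1) _
      have f2 : Matrix (Fin 2) (Fin 2) ℍ[L,a',b'] ≃ₐ[A'] BQ L a b c d :=
        f.symm.restrictScalars A'
      exact h3.2 A' _ _ (f1.trans f2) g2

theorem TOP5_GNC (h1 : St_GE0) (h2 : St_BCQ) (h3 : St_GEM) (h4 : St_GEN) (h5 : St_ALBE)
    (h6 : St_GEX) (h7 : St_ORL) (hQ4 : St_QORD4) (hC : St_LocC) (hKt : St_Kt)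
    (hO : ∀ (R0 : Type) [CommRing R0] [IsDomain R0] [Algebra.FiniteType ℤ R0],
      KroneckerLeOne (FractionRing R0) → OrdH R0 (FractionRing R0))
    {A K : Type} [CommRing A] [IsDomain A] [Algebra.FiniteType ℤ A] [Field K] [Algebra A K]
    [IsFractionRing A K] (h2A : (2 : A) ≠ 0) (hNK : ¬ KroneckerLeOne K) (Λ : Type) [Ring Λ]
    [Algebra A Λ] [Module.Finite A Λ] (hsp : CSplit K (K ⊗[A] Λ)) :
    ∃ s : A, s ≠ 0 ∧ ∀ s' : A, s' ≠ 0 → s ∣ s' → GFG (Localization.Away s' ⊗[A] Λ) := by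
  haveI : IsNoetherianRing A := Algebra.FiniteType.isNoetherianRing ℤ A
  obtain ⟨n, d, E, iR, iK, π, hπ, hnil, hE⟩ := hsp
  let iA : ∀ i, Algebra A (E i) := fun i => Algebra.compHom (E i) (algebraMap A K)
  have iT : ∀ i, IsScalarTower A K (E i) := fun i => IsScalarTower.of_algebraMap_eq' rfl
  refine h4 A K Λ (∀ i, Matrix (Fin (d i)) (Fin (d i)) (E i)) π hπ hnil ?_
  refine h3.1 A n d E fun i => ?_
  exact TOP5_Fac h1 h2 h3 h5 h6 h7 hQ4 hC hKt hO h2A hNK (hE i)

/-- invariance of the hypothesis under isomorphisms -/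
theorem CSplit.congr {K Λ Λ' : Type} [Field K] [Ring Λ] [Ring Λ'] [Algebra K Λ] [Algebra K Λ']
    (e : Λ ≃ₐ[K] Λ') (h : CSplit K Λ) : CSplit K Λ' := by
  obtain ⟨r, d, E, i1, i2, π, hsurj, ⟨n, hn⟩, hab⟩ := h
  refine ⟨r, d, E, i1, i2, π.comp (e.symm : Λ' →ₐ[K] Λ), ?_, ⟨n, ?_⟩, hab⟩
  · intro y
    obtain ⟨x, hx⟩ := hsurj y
    refine ⟨e x, ?_⟩
    rw [AlgHom.comp_apply]
    simpa using hx
  · have key : ∀ n : ℕ, ∀ y ∈ (RingHom.ker (π.comp (e.symm : Λ' →ₐ[K] Λ))) ^ n,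
        e.symm y ∈ (RingHom.ker π) ^ n := by
      intro n
      induction n with
      | zero =>
        intro y _
        rw [Submodule.pow_zero, Submodule.one_eq_span]
        exact Submodule.mem_span_singleton.2 ⟨e.symm y, by rw [smul_eq_mul, mul_one]⟩
      | succ n ih =>
        intro y hy
        rw [Submodule.pow_succ] at hy ⊢
        have h1 : (RingHom.ker (π.comp (e.symm : Λ' →ₐ[K] Λ))) ^ n *
            (RingHom.ker (π.comp (e.symm : Λ' →ₐ[K] Λ))) ≤
            Ideal.comap (e.symm : Λ' ≃ₐ[K] Λ) ((RingHom.ker π) ^ n * RingHom.ker π) := by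
          rw [Ideal.mul_le]
          intro u hu v hv
          rw [Ideal.mem_comap, map_mul]
          refine Ideal.mul_mem_mul (ih u hu) ?_
          rw [RingHom.mem_ker] at hv ⊢
          exact hv
        exact h1 hy
    rw [Submodule.zero_eq_bot, eq_bot_iff]
    intro y hy
    have h1 := key n y hy
    rw [hn] at h1
    have h2 : e.symm y = 0 := h1
    have h3 : y = 0 := by
      rw [← e.apply_symm_apply y, h2, map_zero]
    rw [h3]
    exact Submodule.zero_mem _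


theorem TOP5_quad (h1 : St_GE0) (h2 : St_BCQ) (h3 : St_GEM) (h4 : St_GEN) (h5 : St_ALBE)
    (h6 : St_GEX) (h7 : St_ORL) (hQ4 : St_QORD4) (hC : St_LocC) (hKt : St_Kt)
    (hO : ∀ (R0 : Type) [CommRing R0] [IsDomain R0] [Algebra.FiniteType ℤ R0],
      KroneckerLeOne (FractionRing R0) → OrdH R0 (FractionRing R0)) (hGm : St_Gm) (hF : St_LamF)
    {A K : Type} [CommRing A] [IsDomain A] [Algebra.FiniteType ℤ A] [Field K] [Algebra A K]
    [IsFractionRing A K] (h2A : (2 : A) ≠ 0) (hNK : ¬ KroneckerLeOne K)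
    (hA : ∃ s : A, s ≠ 0 ∧ ∀ (x : A) (V : Type) [CommRing V] [Algebra A V]
      [IsLocalization.Away x V], s ∣ x → FinGn V)
    (n : ℕ) (f : MvPolynomial (Fin n) A) (hf : f.totalDegree ≤ 2) (u : A) (hu0 : u ≠ 0)
    (hu : (∃ i, f.coeff (Finsupp.single i 2) = u) ∨ ∃ i j, i ≠ j ∧
      f.coeff (Finsupp.single i 2) + f.coeff (Finsupp.single j 2) +
        f.coeff (Finsupp.single i 1 + Finsupp.single j 1) = u)
    (hS : CSplit K (CliffordAlgebra.even (hform (MvPolynomial.map (algebraMap A K) f)))) :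
    ∃ (x : A) (V : Type) (_ : CommRing V) (_ : Algebra A V), x ≠ 0 ∧
      IsLocalization.Away x V ∧ AddGroup.FG (G0 (MvPolynomial (Fin n) V ⧸
        Ideal.span {MvPolynomial.map (algebraMap A V) f})) := by
  haveI : IsNoetherianRing A := Algebra.FiniteType.isNoetherianRing ℤ A
  obtain ⟨s₀, hs₀, hA⟩ := hA
  obtain ⟨A₁, _, _, _⟩ : ∃ (A₁ : Type) (_ : CommRing A₁) (_ : Algebra A A₁),
      IsLocalization.Away u A₁ := ⟨Localization.Away u, inferInstance, inferInstance, inferInstance⟩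
  have _ : IsDomain A₁ := IsLocalization.Away.isDomain (R := A) _ hu0
  have _ : IsNoetherianRing A₁ :=
    IsLocalization.isNoetherianRing (Submonoid.powers u) A₁ inferInstance
  have hinj : Injective (algebraMap A A₁) :=
    IsLocalization.injective A₁ (powers_le_nonZeroDivisors_of_noZeroDivisors hu0)
  have hunit : IsUnit (algebraMap A A₁ u) := IsLocalization.Away.algebraMap_isUnit u
  have huK : IsUnit (algebraMap A K u) := by
    rw [isUnit_iff_ne_zero, Ne, map_eq_zero_iff _ (IsFractionRing.injective A K)]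
    exact hu0
  let _ : Algebra A₁ K := (IsLocalization.Away.lift (S := A₁) u huK).toAlgebra
  have _ : IsScalarTower A A₁ K := IsScalarTower.of_algebraMap_eq fun y =>
    (IsLocalization.Away.lift_eq (S := A₁) u huK y).symm
  have _ : IsFractionRing A₁ K :=
    IsFractionRing.isFractionRing_of_isDomain_of_isLocalization (Submonoid.powers u) A₁ K
  obtain ⟨m, q, hiso, ⟨e⟩⟩ := MonX (A := A₁) (K := K) n (MvPolynomial.map (algebraMap A A₁) f)
    ((TOPV_deg (algebraMap A A₁) f).trans hf) (by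
      simp only [MvPolynomial.coeff_map, ← map_add]
      rcases hu with ⟨i, hi⟩ | ⟨i, j, hij, h⟩
      · exact Or.inl ⟨i, by rw [hi]; exact hunit⟩
      · exact Or.inr ⟨i, j, hij, by rw [h]; exact hunit⟩)
  rw [MvPolynomial.map_map, ← IsScalarTower.algebraMap_eq] at e
  obtain ⟨e2⟩ := LamBC (K := K) m q
  have hS' : CSplit K (K ⊗[A₁] Lam q) := (hS.congr e).congr e2.symm
  have _ : Module.Finite A₁ (Lam q) := hF A₁ m q
  have h2A₁ : (2 : A₁) ≠ 0 := by
    intro h
    apply h2A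
    apply hinj
    rw [map_ofNat, map_zero, h]
  haveI : Algebra.FiniteType A A₁ := IsLocalization.finiteType_of_monoid_fg (Submonoid.powers u) A₁
  have hft : Algebra.FiniteType ℤ A₁ := Algebra.FiniteType.trans (S := A) inferInstance inferInstance
  obtain ⟨s, hs, hG⟩ := TOP5_GNC h1 h2 h3 h4 h5 h6 h7 hQ4 hC hKt hO h2A₁ hNK (Lam q) hS'
  obtain ⟨k, s₁, hs₁⟩ := IsLocalization.Away.surj u s
  have hy : algebraMap A A₁ (s₁ * s₀) ≠ 0 := by
    rw [map_mul, ← hs₁]
    exact mul_ne_zero (mul_ne_zero hs (pow_ne_zero _ hunit.ne_zero))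
      ((map_ne_zero_iff _ hinj).2 hs₀)
  have hsy : s ∣ algebraMap A A₁ (s₁ * s₀) := by
    rw [map_mul, ← hs₁, mul_assoc]
    exact Dvd.intro _ rfl
  have h1 := hG _ hy hsy
  obtain ⟨V, _, _, _, _, hV, hG'⟩ : ∃ (V : Type) (_ : CommRing V) (_ : Algebra A₁ V)
      (_ : Algebra A V) (_ : IsScalarTower A A₁ V),
      IsLocalization.Away (algebraMap A A₁ (s₁ * s₀)) V ∧ GFG (V ⊗[A₁] Lam q) :=
    ⟨Localization.Away (algebraMap A A₁ (s₁ * s₀)), inferInstance, inferInstance, inferInstance,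
      inferInstance, inferInstance, h1⟩
  have hx : IsLocalization.Away (s₁ * s₀ * u) V := IsLocalization.Away.mul A₁ V u (s₁ * s₀)
  have hfV : FinGn V := hA (s₁ * s₀ * u) V ⟨s₁ * u, by ring⟩
  have _ : IsNoetherianRing V :=
    IsLocalization.isNoetherianRing (Submonoid.powers (s₁ * s₀ * u)) V inferInstance
  have h3 : EGFG (qC (q.map (algebraMap A₁ V)).l (q.map (algebraMap A₁ V)).g) :=
    GQ hGm V m (q.map (algebraMap A₁ V)) (TOPV_T0 hfV) (GLam hF A₁ V m q hG')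
  have h4 := GT (MvPolynomial (Fin m) V) _ _ h3
  obtain ⟨e3⟩ := hiso V
  rw [MvPolynomial.map_map, ← IsScalarTower.algebraMap_eq] at e3
  refine ⟨s₁ * s₀ * u, V, inferInstance, inferInstance, mul_ne_zero (mul_ne_zero ?_ hs₀) hu0, hx,
    BassH.closed_equiv _ _ e3.symm h4⟩
  rintro rfl
  rw [zero_mul, map_zero] at hy
  exact hy rfl

theorem TOP5_gen (h1 : St_GE0) (h2 : St_BCQ) (h3 : St_GEM) (h4 : St_GEN) (h5 : St_ALBE)
    (h6 : St_GEX) (h7 : St_ORL) (hQ4 : St_QORD4) (hC : St_LocC) (hKt : St_Kt)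
    (hO : ∀ (R0 : Type) [CommRing R0] [IsDomain R0] [Algebra.FiniteType ℤ R0],
      KroneckerLeOne (FractionRing R0) → OrdH R0 (FractionRing R0)) (hGm : St_Gm) (hF : St_LamF)
    (hLin : St_Lin) {A K : Type} [CommRing A] [IsDomain A] [Algebra.FiniteType ℤ A] [Field K]
    [Algebra A K] [IsFractionRing A K] (h2A : (2 : A) ≠ 0) (hRK : Ruled K)
    (hNK : ¬ KroneckerLeOne K) (n : ℕ) (f : MvPolynomial (Fin n) A) (hf : f.totalDegree ≤ 2)
    (hS : CSplit K (CliffordAlgebra.even (hform (MvPolynomial.map (algebraMap A K) f)))) :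
    ∃ (x : A) (V : Type) (_ : CommRing V) (_ : Algebra A V), x ≠ 0 ∧
      IsLocalization.Away x V ∧ AddGroup.FG (G0 (MvPolynomial (Fin n) V ⧸
        Ideal.span {MvPolynomial.map (algebraMap A V) f})) := by
  haveI : IsNoetherianRing A := Algebra.FiniteType.isNoetherianRing ℤ A
  obtain ⟨hA', -, -⟩ := TOP5_fam h2 hQ4 hC hKt hO (A := A) (K := K) h2A hRK hNK
  by_cases h : (∀ i, f.coeff (Finsupp.single i 2) = 0) ∧
      ∀ i j, i ≠ j → f.coeff (Finsupp.single i 1 + Finsupp.single j 1) = 0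
  · exact TOPV_linear hLin hA' n f hf h.1 h.2
  · have hu : ∃ u : A, u ≠ 0 ∧ ((∃ i, f.coeff (Finsupp.single i 2) = u) ∨
        ∃ i j, i ≠ j ∧ f.coeff (Finsupp.single i 2) + f.coeff (Finsupp.single j 2) +
          f.coeff (Finsupp.single i 1 + Finsupp.single j 1) = u) := by
      by_cases h1 : ∀ i, f.coeff (Finsupp.single i 2) = 0
      · rw [not_and_or] at h
        rcases h with h | h
        · exact absurd h1 h
        · push Not at h
          obtain ⟨i, j, hij, h⟩ := h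
          exact ⟨_, h, Or.inr ⟨i, j, hij, by rw [h1, h1, zero_add, zero_add]⟩⟩
      · push Not at h1
        obtain ⟨i, hi⟩ := h1
        exact ⟨_, hi, Or.inl ⟨i, rfl⟩⟩
    obtain ⟨u, hu0, hu⟩ := hu
    exact TOP5_quad h1 h2 h3 h4 h5 h6 h7 hQ4 hC hKt hO hGm hF h2A hNK hA' n f hf u hu0 hu hS

end Pool.Agent.Q4
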